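import Pool.Agent.Work.MP_3893a0_gt.Defs

/-! Definitions for the final statement: complex curves in a complex surface. -/

open scoped ContDiff Topology Manifold
open Metric Set Filter

noncomputable section

namespace Sing

/-- `C` is a (possibly reducible, possibly singular) compact complex curve in the compact
complex surface `X`: it is closed and near each of its points it is the zero set of a
holomorphic function which does not vanish identically near the point. -/
def IsCurve {X : Type*} [TopologicalSpace X] [ChartedSpace (ℂ × ℂ) X] (C : Set X) : Prop :=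
  IsClosed C ∧ ∀ x ∈ C, ∃ U : Set X, IsOpen U ∧ x ∈ U ∧ ∃ f : X → ℂ,
    MDifferentiableOn 𝓘(ℂ, ℂ × ℂ) 𝓘(ℂ, ℂ) f U ∧ (¬ ∀ᶠ y in 𝓝 x, f y = 0) ∧
      C ∩ U = {y | y ∈ U ∧ f y = 0}

/-- compatibility of a `G`-atlas on `Y` with the complex surface `X` below -/
structure Compat {G X Y : Type*} [Group G] [TopologicalSpace Y] [MulAction G Y]
    [TopologicalSpace X] [ChartedSpace (ℂ × ℂ) X] (𝒜 : Atl G Y) (p : Y → X) : Prop where
  inj : ∀ i, InjOn p (𝒜.φ i).source
  form : ∀ i, ∃ e ∈ atlas (ℂ × ℂ) X, ∃ c : ℂ, c ≠ 0 ∧ ∃ z0 : ℂ × ℂ, ∀ y ∈ (𝒜.φ i).source,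
    p y ∈ e.source ∧ 𝒜.φ i y = c • (e (p y) - z0)

end Sing
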