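import Pool.Agent.Work.MP_3893a0_gt.Defs
import Pool.Agent.Work.MP_3893a0_gt.Statement

/-! Modules ATL1, ATL2: the atlas of the universal cover of a compact complex surface. -/

open scoped ContDiff Topology Manifold
open MeasureTheory Metric Set Filter

noncomputable section

namespace Sing

variable {G X Y : Type*} [Group G] [TopologicalSpace Y] [MulAction G Y]
  [TopologicalSpace X] [ChartedSpace (ℂ × ℂ) X]

omit [ChartedSpace (ℂ × ℂ) X] in
/-- (ATL1) -/
theorem t2_of_cover [T2Space X] {p : Y → X} (hp : IsQuotientCoveringMap p G) : T2Space Y := by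
  refine ⟨fun a b hab => ?_⟩
  by_cases h : p a = p b
  · obtain ⟨g, hg⟩ := hp.apply_eq_iff_mem_orbit.1 h
    have hg' : g • b = a := hg
    obtain ⟨U, hU, hUd⟩ := hp.disjoint b
    obtain ⟨V, hVU, hVo, hbV⟩ := mem_nhds_iff.1 hU
    have := hp.toContinuousConstSMul
    refine ⟨(fun y => g⁻¹ • y) ⁻¹' V, V, hVo.preimage (continuous_const_smul _), hVo, ?_, hbV, ?_⟩
    · simp only [mem_preimage]
      rw [← hg', inv_smul_smul]
      exact hbV
    · rw [Set.disjoint_left]
      intro y hy hy'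
      simp only [mem_preimage] at hy
      have h1 : g = 1 := hUd g ⟨y, ⟨g⁻¹ • y, hVU hy, by simp⟩, hVU hy'⟩
      rw [h1, one_smul] at hg'
      exact hab hg'.symm
  · obtain ⟨U, V, hU, hV, haU, hbV, hUV⟩ := t2_separation h
    have hc : Continuous p := hp.toIsQuotientMap.continuous
    exact ⟨p ⁻¹' U, p ⁻¹' V, hU.preimage hc, hV.preimage hc, haU, hbV, hUV.preimage p⟩

/-- (ATL1) -/
theorem lpc_of_cover {p : Y → X} (hp : IsQuotientCoveringMap p G) :
    LocallyPathConnectedSpace Y := by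
  have hl : IsLocalHomeomorph p := hp.isCoveringMap.isLocalHomeomorph
  choose e he hpe using hl
  let C : ChartedSpace (ℂ × ℂ) Y :=
    { atlas := range (fun y => (e y).trans (chartAt (ℂ × ℂ) (p y)))
      chartAt := fun y => (e y).trans (chartAt (ℂ × ℂ) (p y))
      mem_chart_source := by
        intro y
        rw [OpenPartialHomeomorph.trans_source]
        refine ⟨he y, ?_⟩
        have : (e y) y = p y := (congrFun (hpe y) y).symm
        rw [mem_preimage, this]
        exact mem_chart_source _ _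
      chart_mem_atlas := fun y => mem_range_self y }
  exact ChartedSpace.locallyPathConnectedSpace (ℂ × ℂ) Y

/-- a chart around `y` -/
theorem exists_chart {p : Y → X} (hl : IsLocalHomeomorph p) (y : Y) :
    ∃ φ : OpenPartialHomeomorph Y E, φ.target = ball 0 4 ∧ y ∈ φ.source ∧ φ y = 0 ∧
      InjOn p φ.source ∧ ∃ e ∈ atlas (ℂ × ℂ) X, ∃ c : ℂ, c ≠ 0 ∧ ∃ z0 : ℂ × ℂ,
        ∀ y' ∈ φ.source, p y' ∈ e.source ∧ φ y' = c • (e (p y') - z0) := by
  obtain ⟨e0, hy0, hpe⟩ := hl y
  set e : OpenPartialHomeomorph X (ℂ × ℂ) := chartAt (ℂ × ℂ) (p y) with he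
  have hpe' : ∀ y', e0 y' = p y' := fun y' => (congrFun hpe y').symm
  set h : OpenPartialHomeomorph Y E := e0.trans e with hh
  have hhs : h.source = e0.source ∩ e0 ⁻¹' e.source := by
    rw [hh, OpenPartialHomeomorph.trans_source]
  have hya : y ∈ h.source := by
    rw [hhs]
    refine ⟨hy0, ?_⟩
    rw [mem_preimage, hpe']
    exact mem_chart_source _ _
  have hhc : ∀ y', h y' = e (p y') := by
    intro y'
    rw [hh, OpenPartialHomeomorph.coe_trans, Function.comp_apply, hpe']
  set z0 : ℂ × ℂ := h y with hz0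
  have hz0t : z0 ∈ h.target := h.map_source hya
  obtain ⟨r, hr, hrb⟩ := Metric.isOpen_iff.1 h.open_target z0 hz0t
  -- scaling
  set ρ : ℝ := r / 4 with hρ
  have hρ0 : 0 < ρ := by positivity
  set c : ℂ := ((ρ⁻¹ : ℝ) : ℂ) with hc
  have hc0 : c ≠ 0 := by
    rw [hc]; exact_mod_cast inv_ne_zero hρ0.ne'
  set L : E ≃ₜ E := (Homeomorph.subRight z0).trans (Homeomorph.smulOfNeZero c hc0) with hL
  have hLa : ∀ z, L z = c • (z - z0) := fun z => rfl
  have hLs : ∀ z, L.symm z = c⁻¹ • z + z0 := by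
    intro z
    rw [Homeomorph.symm_apply_eq, hLa]
    simp [smul_smul, mul_inv_cancel₀ hc0]
  set k : OpenPartialHomeomorph Y E := h.transHomeomorph L with hk
  have hkt : ball (0 : E) 4 ⊆ k.target := by
    intro z hz
    have : k.target = L.symm ⁻¹' h.target := rfl
    rw [this, mem_preimage, hLs]
    apply hrb
    rw [mem_ball, dist_eq_norm, add_sub_cancel_right, norm_smul, norm_inv]
    have hcn : ‖c‖ = ρ⁻¹ := by
      rw [hc, Complex.norm_real, Real.norm_of_nonneg (by positivity)]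
    rw [hcn, inv_inv]
    have : ‖z‖ < 4 := by simpa using hz
    calc ρ * ‖z‖ < ρ * 4 := by gcongr
      _ = r := by rw [hρ]; ring
  set φ : OpenPartialHomeomorph Y E := (k.symm.restrOpen (ball 0 4) isOpen_ball).symm with hφ
  have hφt : φ.target = ball 0 4 := by
    rw [hφ, OpenPartialHomeomorph.symm_target, OpenPartialHomeomorph.restrOpen_source,
      OpenPartialHomeomorph.symm_source]
    exact inter_eq_right.2 hkt
  have hφc : ∀ y', φ y' = c • (e (p y') - z0) := by
    intro y'
    have : φ y' = L (h y') := rfl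
    rw [this, hLa, hhc]
  have hφs : φ.source ⊆ h.source := by
    intro y' hy'
    have h1 : φ y' ∈ φ.target := φ.map_source hy'
    have h2 : φ.symm (φ y') = y' := φ.left_inv hy'
    rw [hφt] at h1
    have h3 : k.symm (φ y') ∈ k.source := k.map_target (hkt h1)
    have h4 : φ.symm (φ y') = k.symm (φ y') := rfl
    rw [← h4, h2] at h3
    exact h3
  have hys : y ∈ φ.source := by
    have h1 : (0 : E) ∈ φ.target := by rw [hφt]; simp
    have h2 := φ.map_target h1
    have h3 : φ.symm 0 = y := by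
      have : φ.symm 0 = h.symm (L.symm 0) := rfl
      rw [this, hLs, smul_zero, zero_add, hz0]
      exact h.left_inv hya
    rwa [h3] at h2
  refine ⟨φ, hφt, hys, ?_, ?_, e, chart_mem_atlas _ _, c, hc0, z0, ?_⟩
  · rw [hφc, ← hhc, ← hz0, sub_self, smul_zero]
  · intro a ha b hb hab
    have ha' := hφs ha
    have hb' := hφs hb
    rw [hhs] at ha' hb'
    refine e0.injOn ha'.1 hb'.1 ?_
    rw [hpe', hpe', hab]
  · intro y' hy'
    have := hφs hy'
    rw [hhs] at this
    refine ⟨?_, hφc y'⟩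
    have h2 := this.2
    rwa [mem_preimage, hpe'] at h2

omit [ChartedSpace (ℂ × ℂ) X] in
/-- properness of the action -/
theorem finite_of_compact [T2Space X] {p : Y → X} (hp : IsQuotientCoveringMap p G)
    {K L : Set Y} (hK : IsCompact K) (hL : IsCompact L) :
    {g : G | ∃ x ∈ K, ∃ y ∈ L, g • x = y}.Finite := by
  have hKL : IsCompact (K ×ˢ L) := hK.prod hL
  have hloc : ∀ q ∈ K ×ˢ L, ∃ W ∈ 𝓝[K ×ˢ L] q,
      {g : G | ∃ q' ∈ W, g • q'.1 = q'.2}.Finite := by
    rintro ⟨x, y⟩ -
    by_cases h : p y = p x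
    · obtain ⟨g0, hg0⟩ := hp.apply_eq_iff_mem_orbit.1 h
      have hg0' : g0 • x = y := hg0
      obtain ⟨U, hU, hUd⟩ := hp.disjoint x
      have := hp.toContinuousConstSMul
      have hV : (fun y => g0⁻¹ • y) ⁻¹' U ∈ 𝓝 y := by
        apply (continuous_const_smul g0⁻¹).continuousAt.preimage_mem_nhds
        rw [← hg0', inv_smul_smul]
        exact hU
      refine ⟨U ×ˢ ((fun y => g0⁻¹ • y) ⁻¹' U), mem_nhdsWithin_of_mem_nhds (prod_mem_nhds hU hV),
        (finite_singleton g0).subset ?_⟩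
      rintro g ⟨⟨x', y'⟩, ⟨hx', hy'⟩, hg⟩
      simp only at hg hx' hy'
      have h1 : g0⁻¹ * g = 1 := by
        refine hUd _ ⟨g0⁻¹ • y', ⟨x', hx', ?_⟩, hy'⟩
        simp only
        rw [mul_smul, hg]
      rw [mem_singleton_iff]
      exact (inv_mul_eq_one.1 h1).symm
    · obtain ⟨U, V, hU, hV, hyU, hxV, hUV⟩ := t2_separation h
      have hc : Continuous p := hp.toIsQuotientMap.continuous
      refine ⟨(p ⁻¹' V) ×ˢ (p ⁻¹' U), mem_nhdsWithin_of_mem_nhds (prod_mem_nhds
        ((hV.preimage hc).mem_nhds hxV) ((hU.preimage hc).mem_nhds hyU)), ?_⟩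
      convert Set.finite_empty
      rw [eq_empty_iff_forall_notMem]
      rintro g ⟨⟨x', y'⟩, ⟨hx', hy'⟩, hg⟩
      simp only at hg hx' hy'
      have : p y' = p x' := by rw [← hg]; exact hp.map_smul g
      exact (Set.disjoint_left.1 hUV) hy' (by rw [mem_preimage, ← this] at hx'; exact hx')
  have key := hKL.induction_on (p := fun W => {g : G | ∃ q' ∈ W, g • q'.1 = q'.2}.Finite)
    (by simp) (fun s t hst ht => ht.subset (by rintro g ⟨q, hq, h⟩; exact ⟨q, hst hq, h⟩))
    (fun s t hs ht => (hs.union ht).subset (by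
      rintro g ⟨q, hq | hq, h⟩
      · exact Or.inl ⟨q, hq, h⟩
      · exact Or.inr ⟨q, hq, h⟩)) hloc
  refine key.subset ?_
  rintro g ⟨x, hx, y, hy, h⟩
  exact ⟨(x, y), ⟨hx, hy⟩, h⟩

/-- (ATL2) -/
theorem exists_atlas [T2Space X] [CompactSpace X] [IsManifold 𝓘(ℂ, ℂ × ℂ) ω X] {p : Y → X}
    (hp : IsQuotientCoveringMap p G) : ∃ 𝒜 : Atl G Y, Compat 𝒜 p := by
  have hl : IsLocalHomeomorph p := hp.isCoveringMap.isLocalHomeomorph
  choose Φ hΦt hΦm hΦ0 hΦi e heA c hc0 z0 hform using exists_chart (p := p) hl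
  have hopen : ∀ y, IsOpen (p '' ((Φ y).symm '' ball 0 1)) := by
    intro y
    apply hl.isOpenMap
    apply (Φ y).symm.isOpen_image_of_subset_source isOpen_ball
    rw [OpenPartialHomeomorph.symm_source, hΦt]
    exact ball_subset_ball (by norm_num)
  obtain ⟨t, ht⟩ := isCompact_univ.elim_finite_subcover
    (fun y => p '' ((Φ y).symm '' ball 0 1)) hopen (by
      intro x _
      obtain ⟨y, rfl⟩ := hp.surjective x
      refine mem_iUnion.2 ⟨y, y, ⟨0, by simp, ?_⟩, rfl⟩
      rw [← hΦ0 y, (Φ y).left_inv (hΦm y)])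
  set n := t.card with hn
  let s : Fin n → Y := fun i => (t.equivFin.symm i : t)
  have hs : ∀ y ∈ t, ∃ i, s i = y := by
    intro y hy
    exact ⟨t.equivFin ⟨y, hy⟩, by simp [s]⟩
  have hsm : ∀ g : G, ∀ y : Y, p (g • y) = p y := fun g y => hp.map_smul g
  refine ⟨{ n := n
            φ := fun i => Φ (s i)
            target_eq := fun i => hΦt _
            cover := ?_
            holo := ?_
            proper := ?_ }, ⟨fun i => hΦi _, fun i => ⟨e (s i), heA _, c (s i), hc0 _, z0 (s i),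
              hform (s i)⟩⟩⟩
  · intro y
    obtain ⟨y1, hy1, hy1'⟩ := mem_iUnion₂.1 (ht (mem_univ (p y)))
    obtain ⟨i, rfl⟩ := hs y1 hy1
    obtain ⟨y', ⟨z, hz, rfl⟩, hzp⟩ := hy1'
    obtain ⟨g, hg⟩ := hp.apply_eq_iff_mem_orbit.1 hzp
    have hg' : g • y = (Φ (s i)).symm z := hg
    have hzt : z ∈ (Φ (s i)).target := by
      rw [hΦt]
      exact ball_subset_ball (by norm_num) hz
    refine ⟨i, g⁻¹, ?_, ?_⟩
    · rw [inv_inv, hg']
      exact (Φ (s i)).map_target hzt
    · rw [inv_inv, hg', (Φ (s i)).right_inv hzt]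
      exact hz
  · intro i j g
    set a := s i
    set b := s j
    -- the transition map
    have htr : DifferentiableOn ℂ ((e b) ∘ (e a).symm) ((e a).symm.trans (e b)).source := by
      have h1 : (e a).symm.trans (e b) ∈ contDiffGroupoid ω 𝓘(ℂ, ℂ × ℂ) :=
        StructureGroupoid.compatible _ (heA a) (heA b)
      have h2 := contMDiffOn_of_mem_contDiffGroupoid h1
      have h3 : ContDiffOn ℂ ω ((e a).symm.trans (e b)) ((e a).symm.trans (e b)).source :=
        contMDiffOn_iff_contDiffOn.1 h2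
      exact h3.differentiableOn (by simp)
    have hmem : ∀ z ∈ {z ∈ ball (0 : E) 4 | g⁻¹ • (Φ a).symm z ∈ (Φ b).source},
        (c a)⁻¹ • z + z0 a ∈ ((e a).symm.trans (e b)).source ∧
          Φ b (g⁻¹ • (Φ a).symm z) = c b • ((e b) ((e a).symm ((c a)⁻¹ • z + z0 a)) - z0 b) := by
      rintro z ⟨hz, hzb⟩
      have hzt : z ∈ (Φ a).target := by rw [hΦt]; exact hz
      obtain ⟨h1, h2⟩ := hform a _ ((Φ a).map_target hzt)
      obtain ⟨h3, h4⟩ := hform b _ hzb
      rw [(Φ a).right_inv hzt] at h2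
      rw [hsm] at h3 h4
      have h5 : e a (p ((Φ a).symm z)) = (c a)⁻¹ • z + z0 a := by
        have : (c a)⁻¹ • z = e a (p ((Φ a).symm z)) - z0 a := by
          conv_lhs => rw [h2]
          rw [smul_smul, inv_mul_cancel₀ (hc0 a), one_smul]
        rw [this, sub_add_cancel]
      have h6 : (e a).symm ((c a)⁻¹ • z + z0 a) = p ((Φ a).symm z) := by
        rw [← h5, (e a).left_inv h1]
      refine ⟨?_, ?_⟩
      · rw [OpenPartialHomeomorph.trans_source, OpenPartialHomeomorph.symm_source]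
        refine ⟨?_, ?_⟩
        · rw [← h5]; exact (e a).map_source h1
        · rw [mem_preimage, h6]; exact h3
      · rw [h6, h4]
    have hcomp : DifferentiableOn ℂ
        (fun z => c b • (((e b) ∘ (e a).symm) ((c a)⁻¹ • z + z0 a) - z0 b))
        {z ∈ ball (0 : E) 4 | g⁻¹ • (Φ a).symm z ∈ (Φ b).source} := by
      have hin : DifferentiableOn ℂ (fun z : E => (c a)⁻¹ • z + z0 a)
          {z ∈ ball (0 : E) 4 | g⁻¹ • (Φ a).symm z ∈ (Φ b).source} := by
        apply Differentiable.differentiableOn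
        fun_prop
      have := htr.comp hin (fun z hz => (hmem z hz).1)
      exact (this.sub_const (z0 b)).const_smul (c b)
    exact hcomp.congr (fun z hz => (hmem z hz).2)
  · intro i j
    have hcomp : ∀ y : Y, IsCompact ((Φ y).symm '' closedBall (0 : E) 3) := by
      intro y
      apply (isCompact_closedBall (0 : E) 3).image_of_continuousOn
      apply (Φ y).continuousOn_symm.mono
      rw [hΦt]
      exact closedBall_subset_ball (by norm_num)
    refine (finite_of_compact hp (hcomp (s j)) (hcomp (s i))).subset ?_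
    rintro g ⟨z, hz, w, hw, h⟩
    exact ⟨_, ⟨w, hw, rfl⟩, _, ⟨z, hz, rfl⟩, h⟩

end Sing
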