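import Pool.Agent.Work.MP_3893a0_gt.Geo1
import Pool.Agent.Work.MP_0e9e72_an.SCVA

/-! Module GEO2: extension by zero, locally finite sums. -/

open scoped ContDiff Topology BoundedContinuousFunction
open MeasureTheory Metric Set Filter

set_option linter.unusedSectionVars false

noncomputable section

namespace Sing
namespace Atl

variable {G Y : Type*} [Group G] [TopologicalSpace Y] [MulAction G Y] (𝒜 : Atl G Y)

/-! ### extension by zero (GEO2) -/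

section ext

variable [ContinuousConstSMul G Y] [T2Space Y]
variable {V : Type*} [NormedAddCommGroup V] [NormedSpace ℝ V]

theorem ext_eq_zero {a : 𝒜.Idx} {F : E → V} (hF : ∀ z, 3 < ‖z‖ → F z = 0) {y : Y}
    (hy : y ∉ 𝒜.cell a) : 𝒜.ext a F y = 0 := by
  by_cases h : y ∈ 𝒜.src a
  · rw [ext, if_pos h]
    exact hF _ (not_le.1 fun h3 => hy ⟨h, h3⟩)
  · rw [ext, if_neg h]

/-- near a point of the domain of the chart, `ext` is `F ∘ crd` -/
theorem ext_eventuallyEq {a : 𝒜.Idx} (F : E → V) {y : Y} (hy : y ∈ 𝒜.src a) :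
    𝒜.ext a F =ᶠ[𝓝 y] fun y' => F (𝒜.crd a y') := by
  filter_upwards [(𝒜.isOpen_src a).mem_nhds hy] with y' hy'
  rw [ext, if_pos hy']

/-- near a point outside the cell, `ext` vanishes -/
theorem ext_eventuallyEq_zero {a : 𝒜.Idx} {F : E → V} (hF : ∀ z, 3 < ‖z‖ → F z = 0) {y : Y}
    (hy : y ∉ 𝒜.cell a) : 𝒜.ext a F =ᶠ[𝓝 y] fun _ => 0 := by
  filter_upwards [(𝒜.isClosed_cell a).isOpen_compl.mem_nhds hy] with y' hy'
  exact 𝒜.ext_eq_zero hF hy'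

theorem continuous_ext {a : 𝒜.Idx} {F : E → V} (hF : ∀ z, 3 < ‖z‖ → F z = 0)
    (hc : ContinuousOn F (ball 0 4)) : Continuous (𝒜.ext a F) := by
  rw [continuous_iff_continuousAt]
  intro y
  by_cases h : y ∈ 𝒜.src a
  · refine ContinuousAt.congr ?_ (𝒜.ext_eventuallyEq F h).symm
    have h1 : ContinuousAt (𝒜.crd a) y :=
      (𝒜.continuousOn_crd a).continuousAt ((𝒜.isOpen_src a).mem_nhds h)
    have h2 : ContinuousAt F (𝒜.crd a y) :=
      hc.continuousAt (isOpen_ball.mem_nhds (mem_ball_zero_iff.2 (𝒜.norm_crd_lt a h)))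
    exact ContinuousAt.comp (f := 𝒜.crd a) h2 h1
  · exact continuousAt_const.congr (𝒜.ext_eventuallyEq_zero hF (fun h' => h h'.1)).symm

/-- locally the sum is finite -/
theorem sum_locally_finite {F : 𝒜.Idx → E → V} (hF : ∀ a z, 3 < ‖z‖ → F a z = 0) (y : Y) :
    ∃ (U : Set Y) (s : Finset 𝒜.Idx), U ∈ 𝓝 y ∧
      ∀ y' ∈ U, ∑ᶠ a, 𝒜.ext a (F a) y' = ∑ a ∈ s, 𝒜.ext a (F a) y' := by
  obtain ⟨U, hU, hfin⟩ := 𝒜.locFin y
  refine ⟨U, hfin.toFinset, hU, fun y' hy' => ?_⟩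
  refine finsum_eq_sum_of_support_subset _ fun a ha => ?_
  rw [Finite.coe_toFinset]
  by_contra hne
  refine ha (𝒜.ext_eq_zero (hF a) fun hc => hne ⟨y', hy', hc⟩)

theorem continuous_sum {F : 𝒜.Idx → E → V} (hF : ∀ a z, 3 < ‖z‖ → F a z = 0)
    (hc : ∀ a, ContinuousOn (F a) (ball 0 4)) :
    Continuous (fun y => ∑ᶠ a, 𝒜.ext a (F a) y) := by
  rw [continuous_iff_continuousAt]
  intro y
  obtain ⟨U, s, hU, hs⟩ := 𝒜.sum_locally_finite hF y
  have h1 : Continuous fun y => ∑ a ∈ s, 𝒜.ext a (F a) y :=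
    continuous_finsetSum _ fun a _ => 𝒜.continuous_ext (hF a) (hc a)
  refine h1.continuousAt.congr ?_
  filter_upwards [hU] with y' hy'
  exact (hs y' hy').symm

/-- the change of charts from `b` to `a` is holomorphic where it makes sense -/
theorem trans_holo (a b : 𝒜.Idx) : DifferentiableOn ℂ (fun z => 𝒜.crd a (𝒜.sym b z))
    {z ∈ ball (0 : E) 4 | 𝒜.sym b z ∈ 𝒜.src a} := by
  have h := 𝒜.holo b.2 a.2 (b.1⁻¹ * a.1)
  have e : ∀ z, (b.1⁻¹ * a.1)⁻¹ • (𝒜.φ b.2).symm z = a.1⁻¹ • 𝒜.sym b z := by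
    intro z
    simp only [sym, mul_inv_rev, inv_inv, mul_smul]
  simp only [e] at h
  exact h

theorem isOpen_trans (a b : 𝒜.Idx) :
    IsOpen {z ∈ ball (0 : E) 4 | 𝒜.sym b z ∈ 𝒜.src a} :=
  (𝒜.continuousOn_sym b).isOpen_inter_preimage isOpen_ball (𝒜.isOpen_src a)

/-- the change of charts is smooth -/
theorem trans_smooth (a b : 𝒜.Idx) : ContDiffOn ℝ ∞ (fun z => 𝒜.crd a (𝒜.sym b z))
    {z ∈ ball (0 : E) 4 | 𝒜.sym b z ∈ 𝒜.src a} :=
  (SCV.contDiffOn_of_differentiableOn (n := ⊤) (𝒜.isOpen_trans a b)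
    (𝒜.trans_holo a b)).restrict_scalars ℝ

theorem sm_ext {a : 𝒜.Idx} {F : E → V} (hF : ∀ z, 3 < ‖z‖ → F z = 0)
    (hs : ContDiffOn ℝ ∞ F (ball 0 4)) : 𝒜.Sm (𝒜.ext a F) := by
  intro b z hz
  refine ContDiffAt.contDiffWithinAt ?_
  have hz4 : ‖z‖ < 4 := mem_ball_zero_iff.1 hz
  have hcs : ContinuousAt (𝒜.sym b) z :=
    (𝒜.continuousOn_sym b).continuousAt (isOpen_ball.mem_nhds hz)
  by_cases h : 𝒜.sym b z ∈ 𝒜.src a
  · have h1 : ContDiffAt ℝ ∞ (fun z => 𝒜.crd a (𝒜.sym b z)) z :=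
      (𝒜.trans_smooth a b).contDiffAt ((𝒜.isOpen_trans a b).mem_nhds ⟨hz, h⟩)
    have h2 : ContDiffAt ℝ ∞ F (𝒜.crd a (𝒜.sym b z)) :=
      hs.contDiffAt (isOpen_ball.mem_nhds (mem_ball_zero_iff.2 (𝒜.norm_crd_lt a h)))
    refine (ContDiffAt.comp (g := F) z h2 h1).congr_of_eventuallyEq ?_
    exact hcs.eventually (𝒜.ext_eventuallyEq F h)
  · refine (contDiffAt_const (c := (0 : V))).congr_of_eventuallyEq ?_
    exact hcs.eventually (𝒜.ext_eventuallyEq_zero hF (fun h' => h h'.1))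

theorem sm_sum {F : 𝒜.Idx → E → V} (hF : ∀ a z, 3 < ‖z‖ → F a z = 0)
    (hs : ∀ a, ContDiffOn ℝ ∞ (F a) (ball 0 4)) :
    𝒜.Sm (fun y => ∑ᶠ a, 𝒜.ext a (F a) y) := by
  intro b z hz
  refine ContDiffAt.contDiffWithinAt ?_
  obtain ⟨U, s, hU, hs'⟩ := 𝒜.sum_locally_finite hF (𝒜.sym b z)
  have hcs : ContinuousAt (𝒜.sym b) z :=
    (𝒜.continuousOn_sym b).continuousAt (isOpen_ball.mem_nhds hz)
  have h1 : ContDiffAt ℝ ∞ (fun z => ∑ a ∈ s, 𝒜.ext a (F a) (𝒜.sym b z)) z :=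
    ContDiffAt.sum fun a _ => (𝒜.sm_ext (hF a) (hs a) b).contDiffAt (isOpen_ball.mem_nhds hz)
  refine h1.congr_of_eventuallyEq ?_
  filter_upwards [hcs.eventually hU] with z' hz'
  exact hs' _ hz'

theorem Sm.continuous {u : Y → V} (hu : 𝒜.Sm u) : Continuous u := by
  rw [continuous_iff_continuousAt]
  intro y
  obtain ⟨a, z, hz, rfl⟩ := 𝒜.exists_sym y
  have hz4 : ‖z‖ < 4 := by linarith
  have hsrc := 𝒜.sym_mem_src a hz4
  have h1 : ContinuousAt (u ∘ 𝒜.sym a) (𝒜.crd a (𝒜.sym a z)) := by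
    rw [𝒜.crd_sym a hz4]
    exact (hu a).continuousOn.continuousAt (isOpen_ball.mem_nhds (mem_ball_zero_iff.2 hz4))
  have h2 : ContinuousAt (𝒜.crd a) (𝒜.sym a z) :=
    (𝒜.continuousOn_crd a).continuousAt ((𝒜.isOpen_src a).mem_nhds hsrc)
  refine (ContinuousAt.comp (f := 𝒜.crd a) h1 h2).congr ?_
  filter_upwards [(𝒜.isOpen_src a).mem_nhds hsrc] with y' hy'
  simp only [Function.comp, 𝒜.sym_crd a hy']

theorem Sm.add {u v : Y → V} (hu : 𝒜.Sm u) (hv : 𝒜.Sm v) : 𝒜.Sm (fun y => u y + v y) :=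
  fun a => (hu a).add (hv a)

end ext

end Atl
end Sing
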