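import Pool.Agent.Work.MP_3893a0_gt.Geo3a
import Pool.Agent.Work.MP_3893a0_gt.Geo2

/-! Module GEO3, second part: the operator `P` and the charts. -/

open scoped ContDiff Topology BoundedContinuousFunction
open MeasureTheory Metric Set Filter

noncomputable section

namespace Sing

namespace Atl

variable {G Y : Type*} [Group G] [TopologicalSpace Y] [MulAction G Y] (𝒜 : Atl G Y)

section met

variable [ContinuousConstSMul G Y] [T2Space Y]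
variable {V : Type*} [NormedAddCommGroup V] [NormedSpace ℝ V]

omit [ContinuousConstSMul G Y] [T2Space Y] in
theorem Met.rel {𝒜 : Atl G Y} (M : 𝒜.Met) (a b : 𝒜.Idx) {z : E} (hz : ‖z‖ < 4)
    (hab : 𝒜.sym b z ∈ 𝒜.src a) :
    CoefRel (M.A b.2) (M.A a.2) (fun z' => 𝒜.crd a (𝒜.sym b z')) z := by
  have h1 : (fun z' => 𝒜.crd a (𝒜.sym b z')) =
      fun z' => 𝒜.φ a.2 ((b.1⁻¹ * a.1)⁻¹ • (𝒜.φ b.2).symm z') := by
    funext z'
    unfold crd sym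
    rw [smul_smul, mul_inv_rev, inv_inv]
  rw [h1]
  apply M.inv b.2 a.2 (b.1⁻¹ * a.1) z (by simpa using hz)
  have h2 : a.1⁻¹ • (b.1 • (𝒜.φ b.2).symm z) ∈ (𝒜.φ a.2).source := hab
  rwa [smul_smul, ← inv_inv b.1, ← mul_inv_rev] at h2

theorem trans_mem_nhds (a b : 𝒜.Idx) {z : E} (hz : ‖z‖ < 4) (hab : 𝒜.sym b z ∈ 𝒜.src a) :
    {z ∈ ball (0 : E) 4 | 𝒜.sym b z ∈ 𝒜.src a} ∈ 𝓝 z :=
  (𝒜.isOpen_trans a b).mem_nhds ⟨by simpa using hz, hab⟩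

/-- `P` of a smooth function computed in two charts -/
theorem Pc_change (M : 𝒜.Met) {u : Y → V} (hu : 𝒜.Sm u) (a b : 𝒜.Idx) {z : E} (hz : ‖z‖ < 4)
    (hab : 𝒜.sym b z ∈ 𝒜.src a) :
    Pc (M.A b.2) (u ∘ 𝒜.sym b) z = Pc (M.A a.2) (u ∘ 𝒜.sym a) (𝒜.crd a (𝒜.sym b z)) := by
  have hS := 𝒜.trans_mem_nhds a b hz hab
  have h1 : u ∘ 𝒜.sym b =ᶠ[𝓝 z] (u ∘ 𝒜.sym a) ∘ fun z' => 𝒜.crd a (𝒜.sym b z') := by
    filter_upwards [hS] with z' hz'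
    simp only [Function.comp_apply]
    rw [𝒜.sym_crd a hz'.2]
  rw [Pc_congr _ h1]
  refine Pc_comp _ _ _ z hS (𝒜.trans_holo a b) (M.rel a b hz hab) _ ?_
  have h2 : ball (0 : E) 4 ∈ 𝓝 (𝒜.crd a (𝒜.sym b z)) :=
    isOpen_ball.mem_nhds (by simpa using 𝒜.norm_crd_lt a hab)
  exact ((hu a).contDiffAt h2).of_le two_le_inf

theorem Pc_ext (M : 𝒜.Met) {a : 𝒜.Idx} {F : E → V} (hF : ∀ z, 3 < ‖z‖ → F z = 0)
    (hs : ContDiffOn ℝ ∞ F (ball 0 4)) (b : 𝒜.Idx) {z : E} (hz : ‖z‖ < 4) :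
    Pc (M.A b.2) (𝒜.ext a F ∘ 𝒜.sym b) z = 𝒜.ext a (Pc (M.A a.2) F) (𝒜.sym b z) := by
  by_cases hab : 𝒜.sym b z ∈ 𝒜.src a
  · have hS := 𝒜.trans_mem_nhds a b hz hab
    have h1 : 𝒜.ext a F ∘ 𝒜.sym b =ᶠ[𝓝 z] F ∘ fun z' => 𝒜.crd a (𝒜.sym b z') := by
      filter_upwards [hS] with z' hz'
      simp only [Function.comp_apply]
      unfold ext
      rw [if_pos hz'.2]
    rw [Pc_congr _ h1]
    have h3 : 𝒜.ext a (Pc (M.A a.2) F) (𝒜.sym b z) =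
        Pc (M.A a.2) F (𝒜.crd a (𝒜.sym b z)) := by
      unfold ext
      rw [if_pos hab]
    rw [h3]
    refine Pc_comp _ _ _ z hS (𝒜.trans_holo a b) (M.rel a b hz hab) _ ?_
    have h2 : ball (0 : E) 4 ∈ 𝓝 (𝒜.crd a (𝒜.sym b z)) :=
      isOpen_ball.mem_nhds (by simpa using 𝒜.norm_crd_lt a hab)
    exact (hs.contDiffAt h2).of_le two_le_inf
  · have h3 : 𝒜.ext a (Pc (M.A a.2) F) (𝒜.sym b z) = 0 := by
      unfold ext
      rw [if_neg hab]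
    rw [h3]
    have hnc : 𝒜.sym b z ∉ 𝒜.cell a := fun h => hab h.1
    have hb : z ∈ ball (0 : E) 4 := by simpa using hz
    have hca : ContinuousAt (𝒜.sym b) z :=
      (𝒜.continuousOn_sym b).continuousAt (isOpen_ball.mem_nhds hb)
    have h1 : 𝒜.ext a F ∘ 𝒜.sym b =ᶠ[𝓝 z] fun _ => 0 := by
      filter_upwards [hca ((𝒜.isClosed_cell a).isOpen_compl.mem_nhds hnc)] with z' hz'
      exact 𝒜.ext_eq_zero hF hz'
    rw [Pc_congr _ h1, Pc_zero]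

theorem Pc_sum (M : 𝒜.Met) {F : 𝒜.Idx → E → V} (hF : ∀ a z, 3 < ‖z‖ → F a z = 0)
    (hs : ∀ a, ContDiffOn ℝ ∞ (F a) (ball 0 4)) (b : 𝒜.Idx) {z : E} (hz : ‖z‖ < 4) :
    Pc (M.A b.2) ((fun y => ∑ᶠ a, 𝒜.ext a (F a) y) ∘ 𝒜.sym b) z =
      ∑ᶠ a, 𝒜.ext a (Pc (M.A a.2) (F a)) (𝒜.sym b z) := by
  obtain ⟨U, hU, hfin⟩ := 𝒜.locFin (𝒜.sym b z)
  have hb : z ∈ ball (0 : E) 4 := by simpa using hz
  have hca : ContinuousAt (𝒜.sym b) z :=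
    (𝒜.continuousOn_sym b).continuousAt (isOpen_ball.mem_nhds hb)
  have key : ∀ (W : 𝒜.Idx → E → V), (∀ a z, 3 < ‖z‖ → W a z = 0) → ∀ y ∈ U,
      ∑ᶠ a, 𝒜.ext a (W a) y = ∑ a ∈ hfin.toFinset, 𝒜.ext a (W a) y := by
    intro W hW y hy
    apply finsum_eq_sum_of_support_subset
    intro a ha
    simp only [Function.mem_support] at ha
    rw [hfin.coe_toFinset]
    by_contra hn
    apply ha
    apply 𝒜.ext_eq_zero (hW a)
    intro hc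
    exact hn ⟨y, hy, hc⟩
  have h1 : (fun y => ∑ᶠ a, 𝒜.ext a (F a) y) ∘ 𝒜.sym b =ᶠ[𝓝 z]
      fun z' => ∑ a ∈ hfin.toFinset, (𝒜.ext a (F a) ∘ 𝒜.sym b) z' := by
    filter_upwards [hca hU] with z' hz'
    exact key F hF _ hz'
  rw [Pc_congr _ h1, Pc_finset_sum, key (fun a => Pc (M.A a.2) (F a))
    (fun a => Pc_supp (M.A a.2) (hF a)) _ (mem_of_mem_nhds hU)]
  · exact Finset.sum_congr rfl fun a _ => 𝒜.Pc_ext M (hF a) (hs a) b hz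
  · intro a _
    exact (((𝒜.sm_ext (hF a) (hs a)) b).contDiffAt (isOpen_ball.mem_nhds hb)).of_le
      two_le_inf

end met

end Atl

end Sing
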