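import Pool.Agent.Work.MP_3893a0_gt.Geo3a2

/-! Module GEO3, third part: `P u` as a bounded continuous function, the base map. -/

open scoped ContDiff Topology BoundedContinuousFunction
open MeasureTheory Metric Set Filter

noncomputable section

namespace Sing

section lin

variable {V : Type*} [NormedAddCommGroup V] [NormedSpace ℝ V]

theorem fderiv_fderiv_affine {H : Type*} [NormedAddCommGroup H] [InnerProductSpace ℝ H]
    (L : H ≃ₗᵢ[ℝ] H) (c : H) {w : E → H} {z : E} (hw : ContDiffAt ℝ 2 w z) (v v' : E) :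
    fderiv ℝ (fderiv ℝ (fun z' => L (w z') + c)) z v v' = L (fderiv ℝ (fderiv ℝ w) z v v') := by
  have h1 : fderiv ℝ (fun z' => L (w z') + c) =ᶠ[𝓝 z]
      fun z' => (L.toContinuousLinearEquiv : H →L[ℝ] H).comp (fderiv ℝ w z') := by
    filter_upwards [hw.eventually (by norm_num)] with z' h
    have hd := (h.differentiableAt (by norm_num)).hasFDerivAt
    exact (((L.toContinuousLinearEquiv : H →L[ℝ] H).hasFDerivAt.comp z' hd).add_const c).fderiv
  rw [h1.fderiv_eq]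
  have h2 : HasFDerivAt (fun z' => (L.toContinuousLinearEquiv : H →L[ℝ] H).comp (fderiv ℝ w z'))
      ((ContinuousLinearMap.compL ℝ E H H (L.toContinuousLinearEquiv : H →L[ℝ] H)).comp
        (fderiv ℝ (fderiv ℝ w) z)) z :=
    (ContinuousLinearMap.compL ℝ E H H (L.toContinuousLinearEquiv : H →L[ℝ] H)).hasFDerivAt.comp z
      ((hw.fderiv_right (m := 1) (by norm_num)).differentiableAt (by norm_num)).hasFDerivAt
  rw [h2.fderiv]
  rfl

theorem Pc_affine {H : Type*} [NormedAddCommGroup H] [InnerProductSpace ℝ H]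
    (A : LocCoef) (L : H ≃ₗᵢ[ℝ] H) (c : H) {w : E → H} {z : E} (hw : ContDiffAt ℝ 2 w z) :
    Pc A (fun z' => L (w z') + c) z = L (Pc A w z) := by
  unfold Pc levB
  simp only [fderiv_fderiv_affine L c hw, map_add, map_smul]

end lin

namespace Atl

variable {G Y : Type*} [Group G] [TopologicalSpace Y] [MulAction G Y] (𝒜 : Atl G Y)

section met

variable [ContinuousConstSMul G Y] [T2Space Y]
variable {V : Type*} [NormedAddCommGroup V] [NormedSpace ℝ V]

theorem continuousOn_Pc (A : LocCoef) {f : E → V} (hf : ContDiffOn ℝ ∞ f (ball 0 4)) :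
    ContinuousOn (Pc A f) (ball 0 4) := by
  have h1 : ContDiffOn ℝ 1 (fderiv ℝ f) (ball 0 4) :=
    (hf.of_le two_le_inf).fderiv_of_isOpen isOpen_ball (by norm_num)
  have h2 : ContDiffOn ℝ 0 (fderiv ℝ (fderiv ℝ f)) (ball 0 4) :=
    h1.fderiv_of_isOpen isOpen_ball (by norm_num)
  have h3 : ContinuousOn (fderiv ℝ (fderiv ℝ f)) (ball 0 4) := h2.continuousOn
  have h4 : ∀ v w : E, ContinuousOn (fun z => levB f z v w) (ball 0 4) := by
    intro v w
    unfold levB
    exact ((h3.clm_apply continuousOn_const).clm_apply continuousOn_const).add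
      ((h3.clm_apply continuousOn_const).clm_apply continuousOn_const)
  have ha := A.smooth11.continuousOn
  have hb := A.smooth22.continuousOn
  have hc := A.smoothc.continuousOn
  have hre : ContinuousOn (fun z => (A.c z).re) (ball 0 4) :=
    Complex.continuous_re.comp_continuousOn hc
  have him : ContinuousOn (fun z => (A.c z).im) (ball 0 4) :=
    Complex.continuous_im.comp_continuousOn hc
  unfold Pc
  exact (((ha.smul (h4 _ _)).add (hb.smul (h4 _ _))).add
    ((continuousOn_const.mul hre).smul (h4 _ _))).add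
    ((continuousOn_const.mul him).smul (h4 _ _))

/-- `P u` as a bounded continuous function, for `u` smooth and affinely equivariant -/
theorem exists_Pu (M : 𝒜.Met) {H : Type*} [NormedAddCommGroup H] [InnerProductSpace ℝ H]
    (ρ : G →* (H ≃ₗᵢ[ℝ] H)) (b : G → H) {u : Y → H} (hu : 𝒜.Sm u)
    (hb : ∀ g y, u (g • y) = ρ g (u y) + b g) :
    ∃ f : Y →ᵇ H, (∀ g y, f (g • y) = ρ g (f y)) ∧
      ∀ (a : 𝒜.Idx) (z : E), ‖z‖ < 4 → f (𝒜.sym a z) = Pc (M.A a.2) (u ∘ 𝒜.sym a) z := by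
  classical
  have hex : ∀ y : Y, ∃ a : 𝒜.Idx, y ∈ 𝒜.src a := by
    intro y
    obtain ⟨a, z, hz, rfl⟩ := 𝒜.exists_sym y
    exact ⟨a, 𝒜.sym_mem_src a (hz.trans (by norm_num))⟩
  choose ch hch using hex
  set f0 : Y → H := fun y => Pc (M.A (ch y).2) (u ∘ 𝒜.sym (ch y)) (𝒜.crd (ch y) y) with hf0
  have hP : ∀ (a : 𝒜.Idx) (z : E), ‖z‖ < 4 →
      f0 (𝒜.sym a z) = Pc (M.A a.2) (u ∘ 𝒜.sym a) z := by
    intro a z hz
    exact (𝒜.Pc_change M hu (ch (𝒜.sym a z)) a hz (hch _)).symm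
  have hE : ∀ g y, f0 (g • y) = ρ g (f0 y) := by
    intro g y
    obtain ⟨a, z, hz, rfl⟩ := 𝒜.exists_sym y
    have hz4 : ‖z‖ < 4 := hz.trans (by norm_num)
    have h1 := hP (g * a.1, a.2) z hz4
    rw [𝒜.sym_smul] at h1
    rw [h1, hP a z hz4]
    have h2 : u ∘ 𝒜.sym (g * a.1, a.2) = fun z' => ρ g ((u ∘ 𝒜.sym a) z') + b g := by
      funext z'
      simp only [Function.comp_apply]
      rw [𝒜.sym_smul, hb]
    rw [h2]
    have hb4 : z ∈ ball (0 : E) 4 := by simpa using hz4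
    exact Pc_affine _ (ρ g) (b g)
      (((hu a).contDiffAt (isOpen_ball.mem_nhds hb4)).of_le two_le_inf)
  have hC : Continuous f0 := by
    rw [continuous_iff_continuousAt]
    intro y
    have hy := hch y
    set a := ch y with ha
    have hsrc : 𝒜.src a ∈ 𝓝 y := (𝒜.isOpen_src a).mem_nhds hy
    have h1 : f0 =ᶠ[𝓝 y] fun y' => Pc (M.A a.2) (u ∘ 𝒜.sym a) (𝒜.crd a y') := by
      filter_upwards [hsrc] with y' hy'
      have := hP a (𝒜.crd a y') (𝒜.norm_crd_lt a hy')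
      rwa [𝒜.sym_crd a hy'] at this
    have hcr : ContinuousAt (𝒜.crd a) y := (𝒜.continuousOn_crd a).continuousAt hsrc
    have hb4 : 𝒜.crd a y ∈ ball (0 : E) 4 := by simpa using 𝒜.norm_crd_lt a hy
    have hPc : ContinuousAt (Pc (M.A a.2) (u ∘ 𝒜.sym a)) (𝒜.crd a y) :=
      (continuousOn_Pc (M.A a.2) (hu a)).continuousAt (isOpen_ball.mem_nhds hb4)
    exact (ContinuousAt.comp hPc hcr).congr h1.symm
  obtain ⟨C, hCb⟩ : ∃ C, ∀ y ∈ 𝒜.dom, ‖f0 y‖ ≤ C :=
    𝒜.isCompact_dom.exists_bound_of_continuousOn hC.continuousOn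
  have hB : ∀ y, ‖f0 y‖ ≤ C := by
    intro y
    obtain ⟨g, hg⟩ := 𝒜.exists_mem_dom y
    have := hCb _ hg
    rwa [hE, LinearIsometryEquiv.norm_map] at this
  exact ⟨BoundedContinuousFunction.ofNormedAddCommGroup f0 hC C hB, hE, hP⟩

theorem finsum_ext_eq_sum {y : Y} {s : Finset 𝒜.Idx} (hs : ∀ a, y ∈ 𝒜.cell a → a ∈ s)
    (W : 𝒜.Idx → E → V) (hW : ∀ a z, 3 < ‖z‖ → W a z = 0) :
    ∑ᶠ a, 𝒜.ext a (W a) y = ∑ a ∈ s, 𝒜.ext a (W a) y := by
  apply finsum_eq_sum_of_support_subset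
  intro a ha
  simp only [Function.mem_support] at ha
  by_contra hn
  exact ha (𝒜.ext_eq_zero (hW a) fun hc => hn (hs a hc))

/-- a smooth affinely equivariant map with given cocycle -/
theorem exists_base (P : 𝒜.Pou) {H : Type*} [NormedAddCommGroup H] [InnerProductSpace ℝ H]
    (ρ : G →* (H ≃ₗᵢ[ℝ] H)) (b : G → H) (hb : ∀ g g', b (g * g') = ρ g (b g') + b g) :
    ∃ u : Y → H, 𝒜.Sm u ∧ ∀ g y, u (g • y) = ρ g (u y) + b g := by
  classical
  have hχ : ∀ (i : Fin 𝒜.n) (z : E), 3 < ‖z‖ → P.χ i z = 0 := by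
    intro i z hz
    by_contra h
    have := P.supp i z h
    linarith
  set F : 𝒜.Idx → E → H := fun a z => P.χ a.2 z • b a.1 with hF
  have hF3 : ∀ a z, 3 < ‖z‖ → F a z = 0 := by
    intro a z hz
    simp only [hF, hχ a.2 z hz, zero_smul]
  refine ⟨fun y => ∑ᶠ a, 𝒜.ext a (F a) y, ?_, ?_⟩
  · exact 𝒜.sm_sum hF3 fun a => ((P.smooth a.2).smul contDiff_const).contDiffOn
  · intro g y
    let e : 𝒜.Idx ≃ 𝒜.Idx := (Equiv.mulLeft g).prodCongr (Equiv.refl _)
    have he : ∀ a, e a = (g * a.1, a.2) := fun a => rfl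
    have h1 : ∑ᶠ a, 𝒜.ext a (F a) (g • y) =
        ∑ᶠ a, 𝒜.ext a (fun z => P.χ a.2 z • (ρ g (b a.1) + b g)) y := by
      rw [← finsum_comp_equiv e]
      apply finsum_congr
      intro a
      rw [he, 𝒜.ext_smul]
      simp only [hF, hb]
    obtain ⟨s, hs, -⟩ := 𝒜.cell_bound y
    have h2 := 𝒜.finsum_ext_eq_sum hs (fun a z => P.χ a.2 z • (ρ g (b a.1) + b g))
      (fun a z hz => by simp only [hχ a.2 z hz, zero_smul])
    have h3 := 𝒜.finsum_ext_eq_sum hs F hF3
    have h4 : ∑ a ∈ s, 𝒜.ext a (P.χ a.2) y = 1 := by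
      rw [← 𝒜.finsum_ext_eq_sum hs (fun a => P.χ a.2) fun a z hz => hχ a.2 z hz]
      exact P.sum_eq y
    simp only
    rw [h1, h2, h3, map_sum]
    have h5 : b g = ∑ a ∈ s, 𝒜.ext a (P.χ a.2) y • b g := by
      rw [← Finset.sum_smul, h4, one_smul]
    conv_rhs => rw [h5]
    rw [← Finset.sum_add_distrib]
    apply Finset.sum_congr rfl
    intro a _
    unfold ext
    split_ifs with h
    · simp only [hF, map_smul, smul_add]
    · simp

end met

end Atl

end Sing
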