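import Pool.Agent.Work.MP_3893a0_gt.Geo2
import Pool.Agent.Work.MP_3893a0_gt.Geo3a2
import Pool.Agent.Work.MP_3893a0_gt.Geo3b

/-! (ATL3) the invariant partition of unity. -/

open scoped ContDiff Topology
open Metric Set Filter

noncomputable section

namespace Sing

namespace Pou51

variable {G Y : Type*} [Group G] [TopologicalSpace Y] [MulAction G Y] (𝒜 : Atl G Y)

/-- a bump function on the model space -/
def bmp : ContDiffBump (0 : E) where
  rIn := 3 / 2
  rOut := 2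
  rIn_pos := by norm_num
  rIn_lt_rOut := by norm_num

theorem bmp_zero {z : E} (h : 2 ≤ ‖z‖) : bmp z = 0 :=
  bmp.zero_of_le_dist (by simpa [bmp] using h)

theorem bmp_one {z : E} (h : ‖z‖ ≤ 3 / 2) : bmp z = 1 :=
  bmp.one_of_mem_closedBall (by simpa [bmp] using h)

/-- the total sum -/
def tot (y : Y) : ℝ := ∑ᶠ a : 𝒜.Idx, 𝒜.ext a (fun z => bmp z) y

variable {𝒜}

theorem ext_nonneg (a : 𝒜.Idx) (y : Y) : 0 ≤ 𝒜.ext a (fun z => bmp z) y := by
  unfold Atl.ext
  split_ifs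
  · exact bmp.nonneg
  · exact le_rfl

theorem ext_le_one (a : 𝒜.Idx) (y : Y) : 𝒜.ext a (fun z => bmp z) y ≤ 1 := by
  unfold Atl.ext
  split_ifs
  · exact bmp.le_one
  · exact zero_le_one

theorem tot_smul (g : G) (y : Y) : tot 𝒜 (g • y) = tot 𝒜 y := by
  unfold tot
  have e : (fun a : 𝒜.Idx => 𝒜.ext a (fun z => bmp z) y) =
      (fun a : 𝒜.Idx => 𝒜.ext a (fun z => bmp z) (g • y)) ∘
        ((Equiv.mulLeft g).prodCongr (Equiv.refl (Fin 𝒜.n))) := by
    funext a
    exact (𝒜.ext_smul g a (fun z => bmp z) y).symm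
  rw [e]
  exact (finsum_comp_equiv _).symm

variable [ContinuousConstSMul G Y] [T2Space Y]

theorem ext_fin (y : Y) : ∃ s : Finset 𝒜.Idx,
    (∀ a, a ∉ s → 𝒜.ext a (fun z => bmp z) y = 0) ∧ s.card ≤ 𝒜.N := by
  obtain ⟨s, hs, hc⟩ := 𝒜.cell_bound y
  refine ⟨s, fun a ha => ?_, hc⟩
  exact 𝒜.ext_eq_zero (fun z hz => bmp_zero (by linarith)) (fun h => ha (hs a h))

theorem supp_fin (y : Y) :
    (Function.support fun a : 𝒜.Idx => 𝒜.ext a (fun z => bmp z) y).Finite := by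
  obtain ⟨s, hs, -⟩ := ext_fin (𝒜 := 𝒜) y
  refine s.finite_toSet.subset fun a ha => ?_
  by_contra h
  exact ha (hs a h)

theorem tot_le (y : Y) : tot 𝒜 y ≤ 𝒜.N := by
  obtain ⟨s, hs, hc⟩ := ext_fin (𝒜 := 𝒜) y
  have e : tot 𝒜 y = ∑ a ∈ s, 𝒜.ext a (fun z => bmp z) y := by
    unfold tot
    refine finsum_eq_sum_of_support_subset _ fun a ha => ?_
    by_contra h
    exact ha (hs a h)
  rw [e]
  calc ∑ a ∈ s, 𝒜.ext a (fun z => bmp z) y ≤ ∑ a ∈ s, (1 : ℝ) :=
        Finset.sum_le_sum fun a _ => ext_le_one a y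
    _ = s.card := by simp
    _ ≤ 𝒜.N := by exact_mod_cast hc

theorem one_le_tot (y : Y) : 1 ≤ tot 𝒜 y := by
  obtain ⟨a, z, hz, rfl⟩ := 𝒜.exists_sym y
  have h := single_le_finsum a (supp_fin (𝒜 := 𝒜) (𝒜.sym a z))
    (fun a' => ext_nonneg a' (𝒜.sym a z))
  have e : 𝒜.ext a (fun z => bmp z) (𝒜.sym a z) = 1 := by
    rw [𝒜.ext_sym a (fun z => bmp z) (by linarith)]
    exact bmp_one (by linarith)
  rw [e] at h
  exact h

theorem tot_sm : 𝒜.Sm (tot 𝒜) :=
  𝒜.sm_sum (F := fun _ z => bmp z) (fun _ z hz => bmp_zero (by linarith))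
    (fun _ => bmp.contDiff.contDiffOn)

end Pou51

open Pou51 in
/-- (ATL3) partition of unity -/
theorem exists_pou {G Y : Type*} [Group G] [TopologicalSpace Y] [MulAction G Y] (𝒜 : Atl G Y)
    [ContinuousConstSMul G Y] [T2Space Y] : Nonempty 𝒜.Pou := by
  have pos : ∀ y : Y, 0 < tot 𝒜 y := fun y => lt_of_lt_of_le one_pos (one_le_tot y)
  refine ⟨{
    χ := fun i z => bmp z / tot 𝒜 (𝒜.sym (1, i) z)
    smooth := ?_
    nonneg := ?_
    supp := ?_
    lower := ?_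
    sum_eq := ?_ }⟩
  · intro i
    rw [contDiff_iff_contDiffAt]
    intro z
    by_cases hz : ‖z‖ < 4
    · have h1 : ContDiffOn ℝ ∞ (fun z => bmp z / tot 𝒜 (𝒜.sym (1, i) z)) (ball (0 : E) 4) :=
        ContDiffOn.div bmp.contDiff.contDiffOn (tot_sm (𝒜 := 𝒜) (1, i))
          (fun x _ => (pos _).ne')
      exact h1.contDiffAt (isOpen_ball.mem_nhds (by simpa using hz))
    · have h1 : (fun z => bmp z / tot 𝒜 (𝒜.sym (1, i) z)) =ᶠ[𝓝 z] fun _ => (0 : ℝ) := by
        have : {x : E | 2 < ‖x‖} ∈ 𝓝 z :=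
          (isOpen_lt continuous_const continuous_norm).mem_nhds (by
            show 2 < ‖z‖
            linarith)
        filter_upwards [this] with x hx
        rw [bmp_zero (le_of_lt hx), zero_div]
      exact contDiffAt_const.congr_of_eventuallyEq h1
  · intro i z
    exact div_nonneg bmp.nonneg (pos _).le
  · intro i z h
    by_contra hc
    push Not at hc
    exact h (by rw [bmp_zero hc.le, zero_div])
  · refine ⟨1 / (𝒜.N + 1), by positivity, fun i z hz => ?_⟩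
    rw [bmp_one hz]
    refine one_div_le_one_div_of_le (pos _) ?_
    have := tot_le (𝒜 := 𝒜) (𝒜.sym (1, i) z)
    linarith
  · intro y
    have key : ∀ a : 𝒜.Idx, 𝒜.ext a (fun z => bmp z / tot 𝒜 (𝒜.sym (1, a.2) z)) y =
        𝒜.ext a (fun z => bmp z) y * (tot 𝒜 y)⁻¹ := by
      intro a
      by_cases hy : y ∈ 𝒜.src a
      · have e1 : tot 𝒜 (𝒜.sym (1, a.2) (𝒜.crd a y)) = tot 𝒜 y := by
          rw [← tot_smul a.1, ← 𝒜.sym_smul]
          simp only [mul_one]
          rw [𝒜.sym_crd a hy]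
        unfold Atl.ext
        rw [if_pos hy, if_pos hy]
        beta_reduce
        rw [e1, div_eq_mul_inv]
      · unfold Atl.ext
        rw [if_neg hy, if_neg hy, zero_mul]
    simp only [key]
    rw [← finsum_mul]
    exact mul_inv_cancel₀ (pos y).ne'

end Sing
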