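import Pool.Agent.Work.MP_3893a0_gt.Defs
import Pool.Agent.Work.MP_3893a0_gt.Geo2
import Pool.Agent.Work.MP_3893a0_gt.Geo3a2
import Pool.Agent.Work.MP_3893a0_gt.Geo3b
import Pool.Agent.Work.MP_0e9e72_an.SCVA

/-! Module ATL4: existence of an invariant operator `P`. -/

open scoped ContDiff Topology
open MeasureTheory Metric Set Filter

noncomputable section

namespace Sing

/-! ### semidefinite Hermitian 2x2 matrices -/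

theorem psd_key {x y u v c d : ℝ} (hx : 0 ≤ x) (hy : 0 ≤ y) (hu : 0 ≤ u) (hv : 0 ≤ v)
    (_hc0 : 0 ≤ c) (_hd0 : 0 ≤ d) (hc : c ^ 2 ≤ x * y) (hd : d ^ 2 ≤ u * v) :
    2 * (c * d) ≤ x * v + u * y := by
  have h1 : (c * d) ^ 2 ≤ (x * y) * (u * v) := by
    rw [mul_pow]; exact mul_le_mul hc hd (sq_nonneg _) (mul_nonneg hx hy)
  have h2 : (2 * (c * d)) ^ 2 ≤ (x * v + u * y) ^ 2 := by nlinarith [sq_nonneg (x * v - u * y)]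
  exact abs_le_of_sq_le_sq' h2 (by positivity) |>.2

theorem psd_add {x y u v : ℝ} {c d : ℂ} (hx : 0 ≤ x) (hy : 0 ≤ y) (hu : 0 ≤ u) (hv : 0 ≤ v)
    (hc : ‖c‖ ^ 2 ≤ x * y) (hd : ‖d‖ ^ 2 ≤ u * v) : ‖c + d‖ ^ 2 ≤ (x + u) * (y + v) := by
  have h1 := psd_key hx hy hu hv (norm_nonneg c) (norm_nonneg d) hc hd
  have h2 : ‖c + d‖ ^ 2 ≤ (‖c‖ + ‖d‖) ^ 2 := by gcongr; exact norm_add_le _ _
  nlinarith

theorem pd_add {x y u v : ℝ} {c d : ℂ} (hx : 0 ≤ x) (hy : 0 ≤ y) (hu : 0 ≤ u) (hv : 0 ≤ v)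
    (hc : ‖c‖ ^ 2 < x * y) (hd : ‖d‖ ^ 2 ≤ u * v) : ‖c + d‖ ^ 2 < (x + u) * (y + v) := by
  have h1 := psd_key hx hy hu hv (norm_nonneg c) (norm_nonneg d) hc.le hd
  have h2 : ‖c + d‖ ^ 2 ≤ (‖c‖ + ‖d‖) ^ 2 := by gcongr; exact norm_add_le _ _
  nlinarith

theorem psd_sum {ι : Type*} (s : Finset ι) (x y : ι → ℝ) (c : ι → ℂ) (hx : ∀ i ∈ s, 0 ≤ x i)
    (hy : ∀ i ∈ s, 0 ≤ y i) (hc : ∀ i ∈ s, ‖c i‖ ^ 2 ≤ x i * y i) :
    ‖∑ i ∈ s, c i‖ ^ 2 ≤ (∑ i ∈ s, x i) * (∑ i ∈ s, y i) := by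
  classical
  induction s using Finset.induction_on with
  | empty => simp
  | insert a s ha ih =>
    rw [Finset.sum_insert ha, Finset.sum_insert ha, Finset.sum_insert ha]
    refine psd_add (hx a (by simp)) (hy a (by simp))
      (Finset.sum_nonneg fun i hi => hx i (by simp [hi]))
      (Finset.sum_nonneg fun i hi => hy i (by simp [hi])) (hc a (by simp)) ?_
    exact ih (fun i hi => hx i (by simp [hi])) (fun i hi => hy i (by simp [hi]))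
      (fun i hi => hc i (by simp [hi]))

theorem pd_sum {ι : Type*} [DecidableEq ι] (s : Finset ι) (x y : ι → ℝ) (c : ι → ℂ)
    (hx : ∀ i ∈ s, 0 ≤ x i)
    (hy : ∀ i ∈ s, 0 ≤ y i) (hc : ∀ i ∈ s, ‖c i‖ ^ 2 ≤ x i * y i) {j : ι} (hj : j ∈ s)
    (hc' : ‖c j‖ ^ 2 < x j * y j) :
    ‖∑ i ∈ s, c i‖ ^ 2 < (∑ i ∈ s, x i) * (∑ i ∈ s, y i) := by
  rw [← Finset.add_sum_erase s c hj, ← Finset.add_sum_erase s x hj,
    ← Finset.add_sum_erase s y hj]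
  refine pd_add (hx j hj) (hy j hj)
      (Finset.sum_nonneg fun i hi => hx i (Finset.mem_of_mem_erase hi))
      (Finset.sum_nonneg fun i hi => hy i (Finset.mem_of_mem_erase hi)) hc' ?_
  exact psd_sum _ x y c (fun i hi => hx i (Finset.mem_of_mem_erase hi))
    (fun i hi => hy i (Finset.mem_of_mem_erase hi))
    (fun i hi => hc i (Finset.mem_of_mem_erase hi))

/-- Cauchy-Schwarz for the two rows of a matrix -/
theorem row_cs (p q r s : ℂ) :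
    ‖starRingEnd ℂ p * r + starRingEnd ℂ q * s‖ ^ 2 = (‖p‖ ^ 2 + ‖q‖ ^ 2) * (‖r‖ ^ 2 + ‖s‖ ^ 2)
      - ‖p * s - q * r‖ ^ 2 := by
  simp only [Complex.sq_norm, Complex.normSq_apply, Complex.add_re, Complex.add_im,
    Complex.sub_re, Complex.sub_im, Complex.mul_re, Complex.mul_im, Complex.conj_re,
    Complex.conj_im]
  ring

/-! ### the coefficients -/

/-- the contribution of one chart with `w1 = J e1`, `w2 = J e2` -/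
def c11 (w1 w2 : E) : ℝ := ‖w1.1‖ ^ 2 + ‖w2.1‖ ^ 2
def c22 (w1 w2 : E) : ℝ := ‖w1.2‖ ^ 2 + ‖w2.2‖ ^ 2
def c12 (w1 w2 : E) : ℂ := starRingEnd ℂ w1.1 * w1.2 + starRingEnd ℂ w2.1 * w2.2

theorem E_decomp (v : E) : v = v.1 • e1 + v.2 • e2 := by
  ext <;> simp [e1, e2]

/-- transformation under a further linear map -/
theorem c_rel (L : E →L[ℂ] E) (w1 w2 : E) :
    let p := (L e1).1
    let r := (L e1).2
    let q := (L e2).1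
    let s := (L e2).2
    c11 (L w1) (L w2) = ‖p‖ ^ 2 * c11 w1 w2 + ‖q‖ ^ 2 * c22 w1 w2 +
      2 * (starRingEnd ℂ p * q * c12 w1 w2).re ∧
    c22 (L w1) (L w2) = ‖r‖ ^ 2 * c11 w1 w2 + ‖s‖ ^ 2 * c22 w1 w2 +
      2 * (starRingEnd ℂ r * s * c12 w1 w2).re ∧
    c12 (L w1) (L w2) = starRingEnd ℂ p * r * (c11 w1 w2 : ℂ) +
      starRingEnd ℂ q * s * (c22 w1 w2 : ℂ) +
      starRingEnd ℂ p * s * c12 w1 w2 + starRingEnd ℂ q * r * starRingEnd ℂ (c12 w1 w2) := by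
  intro p r q s
  have hL : ∀ v : E, L v = v.1 • L e1 + v.2 • L e2 := by
    intro v
    conv_lhs => rw [E_decomp v]
    rw [map_add, map_smul, map_smul]
  have h1 : ∀ v : E, (L v).1 = v.1 * p + v.2 * q := fun v => by rw [hL v]; simp [p, q]
  have h2 : ∀ v : E, (L v).2 = v.1 * r + v.2 * s := fun v => by rw [hL v]; simp [r, s]
  simp only [c11, c22, c12, h1, h2]
  clear_value p q r s
  generalize w1.1 = a
  generalize w1.2 = b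
  generalize w2.1 = c
  generalize w2.2 = d
  refine ⟨?_, ?_, ?_⟩
  · simp only [Complex.sq_norm, Complex.normSq_apply, Complex.add_re, Complex.add_im,
      Complex.mul_re, Complex.mul_im, Complex.conj_re, Complex.conj_im]
    ring
  · simp only [Complex.sq_norm, Complex.normSq_apply, Complex.add_re, Complex.add_im,
      Complex.mul_re, Complex.mul_im, Complex.conj_re, Complex.conj_im]
    ring
  · apply Complex.ext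
    · simp only [Complex.sq_norm, Complex.normSq_apply, Complex.add_re, Complex.add_im,
        Complex.mul_re, Complex.mul_im, Complex.conj_re, Complex.conj_im, Complex.ofReal_re,
        Complex.ofReal_im]
      ring
    · simp only [Complex.sq_norm, Complex.normSq_apply, Complex.add_re, Complex.add_im,
        Complex.mul_re, Complex.mul_im, Complex.conj_re, Complex.conj_im, Complex.ofReal_re,
        Complex.ofReal_im]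
      ring


/-! ### the bump function -/

/-- a bump function in the chart -/
def bmp : ContDiffBump (0 : E) := ⟨1, 2, one_pos, by norm_num⟩

def ps (z : E) : ℝ := bmp z

theorem ps_smooth : ContDiff ℝ ∞ ps := bmp.contDiff

theorem ps_nonneg (z : E) : 0 ≤ ps z := bmp.nonneg

theorem ps_one {z : E} (hz : ‖z‖ ≤ 1) : ps z = 1 :=
  bmp.one_of_mem_closedBall (by simpa [bmp] using hz)

theorem ps_zero {z : E} (hz : 3 < ‖z‖) : ps z = 0 :=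
  bmp.zero_of_le_dist (by simp only [dist_zero_right, bmp]; linarith)

namespace Atl

variable {G Y : Type*} [Group G] [TopologicalSpace Y] [MulAction G Y] (𝒜 : Atl G Y)

/-- transition map from the chart `a` to the chart `(1, i)` -/
def T4 (i : Fin 𝒜.n) (a : 𝒜.Idx) (ξ : E) : E := 𝒜.crd (1, i) (𝒜.sym a ξ)

def W4 (i : Fin 𝒜.n) (a : 𝒜.Idx) (e ξ : E) : E := fderiv ℂ (𝒜.T4 i a) ξ e

def f11 (i : Fin 𝒜.n) (a : 𝒜.Idx) (ξ : E) : ℝ := ps ξ * c11 (𝒜.W4 i a e1 ξ) (𝒜.W4 i a e2 ξ)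
def f22 (i : Fin 𝒜.n) (a : 𝒜.Idx) (ξ : E) : ℝ := ps ξ * c22 (𝒜.W4 i a e1 ξ) (𝒜.W4 i a e2 ξ)
def f12 (i : Fin 𝒜.n) (a : 𝒜.Idx) (ξ : E) : ℂ :=
  (ps ξ : ℂ) * c12 (𝒜.W4 i a e1 ξ) (𝒜.W4 i a e2 ξ)

/-- overlap of the chart `a` with the chart `(1,i)`, seen in the chart `a` -/
def ov (i : Fin 𝒜.n) (a : 𝒜.Idx) : Set E := {ξ ∈ ball (0 : E) 4 | 𝒜.sym a ξ ∈ 𝒜.src (1, i)}

section

variable [ContinuousConstSMul G Y] [T2Space Y]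

theorem isOpen_ov (i : Fin 𝒜.n) (a : 𝒜.Idx) : IsOpen (𝒜.ov i a) := 𝒜.isOpen_trans (1, i) a

theorem T4_holo (i : Fin 𝒜.n) (a : 𝒜.Idx) : DifferentiableOn ℂ (𝒜.T4 i a) (𝒜.ov i a) :=
  𝒜.trans_holo (1, i) a

theorem W4_smooth (i : Fin 𝒜.n) (a : 𝒜.Idx) (e : E) :
    ContDiffOn ℝ ∞ (𝒜.W4 i a e) (𝒜.ov i a) := by
  have h1 : ContDiffOn ℂ ∞ (𝒜.T4 i a) (𝒜.ov i a) :=
    SCV.contDiffOn_of_differentiableOn (𝒜.isOpen_ov i a) (𝒜.T4_holo i a) (n := ⊤)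
  have h2 : ContDiffOn ℂ ∞ (fderiv ℂ (𝒜.T4 i a)) (𝒜.ov i a) :=
    h1.fderiv_of_isOpen (𝒜.isOpen_ov i a) (by simp)
  have h3 : ContDiffOn ℂ ∞ (𝒜.W4 i a e) (𝒜.ov i a) := h2.clm_apply contDiffOn_const
  exact h3.restrict_scalars ℝ

theorem fst_smooth {s : Set E} {f : E → E} (hf : ContDiffOn ℝ ∞ f s) :
    ContDiffOn ℝ ∞ (fun ξ => (f ξ).1) s := contDiff_fst.comp_contDiffOn hf

theorem snd_smooth {s : Set E} {f : E → E} (hf : ContDiffOn ℝ ∞ f s) :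
    ContDiffOn ℝ ∞ (fun ξ => (f ξ).2) s := contDiff_snd.comp_contDiffOn hf

theorem f11_smooth (i : Fin 𝒜.n) (a : 𝒜.Idx) : ContDiffOn ℝ ∞ (𝒜.f11 i a) (𝒜.ov i a) := by
  refine ps_smooth.contDiffOn.mul ?_
  exact ((fst_smooth (𝒜.W4_smooth i a e1)).norm_sq ℝ).add
    ((fst_smooth (𝒜.W4_smooth i a e2)).norm_sq ℝ)

theorem f22_smooth (i : Fin 𝒜.n) (a : 𝒜.Idx) : ContDiffOn ℝ ∞ (𝒜.f22 i a) (𝒜.ov i a) := by
  refine ps_smooth.contDiffOn.mul ?_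
  exact ((snd_smooth (𝒜.W4_smooth i a e1)).norm_sq ℝ).add
    ((snd_smooth (𝒜.W4_smooth i a e2)).norm_sq ℝ)

theorem f12_smooth (i : Fin 𝒜.n) (a : 𝒜.Idx) : ContDiffOn ℝ ∞ (𝒜.f12 i a) (𝒜.ov i a) := by
  have hc : ∀ {f : E → ℂ}, ContDiffOn ℝ ∞ f (𝒜.ov i a) →
      ContDiffOn ℝ ∞ (fun ξ => starRingEnd ℂ (f ξ)) (𝒜.ov i a) := by
    intro f hf
    exact (Complex.conjCLE.contDiff (n := ∞)).comp_contDiffOn hf
  have ho : ContDiffOn ℝ ∞ (fun ξ => (ps ξ : ℂ)) (𝒜.ov i a) :=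
    (Complex.ofRealCLM.contDiff.comp ps_smooth).contDiffOn
  refine ho.mul ?_
  exact ((hc (fst_smooth (𝒜.W4_smooth i a e1))).mul (snd_smooth (𝒜.W4_smooth i a e1))).add
    ((hc (fst_smooth (𝒜.W4_smooth i a e2))).mul (snd_smooth (𝒜.W4_smooth i a e2)))

omit [ContinuousConstSMul G Y] [T2Space Y] in
theorem f11_supp (i : Fin 𝒜.n) (a : 𝒜.Idx) (z : E) (hz : 3 < ‖z‖) : 𝒜.f11 i a z = 0 := by
  simp [f11, ps_zero hz]
omit [ContinuousConstSMul G Y] [T2Space Y] in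
theorem f22_supp (i : Fin 𝒜.n) (a : 𝒜.Idx) (z : E) (hz : 3 < ‖z‖) : 𝒜.f22 i a z = 0 := by
  simp [f22, ps_zero hz]
omit [ContinuousConstSMul G Y] [T2Space Y] in
theorem f12_supp (i : Fin 𝒜.n) (a : 𝒜.Idx) (z : E) (hz : 3 < ‖z‖) : 𝒜.f12 i a z = 0 := by
  simp [f12, ps_zero hz]

/-- smoothness of the sums -/
theorem sum_smooth {V : Type*} [NormedAddCommGroup V] [NormedSpace ℝ V] (i : Fin 𝒜.n)
    (f : 𝒜.Idx → E → V) (hF : ∀ a z, 3 < ‖z‖ → f a z = 0)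
    (hs : ∀ a, ContDiffOn ℝ ∞ (f a) (𝒜.ov i a)) :
    ContDiffOn ℝ ∞ (fun z => ∑ᶠ a, 𝒜.ext a (f a) (𝒜.sym (1, i) z)) (ball 0 4) := by
  intro z0 hz0
  apply ContDiffAt.contDiffWithinAt
  have hz04 : ‖z0‖ < 4 := by simpa using hz0
  have hcs : ContinuousAt (𝒜.sym (1, i)) z0 :=
    (𝒜.continuousOn_sym (1, i)).continuousAt (isOpen_ball.mem_nhds hz0)
  obtain ⟨U, s, hU, hsum⟩ := 𝒜.sum_locally_finite hF (𝒜.sym (1, i) z0)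
  have h1 : (fun z => ∑ᶠ a, 𝒜.ext a (f a) (𝒜.sym (1, i) z)) =ᶠ[𝓝 z0]
      fun z => ∑ a ∈ s, 𝒜.ext a (f a) (𝒜.sym (1, i) z) := by
    filter_upwards [hcs hU] with z hz
    exact hsum _ hz
  refine ContDiffAt.congr_of_eventuallyEq ?_ h1
  refine ContDiffAt.sum fun a _ => ?_
  by_cases ha : 𝒜.sym (1, i) z0 ∈ 𝒜.src a
  · -- inside the chart
    have hO : {z ∈ ball (0 : E) 4 | 𝒜.sym (1, i) z ∈ 𝒜.src a} ∈ 𝓝 z0 :=
      (𝒜.isOpen_trans a (1, i)).mem_nhds ⟨hz0, ha⟩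
    have h2 : (fun z => 𝒜.ext a (f a) (𝒜.sym (1, i) z)) =ᶠ[𝓝 z0]
        fun z => f a (𝒜.crd a (𝒜.sym (1, i) z)) := by
      filter_upwards [hO] with z hz
      simp [ext, hz.2]
    refine ContDiffAt.congr_of_eventuallyEq ?_ h2
    have h3 : ContDiffAt ℝ ∞ (fun z => 𝒜.crd a (𝒜.sym (1, i) z)) z0 := by
      have := SCV.contDiffOn_of_differentiableOn (𝒜.isOpen_trans a (1, i))
        (𝒜.trans_holo a (1, i)) (n := ⊤)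
      exact ((this.contDiffAt hO).restrict_scalars ℝ)
    have h4 : 𝒜.crd a (𝒜.sym (1, i) z0) ∈ 𝒜.ov i a := by
      refine ⟨by simpa using 𝒜.norm_crd_lt a ha, ?_⟩
      rw [𝒜.sym_crd a ha]
      exact 𝒜.sym_mem_src _ hz04
    exact ((hs a).contDiffAt ((𝒜.isOpen_ov i a).mem_nhds h4)).comp z0 h3
  · have hcell : 𝒜.sym (1, i) z0 ∉ 𝒜.cell a := fun h => ha h.1
    have hopen : (𝒜.cell a)ᶜ ∈ 𝓝 (𝒜.sym (1, i) z0) := (𝒜.isClosed_cell a).isOpen_compl.mem_nhds hcell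
    have h2 : (fun z => 𝒜.ext a (f a) (𝒜.sym (1, i) z)) =ᶠ[𝓝 z0] fun _ => 0 := by
      filter_upwards [hcs hopen] with z hz
      exact 𝒜.ext_eq_zero (hF a) hz
    exact contDiffAt_const.congr_of_eventuallyEq h2

/-- the finite set of charts which matter at `y` -/
theorem exists_fin (y : Y) : ∃ s : Finset 𝒜.Idx, (∀ a, y ∈ 𝒜.cell a → a ∈ s) ∧
    ∀ {V : Type} [NormedAddCommGroup V] [NormedSpace ℝ V] (f : 𝒜.Idx → E → V),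
      (∀ a z, 3 < ‖z‖ → f a z = 0) → ∑ᶠ a, 𝒜.ext a (f a) y = ∑ a ∈ s, 𝒜.ext a (f a) y := by
  obtain ⟨s, hs, -⟩ := 𝒜.cell_bound y
  refine ⟨s, hs, fun f hf => ?_⟩
  apply finsum_eq_sum_of_support_subset
  intro a ha
  by_contra hcon
  apply ha
  exact 𝒜.ext_eq_zero (hf a) (fun h => hcon (hs a h))

omit [ContinuousConstSMul G Y] [T2Space Y] in
theorem T4_eq {i j : Fin 𝒜.n} {g : G} {a : 𝒜.Idx} {ξ : E} (hξ : ξ ∈ 𝒜.ov i a) :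
    𝒜.T4 j (g⁻¹ * a.1, a.2) ξ = 𝒜.crd (g, j) (𝒜.sym (1, i) (𝒜.T4 i a ξ)) := by
  have h1 : 𝒜.sym (1, i) (𝒜.T4 i a ξ) = 𝒜.sym a ξ := 𝒜.sym_crd (1, i) hξ.2
  rw [h1, T4, 𝒜.sym_smul g⁻¹ a ξ]
  have := 𝒜.crd_smul g (1, j) (g⁻¹ • 𝒜.sym a ξ)
  rw [smul_inv_smul] at this
  simpa using this.symm

/-- chain rule for the columns -/
theorem W4_eq {i j : Fin 𝒜.n} {g : G} {a : 𝒜.Idx} {ξ : E} (hξ : ξ ∈ 𝒜.ov i a)
    (hsrc : 𝒜.sym a ξ ∈ 𝒜.src (g, j)) (e : E) :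
    𝒜.W4 j (g⁻¹ * a.1, a.2) e ξ =
      fderiv ℂ (fun z => 𝒜.crd (g, j) (𝒜.sym (1, i) z)) (𝒜.T4 i a ξ) (𝒜.W4 i a e ξ) := by
  have hn : 𝒜.ov i a ∈ 𝓝 ξ := (𝒜.isOpen_ov i a).mem_nhds hξ
  have h1 : 𝒜.T4 j (g⁻¹ * a.1, a.2) =ᶠ[𝓝 ξ]
      (fun z => 𝒜.crd (g, j) (𝒜.sym (1, i) z)) ∘ 𝒜.T4 i a := by
    filter_upwards [hn] with x hx
    exact 𝒜.T4_eq hx
  have h2 : DifferentiableAt ℂ (𝒜.T4 i a) ξ := (𝒜.T4_holo i a).differentiableAt hn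
  have hmem : 𝒜.T4 i a ξ ∈ {z ∈ ball (0 : E) 4 | 𝒜.sym (1, i) z ∈ 𝒜.src (g, j)} := by
    refine ⟨mem_ball_zero_iff.2 (𝒜.norm_crd_lt _ hξ.2), ?_⟩
    have h3 : 𝒜.sym (1, i) (𝒜.T4 i a ξ) = 𝒜.sym a ξ := 𝒜.sym_crd (1, i) hξ.2
    rw [h3]; exact hsrc
  have h3 : DifferentiableAt ℂ (fun z => 𝒜.crd (g, j) (𝒜.sym (1, i) z)) (𝒜.T4 i a ξ) :=
    (𝒜.trans_holo (g, j) (1, i)).differentiableAt
      ((𝒜.isOpen_trans (g, j) (1, i)).mem_nhds hmem)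
  rw [W4, h1.fderiv_eq, fderiv_comp ξ h3 h2]
  rfl

/-- the Jacobian is invertible -/
theorem W4_det {i : Fin 𝒜.n} {a : 𝒜.Idx} {ξ : E} (hξ : ξ ∈ 𝒜.ov i a) :
    (𝒜.W4 i a e1 ξ).1 * (𝒜.W4 i a e2 ξ).2 - (𝒜.W4 i a e2 ξ).1 * (𝒜.W4 i a e1 ξ).2 ≠ 0 := by
  have hn : 𝒜.ov i a ∈ 𝓝 ξ := (𝒜.isOpen_ov i a).mem_nhds hξ
  have hξ4 : ‖ξ‖ < 4 := by simpa using hξ.1
  have h2 : DifferentiableAt ℂ (𝒜.T4 i a) ξ := (𝒜.T4_holo i a).differentiableAt hn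
  have hmem : 𝒜.T4 i a ξ ∈ {z ∈ ball (0 : E) 4 | 𝒜.sym (1, i) z ∈ 𝒜.src a} := by
    refine ⟨mem_ball_zero_iff.2 (𝒜.norm_crd_lt _ hξ.2), ?_⟩
    have h3 : 𝒜.sym (1, i) (𝒜.T4 i a ξ) = 𝒜.sym a ξ := 𝒜.sym_crd (1, i) hξ.2
    rw [h3]; exact 𝒜.sym_mem_src a hξ4
  have h3 : DifferentiableAt ℂ (fun z => 𝒜.crd a (𝒜.sym (1, i) z)) (𝒜.T4 i a ξ) :=
    (𝒜.trans_holo a (1, i)).differentiableAt
      ((𝒜.isOpen_trans a (1, i)).mem_nhds hmem)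
  have hid : (fun z => 𝒜.crd a (𝒜.sym (1, i) z)) ∘ 𝒜.T4 i a =ᶠ[𝓝 ξ] id := by
    filter_upwards [hn] with x hx
    have h3 : 𝒜.sym (1, i) (𝒜.T4 i a x) = 𝒜.sym a x := 𝒜.sym_crd (1, i) hx.2
    simp only [Function.comp_apply, h3, id]
    exact 𝒜.crd_sym a (by simpa using hx.1)
  have hcomp := fderiv_comp ξ h3 h2
  rw [hid.fderiv_eq, fderiv_id] at hcomp
  set L := fderiv ℂ (𝒜.T4 i a) ξ with hL
  set R := fderiv ℂ (fun z => 𝒜.crd a (𝒜.sym (1, i) z)) (𝒜.T4 i a ξ) with hR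
  have hinj : ∀ v : E, L v = 0 → v = 0 := by
    intro v hv
    have := DFunLike.congr_fun hcomp v
    simp only [ContinuousLinearMap.id_apply, ContinuousLinearMap.comp_apply, hv, map_zero] at this
    exact this
  intro h0
  change (L e1).1 * (L e2).2 - (L e2).1 * (L e1).2 = 0 at h0
  have hLv : ∀ v : E, L v = v.1 • L e1 + v.2 • L e2 := by
    intro v
    conv_lhs => rw [E_decomp v]
    rw [map_add, map_smul, map_smul]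
  have k1 : L ((L e2).2, -(L e1).2) = 0 := by
    rw [hLv]
    ext
    · simp; linear_combination h0
    · simp; ring
  have k2 : L ((L e2).1, -(L e1).1) = 0 := by
    rw [hLv]
    ext
    · simp; ring
    · simp; linear_combination -h0
  have k3 := hinj _ k1
  have k4 := hinj _ k2
  rw [Prod.mk_eq_zero] at k3 k4
  have k5 : L e1 = 0 := by
    ext
    · simpa using k4.2
    · simpa using k3.2
  have := hinj _ k5
  simp [e1, Prod.ext_iff] at this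

end

section

variable [ContinuousConstSMul G Y] [T2Space Y]

theorem c11_nonneg (w1 w2 : E) : 0 ≤ c11 w1 w2 := by unfold c11; positivity
theorem c22_nonneg (w1 w2 : E) : 0 ≤ c22 w1 w2 := by unfold c22; positivity

omit [ContinuousConstSMul G Y] [T2Space Y] in
theorem ext11_nonneg (i : Fin 𝒜.n) (a : 𝒜.Idx) (y : Y) : 0 ≤ 𝒜.ext a (𝒜.f11 i a) y := by
  unfold ext
  split_ifs
  · exact mul_nonneg (ps_nonneg _) (c11_nonneg _ _)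
  · exact le_rfl

omit [ContinuousConstSMul G Y] [T2Space Y] in
theorem ext22_nonneg (i : Fin 𝒜.n) (a : 𝒜.Idx) (y : Y) : 0 ≤ 𝒜.ext a (𝒜.f22 i a) y := by
  unfold ext
  split_ifs
  · exact mul_nonneg (ps_nonneg _) (c22_nonneg _ _)
  · exact le_rfl

omit [ContinuousConstSMul G Y] [T2Space Y] in
theorem ext12_sq (i : Fin 𝒜.n) (a : 𝒜.Idx) (y : Y) :
    ‖𝒜.ext a (𝒜.f12 i a) y‖ ^ 2 ≤ 𝒜.ext a (𝒜.f11 i a) y * 𝒜.ext a (𝒜.f22 i a) y := by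
  unfold ext
  split_ifs with h
  · unfold f12 f11 f22
    set w1 := 𝒜.W4 i a e1 (𝒜.crd a y)
    set w2 := 𝒜.W4 i a e2 (𝒜.crd a y)
    have := row_cs w1.1 w2.1 w1.2 w2.2
    have h2 : ‖c12 w1 w2‖ ^ 2 ≤ c11 w1 w2 * c22 w1 w2 := by
      unfold c12 c11 c22
      rw [this]
      nlinarith [sq_nonneg ‖w1.1 * w2.2 - w2.1 * w1.2‖]
    rw [norm_mul, mul_pow, Complex.norm_real, Real.norm_eq_abs, sq_abs]
    calc ps (𝒜.crd a y) ^ 2 * ‖c12 w1 w2‖ ^ 2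
        ≤ ps (𝒜.crd a y) ^ 2 * (c11 w1 w2 * c22 w1 w2) := by gcongr
      _ = _ := by ring
  · simp

theorem ext_strict (i : Fin 𝒜.n) {z : E} (hz : ‖z‖ < 4) : ∃ a, 𝒜.sym (1, i) z ∈ 𝒜.cell a ∧
    ‖𝒜.ext a (𝒜.f12 i a) (𝒜.sym (1, i) z)‖ ^ 2 <
      𝒜.ext a (𝒜.f11 i a) (𝒜.sym (1, i) z) * 𝒜.ext a (𝒜.f22 i a) (𝒜.sym (1, i) z) := by
  obtain ⟨a, ξ, hξ, hy⟩ := 𝒜.exists_sym (𝒜.sym (1, i) z)
  have hξ4 : ‖ξ‖ < 4 := by linarith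
  have hov : ξ ∈ 𝒜.ov i a := by
    refine ⟨mem_ball_zero_iff.2 hξ4, ?_⟩
    rw [hy]; exact 𝒜.sym_mem_src _ hz
  refine ⟨a, ?_, ?_⟩
  · rw [← hy]
    refine ⟨𝒜.sym_mem_src a hξ4, ?_⟩
    rw [𝒜.crd_sym a hξ4]; linarith
  · rw [← hy, 𝒜.ext_sym a _ hξ4, 𝒜.ext_sym a _ hξ4, 𝒜.ext_sym a _ hξ4]
    unfold f12 f11 f22
    rw [ps_one hξ.le]
    set w1 := 𝒜.W4 i a e1 ξ with hw1
    set w2 := 𝒜.W4 i a e2 ξ with hw2
    have hdet : w1.1 * w2.2 - w2.1 * w1.2 ≠ 0 := 𝒜.W4_det hov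
    have := row_cs w1.1 w2.1 w1.2 w2.2
    have h3 : 0 < ‖w1.1 * w2.2 - w2.1 * w1.2‖ ^ 2 := by positivity
    simp only [Complex.ofReal_one, one_mul]
    unfold c12 c11 c22
    rw [this]
    linarith

theorem det_pos4 (i : Fin 𝒜.n) {z : E} (hz : ‖z‖ < 4) :
    ‖∑ᶠ a, 𝒜.ext a (𝒜.f12 i a) (𝒜.sym (1, i) z)‖ ^ 2 <
      (∑ᶠ a, 𝒜.ext a (𝒜.f11 i a) (𝒜.sym (1, i) z)) *
        (∑ᶠ a, 𝒜.ext a (𝒜.f22 i a) (𝒜.sym (1, i) z)) := by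
  classical
  obtain ⟨s, hs, hsum⟩ := 𝒜.exists_fin (𝒜.sym (1, i) z)
  rw [hsum _ (𝒜.f12_supp i), hsum _ (𝒜.f11_supp i), hsum _ (𝒜.f22_supp i)]
  obtain ⟨a, ha, hlt⟩ := 𝒜.ext_strict i hz
  exact pd_sum s _ _ _ (fun b _ => 𝒜.ext11_nonneg i b _) (fun b _ => 𝒜.ext22_nonneg i b _)
    (fun b _ => 𝒜.ext12_sq i b _) (hs a ha) hlt

/-- the coefficients of the invariant operator in the chart `i` -/
def A4 (i : Fin 𝒜.n) : LocCoef where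
  a11 z := ∑ᶠ a, 𝒜.ext a (𝒜.f11 i a) (𝒜.sym (1, i) z)
  a22 z := ∑ᶠ a, 𝒜.ext a (𝒜.f22 i a) (𝒜.sym (1, i) z)
  c z := ∑ᶠ a, 𝒜.ext a (𝒜.f12 i a) (𝒜.sym (1, i) z)
  smooth11 := 𝒜.sum_smooth i _ (𝒜.f11_supp i) (𝒜.f11_smooth i)
  smooth22 := 𝒜.sum_smooth i _ (𝒜.f22_supp i) (𝒜.f22_smooth i)
  smoothc := 𝒜.sum_smooth i _ (𝒜.f12_supp i) (𝒜.f12_smooth i)
  pos := by
    intro z hz
    have h := 𝒜.det_pos4 i (mem_ball_zero_iff.1 hz)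
    have h1 : 0 ≤ ∑ᶠ a, 𝒜.ext a (𝒜.f11 i a) (𝒜.sym (1, i) z) :=
      finsum_nonneg fun a => 𝒜.ext11_nonneg i a _
    rcases h1.lt_or_eq with h2 | h2
    · exact h2
    · rw [← h2, zero_mul] at h
      exact absurd h (not_lt.2 (sq_nonneg _))
  det_pos := by
    intro z hz
    have h := 𝒜.det_pos4 i (mem_ball_zero_iff.1 hz)
    linarith

/-- transformation of one summand -/
theorem ext_rel {i j : Fin 𝒜.n} {g : G} {z : E} (hz : ‖z‖ < 4)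
    (hsrc : 𝒜.sym (1, i) z ∈ 𝒜.src (g, j)) (a : 𝒜.Idx) :
    let L := fderiv ℂ (fun z => 𝒜.crd (g, j) (𝒜.sym (1, i) z)) z
    let y := 𝒜.sym (1, i) z
    let p := (L e1).1
    let r := (L e1).2
    let q := (L e2).1
    let s := (L e2).2
    𝒜.ext a (𝒜.f11 j (g⁻¹ * a.1, a.2)) y =
      ‖p‖ ^ 2 * 𝒜.ext a (𝒜.f11 i a) y + ‖q‖ ^ 2 * 𝒜.ext a (𝒜.f22 i a) y +
        2 * (starRingEnd ℂ p * q * 𝒜.ext a (𝒜.f12 i a) y).re ∧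
    𝒜.ext a (𝒜.f22 j (g⁻¹ * a.1, a.2)) y =
      ‖r‖ ^ 2 * 𝒜.ext a (𝒜.f11 i a) y + ‖s‖ ^ 2 * 𝒜.ext a (𝒜.f22 i a) y +
        2 * (starRingEnd ℂ r * s * 𝒜.ext a (𝒜.f12 i a) y).re ∧
    𝒜.ext a (𝒜.f12 j (g⁻¹ * a.1, a.2)) y =
      starRingEnd ℂ p * r * ((𝒜.ext a (𝒜.f11 i a) y : ℝ) : ℂ) +
      starRingEnd ℂ q * s * ((𝒜.ext a (𝒜.f22 i a) y : ℝ) : ℂ) +
      starRingEnd ℂ p * s * 𝒜.ext a (𝒜.f12 i a) y +
      starRingEnd ℂ q * r * starRingEnd ℂ (𝒜.ext a (𝒜.f12 i a) y) := by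
  intro L y p r q s
  by_cases hy : y ∈ 𝒜.src a
  · have hξ : 𝒜.crd a y ∈ 𝒜.ov i a := by
      refine ⟨mem_ball_zero_iff.2 (𝒜.norm_crd_lt a hy), ?_⟩
      rw [𝒜.sym_crd a hy]; exact 𝒜.sym_mem_src _ hz
    have hT : 𝒜.T4 i a (𝒜.crd a y) = z := by
      rw [T4, 𝒜.sym_crd a hy]; exact 𝒜.crd_sym _ hz
    have hW : ∀ e, 𝒜.W4 j (g⁻¹ * a.1, a.2) e (𝒜.crd a y) = L (𝒜.W4 i a e (𝒜.crd a y)) := by
      intro e
      have h2 : 𝒜.sym a (𝒜.crd a y) ∈ 𝒜.src (g, j) := by rw [𝒜.sym_crd a hy]; exact hsrc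
      rw [𝒜.W4_eq hξ h2 e, hT]
    have key := c_rel L (𝒜.W4 i a e1 (𝒜.crd a y)) (𝒜.W4 i a e2 (𝒜.crd a y))
    obtain ⟨k1, k2, k3⟩ := key
    simp only [ext, if_pos hy, f11, f22, f12, hW]
    refine ⟨?_, ?_, ?_⟩
    · rw [k1, show (starRingEnd ℂ p * q * ((ps (𝒜.crd a y) : ℂ) *
          c12 (𝒜.W4 i a e1 (𝒜.crd a y)) (𝒜.W4 i a e2 (𝒜.crd a y)))) =
          (ps (𝒜.crd a y) : ℂ) * (starRingEnd ℂ p * q *
          c12 (𝒜.W4 i a e1 (𝒜.crd a y)) (𝒜.W4 i a e2 (𝒜.crd a y))) by ring,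
        Complex.re_ofReal_mul]
      ring
    · rw [k2, show (starRingEnd ℂ r * s * ((ps (𝒜.crd a y) : ℂ) *
          c12 (𝒜.W4 i a e1 (𝒜.crd a y)) (𝒜.W4 i a e2 (𝒜.crd a y)))) =
          (ps (𝒜.crd a y) : ℂ) * (starRingEnd ℂ r * s *
          c12 (𝒜.W4 i a e1 (𝒜.crd a y)) (𝒜.W4 i a e2 (𝒜.crd a y))) by ring,
        Complex.re_ofReal_mul]
      ring
    · rw [k3]
      simp only [Complex.ofReal_mul, map_mul, Complex.conj_ofReal]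
      ring
  · simp [ext, if_neg hy]

omit [ContinuousConstSMul G Y] [T2Space Y] in
/-- reindexing of the sum -/
theorem sum_reindex {V : Type*} [NormedAddCommGroup V] [NormedSpace ℝ V] (f : 𝒜.Idx → E → V)
    (g : G) (y : Y) :
    ∑ᶠ b, 𝒜.ext b (f b) (g⁻¹ • y) = ∑ᶠ a : 𝒜.Idx, 𝒜.ext a (f (g⁻¹ * a.1, a.2)) y := by
  refine finsum_eq_of_bijective (fun b : 𝒜.Idx => ((g * b.1, b.2) : 𝒜.Idx)) ?_ ?_
  · constructor
    · intro b b' h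
      simp only [Prod.mk.injEq, mul_right_inj] at h
      exact Prod.ext h.1 h.2
    · intro a
      exact ⟨(g⁻¹ * a.1, a.2), by simp⟩
  · intro b
    have := 𝒜.ext_smul g b (f b) (g⁻¹ • y)
    rw [smul_inv_smul] at this
    rw [← this]
    simp

end

end Atl

variable {G Y : Type*} [Group G] [TopologicalSpace Y] [MulAction G Y]

/-- (ATL4) Hermitian metric -/
theorem exists_met (𝒜 : Atl G Y) [ContinuousConstSMul G Y] [T2Space Y] : Nonempty 𝒜.Met := by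
  refine ⟨⟨𝒜.A4, ?_⟩⟩
  intro i j g z hz hsrc
  have hz4 : ‖z‖ < 4 := mem_ball_zero_iff.1 hz
  have hτ : (fun z' => 𝒜.φ j (g⁻¹ • (𝒜.φ i).symm z')) =
      fun z' => 𝒜.crd (g, j) (𝒜.sym (1, i) z') := by
    funext z'; simp [Atl.crd, Atl.sym]
  have hsrc' : 𝒜.sym (1, i) z ∈ 𝒜.src (g, j) := by
    simpa [Atl.src, Atl.sym] using hsrc
  rw [hτ]
  set y := 𝒜.sym (1, i) z with hy
  have hsym : 𝒜.sym (1, j) (𝒜.crd (g, j) y) = g⁻¹ • y := by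
    have h1 := 𝒜.sym_crd (g, j) hsrc'
    have h2 := 𝒜.sym_smul g (1, j) (𝒜.crd (g, j) y)
    simp only [mul_one] at h2
    rw [h1] at h2
    exact (inv_smul_eq_iff.2 h2).symm
  obtain ⟨s, hs, hsum⟩ := 𝒜.exists_fin y
  have h11 : (𝒜.A4 j).a11 (𝒜.crd (g, j) y) = ∑ a ∈ s, 𝒜.ext a (𝒜.f11 j (g⁻¹ * a.1, a.2)) y := by
    change (∑ᶠ b, 𝒜.ext b (𝒜.f11 j b) (𝒜.sym (1, j) (𝒜.crd (g, j) y))) = _
    rw [hsym, 𝒜.sum_reindex (𝒜.f11 j) g y]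
    exact hsum (fun a => 𝒜.f11 j (g⁻¹ * a.1, a.2)) (fun a z hz => 𝒜.f11_supp j _ z hz)
  have h22 : (𝒜.A4 j).a22 (𝒜.crd (g, j) y) = ∑ a ∈ s, 𝒜.ext a (𝒜.f22 j (g⁻¹ * a.1, a.2)) y := by
    change (∑ᶠ b, 𝒜.ext b (𝒜.f22 j b) (𝒜.sym (1, j) (𝒜.crd (g, j) y))) = _
    rw [hsym, 𝒜.sum_reindex (𝒜.f22 j) g y]
    exact hsum (fun a => 𝒜.f22 j (g⁻¹ * a.1, a.2)) (fun a z hz => 𝒜.f22_supp j _ z hz)
  have h12 : (𝒜.A4 j).c (𝒜.crd (g, j) y) = ∑ a ∈ s, 𝒜.ext a (𝒜.f12 j (g⁻¹ * a.1, a.2)) y := by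
    change (∑ᶠ b, 𝒜.ext b (𝒜.f12 j b) (𝒜.sym (1, j) (𝒜.crd (g, j) y))) = _
    rw [hsym, 𝒜.sum_reindex (𝒜.f12 j) g y]
    exact hsum (fun a => 𝒜.f12 j (g⁻¹ * a.1, a.2)) (fun a z hz => 𝒜.f12_supp j _ z hz)
  have i11 : (𝒜.A4 i).a11 z = ∑ a ∈ s, 𝒜.ext a (𝒜.f11 i a) y := hsum _ (𝒜.f11_supp i)
  have i22 : (𝒜.A4 i).a22 z = ∑ a ∈ s, 𝒜.ext a (𝒜.f22 i a) y := hsum _ (𝒜.f22_supp i)
  have i12 : (𝒜.A4 i).c z = ∑ a ∈ s, 𝒜.ext a (𝒜.f12 i a) y := hsum _ (𝒜.f12_supp i)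
  have hrel := fun a => 𝒜.ext_rel hz4 hsrc' a
  refine ⟨?_, ?_, ?_⟩
  · beta_reduce
    rw [h11, i11, i22, i12, Finset.sum_congr rfl fun a _ => (hrel a).1]
    simp only [Finset.sum_add_distrib, Finset.mul_sum, Complex.re_sum]
    rfl
  · beta_reduce
    rw [h22, i11, i22, i12, Finset.sum_congr rfl fun a _ => (hrel a).2.1]
    simp only [Finset.sum_add_distrib, Finset.mul_sum, Complex.re_sum]
    rfl
  · beta_reduce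
    rw [h12, i11, i22, i12, Finset.sum_congr rfl fun a _ => (hrel a).2.2]
    simp only [Finset.sum_add_distrib, Finset.mul_sum, Complex.ofReal_sum, map_sum]
    rfl

end Sing
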