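import Pool.Agent.Work.MP_3893a0_gt.Defs

/-! Module ATL5: the group is finitely generated. -/

open scoped ContDiff Topology
open MeasureTheory Metric Set Filter

noncomputable section

namespace Sing

variable {G Y : Type*} [Group G] [TopologicalSpace Y] [MulAction G Y]

/-- (ATL5) the group is finitely generated -/
theorem exists_gen (𝒜 : Atl G Y) [ContinuousConstSMul G Y] [ConnectedSpace Y] :
    ∃ S : Finset G, Subgroup.closure (S : Set G) = ⊤ := by
  classical
  -- the open set `D`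
  set D : Set Y := ⋃ i : Fin 𝒜.n, (𝒜.φ i).symm '' ball 0 1 with hD
  have hDo : IsOpen D := by
    refine isOpen_iUnion fun i => ?_
    have h1 : ball (0 : E) 1 ⊆ (𝒜.φ i).symm.source := by
      rw [OpenPartialHomeomorph.symm_source, 𝒜.target_eq]
      exact ball_subset_ball (by norm_num)
    exact (𝒜.φ i).symm.isOpen_image_of_subset_source isOpen_ball h1
  have hcov : ∀ y : Y, ∃ g : G, g⁻¹ • y ∈ D := by
    intro y
    obtain ⟨i, g, h1, h2⟩ := 𝒜.cover y
    exact ⟨g, mem_iUnion.2 ⟨i, ⟨_, h2, (𝒜.φ i).left_inv h1⟩⟩⟩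
  -- the finite set `S`
  set S : Set G := {g : G | ∃ x ∈ D, g • x ∈ D} with hS
  have hSf : S.Finite := by
    have : S ⊆ ⋃ i : Fin 𝒜.n, ⋃ j : Fin 𝒜.n, {g : G | ∃ z ∈ closedBall (0 : E) 3,
        ∃ w ∈ closedBall (0 : E) 3, g • (𝒜.φ j).symm w = (𝒜.φ i).symm z} := by
      rintro g ⟨x, hx, hgx⟩
      obtain ⟨j, w, hw, rfl⟩ := mem_iUnion.1 hx
      obtain ⟨i, z, hz, hzw⟩ := mem_iUnion.1 hgx
      refine mem_iUnion.2 ⟨i, mem_iUnion.2 ⟨j, z, ?_, w, ?_, hzw.symm⟩⟩
      · exact (ball_subset_closedBall.trans (closedBall_subset_closedBall (by norm_num))) hz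
      · exact (ball_subset_closedBall.trans (closedBall_subset_closedBall (by norm_num))) hw
    exact (finite_iUnion fun i => finite_iUnion fun j => 𝒜.proper i j).subset this
  refine ⟨hSf.toFinset, ?_⟩
  rw [Finite.coe_toFinset]
  set K := Subgroup.closure S with hK
  set A : Set Y := ⋃ g : K, (fun y => (g : G)⁻¹ • y) ⁻¹' D with hA
  set B : Set Y := ⋃ g : {g : G // g ∉ K}, (fun y => (g : G)⁻¹ • y) ⁻¹' D with hB
  have hAo : IsOpen A := isOpen_iUnion fun g => hDo.preimage (continuous_const_smul _)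
  have hBo : IsOpen B := isOpen_iUnion fun g => hDo.preimage (continuous_const_smul _)
  have hAB : Disjoint A B := by
    rw [Set.disjoint_left]
    intro y hy hy'
    obtain ⟨⟨g, hg⟩, hgy⟩ := mem_iUnion.1 hy
    obtain ⟨⟨h, hh⟩, hhy⟩ := mem_iUnion.1 hy'
    simp only [mem_preimage] at hgy hhy
    have : g⁻¹ * h ∈ S := by
      refine ⟨h⁻¹ • y, hhy, ?_⟩
      rwa [mul_smul, smul_inv_smul]
    have h2 : g⁻¹ * h ∈ K := Subgroup.subset_closure this
    exact hh ((Subgroup.mul_mem_cancel_left K (K.inv_mem hg)).1 h2)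
  have hABu : A ∪ B = univ := by
    refine eq_univ_of_forall fun y => ?_
    obtain ⟨g, hg⟩ := hcov y
    by_cases hgK : g ∈ K
    · exact Or.inl (mem_iUnion.2 ⟨⟨g, hgK⟩, hg⟩)
    · exact Or.inr (mem_iUnion.2 ⟨⟨g, hgK⟩, hg⟩)
  obtain ⟨y0⟩ : Nonempty Y := inferInstance
  obtain ⟨g0, hg0⟩ := hcov y0
  have hAne : A.Nonempty := ⟨g0⁻¹ • y0, mem_iUnion.2 ⟨1, by simpa using hg0⟩⟩
  by_contra hne
  have : ∃ g, g ∉ K := by
    by_contra hcon
    push Not at hcon
    exact hne ((Subgroup.eq_top_iff' K).2 hcon)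
  obtain ⟨g, hg⟩ := this
  have hBne : B.Nonempty := ⟨g • g0⁻¹ • y0, mem_iUnion.2 ⟨⟨g, hg⟩, by simpa using hg0⟩⟩
  have hpre : IsPreconnected (univ : Set Y) := isPreconnected_univ
  obtain ⟨y, -, hy⟩ := hpre A B hAo hBo (by rw [hABu]) (by simpa using hAne) (by simpa using hBne)
  exact (Set.disjoint_left.1 hAB) hy.1 hy.2

end Sing
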