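import Pool.Agent.Work.MP_3893a0_gt.Defs

/-! BOCH1: the flat identity (integration by parts in `ℂ × ℂ`). -/

open scoped ContDiff Topology BoundedContinuousFunction
open MeasureTheory Metric Set Filter

noncomputable section

namespace Sing

namespace Boch

/-- directional derivative -/
def Dv {V : Type*} [NormedAddCommGroup V] [NormedSpace ℝ V] (v : E) (f : E → V) (z : E) : V :=
  fderiv ℝ f z v

section
variable {V : Type*} [NormedAddCommGroup V] [NormedSpace ℝ V]

theorem Dv_smooth {f : E → V} (hf : ContDiffOn ℝ ∞ f (ball 0 4)) (v : E) :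
    ContDiffOn ℝ ∞ (Dv v f) (ball 0 4) := by
  have h1 : ContDiffOn ℝ ∞ (fderiv ℝ f) (ball 0 4) :=
    hf.fderiv_of_isOpen isOpen_ball (by simp)
  exact h1.clm_apply contDiffOn_const

theorem Dv_Dv {f : E → V} (hf : ContDiffOn ℝ ∞ f (ball 0 4)) (v w : E) {z : E}
    (hz : z ∈ ball (0 : E) 4) : Dv v (Dv w f) z = fderiv ℝ (fderiv ℝ f) z v w := by
  have h1 : ContDiffOn ℝ ∞ (fderiv ℝ f) (ball 0 4) :=
    hf.fderiv_of_isOpen isOpen_ball (by simp)
  have h2 : DifferentiableAt ℝ (fderiv ℝ f) z :=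
    ((h1.contDiffAt (isOpen_ball.mem_nhds hz)).differentiableAt (by simp))
  unfold Dv
  rw [fderiv_clm_apply h2 (differentiableAt_const w)]
  simp

theorem Dv_symm {f : E → V} (hf : ContDiffOn ℝ ∞ f (ball 0 4)) (v w : E) {z : E}
    (hz : z ∈ ball (0 : E) 4) : Dv v (Dv w f) z = Dv w (Dv v f) z := by
  rw [Dv_Dv hf v w hz, Dv_Dv hf w v hz]
  have : ContDiffAt ℝ ∞ f z := hf.contDiffAt (isOpen_ball.mem_nhds hz)
  exact (this.isSymmSndFDerivAt (by simpa using ENat.LEInfty.out)) v w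

end

/-- test functions -/
structure Tst (χ : E → ℝ) : Prop where
  smooth : ContDiff ℝ ∞ χ
  supp : tsupport χ ⊆ closedBall 0 3

theorem Tst.sub {χ : E → ℝ} (h : Tst χ) : tsupport χ ⊆ ball 0 4 := fun z hz => by
  have := h.supp hz
  rw [mem_closedBall] at this
  rw [mem_ball]
  linarith

theorem Tst.D {χ : E → ℝ} (h : Tst χ) (v : E) : Tst (Dv v χ) := by
  refine ⟨?_, ?_⟩
  · exact (h.smooth.fderiv_right (by simp)).clm_apply contDiff_const
  · refine (tsupport_fderiv_apply_subset ℝ v).trans h.supp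

section
variable {H : Type*} [NormedAddCommGroup H] [InnerProductSpace ℝ H]

theorem integrable_tst {χ W : E → ℝ} (h : Tst χ) (hW : ContinuousOn W (ball 0 4)) :
    Integrable (fun z => χ z * W z) := by
  have hs : tsupport (fun z => χ z * W z) ⊆ tsupport χ := tsupport_mul_subset_left
  have hc : Continuous (fun z => χ z * W z) := by
    refine ContinuousOn.continuous_of_tsupport_subset
      (h.smooth.continuous.continuousOn.mul hW) isOpen_ball (hs.trans h.sub)
  refine hc.integrable_of_hasCompactSupport ?_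
  exact HasCompactSupport.of_support_subset_isCompact (isCompact_closedBall (0 : E) 3)
    ((subset_tsupport _).trans (hs.trans h.supp))

def J (χ : E → ℝ) (f g : E → H) : ℝ := ∫ z, χ z * inner ℝ (f z) (g z)

theorem J_symm (χ : E → ℝ) (f g : E → H) : J χ f g = J χ g f := by
  unfold J
  congr 1
  funext z
  rw [real_inner_comm]

theorem J_congr {χ : E → ℝ} (h : Tst χ) {f g f' g' : E → H}
    (hf : ∀ z ∈ ball (0 : E) 4, f z = f' z) (hg : ∀ z ∈ ball (0 : E) 4, g z = g' z) :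
    J χ f g = J χ f' g' := by
  unfold J
  congr 1
  funext z
  by_cases hz : z ∈ ball (0 : E) 4
  · rw [hf z hz, hg z hz]
  · have : χ z = 0 := by
      by_contra hne
      exact hz (h.sub (subset_tsupport _ hne))
    rw [this, zero_mul, zero_mul]

theorem J_parts {χ : E → ℝ} (h : Tst χ) {f g : E → H} (hf : ContDiffOn ℝ ∞ f (ball 0 4))
    (hg : ContDiffOn ℝ ∞ g (ball 0 4)) (v : E) :
    J χ (Dv v f) g = - J (Dv v χ) f g - J χ f (Dv v g) := by
  have cf := hf.continuousOn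
  have cg := hg.continuousOn
  have cdf := (Dv_smooth hf v).continuousOn
  have cdg := (Dv_smooth hg v).continuousOn
  have df : ∀ z ∈ ball (0 : E) 4, DifferentiableAt ℝ f z := fun z hz =>
    (hf.contDiffAt (isOpen_ball.mem_nhds hz)).differentiableAt (by simp)
  have dg : ∀ z ∈ ball (0 : E) 4, DifferentiableAt ℝ g z := fun z hz =>
    (hg.contDiffAt (isOpen_ball.mem_nhds hz)).differentiableAt (by simp)
  have i1 : Integrable (fun z => χ z * inner ℝ (Dv v f z) (g z)) :=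
    integrable_tst h (cdf.inner cg)
  have i2 : Integrable (fun z => χ z * inner ℝ (f z) (Dv v g z)) :=
    integrable_tst h (cf.inner cdg)
  have i3 : Integrable (fun z => Dv v χ z * inner ℝ (f z) (g z)) :=
    integrable_tst (h.D v) (cf.inner cg)
  have i4 : Integrable (fun z => χ z * inner ℝ (f z) (g z)) :=
    integrable_tst h (cf.inner cg)
  have key : ∀ z, χ z * fderiv ℝ (fun z => inner ℝ (f z) (g z)) z v =
      χ z * inner ℝ (Dv v f z) (g z) + χ z * inner ℝ (f z) (Dv v g z) := by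
    intro z
    by_cases hz : z ∈ ball (0 : E) 4
    · rw [fderiv_inner_apply ℝ (df z hz) (dg z hz)]
      unfold Dv
      ring
    · have : χ z = 0 := by
        by_contra hne
        exact hz (h.sub (subset_tsupport _ hne))
      rw [this]
      ring
  haveI : (volume : Measure E).IsAddHaarMeasure := Measure.prod.instIsAddHaarMeasure _ _
  have ibp := integral_mul_fderiv_eq_neg_fderiv_mul_of_integrable (μ := (volume : Measure E))
    (f := χ) (g := fun z => inner ℝ (f z) (g z)) (v := v) i3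
    (by
      simp only [key]
      exact i1.add i2) i4
    (fun z _ => h.smooth.differentiable (by simp) z)
    (fun z hz => ((df z (h.sub hz)).inner ℝ (dg z (h.sub hz))))
  simp only [key] at ibp
  rw [integral_add i1 i2] at ibp
  unfold J
  unfold Dv at ibp ⊢
  linarith

/-- the double divergence identity -/
theorem J_core {χ : E → ℝ} (h : Tst χ) {u : E → H} (hu : ContDiffOn ℝ ∞ u (ball 0 4))
    (p q r s : E) :
    2 * (J χ (Dv r (Dv p u)) (Dv s (Dv q u)) - J χ (Dv s (Dv p u)) (Dv r (Dv q u))) =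
      J (Dv q (Dv r χ)) (Dv p u) (Dv s u) - J (Dv p (Dv r χ)) (Dv q u) (Dv s u) -
      J (Dv q (Dv s χ)) (Dv p u) (Dv r u) + J (Dv p (Dv s χ)) (Dv q u) (Dv r u) := by
  have up := Dv_smooth hu p
  have uq := Dv_smooth hu q
  have ur := Dv_smooth hu r
  have us := Dv_smooth hu s
  have e1 := J_parts h up (Dv_smooth uq s) r
  have e2 := J_parts h up (Dv_smooth uq r) s
  have e3 : J χ (Dv p u) (Dv r (Dv s (Dv q u))) = J χ (Dv p u) (Dv s (Dv r (Dv q u))) :=
    J_congr h (fun _ _ => rfl) (fun z hz => Dv_symm uq r s hz)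
  have e4 := J_parts h uq (Dv_smooth up r) s
  have e5 := J_parts h uq (Dv_smooth up s) r
  have e6 : J χ (Dv q u) (Dv s (Dv r (Dv p u))) = J χ (Dv q u) (Dv r (Dv s (Dv p u))) :=
    J_congr h (fun _ _ => rfl) (fun z hz => Dv_symm up s r hz)
  have s1 := J_symm χ (Dv s (Dv q u)) (Dv r (Dv p u))
  have s2 := J_symm χ (Dv r (Dv q u)) (Dv s (Dv p u))
  have a1 := J_parts (h.D r) up us q
  have a2 := J_parts (h.D r) uq us p
  have a3 := J_parts (h.D s) up ur q
  have a4 := J_parts (h.D s) uq ur p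
  have b1 : J (Dv r χ) (Dv q (Dv p u)) (Dv s u) = J (Dv r χ) (Dv p (Dv q u)) (Dv s u) :=
    J_congr (h.D r) (fun z hz => Dv_symm hu q p hz) (fun _ _ => rfl)
  have b2 : J (Dv s χ) (Dv q (Dv p u)) (Dv r u) = J (Dv s χ) (Dv p (Dv q u)) (Dv r u) :=
    J_congr (h.D s) (fun z hz => Dv_symm hu q p hz) (fun _ _ => rfl)
  have c1 : J (Dv r χ) (Dv p u) (Dv q (Dv s u)) = J (Dv r χ) (Dv p u) (Dv s (Dv q u)) :=
    J_congr (h.D r) (fun _ _ => rfl) (fun z hz => Dv_symm hu q s hz)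
  have c2 : J (Dv r χ) (Dv q u) (Dv p (Dv s u)) = J (Dv r χ) (Dv q u) (Dv s (Dv p u)) :=
    J_congr (h.D r) (fun _ _ => rfl) (fun z hz => Dv_symm hu p s hz)
  have c3 : J (Dv s χ) (Dv p u) (Dv q (Dv r u)) = J (Dv s χ) (Dv p u) (Dv r (Dv q u)) :=
    J_congr (h.D s) (fun _ _ => rfl) (fun z hz => Dv_symm hu q r hz)
  have c4 : J (Dv s χ) (Dv q u) (Dv p (Dv r u)) = J (Dv s χ) (Dv q u) (Dv r (Dv p u)) :=
    J_congr (h.D s) (fun _ _ => rfl) (fun z hz => Dv_symm hu p r hz)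
  linarith


theorem Dv_Dv' {χ : E → ℝ} (h : Tst χ) (v w : E) (z : E) :
    fderiv ℝ (fderiv ℝ χ) z v w = Dv v (Dv w χ) z := by
  have h1 : ContDiff ℝ ∞ (fderiv ℝ χ) := h.smooth.fderiv_right (by simp)
  have h2 : DifferentiableAt ℝ (fderiv ℝ χ) z := h1.differentiable (by simp) z
  unfold Dv
  rw [fderiv_clm_apply h2 (differentiableAt_const w)]
  simp

theorem II (v : E) : Complex.I • (Complex.I • v) = -v := by
  rw [smul_smul, Complex.I_mul_I, neg_one_smul]

/-- integrability of the terms -/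
theorem J_int {χ : E → ℝ} (h : Tst χ) {f g : E → H} (hf : ContDiffOn ℝ ∞ f (ball 0 4))
    (hg : ContDiffOn ℝ ∞ g (ball 0 4)) : Integrable (fun z => χ z * inner ℝ (f z) (g z)) :=
  integrable_tst h (hf.continuousOn.inner hg.continuousOn)

/-- integrable with integral `I` -/
def HI (f : E → ℝ) (I : ℝ) : Prop := Integrable f volume ∧ ∫ z, f z = I

theorem HI.add {f g : E → ℝ} {I K : ℝ} (hf : HI f I) (hg : HI g K) :
    HI (fun z => f z + g z) (I + K) :=
  ⟨hf.1.add hg.1, by rw [integral_add hf.1 hg.1, hf.2, hg.2]⟩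

theorem HI.sub {f g : E → ℝ} {I K : ℝ} (hf : HI f I) (hg : HI g K) :
    HI (fun z => f z - g z) (I - K) :=
  ⟨hf.1.sub hg.1, by rw [integral_sub hf.1 hg.1, hf.2, hg.2]⟩

theorem HI.two {f : E → ℝ} {I : ℝ} (hf : HI f I) :
    HI (fun z => 2 * f z) (2 * I) :=
  ⟨hf.1.const_mul 2, by rw [integral_const_mul, hf.2]⟩

theorem MA_expand {χ : E → ℝ} (h : Tst χ) {u : E → H} (hu : ContDiffOn ℝ ∞ u (ball 0 4))
    (a b c d : E) (ha : a = e1) (hb : b = Complex.I • e1) (hc : c = e2)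
    (hd : d = Complex.I • e2) :
    ∫ z, χ z * MAdet u z =
      (J χ (Dv a (Dv a u)) (Dv c (Dv c u)) - J χ (Dv c (Dv a u)) (Dv a (Dv c u))) +
      (J χ (Dv a (Dv a u)) (Dv d (Dv d u)) - J χ (Dv d (Dv a u)) (Dv a (Dv d u))) +
      (J χ (Dv b (Dv b u)) (Dv c (Dv c u)) - J χ (Dv c (Dv b u)) (Dv b (Dv c u))) +
      (J χ (Dv b (Dv b u)) (Dv d (Dv d u)) - J χ (Dv d (Dv b u)) (Dv b (Dv d u))) -
      2 * (J χ (Dv c (Dv a u)) (Dv d (Dv b u)) - J χ (Dv d (Dv a u)) (Dv c (Dv b u))) := by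
  have S : ∀ v w : E, ContDiffOn ℝ ∞ (Dv v (Dv w u)) (ball 0 4) := fun v w =>
    Dv_smooth (Dv_smooth hu w) v
  have i1 := J_int h (S a a) (S c c)
  have i2 := J_int h (S c a) (S a c)
  have i3 := J_int h (S a a) (S d d)
  have i4 := J_int h (S d a) (S a d)
  have i5 := J_int h (S b b) (S c c)
  have i6 := J_int h (S c b) (S b c)
  have i7 := J_int h (S b b) (S d d)
  have i8 := J_int h (S d b) (S b d)
  have i9 := J_int h (S c a) (S d b)
  have i10 := J_int h (S d a) (S c b)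
  have key : (fun z => χ z * MAdet u z) = fun z =>
      (χ z * inner ℝ (Dv a (Dv a u) z) (Dv c (Dv c u) z) -
        χ z * inner ℝ (Dv c (Dv a u) z) (Dv a (Dv c u) z)) +
      (χ z * inner ℝ (Dv a (Dv a u) z) (Dv d (Dv d u) z) -
        χ z * inner ℝ (Dv d (Dv a u) z) (Dv a (Dv d u) z)) +
      (χ z * inner ℝ (Dv b (Dv b u) z) (Dv c (Dv c u) z) -
        χ z * inner ℝ (Dv c (Dv b u) z) (Dv b (Dv c u) z)) +
      (χ z * inner ℝ (Dv b (Dv b u) z) (Dv d (Dv d u) z) -
        χ z * inner ℝ (Dv d (Dv b u) z) (Dv b (Dv d u) z)) -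
      2 * (χ z * inner ℝ (Dv c (Dv a u) z) (Dv d (Dv b u) z) -
        χ z * inner ℝ (Dv d (Dv a u) z) (Dv c (Dv b u) z)) := by
    funext z
    by_cases hz : z ∈ ball (0 : E) 4
    · have l1 : levB u z e1 e1 = Dv a (Dv a u) z + Dv b (Dv b u) z := by
        unfold levB
        rw [Dv_Dv hu a a hz, Dv_Dv hu b b hz, ha, hb]
      have l2 : levB u z e2 e2 = Dv c (Dv c u) z + Dv d (Dv d u) z := by
        unfold levB
        rw [Dv_Dv hu c c hz, Dv_Dv hu d d hz, hc, hd]
      have l3 : levB u z e1 e2 = Dv a (Dv c u) z + Dv b (Dv d u) z := by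
        unfold levB
        rw [Dv_Dv hu a c hz, Dv_Dv hu b d hz, ha, hb, hc, hd]
      have l4 : levB u z e1 (Complex.I • e2) = Dv a (Dv d u) z - Dv b (Dv c u) z := by
        unfold levB
        rw [Dv_Dv hu a d hz, Dv_Dv hu b c hz, ha, hb, hc, hd, II, map_neg, sub_eq_add_neg]
      unfold MAdet
      rw [l1, l2, l3, l4, Dv_symm hu c a hz, Dv_symm hu d a hz, Dv_symm hu c b hz,
        Dv_symm hu d b hz, ← real_inner_self_eq_norm_sq, ← real_inner_self_eq_norm_sq]
      simp only [inner_add_left, inner_add_right, inner_sub_left, inner_sub_right]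
      rw [real_inner_comm (Dv a (Dv c u) z) (Dv b (Dv d u) z),
        real_inner_comm (Dv a (Dv d u) z) (Dv b (Dv c u) z)]
      ring
    · have : χ z = 0 := by
        by_contra hne
        exact hz (h.sub (subset_tsupport _ hne))
      rw [this]
      ring
  rw [key]
  have B : ∀ {χ : E → ℝ} {f g : E → H},
      Integrable (fun z => χ z * inner ℝ (f z) (g z)) volume →
      HI (fun z => χ z * inner ℝ (f z) (g z)) (J χ f g) := fun hi => ⟨hi, rfl⟩
  exact ((((((B i1).sub (B i2)).add ((B i3).sub (B i4))).add ((B i5).sub (B i6))).add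
    ((B i7).sub (B i8))).sub ((B i9).sub (B i10)).two).2

theorem Dp_expand {χ : E → ℝ} (h : Tst χ) {u : E → H} (hu : ContDiffOn ℝ ∞ u (ball 0 4))
    (a b c d : E) (ha : a = e1) (hb : b = Complex.I • e1) (hc : c = e2)
    (hd : d = Complex.I • e2) :
    ∫ z, Dp χ u z =
      (J (Dv a (Dv a χ)) (Dv c u) (Dv c u) + J (Dv a (Dv a χ)) (Dv d u) (Dv d u) +
        (J (Dv b (Dv b χ)) (Dv c u) (Dv c u) + J (Dv b (Dv b χ)) (Dv d u) (Dv d u))) +
      (J (Dv c (Dv c χ)) (Dv a u) (Dv a u) + J (Dv c (Dv c χ)) (Dv b u) (Dv b u) +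
        (J (Dv d (Dv d χ)) (Dv a u) (Dv a u) + J (Dv d (Dv d χ)) (Dv b u) (Dv b u))) -
      2 * (J (Dv a (Dv c χ)) (Dv a u) (Dv c u) + J (Dv a (Dv c χ)) (Dv b u) (Dv d u) +
        (J (Dv b (Dv d χ)) (Dv a u) (Dv c u) + J (Dv b (Dv d χ)) (Dv b u) (Dv d u))) -
      2 * (J (Dv a (Dv d χ)) (Dv a u) (Dv d u) - J (Dv a (Dv d χ)) (Dv b u) (Dv c u) -
        (J (Dv b (Dv c χ)) (Dv a u) (Dv d u) - J (Dv b (Dv c χ)) (Dv b u) (Dv c u))) := by
  have T : ∀ v w : E, Tst (Dv v (Dv w χ)) := fun v w => (h.D w).D v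
  have U : ∀ v : E, ContDiffOn ℝ ∞ (Dv v u) (ball 0 4) := fun v => Dv_smooth hu v
  have i1 := J_int (T a a) (U c) (U c)
  have i2 := J_int (T a a) (U d) (U d)
  have i3 := J_int (T b b) (U c) (U c)
  have i4 := J_int (T b b) (U d) (U d)
  have i5 := J_int (T c c) (U a) (U a)
  have i6 := J_int (T c c) (U b) (U b)
  have i7 := J_int (T d d) (U a) (U a)
  have i8 := J_int (T d d) (U b) (U b)
  have j1 := J_int (T a c) (U a) (U c)
  have j2 := J_int (T a c) (U b) (U d)
  have j3 := J_int (T b d) (U a) (U c)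
  have j4 := J_int (T b d) (U b) (U d)
  have k1 := J_int (T a d) (U a) (U d)
  have k2 := J_int (T a d) (U b) (U c)
  have k3 := J_int (T b c) (U a) (U d)
  have k4 := J_int (T b c) (U b) (U c)
  have key : (fun z => Dp χ u z) = fun z =>
      (Dv a (Dv a χ) z * inner ℝ (Dv c u z) (Dv c u z) +
          Dv a (Dv a χ) z * inner ℝ (Dv d u z) (Dv d u z) +
        (Dv b (Dv b χ) z * inner ℝ (Dv c u z) (Dv c u z) +
          Dv b (Dv b χ) z * inner ℝ (Dv d u z) (Dv d u z))) +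
      (Dv c (Dv c χ) z * inner ℝ (Dv a u z) (Dv a u z) +
          Dv c (Dv c χ) z * inner ℝ (Dv b u z) (Dv b u z) +
        (Dv d (Dv d χ) z * inner ℝ (Dv a u z) (Dv a u z) +
          Dv d (Dv d χ) z * inner ℝ (Dv b u z) (Dv b u z))) -
      2 * (Dv a (Dv c χ) z * inner ℝ (Dv a u z) (Dv c u z) +
          Dv a (Dv c χ) z * inner ℝ (Dv b u z) (Dv d u z) +
        (Dv b (Dv d χ) z * inner ℝ (Dv a u z) (Dv c u z) +
          Dv b (Dv d χ) z * inner ℝ (Dv b u z) (Dv d u z))) -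
      2 * (Dv a (Dv d χ) z * inner ℝ (Dv a u z) (Dv d u z) -
          Dv a (Dv d χ) z * inner ℝ (Dv b u z) (Dv c u z) -
        (Dv b (Dv c χ) z * inner ℝ (Dv a u z) (Dv d u z) -
          Dv b (Dv c χ) z * inner ℝ (Dv b u z) (Dv c u z))) := by
    funext z
    have l1 : levB χ z e1 e1 = Dv a (Dv a χ) z + Dv b (Dv b χ) z := by
      unfold levB
      rw [← Dv_Dv' h a a, ← Dv_Dv' h b b, ha, hb]
    have l2 : levB χ z e2 e2 = Dv c (Dv c χ) z + Dv d (Dv d χ) z := by
      unfold levB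
      rw [← Dv_Dv' h c c, ← Dv_Dv' h d d, hc, hd]
    have l3 : levB χ z e1 e2 = Dv a (Dv c χ) z + Dv b (Dv d χ) z := by
      unfold levB
      rw [← Dv_Dv' h a c, ← Dv_Dv' h b d, ha, hb, hc, hd]
    have l4 : levB χ z e1 (Complex.I • e2) = Dv a (Dv d χ) z - Dv b (Dv c χ) z := by
      unfold levB
      rw [← Dv_Dv' h a d, ← Dv_Dv' h b c, ha, hb, hc, hd, II, map_neg, sub_eq_add_neg]
    have m1 : fderiv ℝ u z e1 = Dv a u z := by rw [ha]; rfl
    have m2 : fderiv ℝ u z (Complex.I • e1) = Dv b u z := by rw [hb]; rfl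
    have m3 : fderiv ℝ u z e2 = Dv c u z := by rw [hc]; rfl
    have m4 : fderiv ℝ u z (Complex.I • e2) = Dv d u z := by rw [hd]; rfl
    unfold Dp
    rw [l1, l2, l3, l4, m1, m2, m3, m4, ← real_inner_self_eq_norm_sq,
      ← real_inner_self_eq_norm_sq, ← real_inner_self_eq_norm_sq,
      ← real_inner_self_eq_norm_sq]
    ring
  rw [key]
  have B : ∀ {χ : E → ℝ} {f g : E → H},
      Integrable (fun z => χ z * inner ℝ (f z) (g z)) volume →
      HI (fun z => χ z * inner ℝ (f z) (g z)) (J χ f g) := fun hi => ⟨hi, rfl⟩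
  exact ((((((B i1).add (B i2)).add ((B i3).add (B i4))).add
    (((B i5).add (B i6)).add ((B i7).add (B i8)))).sub
    (((B j1).add (B j2)).add ((B j3).add (B j4))).two).sub
    (((B k1).sub (B k2)).sub ((B k3).sub (B k4))).two).2

end

end Boch

section
variable {H : Type*} [NormedAddCommGroup H] [InnerProductSpace ℝ H]

open Boch in
/-- flat identity (BOCH1) -/
theorem flat_identity (χ : E → ℝ) (hχ : ContDiff ℝ ∞ χ) (hs : ∀ z, χ z ≠ 0 → ‖z‖ ≤ 3)
    (u : E → H) (hu : ContDiffOn ℝ ∞ u (ball 0 4)) :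
    ∫ z, χ z * MAdet u z = -(1 / 2) * ∫ z, Dp χ u z := by
  have h : Tst χ := by
    refine ⟨hχ, ?_⟩
    refine closure_minimal (fun z hz => ?_) isClosed_closedBall
    rw [mem_closedBall_zero_iff]
    exact hs z hz
  rw [MA_expand h hu e1 (Complex.I • e1) e2 (Complex.I • e2) rfl rfl rfl rfl,
    Dp_expand h hu e1 (Complex.I • e1) e2 (Complex.I • e2) rfl rfl rfl rfl]
  set a := e1
  set b := Complex.I • a
  set c := e2
  set d := Complex.I • c
  have A1 := J_core h hu a c a c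
  have A2 := J_core h hu a d a d
  have A3 := J_core h hu b c b c
  have A4 := J_core h hu b d b d
  have A5 := J_core h hu a b c d
  have hχ' : ContDiffOn ℝ ∞ χ (ball 0 4) := hχ.contDiffOn
  have sym : ∀ v w : E, Dv v (Dv w χ) = Dv w (Dv v χ) := by
    intro v w
    funext z
    rw [← Dv_Dv' h v w, ← Dv_Dv' h w v]
    have : ContDiffAt ℝ ∞ χ z := hχ.contDiffAt
    exact (this.isSymmSndFDerivAt (by simpa using ENat.LEInfty.out)) v w
  rw [sym c a] at A1
  rw [sym d a] at A2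
  rw [sym c b] at A3
  rw [sym d b] at A4
  rw [J_symm _ (Dv c u) (Dv a u)] at A1
  rw [J_symm _ (Dv d u) (Dv a u)] at A2
  rw [J_symm _ (Dv c u) (Dv b u)] at A3
  rw [J_symm _ (Dv d u) (Dv b u)] at A4
  linarith

end

end Sing
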