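import Pool.Agent.Work.MP_3893a0_gt.Defs
import Pool.Agent.Work.MP_3893a0_gt.Geo2
import Pool.Agent.Work.MP_3893a0_gt.Geo3a2
import Pool.Agent.Work.MP_3893a0_gt.Geo3b

/-! BOCH2: transformation law of `Dp` under a holomorphic change of coordinates. -/

open scoped ContDiff Topology BoundedContinuousFunction
open MeasureTheory Metric Set Filter

noncomputable section

namespace Sing

namespace Boch2

/-- symmetric real bilinear forms on `E` invariant under multiplication by `i` -/
structure HF (L : E → E → ℝ) : Prop where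
  add : ∀ v v' w, L (v + v') w = L v w + L v' w
  smul : ∀ (c : ℝ) v w, L (c • v) w = c * L v w
  symm : ∀ v w, L v w = L w v
  inv : ∀ v w, L (Complex.I • v) (Complex.I • w) = L v w

theorem HF.add_right {L : E → E → ℝ} (h : HF L) (v w w' : E) :
    L v (w + w') = L v w + L v w' := by
  rw [h.symm, h.add, h.symm w, h.symm w']

theorem HF.smul_right {L : E → E → ℝ} (h : HF L) (c : ℝ) (v w : E) :
    L v (c • w) = c * L v w := by
  rw [h.symm, h.smul, h.symm w]

theorem HF.neg {L : E → E → ℝ} (h : HF L) (v w : E) : L (-v) w = - L v w := by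
  have := h.smul (-1) v w
  simpa using this

theorem HF.neg_right {L : E → E → ℝ} (h : HF L) (v w : E) : L v (-w) = - L v w := by
  rw [h.symm, h.neg, h.symm w]

theorem I_I (v : E) : Complex.I • (Complex.I • v) = -v := by
  rw [smul_smul, Complex.I_mul_I]
  simp

theorem HF.I_self {L : E → E → ℝ} (h : HF L) (v : E) : L v (Complex.I • v) = 0 := by
  have h1 := h.inv v (Complex.I • v)
  rw [I_I, h.neg_right, h.symm] at h1
  linarith

theorem HF.I_left {L : E → E → ℝ} (h : HF L) (v w : E) :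
    L (Complex.I • v) w = - L v (Complex.I • w) := by
  have h1 := h.inv v (Complex.I • w)
  rw [I_I, h.neg_right] at h1
  linarith

theorem csmul_eq (p : ℂ) (v : E) : p • v = p.re • v + p.im • (Complex.I • v) := by
  have : p = (p.re : ℂ) + (p.im : ℂ) * Complex.I := (Complex.re_add_im p).symm
  conv_lhs => rw [this]
  rw [add_smul, mul_smul]
  rfl

theorem HF.csmul {L : E → E → ℝ} (h : HF L) (p q : ℂ) (v w : E) :
    L (p • v) (q • w) = (p.re * q.re + p.im * q.im) * L v w +
      (p.re * q.im - p.im * q.re) * L v (Complex.I • w) := by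
  rw [csmul_eq p, csmul_eq q]
  simp only [h.add, h.add_right, h.smul, h.smul_right]
  rw [h.inv, h.I_left]
  ring

theorem HF.expand {L : E → E → ℝ} (h : HF L) (p r q s : ℂ) :
    L (p, r) (q, s) = (p.re * q.re + p.im * q.im) * L e1 e1 +
      (r.re * s.re + r.im * s.im) * L e2 e2 +
      ((p.re * s.re + p.im * s.im) + (q.re * r.re + q.im * r.im)) * L e1 e2 +
      ((p.re * s.im - p.im * s.re) + (q.re * r.im - q.im * r.re)) * L e1 (Complex.I • e2) := by
  have e1' : ((p, r) : E) = p • e1 + r • e2 := by simp [e1, e2]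
  have e2' : ((q, s) : E) = q • e1 + s • e2 := by simp [e1, e2]
  rw [e1', e2']
  rw [h.add, h.add_right, h.add_right, h.csmul, h.csmul, h.csmul, h.csmul, h.I_self, h.I_self,
    h.symm e2 e1, h.symm e2 (Complex.I • e1), h.I_left e1 e2]
  ring

theorem disc {L K : E → E → ℝ} (h : HF L) (k : HF K) (p r q s : ℂ) :
    L (p, r) (p, r) * K (q, s) (q, s) + L (q, s) (q, s) * K (p, r) (p, r) -
      2 * L (p, r) (q, s) * K (p, r) (q, s) -
      2 * L (p, r) (Complex.I • (q, s)) * K (p, r) (Complex.I • (q, s)) =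
    Complex.normSq (p * s - q * r) *
      (L e1 e1 * K e2 e2 + L e2 e2 * K e1 e1 - 2 * L e1 e2 * K e1 e2 -
        2 * L e1 (Complex.I • e2) * K e1 (Complex.I • e2)) := by
  have hI : Complex.I • ((q, s) : E) = (Complex.I * q, Complex.I * s) := rfl
  rw [hI]
  rw [h.expand p r p r, h.expand q s q s, h.expand p r q s, h.expand p r (Complex.I * q) _,
    k.expand p r p r, k.expand q s q s, k.expand p r q s, k.expand p r (Complex.I * q) _]
  rw [Complex.normSq_apply]
  simp only [Complex.mul_re, Complex.mul_im, Complex.I_re, Complex.I_im, Complex.sub_re,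
    Complex.sub_im]
  ring

theorem levB_HF {f : E → ℝ} {z : E} (hf : ContDiffAt ℝ 2 f z) : HF (levB f z) := by
  have hs : ∀ v w, fderiv ℝ (fderiv ℝ f) z v w = fderiv ℝ (fderiv ℝ f) z w v := by
    intro v w
    exact (hf.isSymmSndFDerivAt (by simp)) v w
  refine ⟨?_, ?_, ?_, ?_⟩
  · intro v v' w
    unfold levB
    simp only [smul_add, map_add, add_apply]
    ring
  · intro c v w
    unfold levB
    rw [smul_comm Complex.I c v]
    simp only [map_smul, smul_apply, smul_eq_mul]
    ring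
  · intro v w
    unfold levB
    rw [hs v w, hs (Complex.I • v)]
  · intro v w
    unfold levB
    rw [I_I, I_I]
    simp only [map_neg, neg_apply, neg_neg]
    ring

theorem Q_HF {H : Type*} [NormedAddCommGroup H] [InnerProductSpace ℝ H] (D : E →L[ℝ] H) :
    HF (fun v w => inner ℝ (D v) (D w) + inner ℝ (D (Complex.I • v)) (D (Complex.I • w))) := by
  refine ⟨?_, ?_, ?_, ?_⟩
  · intro v v' w
    simp only [smul_add, map_add, inner_add_left]
    ring
  · intro c v w
    rw [smul_comm Complex.I c v]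
    simp only [map_smul, real_inner_smul_left]
    ring
  · intro v w
    rw [real_inner_comm, real_inner_comm (D (Complex.I • v))]
  · intro v w
    rw [I_I, I_I]
    simp only [map_neg, inner_neg_neg]
    ring

theorem Dp_eq {H : Type*} [NormedAddCommGroup H] [InnerProductSpace ℝ H] (χ : E → ℝ) (u : E → H)
    (z : E) : Dp χ u z =
      levB χ z e1 e1 * (inner ℝ (fderiv ℝ u z e2) (fderiv ℝ u z e2) +
        inner ℝ (fderiv ℝ u z (Complex.I • e2)) (fderiv ℝ u z (Complex.I • e2))) +
      levB χ z e2 e2 * (inner ℝ (fderiv ℝ u z e1) (fderiv ℝ u z e1) +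
        inner ℝ (fderiv ℝ u z (Complex.I • e1)) (fderiv ℝ u z (Complex.I • e1))) -
      2 * levB χ z e1 e2 * (inner ℝ (fderiv ℝ u z e1) (fderiv ℝ u z e2) +
        inner ℝ (fderiv ℝ u z (Complex.I • e1)) (fderiv ℝ u z (Complex.I • e2))) -
      2 * levB χ z e1 (Complex.I • e2) *
        (inner ℝ (fderiv ℝ u z e1) (fderiv ℝ u z (Complex.I • e2)) +
        inner ℝ (fderiv ℝ u z (Complex.I • e1))
          (fderiv ℝ u z (Complex.I • (Complex.I • e2)))) := by
  unfold Dp
  rw [I_I]
  simp only [map_neg, inner_neg_right, real_inner_self_eq_norm_sq]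
  ring

theorem det_eq (D : E →L[ℂ] E) :
    LinearMap.det (((D.restrictScalars ℝ : E →L[ℝ] E)) : E →ₗ[ℝ] E) =
      Complex.normSq ((D e1).1 * (D e2).2 - (D e2).1 * (D e1).2) := by
  have h1 : (((D.restrictScalars ℝ : E →L[ℝ] E)) : E →ₗ[ℝ] E) =
      ((D : E →ₗ[ℂ] E).restrictScalars ℝ) := rfl
  rw [h1, LinearMap.det_restrictScalars, Algebra.norm_complex_apply]
  congr 1
  rw [← LinearMap.det_toMatrix (Module.Basis.finTwoProd ℂ), Matrix.det_fin_two]
  simp only [LinearMap.toMatrix_apply, Module.Basis.finTwoProd_zero, Module.Basis.finTwoProd_one,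
    Module.Basis.coe_finTwoProd_repr]
  simp [e1, e2]

end Boch2

section
variable {H : Type*} [NormedAddCommGroup H] [InnerProductSpace ℝ H]

open Boch2 in
/-- transformation law (BOCH2) -/
theorem Dp_comp (τ : E → E) (z : E) {s : Set E} (hs : s ∈ 𝓝 z) (hτ : DifferentiableOn ℂ τ s)
    (χ : E → ℝ) (hχ : ContDiffAt ℝ 2 χ (τ z)) (u : E → H) (hu : ContDiffAt ℝ 2 u (τ z)) :
    Dp (χ ∘ τ) (u ∘ τ) z =
      |(LinearMap.det (((fderiv ℂ τ z).restrictScalars ℝ : E →L[ℝ] E) : E →ₗ[ℝ] E))| *
        Dp χ u (τ z) := by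
  have hτz : DifferentiableAt ℂ τ z := hτ.differentiableAt hs
  have hu1 : DifferentiableAt ℝ u (τ z) := hu.differentiableAt (by simp)
  have hd : ∀ v, fderiv ℝ (u ∘ τ) z v = fderiv ℝ u (τ z) (fderiv ℂ τ z v) := by
    intro v
    have h1 : HasFDerivAt τ ((fderiv ℂ τ z).restrictScalars ℝ) z :=
      hτz.hasFDerivAt.restrictScalars ℝ
    have h2 := (hu1.hasFDerivAt.comp z h1).fderiv
    rw [h2]
    rfl
  have hl : ∀ v w, levB (χ ∘ τ) z v w = levB χ (τ z) (fderiv ℂ τ z v) (fderiv ℂ τ z w) :=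
    levB_comp τ z hs hτ χ hχ
  rw [Dp_eq, Dp_eq, det_eq]
  simp only [hd, hl, map_smul]
  rw [abs_of_nonneg (Complex.normSq_nonneg _)]
  have key := disc (levB_HF hχ) (Q_HF (fderiv ℝ u (τ z))) (fderiv ℂ τ z e1).1
    (fderiv ℂ τ z e1).2 (fderiv ℂ τ z e2).1 (fderiv ℂ τ z e2).2
  simp only [Prod.mk.eta] at key
  linarith

end

end Sing
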