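import Pool.Agent.Work.MP_3893a0_gt.Defs
import Pool.Agent.Work.MP_0e9e72_an.SCVA

/-! Module GEO3, first part: the Levi form and the operator `Pc` under holomorphic maps. -/

open scoped ContDiff Topology BoundedContinuousFunction
open MeasureTheory Metric Set Filter

noncomputable section

namespace Sing

theorem two_le_inf : (2 : ℕ∞ω) ≤ ∞ := by
  have h : ((2 : ℕ∞) : ℕ∞ω) ≤ ((⊤ : ℕ∞) : ℕ∞ω) := WithTop.coe_le_coe.2 le_top
  exact h

section Levi

variable {V : Type*} [NormedAddCommGroup V] [NormedSpace ℝ V]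

theorem restr_fderiv {τ : E → E} {z : E} (h : DifferentiableAt ℂ τ z) :
    fderiv ℝ τ z = (fderiv ℂ τ z).restrictScalars ℝ :=
  (h.hasFDerivAt.restrictScalars ℝ).fderiv

/-- second real derivative of a holomorphic map -/
theorem fderiv2_holo {U : Set E} (hU : IsOpen U) {τ : E → E} (hτ : DifferentiableOn ℂ τ U)
    {z : E} (hz : z ∈ U) (v w : E) :
    fderiv ℝ (fderiv ℝ τ) z v w = fderiv ℂ (fun z' => fderiv ℂ τ z' w) z v := by
  have hc : ContDiffAt ℝ 2 τ z :=
    (SCV.contDiffAt_of_differentiableOn hU hτ hz (n := 2)).restrict_scalars ℝ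
  have h1 : DifferentiableAt ℝ (fderiv ℝ τ) z :=
    (hc.fderiv_right (m := 1) (by norm_num)).differentiableAt (by norm_num)
  have h2 : fderiv ℝ (fun z' => fderiv ℝ τ z' w) z v = fderiv ℝ (fderiv ℝ τ) z v w := by
    have := (h1.hasFDerivAt.clm_apply (hasFDerivAt_const w z)).fderiv
    rw [this]
    simp
  have h3 : (fun z' => fderiv ℝ τ z' w) =ᶠ[𝓝 z] fun z' => fderiv ℂ τ z' w := by
    filter_upwards [hU.mem_nhds hz] with z' hz'
    rw [restr_fderiv (hτ.differentiableAt (hU.mem_nhds hz'))]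
    rfl
  rw [← h2, h3.fderiv_eq]
  have h4 : DifferentiableAt ℂ (fun z' => fderiv ℂ τ z' w) z :=
    (SCV.differentiableOn_fderiv_apply hU hτ w).differentiableAt (hU.mem_nhds hz)
  rw [(h4.hasFDerivAt.restrictScalars ℝ).fderiv]
  rfl

/-- second derivative of a composition -/
theorem fderiv2_comp {U : Set E} (hU : IsOpen U) {τ : E → E} (hτ : DifferentiableOn ℂ τ U)
    {z : E} (hz : z ∈ U) (f : E → V) (hf : ContDiffAt ℝ 2 f (τ z)) (v w : E) :
    fderiv ℝ (fderiv ℝ (f ∘ τ)) z v w =
      fderiv ℝ (fderiv ℝ f) (τ z) (fderiv ℂ τ z v) (fderiv ℂ τ z w) +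
        fderiv ℝ f (τ z) (fderiv ℝ (fderiv ℝ τ) z v w) := by
  have hc : ContDiffAt ℝ 2 τ z :=
    (SCV.contDiffAt_of_differentiableOn hU hτ hz (n := 2)).restrict_scalars ℝ
  have hfc : ContDiffAt ℝ 2 (f ∘ τ) z := hf.comp z hc
  have h1 : DifferentiableAt ℝ (fderiv ℝ (f ∘ τ)) z :=
    (hfc.fderiv_right (m := 1) (by norm_num)).differentiableAt (by norm_num)
  have h2 : fderiv ℝ (fun z' => fderiv ℝ (f ∘ τ) z' w) z v =
      fderiv ℝ (fderiv ℝ (f ∘ τ)) z v w := by
    have := (h1.hasFDerivAt.clm_apply (hasFDerivAt_const w z)).fderiv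
    rw [this]
    simp
  have hfe : ∀ᶠ y in 𝓝 (τ z), DifferentiableAt ℝ f y := by
    have := hf.eventually (by norm_num)
    filter_upwards [this] with y hy
    exact hy.differentiableAt (by norm_num)
  have h3 : (fun z' => fderiv ℝ (f ∘ τ) z' w) =ᶠ[𝓝 z]
      fun z' => fderiv ℝ f (τ z') (fderiv ℝ τ z' w) := by
    filter_upwards [hU.mem_nhds hz, hc.continuousAt.eventually hfe] with z' hz' hz2
    have hd : DifferentiableAt ℝ τ z' :=
      (hτ.differentiableAt (hU.mem_nhds hz')).restrictScalars ℝ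
    rw [fderiv_comp z' hz2 hd]
    rfl
  rw [← h2, h3.fderiv_eq]
  have hτ1 : DifferentiableAt ℝ (fderiv ℝ τ) z :=
    (hc.fderiv_right (m := 1) (by norm_num)).differentiableAt (by norm_num)
  have hf1 : DifferentiableAt ℝ (fderiv ℝ f) (τ z) :=
    (hf.fderiv_right (m := 1) (by norm_num)).differentiableAt (by norm_num)
  have hτ0 : DifferentiableAt ℝ τ z := (hτ.differentiableAt (hU.mem_nhds hz)).restrictScalars ℝ
  have h4 : HasFDerivAt (fun z' => fderiv ℝ f (τ z'))
      ((fderiv ℝ (fderiv ℝ f) (τ z)).comp (fderiv ℝ τ z)) z :=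
    hf1.hasFDerivAt.comp z hτ0.hasFDerivAt
  have h5 : HasFDerivAt (fun z' => fderiv ℝ τ z' w) ((fderiv ℝ (fderiv ℝ τ) z).flip w) z := by
    have := hτ1.hasFDerivAt.clm_apply (hasFDerivAt_const w z)
    simpa using this
  rw [(h4.clm_apply h5).fderiv]
  have h6 : fderiv ℝ τ z = (fderiv ℂ τ z).restrictScalars ℝ :=
    restr_fderiv (hτ.differentiableAt (hU.mem_nhds hz))
  simp [h6, add_comm]

/-- chain rule for the Levi form, bilinear version -/
theorem levB_comp (τ : E → E)
    (z : E) {s : Set E} (hs : s ∈ 𝓝 z) (hτ : DifferentiableOn ℂ τ s)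
    (f : E → V) (hf : ContDiffAt ℝ 2 f (τ z)) (v w : E) :
    levB (f ∘ τ) z v w = levB f (τ z) (fderiv ℂ τ z v) (fderiv ℂ τ z w) := by
  have hU : IsOpen (interior s) := isOpen_interior
  have hz : z ∈ interior s := mem_interior_iff_mem_nhds.2 hs
  have hτ' : DifferentiableOn ℂ τ (interior s) := hτ.mono interior_subset
  unfold levB
  rw [fderiv2_comp hU hτ' hz f hf, fderiv2_comp hU hτ' hz f hf,
    fderiv2_holo hU hτ' hz, fderiv2_holo hU hτ' hz]
  have h1 : (fun z' => fderiv ℂ τ z' (Complex.I • w)) =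
      fun z' => Complex.I • fderiv ℂ τ z' w := by
    funext z'; rw [map_smul]
  have hd : DifferentiableAt ℂ (fun z' => fderiv ℂ τ z' w) z :=
    (SCV.differentiableOn_fderiv_apply hU hτ' w).differentiableAt (hU.mem_nhds hz)
  have h3 : fderiv ℂ (fun z' => Complex.I • fderiv ℂ τ z' w) z =
      Complex.I • fderiv ℂ (fun z' => fderiv ℂ τ z' w) z :=
    HasFDerivAt.fderiv (hd.hasFDerivAt.const_smul Complex.I)
  rw [h1, h3, map_smul (fderiv ℂ τ z), map_smul (fderiv ℂ τ z)]
  have h2 : (Complex.I • fderiv ℂ (fun z' => fderiv ℂ τ z' w) z) (Complex.I • v) =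
      -(fderiv ℂ (fun z' => fderiv ℂ τ z' w) z v) := by
    rw [smul_apply, map_smul, smul_smul, Complex.I_mul_I, neg_one_smul]
  rw [h2, map_neg]
  abel

/-! ### algebra of the Levi form -/

theorem levB_add_left (f : E → V) (z v v' w : E) :
    levB f z (v + v') w = levB f z v w + levB f z v' w := by
  unfold levB
  rw [smul_add, map_add, map_add, add_apply, add_apply]
  abel

theorem levB_add_right (f : E → V) (z v w w' : E) :
    levB f z v (w + w') = levB f z v w + levB f z v w' := by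
  unfold levB
  rw [smul_add, map_add, map_add]
  abel

theorem levB_smul_left (f : E → V) (z : E) (r : ℝ) (v w : E) :
    levB f z (r • v) w = r • levB f z v w := by
  unfold levB
  rw [smul_comm Complex.I r v, (fderiv ℝ (fderiv ℝ f) z).map_smul r v,
    (fderiv ℝ (fderiv ℝ f) z).map_smul r (Complex.I • v), smul_apply, smul_apply, smul_add]

theorem levB_smul_right (f : E → V) (z : E) (r : ℝ) (v w : E) :
    levB f z v (r • w) = r • levB f z v w := by
  unfold levB
  rw [smul_comm Complex.I r w, map_smul, map_smul, smul_add]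

theorem levB_I_I (f : E → V) (z v w : E) :
    levB f z (Complex.I • v) (Complex.I • w) = levB f z v w := by
  unfold levB
  rw [smul_smul, smul_smul, Complex.I_mul_I, neg_one_smul, neg_one_smul, map_neg, map_neg,
    neg_apply, neg_neg, add_comm]

theorem levB_symm {f : E → V} {z : E} (hf : ContDiffAt ℝ 2 f z) (v w : E) :
    levB f z v w = levB f z w v := by
  have h := (hf.isSymmSndFDerivAt (by simp))
  unfold levB
  rw [h.eq v w, h.eq (Complex.I • v) (Complex.I • w)]

theorem levB_I_left (f : E → V) (z v w : E) :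
    levB f z (Complex.I • v) w = -levB f z v (Complex.I • w) := by
  have h := levB_I_I f z v (Complex.I • w)
  rw [smul_smul, Complex.I_mul_I, neg_one_smul] at h
  have h2 : levB f z (Complex.I • v) (-w) = -levB f z (Complex.I • v) w := by
    have := levB_smul_right f z (-1) (Complex.I • v) w
    simpa using this
  rw [h2] at h
  rw [← h, neg_neg]

theorem levB_I_self {f : E → V} {z : E} (hf : ContDiffAt ℝ 2 f z) (v : E) :
    levB f z v (Complex.I • v) = 0 := by
  have h := levB_I_left f z v v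
  rw [levB_symm hf] at h
  have h2 : (2 : ℝ) • levB f z v (Complex.I • v) = 0 := by
    rw [two_smul]; nth_rewrite 1 [h]; simp
  exact (smul_eq_zero.1 h2).resolve_left (by norm_num)

theorem decomp (v : E) : v = v.1.re • e1 + v.1.im • (Complex.I • e1) +
    (v.2.re • e2 + v.2.im • (Complex.I • e2)) := by
  unfold e1 e2
  ext <;> simp

/-- expansion of the Levi form in the basis -/
theorem levB_expand {f : E → V} {z : E} (hf : ContDiffAt ℝ 2 f z) (v w : E) :
    levB f z v w = (v.1.re * w.1.re + v.1.im * w.1.im) • levB f z e1 e1 +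
      (v.2.re * w.2.re + v.2.im * w.2.im) • levB f z e2 e2 +
      (v.1.re * w.2.re + v.1.im * w.2.im + v.2.re * w.1.re + v.2.im * w.1.im) •
        levB f z e1 e2 +
      (v.1.re * w.2.im - v.1.im * w.2.re + w.1.re * v.2.im - w.1.im * v.2.re) •
        levB f z e1 (Complex.I • e2) := by
  have h11 : levB f z e1 (Complex.I • e1) = 0 := levB_I_self hf e1
  have h22 : levB f z e2 (Complex.I • e2) = 0 := levB_I_self hf e2
  have h21 : levB f z e2 e1 = levB f z e1 e2 := levB_symm hf _ _
  have h21' : levB f z e2 (Complex.I • e1) = -levB f z e1 (Complex.I • e2) := by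
    rw [levB_symm hf, levB_I_left]
  have g11 : levB f z (Complex.I • e1) e1 = 0 := by rw [levB_symm hf]; exact h11
  have g22 : levB f z (Complex.I • e2) e2 = 0 := by rw [levB_symm hf]; exact h22
  have g21 : levB f z (Complex.I • e2) e1 = levB f z e1 (Complex.I • e2) := levB_symm hf _ _
  have g12 : levB f z (Complex.I • e1) e2 = -levB f z e1 (Complex.I • e2) := levB_I_left _ _ _ _
  conv_lhs => rw [decomp v, decomp w]
  simp only [levB_add_left, levB_add_right, levB_smul_left, levB_smul_right, levB_I_I,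
    h11, h22, h21, h21', g11, g22, g12, g21]
  module

end Levi

/-- chain rule for the Levi form: `P` is invariant -/
theorem Pc_comp {V : Type*} [NormedAddCommGroup V] [NormedSpace ℝ V] (A B : LocCoef) (τ : E → E)
    (z : E) {s : Set E} (hs : s ∈ 𝓝 z) (hτ : DifferentiableOn ℂ τ s) (hrel : CoefRel A B τ z)
    (f : E → V) (hf : ContDiffAt ℝ 2 f (τ z)) :
    Pc A (f ∘ τ) z = Pc B f (τ z) := by
  obtain ⟨h1, h2, h3⟩ := hrel
  unfold Pc
  rw [levB_comp τ z hs hτ f hf, levB_comp τ z hs hτ f hf, levB_comp τ z hs hτ f hf,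
    levB_comp τ z hs hτ f hf, map_smul, h1, h2, h3]
  set v := fderiv ℂ τ z e1 with hv
  set w := fderiv ℂ τ z e2 with hw
  rw [levB_expand hf v v, levB_expand hf w w, levB_expand hf v w,
    levB_expand hf v (Complex.I • w)]
  have hn : ∀ c : ℂ, ‖c‖ ^ 2 = c.re * c.re + c.im * c.im := fun c => by
    rw [← Complex.normSq_eq_norm_sq, Complex.normSq_apply]
  simp only [hn, Prod.smul_fst, Prod.smul_snd, smul_eq_mul, Complex.mul_re, Complex.mul_im,
    Complex.I_re, Complex.I_im, Complex.conj_re, Complex.conj_im, Complex.add_re, Complex.add_im,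
    Complex.ofReal_re, Complex.ofReal_im]
  module


/-! ### linearity and locality of `P` -/

section lin

variable {V : Type*} [NormedAddCommGroup V] [NormedSpace ℝ V]

theorem levB_congr {f g : E → V} {z : E} (h : f =ᶠ[𝓝 z] g) (v w : E) :
    levB f z v w = levB g z v w := by
  unfold levB
  rw [h.fderiv.fderiv_eq]

theorem Pc_congr (A : LocCoef) {f g : E → V} {z : E} (h : f =ᶠ[𝓝 z] g) :
    Pc A f z = Pc A g z := by
  unfold Pc
  rw [levB_congr h, levB_congr h, levB_congr h, levB_congr h]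

theorem fderiv_fderiv_add {f g : E → V} {z : E} (hf : ContDiffAt ℝ 2 f z)
    (hg : ContDiffAt ℝ 2 g z) :
    fderiv ℝ (fderiv ℝ (fun z' => f z' + g z')) z =
      fderiv ℝ (fderiv ℝ f) z + fderiv ℝ (fderiv ℝ g) z := by
  have h1 : fderiv ℝ (fun z' => f z' + g z') =ᶠ[𝓝 z] fun z' => fderiv ℝ f z' + fderiv ℝ g z' := by
    filter_upwards [hf.eventually (by norm_num), hg.eventually (by norm_num)] with z' h1 h2
    exact (((h1.differentiableAt (by norm_num)).hasFDerivAt).add
      ((h2.differentiableAt (by norm_num)).hasFDerivAt)).fderiv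
  rw [h1.fderiv_eq]
  exact (((hf.fderiv_right (m := 1) (by norm_num)).differentiableAt (by norm_num)).hasFDerivAt.add
    ((hg.fderiv_right (m := 1) (by norm_num)).differentiableAt (by norm_num)).hasFDerivAt).fderiv

theorem levB_add {f g : E → V} {z : E} (hf : ContDiffAt ℝ 2 f z) (hg : ContDiffAt ℝ 2 g z)
    (v w : E) : levB (fun z' => f z' + g z') z v w = levB f z v w + levB g z v w := by
  unfold levB
  rw [fderiv_fderiv_add hf hg]
  simp only [add_apply]
  abel

theorem Pc_add (A : LocCoef) {f g : E → V} {z : E} (hf : ContDiffAt ℝ 2 f z)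
    (hg : ContDiffAt ℝ 2 g z) : Pc A (fun z' => f z' + g z') z = Pc A f z + Pc A g z := by
  unfold Pc
  rw [levB_add hf hg, levB_add hf hg, levB_add hf hg, levB_add hf hg]
  module

theorem levB_zero (z v w : E) : levB (fun _ : E => (0 : V)) z v w = 0 := by
  unfold levB
  have h : fderiv ℝ (fun _ : E => (0 : V)) = fun _ => 0 := by
    funext z'; exact (hasFDerivAt_const (0 : V) z').fderiv
  rw [h, (hasFDerivAt_const (0 : E →L[ℝ] V) z).fderiv]
  simp

theorem Pc_zero (A : LocCoef) (z : E) : Pc A (fun _ : E => (0 : V)) z = 0 := by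
  unfold Pc
  simp [levB_zero]

theorem Pc_finset_sum {ι : Type*} (A : LocCoef) (s : Finset ι) {f : ι → E → V} {z : E}
    (hf : ∀ a ∈ s, ContDiffAt ℝ 2 (f a) z) :
    Pc A (fun z' => ∑ a ∈ s, f a z') z = ∑ a ∈ s, Pc A (f a) z := by
  classical
  induction s using Finset.induction_on with
  | empty => simpa using Pc_zero A z
  | insert a s ha ih =>
    have h1 : (fun z' => ∑ i ∈ insert a s, f i z') = fun z' => f a z' + ∑ i ∈ s, f i z' := by
      funext z'; rw [Finset.sum_insert ha]
    rw [h1, Finset.sum_insert ha, Pc_add A (hf a (Finset.mem_insert_self a s))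
      (ContDiffAt.sum fun i hi => hf i (Finset.mem_insert_of_mem hi)),
      ih fun i hi => hf i (Finset.mem_insert_of_mem hi)]

theorem Pc_supp (A : LocCoef) {F : E → V} (hF : ∀ z, 3 < ‖z‖ → F z = 0) :
    ∀ z, 3 < ‖z‖ → Pc A F z = 0 := by
  intro z hz
  have h : F =ᶠ[𝓝 z] fun _ => 0 := by
    have : {z : E | 3 < ‖z‖} ∈ 𝓝 z := (isOpen_lt continuous_const continuous_norm).mem_nhds hz
    filter_upwards [this] with z' hz'
    exact hF z' hz'
  rw [Pc_congr A h, Pc_zero]

end lin

end Sing
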