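import Pool.Agent.Work.MP_3893a0_gt.Geo1
import Pool.Agent.Work.MP_3893a0_gt.Geo2
import Pool.Agent.Work.MP_3893a0_gt.Geo3a
import Pool.Agent.Work.MP_3893a0_gt.Geo3b
import Pool.Agent.Work.MP_3893a0_gt.Boch1
import Pool.Agent.Work.MP_3893a0_gt.Boch2

/-! MP_3893a0_gt, BOCH3: `∑ᵢ ∫ χᵢ MAdet uᵢ = 0` for an equivariant smooth map. -/

open scoped ContDiff Topology BoundedContinuousFunction
open MeasureTheory Metric Set Filter

noncomputable section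

namespace Sing

namespace B3

instance instHaar : (volume : Measure E).IsAddHaarMeasure := by
  rw [Measure.volume_eq_prod]
  infer_instance

section loc

variable {V : Type*} [NormedAddCommGroup V] [NormedSpace ℝ V]

theorem contOn_levB {f : E → V} (hf : ContDiffOn ℝ ∞ f (ball 0 4)) (v w : E) :
    ContinuousOn (fun z => levB f z v w) (ball 0 4) := by
  have h1 : ContDiffOn ℝ 1 (fderiv ℝ f) (ball 0 4) :=
    (hf.of_le two_le_inf).fderiv_of_isOpen isOpen_ball (by norm_num)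
  have h2 : ContDiffOn ℝ 0 (fderiv ℝ (fderiv ℝ f)) (ball 0 4) :=
    h1.fderiv_of_isOpen isOpen_ball (by norm_num)
  have h3 : ContinuousOn (fderiv ℝ (fderiv ℝ f)) (ball 0 4) := h2.continuousOn
  unfold levB
  exact ((h3.clm_apply continuousOn_const).clm_apply continuousOn_const).add
    ((h3.clm_apply continuousOn_const).clm_apply continuousOn_const)

theorem contOn_fderiv {f : E → V} (hf : ContDiffOn ℝ ∞ f (ball 0 4)) (v : E) :
    ContinuousOn (fun z => fderiv ℝ f z v) (ball 0 4) := by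
  have h1 : ContDiffOn ℝ 1 (fderiv ℝ f) (ball 0 4) :=
    (hf.of_le two_le_inf).fderiv_of_isOpen isOpen_ball (by norm_num)
  exact h1.continuousOn.clm_apply continuousOn_const

theorem levB_sum {ι : Type*} (s : Finset ι) {f : ι → E → V} {z : E}
    (hf : ∀ a ∈ s, ContDiffAt ℝ 2 (f a) z) (v w : E) :
    levB (fun z' => ∑ a ∈ s, f a z') z v w = ∑ a ∈ s, levB (f a) z v w := by
  classical
  induction s using Finset.induction_on with
  | empty => simpa using levB_zero z v w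
  | insert a s ha ih =>
    simp only [Finset.sum_insert ha]
    rw [levB_add (hf a (Finset.mem_insert_self a s))
      (ContDiffAt.sum fun c hc => hf c (Finset.mem_insert_of_mem hc)),
      ih fun c hc => hf c (Finset.mem_insert_of_mem hc)]

theorem levB_one (z v w : E) : levB (fun _ : E => (1 : ℝ)) z v w = 0 := by
  unfold levB
  have h : fderiv ℝ (fun _ : E => (1 : ℝ)) = fun _ => 0 := by
    funext z'; exact (hasFDerivAt_const (1 : ℝ) z').fderiv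
  rw [h, (hasFDerivAt_const (0 : E →L[ℝ] ℝ) z).fderiv]
  simp

end loc

section DP

variable {H : Type*} [NormedAddCommGroup H] [InnerProductSpace ℝ H]

theorem Dp_congr {χ χ' : E → ℝ} {u u' : E → H} {z : E} (h : χ =ᶠ[𝓝 z] χ') (h' : u =ᶠ[𝓝 z] u') :
    Dp χ u z = Dp χ' u' z := by
  unfold Dp
  rw [levB_congr h, levB_congr h, levB_congr h, levB_congr h, h'.fderiv_eq]

theorem Dp_zero_of {χ : E → ℝ} (u : E → H) {z : E} (h : χ =ᶠ[𝓝 z] fun _ => 0) :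
    Dp χ u z = 0 := by
  rw [Dp_congr h (EventuallyEq.refl _ u)]
  unfold Dp
  simp [levB_zero]

theorem Dp_one_of {χ : E → ℝ} (u : E → H) {z : E} (h : χ =ᶠ[𝓝 z] fun _ => 1) :
    Dp χ u z = 0 := by
  rw [Dp_congr h (EventuallyEq.refl _ u)]
  unfold Dp
  simp [levB_one]

theorem Dp_sum {ι : Type*} (s : Finset ι) {f : ι → E → ℝ} (u : E → H) {z : E}
    (hf : ∀ a ∈ s, ContDiffAt ℝ 2 (f a) z) :
    Dp (fun z' => ∑ a ∈ s, f a z') u z = ∑ a ∈ s, Dp (f a) u z := by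
  unfold Dp
  rw [levB_sum s hf, levB_sum s hf, levB_sum s hf, levB_sum s hf, Finset.sum_sub_distrib,
    Finset.sum_sub_distrib, Finset.sum_add_distrib, Finset.mul_sum, Finset.mul_sum,
    Finset.sum_mul, Finset.sum_mul, Finset.sum_mul, Finset.sum_mul]

theorem Dp_affine (χ : E → ℝ) {u u' : E → H} (L : H ≃ₗᵢ[ℝ] H) (c : H) {z : E}
    (hu : DifferentiableAt ℝ u z) (h : ∀ w, u' w = L (u w) + c) : Dp χ u' z = Dp χ u z := by
  have e : u' = fun w => L (u w) + c := funext h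
  have h1 : HasFDerivAt u' ((L.toContinuousLinearEquiv : H →L[ℝ] H).comp (fderiv ℝ u z)) z := by
    rw [e]
    exact (((L.toContinuousLinearEquiv : H →L[ℝ] H).hasFDerivAt (x := u z)).comp z
      hu.hasFDerivAt).add_const c
  have h2 : ∀ v, fderiv ℝ u' z v = L (fderiv ℝ u z v) := by
    intro v
    rw [h1.fderiv]
    rfl
  unfold Dp
  simp only [h2, LinearIsometryEquiv.norm_map, LinearIsometryEquiv.inner_map_map]

theorem contOn_Dp {χ : E → ℝ} {u : E → H} (hχ : ContDiffOn ℝ ∞ χ (ball 0 4))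
    (hu : ContDiffOn ℝ ∞ u (ball 0 4)) : ContinuousOn (Dp χ u) (ball 0 4) := by
  have h1 := fun v w : E => contOn_levB hχ v w
  have h2 := fun v : E => contOn_fderiv hu v
  unfold Dp
  exact ((((h1 _ _).mul (((h2 _).norm.pow 2).add ((h2 _).norm.pow 2))).add
    ((h1 _ _).mul (((h2 _).norm.pow 2).add ((h2 _).norm.pow 2)))).sub
    ((continuousOn_const.mul (h1 _ _)).mul (((h2 _).inner (𝕜 := ℝ) (h2 _)).add
      ((h2 _).inner (𝕜 := ℝ) (h2 _))))).sub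
    ((continuousOn_const.mul (h1 _ _)).mul (((h2 _).inner (𝕜 := ℝ) (h2 _)).sub
      ((h2 _).inner (𝕜 := ℝ) (h2 _))))

end DP

theorem integrable_of {f : E → ℝ} (hc : ContinuousOn f (ball 0 4))
    (h0 : ∀ z, 2 < ‖z‖ → f z = 0) : Integrable f := by
  have h1 : IntegrableOn f (closedBall 0 3) :=
    (hc.mono (closedBall_subset_ball (by norm_num))).integrableOn_compact (isCompact_closedBall 0 3)
  refine h1.integrable_of_forall_notMem_eq_zero fun z hz => h0 z ?_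
  rw [mem_closedBall_zero_iff, not_le] at hz
  linarith

section glob

variable {G Y : Type*} [Group G] [TopologicalSpace Y] [MulAction G Y] (𝒜 : Atl G Y)
  [ContinuousConstSMul G Y] [T2Space Y] (P : 𝒜.Pou)
variable {H : Type*} [NormedAddCommGroup H] [InnerProductSpace ℝ H]

/-- `χ_a` as a function on `Y` -/
def X (a : 𝒜.Idx) : Y → ℝ := 𝒜.ext a (P.χ a.2)

theorem chi_zero (i : Fin 𝒜.n) (z : E) (hz : 2 < ‖z‖) : P.χ i z = 0 := by
  by_contra h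
  exact absurd (P.supp i z h) (not_le.2 hz)

theorem chi_zero3 (i : Fin 𝒜.n) (z : E) (hz : 3 < ‖z‖) : P.χ i z = 0 :=
  chi_zero 𝒜 P i z (by linarith)

theorem X_sm (a : 𝒜.Idx) : 𝒜.Sm (X 𝒜 P a) :=
  𝒜.sm_ext (chi_zero3 𝒜 P a.2) (P.smooth a.2).contDiffOn

theorem X_sym (a : 𝒜.Idx) {z : E} (hz : ‖z‖ < 4) : X 𝒜 P a (𝒜.sym a z) = P.χ a.2 z :=
  𝒜.ext_sym a _ hz

/-- pairing of `χ_b` with `Dp χ_a` in the chart `a` -/
def II (u : Y → H) (a b : 𝒜.Idx) : ℝ :=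
  ∫ z, X 𝒜 P b (𝒜.sym a z) * Dp (P.χ a.2) (u ∘ 𝒜.sym a) z

/-- pairing of `χ_b` with `Dp χ_a` in the chart `b` -/
def JJ (u : Y → H) (b a : 𝒜.Idx) : ℝ :=
  ∫ w, P.χ b.2 w * Dp (X 𝒜 P a ∘ 𝒜.sym b) (u ∘ 𝒜.sym b) w

def OO (a b : 𝒜.Idx) : Set E := {z ∈ ball (0 : E) 4 | 𝒜.sym a z ∈ 𝒜.src b}

theorem mapsTo_trans (a b : 𝒜.Idx) {z : E} (hz : z ∈ OO 𝒜 a b) :
    𝒜.crd b (𝒜.sym a z) ∈ OO 𝒜 b a ∧ 𝒜.crd a (𝒜.sym b (𝒜.crd b (𝒜.sym a z))) = z := by
  have h4 : ‖z‖ < 4 := mem_ball_zero_iff.1 hz.1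
  refine ⟨⟨mem_ball_zero_iff.2 (𝒜.norm_crd_lt b hz.2), ?_⟩, ?_⟩
  · rw [𝒜.sym_crd b hz.2]
    exact 𝒜.sym_mem_src a h4
  · rw [𝒜.sym_crd b hz.2, 𝒜.crd_sym a h4]

theorem image_trans (a b : 𝒜.Idx) : (fun z => 𝒜.crd b (𝒜.sym a z)) '' OO 𝒜 a b = OO 𝒜 b a := by
  ext w
  constructor
  · rintro ⟨z, hz, rfl⟩
    exact (mapsTo_trans 𝒜 a b hz).1
  · intro hw
    have h := mapsTo_trans 𝒜 b a hw
    exact ⟨𝒜.crd a (𝒜.sym b w), h.1, h.2⟩

theorem II_eq_JJ {u : Y → H} (hu : 𝒜.Sm u) (a b : 𝒜.Idx) : II 𝒜 P u a b = JJ 𝒜 P u b a := by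
  have ho : IsOpen (OO 𝒜 a b) := 𝒜.isOpen_trans b a
  have ho' : IsOpen (OO 𝒜 b a) := 𝒜.isOpen_trans a b
  have hol : DifferentiableOn ℂ (fun z => 𝒜.crd b (𝒜.sym a z)) (OO 𝒜 a b) := 𝒜.trans_holo b a
  -- both integrals are over the overlap
  have h1 : II 𝒜 P u a b = ∫ z in OO 𝒜 a b,
      X 𝒜 P b (𝒜.sym a z) * Dp (P.χ a.2) (u ∘ 𝒜.sym a) z := by
    symm
    refine setIntegral_eq_integral_of_forall_compl_eq_zero fun z hz => ?_
    by_cases h4 : ‖z‖ < 4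
    · have : 𝒜.sym a z ∉ 𝒜.src b := fun h => hz ⟨mem_ball_zero_iff.2 h4, h⟩
      rw [X, Atl.ext, if_neg this, zero_mul]
    · rw [Dp_zero_of, mul_zero]
      have : {z : E | 3 < ‖z‖} ∈ 𝓝 z :=
        (isOpen_lt continuous_const continuous_norm).mem_nhds (by
          show 3 < ‖z‖
          linarith [not_lt.1 h4])
      filter_upwards [this] with z' hz'
      exact chi_zero3 𝒜 P a.2 z' hz'
  have h2 : JJ 𝒜 P u b a = ∫ w in OO 𝒜 b a,
      P.χ b.2 w * Dp (X 𝒜 P a ∘ 𝒜.sym b) (u ∘ 𝒜.sym b) w := by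
    symm
    refine setIntegral_eq_integral_of_forall_compl_eq_zero fun w hw => ?_
    by_cases h4 : ‖w‖ < 4
    · have hs : 𝒜.sym b w ∉ 𝒜.src a := fun h => hw ⟨mem_ball_zero_iff.2 h4, h⟩
      rw [Dp_zero_of, mul_zero]
      have hcs : ContinuousAt (𝒜.sym b) w :=
        (𝒜.continuousOn_sym b).continuousAt (isOpen_ball.mem_nhds (mem_ball_zero_iff.2 h4))
      exact hcs.eventually (𝒜.ext_eventuallyEq_zero (chi_zero3 𝒜 P a.2) (fun h' => hs h'.1))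
    · rw [chi_zero3 𝒜 P b.2 w (by linarith [not_lt.1 h4]), zero_mul]
  rw [h1, h2, ← image_trans 𝒜 a b]
  have hder : ∀ z ∈ OO 𝒜 a b, HasFDerivWithinAt (fun z => 𝒜.crd b (𝒜.sym a z))
      ((fderiv ℂ (fun z => 𝒜.crd b (𝒜.sym a z)) z).restrictScalars ℝ) (OO 𝒜 a b) z := by
    intro z hz
    exact ((hol.differentiableAt (ho.mem_nhds hz)).hasFDerivAt.restrictScalars
      ℝ).hasFDerivWithinAt
  have hinj : InjOn (fun z => 𝒜.crd b (𝒜.sym a z)) (OO 𝒜 a b) := by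
    intro z hz z' hz' h
    have h1 := (mapsTo_trans 𝒜 a b hz).2
    have h2 := (mapsTo_trans 𝒜 a b hz').2
    simp only at h
    rw [← h1, ← h2, h]
  rw [integral_image_eq_integral_abs_det_fderiv_smul volume ho.measurableSet hder hinj]
  refine setIntegral_congr_fun ho.measurableSet fun z hz => ?_
  have h4 : ‖z‖ < 4 := mem_ball_zero_iff.1 hz.1
  have hτ := mapsTo_trans 𝒜 a b hz
  have hτ4 : 𝒜.crd b (𝒜.sym a z) ∈ ball (0 : E) 4 := hτ.1.1
  have hev : ∀ᶠ z' in 𝓝 z, z' ∈ OO 𝒜 a b := ho.mem_nhds hz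
  have hD := Dp_comp (fun z => 𝒜.crd b (𝒜.sym a z)) z (ho.mem_nhds hz) hol
    (X 𝒜 P a ∘ 𝒜.sym b)
    (((X_sm 𝒜 P a b).contDiffAt (isOpen_ball.mem_nhds hτ4)).of_le two_le_inf)
    (u ∘ 𝒜.sym b) (((hu b).contDiffAt (isOpen_ball.mem_nhds hτ4)).of_le two_le_inf)
  have hc : Dp ((X 𝒜 P a ∘ 𝒜.sym b) ∘ fun z => 𝒜.crd b (𝒜.sym a z))
      ((u ∘ 𝒜.sym b) ∘ fun z => 𝒜.crd b (𝒜.sym a z)) z = Dp (P.χ a.2) (u ∘ 𝒜.sym a) z := by
    apply Dp_congr
    · filter_upwards [hev] with z' hz'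
      simp only [Function.comp_apply]
      rw [𝒜.sym_crd b hz'.2, X_sym 𝒜 P a (mem_ball_zero_iff.1 hz'.1)]
    · filter_upwards [hev] with z' hz'
      simp only [Function.comp_apply]
      rw [𝒜.sym_crd b hz'.2]
  rw [hc] at hD
  have hX : X 𝒜 P b (𝒜.sym a z) = P.χ b.2 (𝒜.crd b (𝒜.sym a z)) := by
    rw [X, Atl.ext, if_pos hz.2]
  simp only [smul_eq_mul]
  rw [hX, hD]
  have hdet : ((fderiv ℂ (fun z => 𝒜.crd b (𝒜.sym a z)) z).restrictScalars ℝ).det =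
      LinearMap.det (((fderiv ℂ (fun z => 𝒜.crd b (𝒜.sym a z)) z).restrictScalars ℝ :
        E →L[ℝ] E) : E →ₗ[ℝ] E) := rfl
  rw [hdet]
  ring

theorem JJ_inv (ρ : G →* (H ≃ₗᵢ[ℝ] H)) (b : G → H) {u : Y → H} (hu : 𝒜.Sm u)
    (hb : ∀ g y, u (g • y) = ρ g (u y) + b g) (γ : G) (c a : 𝒜.Idx) :
    JJ 𝒜 P u (γ * c.1, c.2) (γ * a.1, a.2) = JJ 𝒜 P u c a := by
  unfold JJ
  refine integral_congr_ae (Eventually.of_forall fun w => ?_)
  simp only
  by_cases h4 : ‖w‖ < 4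
  · congr 1
    have e1 : X 𝒜 P (γ * a.1, a.2) ∘ 𝒜.sym (γ * c.1, c.2) = X 𝒜 P a ∘ 𝒜.sym c := by
      funext w'
      simp only [Function.comp_apply, 𝒜.sym_smul]
      exact 𝒜.ext_smul γ a _ _
    rw [e1]
    refine Dp_affine _ (ρ γ) (b γ) ?_ fun w' => ?_
    · exact ((hu c).contDiffAt (isOpen_ball.mem_nhds (mem_ball_zero_iff.2 h4))).differentiableAt
        (by simp)
    · simp only [Function.comp_apply, 𝒜.sym_smul, hb]
  · rw [chi_zero3 𝒜 P c.2 w (by linarith [not_lt.1 h4]), zero_mul, zero_mul]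

/-- the finite set of group elements which matter -/
theorem exists_fin : ∃ Γ : Finset G, (∀ γ ∈ Γ, γ⁻¹ ∈ Γ) ∧
    ∀ (i : Fin 𝒜.n) (a : 𝒜.Idx) (z : E), ‖z‖ ≤ 3 → 𝒜.sym (1, i) z ∈ 𝒜.cell a → a.1 ∈ Γ := by
  classical
  let F : Fin 𝒜.n → Fin 𝒜.n → Finset G := fun i j => (𝒜.proper i j).toFinset
  let Γ₀ : Finset G := Finset.univ.biUnion fun i => Finset.univ.biUnion fun j => F i j
  refine ⟨Γ₀ ∪ Γ₀.image (·⁻¹), ?_, ?_⟩
  · intro γ hγ
    rw [Finset.mem_union, Finset.mem_image] at *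
    rcases hγ with h | ⟨δ, h, rfl⟩
    · exact Or.inr ⟨γ, h, rfl⟩
    · left
      rwa [inv_inv]
  · intro i a z hz ha
    refine Finset.mem_union_left _ ?_
    rw [𝒜.cell_eq] at ha
    obtain ⟨w, hw, hwz⟩ := ha
    simp only [Γ₀, Finset.mem_biUnion, Finset.mem_univ, true_and]
    refine ⟨i, a.2, ?_⟩
    simp only [F, Set.Finite.mem_toFinset, mem_ofPred_eq]
    refine ⟨z, by simpa using hz, w, hw, ?_⟩
    have : a.1 • (𝒜.φ a.2).symm w = (1 : G) • (𝒜.φ i).symm z := hwz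
    rw [this, one_smul]

theorem sum_one {Γ : Finset G}
    (hΓ : ∀ (i : Fin 𝒜.n) (a : 𝒜.Idx) (z : E), ‖z‖ ≤ 3 → 𝒜.sym (1, i) z ∈ 𝒜.cell a → a.1 ∈ Γ)
    (i : Fin 𝒜.n) {z : E} (hz : ‖z‖ ≤ 3) :
    ∑ γ ∈ Γ, ∑ j, X 𝒜 P (γ, j) (𝒜.sym (1, i) z) = 1 := by
  rw [← P.sum_eq (𝒜.sym (1, i) z), 𝒜.finsum_ext_eq_sum (s := Γ ×ˢ Finset.univ)
    (fun a ha => Finset.mem_product.2 ⟨hΓ i a z hz ha, Finset.mem_univ _⟩)
    (fun a => P.χ a.2) (fun a => chi_zero3 𝒜 P a.2), Finset.sum_product]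
  rfl

theorem sum_Dp (ρ : G →* (H ≃ₗᵢ[ℝ] H)) (b : G → H) {u : Y → H} (hu : 𝒜.Sm u)
    (hb : ∀ g y, u (g • y) = ρ g (u y) + b g) :
    ∑ i, ∫ z, Dp (P.χ i) (u ∘ 𝒜.sym (1, i)) z = 0 := by
  obtain ⟨Γ, hinv, hΓ⟩ := exists_fin 𝒜
  -- first, insert the partition of unity
  have h1 : ∀ i, ∫ z, Dp (P.χ i) (u ∘ 𝒜.sym (1, i)) z =
      ∑ γ ∈ Γ, ∑ j, II 𝒜 P u (1, i) (γ, j) := by
    intro i
    have hD0 : ∀ z : E, 2 < ‖z‖ → Dp (P.χ i) (u ∘ 𝒜.sym (1, i)) z = 0 := by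
      intro z hz
      apply Dp_zero_of
      have : {z : E | 2 < ‖z‖} ∈ 𝓝 z := (isOpen_lt continuous_const continuous_norm).mem_nhds hz
      filter_upwards [this] with z' hz'
      exact chi_zero 𝒜 P i z' hz'
    have hint : ∀ a : 𝒜.Idx, Integrable
        (fun z => X 𝒜 P a (𝒜.sym (1, i) z) * Dp (P.χ i) (u ∘ 𝒜.sym (1, i)) z) := by
      intro a
      apply integrable_of
      · exact (X_sm 𝒜 P a (1, i)).continuousOn.mul
          (contOn_Dp (P.smooth i).contDiffOn (hu (1, i)))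
      · intro z hz
        rw [hD0 z hz, mul_zero]
    simp only [II]
    simp_rw [← integral_finsetSum Finset.univ (fun j _ => hint (_, j))]
    rw [← integral_finsetSum Γ
      (fun γ _ => integrable_finsetSum Finset.univ (fun j _ => hint (γ, j)))]
    refine integral_congr_ae (Eventually.of_forall fun z => ?_)
    simp only
    by_cases hz : ‖z‖ ≤ 3
    · simp_rw [← Finset.sum_mul]
      rw [sum_one 𝒜 P hΓ i hz, one_mul]
    · rw [hD0 z (by linarith [not_le.1 hz])]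
      simp
  -- then, the sum in the other chart
  have h2 : ∀ j, ∑ γ ∈ Γ, ∑ i, JJ 𝒜 P u (1, j) (γ, i) = 0 := by
    intro j
    have hint : ∀ a : 𝒜.Idx, Integrable
        (fun z => P.χ j z * Dp (X 𝒜 P a ∘ 𝒜.sym (1, j)) (u ∘ 𝒜.sym (1, j)) z) := by
      intro a
      apply integrable_of
      · exact (P.smooth j).continuous.continuousOn.mul
          (contOn_Dp (X_sm 𝒜 P a (1, j)) (hu (1, j)))
      · intro z hz
        rw [chi_zero 𝒜 P j z hz, zero_mul]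
    simp only [JJ]
    simp_rw [← integral_finsetSum Finset.univ (fun i _ => hint (_, i))]
    rw [← integral_finsetSum Γ
      (fun γ _ => integrable_finsetSum Finset.univ (fun i _ => hint (γ, i)))]
    rw [← integral_zero E ℝ (μ := volume)]
    refine integral_congr_ae (Eventually.of_forall fun z => ?_)
    simp only
    by_cases hz : ‖z‖ ≤ 2
    · have hzb : z ∈ ball (0 : E) 4 := mem_ball_zero_iff.2 (by linarith)
      have hcd : ∀ a : 𝒜.Idx, ContDiffAt ℝ 2 (X 𝒜 P a ∘ 𝒜.sym (1, j)) z := fun a =>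
        ((X_sm 𝒜 P a (1, j)).contDiffAt (isOpen_ball.mem_nhds hzb)).of_le two_le_inf
      simp_rw [← Finset.mul_sum]
      have e1 : ∀ γ ∈ Γ, ∑ i, Dp (X 𝒜 P (γ, i) ∘ 𝒜.sym (1, j)) (u ∘ 𝒜.sym (1, j)) z =
          Dp (fun z' => ∑ i, (X 𝒜 P (γ, i) ∘ 𝒜.sym (1, j)) z') (u ∘ 𝒜.sym (1, j)) z :=
        fun γ _ => (Dp_sum Finset.univ _ fun i _ => hcd (γ, i)).symm
      rw [Finset.sum_congr rfl e1, ← Dp_sum Γ _ fun γ _ => ContDiffAt.sum fun i _ => hcd (γ, i),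
        Dp_one_of, mul_zero]
      have : {z : E | ‖z‖ < 3} ∈ 𝓝 z := (isOpen_lt continuous_norm continuous_const).mem_nhds (by
        show ‖z‖ < 3
        linarith)
      filter_upwards [this] with z' hz'
      exact sum_one 𝒜 P hΓ j (le_of_lt hz')
    · simp [chi_zero 𝒜 P j z (not_le.1 hz)]
  have h3 : ∀ (i j : Fin 𝒜.n) (γ : G),
      II 𝒜 P u (1, i) (γ, j) = JJ 𝒜 P u (1, j) (γ⁻¹, i) := by
    intro i j γ
    rw [II_eq_JJ 𝒜 P hu]
    have := JJ_inv 𝒜 P ρ b hu hb γ⁻¹ (γ, j) (1, i)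
    simp only [inv_mul_cancel, mul_one] at this
    exact this.symm
  calc ∑ i, ∫ z, Dp (P.χ i) (u ∘ 𝒜.sym (1, i)) z
      = ∑ i, ∑ γ ∈ Γ, ∑ j, JJ 𝒜 P u (1, j) (γ⁻¹, i) := by
        refine Finset.sum_congr rfl fun i _ => ?_
        rw [h1 i]
        exact Finset.sum_congr rfl fun γ _ => Finset.sum_congr rfl fun j _ => h3 i j γ
    _ = ∑ i, ∑ γ ∈ Γ, ∑ j, JJ 𝒜 P u (1, j) (γ, i) := by
        refine Finset.sum_congr rfl fun i _ => ?_
        refine Finset.sum_nbij' (fun γ => γ⁻¹) (fun γ => γ⁻¹) ?_ ?_ ?_ ?_ ?_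
        · exact fun γ hγ => hinv γ hγ
        · exact fun γ hγ => hinv γ hγ
        · exact fun γ _ => inv_inv γ
        · exact fun γ _ => inv_inv γ
        · exact fun γ _ => rfl
    _ = ∑ j, ∑ γ ∈ Γ, ∑ i, JJ 𝒜 P u (1, j) (γ, i) := by
        rw [Finset.sum_comm]
        rw [Finset.sum_comm (s := Finset.univ) (t := Γ)]
        refine Finset.sum_congr rfl fun γ _ => ?_
        rw [Finset.sum_comm]
    _ = 0 := Finset.sum_eq_zero fun j _ => h2 j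

end glob

end B3

variable {G Y : Type*} [Group G] [TopologicalSpace Y] [MulAction G Y]

/-- (BOCH3) -/
theorem bochner_zero (𝒜 : Atl G Y) [ContinuousConstSMul G Y] [T2Space Y] (P : 𝒜.Pou)
    {H : Type*} [NormedAddCommGroup H] [InnerProductSpace ℝ H] (ρ : G →* (H ≃ₗᵢ[ℝ] H))
    (b : G → H) {u : Y → H} (hu : 𝒜.Sm u) (hb : ∀ g y, u (g • y) = ρ g (u y) + b g) :
    ∑ i, ∫ z, P.χ i z * MAdet (u ∘ 𝒜.sym (1, i)) z = 0 := by
  have h := B3.sum_Dp 𝒜 P ρ b hu hb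
  have h1 : ∀ i, ∫ z, P.χ i z * MAdet (u ∘ 𝒜.sym (1, i)) z =
      -(1 / 2) * ∫ z, Dp (P.χ i) (u ∘ 𝒜.sym (1, i)) z := fun i =>
    flat_identity (P.χ i) (P.smooth i) (fun z hz => by linarith [P.supp i z hz])
      (u ∘ 𝒜.sym (1, i)) (hu (1, i))
  rw [Finset.sum_congr rfl fun i _ => h1 i, ← Finset.mul_sum, h, mul_zero]

end Sing
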