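import Pool.Agent.Work.MP_3893a0_gt.Defs

/-! Module BOCH4: the pointwise inequality. -/

open scoped ContDiff Topology BoundedContinuousFunction
open MeasureTheory Metric Set Filter

noncomputable section

namespace Sing

namespace Boch64

variable {H : Type*} [NormedAddCommGroup H] [InnerProductSpace ℝ H]

lemma key_identity (a1 a2 x y : ℝ) (h1 h2 p q : H) :
    a1 ^ 2 * (‖p‖ ^ 2 + ‖q‖ ^ 2 - inner ℝ h1 h2) =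
      ‖a1 • p + x • h2‖ ^ 2 + ‖a1 • q + y • h2‖ ^ 2 + (a1 * a2 - (x ^ 2 + y ^ 2)) * ‖h2‖ ^ 2
        - a1 * inner ℝ (a1 • h1 + a2 • h2 + (2 * x) • p + (2 * y) • q) h2 := by
  rw [norm_add_sq_real, norm_add_sq_real]
  simp only [inner_add_left, inner_smul_left, inner_smul_right, norm_smul, mul_pow,
    Real.norm_eq_abs, sq_abs, real_inner_self_eq_norm_sq, RCLike.conj_to_real]
  ring

lemma norm_add_sq_le' (u v : H) : ‖u + v‖ ^ 2 ≤ 2 * ‖u‖ ^ 2 + 2 * ‖v‖ ^ 2 := by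
  have h := parallelogram_law_with_norm ℝ u v
  nlinarith [norm_nonneg (u - v), sq_nonneg ‖u - v‖, h]

/-- the algebraic inequality -/
lemma alg_ineq {m M d : ℝ} (hm : 0 < m) (hM : 0 < M) (hd : 0 < d) :
    ∃ c > 0, ∃ C : ℝ, ∀ a1 a2 x y : ℝ, m ≤ a1 → a1 ≤ M → |a2| ≤ M → |x| ≤ M → |y| ≤ M →
      d ≤ a1 * a2 - (x ^ 2 + y ^ 2) →
      ∀ {H : Type*} [NormedAddCommGroup H] [InnerProductSpace ℝ H] (h1 h2 p q : H),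
      c * (‖h1‖ ^ 2 + ‖h2‖ ^ 2 + ‖p‖ ^ 2 + ‖q‖ ^ 2) ≤
        C * ‖a1 • h1 + a2 • h2 + (2 * x) • p + (2 * y) • q‖ ^ 2 -
          (inner ℝ h1 h2 - ‖p‖ ^ 2 - ‖q‖ ^ 2) := by
  obtain ⟨K1, hK1⟩ : ∃ K1, K1 = 2 + 4 * M ^ 2 / d := ⟨_, rfl⟩
  have hK1p : 0 < K1 := by rw [hK1]; positivity
  obtain ⟨K, hK⟩ : ∃ K, K = 8 * M ^ 2 / d + 64 * M ^ 2 * K1 / m ^ 2 + 2 * m ^ 2 / d + 2 * K1 :=
    ⟨_, rfl⟩
  have hKp : 0 < K := by rw [hK]; positivity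
  refine ⟨m ^ 2 / (K * M ^ 2), by positivity, 2 / (K * M ^ 2) + 1 / (2 * d), ?_⟩
  intro a1 a2 x y hma ha hM2 hx hy hD H _ _ h1 h2 p q
  set P := a1 • h1 + a2 • h2 + (2 * x) • p + (2 * y) • q with hP
  set u := a1 • p + x • h2 with hu
  set v := a1 • q + y • h2 with hv
  have hid := key_identity a1 a2 x y h1 h2 p q
  rw [← hP, ← hu, ← hv] at hid
  have ha0 : 0 < a1 := hm.trans_le hma
  have hx2 : x ^ 2 ≤ M ^ 2 := by rw [← sq_abs x]; exact pow_le_pow_left₀ (abs_nonneg _) hx 2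
  have hy2 : y ^ 2 ≤ M ^ 2 := by rw [← sq_abs y]; exact pow_le_pow_left₀ (abs_nonneg _) hy 2
  have ha22 : a2 ^ 2 ≤ M ^ 2 := by rw [← sq_abs a2]; exact pow_le_pow_left₀ (abs_nonneg _) hM2 2
  have hma2 : m ^ 2 ≤ a1 ^ 2 := pow_le_pow_left₀ hm.le hma 2
  have haM2 : a1 ^ 2 ≤ M ^ 2 := pow_le_pow_left₀ ha0.le ha 2
  obtain ⟨N, hN⟩ : ∃ N, N = ‖u‖ ^ 2 + ‖v‖ ^ 2 + d / 2 * ‖h2‖ ^ 2 := ⟨_, rfl⟩
  have hN0 : 0 ≤ N := by rw [hN]; positivity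
  obtain ⟨S, hS⟩ : ∃ S, S = ‖p‖ ^ 2 + ‖q‖ ^ 2 - inner ℝ h1 h2 := ⟨_, rfl⟩
  rw [← hS] at hid
  -- Cauchy-Schwarz
  have hCS : a1 * inner ℝ P h2 ≤ d / 2 * ‖h2‖ ^ 2 + a1 ^ 2 * (‖P‖ ^ 2 / (2 * d)) := by
    have h3 : inner ℝ P h2 ≤ ‖P‖ * ‖h2‖ := real_inner_le_norm P h2
    have h4 : a1 * inner ℝ P h2 ≤ a1 * (‖P‖ * ‖h2‖) := mul_le_mul_of_nonneg_left h3 ha0.le
    have h5 : d / 2 * ‖h2‖ ^ 2 + a1 ^ 2 * (‖P‖ ^ 2 / (2 * d)) - a1 * (‖P‖ * ‖h2‖)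
        = (d * ‖h2‖ - a1 * ‖P‖) ^ 2 / (2 * d) := by
      field_simp
      ring
    have h6 : 0 ≤ (d * ‖h2‖ - a1 * ‖P‖) ^ 2 / (2 * d) := by positivity
    linarith
  have hDh : d * ‖h2‖ ^ 2 ≤ (a1 * a2 - (x ^ 2 + y ^ 2)) * ‖h2‖ ^ 2 :=
    mul_le_mul_of_nonneg_right hD (sq_nonneg _)
  have hNle : N ≤ a1 ^ 2 * (S + ‖P‖ ^ 2 / (2 * d)) := by
    rw [hN]; linarith
  have hSP : 0 ≤ S + ‖P‖ ^ 2 / (2 * d) := by
    have h7 : 0 ≤ a1 ^ 2 * (S + ‖P‖ ^ 2 / (2 * d)) := hN0.trans hNle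
    exact nonneg_of_mul_nonneg_right h7 (by positivity)
  have hNle' : N ≤ M ^ 2 * (S + ‖P‖ ^ 2 / (2 * d)) :=
    hNle.trans (mul_le_mul_of_nonneg_right haM2 hSP)
  -- bound for h2
  have hh2 : ‖h2‖ ^ 2 ≤ 2 / d * N := by
    have h8 : d / 2 * ‖h2‖ ^ 2 ≤ N := by
      rw [hN]
      have := sq_nonneg ‖u‖
      have := sq_nonneg ‖v‖
      linarith
    have h9 : 2 / d * (d / 2 * ‖h2‖ ^ 2) = ‖h2‖ ^ 2 := by field_simp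
    rw [← h9]
    exact mul_le_mul_of_nonneg_left h8 (by positivity)
  have hM2h : M ^ 2 * ‖h2‖ ^ 2 ≤ M ^ 2 * (2 / d * N) := mul_le_mul_of_nonneg_left hh2 (by positivity)
  have huN : ‖u‖ ^ 2 ≤ N := by
    rw [hN]
    have := sq_nonneg ‖v‖
    have : 0 ≤ d / 2 * ‖h2‖ ^ 2 := by positivity
    linarith
  have hvN : ‖v‖ ^ 2 ≤ N := by
    rw [hN]
    have := sq_nonneg ‖u‖
    have : 0 ≤ d / 2 * ‖h2‖ ^ 2 := by positivity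
    linarith
  have hK1N : 2 * N + 2 * (M ^ 2 * (2 / d * N)) = K1 * N := by
    rw [hK1]; field_simp; ring
  -- bound for p, q
  have hpq : ∀ (w z : H) (s : ℝ), s ^ 2 ≤ M ^ 2 → z = a1 • w + s • h2 → ‖z‖ ^ 2 ≤ N →
      m ^ 2 * ‖w‖ ^ 2 ≤ K1 * N := by
    intro w z s hs hz hzN
    have e1 : a1 • w = z + (-s) • h2 := by rw [hz]; simp
    have e2 : ‖a1 • w‖ ^ 2 ≤ 2 * ‖z‖ ^ 2 + 2 * ‖(-s) • h2‖ ^ 2 := by
      rw [e1]; exact norm_add_sq_le' _ _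
    rw [norm_smul, norm_smul, mul_pow, mul_pow, Real.norm_eq_abs, Real.norm_eq_abs, sq_abs, sq_abs,
      neg_sq] at e2
    have e3 : m ^ 2 * ‖w‖ ^ 2 ≤ a1 ^ 2 * ‖w‖ ^ 2 := mul_le_mul_of_nonneg_right hma2 (sq_nonneg _)
    have e4 : s ^ 2 * ‖h2‖ ^ 2 ≤ M ^ 2 * ‖h2‖ ^ 2 := mul_le_mul_of_nonneg_right hs (sq_nonneg _)
    linarith
  have hp := hpq p u x hx2 hu huN
  have hq := hpq q v y hy2 hv hvN
  -- bound for h1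
  have hh1 : m ^ 2 * ‖h1‖ ^ 2 ≤ 2 * ‖P‖ ^ 2 + 4 * (M ^ 2 * ‖h2‖ ^ 2)
      + 16 * (M ^ 2 * ‖p‖ ^ 2) + 16 * (M ^ 2 * ‖q‖ ^ 2) + 0 * N + 16 * (M ^ 2 * ‖p‖ ^ 2)
      + 16 * (M ^ 2 * ‖q‖ ^ 2) := by
    have e1 : a1 • h1 = P + (-1 : ℝ) • (a2 • h2 + ((2 * x) • p + (2 * y) • q)) := by
      rw [hP]; module
    have e2 : ‖a1 • h1‖ ^ 2 ≤ 2 * ‖P‖ ^ 2
        + 2 * ‖(-1 : ℝ) • (a2 • h2 + ((2 * x) • p + (2 * y) • q))‖ ^ 2 := by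
      rw [e1]; exact norm_add_sq_le' _ _
    have e3 := norm_add_sq_le' (a2 • h2) ((2 * x) • p + (2 * y) • q)
    have e4 := norm_add_sq_le' ((2 * x) • p) ((2 * y) • q)
    rw [norm_smul, norm_smul, mul_pow, mul_pow, Real.norm_eq_abs, Real.norm_eq_abs, sq_abs, sq_abs]
      at e2
    rw [norm_smul a2, mul_pow, Real.norm_eq_abs, sq_abs] at e3
    rw [norm_smul, norm_smul, mul_pow, mul_pow, Real.norm_eq_abs, Real.norm_eq_abs, sq_abs, sq_abs]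
      at e4
    have e5 : m ^ 2 * ‖h1‖ ^ 2 ≤ a1 ^ 2 * ‖h1‖ ^ 2 := mul_le_mul_of_nonneg_right hma2 (sq_nonneg _)
    have e6 : x ^ 2 * ‖p‖ ^ 2 ≤ M ^ 2 * ‖p‖ ^ 2 := mul_le_mul_of_nonneg_right hx2 (sq_nonneg _)
    have e7 : y ^ 2 * ‖q‖ ^ 2 ≤ M ^ 2 * ‖q‖ ^ 2 := mul_le_mul_of_nonneg_right hy2 (sq_nonneg _)
    have e8 : a2 ^ 2 * ‖h2‖ ^ 2 ≤ M ^ 2 * ‖h2‖ ^ 2 := mul_le_mul_of_nonneg_right ha22 (sq_nonneg _)
    have e9 : 0 ≤ M ^ 2 * ‖p‖ ^ 2 := by positivity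
    have e10 : 0 ≤ M ^ 2 * ‖q‖ ^ 2 := by positivity
    nlinarith
  have hp' : M ^ 2 * ‖p‖ ^ 2 ≤ M ^ 2 * K1 / m ^ 2 * N := by
    have e1 : M ^ 2 / m ^ 2 * (m ^ 2 * ‖p‖ ^ 2) = M ^ 2 * ‖p‖ ^ 2 := by field_simp
    have e2 : M ^ 2 / m ^ 2 * (K1 * N) = M ^ 2 * K1 / m ^ 2 * N := by ring
    rw [← e1, ← e2]
    exact mul_le_mul_of_nonneg_left hp (by positivity)
  have hq' : M ^ 2 * ‖q‖ ^ 2 ≤ M ^ 2 * K1 / m ^ 2 * N := by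
    have e1 : M ^ 2 / m ^ 2 * (m ^ 2 * ‖q‖ ^ 2) = M ^ 2 * ‖q‖ ^ 2 := by field_simp
    have e2 : M ^ 2 / m ^ 2 * (K1 * N) = M ^ 2 * K1 / m ^ 2 * N := by ring
    rw [← e1, ← e2]
    exact mul_le_mul_of_nonneg_left hq (by positivity)
  have hm2h : m ^ 2 * ‖h2‖ ^ 2 ≤ m ^ 2 * (2 / d * N) := mul_le_mul_of_nonneg_left hh2 (by positivity)
  have hKN : K * N = 4 * (M ^ 2 * (2 / d * N)) + 64 * (M ^ 2 * K1 / m ^ 2 * N)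
      + m ^ 2 * (2 / d * N) + 2 * (K1 * N) := by
    rw [hK]; field_simp; ring
  have htot : m ^ 2 * (‖h1‖ ^ 2 + ‖h2‖ ^ 2 + ‖p‖ ^ 2 + ‖q‖ ^ 2) ≤ 2 * ‖P‖ ^ 2 + K * N := by
    linarith
  have hKM : K * N ≤ K * M ^ 2 * (S + ‖P‖ ^ 2 / (2 * d)) := by
    rw [mul_assoc]; exact mul_le_mul_of_nonneg_left hNle' hKp.le
  have hfin : m ^ 2 * (‖h1‖ ^ 2 + ‖h2‖ ^ 2 + ‖p‖ ^ 2 + ‖q‖ ^ 2)
      ≤ 2 * ‖P‖ ^ 2 + K * M ^ 2 * (S + ‖P‖ ^ 2 / (2 * d)) := htot.trans (by linarith)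
  have hKM0 : 0 < K * M ^ 2 := by positivity
  have e1 : m ^ 2 / (K * M ^ 2) * (‖h1‖ ^ 2 + ‖h2‖ ^ 2 + ‖p‖ ^ 2 + ‖q‖ ^ 2)
      = (m ^ 2 * (‖h1‖ ^ 2 + ‖h2‖ ^ 2 + ‖p‖ ^ 2 + ‖q‖ ^ 2)) / (K * M ^ 2) := by ring
  have e2 : (2 / (K * M ^ 2) + 1 / (2 * d)) * ‖P‖ ^ 2 - (inner ℝ h1 h2 - ‖p‖ ^ 2 - ‖q‖ ^ 2)
      = (2 * ‖P‖ ^ 2 + K * M ^ 2 * (S + ‖P‖ ^ 2 / (2 * d))) / (K * M ^ 2) := by
    rw [hS]; field_simp; ring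
  rw [e1, e2]
  exact div_le_div_of_nonneg_right hfin hKM0.le

end Boch64

/-- pointwise inequality (BOCH4) -/
theorem pointwise_ineq (A : LocCoef) : ∃ c > 0, ∃ C : ℝ, ∀ z : E, ‖z‖ ≤ 2 →
    ∀ {H : Type*} [NormedAddCommGroup H] [InnerProductSpace ℝ H] (f : E → H),
      c * (‖levB f z e1 e1‖ ^ 2 + ‖levB f z e2 e2‖ ^ 2 + ‖levB f z e1 e2‖ ^ 2 +
        ‖levB f z e1 (Complex.I • e2)‖ ^ 2) ≤ C * ‖Pc A f z‖ ^ 2 - MAdet f z := by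
  have hK : IsCompact (closedBall (0 : E) 2) := isCompact_closedBall _ _
  have hsub : closedBall (0 : E) 2 ⊆ ball 0 4 := closedBall_subset_ball (by norm_num)
  have hne : (closedBall (0 : E) 2).Nonempty := ⟨0, by simp⟩
  have c11 : ContinuousOn A.a11 (closedBall (0 : E) 2) := A.smooth11.continuousOn.mono hsub
  have c22 : ContinuousOn A.a22 (closedBall (0 : E) 2) := A.smooth22.continuousOn.mono hsub
  have cc : ContinuousOn A.c (closedBall (0 : E) 2) := A.smoothc.continuousOn.mono hsub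
  obtain ⟨z1, hz1, hmin1⟩ := hK.exists_isMinOn hne c11
  obtain ⟨z2, hz2, hmin2⟩ := hK.exists_isMinOn hne ((c11.mul c22).sub (cc.norm.pow 2))
  obtain ⟨M1, hM1⟩ := hK.exists_bound_of_continuousOn c11
  obtain ⟨M2, hM2⟩ := hK.exists_bound_of_continuousOn c22
  obtain ⟨M3, hM3⟩ := hK.exists_bound_of_continuousOn cc
  have hm := A.pos z1 (hsub hz1)
  have hd := A.det_pos z2 (hsub hz2)
  obtain ⟨c, hc, C, hC⟩ := Boch64.alg_ineq hm (M := |M1| + |M2| + |M3| + 1) (by positivity) hd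
  refine ⟨c, hc, C, ?_⟩
  intro z hz H _ _ f
  have hz' : z ∈ closedBall (0 : E) 2 := by simpa using hz
  have g1 := hM1 z hz'
  have g2 := hM2 z hz'
  have g3 := hM3 z hz'
  rw [Real.norm_eq_abs] at g1 g2
  have k1 := le_abs_self M1
  have k2 := le_abs_self M2
  have k3 := le_abs_self M3
  have n1 := abs_nonneg M1
  have n2 := abs_nonneg M2
  have n3 := abs_nonneg M3
  have r1 := Complex.abs_re_le_norm (A.c z)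
  have r2 := Complex.abs_im_le_norm (A.c z)
  have hn : ‖A.c z‖ ^ 2 = (A.c z).re ^ 2 + (A.c z).im ^ 2 := by
    rw [Complex.sq_norm, Complex.normSq_apply]; ring
  have hdet : A.a11 z2 * A.a22 z2 - ‖A.c z2‖ ^ 2 ≤ A.a11 z * A.a22 z - ‖A.c z‖ ^ 2 := hmin2 hz'
  rw [hn] at hdet
  have := hC (A.a11 z) (A.a22 z) (A.c z).re (A.c z).im (hmin1 hz')
    (by linarith [le_abs_self (A.a11 z)]) (by linarith) (by linarith) (by linarith) hdet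
    (levB f z e1 e1) (levB f z e2 e2) (levB f z e1 e2) (levB f z e1 (Complex.I • e2))
  exact this

end Sing
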