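import Pool.Agent.Work.MP_3893a0_gt.Defs
import Pool.Agent.Work.MP_3893a0_gt.Geo2
import Pool.Agent.Work.MP_3893a0_gt.Geo3a2
import Pool.Agent.Work.MP_3893a0_gt.Geo3b
import Pool.Agent.Work.MP_3893a0_gt.Boch3
import Pool.Agent.Work.MP_3893a0_gt.Boch4

/-! BOCH5: the Levi forms tend to zero in `L²`. -/

open scoped ContDiff Topology BoundedContinuousFunction
open MeasureTheory Metric Set Filter

noncomputable section

namespace Sing

namespace Boch5

section
variable {V : Type*} [NormedAddCommGroup V] [NormedSpace ℝ V]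

theorem continuousOn_levB {f : E → V} (hf : ContDiffOn ℝ ∞ f (ball 0 4)) (v w : E) :
    ContinuousOn (fun z => levB f z v w) (ball 0 4) := by
  have h1 : ContDiffOn ℝ ∞ (fderiv ℝ f) (ball 0 4) :=
    hf.fderiv_of_isOpen isOpen_ball (by simp)
  have h2 : ContDiffOn ℝ ∞ (fderiv ℝ (fderiv ℝ f)) (ball 0 4) :=
    h1.fderiv_of_isOpen isOpen_ball (by simp)
  have h3 := h2.continuousOn
  exact ((h3.clm_apply continuousOn_const).clm_apply continuousOn_const).add
    ((h3.clm_apply continuousOn_const).clm_apply continuousOn_const)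

end

theorem integrable_chi {χ W : E → ℝ} (h : ContDiff ℝ ∞ χ) (hs : ∀ z, χ z ≠ 0 → ‖z‖ ≤ 2)
    (hW : ContinuousOn W (ball 0 4)) : Integrable (fun z => χ z * W z) := by
  have h0 : tsupport χ ⊆ closedBall (0 : E) 2 := by
    refine closure_minimal (fun z hz => ?_) isClosed_closedBall
    rw [mem_closedBall_zero_iff]
    exact hs z hz
  have h1 : tsupport χ ⊆ ball (0 : E) 4 := fun z hz => by
    have := h0 hz
    rw [mem_closedBall] at this
    rw [mem_ball]
    linarith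
  have hs' : tsupport (fun z => χ z * W z) ⊆ tsupport χ := tsupport_mul_subset_left
  have hc : Continuous (fun z => χ z * W z) := by
    refine ContinuousOn.continuous_of_tsupport_subset
      (h.continuous.continuousOn.mul hW) isOpen_ball (hs'.trans h1)
  refine hc.integrable_of_hasCompactSupport ?_
  exact HasCompactSupport.of_support_subset_isCompact (isCompact_closedBall (0 : E) 2)
    ((subset_tsupport _).trans (hs'.trans h0))

section
variable {H : Type*} [NormedAddCommGroup H] [InnerProductSpace ℝ H]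

/-- sum of the squares of the Levi form -/
def LL (f : E → H) (z : E) : ℝ :=
  ‖levB f z e1 e1‖ ^ 2 + ‖levB f z e2 e2‖ ^ 2 + ‖levB f z e1 e2‖ ^ 2 +
       ‖levB f z e1 (Complex.I • e2)‖ ^ 2

theorem LL_nonneg (f : E → H) (z : E) : 0 ≤ LL f z := by
  unfold LL
  positivity

theorem continuousOn_LL {f : E → H} (hf : ContDiffOn ℝ ∞ f (ball 0 4)) :
    ContinuousOn (LL f) (ball 0 4) := by
  unfold LL
  exact ((((continuousOn_levB hf _ _).norm.pow 2).add ((continuousOn_levB hf _ _).norm.pow 2)).add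
    ((continuousOn_levB hf _ _).norm.pow 2)).add ((continuousOn_levB hf _ _).norm.pow 2)

theorem continuousOn_MAdet {f : E → H} (hf : ContDiffOn ℝ ∞ f (ball 0 4)) :
    ContinuousOn (MAdet f) (ball 0 4) := by
  unfold MAdet
  exact (((continuousOn_levB hf _ _).inner (continuousOn_levB hf _ _)).sub
    ((continuousOn_levB hf _ _).norm.pow 2)).sub ((continuousOn_levB hf _ _).norm.pow 2)

end

end Boch5

open Boch5

variable {G Y : Type*} [Group G] [TopologicalSpace Y] [MulAction G Y]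

/-- (BOCH5) the Levi forms tend to zero in `L²` -/
theorem hess_tendsto (𝒜 : Atl G Y) [ContinuousConstSMul G Y] [T2Space Y] (P : 𝒜.Pou) (M : 𝒜.Met)
    {H : Type*} [NormedAddCommGroup H] [InnerProductSpace ℝ H] (ρ : G →* (H ≃ₗᵢ[ℝ] H))
    (b : G → H) {u : ℕ → Y → H} (hu : ∀ n, 𝒜.Sm (u n))
    (hb : ∀ n g y, u n (g • y) = ρ g (u n y) + b g)
    (hP : ∀ ε > 0, ∀ᶠ n in atTop, ∀ i, ∀ z : E, ‖z‖ < 4 →
      ‖Pc (M.A i) (u n ∘ 𝒜.sym (1, i)) z‖ ≤ ε) (i : Fin 𝒜.n) :
    Tendsto (fun n => ∫ z in closedBall (0 : E) (3 / 2),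
      (‖levB (u n ∘ 𝒜.sym (1, i)) z e1 e1‖ ^ 2 + ‖levB (u n ∘ 𝒜.sym (1, i)) z e2 e2‖ ^ 2 +
       ‖levB (u n ∘ 𝒜.sym (1, i)) z e1 e2‖ ^ 2 +
       ‖levB (u n ∘ 𝒜.sym (1, i)) z e1 (Complex.I • e2)‖ ^ 2)) atTop (𝓝 0) := by
  change Tendsto (fun n => ∫ z in closedBall (0 : E) (3 / 2), LL (u n ∘ 𝒜.sym (1, i)) z)
    atTop (𝓝 0)
  choose c hc C hC using fun j => pointwise_ineq (M.A j)
  obtain ⟨c0, hc0, hlow⟩ := P.lower
  have hsm : ∀ n j, ContDiffOn ℝ ∞ (u n ∘ 𝒜.sym (1, j)) (ball 0 4) := fun n j => hu n (1, j)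
  have iL : ∀ n j, Integrable (fun z => P.χ j z * LL (u n ∘ 𝒜.sym (1, j)) z) := fun n j =>
    integrable_chi (P.smooth j) (P.supp j) (continuousOn_LL (hsm n j))
  have iM : ∀ n j, Integrable (fun z => P.χ j z * MAdet (u n ∘ 𝒜.sym (1, j)) z) := fun n j =>
    integrable_chi (P.smooth j) (P.supp j) (continuousOn_MAdet (hsm n j))
  have iP : ∀ n j, Integrable
      (fun z => P.χ j z * ‖Pc (M.A j) (u n ∘ 𝒜.sym (1, j)) z‖ ^ 2) := fun n j =>
    integrable_chi (P.smooth j) (P.supp j) ((Atl.continuousOn_Pc (M.A j) (hsm n j)).norm.pow 2)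
  have i1 : ∀ j, Integrable (P.χ j) := fun j => by
    have := integrable_chi (W := fun _ => (1 : ℝ)) (P.smooth j) (P.supp j) continuousOn_const
    simpa using this
  set K : ℝ := ∑ j, |C j| * ∫ z, P.χ j z with hK
  have hK0 : 0 ≤ K := Finset.sum_nonneg fun j _ =>
    mul_nonneg (abs_nonneg _) (integral_nonneg fun z => P.nonneg j z)
  -- one chart
  have one : ∀ n j, c j * ∫ z, P.χ j z * LL (u n ∘ 𝒜.sym (1, j)) z ≤
      (|C j| * ∫ z, P.χ j z * ‖Pc (M.A j) (u n ∘ 𝒜.sym (1, j)) z‖ ^ 2) -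
        ∫ z, P.χ j z * MAdet (u n ∘ 𝒜.sym (1, j)) z := by
    intro n j
    rw [← integral_const_mul, ← integral_const_mul, ← integral_sub ((iP n j).const_mul _) (iM n j)]
    refine integral_mono ((iL n j).const_mul _) (((iP n j).const_mul _).sub (iM n j)) fun z => ?_
    beta_reduce
    by_cases hz : P.χ j z = 0
    · simp [hz]
    · have h1 := hC j z (P.supp j z hz) (u n ∘ 𝒜.sym (1, j))
      have h2 : C j * ‖Pc (M.A j) (u n ∘ 𝒜.sym (1, j)) z‖ ^ 2 ≤
          |C j| * ‖Pc (M.A j) (u n ∘ 𝒜.sym (1, j)) z‖ ^ 2 :=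
        mul_le_mul_of_nonneg_right (le_abs_self _) (by positivity)
      have h3 : c j * LL (u n ∘ 𝒜.sym (1, j)) z ≤
          |C j| * ‖Pc (M.A j) (u n ∘ 𝒜.sym (1, j)) z‖ ^ 2 - MAdet (u n ∘ 𝒜.sym (1, j)) z := by
        unfold LL
        linarith
      have h4 := mul_le_mul_of_nonneg_left h3 (P.nonneg j z)
      linarith
  have tot : ∀ n, ∀ ε : ℝ, 0 ≤ ε → (∀ j, ∀ z : E, ‖z‖ < 4 →
      ‖Pc (M.A j) (u n ∘ 𝒜.sym (1, j)) z‖ ≤ ε) →
      c i * c0 * ∫ z in closedBall (0 : E) (3 / 2), LL (u n ∘ 𝒜.sym (1, i)) z ≤ K * ε ^ 2 := by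
    intro n ε hε0 hε
    have s1 : c0 * ∫ z in closedBall (0 : E) (3 / 2), LL (u n ∘ 𝒜.sym (1, i)) z ≤
        ∫ z, P.χ i z * LL (u n ∘ 𝒜.sym (1, i)) z := by
      have hsub : closedBall (0 : E) (3 / 2) ⊆ ball 0 4 := closedBall_subset_ball (by norm_num)
      have hi : IntegrableOn (LL (u n ∘ 𝒜.sym (1, i))) (closedBall (0 : E) (3 / 2)) :=
        ((continuousOn_LL (hsm n i)).mono hsub).integrableOn_compact (isCompact_closedBall _ _)
      calc c0 * ∫ z in closedBall (0 : E) (3 / 2), LL (u n ∘ 𝒜.sym (1, i)) z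
          = ∫ z in closedBall (0 : E) (3 / 2), c0 * LL (u n ∘ 𝒜.sym (1, i)) z := by
            rw [integral_const_mul]
        _ ≤ ∫ z in closedBall (0 : E) (3 / 2), P.χ i z * LL (u n ∘ 𝒜.sym (1, i)) z := by
            refine setIntegral_mono_on (hi.const_mul _) (iL n i).integrableOn
              measurableSet_closedBall fun z hz => ?_
            rw [mem_closedBall_zero_iff] at hz
            exact mul_le_mul_of_nonneg_right (hlow i z hz) (LL_nonneg _ _)
        _ ≤ ∫ z, P.χ i z * LL (u n ∘ 𝒜.sym (1, i)) z :=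
            setIntegral_le_integral (iL n i)
              (Eventually.of_forall fun z => mul_nonneg (P.nonneg i z) (LL_nonneg _ _))
    have s2 : c i * ∫ z, P.χ i z * LL (u n ∘ 𝒜.sym (1, i)) z ≤
        ∑ j, c j * ∫ z, P.χ j z * LL (u n ∘ 𝒜.sym (1, j)) z := by
      refine Finset.single_le_sum (f := fun j => c j * ∫ z, P.χ j z * LL (u n ∘ 𝒜.sym (1, j)) z)
        (fun j _ => ?_) (Finset.mem_univ i)
      exact mul_nonneg (hc j).le
        (integral_nonneg fun z => mul_nonneg (P.nonneg j z) (LL_nonneg _ _))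
    have s3 : ∑ j, c j * ∫ z, P.χ j z * LL (u n ∘ 𝒜.sym (1, j)) z ≤
        ∑ j, |C j| * ∫ z, P.χ j z * ‖Pc (M.A j) (u n ∘ 𝒜.sym (1, j)) z‖ ^ 2 := by
      have h1 := Finset.sum_le_sum fun j (_ : j ∈ Finset.univ) => one n j
      rw [Finset.sum_sub_distrib, bochner_zero 𝒜 P ρ b (hu n) (hb n), sub_zero] at h1
      exact h1
    have s4 : ∑ j, |C j| * ∫ z, P.χ j z * ‖Pc (M.A j) (u n ∘ 𝒜.sym (1, j)) z‖ ^ 2 ≤ K * ε ^ 2 := by
      rw [hK, Finset.sum_mul]
      refine Finset.sum_le_sum fun j _ => ?_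
      rw [mul_assoc]
      refine mul_le_mul_of_nonneg_left ?_ (abs_nonneg _)
      rw [← integral_mul_const]
      refine integral_mono (iP n j) ((i1 j).mul_const _) fun z => ?_
      by_cases hz : P.χ j z = 0
      · simp [hz]
      · have h1 := P.supp j z hz
        have h2 := hε j z (by linarith)
        exact mul_le_mul_of_nonneg_left (pow_le_pow_left₀ (norm_nonneg _) h2 2) (P.nonneg j z)
    have s5 := mul_le_mul_of_nonneg_left s1 (hc i).le
    linarith
  have hci : 0 < c i * c0 := mul_pos (hc i) hc0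
  rw [Metric.tendsto_atTop']
  intro δ hδ
  set B := K / (c i * c0) with hB
  have hB0 : 0 ≤ B := div_nonneg hK0 hci.le
  set ε := min 1 (δ / (B + 1)) with hεd
  have hε0 : 0 < ε := lt_min one_pos (div_pos hδ (by linarith))
  obtain ⟨N, hN⟩ := eventually_atTop.1 (hP ε hε0)
  refine ⟨N, fun n hn => ?_⟩
  have h1 := tot n ε hε0.le (hN n hn.le)
  have hnn : 0 ≤ ∫ z in closedBall (0 : E) (3 / 2), LL (u n ∘ 𝒜.sym (1, i)) z :=
    integral_nonneg fun z => LL_nonneg _ _
  rw [dist_zero_right, Real.norm_of_nonneg hnn]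
  have h2 : ∫ z in closedBall (0 : E) (3 / 2), LL (u n ∘ 𝒜.sym (1, i)) z ≤ B * ε ^ 2 := by
    rw [hB, div_mul_eq_mul_div, le_div_iff₀ hci]
    linarith
  have h3 : ε ^ 2 ≤ ε := by
    have : ε ≤ 1 := min_le_left _ _
    nlinarith
  have h4 : (B + 1) * ε ≤ δ := by
    have h5 : ε ≤ δ / (B + 1) := min_le_right _ _
    have h6 : 0 < B + 1 := by linarith
    rw [le_div_iff₀ h6] at h5
    linarith
  have h7 : B * ε ^ 2 ≤ B * ε := mul_le_mul_of_nonneg_left h3 hB0
  linarith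

end Sing
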