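import Pool.Agent.Work.MP_3893a0_gt.Geo1

/-! Module CURV, parts 2 and 4: identity theorem and open mapping on the covering surface. -/

open scoped ContDiff Topology Manifold
open MeasureTheory Metric Set Filter

noncomputable section

namespace Sing

/-- restriction of a holomorphic function on a convex open set to a complex line -/
theorem line_analytic {f : E → ℂ} {B : Set E} (hB : IsOpen B) (hf : DifferentiableOn ℂ f B)
    (z w : E) : AnalyticOnNhd ℂ (fun t : ℂ => f (z + t • w)) {t : ℂ | z + t • w ∈ B} ∧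
      IsOpen {t : ℂ | z + t • w ∈ B} := by
  have hc : Continuous fun t : ℂ => z + t • w := by fun_prop
  have ho : IsOpen {t : ℂ | z + t • w ∈ B} := hB.preimage hc
  refine ⟨DifferentiableOn.analyticOnNhd ?_ ho, ho⟩
  have hd : Differentiable ℂ fun t : ℂ => z + t • w := by fun_prop
  exact hf.comp hd.differentiableOn (fun t ht => ht)

theorem line_preconnected {B : Set E} (hB : Convex ℝ B) (z w : E) :
    IsPreconnected {t : ℂ | z + t • w ∈ B} := by
  refine Convex.isPreconnected (s := {t : ℂ | z + t • w ∈ B}) ?_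
  intro t ht u hu a b ha hb hab
  have := hB ht hu ha hb hab
  simp only [mem_setOf_eq]
  convert this using 1
  have e : (z : E) = (a + b) • z := by rw [hab, one_smul]
  conv_lhs => rw [e]
  simp only [add_smul, smul_add, smul_assoc]
  abel

/-- identity theorem on a convex open set -/
theorem identity_convex {f : E → ℂ} {B : Set E} (hB : IsOpen B) (hBc : Convex ℝ B)
    (hf : DifferentiableOn ℂ f B) {z : E} (hz : z ∈ B) {c : ℂ} (h : ∀ᶠ z' in 𝓝 z, f z' = c) :
    ∀ z' ∈ B, f z' = c := by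
  intro z' hz'
  obtain ⟨ha, ho⟩ := line_analytic hB hf z (z' - z)
  have h0 : (0 : ℂ) ∈ {t : ℂ | z + t • (z' - z) ∈ B} := by simpa using hz
  have h1 : (1 : ℂ) ∈ {t : ℂ | z + t • (z' - z) ∈ B} := by simpa using hz'
  have hev : (fun t : ℂ => f (z + t • (z' - z))) =ᶠ[𝓝 0] fun _ => c := by
    have hc : Tendsto (fun t : ℂ => z + t • (z' - z)) (𝓝 0) (𝓝 z) := by
      have : Continuous fun t : ℂ => z + t • (z' - z) := by fun_prop
      simpa using this.tendsto 0
    exact hc.eventually h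
  have := ha.eqOn_of_preconnected_of_eventuallyEq analyticOnNhd_const
    (line_preconnected hBc z (z' - z)) h0 hev h1
  simpa using this

variable {G Y : Type*} [Group G] [TopologicalSpace Y] [MulAction G Y]

/-- (CURV2) identity theorem: `Φ` is not constant near any point -/
theorem nonconst_near (𝒜 : Atl G Y) [ContinuousConstSMul G Y] [T2Space Y] [ConnectedSpace Y]
    (Φ : Y → ℂ) (hΦ : ∀ a, DifferentiableOn ℂ (Φ ∘ 𝒜.sym a) (ball 0 (5 / 4)))
    (hne : ∃ y y', Φ y ≠ Φ y') (y : Y) (c : ℂ) : ¬ ∀ᶠ y' in 𝓝 y, Φ y' = c := by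
  intro hy
  set A : Set Y := {y | ∀ᶠ y' in 𝓝 y, Φ y' = c} with hA
  have hsub : ball (0 : E) (5 / 4) ⊆ ball 0 4 := ball_subset_ball (by norm_num)
  have hAo : IsOpen A := by
    rw [isOpen_iff_mem_nhds]
    intro y hy
    exact (eventually_eventually_nhds (p := fun y' => Φ y' = c)).2 hy
  have hAc : IsClosed A := by
    rw [← closure_subset_iff_isClosed]
    intro y hy
    obtain ⟨a, z, hz, rfl⟩ := 𝒜.exists_sym y
    have hVo : IsOpen (𝒜.sym a '' ball 0 (5 / 4)) := 𝒜.isOpen_sym_image a isOpen_ball hsub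
    have hzV : z ∈ ball (0 : E) (5 / 4) := by
      rw [mem_ball_zero_iff]; linarith
    obtain ⟨y1, ⟨z1, hz1, rfl⟩, hy1⟩ := mem_closure_iff.1 hy _ hVo ⟨z, hzV, rfl⟩
    have hcont : ContinuousAt (𝒜.sym a) z1 :=
      (𝒜.continuousOn_sym a).continuousAt (isOpen_ball.mem_nhds (hsub hz1))
    have hev : ∀ᶠ z' in 𝓝 z1, (Φ ∘ 𝒜.sym a) z' = c := hcont.eventually hy1
    have hall := identity_convex isOpen_ball (convex_ball _ _) (hΦ a) hz1 hev
    refine Filter.mem_of_superset (hVo.mem_nhds ⟨z, hzV, rfl⟩) ?_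
    rintro _ ⟨z', hz', rfl⟩
    exact hall z' hz'
  have huniv : A = univ := IsClopen.eq_univ ⟨hAc, hAo⟩ ⟨y, hy⟩
  obtain ⟨y1, y2, h12⟩ := hne
  have h1 : Φ y1 = c := (show y1 ∈ A by rw [huniv]; trivial : ∀ᶠ y' in 𝓝 y1, Φ y' = c).self_of_nhds
  have h2 : Φ y2 = c := (show y2 ∈ A by rw [huniv]; trivial : ∀ᶠ y' in 𝓝 y2, Φ y' = c).self_of_nhds
  exact h12 (h1.trans h2.symm)

/-- (CURV4) open mapping -/
theorem isOpen_image_holo (𝒜 : Atl G Y) [ContinuousConstSMul G Y] [T2Space Y] [ConnectedSpace Y]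
    (Φ : Y → ℂ) (hΦ : ∀ a, DifferentiableOn ℂ (Φ ∘ 𝒜.sym a) (ball 0 (5 / 4)))
    (hne : ∃ y y', Φ y ≠ Φ y') {U : Set Y} (hU : IsOpen U) (hU0 : U.Nonempty) :
    (interior (Φ '' U)).Nonempty := by
  obtain ⟨y, hy⟩ := hU0
  obtain ⟨a, z, hz, rfl⟩ := 𝒜.exists_sym y
  have hsub : ball (0 : E) (5 / 4) ⊆ ball 0 4 := ball_subset_ball (by norm_num)
  have hzV : z ∈ ball (0 : E) (5 / 4) := by rw [mem_ball_zero_iff]; linarith
  have hcont : ContinuousAt (𝒜.sym a) z :=
    (𝒜.continuousOn_sym a).continuousAt (isOpen_ball.mem_nhds (hsub hzV))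
  have hnb : (𝒜.sym a ⁻¹' U) ∩ ball (0 : E) (5 / 4) ∈ 𝓝 z :=
    Filter.inter_mem (hcont.preimage_mem_nhds (hU.mem_nhds hy)) (isOpen_ball.mem_nhds hzV)
  obtain ⟨r, hr, hrB⟩ := Metric.mem_nhds_iff.1 hnb
  have hd : DifferentiableOn ℂ (Φ ∘ 𝒜.sym a) (ball z r) :=
    (hΦ a).mono (fun w hw => (hrB hw).2)
  -- a point in the ball with a different value
  have hex : ∃ z2 ∈ ball z r, Φ (𝒜.sym a z2) ≠ Φ (𝒜.sym a z) := by
    by_contra hcon
    push Not at hcon
    have hVo : IsOpen (𝒜.sym a '' ball z r) :=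
      𝒜.isOpen_sym_image a isOpen_ball (fun w hw => hsub (hrB hw).2)
    refine nonconst_near 𝒜 Φ hΦ hne (𝒜.sym a z) (Φ (𝒜.sym a z)) ?_
    refine Filter.mem_of_superset (hVo.mem_nhds ⟨z, mem_ball_self hr, rfl⟩) ?_
    rintro _ ⟨z', hz', rfl⟩
    exact hcon z' hz'
  obtain ⟨z2, hz2, hne2⟩ := hex
  obtain ⟨ha, ho⟩ := line_analytic isOpen_ball hd z (z2 - z)
  set T : Set ℂ := {t : ℂ | z + t • (z2 - z) ∈ ball z r} with hT
  have h0 : (0 : ℂ) ∈ T := by simpa [hT] using hr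
  have h1 : (1 : ℂ) ∈ T := by
    simp only [hT, mem_setOf_eq, one_smul, add_sub_cancel]
    exact hz2
  rcases ha.is_constant_or_isOpen (line_preconnected (convex_ball z r) z (z2 - z)) with ⟨w, hw⟩ | hop
  · exfalso
    apply hne2
    have e0 := hw 0 h0
    have e1 := hw 1 h1
    simp only [zero_smul, add_zero, one_smul, add_sub_cancel, Function.comp_apply] at e0 e1
    rw [e0, e1]
  · have hop' := hop T (Subset.refl _) ho
    have hs : ((fun t : ℂ => (Φ ∘ 𝒜.sym a) (z + t • (z2 - z))) '' T) ⊆ Φ '' U := by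
      rintro _ ⟨t, ht, rfl⟩
      exact ⟨𝒜.sym a (z + t • (z2 - z)), (hrB ht).1, rfl⟩
    exact ⟨_, interior_maximal hs hop' ⟨0, h0, rfl⟩⟩

end Sing
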