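import Pool.Agent.Work.MP_3893a0_gt.Defs
import Pool.Agent.Work.MP_3893a0_gt.Statement
import Pool.Agent.Work.MP_3893a0_gt.Geo2
import Pool.Agent.Work.MP_3893a0_gt.Curv24

/-! Module CURV: Borel-Cantelli and density of compact curves (CURV1, CURV5). -/

open scoped ContDiff Topology Manifold
open MeasureTheory Metric Set Filter

noncomputable section

namespace Sing

/-- (CURV1) Borel-Cantelli: almost every value is attained in finitely many cells only -/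
theorem ae_finite_cells {ι : Type*} [Countable ι] (z : ι → ℂ) (R : ι → ℝ)
    (hR : Summable fun i => R i ^ 2) :
    ∀ᵐ ζ : ℂ, {i | ζ ∈ closedBall (z i) (R i)}.Finite := by
  refine ae_finite_setOfPred_mem (μ := volume) (s := fun i => closedBall (z i) (R i)) ?_
  have h1 : ∀ i, volume (closedBall (z i) (R i)) ≤ ENNReal.ofReal (Real.pi * R i ^ 2) := by
    intro i
    rw [Complex.volume_closedBall]
    have h2 : (NNReal.pi : ENNReal) = ENNReal.ofReal Real.pi := by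
      rw [ENNReal.ofReal]
      congr
      ext
      simp [Real.pi_pos.le]
    rw [h2, ENNReal.ofReal_mul Real.pi_pos.le, mul_comm]
    gcongr
    rcases le_total 0 (R i) with h | h
    · rw [ENNReal.ofReal_pow h]
    · rw [ENNReal.ofReal_of_nonpos h]
      simp
  refine ne_of_lt (lt_of_le_of_lt (ENNReal.tsum_le_tsum h1) ?_)
  exact (hR.mul_left Real.pi).tsum_ofReal_lt_top

variable {G X Y : Type*} [Group G] [TopologicalSpace Y] [MulAction G Y]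
  [TopologicalSpace X] [ChartedSpace (ℂ × ℂ) X]

omit [TopologicalSpace X] [ChartedSpace (ℂ × ℂ) X] in
theorem continuous_holo (𝒜 : Atl G Y) [ContinuousConstSMul G Y] (Φ : Y → ℂ)
    (hΦ : ∀ a, DifferentiableOn ℂ (Φ ∘ 𝒜.sym a) (ball 0 (5 / 4))) : Continuous Φ := by
  rw [continuous_iff_continuousAt]
  intro y
  obtain ⟨a, z, hz, rfl⟩ := 𝒜.exists_sym y
  have hz4 : ‖z‖ < 4 := by linarith
  have hsrc : 𝒜.sym a z ∈ 𝒜.src a := 𝒜.sym_mem_src a hz4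
  have h1 : ContinuousAt (𝒜.crd a) (𝒜.sym a z) :=
    (𝒜.continuousOn_crd a).continuousAt ((𝒜.isOpen_src a).mem_nhds hsrc)
  have h2 : ContinuousAt (Φ ∘ 𝒜.sym a) (𝒜.crd a (𝒜.sym a z)) := by
    rw [𝒜.crd_sym a hz4]
    exact (hΦ a).continuousOn.continuousAt (isOpen_ball.mem_nhds (by
      rw [mem_ball_zero_iff]; linarith))
  have h3 : ContinuousAt ((Φ ∘ 𝒜.sym a) ∘ 𝒜.crd a) (𝒜.sym a z) := h2.comp h1
  refine h3.congr ?_
  filter_upwards [(𝒜.isOpen_src a).mem_nhds hsrc] with y hy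
  simp [𝒜.sym_crd a hy]

/-- (CURV5), with (CURV3) as a hypothesis -/
theorem dense_curves_of [T2Space X] [CompactSpace X] [IsManifold 𝓘(ℂ, ℂ × ℂ) ω X] {p : Y → X}
    (hp : IsQuotientCoveringMap p G) (𝒜 : Atl G Y)
    [ContinuousConstSMul G Y] [T2Space Y] [ConnectedSpace Y] [Countable G]
    (Φ : Y → ℂ) (hΦ : ∀ a, DifferentiableOn ℂ (Φ ∘ 𝒜.sym a) (ball 0 (5 / 4)))
    (hne : ∃ y y', Φ y ≠ Φ y') (R : 𝒜.Idx → ℝ) (hR : Summable fun a => R a ^ 2)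
    (hosc : ∀ a, ∀ z : E, ‖z‖ ≤ 1 → ‖Φ (𝒜.sym a z) - Φ (𝒜.sym a 0)‖ ≤ R a)
    (hcurv : ∀ ζ : ℂ, IsCompact (Φ ⁻¹' {ζ}) → IsCurve (p '' (Φ ⁻¹' {ζ}))) :
    Dense (⋃₀ {C : Set X | IsCurve C}) := by
  have hcont : Continuous Φ := continuous_holo 𝒜 Φ hΦ
  have hae := ae_finite_cells (fun a : 𝒜.Idx => Φ (𝒜.sym a 0)) R hR
  have hdense : Dense {ζ : ℂ | {a : 𝒜.Idx | ζ ∈ closedBall (Φ (𝒜.sym a 0)) (R a)}.Finite} :=
    Measure.dense_of_ae hae
  rw [dense_iff_inter_open]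
  intro U hU hU0
  have hV : IsOpen (p ⁻¹' U) := hU.preimage hp.isCoveringMap.continuous
  have hV0 : (p ⁻¹' U).Nonempty := by
    obtain ⟨x, hx⟩ := hU0
    obtain ⟨y, rfl⟩ := hp.surjective x
    exact ⟨y, hx⟩
  obtain ⟨ζ, hζ1, hζ2⟩ := hdense.inter_open_nonempty _ isOpen_interior
    (isOpen_image_holo 𝒜 Φ hΦ hne hV hV0)
  obtain ⟨y, hyU, hy⟩ := interior_subset hζ1
  have hK : IsCompact (Φ ⁻¹' {ζ}) := by
    have hfin : Set.Finite {a : 𝒜.Idx | ζ ∈ closedBall (Φ (𝒜.sym a 0)) (R a)} := hζ2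
    have hcomp : IsCompact (⋃ a ∈ {a : 𝒜.Idx | ζ ∈ closedBall (Φ (𝒜.sym a 0)) (R a)},
        𝒜.sym a '' closedBall (0 : E) 1) :=
      hfin.isCompact_biUnion fun a _ => 𝒜.isCompact_sym_image a (by norm_num)
    refine hcomp.of_isClosed_subset (isClosed_singleton.preimage hcont) ?_
    intro y' hy'
    obtain ⟨a, z, hz, rfl⟩ := 𝒜.exists_sym y'
    have hval : Φ (𝒜.sym a z) = ζ := hy'
    refine mem_biUnion (x := a) ?_ ⟨z, by simpa using hz.le, rfl⟩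
    show ζ ∈ closedBall (Φ (𝒜.sym a 0)) (R a)
    rw [mem_closedBall, dist_eq_norm, ← hval]
    exact hosc a z hz.le
  exact ⟨p y, hyU, mem_sUnion.2 ⟨p '' (Φ ⁻¹' {ζ}), hcurv ζ hK, ⟨y, hy, rfl⟩⟩⟩

end Sing
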