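import Pool.Agent.Work.MP_3893a0_gt.Defs

/-! Module GEO1: elementary facts on the atlas. -/

open scoped ContDiff Topology BoundedContinuousFunction
open MeasureTheory Metric Set Filter

set_option linter.unusedSectionVars false

noncomputable section

namespace Sing
namespace Atl

variable {G Y : Type*} [Group G] [TopologicalSpace Y] [MulAction G Y] (𝒜 : Atl G Y)

/-! ### charts (GEO1) -/

theorem symm_mem_source (i : Fin 𝒜.n) {z : E} (hz : ‖z‖ < 4) :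
    (𝒜.φ i).symm z ∈ (𝒜.φ i).source :=
  (𝒜.φ i).map_target (by rw [𝒜.target_eq]; simpa using hz)

theorem sym_mem_src (a : 𝒜.Idx) {z : E} (hz : ‖z‖ < 4) : 𝒜.sym a z ∈ 𝒜.src a := by
  simp only [src, sym, mem_ofPred_eq, inv_smul_smul]
  exact 𝒜.symm_mem_source a.2 hz

theorem crd_sym (a : 𝒜.Idx) {z : E} (hz : ‖z‖ < 4) : 𝒜.crd a (𝒜.sym a z) = z := by
  simp only [crd, sym, inv_smul_smul]
  exact (𝒜.φ a.2).right_inv (by rw [𝒜.target_eq]; simpa using hz)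

theorem sym_crd (a : 𝒜.Idx) {y : Y} (hy : y ∈ 𝒜.src a) : 𝒜.sym a (𝒜.crd a y) = y := by
  simp only [crd, sym]
  rw [(𝒜.φ a.2).left_inv hy, smul_inv_smul]

theorem norm_crd_lt (a : 𝒜.Idx) {y : Y} (hy : y ∈ 𝒜.src a) : ‖𝒜.crd a y‖ < 4 := by
  have h := (𝒜.φ a.2).map_source hy
  rw [𝒜.target_eq] at h
  exact mem_ball_zero_iff.1 h

theorem sym_smul (g : G) (a : 𝒜.Idx) (z : E) : 𝒜.sym (g * a.1, a.2) z = g • 𝒜.sym a z := by
  simp only [sym, mul_smul]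

theorem mem_src_smul (g : G) (a : 𝒜.Idx) (y : Y) :
    g • y ∈ 𝒜.src (g * a.1, a.2) ↔ y ∈ 𝒜.src a := by
  simp only [src, mem_ofPred_eq, mul_inv_rev, mul_smul, inv_smul_smul]

theorem crd_smul (g : G) (a : 𝒜.Idx) (y : Y) : 𝒜.crd (g * a.1, a.2) (g • y) = 𝒜.crd a y := by
  simp only [crd, mul_inv_rev, mul_smul, inv_smul_smul]

theorem ext_smul {V : Type*} [Zero V] (g : G) (a : 𝒜.Idx) (F : E → V) (y : Y) :
    𝒜.ext (g * a.1, a.2) F (g • y) = 𝒜.ext a F y := by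
  by_cases h : y ∈ 𝒜.src a
  · rw [ext, ext, if_pos h, if_pos ((𝒜.mem_src_smul g a y).2 h), crd_smul]
  · rw [ext, ext, if_neg h, if_neg (fun h' => h ((𝒜.mem_src_smul g a y).1 h'))]

theorem ext_sym {V : Type*} [Zero V] (a : 𝒜.Idx) (F : E → V) {z : E} (hz : ‖z‖ < 4) :
    𝒜.ext a F (𝒜.sym a z) = F z := by
  rw [ext, if_pos (𝒜.sym_mem_src a hz), crd_sym _ _ hz]

/-- every point is `sym a z` with `‖z‖ < 1` -/
theorem exists_sym (y : Y) : ∃ (a : 𝒜.Idx) (z : E), ‖z‖ < 1 ∧ 𝒜.sym a z = y := by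
  obtain ⟨i, g, h1, h2⟩ := 𝒜.cover y
  exact ⟨(g, i), 𝒜.crd (g, i) y, mem_ball_zero_iff.1 h2, 𝒜.sym_crd (g, i) h1⟩

/-- every point is `g • sym (1, i) z` with `‖z‖ < 1` -/
theorem exists_smul_sym (y : Y) :
    ∃ (g : G) (i : Fin 𝒜.n) (z : E), ‖z‖ < 1 ∧ g • 𝒜.sym (1, i) z = y := by
  obtain ⟨a, z, hz, h⟩ := 𝒜.exists_sym y
  refine ⟨a.1, a.2, z, hz, ?_⟩
  rw [← 𝒜.sym_smul a.1 (1, a.2) z]
  simpa using h

section top

variable [ContinuousConstSMul G Y]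

theorem isOpen_src (a : 𝒜.Idx) : IsOpen (𝒜.src a) :=
  (𝒜.φ a.2).open_source.preimage (continuous_const_smul a.1⁻¹)

theorem continuousOn_crd (a : 𝒜.Idx) : ContinuousOn (𝒜.crd a) (𝒜.src a) :=
  (𝒜.φ a.2).continuousOn.comp (continuous_const_smul a.1⁻¹).continuousOn (fun _ hy => hy)

theorem continuousOn_sym (a : 𝒜.Idx) : ContinuousOn (𝒜.sym a) (ball 0 4) := by
  have h := (𝒜.φ a.2).continuousOn_symm
  rw [𝒜.target_eq] at h
  exact (continuous_const_smul a.1).comp_continuousOn h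

theorem sym_image_eq (a : 𝒜.Idx) {s : Set E} (hs4 : s ⊆ ball 0 4) :
    𝒜.sym a '' s = 𝒜.src a ∩ 𝒜.crd a ⁻¹' s := by
  ext y
  constructor
  · rintro ⟨z, hz, rfl⟩
    have hz4 : ‖z‖ < 4 := by simpa using hs4 hz
    exact ⟨𝒜.sym_mem_src a hz4, by rw [mem_preimage, 𝒜.crd_sym a hz4]; exact hz⟩
  · rintro ⟨h1, h2⟩
    exact ⟨𝒜.crd a y, h2, 𝒜.sym_crd a h1⟩

theorem isOpen_sym_image (a : 𝒜.Idx) {s : Set E} (hs : IsOpen s) (hs4 : s ⊆ ball 0 4) :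
    IsOpen (𝒜.sym a '' s) := by
  rw [𝒜.sym_image_eq a hs4]
  exact (𝒜.continuousOn_crd a).isOpen_inter_preimage (𝒜.isOpen_src a) hs

theorem isCompact_sym_image (a : 𝒜.Idx) {r : ℝ} (hr : r < 4) :
    IsCompact (𝒜.sym a '' closedBall (0 : E) r) :=
  (isCompact_closedBall 0 r).image_of_continuousOn
    ((𝒜.continuousOn_sym a).mono (closedBall_subset_ball hr))

theorem isCompact_dom : IsCompact 𝒜.dom :=
  isCompact_iUnion fun i => 𝒜.isCompact_sym_image (1, i) (by norm_num)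

theorem exists_mem_dom (y : Y) : ∃ g : G, g • y ∈ 𝒜.dom := by
  obtain ⟨g, i, z, hz, h⟩ := 𝒜.exists_smul_sym y
  refine ⟨g⁻¹, mem_iUnion.2 ⟨i, z, ?_, ?_⟩⟩
  · simpa using hz.le
  · rw [← h, inv_smul_smul]

theorem cell_eq (a : 𝒜.Idx) : 𝒜.cell a = 𝒜.sym a '' closedBall (0 : E) 3 := by
  rw [𝒜.sym_image_eq a (closedBall_subset_ball (by norm_num))]
  ext y
  simp [cell]

theorem isClosed_cell [T2Space Y] (a : 𝒜.Idx) : IsClosed (𝒜.cell a) := by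
  rw [cell_eq]
  exact (𝒜.isCompact_sym_image a (by norm_num)).isClosed

/-- the cells meeting `sym b (closedBall 0 3)` are finitely many, with a bound depending on
`b.2` only -/
theorem exists_finset_cell : ∃ N : ℕ, ∀ b : 𝒜.Idx, ∃ s : Finset 𝒜.Idx,
    (∀ a, ∀ z ∈ closedBall (0 : E) 3, 𝒜.sym b z ∈ 𝒜.cell a → a ∈ s) ∧ s.card ≤ N := by
  classical
  let F : Fin 𝒜.n → Fin 𝒜.n → Finset G := fun i j => (𝒜.proper i j).toFinset
  refine ⟨∑ i, ∑ j, (F i j).card, fun b => ?_⟩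
  refine ⟨(Finset.univ.biUnion fun j => (F b.2 j).image fun g => ((b.1 * g, j) : 𝒜.Idx)),
    ?_, ?_⟩
  · intro a z hz ha
    rw [cell_eq] at ha
    obtain ⟨w, hw, hwz⟩ := ha
    simp only [Finset.mem_biUnion, Finset.mem_univ, true_and, Finset.mem_image]
    refine ⟨a.2, b.1⁻¹ * a.1, ?_, by simp⟩
    simp only [F, Set.Finite.mem_toFinset, mem_ofPred_eq]
    refine ⟨z, hz, w, hw, ?_⟩
    have : a.1 • (𝒜.φ a.2).symm w = b.1 • (𝒜.φ b.2).symm z := hwz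
    rw [mul_smul, this, inv_smul_smul]
  · calc _ ≤ ∑ j, ((F b.2 j).image fun g => ((b.1 * g, j) : 𝒜.Idx)).card :=
          Finset.card_biUnion_le
      _ ≤ ∑ j, (F b.2 j).card := Finset.sum_le_sum fun j _ => Finset.card_image_le
      _ ≤ ∑ i, ∑ j, (F i j).card :=
          Finset.single_le_sum (f := fun i => ∑ j, (F i j).card)
            (fun _ _ => Nat.zero_le _) (Finset.mem_univ b.2)

theorem locFin (y : Y) : ∃ U ∈ 𝓝 y, {a : 𝒜.Idx | (U ∩ 𝒜.cell a).Nonempty}.Finite := by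
  obtain ⟨b, z, hz, rfl⟩ := 𝒜.exists_sym y
  obtain ⟨N, hN⟩ := 𝒜.exists_finset_cell
  obtain ⟨s, hs, -⟩ := hN b
  refine ⟨𝒜.sym b '' ball 0 3, ?_, s.finite_toSet.subset ?_⟩
  · refine (𝒜.isOpen_sym_image b isOpen_ball (ball_subset_ball (by norm_num))).mem_nhds
      ⟨z, ?_, rfl⟩
    simp only [mem_ball_zero_iff]
    linarith
  · rintro a ⟨y, ⟨w, hw, rfl⟩, hy⟩
    exact hs a w (ball_subset_closedBall hw) hy

/-- uniform bound on the number of cells through a point -/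
theorem cell_bound (y : Y) : ∃ s : Finset 𝒜.Idx,
    (∀ a, y ∈ 𝒜.cell a → a ∈ s) ∧ s.card ≤ 𝒜.N := by
  have hne : {N : ℕ | ∀ y : Y, ∃ s : Finset 𝒜.Idx,
      (∀ a, y ∈ 𝒜.cell a → a ∈ s) ∧ s.card ≤ N}.Nonempty := by
    obtain ⟨N, hN⟩ := 𝒜.exists_finset_cell
    refine ⟨N, fun y => ?_⟩
    obtain ⟨b, z, hz, rfl⟩ := 𝒜.exists_sym y
    obtain ⟨s, hs, hc⟩ := hN b
    refine ⟨s, fun a ha => hs a z ?_ ha, hc⟩
    simp only [mem_closedBall_zero_iff]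
    linarith
  exact Nat.sInf_mem hne y

end top

end Atl
end Sing
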