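import Pool.Agent.Work.MP_3893a0_gt.Defs
import Pool.Agent.Work.MP_3893a0_gt.Statement
import Pool.Agent.Work.MP_3893a0_gt.Geo1
import Pool.Agent.Work.MP_3893a0_gt.Geo2
import Pool.Agent.Work.MP_3893a0_gt.Atl12
import Pool.Agent.Work.MP_3893a0_gt.Curv24
import Pool.Agent.Work.MP_3893a0_gt.Curv5

/-! MP_3893a0_gt, CURV3: a compact level set projects onto a compact curve. -/

open scoped ContDiff Topology Manifold
open MeasureTheory Metric Set Filter

noncomputable section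

namespace Sing

variable {G X Y : Type*} [Group G] [TopologicalSpace Y] [MulAction G Y]
  [TopologicalSpace X] [ChartedSpace (ℂ × ℂ) X]

/-- a finite union of closed sets with empty interior has dense complement -/
theorem dense_compl_iUnion {Z : Type*} [TopologicalSpace Z] {ι : Type*} (s : Finset ι)
    (A : ι → Set Z) (hc : ∀ i, IsClosed (A i)) (hd : ∀ i, Dense (A i)ᶜ) :
    Dense (⋃ i ∈ s, A i)ᶜ := by
  classical
  induction s using Finset.induction_on with
  | empty => simp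
  | insert a s ha ih =>
    rw [Finset.set_biUnion_insert, compl_union]
    exact (hd a).inter_of_isOpen_left ih (hc a).isOpen_compl

/-- (CURV3) a compact level set of `Φ` projects onto a compact curve -/
theorem isCurve_image [T2Space X] [CompactSpace X] [IsManifold 𝓘(ℂ, ℂ × ℂ) ω X] {p : Y → X}
    (hp : IsQuotientCoveringMap p G) (𝒜 : Atl G Y) (h𝒜 : Compat 𝒜 p)
    [ContinuousConstSMul G Y] [T2Space Y] [ConnectedSpace Y]
    (Φ : Y → ℂ) (hΦ : ∀ a, DifferentiableOn ℂ (Φ ∘ 𝒜.sym a) (ball 0 (5 / 4)))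
    (hne : ∃ y y', Φ y ≠ Φ y') (ζ : ℂ) (hK : IsCompact (Φ ⁻¹' {ζ})) :
    IsCurve (p '' (Φ ⁻¹' {ζ})) := by
  have hcont : Continuous Φ := continuous_holo 𝒜 Φ hΦ
  have hpc : Continuous p := hp.isCoveringMap.continuous
  have hpo : IsOpenMap p := hp.isCoveringMap.isLocalHomeomorph.isOpenMap
  have : IsManifold 𝓘(ℂ, ℂ × ℂ) 1 X := IsManifold.of_le (n := ω) le_top
  refine ⟨(hK.image hpc).isClosed, ?_⟩
  intro x hx
  -- a point over `x` in the chart
  have hxc : ∃ (i : Fin 𝒜.n) (z : E), ‖z‖ < 1 ∧ p (𝒜.sym (1, i) z) = x := by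
    obtain ⟨y, -, rfl⟩ := hx
    obtain ⟨g, i, z, hz, h⟩ := 𝒜.exists_smul_sym y
    refine ⟨i, z, hz, ?_⟩
    rw [hp.apply_eq_iff_mem_orbit]
    exact ⟨g⁻¹, by simp [← h]⟩
  obtain ⟨i, z, hz, rfl⟩ := hxc
  obtain ⟨e, he, c, hc, z0, hform⟩ := h𝒜.form i
  have hL : IsCompact (𝒜.sym (1, i) '' closedBall (0 : E) 1) :=
    𝒜.isCompact_sym_image (1, i) (by norm_num)
  have hfin := finite_of_compact hp hL hK
  set F : Finset G := hfin.toFinset with hF
  set V : Set Y := 𝒜.sym (1, i) '' ball (0 : E) 1 with hV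
  have hVo : IsOpen V := 𝒜.isOpen_sym_image (1, i) isOpen_ball (ball_subset_ball (by norm_num))
  -- the local equation
  have hQd' : ∀ F : Finset G,
      DifferentiableOn ℂ (fun w => ∏ g ∈ F, (Φ (𝒜.sym (g, i) w) - ζ)) (ball 0 (5 / 4)) := by
    intro F
    classical
    induction F using Finset.induction_on with
    | empty => simp
    | insert g s hg ih =>
      simp only [Finset.prod_insert hg]
      exact ((hΦ (g, i)).sub_const ζ).mul ih
  set Q : E → ℂ := fun w => ∏ g ∈ F, (Φ (𝒜.sym (g, i) w) - ζ) with hQ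
  have hQd : DifferentiableOn ℂ Q (ball 0 (5 / 4)) := hQd' F
  set f : X → ℂ := fun x' => Q (c • (e x' - z0)) with hf
  have hfp : ∀ w : E, ‖w‖ < 4 → p (𝒜.sym (1, i) w) ∈ e.source ∧
      c • (e (p (𝒜.sym (1, i) w)) - z0) = w := by
    intro w hw
    have h1 : 𝒜.sym (1, i) w ∈ (𝒜.φ i).source := by
      have := 𝒜.sym_mem_src (1, i) hw
      simpa [Atl.src] using this
    obtain ⟨h2, h3⟩ := hform _ h1
    refine ⟨h2, ?_⟩
    rw [← h3]
    have := 𝒜.crd_sym (1, i) hw
    simpa [Atl.crd] using this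
  have hQ0 : ∀ w : E, ‖w‖ < 1 → (Q w = 0 ↔ p (𝒜.sym (1, i) w) ∈ p '' (Φ ⁻¹' {ζ})) := by
    intro w hw
    rw [hQ]
    simp only [Finset.prod_eq_zero_iff]
    constructor
    · rintro ⟨g, -, hg⟩
      refine ⟨𝒜.sym (g, i) w, sub_eq_zero.1 hg, ?_⟩
      rw [hp.apply_eq_iff_mem_orbit]
      refine ⟨g, ?_⟩
      have := 𝒜.sym_smul g (1, i) w
      simpa using this.symm
    · rintro ⟨k, hk, hkp⟩
      rw [hp.apply_eq_iff_mem_orbit] at hkp
      obtain ⟨g, hg⟩ := hkp
      have hg' : g • 𝒜.sym (1, i) w = k := hg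
      have hs : 𝒜.sym (g, i) w = k := by
        have := 𝒜.sym_smul g (1, i) w
        simp only [mul_one] at this
        rw [this, hg']
      refine ⟨g, ?_, ?_⟩
      · rw [hF, Set.Finite.mem_toFinset]
        exact ⟨𝒜.sym (1, i) w, ⟨w, by simpa using hw.le, rfl⟩, k, hk, hg'⟩
      · rw [hs, sub_eq_zero]
        exact hk
  refine ⟨p '' V, hpo V hVo, ⟨_, ⟨z, by simpa using hz, rfl⟩, rfl⟩, f, ?_, ?_, ?_⟩
  · -- holomorphic
    have h1 : MDifferentiableOn 𝓘(ℂ, ℂ × ℂ) 𝓘(ℂ, ℂ × ℂ) e e.source :=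
      mdifferentiableOn_atlas he
    have h2 : DifferentiableOn ℂ (fun w : ℂ × ℂ => Q (c • (w - z0)))
        {w | c • (w - z0) ∈ ball (0 : E) (5 / 4)} := by
      have h3 : DifferentiableOn ℂ (fun w : ℂ × ℂ => c • (w - z0))
          {w | c • (w - z0) ∈ ball (0 : E) (5 / 4)} := by fun_prop
      exact hQd.comp h3 (fun w hw => hw)
    refine (h2.mdifferentiableOn.comp (h1.mono (s := p '' V) ?_) ?_)
    · rintro _ ⟨_, ⟨w, hw, rfl⟩, rfl⟩
      exact (hfp w (by rw [mem_ball_zero_iff] at hw; linarith)).1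
    · rintro _ ⟨_, ⟨w, hw, rfl⟩, rfl⟩
      rw [mem_ball_zero_iff] at hw
      show c • (e (p (𝒜.sym (1, i) w)) - z0) ∈ ball (0 : E) (5 / 4)
      rw [(hfp w (by linarith)).2, mem_ball_zero_iff]
      linarith
  · -- not identically zero
    intro h0
    have h1 : ∀ᶠ y in 𝓝 (𝒜.sym (1, i) z), f (p y) = 0 := (hpc.tendsto _).eventually h0
    have h2 : ∀ᶠ y in 𝓝 (𝒜.sym (1, i) z), y ∈ V :=
      hVo.mem_nhds ⟨z, by simpa using hz, rfl⟩
    have hd : Dense (⋃ g ∈ F, {y : Y | Φ (g • y) = ζ})ᶜ := by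
      apply dense_compl_iUnion
      · intro g
        exact isClosed_eq (hcont.comp (continuous_const_smul g)) continuous_const
      · intro g
        rw [← interior_eq_empty_iff_dense_compl]
        by_contra hne'
        obtain ⟨y, hy⟩ := nonempty_iff_ne_empty.2 hne'
        rw [mem_interior_iff_mem_nhds] at hy
        refine nonconst_near 𝒜 Φ hΦ hne (g • y) ζ ?_
        have h3 : Tendsto (fun y' => g⁻¹ • y') (𝓝 (g • y)) (𝓝 y) := by
          have := (continuous_const_smul (g⁻¹ : G)).tendsto (g • y)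
          simpa using this
        filter_upwards [h3.eventually hy] with y' hy'
        simpa using hy'
    obtain ⟨y, hy1, hy2⟩ := hd.inter_nhds_nonempty (h1.and h2)
    obtain ⟨hy3, w, hw, rfl⟩ := hy2
    rw [mem_ball_zero_iff] at hw
    simp only [hf] at hy3
    rw [(hfp w (by linarith)).2] at hy3
    rw [hQ] at hy3
    simp only [Finset.prod_eq_zero_iff] at hy3
    obtain ⟨g, hg, hg0⟩ := hy3
    apply hy1
    simp only [mem_iUnion]
    refine ⟨g, hg, ?_⟩
    have := 𝒜.sym_smul g (1, i) w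
    simp only [mul_one] at this
    show Φ (g • 𝒜.sym (1, i) w) = ζ
    rw [← this]
    exact sub_eq_zero.1 hg0
  · ext x'
    constructor
    · rintro ⟨h1, h2⟩
      refine ⟨h2, ?_⟩
      obtain ⟨_, ⟨w, hw, rfl⟩, rfl⟩ := h2
      rw [mem_ball_zero_iff] at hw
      simp only [hf]
      rw [(hfp w (by linarith)).2]
      exact (hQ0 w hw).2 h1
    · rintro ⟨h2, h1⟩
      refine ⟨?_, h2⟩
      obtain ⟨_, ⟨w, hw, rfl⟩, rfl⟩ := h2
      rw [mem_ball_zero_iff] at hw
      simp only [hf] at h1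
      rw [(hfp w (by linarith)).2] at h1
      exact (hQ0 w hw).1 h1

end Sing
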