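import Pool.Agent.Work.MP_3893a0_gt.Curv3
import Pool.Agent.Work.MP_3893a0_gt.Curv5

/-! Module CURV: density of compact curves (CURV5, final form). -/

open scoped ContDiff Topology Manifold
open MeasureTheory Metric Set Filter

noncomputable section

namespace Sing

variable {G X Y : Type*} [Group G] [TopologicalSpace Y] [MulAction G Y]
  [TopologicalSpace X] [ChartedSpace (ℂ × ℂ) X]

/-- (CURV5) -/
theorem dense_curves [T2Space X] [CompactSpace X] [IsManifold 𝓘(ℂ, ℂ × ℂ) ω X] {p : Y → X}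
    (hp : IsQuotientCoveringMap p G) (𝒜 : Atl G Y) (h𝒜 : Compat 𝒜 p)
    [ContinuousConstSMul G Y] [T2Space Y] [ConnectedSpace Y] [Countable G]
    (Φ : Y → ℂ) (hΦ : ∀ a, DifferentiableOn ℂ (Φ ∘ 𝒜.sym a) (ball 0 (5 / 4)))
    (hne : ∃ y y', Φ y ≠ Φ y') (R : 𝒜.Idx → ℝ) (hR : Summable fun a => R a ^ 2)
    (hosc : ∀ a, ∀ z : E, ‖z‖ ≤ 1 → ‖Φ (𝒜.sym a z) - Φ (𝒜.sym a 0)‖ ≤ R a) :
    Dense (⋃₀ {C : Set X | IsCurve C}) :=
  dense_curves_of hp 𝒜 Φ hΦ hne R hR hosc fun ζ hK => isCurve_image hp 𝒜 h𝒜 Φ hΦ hne ζ hK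

end Sing
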