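import Mathlib

/-!
# MP_3893a0_gt : common definitions

* `Sing.E = ℂ × ℂ`, Levi forms `levB`, the chart operator `Pc`, `MAdet`.
* `Sing.Atl G Y` : a finite `G`-equivariant holomorphic atlas on `Y` (charts with target `ball 0 4`).
* `Sing.LocPar` : a local (Levi) parametrix with positive kernel.
* group side: Dirichlet finite functions.
-/

open scoped ContDiff Topology BoundedContinuousFunction
open MeasureTheory Metric Set Filter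

noncomputable section

namespace Sing

/-- the model space, complex dimension two (with the sup norm) -/
abbrev E := ℂ × ℂ

def e1 : E := (1, 0)
def e2 : E := (0, 1)

section Levi

variable {V : Type*} [NormedAddCommGroup V] [NormedSpace ℝ V]

/-- `D²f(v,w) + D²f(iv,iw)` -/
def levB (f : E → V) (z v w : E) : V :=
  fderiv ℝ (fderiv ℝ f) z v w + fderiv ℝ (fderiv ℝ f) z (Complex.I • v) (Complex.I • w)

/-- Hermitian coefficients on the ball of radius `4`: the matrix `(a11, c; c̄, a22)`. -/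
structure LocCoef where
  a11 : E → ℝ
  a22 : E → ℝ
  c : E → ℂ
  smooth11 : ContDiffOn ℝ ∞ a11 (ball 0 4)
  smooth22 : ContDiffOn ℝ ∞ a22 (ball 0 4)
  smoothc : ContDiffOn ℝ ∞ c (ball 0 4)
  pos : ∀ z ∈ ball (0 : E) 4, 0 < a11 z
  det_pos : ∀ z ∈ ball (0 : E) 4, 0 < a11 z * a22 z - ‖c z‖ ^ 2

/-- the operator `P = Λ i∂∂̄` in a chart -/
def Pc (A : LocCoef) (f : E → V) (z : E) : V :=
  A.a11 z • levB f z e1 e1 + A.a22 z • levB f z e2 e2 +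
    (2 * (A.c z).re) • levB f z e1 e2 + (2 * (A.c z).im) • levB f z e1 (Complex.I • e2)

/-- transformation law of the Hermitian coefficients under a holomorphic change of coordinates
`τ` at the point `z` (`B = J A J^*`, `J = dτ_z`) -/
def CoefRel (A B : LocCoef) (τ : E → E) (z : E) : Prop :=
  let p := (fderiv ℂ τ z e1).1
  let r := (fderiv ℂ τ z e1).2
  let q := (fderiv ℂ τ z e2).1
  let s := (fderiv ℂ τ z e2).2
  B.a11 (τ z) = ‖p‖ ^ 2 * A.a11 z + ‖q‖ ^ 2 * A.a22 z +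
      2 * (starRingEnd ℂ p * q * A.c z).re ∧
  B.a22 (τ z) = ‖r‖ ^ 2 * A.a11 z + ‖s‖ ^ 2 * A.a22 z +
      2 * (starRingEnd ℂ r * s * A.c z).re ∧
  B.c (τ z) = starRingEnd ℂ p * r * (A.a11 z : ℂ) + starRingEnd ℂ q * s * (A.a22 z : ℂ) +
      starRingEnd ℂ p * s * A.c z + starRingEnd ℂ q * r * starRingEnd ℂ (A.c z)

/-- the determinant of the complex Hessian (times 16) of a function with values in a real
inner product space -/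
def MAdet {H : Type*} [NormedAddCommGroup H] [InnerProductSpace ℝ H] (f : E → H) (z : E) : ℝ :=
  inner ℝ (levB f z e1 e1) (levB f z e2 e2) - ‖levB f z e1 e2‖ ^ 2 -
    ‖levB f z e1 (Complex.I • e2)‖ ^ 2

end Levi

/-! ## Atlases -/

/-- A finite `G`-equivariant holomorphic atlas: charts `φ i` of `Y` with target `ball 0 4`, whose
`G`-translates of the balls of radius `1` cover `Y`. The chart `a = (g, i)` is `y ↦ φ i (g⁻¹ • y)`. -/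
structure Atl (G Y : Type*) [Group G] [TopologicalSpace Y] [MulAction G Y] where
  n : ℕ
  φ : Fin n → OpenPartialHomeomorph Y E
  target_eq : ∀ i, (φ i).target = ball 0 4
  cover : ∀ y : Y, ∃ (i : Fin n) (g : G),
    g⁻¹ • y ∈ (φ i).source ∧ φ i (g⁻¹ • y) ∈ ball (0 : E) 1
  holo : ∀ (i j : Fin n) (g : G), DifferentiableOn ℂ (fun z => φ j (g⁻¹ • (φ i).symm z))
    {z ∈ ball (0 : E) 4 | g⁻¹ • (φ i).symm z ∈ (φ j).source}
  proper : ∀ i j : Fin n, {g : G | ∃ z ∈ closedBall (0 : E) 3, ∃ w ∈ closedBall (0 : E) 3,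
    g • (φ j).symm w = (φ i).symm z}.Finite

namespace Atl

variable {G Y : Type*} [Group G] [TopologicalSpace Y] [MulAction G Y] (𝒜 : Atl G Y)

/-- index set of the charts -/
abbrev Idx := G × Fin 𝒜.n

/-- inverse chart -/
def sym (a : 𝒜.Idx) (w : E) : Y := a.1 • (𝒜.φ a.2).symm w

/-- domain of the chart `a` -/
def src (a : 𝒜.Idx) : Set Y := {y | a.1⁻¹ • y ∈ (𝒜.φ a.2).source}

/-- coordinate in the chart `a` -/
def crd (a : 𝒜.Idx) (y : Y) : E := 𝒜.φ a.2 (a.1⁻¹ • y)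

open Classical in
/-- push forward of a function on `ball 0 4` by the chart `a`, extended by zero -/
def ext {V : Type*} [Zero V] (a : 𝒜.Idx) (F : E → V) (y : Y) : V :=
  if y ∈ 𝒜.src a then F (𝒜.crd a y) else 0

/-- smooth functions on `Y` -/
def Sm {V : Type*} [NormedAddCommGroup V] [NormedSpace ℝ V] (u : Y → V) : Prop :=
  ∀ a : 𝒜.Idx, ContDiffOn ℝ ∞ (u ∘ 𝒜.sym a) (ball 0 4)

/-- a smooth `G`-invariant partition of unity given in the charts -/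
structure Pou where
  χ : Fin 𝒜.n → E → ℝ
  smooth : ∀ i, ContDiff ℝ ∞ (χ i)
  nonneg : ∀ i z, 0 ≤ χ i z
  supp : ∀ i z, χ i z ≠ 0 → ‖z‖ ≤ 2
  lower : ∃ c > 0, ∀ i, ∀ z : E, ‖z‖ ≤ 3 / 2 → c ≤ χ i z
  sum_eq : ∀ y : Y, ∑ᶠ a : 𝒜.Idx, 𝒜.ext a (χ a.2) y = 1

/-- a `G`-invariant operator `P`, given by its coefficients in the charts -/
structure Met where
  A : Fin 𝒜.n → LocCoef
  /-- invariance under the change of charts from `i` to `(g, j)` -/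
  inv : ∀ (i j : Fin 𝒜.n) (g : G) (z : E), z ∈ ball (0 : E) 4 →
    g⁻¹ • (𝒜.φ i).symm z ∈ (𝒜.φ j).source →
    CoefRel (A i) (A j) (fun z' => 𝒜.φ j (g⁻¹ • (𝒜.φ i).symm z')) z

/-- integral operator with kernels `κ i` -/
def Op {V : Type*} [NormedAddCommGroup V] [NormedSpace ℝ V]
    (κ : Fin 𝒜.n → E → E → ℝ) (g : Y → V) (y : Y) : V :=
  ∑ᶠ a : 𝒜.Idx, 𝒜.ext a
    (fun ξ => ∫ w in closedBall (0 : E) 2, κ a.2 ξ w • g (𝒜.sym a w)) y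

/-- compact fundamental domain -/
def dom : Set Y := ⋃ i : Fin 𝒜.n, 𝒜.sym (1, i) '' closedBall (0 : E) 1

/-- the closed set where a function `ext a F`, `F` supported in `‖·‖ ≤ 3`, lives -/
def cell (a : 𝒜.Idx) : Set Y := {y | y ∈ 𝒜.src a ∧ ‖𝒜.crd a y‖ ≤ 3}

/-- bound for the number of cells through a point (see `cell_bound`) -/
def N : ℕ := sInf {N : ℕ | ∀ y : Y, ∃ s : Finset 𝒜.Idx, (∀ a, y ∈ 𝒜.cell a → a ∈ s) ∧ s.card ≤ N}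

end Atl

/-! ## Local parametrix -/

/-- A right parametrix with positive remainder: `P_ξ k = t - m`, `m → χ·δ`, `t → t0 ≥ 0`. -/
structure LocPar (A : LocCoef) (χ : E → ℝ) where
  k : ℕ → E → E → ℝ
  t : ℕ → E → E → ℝ
  m : ℕ → E → E → ℝ
  k0 : E → E → ℝ
  t0 : E → E → ℝ
  k_smooth : ∀ n, ContDiff ℝ ∞ (fun p : E × E => k n p.1 p.2)
  k_supp : ∀ n ξ w, k n ξ w ≠ 0 → ‖ξ‖ ≤ 3 ∧ ‖w‖ ≤ 2
  k0_supp : ∀ ξ w, k0 ξ w ≠ 0 → ‖ξ‖ ≤ 3 ∧ ‖w‖ ≤ 2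
  k_eq : ∀ n ξ w, ‖ξ‖ < 4 → Pc A (fun x => k n x w) ξ = t n ξ w - m n ξ w
  t_cont : ∀ n, Continuous (fun p : E × E => t n p.1 p.2)
  m_cont : ∀ n, Continuous (fun p : E × E => m n p.1 p.2)
  t_supp : ∀ n ξ w, t n ξ w ≠ 0 → ‖ξ‖ ≤ 3 ∧ ‖w‖ ≤ 2
  m_supp : ∀ n ξ w, m n ξ w ≠ 0 → ‖ξ‖ ≤ 3 ∧ ‖w‖ ≤ 2
  t0_supp : ∀ ξ w, t0 ξ w ≠ 0 → ‖ξ‖ ≤ 3 ∧ ‖w‖ ≤ 2
  t0_nonneg : ∀ ξ w, 0 ≤ t0 ξ w
  m_nonneg : ∀ n ξ w, 0 ≤ m n ξ w
  k0_int : ∀ ξ, Integrable (k0 ξ)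
  t0_int : ∀ ξ, Integrable (t0 ξ)
  k_lim : ∀ ε > 0, ∀ᶠ n in atTop, ∀ ξ, ∫ w, |k n ξ w - k0 ξ w| ≤ ε
  t_lim : ∀ ε > 0, ∀ᶠ n in atTop, ∀ ξ, ∫ w, |t n ξ w - t0 ξ w| ≤ ε
  m_mass : ∀ ε > 0, ∀ᶠ n in atTop, ∀ ξ, |(∫ w, m n ξ w) - χ ξ| ≤ ε
  m_conc : ∀ ρ > 0, ∀ ε > 0, ∀ᶠ n in atTop, ∀ ξ, ∫ w in {w | ρ ≤ dist ξ w}, m n ξ w ≤ ε
  t0_lower : ∃ c > 0, ∃ r > 0, ∀ ξ : E, ‖ξ‖ ≤ 1 → ∀ w ∈ ball ξ r, w ≠ ξ → c ≤ t0 ξ w

/-! ## The kit: interface between the global operators and the soft functional analysis -/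

section KitSec

variable {G Y : Type*} [Group G] [TopologicalSpace Y] [MulAction G Y]

/-- What the soft functional analysis needs. `T` acts on real functions, `TH` on `H`-valued ones,
`KH n` are the regularized parametrices. -/
structure Kit (𝒜 : Atl G Y) (M : 𝒜.Met) (H : Type*) [NormedAddCommGroup H]
    [InnerProductSpace ℝ H] (ρ : G →* (H ≃ₗᵢ[ℝ] H)) where
  T : (Y →ᵇ ℝ) →L[ℝ] (Y →ᵇ ℝ)
  TH : (Y →ᵇ H) →L[ℝ] (Y →ᵇ H)
  KH : ℕ → (Y →ᵇ H) → (Y → H)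
  T_pos : ∀ f : Y →ᵇ ℝ, (∀ y, 0 ≤ f y) → ∀ y, 0 ≤ T f y
  T_TH : ∀ (v : Y →ᵇ H) (e : H) (f : Y →ᵇ ℝ), (∀ y, f y = inner ℝ (v y) e) →
    ∀ y, T f y = inner ℝ (TH v y) e
  T_inv : ∀ (g : G) (f f' : Y →ᵇ ℝ), (∀ y, f' y = f (g • y)) → ∀ y, T f' y = T f (g • y)
  TH_equi : ∀ v : Y →ᵇ H, (∀ g y, v (g • y) = ρ g (v y)) → ∀ g y, TH v (g • y) = ρ g (TH v y)
  T_lower : ∃ c > 0, ∃ r > 0, r < 1 ∧ ∀ (a : 𝒜.Idx) (ξ : E), ‖ξ‖ ≤ 1 → ∀ f : Y →ᵇ ℝ,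
    (∀ y, 0 ≤ f y) → c * ∫ w in ball ξ r, f (𝒜.sym a w) ≤ T f (𝒜.sym a ξ)
  T_compact : ∀ f : ℕ → (Y →ᵇ ℝ), (∀ n (g : G) (y : Y), f n (g • y) = f n y) → (∀ n, ‖f n‖ ≤ 1) →
    ∃ (F : Y →ᵇ ℝ) (s : ℕ → ℕ), StrictMono s ∧ Tendsto (fun n => T (f (s n))) atTop (𝓝 F)
  T_max : ∀ f : Y →ᵇ ℝ, (∀ (g : G) (y : Y), f (g • y) = f y) → ∀ ε > 0, ¬ ∀ y, ε ≤ T f y - f y
  KH_smooth : ∀ n v, 𝒜.Sm (KH n v)
  KH_equi : ∀ n (v : Y →ᵇ H), (∀ g y, v (g • y) = ρ g (v y)) →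
    ∀ g y, KH n v (g • y) = ρ g (KH n v y)
  KH_lim : ∀ v, ∃ w : Y → H, TendstoUniformly (fun n => KH n v) w atTop
  KH_P : ∀ v : Y →ᵇ H, (∀ g y, v (g • y) = ρ g (v y)) → ∀ ε > 0, ∀ᶠ n in atTop,
    ∀ i, ∀ z : E, ‖z‖ < 4 → ‖Pc (M.A i) (KH n v ∘ 𝒜.sym (1, i)) z + v (𝒜.sym (1, i) z)
      - TH v (𝒜.sym (1, i) z)‖ ≤ ε

end KitSec

/-- polarized determinant of `lev χ` and the Hermitian form `∂u ⊗ ∂̄u` -/
def Dp {H : Type*} [NormedAddCommGroup H] [InnerProductSpace ℝ H] (χ : E → ℝ) (u : E → H)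
    (z : E) : ℝ :=
  levB χ z e1 e1 * (‖fderiv ℝ u z e2‖ ^ 2 + ‖fderiv ℝ u z (Complex.I • e2)‖ ^ 2) +
  levB χ z e2 e2 * (‖fderiv ℝ u z e1‖ ^ 2 + ‖fderiv ℝ u z (Complex.I • e1)‖ ^ 2) -
  2 * levB χ z e1 e2 * (inner ℝ (fderiv ℝ u z e1) (fderiv ℝ u z e2) +
    inner ℝ (fderiv ℝ u z (Complex.I • e1)) (fderiv ℝ u z (Complex.I • e2))) -
  2 * levB χ z e1 (Complex.I • e2) * (inner ℝ (fderiv ℝ u z e1) (fderiv ℝ u z (Complex.I • e2)) -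
    inner ℝ (fderiv ℝ u z (Complex.I • e1)) (fderiv ℝ u z e2))

/-! ## Group side -/

section Grp

variable {G : Type*} [Group G]

/-- finite Dirichlet energy for the generating set `S` (right multiplication edges) -/
def DirFin (S : Finset G) (h : G → ℝ) : Prop :=
  Summable fun q : G × S => (h (q.1 * q.2) - h q.1) ^ 2

/-- harmonic for the Cayley graph -/
def Harm (S : Finset G) (h : G → ℝ) : Prop :=
  ∀ x : G, ∑ s ∈ S, (h (x * s) + h (x * s⁻¹) - 2 * h x) = 0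

/-- vanishing of the reduced first `ℓ²`-cohomology: every function with finite Dirichlet
energy is a limit, in energy, of finitely supported functions. -/
def RedVanish (S : Finset G) : Prop :=
  ∀ f : G → ℝ, DirFin S f → ∀ ε > 0, ∃ φ : G →₀ ℝ,
    ∑' q : G × S, ((f (q.1 * q.2) - φ (q.1 * q.2)) - (f q.1 - φ q.1)) ^ 2 < ε

/-- spectral gap of the right regular representation -/
def Gap (S : Finset G) : Prop :=
  ∃ c > 0, ∀ v : G → ℝ, (Summable fun x => v x ^ 2) →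
    c * ∑' x, v x ^ 2 ≤ ∑ s ∈ S, ∑' x, (v (x * s) - v x) ^ 2

/-- the Hilbert space `ℓ²(G)` -/
abbrev L2 (G : Type*) := lp (fun _ : G => ℝ) 2

end Grp

end Sing
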