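import Pool.Agent.Work.MP_3893a0_gt.Defs

/-! Module GLUE: from local conjugate functions to a global holomorphic function. -/

open scoped ContDiff Topology BoundedContinuousFunction
open MeasureTheory Metric Set Filter

noncomputable section

namespace Sing

/-- the real numbers with the discrete topology -/
@[ext] structure RDisc : Type where
  val : ℝ

instance : TopologicalSpace RDisc := ⊥
instance : DiscreteTopology RDisc := ⟨rfl⟩

/-- the bundle of local primitives -/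
def glueCore {Y : Type*} [TopologicalSpace Y] {ι : Type*} (U : ι → Set Y)
    (hU : ∀ i, IsOpen (U i)) (idx : Y → ι) (hidx : ∀ y, y ∈ U (idx y)) (f : ι → Y → ℝ)
    (hloc : ∀ i j, ∀ y ∈ U i ∩ U j, ∀ᶠ y' in 𝓝 y, f i y' - f j y' = f i y - f j y) :
    FiberBundleCore ι Y RDisc where
  baseSet := U
  isOpen_baseSet := hU
  indexAt := idx
  mem_baseSet_at := hidx
  coordChange i j y v := ⟨v.val + (f i y - f j y)⟩
  coordChange_self i x _ v := by
    ext
    simp
  continuousOn_coordChange i j := by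
    rintro ⟨y, v⟩ ⟨hy, -⟩
    apply ContinuousAt.continuousWithinAt
    rw [ContinuousAt, nhds_discrete RDisc, tendsto_pure, nhds_prod_eq, nhds_discrete RDisc]
    have h1 := (hloc i j y hy)
    filter_upwards [h1.prod_inl (pure v), (Filter.eventually_pure.2 rfl :
      ∀ᶠ w : RDisc in pure v, w = v).prod_inr (𝓝 y)] with p hp1 hp2
    rw [hp2, hp1]
  coordChange_comp i j k x _ v := by
    ext
    simp only
    ring

/-- (GLUE1) local functions which differ by locally constant functions glue on a simply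
connected space -/
theorem glue {Y : Type*} [TopologicalSpace Y] [SimplyConnectedSpace Y]
    [LocallyPathConnectedSpace Y] {ι : Type*} (U : ι → Set Y) (hU : ∀ i, IsOpen (U i))
    (hcov : ∀ y, ∃ i, y ∈ U i) (f : ι → Y → ℝ) (_hf : ∀ i, ContinuousOn (f i) (U i))
    (hloc : ∀ i j, ∀ y ∈ U i ∩ U j, ∀ᶠ y' in 𝓝 y, f i y' - f j y' = f i y - f j y) :
    ∃ F : Y → ℝ, ∀ i, ∀ y ∈ U i, ∀ᶠ y' in 𝓝 y, F y' - f i y' = F y - f i y := by
  choose idx hidx using hcov
  set Z := glueCore U hU idx hidx f hloc with hZ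
  have hcm : IsCoveringMap (Bundle.TotalSpace.proj : Z.TotalSpace → Y) :=
    FiberBundle.isCoveringMap (F := RDisc) (E := Z.Fiber)
  obtain ⟨y0⟩ : Nonempty Y := inferInstance
  obtain ⟨s, ⟨-, hs⟩, -⟩ := hcm.existsUnique_continuousMap_lifts (ContinuousMap.id Y) (a₀ := y0)
    (e₀ := (⟨y0, (⟨0⟩ : RDisc)⟩ : Z.TotalSpace)) rfl
  have hs1 : ∀ y, (s y).proj = y := fun y => congrFun hs y
  refine ⟨fun y => (show RDisc from (s y).snd).val + f (idx y) y, fun i y hy => ?_⟩
  have h3 : ContinuousAt (fun y' => ((Z.localTriv i) (s y')).2) y := by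
    have h4 : ContinuousAt (Z.localTriv i) (s y) := by
      apply (Z.localTriv i).continuousOn.continuousAt
      apply (Z.localTriv i).open_source.mem_nhds
      rw [Z.mem_localTriv_source, hs1 y]
      exact hy
    exact continuousAt_snd.comp (h4.comp s.continuous.continuousAt)
  rw [ContinuousAt, nhds_discrete RDisc, tendsto_pure] at h3
  filter_upwards [h3] with y' hy'
  have h5 := congrArg RDisc.val hy'
  have key : ∀ z : Y, ((Z.localTriv i) (s z)).2.val = (show RDisc from (s z).snd).val +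
      (f (idx z) z - f i z) := by
    intro z
    rw [Z.localTriv_apply]
    change (show RDisc from (s z).snd).val + (f (idx (s z).proj) (s z).proj - f i (s z).proj) = _
    rw [hs1 z]
  rw [key, key] at h5
  linarith

/-! ### elementary facts on charts (local copies) -/

section charts

variable {G Y : Type*} [Group G] [TopologicalSpace Y] [MulAction G Y] (𝒜 : Atl G Y)

private theorem glue_sym_mem (a : 𝒜.Idx) {z : E} (hz : z ∈ ball (0 : E) 4) :
    𝒜.sym a z ∈ 𝒜.src a := by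
  change a.1⁻¹ • a.1 • (𝒜.φ a.2).symm z ∈ (𝒜.φ a.2).source
  rw [inv_smul_smul]
  exact (𝒜.φ a.2).map_target (by rw [𝒜.target_eq]; exact hz)

private theorem glue_crd_sym (a : 𝒜.Idx) {z : E} (hz : z ∈ ball (0 : E) 4) :
    𝒜.crd a (𝒜.sym a z) = z := by
  change 𝒜.φ a.2 (a.1⁻¹ • a.1 • (𝒜.φ a.2).symm z) = z
  rw [inv_smul_smul]
  exact (𝒜.φ a.2).right_inv (by rw [𝒜.target_eq]; exact hz)

private theorem glue_sym_crd (a : 𝒜.Idx) {y : Y} (hy : y ∈ 𝒜.src a) :
    𝒜.sym a (𝒜.crd a y) = y := by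
  change a.1 • (𝒜.φ a.2).symm (𝒜.φ a.2 (a.1⁻¹ • y)) = y
  rw [(𝒜.φ a.2).left_inv hy, smul_inv_smul]

private theorem glue_isOpen_src [ContinuousConstSMul G Y] (a : 𝒜.Idx) : IsOpen (𝒜.src a) :=
  (𝒜.φ a.2).open_source.preimage (continuous_const_smul a.1⁻¹)

private theorem glue_cont_crd [ContinuousConstSMul G Y] (a : 𝒜.Idx) :
    ContinuousOn (𝒜.crd a) (𝒜.src a) :=
  (𝒜.φ a.2).continuousOn.comp (continuous_const_smul a.1⁻¹).continuousOn (fun _ h => h)

private theorem glue_cont_sym [ContinuousConstSMul G Y] (a : 𝒜.Idx) :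
    ContinuousOn (𝒜.sym a) (ball 0 4) := by
  have h := (𝒜.φ a.2).continuousOn_symm
  rw [𝒜.target_eq] at h
  exact (continuous_const_smul a.1).comp_continuousOn h

/-- the transition map is holomorphic -/
private theorem glue_trans (a b : 𝒜.Idx) : DifferentiableOn ℂ (fun z => 𝒜.crd b (𝒜.sym a z))
    {z ∈ ball (0 : E) 4 | 𝒜.sym a z ∈ 𝒜.src b} := by
  have h := 𝒜.holo a.2 b.2 (a.1⁻¹ * b.1)
  have e : ∀ z : E, (a.1⁻¹ * b.1)⁻¹ • (𝒜.φ a.2).symm z = b.1⁻¹ • 𝒜.sym a z := by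
    intro z
    change _ = b.1⁻¹ • a.1 • (𝒜.φ a.2).symm z
    rw [smul_smul]
    congr 1
    group
  simp only [e] at h
  exact h

end charts

/-- a holomorphic function with constant real part on a ball is constant -/
private theorem const_of_re {D : E → ℂ} {z0 : E} {r : ℝ} (hD : DifferentiableOn ℂ D (ball z0 r))
    (hre : ∀ z ∈ ball z0 r, (D z).re = 0) : ∀ z ∈ ball z0 r, D z = D z0 := by
  intro z hz
  have hz0 : z0 ∈ ball z0 r := mem_ball_self (pos_of_mem_ball hz)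
  refine (convex_ball z0 r).is_const_of_fderivWithin_eq_zero (𝕜 := ℂ) hD ?_ hz hz0
  intro x hx
  have hxd : DifferentiableAt ℂ D x := hD.differentiableAt (isOpen_ball.mem_nhds hx)
  rw [fderivWithin_of_isOpen isOpen_ball hx]
  have key : ∀ v : E, (fderiv ℂ D x v).re = 0 := by
    intro v
    have h1 : HasFDerivAt D ((fderiv ℂ D x).restrictScalars ℝ) x :=
      hxd.hasFDerivAt.restrictScalars ℝ
    have h2 : HasFDerivAt (fun y => (D y).re)
        (Complex.reCLM.comp ((fderiv ℂ D x).restrictScalars ℝ)) x :=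
      Complex.reCLM.hasFDerivAt.comp x h1
    have h3 : HasFDerivAt (fun y => (D y).re) (0 : E →L[ℝ] ℝ) x := by
      apply (hasFDerivAt_const (0 : ℝ) x).congr_of_eventuallyEq
      filter_upwards [isOpen_ball.mem_nhds hx] with y hy using hre y hy
    have h4 := h2.unique h3
    have h5 := congrArg (fun L : E →L[ℝ] ℝ => L v) h4
    simpa using h5
  refine ContinuousLinearMap.ext fun v => ?_
  apply Complex.ext
  · exact key v
  · have h6 := key (Complex.I • v)
    rw [map_smul, smul_eq_mul, Complex.mul_re, Complex.I_re, Complex.I_im] at h6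
    change (fderiv ℂ D x v).im = 0
    linarith

/-- (GLUE2) -/
theorem exists_holo {G Y : Type*} [Group G] [TopologicalSpace Y] [MulAction G Y] (𝒜 : Atl G Y)
    [ContinuousConstSMul G Y] [T2Space Y] [SimplyConnectedSpace Y] [LocallyPathConnectedSpace Y]
    (f : Y → ℝ)
    (hf : ∀ a : 𝒜.Idx, ∃ Φ : E → ℂ, DifferentiableOn ℂ Φ (ball 0 (5 / 4)) ∧
      ∀ z ∈ ball (0 : E) (5 / 4), (Φ z).re = f (𝒜.sym a z)) :
    ∃ Φ : Y → ℂ, (∀ y, (Φ y).re = f y) ∧
      ∀ a, DifferentiableOn ℂ (Φ ∘ 𝒜.sym a) (ball 0 (5 / 4)) := by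
  choose Φ hΦ1 hΦ2 using hf
  have hsub : ball (0 : E) (5 / 4) ⊆ ball 0 4 := ball_subset_ball (by norm_num)
  set U : 𝒜.Idx → Set Y := fun a => {y | y ∈ 𝒜.src a ∧ 𝒜.crd a y ∈ ball (0 : E) (5 / 4)} with hUdef
  have hU : ∀ a, IsOpen (U a) := fun a =>
    (glue_cont_crd 𝒜 a).isOpen_inter_preimage (glue_isOpen_src 𝒜 a) isOpen_ball
  have hcov : ∀ y, ∃ a, y ∈ U a := by
    intro y
    obtain ⟨i, g, h1, h2⟩ := 𝒜.cover y
    exact ⟨(g, i), h1, ball_subset_ball (by norm_num) h2⟩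
  have hcont : ∀ a, ContinuousOn (fun y => (Φ a (𝒜.crd a y)).im) (U a) := by
    intro a
    refine Complex.continuous_im.comp_continuousOn ?_
    exact (hΦ1 a).continuousOn.comp ((glue_cont_crd 𝒜 a).mono fun _ h => h.1) fun _ h => h.2
  have hloc : ∀ a b, ∀ y ∈ U a ∩ U b, ∀ᶠ y' in 𝓝 y,
      (Φ a (𝒜.crd a y')).im - (Φ b (𝒜.crd b y')).im =
        (Φ a (𝒜.crd a y)).im - (Φ b (𝒜.crd b y)).im := by
    intro a b y hy
    set W : Set E := {z | z ∈ ball (0 : E) (5 / 4) ∧ 𝒜.sym a z ∈ U b} with hW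
    have hWo : IsOpen W :=
      ((glue_cont_sym 𝒜 a).mono hsub).isOpen_inter_preimage isOpen_ball (hU b)
    have hz0 : 𝒜.crd a y ∈ W := ⟨hy.1.2, by rw [glue_sym_crd 𝒜 a hy.1.1]; exact hy.2⟩
    obtain ⟨r, hr, hrW⟩ := Metric.isOpen_iff.1 hWo _ hz0
    have hDd : DifferentiableOn ℂ (fun z => Φ a z - Φ b (𝒜.crd b (𝒜.sym a z)))
        (ball (𝒜.crd a y) r) := by
      apply DifferentiableOn.sub
      · exact (hΦ1 a).mono fun z hz => (hrW hz).1
      · refine (hΦ1 b).comp ((glue_trans 𝒜 a b).mono ?_) ?_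
        · exact fun z hz => ⟨hsub (hrW hz).1, (hrW hz).2.1⟩
        · exact fun z hz => (hrW hz).2.2
    have hre : ∀ z ∈ ball (𝒜.crd a y) r,
        ((fun z => Φ a z - Φ b (𝒜.crd b (𝒜.sym a z))) z).re = 0 := by
      intro z hz
      have h1 := hrW hz
      change (Φ a z - Φ b (𝒜.crd b (𝒜.sym a z))).re = 0
      rw [Complex.sub_re, hΦ2 a z h1.1, hΦ2 b _ h1.2.2, glue_sym_crd 𝒜 b h1.2.1, sub_self]
    have hc := const_of_re hDd hre
    have hev : ∀ᶠ y' in 𝓝 y, y' ∈ 𝒜.src a ∧ 𝒜.crd a y' ∈ ball (𝒜.crd a y) r := by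
      have := (glue_cont_crd 𝒜 a).isOpen_inter_preimage (glue_isOpen_src 𝒜 a)
        (isOpen_ball (x := 𝒜.crd a y) (ε := r))
      exact this.mem_nhds ⟨hy.1.1, mem_ball_self hr⟩
    filter_upwards [hev] with y' hy'
    have h2 := hc _ hy'.2
    rw [glue_sym_crd 𝒜 a hy'.1, glue_sym_crd 𝒜 a hy.1.1] at h2
    have h3 := congrArg Complex.im h2
    simpa using h3
  obtain ⟨F, hF⟩ := glue U hU hcov _ hcont hloc
  refine ⟨fun y => ⟨f y, F y⟩, fun y => rfl, fun a z hz => ?_⟩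
  have hz4 := hsub hz
  have hy : 𝒜.sym a z ∈ U a :=
    ⟨glue_sym_mem 𝒜 a hz4, by rw [glue_crd_sym 𝒜 a hz4]; exact hz⟩
  have h1 := hF a _ hy
  have hcs : ContinuousAt (𝒜.sym a) z := (glue_cont_sym 𝒜 a).continuousAt (isOpen_ball.mem_nhds hz4)
  have h2 := hcs.eventually h1
  apply DifferentiableAt.differentiableWithinAt
  have h3 : DifferentiableAt ℂ (fun z' => Φ a z' +
      ((F (𝒜.sym a z) - (Φ a (𝒜.crd a (𝒜.sym a z))).im : ℝ) : ℂ) * Complex.I) z :=
    ((hΦ1 a).differentiableAt (isOpen_ball.mem_nhds hz)).add_const _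
  refine h3.congr_of_eventuallyEq ?_
  filter_upwards [h2, isOpen_ball.mem_nhds hz] with z' hz' hz'b
  rw [glue_crd_sym 𝒜 a (hsub hz'b)] at hz'
  rw [← hz']
  apply Complex.ext
  · simp [hΦ2 a z' hz'b]
  · simp

end Sing
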