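import Pool.Agent.Work.MP_3893a0_gt.GrpA

/-! Module GRP2: amenable case, the trace argument. (helper98) -/

open scoped Topology BoundedContinuousFunction
open MeasureTheory Metric Set Filter

noncomputable section

namespace Sing

variable {G : Type*} [Group G]

namespace GrpAux

theorem trace_ineq {ι : Type*} [Fintype ι] (W : Submodule ℝ (EuclideanSpace ℝ ι)) (J : Finset ι)
    (a N : ℝ) (hN : 0 ≤ N) (h : ∀ i ∈ J, ∃ u ∈ W, ‖u‖ ^ 2 ≤ N ∧ a ≤ (u i) ^ 2) :
    J.card * a ≤ N * Module.finrank ℝ W := by
  classical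
  set b := stdOrthonormalBasis ℝ W with hb
  have key : ∀ i ∈ J, a ≤ N * ∑ j, ((b j : EuclideanSpace ℝ ι) i) ^ 2 := by
    intro i hi
    obtain ⟨u, hu, hN, ha⟩ := h i hi
    have h1 : (u : EuclideanSpace ℝ ι) i =
        ∑ j, inner ℝ (b j) (⟨u, hu⟩ : W) * (b j : EuclideanSpace ℝ ι) i := by
      have e := b.sum_repr' (⟨u, hu⟩ : W)
      have e' : ((∑ j, inner ℝ (b j) (⟨u, hu⟩ : W) • b j : W) : EuclideanSpace ℝ ι) = u := by
        rw [e]
      rw [Submodule.coe_sum] at e'
      have e'' := congrArg (fun v : EuclideanSpace ℝ ι => v i) e'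
      simp only [Submodule.coe_smul] at e''
      rw [← e'']
      simp
    have h2 : ∑ j, (inner ℝ (b j) (⟨u, hu⟩ : W)) ^ 2 = ‖u‖ ^ 2 := by
      have e := b.sum_sq_norm_inner_right (⟨u, hu⟩ : W)
      have e2 : ‖(⟨u, hu⟩ : W)‖ = ‖u‖ := rfl
      rw [← e2, ← e]
      apply Finset.sum_congr rfl
      intro j _
      rw [Real.norm_eq_abs, sq_abs]
    have h3 := Finset.sum_mul_sq_le_sq_mul_sq Finset.univ
      (fun j => inner ℝ (b j) (⟨u, hu⟩ : W)) (fun j => (b j : EuclideanSpace ℝ ι) i)
    rw [← h1, h2] at h3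
    refine ha.trans (h3.trans ?_)
    exact mul_le_mul_of_nonneg_right hN (Finset.sum_nonneg (fun _ _ => sq_nonneg _))
  calc (J.card : ℝ) * a = ∑ i ∈ J, a := by rw [Finset.sum_const, nsmul_eq_mul]
      _ ≤ ∑ i ∈ J, N * ∑ j, ((b j : EuclideanSpace ℝ ι) i) ^ 2 := Finset.sum_le_sum key
      _ = N * ∑ j, ∑ i ∈ J, ((b j : EuclideanSpace ℝ ι) i) ^ 2 := by
          rw [← Finset.mul_sum, Finset.sum_comm]
      _ ≤ N * ∑ j : Fin (Module.finrank ℝ W), (1 : ℝ) := by
          apply mul_le_mul_of_nonneg_left _ hN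
          apply Finset.sum_le_sum
          intro j _
          have e1 : ‖(b j : EuclideanSpace ℝ ι)‖ = 1 := b.orthonormal.1 j
          have e2 := EuclideanSpace.norm_sq_eq (b j : EuclideanSpace ℝ ι)
          rw [e1] at e2
          calc ∑ i ∈ J, ((b j : EuclideanSpace ℝ ι) i) ^ 2
              ≤ ∑ i, ((b j : EuclideanSpace ℝ ι) i) ^ 2 :=
                Finset.sum_le_sum_of_subset_of_nonneg (Finset.subset_univ _)
                  (fun _ _ _ => sq_nonneg _)
            _ = ∑ i, ‖(b j : EuclideanSpace ℝ ι) i‖ ^ 2 := by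
                apply Finset.sum_congr rfl
                intro i _
                rw [Real.norm_eq_abs, sq_abs]
            _ = 1 := by rw [← e2]; norm_num
      _ = N * Module.finrank ℝ W := by
          rw [Finset.sum_const, Finset.card_univ, Fintype.card_fin, nsmul_eq_mul, mul_one]

/-- the harmonic functions -/
def harmSub (S : Finset G) : Submodule ℝ (G → ℝ) where
  carrier := {h | Harm S h}
  add_mem' := by
    intro a b ha hb x
    have h1 := ha x
    have h2 := hb x
    have : ∑ s ∈ S, ((a + b) (x * s) + (a + b) (x * s⁻¹) - 2 * (a + b) x) =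
        ∑ s ∈ S, (a (x * s) + a (x * s⁻¹) - 2 * a x) +
        ∑ s ∈ S, (b (x * s) + b (x * s⁻¹) - 2 * b x) := by
      rw [← Finset.sum_add_distrib]
      apply Finset.sum_congr rfl
      intro s _
      simp only [Pi.add_apply]
      ring
    rw [this, h1, h2, add_zero]
  zero_mem' := by
    intro x
    simp
  smul_mem' := by
    intro c a ha x
    have h1 := ha x
    have : ∑ s ∈ S, ((c • a) (x * s) + (c • a) (x * s⁻¹) - 2 * (c • a) x) =
        c * ∑ s ∈ S, (a (x * s) + a (x * s⁻¹) - 2 * a x) := by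
      rw [Finset.mul_sum]
      apply Finset.sum_congr rfl
      intro s _
      simp only [Pi.smul_apply, smul_eq_mul]
      ring
    rw [this, h1, mul_zero]

/-- maximum principle on a finite set -/
theorem harm_max_fin [Infinite G] {S : Finset G} (hS : Subgroup.closure (S : Set G) = ⊤)
    {F : Finset G} {h : G → ℝ} (hH : Harm S h) (h0 : ∀ x ∈ bd S F, h x = 0) {x : G} (hx : x ∈ F) :
    h x ≤ 0 := by
  classical
  obtain ⟨x0, hx0, hmax⟩ := F.exists_max_image h ⟨x, hx⟩
  refine (hmax x hx).trans ?_
  by_contra hpos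
  push Not at hpos
  have key : ∀ g : G, x0 * g ∈ F ∧ h (x0 * g) = h x0 := by
    have aux : ∀ y, y ∈ F → h y = h x0 → ∀ s ∈ S,
        (y * s ∈ F ∧ h (y * s) = h x0) ∧ (y * s⁻¹ ∈ F ∧ h (y * s⁻¹) = h x0) := by
      intro y hy hyM s hs
      have hle : ∀ s ∈ S, h (y * s) ≤ h x0 ∧ h (y * s⁻¹) ≤ h x0 := by
        intro s hs
        constructor
        · by_cases hF : y * s ∈ F
          · exact hmax _ hF
          · rw [h0 (y * s) ⟨hF, y, hy, s, hs, Or.inl rfl⟩]
            exact hpos.le
        · by_cases hF : y * s⁻¹ ∈ F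
          · exact hmax _ hF
          · rw [h0 (y * s⁻¹) ⟨hF, y, hy, s, hs, Or.inr rfl⟩]
            exact hpos.le
      have h1 := harm_step hH hyM hle s hs
      refine ⟨⟨?_, h1.1⟩, ⟨?_, h1.2⟩⟩
      · by_contra hF
        have := h0 (y * s) ⟨hF, y, hy, s, hs, Or.inl rfl⟩
        rw [h1.1] at this
        linarith
      · by_contra hF
        have := h0 (y * s⁻¹) ⟨hF, y, hy, s, hs, Or.inr rfl⟩
        rw [h1.2] at this
        linarith
    apply closure_ind hS
    · simpa using hx0
    · intro g hg s hs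
      have := (aux _ hg.1 hg.2 s hs).1
      rwa [mul_assoc] at this
    · intro g hg s hs
      have := (aux _ hg.1 hg.2 s hs).2
      rwa [mul_assoc] at this
  have hall : ∀ g : G, g ∈ F := by
    intro g
    have := (key (x0⁻¹ * g)).1
    simpa using this
  exact Infinite.not_finite (Finite.of_injective (fun g : G => (⟨g, hall g⟩ : F))
    (fun a b hab => by simpa using hab))

theorem harm_zero_fin [Infinite G] {S : Finset G} (hS : Subgroup.closure (S : Set G) = ⊤)
    {F : Finset G} {h : G → ℝ} (hH : Harm S h) (h0 : ∀ x ∈ bd S F, h x = 0) {x : G} (hx : x ∈ F) :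
    h x = 0 := by
  apply le_antisymm (harm_max_fin hS hH h0 hx)
  have := harm_max_fin hS (harm_neg hH) (fun y hy => by simp [h0 y hy]) hx
  linarith

theorem bd_finite (S F : Finset G) : (bd S F).Finite := by
  classical
  refine ((F ×ˢ S).image (fun q => q.1 * q.2) ∪
    (F ×ˢ S).image (fun q => q.1 * q.2⁻¹)).finite_toSet.subset ?_
  rintro x ⟨_, y, hy, s, hs, hxy | hxy⟩
  · rw [Finset.mem_coe]
    exact Finset.mem_union_left _ (Finset.mem_image.mpr ⟨(y, s), Finset.mem_product.mpr ⟨hy, hs⟩,
      hxy.symm⟩)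
  · rw [Finset.mem_coe]
    exact Finset.mem_union_right _ (Finset.mem_image.mpr ⟨(y, s), Finset.mem_product.mpr ⟨hy, hs⟩,
      hxy.symm⟩)

/-- gradient restricted to `F × S` -/
def gradF (S F : Finset G) : (G → ℝ) →ₗ[ℝ] EuclideanSpace ℝ (F × S) where
  toFun h := WithLp.toLp 2 (fun q : F × S => h (q.1 * q.2) - h q.1)
  map_add' a b := by
    ext q
    simp only [Pi.add_apply, PiLp.add_apply]
    ring
  map_smul' c a := by
    ext q
    simp only [Pi.smul_apply, PiLp.smul_apply, smul_eq_mul, RingHom.id_apply]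
    ring

theorem gradF_apply (S F : Finset G) (h : G → ℝ) (q : F × S) :
    gradF S F h q = h (q.1 * q.2) - h q.1 := rfl

theorem finrank_grad_le [Infinite G] {S : Finset G} (hS : Subgroup.closure (S : Set G) = ⊤)
    (F : Finset G) :
    Module.finrank ℝ (Submodule.map (gradF S F) (harmSub S)) ≤ (bd S F).ncard := by
  classical
  have : Fintype (bd S F) := (bd_finite S F).fintype
  -- restriction to the boundary
  let α : harmSub S →ₗ[ℝ] (bd S F → ℝ) :=
    (LinearMap.funLeft ℝ ℝ (fun x : bd S F => (x : G))).comp (harmSub S).subtype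
  let β : harmSub S →ₗ[ℝ] EuclideanSpace ℝ (F × S) := (gradF S F).comp (harmSub S).subtype
  have hker : LinearMap.ker α ≤ LinearMap.ker β := by
    intro h hh
    rw [LinearMap.mem_ker] at hh ⊢
    have h0 : ∀ x ∈ bd S F, (h : G → ℝ) x = 0 := by
      intro x hx
      exact congrFun hh ⟨x, hx⟩
    ext q
    show (h : G → ℝ) (q.1 * q.2) - (h : G → ℝ) q.1 = 0
    have e1 : (h : G → ℝ) q.1 = 0 := harm_zero_fin hS h.2 h0 q.1.2
    have e2 : (h : G → ℝ) (q.1 * q.2) = 0 := by
      by_cases hF : (q.1 : G) * q.2 ∈ F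
      · exact harm_zero_fin hS h.2 h0 hF
      · exact h0 _ ⟨hF, q.1, q.1.2, q.2, q.2.2, Or.inl rfl⟩
    rw [e1, e2, sub_zero]
  have hrange : Submodule.map (gradF S F) (harmSub S) = LinearMap.range β := by
    rw [LinearMap.range_comp, Submodule.range_subtype]
  rw [hrange]
  have h1 : Module.finrank ℝ (LinearMap.range β) ≤ Module.finrank ℝ (LinearMap.range α) := by
    let γ : (harmSub S ⧸ LinearMap.ker α) →ₗ[ℝ] LinearMap.range β :=
      (LinearMap.ker α).liftQ β.rangeRestrict (by
        intro x hx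
        rw [LinearMap.mem_ker]
        have := hker hx
        rw [LinearMap.mem_ker] at this
        ext1
        exact this)
    have hγ : Function.Surjective γ := by
      rintro ⟨_, x, rfl⟩
      exact ⟨Submodule.Quotient.mk x, rfl⟩
    let δ : LinearMap.range α →ₗ[ℝ] LinearMap.range β :=
      γ.comp α.quotKerEquivRange.symm.toLinearMap
    have hδ : Function.Surjective δ :=
      hγ.comp α.quotKerEquivRange.symm.surjective
    exact LinearMap.finrank_le_finrank_of_surjective hδ
  refine h1.trans ((Submodule.finrank_le _).trans ?_)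
  rw [Module.finrank_fintype_fun_eq_card, ← Nat.card_eq_fintype_card]
  exact le_of_eq rfl

end GrpAux

open GrpAux

/-- (GRP2) isoperimetric dichotomy, case without isoperimetric inequality: the trace argument -/
theorem harm_const_of_folner (S : Finset G) (hS : Subgroup.closure (S : Set G) = ⊤)
    (hF : ∀ κ > (0 : ℝ), ∃ F : Finset G, F.Nonempty ∧
      (({x | x ∉ F ∧ ∃ y ∈ F, ∃ s ∈ S, x = y * s ∨ x = y * s⁻¹} : Set G).ncard : ℝ)
        ≤ κ * F.card) :
    ∀ h : G → ℝ, DirFin S h → Harm S h → ∀ x y, h x = h y := by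
  classical
  intro h hh hH
  -- finite group
  rcases finite_or_infinite G with hfin | hinf
  · obtain ⟨x0, hx0⟩ := Finite.exists_max h
    intro x y
    rw [harm_max hS hH hx0 x, harm_max hS hH hx0 y]
  by_contra hne
  have hne' : ∃ x0 : G, ∃ s0 ∈ S, h (x0 * s0) ≠ h x0 := by
    by_contra hall
    push Not at hall
    apply hne
    have key : ∀ x g : G, h (x * g) = h x := by
      intro x
      apply closure_ind hS
      · simp
      · intro g hg s hs
        rw [← mul_assoc, hall _ s hs, hg]
      · intro g hg s hs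
        have := hall (x * (g * s⁻¹)) s hs
        have e : x * (g * s⁻¹) * s = x * g := by group
        rw [e, hg] at this
        exact this.symm
    intro x y
    have := key x (x⁻¹ * y)
    rw [mul_inv_cancel_left] at this
    exact this.symm
  obtain ⟨x0, s0, hs0, hx0⟩ := hne'
  set a := (h (x0 * s0) - h x0) ^ 2 with ha
  have ha0 : 0 < a := by
    have : h (x0 * s0) - h x0 ≠ 0 := sub_ne_zero.mpr hx0
    positivity
  set N := ∑' q : G × S, (h (q.1 * q.2) - h q.1) ^ 2 with hNdef
  have hN0 : 0 ≤ N := tsum_nonneg (fun _ => sq_nonneg _)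
  have hsum : Summable fun q : G × S => (h (q.1 * q.2) - h q.1) ^ 2 := hh
  have key : ∀ F : Finset G, (F.card : ℝ) * a ≤ N * (bd S F).ncard := by
    intro F
    have h1 := trace_ineq (Submodule.map (gradF S F) (harmSub S))
      (Finset.univ.map ⟨fun x : F => ((x, ⟨s0, hs0⟩) : F × S), fun x y hxy => (Prod.mk.inj hxy).1⟩)
      a N hN0 (by
        intro i hi
        obtain ⟨x, _, rfl⟩ := Finset.mem_map.mp hi
        -- the translate
        set hx : G → ℝ := fun y => h (x0 * (x : G)⁻¹ * y) with hhx
        have hxH : Harm S hx := by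
          intro y
          have := hH (x0 * (x : G)⁻¹ * y)
          simpa [hhx, mul_assoc] using this
        refine ⟨gradF S F hx, Submodule.mem_map_of_mem hxH, ?_, ?_⟩
        · rw [EuclideanSpace.norm_sq_eq]
          have hinj : Function.Injective
              (fun q : F × S => ((x0 * (x : G)⁻¹ * q.1, q.2) : G × S)) := by
            rintro ⟨u, s⟩ ⟨v, t⟩ huv
            obtain ⟨e1, e2⟩ := Prod.mk.inj huv
            simp only [mul_right_inj] at e1
            ext
            · exact e1
            · exact congrArg Subtype.val e2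
          have e := (hsum.comp_injective hinj).sum_le_tsum Finset.univ
            (fun _ _ => sq_nonneg _)
          have e2 : ∑' q : F × S, ((fun q : G × S => (h (q.1 * q.2) - h q.1) ^ 2) ∘
              (fun q : F × S => ((x0 * (x : G)⁻¹ * q.1, q.2) : G × S))) q ≤ N :=
            (hsum.comp_injective hinj).tsum_le_tsum_of_inj _ hinj (fun _ _ => sq_nonneg _)
              (fun _ => le_rfl) hsum
          refine le_trans (le_of_eq ?_) (e.trans e2)
          apply Finset.sum_congr rfl
          intro q _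
          rw [gradF_apply, Real.norm_eq_abs, sq_abs]
          simp only [hhx, mul_assoc]
        · rw [ha]
          show (h (x0 * s0) - h x0) ^ 2 ≤
            (h (x0 * (x : G)⁻¹ * ((x : G) * s0)) - h (x0 * (x : G)⁻¹ * (x : G))) ^ 2
          have e1 : x0 * (x : G)⁻¹ * ((x : G) * s0) = x0 * s0 := by group
          have e2 : x0 * (x : G)⁻¹ * (x : G) = x0 := by group
          rw [e1, e2])
    rw [Finset.card_map, Finset.card_univ, Fintype.card_coe] at h1
    refine h1.trans ?_
    apply mul_le_mul_of_nonneg_left _ hN0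
    exact_mod_cast finrank_grad_le hS F
  obtain ⟨F, hFne, hF'⟩ := hF (a / (2 * (N + 1))) (by positivity)
  have h1 := key F
  have hcard : (0 : ℝ) < F.card := by exact_mod_cast hFne.card_pos
  have h2 : N * (bd S F).ncard ≤ N * (a / (2 * (N + 1)) * F.card) :=
    mul_le_mul_of_nonneg_left hF' hN0
  have h3 : N * (a / (2 * (N + 1)) * F.card) ≤ a * F.card / 2 := by
    rw [div_mul_eq_mul_div, mul_div_assoc', div_le_div_iff₀ (by positivity) (by positivity)]
    have : 0 ≤ a * F.card := by positivity
    nlinarith [this]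
  nlinarith [h1, h2, h3, mul_pos hcard ha0]

end Sing
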