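import Pool.Agent.Work.MP_3893a0_gt.Defs

/-! Module GRP3: the discrete Cheeger inequality. -/

open scoped ContDiff Topology BoundedContinuousFunction
open MeasureTheory Metric Set Filter

noncomputable section

namespace Sing

variable {G : Type*} [Group G]

namespace Grp3Aux

/-- the crossing edges of `F` in direction `s` -/
def crs (F : Set G) (s : G) : Set G := {x | (x ∈ F ∧ x * s ∉ F) ∨ (x ∉ F ∧ x * s ∈ F)}

lemma crs_finite {F : Set G} (hF : F.Finite) (s : G) : (crs F s).Finite := by
  have h1 : {x : G | x * s ∈ F}.Finite :=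
    hF.preimage (fun a _ b _ h => mul_right_cancel h)
  refine (hF.union h1).subset ?_
  rintro x (⟨h, -⟩ | ⟨-, h⟩)
  · exact Or.inl h
  · exact Or.inr h

lemma bdry_le (S : Finset G) (F : Finset G) :
    ({x | x ∉ F ∧ ∃ y ∈ F, ∃ s ∈ S, x = y * s ∨ x = y * s⁻¹} : Set G).ncard ≤
      ∑ s ∈ S, (crs (F : Set G) s).ncard := by
  classical
  set B : Set G := {x | x ∉ F ∧ ∃ y ∈ F, ∃ s ∈ S, x = y * s ∨ x = y * s⁻¹} with hB
  let o : G → G → G := fun s x => if x ∈ F then x * s else x
  have hsub : B ⊆ ⋃ s ∈ S, (o s) '' (crs (F : Set G) s) := by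
    rintro x ⟨hx, y, hy, s, hs, h | h⟩
    · simp only [mem_iUnion]
      refine ⟨s, hs, y, ?_, ?_⟩
      · left
        exact ⟨hy, by rw [← h]; exact_mod_cast hx⟩
      · simp only [o, if_pos hy]
        exact h.symm
    · simp only [mem_iUnion]
      refine ⟨s, hs, x, ?_, ?_⟩
      · right
        refine ⟨by exact_mod_cast hx, ?_⟩
        rw [h, inv_mul_cancel_right]
        exact_mod_cast hy
      · simp only [o, if_neg hx]
  have hfin : ∀ s ∈ S, ((o s) '' (crs (F : Set G) s)).Finite := fun s _ =>
    (crs_finite F.finite_toSet s).image _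
  calc B.ncard ≤ (⋃ s ∈ S, (o s) '' (crs (F : Set G) s)).ncard :=
        Set.ncard_le_ncard hsub (S.finite_toSet.biUnion hfin)
    _ ≤ ∑ s ∈ S, ((o s) '' (crs (F : Set G) s)).ncard := Finset.set_ncard_biUnion_le _ _
    _ ≤ ∑ s ∈ S, (crs (F : Set G) s).ncard := Finset.sum_le_sum fun s _ =>
        Set.ncard_image_le (crs_finite F.finite_toSet s)

lemma tsum_indicator_one {A : Set G} (hA : A.Finite) :
    ∑' x, A.indicator (fun _ => (1 : ℝ)) x = A.ncard := by
  classical
  rw [tsum_eq_sum (s := hA.toFinset)]
  · rw [Set.ncard_eq_toFinset_card A hA]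
    rw [Finset.sum_congr rfl (g := fun _ => (1 : ℝ))]
    · simp
    · intro x hx
      rw [Set.indicator_of_mem (by simpa using hx)]
  · intro x hx
    exact Set.indicator_of_notMem (by simpa using hx) _

lemma finsupp_diff {f : G → ℝ} (hf : (Function.support f).Finite) (s : G) :
    (Function.support fun x => |f (x * s) - f x|).Finite := by
  have h1 : {x : G | x * s ∈ Function.support f}.Finite :=
    hf.preimage (fun a _ b _ h => mul_right_cancel h)
  refine (hf.union h1).subset ?_
  intro x hx
  by_contra hcon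
  simp only [mem_union, Function.mem_support, mem_setOf_eq, not_or, not_not] at hcon
  apply hx
  simp [hcon.1, hcon.2]

/-- co-area inequality for finitely supported functions -/
lemma coarea (S : Finset G) {κ : ℝ} (hκ : 0 < κ) (hF : ∀ F : Finset G, F.Nonempty →
      κ * F.card ≤
      (({x | x ∉ F ∧ ∃ y ∈ F, ∃ s ∈ S, x = y * s ∨ x = y * s⁻¹} : Set G).ncard : ℝ)) :
    ∀ n : ℕ, ∀ f : G → ℝ, (∀ x, 0 ≤ f x) → (hf : (Function.support f).Finite) →
      hf.toFinset.card ≤ n → κ * ∑' x, f x ≤ ∑ s ∈ S, ∑' x, |f (x * s) - f x| := by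
  classical
  intro n
  induction n with
  | zero =>
    intro f h0 hf hn
    have : f = 0 := by
      have h1 : hf.toFinset = ∅ := Finset.card_eq_zero.1 (Nat.le_zero.1 hn)
      have h2 : Function.support f = ∅ := by
        have := congrArg (fun s : Finset G => (s : Set G)) h1
        simpa using this
      exact Function.support_eq_empty_iff.1 h2
    subst this
    simp
  | succ n ih =>
    intro f h0 hf hn
    by_cases hne : hf.toFinset.Nonempty
    swap
    · apply ih f h0 hf
      rw [Finset.not_nonempty_iff_eq_empty.1 hne]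
      simp
    obtain ⟨x0, hx0, hmin⟩ := Finset.exists_min_image hf.toFinset f hne
    set F := hf.toFinset with hFdef
    set m := f x0 with hm
    have hmem : ∀ x, x ∈ F ↔ f x ≠ 0 := by
      intro x; simp [hFdef]
    have hmpos : 0 < m := lt_of_le_of_ne (h0 x0) (Ne.symm ((hmem x0).1 hx0))
    set f' : G → ℝ := fun x => f x - (F : Set G).indicator (fun _ => m) x with hf'
    have hf'in : ∀ x ∈ F, f' x = f x - m := by
      intro x hx
      simp only [hf']
      rw [Set.indicator_of_mem (by exact_mod_cast hx)]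
    have hf'out : ∀ x, x ∉ F → f' x = 0 ∧ f x = 0 := by
      intro x hx
      have hfx : f x = 0 := by
        by_contra h
        exact hx ((hmem x).2 h)
      refine ⟨?_, hfx⟩
      simp only [hf']
      rw [Set.indicator_of_notMem (by exact_mod_cast hx), hfx, sub_zero]
    have h0' : ∀ x, 0 ≤ f' x := by
      intro x
      by_cases hx : x ∈ F
      · rw [hf'in x hx]
        linarith [hmin x hx]
      · rw [(hf'out x hx).1]
    have hsub : Function.support f' ⊆ (F.erase x0 : Finset G) := by
      intro x hx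
      rw [Finset.mem_coe, Finset.mem_erase]
      refine ⟨?_, ?_⟩
      · rintro rfl
        exact hx (by rw [hf'in _ hx0]; ring)
      · by_contra h
        exact hx (hf'out x h).1
    have hfin' : (Function.support f').Finite := (Finset.finite_toSet _).subset hsub
    have hcard : hfin'.toFinset.card ≤ n := by
      have h1 : hfin'.toFinset ⊆ F.erase x0 := by
        intro x hx
        have : x ∈ Function.support f' := by simpa using hx
        exact_mod_cast hsub this
      have h2 := Finset.card_le_card h1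
      rw [Finset.card_erase_of_mem hx0] at h2
      omega
    have key := ih f' h0' hfin' hcard
    have hs1 : Summable f' := summable_of_finite_support hfin'
    have hs2 : Summable ((F : Set G).indicator (fun _ => (1 : ℝ))) :=
      summable_of_finite_support (F.finite_toSet.subset Set.support_indicator_subset)
    have hsum : ∑' x, f x = ∑' x, f' x + m * F.card := by
      have h1 : ∀ x, f x = f' x + m * (F : Set G).indicator (fun _ => (1 : ℝ)) x := by
        intro x
        by_cases hx : x ∈ F
        · rw [hf'in x hx, Set.indicator_of_mem (by exact_mod_cast hx)]; ring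
        · rw [(hf'out x hx).1, (hf'out x hx).2, Set.indicator_of_notMem (by exact_mod_cast hx)]
          ring
      rw [tsum_congr h1, hs1.tsum_add (hs2.mul_left m), tsum_mul_left,
        tsum_indicator_one F.finite_toSet, Set.ncard_coe_finset]
    have hsd : ∀ s, ∑' x, |f (x * s) - f x| =
        ∑' x, |f' (x * s) - f' x| + m * (crs (F : Set G) s).ncard := by
      intro s
      have h1 : ∀ x, |f (x * s) - f x| = |f' (x * s) - f' x| +
          m * (crs (F : Set G) s).indicator (fun _ => (1 : ℝ)) x := by
        intro x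
        by_cases hx : x ∈ F <;> by_cases hxs : x * s ∈ F
        · have hn : x ∉ crs (F : Set G) s := by
            rintro (⟨-, h⟩ | ⟨h, -⟩)
            · exact h (by exact_mod_cast hxs)
            · exact h (by exact_mod_cast hx)
          rw [Set.indicator_of_notMem hn, hf'in x hx, hf'in _ hxs]
          ring_nf
        · have hn : x ∈ crs (F : Set G) s := Or.inl ⟨by exact_mod_cast hx, by exact_mod_cast hxs⟩
          rw [Set.indicator_of_mem hn, hf'in x hx, (hf'out _ hxs).1, (hf'out _ hxs).2]
          rw [zero_sub, abs_neg, zero_sub, abs_neg, abs_of_nonneg (h0 x),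
            abs_of_nonneg (by linarith [hmin x hx])]
          ring
        · have hn : x ∈ crs (F : Set G) s := Or.inr ⟨by exact_mod_cast hx, by exact_mod_cast hxs⟩
          rw [Set.indicator_of_mem hn, hf'in _ hxs, (hf'out _ hx).1, (hf'out _ hx).2]
          rw [sub_zero, sub_zero, abs_of_nonneg (h0 _),
            abs_of_nonneg (by linarith [hmin _ hxs])]
          ring
        · have hn : x ∉ crs (F : Set G) s := by
            rintro (⟨h, -⟩ | ⟨-, h⟩)
            · exact hx (by exact_mod_cast h)
            · exact hxs (by exact_mod_cast h)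
          rw [Set.indicator_of_notMem hn, (hf'out _ hx).1, (hf'out _ hx).2, (hf'out _ hxs).1,
            (hf'out _ hxs).2]
          ring_nf
      have hs3 : Summable (fun x => |f' (x * s) - f' x|) :=
        summable_of_finite_support (finsupp_diff hfin' s)
      have hs4 : Summable ((crs (F : Set G) s).indicator (fun _ => (1 : ℝ))) :=
        summable_of_finite_support
          ((crs_finite F.finite_toSet s).subset Set.support_indicator_subset)
      rw [tsum_congr h1, hs3.tsum_add (hs4.mul_left m), tsum_mul_left,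
        tsum_indicator_one (crs_finite F.finite_toSet s)]
    have hb := bdry_le S F
    have hb' : κ * F.card ≤ ∑ s ∈ S, ((crs (F : Set G) s).ncard : ℝ) := by
      refine (hF F hne).trans ?_
      exact_mod_cast hb
    rw [hsum, Finset.sum_congr rfl (fun s _ => hsd s), Finset.sum_add_distrib, ← Finset.mul_sum]
    nlinarith

/-- co-area inequality for summable functions -/
lemma coarea' (S : Finset G) {κ : ℝ} (hκ : 0 < κ) (hF : ∀ F : Finset G, F.Nonempty →
      κ * F.card ≤
      (({x | x ∉ F ∧ ∃ y ∈ F, ∃ s ∈ S, x = y * s ∨ x = y * s⁻¹} : Set G).ncard : ℝ))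
    (f : G → ℝ) (h0 : ∀ x, 0 ≤ f x) (hf : Summable f) :
    κ * ∑' x, f x ≤ ∑ s ∈ S, ∑' x, |f (x * s) - f x| := by
  classical
  have hsh : ∀ s : G, Summable fun x => f (x * s) := fun s =>
    hf.comp_injective (fun a b h => mul_right_cancel h)
  have hsd : ∀ s : G, Summable fun x => |f (x * s) - f x| := fun s =>
    ((hsh s).sub hf).abs
  set D := ∑ s ∈ S, ∑' x, |f (x * s) - f x| with hD
  -- truncation
  have htr : ∀ ε > 0, ∀ A : Finset G, κ * ∑ x ∈ A, (f x - ε) ≤ D := by
    intro ε hε A
    set g : G → ℝ := fun x => max (f x - ε) 0 with hg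
    have hg0 : ∀ x, 0 ≤ g x := fun x => le_max_right _ _
    have hgfin : (Function.support g).Finite := by
      have h1 : ∀ᶠ x in cofinite, f x < ε := by
        have := hf.tendsto_cofinite_zero
        exact this.eventually (gt_mem_nhds hε)
      have h2 : {x | ¬ f x < ε}.Finite := h1
      refine h2.subset ?_
      intro x hx hlt
      apply hx
      simp only [hg]
      exact max_eq_right (by linarith)
    have h1 := coarea S hκ hF hgfin.toFinset.card g hg0 hgfin le_rfl
    have h2 : ∑ s ∈ S, ∑' x, |g (x * s) - g x| ≤ D := by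
      refine Finset.sum_le_sum fun s _ => ?_
      refine Summable.tsum_le_tsum (fun x => ?_)
        (summable_of_finite_support (finsupp_diff hgfin s)) (hsd s)
      simp only [hg]
      have := abs_max_sub_max_le_abs (f (x * s) - ε) (f x - ε) 0
      refine this.trans (le_of_eq ?_)
      congr 1
      ring
    have h3 : ∑ x ∈ A, (f x - ε) ≤ ∑' x, g x := by
      calc ∑ x ∈ A, (f x - ε) ≤ ∑ x ∈ A, g x := Finset.sum_le_sum fun x _ => le_max_left _ _
        _ ≤ ∑' x, g x := (summable_of_finite_support hgfin).sum_le_tsum A (fun x _ => hg0 x)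
    calc κ * ∑ x ∈ A, (f x - ε) ≤ κ * ∑' x, g x := mul_le_mul_of_nonneg_left h3 hκ.le
      _ ≤ _ := h1
      _ ≤ D := h2
  have hA : ∀ A : Finset G, κ * ∑ x ∈ A, f x ≤ D := by
    intro A
    refine le_of_forall_pos_le_add fun δ hδ => ?_
    have hpos : 0 < κ * (A.card + 1) := by positivity
    have := htr (δ / (κ * (A.card + 1))) (by positivity) A
    rw [Finset.sum_sub_distrib, Finset.sum_const, nsmul_eq_mul] at this
    have h2 : κ * ((A.card : ℝ) * (δ / (κ * (A.card + 1)))) ≤ δ := by
      rw [← mul_assoc, mul_div_assoc', div_le_iff₀ hpos]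
      nlinarith
    nlinarith
  have : ∑' x, f x ≤ D / κ := by
    refine hf.tsum_le_of_sum_le fun A => ?_
    rw [le_div_iff₀ hκ]
    linarith [hA A]
  rw [le_div_iff₀ hκ] at this
  linarith

end Grp3Aux

open Grp3Aux in
/-- (GRP3) discrete Cheeger inequality -/
theorem gap_of_isoperimetric (S : Finset G) (hS : Subgroup.closure (S : Set G) = ⊤)
    (hF : ∃ κ > (0 : ℝ), ∀ F : Finset G, F.Nonempty →
      κ * F.card ≤
      (({x | x ∉ F ∧ ∃ y ∈ F, ∃ s ∈ S, x = y * s ∨ x = y * s⁻¹} : Set G).ncard : ℝ)) :
    Gap S := by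
  classical
  obtain ⟨κ, hκ, hF⟩ := hF
  have hSpos : 0 < (S.card : ℝ) := by
    rcases Nat.eq_zero_or_pos S.card with h | h
    · exfalso
      have hS0 : S = ∅ := Finset.card_eq_zero.1 h
      have := hF {1} (Finset.singleton_nonempty _)
      subst hS0
      simp at this
      linarith
    · exact_mod_cast h
  refine ⟨κ ^ 2 / (4 * S.card), by positivity, ?_⟩
  intro v hv
  set N := ∑' x, v x ^ 2 with hN
  set En := ∑ s ∈ S, ∑' x, (v (x * s) - v x) ^ 2 with hEn
  have h1 := coarea' S hκ hF (fun x => v x ^ 2) (fun x => sq_nonneg _) hv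
  have hsh : ∀ s : G, Summable fun x => v (x * s) ^ 2 := fun s =>
    hv.comp_injective (fun a b h => mul_right_cancel h)
  have hshs : ∀ s : G, ∑' x, v (x * s) ^ 2 = N := fun s =>
    (Equiv.mulRight s).tsum_eq (fun x => v x ^ 2)
  have hdiff : ∀ s : G, Summable fun x => (v (x * s) - v x) ^ 2 := by
    intro s
    refine Summable.of_nonneg_of_le (fun x => sq_nonneg _) (fun x => ?_)
      (((hsh s).add hv).mul_left 2)
    nlinarith [sq_nonneg (v (x * s) + v x)]
  set l : ℝ := 4 * S.card / κ with hl
  have hlpos : 0 < l := by positivity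
  have h2 : ∀ s : G, ∑' x, |v (x * s) ^ 2 - v x ^ 2| ≤
      l / 2 * ∑' x, (v (x * s) - v x) ^ 2 + 2 / l * N := by
    intro s
    have hsumm : Summable fun x => l / 2 * (v (x * s) - v x) ^ 2 +
        (1 / l) * (v (x * s) ^ 2 + v x ^ 2) :=
      ((hdiff s).mul_left _).add (((hsh s).add hv).mul_left _)
    have h3 : ∑' x, |v (x * s) ^ 2 - v x ^ 2| ≤ ∑' x, (l / 2 * (v (x * s) - v x) ^ 2 +
        (1 / l) * (v (x * s) ^ 2 + v x ^ 2)) := by
      refine Summable.tsum_le_tsum (fun x => ?_) (((hsh s).sub hv).abs) hsumm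
      set a := v (x * s)
      set b := v x
      have e1 : |a ^ 2 - b ^ 2| = |a - b| * |a + b| := by
        rw [← abs_mul]; ring_nf
      rw [e1]
      have e2 : |a - b| * |a + b| ≤ l / 2 * |a - b| ^ 2 + 1 / (2 * l) * |a + b| ^ 2 := by
        have := sq_nonneg (l * |a - b| - |a + b|)
        have e3 : l / 2 * |a - b| ^ 2 + 1 / (2 * l) * |a + b| ^ 2 - |a - b| * |a + b| =
            1 / (2 * l) * (l * |a - b| - |a + b|) ^ 2 := by
          field_simp
          ring
        nlinarith [mul_nonneg (by positivity : (0 : ℝ) ≤ 1 / (2 * l)) this]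
      have e4 : 1 / (2 * l) * |a + b| ^ 2 ≤ 1 / l * (a ^ 2 + b ^ 2) := by
        rw [sq_abs]
        have e5 : (a + b) ^ 2 ≤ 2 * (a ^ 2 + b ^ 2) := by nlinarith [sq_nonneg (a - b)]
        calc 1 / (2 * l) * (a + b) ^ 2 ≤ 1 / (2 * l) * (2 * (a ^ 2 + b ^ 2)) :=
              mul_le_mul_of_nonneg_left e5 (by positivity)
          _ = 1 / l * (a ^ 2 + b ^ 2) := by field_simp
      rw [sq_abs] at e2
      linarith
    refine h3.trans (le_of_eq ?_)
    rw [Summable.tsum_add ((hdiff s).mul_left _) (((hsh s).add hv).mul_left _), tsum_mul_left,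
      tsum_mul_left, Summable.tsum_add (hsh s) hv, hshs s]
    ring
  have h4 : ∑ s ∈ S, ∑' x, |v (x * s) ^ 2 - v x ^ 2| ≤ l / 2 * En + 2 / l * N * S.card := by
    refine (Finset.sum_le_sum fun s _ => h2 s).trans (le_of_eq ?_)
    rw [Finset.sum_add_distrib, ← Finset.mul_sum, Finset.sum_const, nsmul_eq_mul]
    ring
  have h5 : κ * N ≤ l / 2 * En + 2 / l * N * S.card := h1.trans h4
  have h6 : 2 / l * N * S.card = κ / 2 * N := by
    rw [hl]; field_simp; ring
  rw [h6] at h5
  have h7 : κ / 2 * N ≤ l / 2 * En := by linarith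
  have h8 : l / 2 = 2 * S.card / κ := by rw [hl]; ring
  rw [h8] at h7
  have h9 : κ ^ 2 / (4 * S.card) * N = (κ / (2 * S.card)) * (κ / 2 * N) := by
    field_simp; ring
  rw [h9]
  calc κ / (2 * S.card) * (κ / 2 * N) ≤ κ / (2 * S.card) * (2 * S.card / κ * En) :=
        mul_le_mul_of_nonneg_left h7 (by positivity)
    _ = En := by field_simp

end Sing
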