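import Pool.Agent.Work.MP_3893a0_gt.Grp1
import Pool.Agent.Work.MP_3893a0_gt.Grp2
import Pool.Agent.Work.MP_3893a0_gt.Grp3

/-! Module GRP: the group side, assembly (GRP4). All statements of `Skel/Group.lean` are proved in
`GrpA` (GRP5, GRP6), `Grp1`, `Grp2`, `Grp3` and here (GRP4). (helper98) -/

open scoped ContDiff Topology BoundedContinuousFunction
open MeasureTheory Metric Set Filter

noncomputable section

namespace Sing

variable {G : Type*} [Group G]

/-- (GRP4) -/
theorem gap_or_const (S : Finset G) (hS : Subgroup.closure (S : Set G) = ⊤) :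
    Gap S ∨ ∀ h : G → ℝ, DirFin S h → Harm S h → ∀ x y, h x = h y := by
  by_cases hF : ∃ κ > (0 : ℝ), ∀ F : Finset G, F.Nonempty →
      κ * F.card ≤
      (({x | x ∉ F ∧ ∃ y ∈ F, ∃ s ∈ S, x = y * s ∨ x = y * s⁻¹} : Set G).ncard : ℝ)
  · exact Or.inl (gap_of_isoperimetric S hS hF)
  · right
    apply harm_const_of_folner S hS
    intro κ hκ
    push Not at hF
    obtain ⟨F, hF1, hF2⟩ := hF κ hκ
    exact ⟨F, hF1, hF2.le⟩

end Sing
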