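import Pool.Agent.Work.MP_3893a0_gt.Op2b

/-! `P f ≤ 0` at a local maximum; the operator `T` has no strict supersolution. -/

open scoped ContDiff Topology BoundedContinuousFunction
open MeasureTheory Metric Set Filter

noncomputable section

set_option linter.unusedSectionVars false

namespace Sing

/-- second order necessary condition, one variable -/
theorem deriv2_nonpos_of_isLocalMax {φ : ℝ → ℝ} (hc : ContinuousAt φ 0) (h : IsLocalMax φ 0) :
    deriv (deriv φ) 0 ≤ 0 := by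
  by_contra hcon
  push Not at hcon
  have h1 : IsLocalMin φ 0 := isLocalMin_of_deriv_deriv_pos hcon h.deriv_eq_zero hc
  have h2 : φ =ᶠ[𝓝 0] fun _ => φ 0 := by
    filter_upwards [h, h1] with t ht ht' using le_antisymm ht ht'
  have h3 : deriv φ =ᶠ[𝓝 0] deriv (fun _ => φ 0) := h2.deriv
  have h4 : deriv (deriv φ) 0 = 0 := by
    rw [h3.deriv_eq]
    simp
  rw [h4] at hcon
  exact lt_irrefl _ hcon

/-- second order necessary condition -/
theorem fderiv2_nonpos_of_isLocalMax {f : E → ℝ} {z : E} (hf : ContDiffAt ℝ 2 f z)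
    (hmax : IsLocalMax f z) (v : E) : fderiv ℝ (fderiv ℝ f) z v v ≤ 0 := by
  have hcurve : ∀ t : ℝ, HasDerivAt (fun t : ℝ => z + t • v) v t := by
    intro t
    simpa using ((hasDerivAt_id t).smul_const v).const_add z
  have hz : z + (0 : ℝ) • v = z := by simp
  have hct : ContinuousAt (fun t : ℝ => z + t • v) 0 := (hcurve 0).continuousAt
  have htend : Tendsto (fun t : ℝ => z + t • v) (𝓝 0) (𝓝 z) := by
    have := hct.tendsto
    rwa [hz] at this
  have h1 : deriv (fun t : ℝ => f (z + t • v)) =ᶠ[𝓝 0] fun t => fderiv ℝ f (z + t • v) v := by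
    filter_upwards [htend.eventually (hf.eventually (by simp))] with t ht
    exact ((ht.differentiableAt (by simp)).hasFDerivAt.comp_hasDerivAt t (hcurve t)).deriv
  have hf' : DifferentiableAt ℝ (fderiv ℝ f) z :=
    (hf.fderiv_right (m := 1) (by norm_num)).differentiableAt (by simp)
  have h2 : HasDerivAt (fun t : ℝ => fderiv ℝ f (z + t • v)) (fderiv ℝ (fderiv ℝ f) z v) 0 := by
    have h3 : HasFDerivAt (fderiv ℝ f) (fderiv ℝ (fderiv ℝ f) z) (z + (0 : ℝ) • v) := by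
      rw [hz]; exact hf'.hasFDerivAt
    exact h3.comp_hasDerivAt (0 : ℝ) (hcurve 0)
  have h4 : HasDerivAt (fun t : ℝ => fderiv ℝ f (z + t • v) v)
      (fderiv ℝ (fderiv ℝ f) z v v) 0 := by
    have := h2.clm_apply (hasDerivAt_const (0 : ℝ) v)
    simpa using this
  have h5 : deriv (deriv (fun t : ℝ => f (z + t • v))) 0 = fderiv ℝ (fderiv ℝ f) z v v := by
    rw [h1.deriv_eq, h4.deriv]
  rw [← h5]
  refine deriv2_nonpos_of_isLocalMax ?_ ?_
  · have : ContinuousAt f (z + (0 : ℝ) • v) := by rw [hz]; exact hf.continuousAt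
    exact ContinuousAt.comp (f := fun t : ℝ => z + t • v) this hct
  · show ∀ᶠ t in 𝓝 (0 : ℝ), f (z + t • v) ≤ f (z + (0 : ℝ) • v)
    rw [hz]
    exact htend.eventually hmax

theorem levB_nonpos_of_isLocalMax {f : E → ℝ} {z : E} (hf : ContDiffAt ℝ 2 f z)
    (hmax : IsLocalMax f z) (v : E) : levB f z v v ≤ 0 :=
  add_nonpos (fderiv2_nonpos_of_isLocalMax hf hmax v) (fderiv2_nonpos_of_isLocalMax hf hmax _)

theorem Pc_nonpos_of_isLocalMax (A : LocCoef) {z : E} (hz : ‖z‖ < 4) {f : E → ℝ}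
    (hf : ContDiffAt ℝ 2 f z) (hmax : IsLocalMax f z) : Pc A f z ≤ 0 := by
  have hzb : z ∈ ball (0 : E) 4 := by simpa using hz
  have ha := A.pos z hzb
  have hd := A.det_pos z hzb
  have hsymm : ∀ v w : E, fderiv ℝ (fderiv ℝ f) z v w = fderiv ℝ (fderiv ℝ f) z w v := by
    intro v w
    have : IsSymmSndFDerivAt ℝ f z := hf.isSymmSndFDerivAt (by simp)
    exact this v w
  set p : ℝ := (A.c z).re / A.a11 z with hp
  set q : ℝ := (A.c z).im / A.a11 z with hq
  have hpc : (A.c z).re = A.a11 z * p := by rw [hp]; field_simp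
  have hqc : (A.c z).im = A.a11 z * q := by rw [hq]; field_simp
  have hnorm : ‖A.c z‖ ^ 2 = A.a11 z ^ 2 * (p ^ 2 + q ^ 2) := by
    rw [← Complex.normSq_eq_norm_sq, Complex.normSq_apply, hpc, hqc]; ring
  have h1 := levB_nonpos_of_isLocalMax hf hmax (e1 + (p • e2 + q • (Complex.I • e2)))
  have h2 := levB_nonpos_of_isLocalMax hf hmax e2
  have hII : ∀ v : E, Complex.I • Complex.I • v = -v := by
    intro v
    rw [smul_smul, Complex.I_mul_I, neg_one_smul]
  have key : Pc A f z = A.a11 z * levB f z (e1 + (p • e2 + q • (Complex.I • e2)))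
        (e1 + (p • e2 + q • (Complex.I • e2))) +
      ((A.a11 z * A.a22 z - ‖A.c z‖ ^ 2) / A.a11 z) * levB f z e2 e2 := by
    rw [hnorm]
    unfold Pc levB
    rw [hpc, hqc]
    simp only [smul_add, map_add, map_smul, smul_comm Complex.I p, smul_comm Complex.I q, hII,
      ContinuousLinearMap.add_apply, ContinuousLinearMap.smul_apply, smul_eq_mul, map_neg,
      ContinuousLinearMap.neg_apply, neg_neg]
    rw [hsymm e2 e1, hsymm (Complex.I • e2) e1, hsymm (Complex.I • e2) (Complex.I • e1),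
      hsymm (Complex.I • e2) e2, hsymm e2 (Complex.I • e1)]
    field_simp
    ring
  rw [key]
  have h3 : A.a11 z * levB f z (e1 + (p • e2 + q • (Complex.I • e2)))
        (e1 + (p • e2 + q • (Complex.I • e2))) ≤ 0 := mul_nonpos_of_nonneg_of_nonpos ha.le h1
  have h4 : ((A.a11 z * A.a22 z - ‖A.c z‖ ^ 2) / A.a11 z) * levB f z e2 e2 ≤ 0 :=
    mul_nonpos_of_nonneg_of_nonpos (by positivity) h2
  linarith

variable {G Y : Type*} [Group G] [TopologicalSpace Y] [MulAction G Y]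

namespace Atl

variable {𝒜 : Atl G Y} [ContinuousConstSMul G Y] [T2Space Y]

theorem kit_max [Nonempty Y] (P : 𝒜.Pou) {M : 𝒜.Met} (L : ∀ i, LocPar (M.A i) (P.χ i))
    {f : Y → ℝ} (hf : Continuous f) (B : ℝ) (hB : ∀ y, ‖f y‖ ≤ B)
    (hinv : ∀ (g : G) y, f (g • y) = f y) : ∀ ε > 0, ¬ ∀ y,
      ε ≤ 𝒜.Op (fun i => (L i).t0) f y - f y := by
  intro ε hε hcon
  obtain ⟨n, hn⟩ := (P_lim P L (fun _ => LinearIsometryEquiv.refl ℝ ℝ) hf B hB hinv (ε / 2)
    (half_pos hε)).exists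
  set u : Y → ℝ := 𝒜.Op (fun i => (L i).k n) f with hu
  have husm : 𝒜.Sm u := op_k_smooth L n hf
  have huc : Continuous u := Sm.continuous 𝒜 husm
  have huinv : ∀ (g : G) y, u (g • y) = u y := by
    intro g y
    rw [hu, ← 𝒜.op_translate]
    congr 1
    funext y'
    exact hinv g y'
  have hne : (𝒜.dom).Nonempty := by
    obtain ⟨y⟩ := ‹Nonempty Y›
    obtain ⟨g, hg⟩ := 𝒜.exists_mem_dom y
    exact ⟨_, hg⟩
  obtain ⟨y0, hy0, hmax⟩ := 𝒜.isCompact_dom.exists_isMaxOn hne huc.continuousOn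
  have hmax' : ∀ y, u y ≤ u y0 := by
    intro y
    obtain ⟨g, hg⟩ := 𝒜.exists_mem_dom y
    rw [← huinv g y]
    exact hmax hg
  obtain ⟨i, z, hz, rfl⟩ : ∃ i, ∃ z ∈ closedBall (0 : E) 1, 𝒜.sym (1, i) z = y0 := by
    unfold dom at hy0
    obtain ⟨i, hi⟩ := mem_iUnion.1 hy0
    exact ⟨i, hi⟩
  have hz4 : ‖z‖ < 4 := by
    rw [mem_closedBall_zero_iff] at hz
    linarith
  have hP : Pc (M.A i) (u ∘ 𝒜.sym (1, i)) z ≤ 0 := by
    refine Pc_nonpos_of_isLocalMax (M.A i) hz4 ?_ (Eventually.of_forall fun z' => hmax' _)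
    exact ((husm (1, i)).contDiffAt (isOpen_ball.mem_nhds (by simpa using hz4))).of_le
      (WithTop.coe_le_coe.2 le_top)
  have h1 := hn (1, i) z hz4
  rw [Real.norm_eq_abs, abs_le] at h1
  have h2 := hcon (𝒜.sym (1, i) z)
  have h3 : Pc (M.A (1, i).2) (𝒜.Op (fun i => (L i).k n) f ∘ 𝒜.sym (1, i)) z =
    Pc (M.A i) (u ∘ 𝒜.sym (1, i)) z := rfl
  rw [h3] at h1
  linarith [h1.1]

end Atl

end Sing
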