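import Pool.Agent.Work.MP_3893a0_gt.Defs

/-! (LIM1) a smooth real function with zero Levi form is the real part of a holomorphic one. -/

open scoped ContDiff Topology
open Metric Set Filter

noncomputable section

namespace Sing

namespace Lim61

theorem decomp (v : E) : v = v.1.re • e1 + v.1.im • (Complex.I • e1) + v.2.re • e2 +
    v.2.im • (Complex.I • e2) := by
  apply Prod.ext <;> apply Complex.ext <;> simp [e1, e2]

theorem Idecomp (v : E) : Complex.I • v = v.1.re • (Complex.I • e1) - v.1.im • e1 +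
    v.2.re • (Complex.I • e2) - v.2.im • e2 := by
  apply Prod.ext <;> apply Complex.ext <;> simp [e1, e2]

theorem all_zero (B : E →L[ℝ] E →L[ℝ] ℝ) (hs : ∀ v w, B v w = B w v)
    (h11 : B e1 e1 + B (Complex.I • e1) (Complex.I • e1) = 0)
    (h22 : B e2 e2 + B (Complex.I • e2) (Complex.I • e2) = 0)
    (h12 : B e1 e2 + B (Complex.I • e1) (Complex.I • e2) = 0)
    (h12' : B e1 (Complex.I • e2) + B (Complex.I • e1) (Complex.I • Complex.I • e2) = 0)
    (v w : E) : B v w + B (Complex.I • v) (Complex.I • w) = 0 := by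
  have hI : Complex.I • Complex.I • e2 = - e2 := by
    rw [smul_smul, Complex.I_mul_I, neg_one_smul]
  rw [hI, map_neg] at h12'
  rw [Idecomp v, Idecomp w]
  nth_rewrite 1 [decomp v]
  nth_rewrite 1 [decomp w]
  have s1 := hs (Complex.I • e1) e1
  have s2 := hs (Complex.I • e2) e2
  have s3 := hs e2 e1
  have s4 := hs (Complex.I • e2) (Complex.I • e1)
  have s5 := hs (Complex.I • e2) e1
  have s6 := hs e2 (Complex.I • e1)
  simp only [map_add, map_sub, map_smul, ContinuousLinearMap.add_apply,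
    ContinuousLinearMap.sub_apply, ContinuousLinearMap.smul_apply, smul_eq_mul, s1, s2, s3, s4,
    s5, s6]
  linear_combination (v.1.re * w.1.re + v.1.im * w.1.im) * h11 +
    (v.2.re * w.2.re + v.2.im * w.2.im) * h22 +
    (v.1.re * w.2.re + v.1.im * w.2.im + v.2.re * w.1.re + v.2.im * w.1.im) * h12 +
    (v.1.re * w.2.im - v.1.im * w.2.re - v.2.re * w.1.im + v.2.im * w.1.re) * h12'

end Lim61

open Lim61 in
/-- (LIM1) a smooth real function with zero Levi form on a ball is the real part of a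
holomorphic function -/
theorem exists_holo_of_levB (f : E → ℝ) (r : ℝ) (hr : 0 < r) (hf : ContDiffOn ℝ ∞ f (ball 0 r))
    (h0 : ∀ z ∈ ball (0 : E) r, levB f z e1 e1 = 0 ∧ levB f z e2 e2 = 0 ∧ levB f z e1 e2 = 0 ∧
      levB f z e1 (Complex.I • e2) = 0) :
    ∃ Φ : E → ℂ, DifferentiableOn ℂ Φ (ball 0 r) ∧ ∀ z ∈ ball (0 : E) r, (Φ z).re = f z := by
  set ext : (E →L[ℝ] ℝ) ≃ₗᵢ[ℝ] (E →L[ℂ] ℂ) := StrongDual.extendRCLikeₗᵢ (𝕜 := ℂ) (F := E)
    with hext
  have hext_apply : ∀ (g : E →L[ℝ] ℝ) (x : E), ext g x = (g x : ℂ) - Complex.I * g (Complex.I • x) :=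
    fun g x => rfl
  have hcd : ∀ z ∈ ball (0 : E) r, ContDiffAt ℝ ∞ f z := fun z hz =>
    hf.contDiffAt (isOpen_ball.mem_nhds hz)
  have hd1 : ∀ z ∈ ball (0 : E) r, DifferentiableAt ℝ f z := fun z hz =>
    (hcd z hz).differentiableAt (by simp)
  have hd2 : ∀ z ∈ ball (0 : E) r, DifferentiableAt ℝ (fderiv ℝ f) z := fun z hz =>
    ((hcd z hz).fderiv_right (m := ∞) (by simp)).differentiableAt (by simp)
  have hsym : ∀ z ∈ ball (0 : E) r, ∀ v w, fderiv ℝ (fderiv ℝ f) z v w =
      fderiv ℝ (fderiv ℝ f) z w v := fun z hz v w =>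
    ((hcd z hz).isSymmSndFDerivAt (by rw [minSmoothness_of_isRCLikeNormedField]; exact WithTop.coe_le_coe.2 le_top)).eq v w
  have hall : ∀ z ∈ ball (0 : E) r, ∀ v w, fderiv ℝ (fderiv ℝ f) z v w +
      fderiv ℝ (fderiv ℝ f) z (Complex.I • v) (Complex.I • w) = 0 := fun z hz v w =>
    all_zero _ (hsym z hz) (h0 z hz).1 (h0 z hz).2.1 (h0 z hz).2.2.1 (h0 z hz).2.2.2 v w
  set om : E → (E →L[ℂ] ℂ) := fun z => ext (fderiv ℝ f z) with hom
  have homd : ∀ z ∈ ball (0 : E) r, HasFDerivAt om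
      ((ext.toContinuousLinearEquiv : (E →L[ℝ] ℝ) →L[ℝ] (E →L[ℂ] ℂ)) ∘L
        fderiv ℝ (fderiv ℝ f) z) z := fun z hz =>
    (ext.toContinuousLinearEquiv : (E →L[ℝ] ℝ) →L[ℝ] (E →L[ℂ] ℂ)).hasFDerivAt.comp z
      (hd2 z hz).hasFDerivAt
  obtain ⟨Φ, hΦ⟩ := (convex_ball (0 : E) r).exists_forall_hasFDerivAt_of_fderiv_symmetric
    (𝕜 := ℂ) isOpen_ball (show DifferentiableOn ℝ om (ball 0 r) from
      fun z hz => (homd z hz).differentiableAt.differentiableWithinAt)
    (by
      intro z hz x y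
      rw [(homd z hz).fderiv]
      show ext (fderiv ℝ (fderiv ℝ f) z x) y = ext (fderiv ℝ (fderiv ℝ f) z y) x
      rw [hext_apply, hext_apply, hsym z hz x y]
      have h1 := hall z hz x (Complex.I • y)
      rw [smul_smul Complex.I Complex.I y, Complex.I_mul_I, neg_one_smul, map_neg] at h1
      have h2 : fderiv ℝ (fderiv ℝ f) z x (Complex.I • y) =
          fderiv ℝ (fderiv ℝ f) z y (Complex.I • x) := by
        rw [hsym z hz y (Complex.I • x)]
        linarith
      rw [h2])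
  -- the real part
  have hre : ∀ z ∈ ball (0 : E) r, HasFDerivAt (fun z => (Φ z).re - f z) (0 : E →L[ℝ] ℝ) z := by
    intro z hz
    have h1 : HasFDerivAt (fun z => (Φ z).re)
        (Complex.reCLM ∘L ((om z).restrictScalars ℝ)) z :=
      Complex.reCLM.hasFDerivAt.comp z ((hΦ z hz).restrictScalars ℝ)
    have h2 := h1.sub (hd1 z hz).hasFDerivAt
    have h3 : (Complex.reCLM ∘L ((om z).restrictScalars ℝ)) - fderiv ℝ f z =
        (0 : E →L[ℝ] ℝ) := by
      apply ContinuousLinearMap.ext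
      intro x
      simp [hom, hext_apply]
    rw [h3] at h2
    exact h2
  have hconst : ∀ z ∈ ball (0 : E) r, (Φ z).re - f z = (Φ 0).re - f 0 := by
    intro z hz
    exact isOpen_ball.is_const_of_fderiv_eq_zero (𝕜 := ℝ) (f := fun z => (Φ z).re - f z)
      (convex_ball (0 : E) r).isPreconnected
      (fun w hw => (hre w hw).differentiableAt.differentiableWithinAt)
      (fun w hw => (hre w hw).fderiv) hz (mem_ball_self hr)
  refine ⟨fun z => Φ z - (((Φ 0).re - f 0 : ℝ) : ℂ), ?_, ?_⟩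
  · exact DifferentiableOn.sub_const
      (fun z hz => (hΦ z hz).differentiableAt.differentiableWithinAt) _
  · intro z hz
    have := hconst z hz
    rw [Complex.sub_re, Complex.ofReal_re]
    linarith

end Sing
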