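import Pool.Agent.Work.MP_3893a0_gt.Lim3

/-! (LIM2) Borel-Carathéodory in two variables. -/

open scoped Topology
open Metric Set Filter

noncomputable section

namespace Sing

/-- (LIM2) Borel-Carathéodory in two variables: oscillation of `Φ` by oscillation of `re Φ` -/
theorem osc_of_re (Φ : E → ℂ) {r R M : ℝ} (hr : 0 < r) (hrR : r < R)
    (hΦ : DifferentiableOn ℂ Φ (ball 0 R))
    (hM : ∀ z ∈ ball (0 : E) R, |(Φ z).re - (Φ 0).re| ≤ M) (z : E) (hz : ‖z‖ ≤ r) :
    ‖Φ z - Φ 0‖ ≤ 2 * M * r / (R - r) := by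
  have hRr : 0 < R - r := by linarith
  have hM0 : 0 ≤ M := by
    have := hM 0 (mem_ball_self (hr.trans hrR))
    simpa using this
  rcases hM0.eq_or_lt with h | h
  · subst h
    have key : ∀ ε > 0, ‖Φ z - Φ 0‖ ≤ 0 + ε := by
      intro ε hε
      have h1 := Lim51.bc Φ (r := r) (R := R) (M := ε * (R - r) / (2 * r)) hrR (by positivity) hΦ
        (fun w hw => (hM w hw).trans (by positivity)) z hz
      have e : 2 * (ε * (R - r) / (2 * r)) * r / (R - r) = ε := by
        field_simp
      linarith
    have := le_of_forall_pos_le_add key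
    simpa using this
  · exact Lim51.bc Φ hrR h hΦ hM z hz

end Sing
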