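import Pool.Agent.Work.MP_3893a0_gt.Defs
import Pool.Agent.Work.MP_0e9e72_an.SCVA

/-! (LIM3) uniform limits of real parts of holomorphic functions. -/

open scoped Topology
open Metric Set Filter

noncomputable section

namespace Sing

namespace Lim51

/-- Borel-Caratheodory in two variables -/
theorem bc (Φ : E → ℂ) {r R M : ℝ} (hrR : r < R) (hM0 : 0 < M)
    (hΦ : DifferentiableOn ℂ Φ (ball 0 R))
    (hM : ∀ z ∈ ball (0 : E) R, |(Φ z).re - (Φ 0).re| ≤ M) (z : E) (hz : ‖z‖ ≤ r) :
    ‖Φ z - Φ 0‖ ≤ 2 * M * r / (R - r) := by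
  have hr0 : 0 ≤ r := (norm_nonneg z).trans hz
  have hR : 0 < R := lt_of_le_of_lt hr0 hrR
  by_cases h0 : z = 0
  · subst h0
    simp only [sub_self, norm_zero]
    have : 0 < R - r := by linarith
    positivity
  · have hn : 0 < ‖z‖ := norm_pos_iff.2 h0
    have hmaps : ∀ t ∈ ball (0 : ℂ) (R / ‖z‖), t • z ∈ ball (0 : E) R := by
      intro t ht
      rw [mem_ball_zero_iff] at ht ⊢
      rw [norm_smul]
      exact (lt_div_iff₀ hn).1 ht
    have hd : DifferentiableOn ℂ (fun t : ℂ => Φ (t • z) - Φ 0) (ball 0 (R / ‖z‖)) := by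
      refine DifferentiableOn.sub_const ?_ _
      exact hΦ.comp (by fun_prop) hmaps
    have h1 := Complex.borelCaratheodory_zero (f := fun t : ℂ => Φ (t • z) - Φ 0) hM0 hd
      (fun t ht => by
        have := hM _ (hmaps t ht)
        show (Φ (t • z) - Φ 0).re ≤ M
        rw [Complex.sub_re]
        exact (le_abs_self _).trans this)
      (by positivity : 0 < R / ‖z‖) (z := 1)
      (by
        rw [mem_ball_zero_iff, norm_one, lt_div_iff₀ hn]
        linarith)
      (by simp)
    simp only [one_smul, norm_one, mul_one] at h1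
    refine h1.trans ?_
    have e : 2 * M / (R / ‖z‖ - 1) = 2 * M * ‖z‖ / (R - ‖z‖) := by
      have h3 : R - ‖z‖ ≠ 0 := by
        have : ‖z‖ < R := lt_of_le_of_lt hz hrR
        linarith
      have h4 : R / ‖z‖ - 1 = (R - ‖z‖) / ‖z‖ := by
        field_simp
      rw [h4]
      field_simp
    rw [e]
    have h5 : 0 < R - r := by linarith
    gcongr

end Lim51

open Lim51 in
/-- (LIM3) a locally uniform limit of real parts of holomorphic functions -/
theorem holo_limit (f : ℕ → E → ℝ) (f' : E → ℝ) (R r : ℝ) (hr : 0 < r) (hrR : r < R)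
    (hf : ∀ n, ∃ Φ : E → ℂ, DifferentiableOn ℂ Φ (ball 0 R) ∧
      ∀ z ∈ ball (0 : E) R, (Φ z).re = f n z)
    (hlim : TendstoUniformlyOn f f' atTop (ball 0 R)) :
    ∃ Φ : E → ℂ, DifferentiableOn ℂ Φ (ball 0 r) ∧ ∀ z ∈ ball (0 : E) r, (Φ z).re = f' z := by
  have hR : 0 < R := hr.trans hrR
  have h0R : (0 : E) ∈ ball (0 : E) R := mem_ball_self hR
  choose Φ0 hd0 hre0 using hf
  -- normalisation of the imaginary part at the origin
  have H : ∃ Φ : ℕ → E → ℂ, (∀ n, DifferentiableOn ℂ (Φ n) (ball 0 R)) ∧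
      (∀ n, ∀ z ∈ ball (0 : E) R, (Φ n z).re = f n z) ∧ ∀ n, Φ n 0 = (f n 0 : ℂ) := by
    refine ⟨fun n z => Φ0 n z - ((Φ0 n 0).im : ℂ) * Complex.I, ?_, ?_, ?_⟩
    · intro n
      exact (hd0 n).sub_const _
    · intro n z hz
      rw [← hre0 n z hz]
      simp
    · intro n
      rw [← hre0 n 0 h0R]
      apply Complex.ext <;> simp
  obtain ⟨Φ, hd, hre, h00⟩ := H
  have hRr : 0 < R - r := by linarith
  have hcau : UniformCauchySeqOn Φ atTop (closedBall (0 : E) r) := by
    rw [Metric.uniformCauchySeqOn_iff]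
    intro ε hε
    have hc := hlim.uniformCauchySeqOn
    rw [Metric.uniformCauchySeqOn_iff] at hc
    set K : ℝ := 1 + 4 * r / (R - r) with hK
    have hKpos : 0 < K := by positivity
    obtain ⟨N, hN⟩ := hc (ε / (2 * K)) (by positivity)
    refine ⟨N, fun m hm n hn z hz => ?_⟩
    set δ : ℝ := ε / (2 * K) with hδ
    have hδ0 : 0 < δ := by positivity
    have hdist : ∀ w ∈ ball (0 : E) R, |f m w - f n w| ≤ δ := by
      intro w hw
      rw [← Real.dist_eq]
      exact (hN m hm n hn w hw).le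
    have h1 := bc (fun w => Φ m w - Φ n w) (r := r) (R := R) (M := 2 * δ) hrR (by positivity)
      ((hd m).sub (hd n)) (by
        intro w hw
        simp only [Complex.sub_re]
        rw [hre m w hw, hre n w hw, hre m 0 h0R, hre n 0 h0R]
        calc |f m w - f n w - (f m 0 - f n 0)| ≤ |f m w - f n w| + |f m 0 - f n 0| :=
              abs_sub _ _
          _ ≤ 2 * δ := by
              have := hdist w hw
              have := hdist 0 h0R
              linarith) z (by simpa using hz)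
    have h2 : ‖Φ m 0 - Φ n 0‖ ≤ δ := by
      rw [h00, h00, ← Complex.ofReal_sub, Complex.norm_real, Real.norm_eq_abs]
      exact hdist 0 h0R
    rw [dist_eq_norm]
    have h3 : ‖Φ m z - Φ n z‖ ≤ ‖Φ m z - Φ n z - (Φ m 0 - Φ n 0)‖ + ‖Φ m 0 - Φ n 0‖ := by
      have := norm_add_le (Φ m z - Φ n z - (Φ m 0 - Φ n 0)) (Φ m 0 - Φ n 0)
      simpa using this
    have h4 : 2 * (2 * δ) * r / (R - r) + δ = δ * K := by
      rw [hK]
      field_simp
      ring
    have h5 : δ * K = ε / 2 := by
      rw [hδ]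
      field_simp
    calc ‖Φ m z - Φ n z‖ ≤ 2 * (2 * δ) * r / (R - r) + δ := by linarith
      _ = ε / 2 := by rw [h4, h5]
      _ < ε := by linarith
  -- the limit
  have hpt : ∀ z ∈ closedBall (0 : E) r, ∃ L : ℂ, Tendsto (fun n => Φ n z) atTop (𝓝 L) :=
    fun z hz => cauchySeq_tendsto_of_complete (hcau.cauchySeq hz)
  choose! Ψ hΨ using hpt
  have hu : TendstoUniformlyOn Φ Ψ atTop (closedBall (0 : E) r) :=
    hcau.tendstoUniformlyOn_of_tendsto hΨ
  have hl : TendstoLocallyUniformlyOn Φ Ψ atTop (ball (0 : E) r) :=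
    (hu.mono ball_subset_closedBall).tendstoLocallyUniformlyOn
  refine ⟨Ψ, (SCV.tendstoLocallyUniformlyOn_fderiv isOpen_ball
    (fun n => (hd n).mono (ball_subset_ball hrR.le)) hl).1, fun z hz => ?_⟩
  have hzR : z ∈ ball (0 : E) R := ball_subset_ball hrR.le hz
  have t1 : Tendsto (fun n => (Φ n z).re) atTop (𝓝 (Ψ z).re) :=
    (Complex.continuous_re.tendsto _).comp (hΨ z (ball_subset_closedBall hz))
  have t2 : Tendsto (fun n => (Φ n z).re) atTop (𝓝 (f' z)) := by
    have := hlim.tendsto_at hzR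
    refine this.congr fun n => ?_
    exact (hre n z hzR).symm
  exact tendsto_nhds_unique t1 t2

end Sing
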