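import Pool.Agent.Work.MP_3893a0_gt.Defs

/-! Module LIM4: limits of almost pluriharmonic functions. -/

open scoped ContDiff Topology BoundedContinuousFunction Convolution
open MeasureTheory Metric Set Filter

noncomputable section

namespace Sing

namespace L4

instance haarE : (volume : Measure E).IsAddHaarMeasure :=
  inferInstanceAs ((volume : Measure ℂ).prod (volume : Measure ℂ)).IsAddHaarMeasure

/-- multiplication, as a bilinear map -/
abbrev LL : ℝ →L[ℝ] ℝ →L[ℝ] ℝ := ContinuousLinearMap.lsmul ℝ ℝ

lemma conv_comm (f g : E → ℝ) : (f ⋆[LL, volume] g) = (g ⋆[LL, volume] f) := by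
  rw [← convolution_flip]
  have : LL.flip = LL := by
    ext
    simp
  rw [this]

lemma d2_right {f g : E → ℝ} (hf : LocallyIntegrable f) (hg : ContDiff ℝ ∞ g)
    (hc : HasCompactSupport g) (z v w : E) :
    fderiv ℝ (fderiv ℝ (f ⋆[LL, volume] g)) z v w =
      (f ⋆[LL, volume] fun a => fderiv ℝ (fderiv ℝ g) a v w) z := by
  have hg1 : ContDiff ℝ 1 g := hg.of_le (by exact_mod_cast le_top)
  have h1 : fderiv ℝ (f ⋆[LL, volume] g) = (f ⋆[LL.precompR E, volume] fderiv ℝ g) := by
    funext x
    exact (hc.hasFDerivAt_convolution_right LL hf hg1 x).fderiv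
  have hg2 : ContDiff ℝ ∞ (fderiv ℝ g) := hg.fderiv_right (by norm_cast)
  have hc2 : HasCompactSupport (fderiv ℝ g) := hc.fderiv ℝ
  have hg3 : ContDiff ℝ ∞ (fderiv ℝ (fderiv ℝ g)) := hg2.fderiv_right (by norm_cast)
  have hc3 : HasCompactSupport (fderiv ℝ (fderiv ℝ g)) := hc2.fderiv ℝ
  rw [h1, (hc2.hasFDerivAt_convolution_right (LL.precompR E) hf
    (hg2.of_le (by exact_mod_cast le_top)) z).fderiv,
    convolution_precompR_apply (LL.precompR E) hf hc3 hg3.continuous z v]
  rw [convolution_precompR_apply LL hf]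
  · exact hc3.comp_left (g := fun T : E →L[ℝ] E →L[ℝ] ℝ => T v) rfl
  · exact (ContinuousLinearMap.apply ℝ (E →L[ℝ] ℝ) v).continuous.comp hg3.continuous

lemma levB_cont {g : E → ℝ} (hg : ContDiff ℝ ∞ g) (v w : E) :
    Continuous (fun z => fderiv ℝ (fderiv ℝ g) z v w) := by
  have hg2 : ContDiff ℝ ∞ (fderiv ℝ g) := hg.fderiv_right (by norm_cast)
  have hg3 : ContDiff ℝ ∞ (fderiv ℝ (fderiv ℝ g)) := hg2.fderiv_right (by norm_cast)
  have h := hg3.continuous
  fun_prop

lemma d2_cs {g : E → ℝ} (hc : HasCompactSupport g) (v w : E) :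
    HasCompactSupport (fun z => fderiv ℝ (fderiv ℝ g) z v w) :=
  ((hc.fderiv ℝ).fderiv ℝ).comp_left (g := fun T : E →L[ℝ] E →L[ℝ] ℝ => T v w) rfl

lemma lev_right {f g : E → ℝ} (hf : LocallyIntegrable f) (hg : ContDiff ℝ ∞ g)
    (hc : HasCompactSupport g) (z v w : E) :
    levB (f ⋆[LL, volume] g) z v w = ∫ t, f t * levB g (z - t) v w := by
  unfold levB
  rw [d2_right hf hg hc, d2_right hf hg hc, convolution_def, convolution_def]
  rw [← integral_add]
  · congr 1
    funext t
    simp
    ring
  · exact (d2_cs hc v w).convolutionExists_right LL hf (levB_cont hg v w) z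
  · exact (d2_cs hc _ _).convolutionExists_right LL hf (levB_cont hg _ _) z

lemma lev_cont {g : E → ℝ} (hg : ContDiff ℝ ∞ g) (v w : E) :
    Continuous (fun z => levB g z v w) := by
  unfold levB
  exact (levB_cont hg v w).add (levB_cont hg _ _)

lemma lev_cs {g : E → ℝ} (hc : HasCompactSupport g) (v w : E) :
    HasCompactSupport (fun z => levB g z v w) := by
  unfold levB
  exact (d2_cs hc v w).add (d2_cs hc _ _)

lemma lev_congr {f g : E → ℝ} {z : E} (h : f =ᶠ[𝓝 z] g) (v w : E) :
    levB f z v w = levB g z v w := by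
  unfold levB
  have h1 : fderiv ℝ f =ᶠ[𝓝 z] fderiv ℝ g := h.fderiv
  rw [h1.fderiv_eq]

/-- cut off to a function on the whole space -/
lemma exists_ext {f : E → ℝ} (hf : ContDiffOn ℝ ∞ f (ball 0 4)) :
    ∃ g : E → ℝ, ContDiff ℝ ∞ g ∧ HasCompactSupport g ∧ ∀ z ∈ ball (0 : E) 2, g z = f z := by
  let χ : ContDiffBump (0 : E) := ⟨2, 3, by norm_num, by norm_num⟩
  refine ⟨fun z => χ z * f z, ?_, ?_, ?_⟩
  · rw [contDiff_iff_contDiffAt]
    intro z
    by_cases hz : z ∈ ball (0 : E) 4
    · exact χ.contDiff.contDiffAt.mul (hf.contDiffAt (isOpen_ball.mem_nhds hz))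
    · have h1 : z ∉ tsupport χ := by
        rw [χ.tsupport_eq]
        simp only [mem_ball, dist_zero_right, not_lt, mem_closedBall, not_le] at hz ⊢
        change 3 < ‖z‖
        linarith
      have h2 : (fun z => χ z * f z) =ᶠ[𝓝 z] fun _ => 0 := by
        have h3 : (χ : E → ℝ) =ᶠ[𝓝 z] 0 := notMem_tsupport_iff_eventuallyEq.mp h1
        filter_upwards [h3] with y hy
        simp [hy]
      exact contDiffAt_const.congr_of_eventuallyEq h2
  · exact χ.hasCompactSupport.mul_right
  · intro z hz
    have : χ z = 1 := χ.one_of_mem_closedBall (ball_subset_closedBall hz)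
    simp [this]

/-- the core estimate -/
lemma core {f : ℕ → E → ℝ} {f' : E → ℝ} (hf : ∀ n, ContDiffOn ℝ ∞ (f n) (ball 0 4))
    (hlim : TendstoUniformlyOn f f' atTop (closedBall 0 (3 / 2))) (v w : E)
    (hI : Tendsto (fun n => ∫ z in closedBall (0 : E) (3 / 2), |levB (f n) z v w| ^ 2) atTop (𝓝 0))
    {ψ : E → ℝ} (hψ : ContDiff ℝ ∞ ψ) (hc : HasCompactSupport ψ) {δ R : ℝ}
    (hsupp : ∀ t, ψ t ≠ 0 → ‖t‖ < δ) (hR : R + δ ≤ 3 / 2) {z : E} (hz : ‖z‖ ≤ R) :
    levB (ψ ⋆[LL, volume] (closedBall (0 : E) (3 / 2)).indicator f') z v w = 0 := by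
  choose g hg1 hg2 hg3 using fun n => exists_ext (hf n)
  have hsuppB : ∀ t, levB ψ t v w ≠ 0 → ‖t‖ ≤ δ := by
    intro t ht
    by_contra hcon
    push Not at hcon
    apply ht
    have h1 : ψ =ᶠ[𝓝 t] fun _ => 0 := by
      have h2 : {y : E | δ < ‖y‖} ∈ 𝓝 t := (isOpen_lt continuous_const continuous_norm).mem_nhds hcon
      filter_upwards [h2] with y hy
      by_contra h3
      exact absurd (hsupp y h3) (not_lt.mpr (le_of_lt hy))
    rw [lev_congr h1]
    simp [levB]
  have hzt : ∀ s : E, ψ (z - s) ≠ 0 → ‖s‖ < 3 / 2 := by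
    intro s hs
    have h1 := hsupp _ hs
    have h2 : ‖s‖ ≤ ‖z‖ + ‖z - s‖ := by
      have : s = z - (z - s) := by abel
      calc ‖s‖ = ‖z - (z - s)‖ := by rw [← this]
        _ ≤ _ := norm_sub_le _ _
    linarith
  have hztB : ∀ s : E, levB ψ (z - s) v w ≠ 0 → ‖s‖ ≤ 3 / 2 := by
    intro s hs
    have h1 := hsuppB _ hs
    have h2 : ‖s‖ ≤ ‖z‖ + ‖z - s‖ := by
      have : s = z - (z - s) := by abel
      calc ‖s‖ = ‖z - (z - s)‖ := by rw [← this]
        _ ≤ _ := norm_sub_le _ _
    linarith
  -- continuity and integrability of the limit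
  have hcontg : ∀ n, ContinuousOn (f n) (closedBall 0 (3 / 2)) := fun n =>
    (hf n).continuousOn.mono (closedBall_subset_ball (by norm_num))
  have hcontf' : ContinuousOn f' (closedBall 0 (3 / 2)) :=
    hlim.continuousOn (Eventually.of_forall hcontg).frequently
  have hF'int : Integrable ((closedBall (0 : E) (3 / 2)).indicator f') := by
    rw [integrable_indicator_iff measurableSet_closedBall]
    exact hcontf'.integrableOn_compact (isCompact_closedBall _ _)
  have hψc : Continuous ψ := hψ.continuous
  have hBc : Continuous (fun s => levB ψ (z - s) v w) := (lev_cont hψ v w).comp (by fun_prop)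
  have hBcs : HasCompactSupport (fun s => levB ψ (z - s) v w) := by
    apply HasCompactSupport.of_support_subset_isCompact (isCompact_closedBall (0 : E) (3 / 2))
    intro s hs
    rw [mem_closedBall, dist_zero_right]
    exact hztB s hs
  -- the two representations of the second derivative
  have e1 : ∀ n, levB (ψ ⋆[LL, volume] g n) z v w = ∫ s, ψ (z - s) * levB (g n) s v w := by
    intro n
    rw [lev_right (hψc.locallyIntegrable) (hg1 n) (hg2 n)]
    have := integral_sub_left_eq_self (fun s => ψ (z - s) * levB (g n) s v w) volume z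
    rw [← this]
    congr 1
    funext t
    simp
  have e2 : ∀ n, levB (ψ ⋆[LL, volume] g n) z v w = ∫ s, g n s * levB ψ (z - s) v w := by
    intro n
    rw [conv_comm, lev_right ((hg1 n).continuous.locallyIntegrable) hψ hc]
  have e3 : levB (ψ ⋆[LL, volume] (closedBall (0 : E) (3 / 2)).indicator f') z v w =
      ∫ s, (closedBall (0 : E) (3 / 2)).indicator f' s * levB ψ (z - s) v w := by
    rw [conv_comm, lev_right hF'int.locallyIntegrable hψ hc]
  -- first limit
  have hlim1 : Tendsto (fun n => levB (ψ ⋆[LL, volume] g n) z v w) atTop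
      (𝓝 (levB (ψ ⋆[LL, volume] (closedBall (0 : E) (3 / 2)).indicator f') z v w)) := by
    rw [Metric.tendsto_atTop]
    intro ε hε
    obtain ⟨K, hK⟩ : ∃ K : ℝ, K = ∫ s, |levB ψ (z - s) v w| := ⟨_, rfl⟩
    have hK0 : 0 ≤ K := by
      rw [hK]
      exact integral_nonneg (fun _ => abs_nonneg _)
    obtain ⟨η, hη⟩ : ∃ η : ℝ, η = ε / (2 * (K + 1)) := ⟨_, rfl⟩
    have hηpos : 0 < η := by rw [hη]; positivity
    rw [Metric.tendstoUniformlyOn_iff] at hlim
    obtain ⟨N, hN⟩ := eventually_atTop.mp (hlim η hηpos)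
    refine ⟨N, fun n hn => ?_⟩
    rw [e2, e3, Real.dist_eq, ← integral_sub]
    · have hle : ‖∫ s, (g n s * levB ψ (z - s) v w -
          (closedBall (0 : E) (3 / 2)).indicator f' s * levB ψ (z - s) v w)‖ ≤
          ∫ s, η * |levB ψ (z - s) v w| := by
        apply norm_integral_le_of_norm_le
        · exact ((hBc.abs).integrable_of_hasCompactSupport hBcs.abs).const_mul η
        · refine Eventually.of_forall fun s => ?_
          by_cases hs : levB ψ (z - s) v w = 0
          · simp [hs]
          · have hs2 := hztB s hs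
            have hsm : s ∈ closedBall (0 : E) (3 / 2) := by
              rw [mem_closedBall, dist_zero_right]; exact hs2
            rw [indicator_of_mem hsm, hg3 n s (by
              rw [mem_ball, dist_zero_right]; linarith), ← sub_mul, norm_mul, Real.norm_eq_abs,
              Real.norm_eq_abs]
            apply mul_le_mul_of_nonneg_right _ (abs_nonneg _)
            have := hN n hn s hsm
            rw [Real.dist_eq, abs_sub_comm] at this
            exact this.le
      rw [Real.norm_eq_abs, integral_const_mul, ← hK] at hle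
      refine lt_of_le_of_lt hle ?_
      rw [hη, div_mul_eq_mul_div, div_lt_iff₀ (by positivity)]
      nlinarith
    · exact (((hg1 n).continuous.mul hBc).integrable_of_hasCompactSupport hBcs.mul_left)
    · obtain ⟨C, hC⟩ := hBcs.exists_bound_of_continuous hBc
      exact hF'int.mul_bdd hBc.aestronglyMeasurable (Eventually.of_forall hC)
  -- second limit
  have hlim2 : Tendsto (fun n => levB (ψ ⋆[LL, volume] g n) z v w) atTop (𝓝 0) := by
    rw [Metric.tendsto_atTop]
    intro ε hε
    obtain ⟨K, hK⟩ : ∃ K : ℝ, K = ∫ s, ψ (z - s) ^ 2 := ⟨_, rfl⟩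
    have hK0 : 0 ≤ K := by
      rw [hK]
      exact integral_nonneg (fun _ => sq_nonneg _)
    obtain ⟨η, hη⟩ : ∃ η : ℝ, η = ε / (K + 1) := ⟨_, rfl⟩
    have hηpos : 0 < η := by rw [hη]; positivity
    have hψzc : Continuous (fun s => ψ (z - s)) := hψc.comp (by fun_prop)
    have hψzcs : HasCompactSupport (fun s => ψ (z - s)) := by
      apply HasCompactSupport.of_support_subset_isCompact (isCompact_closedBall (0 : E) (3 / 2))
      intro s hs
      rw [mem_closedBall, dist_zero_right]
      exact (hzt s hs).le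
    have hsqi : Integrable (fun s => ψ (z - s) ^ 2) := by
      apply (hψzc.pow 2).integrable_of_hasCompactSupport
      apply HasCompactSupport.of_support_subset_isCompact (isCompact_closedBall (0 : E) (3 / 2))
      intro s hs
      rw [mem_closedBall, dist_zero_right]
      refine (hzt s ?_).le
      intro h0
      apply hs
      simp [h0]
    have hIi : ∀ n, IntegrableOn (fun s => |levB (g n) s v w| ^ 2)
        (closedBall (0 : E) (3 / 2)) := by
      intro n
      have := lev_cont (hg1 n) v w
      exact (by fun_prop : Continuous fun s => |levB (g n) s v w| ^ 2).continuousOn.integrableOn_compact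
        (isCompact_closedBall _ _)
    have hIeq : ∀ n, ∫ s in closedBall (0 : E) (3 / 2), |levB (g n) s v w| ^ 2 =
        ∫ s in closedBall (0 : E) (3 / 2), |levB (f n) s v w| ^ 2 := by
      intro n
      apply setIntegral_congr_fun measurableSet_closedBall
      intro s hs
      have hs2 : s ∈ ball (0 : E) 2 := by
        rw [mem_closedBall, dist_zero_right] at hs
        rw [mem_ball, dist_zero_right]
        linarith
      have h1 : g n =ᶠ[𝓝 s] f n := by
        filter_upwards [isOpen_ball.mem_nhds hs2] with y hy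
        exact hg3 n y hy
      simp only
      rw [lev_congr h1]
    obtain ⟨N, hN⟩ := Metric.tendsto_atTop.mp hI (ε * η) (by positivity)
    refine ⟨N, fun n hn => ?_⟩
    have h1 := hN n hn
    rw [← hIeq, Real.dist_eq, sub_zero, abs_of_nonneg (integral_nonneg
      (fun _ => sq_nonneg _))] at h1
    rw [e1, Real.dist_eq, sub_zero]
    have hle : ‖∫ s, ψ (z - s) * levB (g n) s v w‖ ≤
        ∫ s, ((η / 2) * ψ (z - s) ^ 2 + (1 / (2 * η)) *
          (closedBall (0 : E) (3 / 2)).indicator (fun s => |levB (g n) s v w| ^ 2) s) := by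
      apply norm_integral_le_of_norm_le
      · apply (hsqi.const_mul _).add
        apply Integrable.const_mul
        rw [integrable_indicator_iff measurableSet_closedBall]
        exact hIi n
      · refine Eventually.of_forall fun s => ?_
        by_cases hs : ψ (z - s) = 0
        · rw [hs, zero_mul, norm_zero]
          have h2 : 0 ≤ (closedBall (0 : E) (3 / 2)).indicator
              (fun s => |levB (g n) s v w| ^ 2) s := indicator_nonneg (fun _ _ => sq_nonneg _) s
          positivity
        · have hs2 := hzt s hs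
          have hsm : s ∈ closedBall (0 : E) (3 / 2) := by
            rw [mem_closedBall, dist_zero_right]; exact hs2.le
          rw [indicator_of_mem hsm, norm_mul, Real.norm_eq_abs, Real.norm_eq_abs, ← sq_abs (ψ _)]
          generalize |ψ (z - s)| = a
          generalize |levB (g n) s v w| = b
          have h3 : η / 2 * a ^ 2 + 1 / (2 * η) * b ^ 2 - a * b = (η * a - b) ^ 2 / (2 * η) := by
            field_simp
            ring
          have h4 : 0 ≤ (η * a - b) ^ 2 / (2 * η) := by positivity
          linarith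
    rw [integral_add (hsqi.const_mul _) (by
      apply Integrable.const_mul
      rw [integrable_indicator_iff measurableSet_closedBall]
      exact hIi n), integral_const_mul, integral_const_mul,
      integral_indicator measurableSet_closedBall, ← hK, Real.norm_eq_abs] at hle
    refine lt_of_le_of_lt hle ?_
    have h5 : η / 2 * K ≤ ε / 2 := by
      rw [hη, div_div, div_mul_eq_mul_div, div_le_div_iff₀ (by positivity) (by norm_num)]
      nlinarith
    have h6 : 1 / (2 * η) * ∫ s in closedBall (0 : E) (3 / 2), |levB (g n) s v w| ^ 2 < ε / 2 := by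
      rw [div_mul_eq_mul_div, one_mul, div_lt_div_iff₀ (by positivity) (by norm_num)]
      nlinarith
    linarith
  exact tendsto_nhds_unique hlim1 hlim2

end L4

end Sing
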