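import Pool.Agent.Work.MP_3893a0_gt.Defs
import Pool.Agent.Work.MP_3893a0_gt.Lim1
import Pool.Agent.Work.MP_3893a0_gt.Lim3
import Pool.Agent.Work.MP_3893a0_gt.Lim4a

/-! Module LIM4: limits of almost pluriharmonic functions. -/

open scoped ContDiff Topology BoundedContinuousFunction Convolution
open MeasureTheory Metric Set Filter

noncomputable section

namespace Sing

/-- (LIM4) main limit lemma -/
theorem limit_plurih (f : ℕ → E → ℝ) (f' : E → ℝ) (hf : ∀ n, ContDiffOn ℝ ∞ (f n) (ball 0 4))
    (hlim : TendstoUniformlyOn f f' atTop (closedBall 0 (3 / 2)))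
    (hL2 : Tendsto (fun n => ∫ z in closedBall (0 : E) (3 / 2),
      (|levB (f n) z e1 e1| ^ 2 + |levB (f n) z e2 e2| ^ 2 + |levB (f n) z e1 e2| ^ 2 +
       |levB (f n) z e1 (Complex.I • e2)| ^ 2)) atTop (𝓝 0)) :
    ∃ Φ : E → ℂ, DifferentiableOn ℂ Φ (ball 0 (5 / 4)) ∧
      ∀ z ∈ ball (0 : E) (5 / 4), (Φ z).re = f' z := by
  -- each of the four integrals tends to zero
  have hcB : ∀ n (v w : E), ContinuousOn (fun z => levB (f n) z v w) (closedBall 0 (3 / 2)) := by
    intro n v w
    obtain ⟨g, hg1, hg2, hg3⟩ := L4.exists_ext (hf n)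
    refine (L4.lev_cont hg1 v w).continuousOn.congr ?_
    intro s hs
    have hs2 : s ∈ ball (0 : E) 2 := by
      rw [mem_closedBall, dist_zero_right] at hs
      rw [mem_ball, dist_zero_right]
      linarith
    have h1 : f n =ᶠ[𝓝 s] g := by
      filter_upwards [isOpen_ball.mem_nhds hs2] with y hy
      exact (hg3 y hy).symm
    exact L4.lev_congr h1 v w
  have hI : ∀ n (v w : E), IntegrableOn (fun z => |levB (f n) z v w| ^ 2)
      (closedBall (0 : E) (3 / 2)) := by
    intro n v w
    exact ((hcB n v w).abs.pow 2).integrableOn_compact (isCompact_closedBall _ _)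
  have hsum : ∀ n, IntegrableOn (fun z : E =>
      |levB (f n) z e1 e1| ^ 2 + |levB (f n) z e2 e2| ^ 2 + |levB (f n) z e1 e2| ^ 2 +
       |levB (f n) z e1 (Complex.I • e2)| ^ 2) (closedBall (0 : E) (3 / 2)) := fun n =>
    (((hI n e1 e1).add (hI n e2 e2)).add (hI n e1 e2)).add (hI n e1 (Complex.I • e2))
  have hnn : ∀ n (v w : E), 0 ≤ ∫ z in closedBall (0 : E) (3 / 2), |levB (f n) z v w| ^ 2 :=
    fun n v w => integral_nonneg (fun _ => sq_nonneg _)
  have hT : ∀ v w : E, (∀ n z, |levB (f n) z v w| ^ 2 ≤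
      |levB (f n) z e1 e1| ^ 2 + |levB (f n) z e2 e2| ^ 2 + |levB (f n) z e1 e2| ^ 2 +
       |levB (f n) z e1 (Complex.I • e2)| ^ 2) →
      Tendsto (fun n => ∫ z in closedBall (0 : E) (3 / 2), |levB (f n) z v w| ^ 2) atTop (𝓝 0) :=
    fun v w h => squeeze_zero (fun n => hnn n v w)
      (fun n => setIntegral_mono (hI n v w) (hsum n) (h n)) hL2
  have h11 := hT e1 e1 (fun n z => by
    linarith [sq_nonneg |levB (f n) z e1 e1|, sq_nonneg |levB (f n) z e2 e2|,
      sq_nonneg |levB (f n) z e1 e2|, sq_nonneg |levB (f n) z e1 (Complex.I • e2)|])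
  have h22 := hT e2 e2 (fun n z => by
    linarith [sq_nonneg |levB (f n) z e1 e1|, sq_nonneg |levB (f n) z e2 e2|,
      sq_nonneg |levB (f n) z e1 e2|, sq_nonneg |levB (f n) z e1 (Complex.I • e2)|])
  have h12 := hT e1 e2 (fun n z => by
    linarith [sq_nonneg |levB (f n) z e1 e1|, sq_nonneg |levB (f n) z e2 e2|,
      sq_nonneg |levB (f n) z e1 e2|, sq_nonneg |levB (f n) z e1 (Complex.I • e2)|])
  have h1i := hT e1 (Complex.I • e2) (fun n z => by
    linarith [sq_nonneg |levB (f n) z e1 e1|, sq_nonneg |levB (f n) z e2 e2|,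
      sq_nonneg |levB (f n) z e1 e2|, sq_nonneg |levB (f n) z e1 (Complex.I • e2)|])
  have hcontf' : ContinuousOn f' (closedBall 0 (3 / 2)) :=
    hlim.continuousOn (Eventually.of_forall fun n =>
      (hf n).continuousOn.mono (closedBall_subset_ball (by norm_num))).frequently
  have hF'int : Integrable ((closedBall (0 : E) (3 / 2)).indicator f') := by
    rw [integrable_indicator_iff measurableSet_closedBall]
    exact hcontf'.integrableOn_compact (isCompact_closedBall _ _)
  -- mollifiers
  obtain ⟨χ, hχ⟩ : ∃ χ : ℕ → ContDiffBump (0 : E), ∀ k, (χ k).rOut = 1 / (8 * ((k : ℝ) + 1)) := by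
    refine ⟨fun k => ⟨1 / (16 * ((k : ℝ) + 1)), 1 / (8 * ((k : ℝ) + 1)), by positivity, ?_⟩,
      fun k => rfl⟩
    apply one_div_lt_one_div_of_lt (by positivity)
    have : (0 : ℝ) < (k : ℝ) + 1 := by positivity
    linarith
  have hδ : ∀ k, (χ k).rOut ≤ 1 / 8 := by
    intro k
    rw [hχ]
    apply one_div_le_one_div_of_le (by norm_num)
    have : (0 : ℝ) ≤ (k : ℝ) := Nat.cast_nonneg k
    linarith
  refine holo_limit (fun k => ((χ k).normed volume ⋆[L4.LL, volume]
    (closedBall (0 : E) (3 / 2)).indicator f')) f' (11 / 8) (5 / 4) (by norm_num) (by norm_num)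
    ?_ ?_
  · intro k
    have hs : ∀ t, (χ k).normed volume t ≠ 0 → ‖t‖ < (χ k).rOut := by
      intro t ht
      have h1 : t ∈ Function.support ((χ k).normed volume) := ht
      rw [(χ k).support_normed_eq, mem_ball, dist_zero_right] at h1
      exact h1
    have hz : ∀ (v w : E), Tendsto (fun n => ∫ z in closedBall (0 : E) (3 / 2),
        |levB (f n) z v w| ^ 2) atTop (𝓝 0) → ∀ z ∈ ball (0 : E) (11 / 8),
        levB ((χ k).normed volume ⋆[L4.LL, volume]
          (closedBall (0 : E) (3 / 2)).indicator f') z v w = 0 := by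
      intro v w hvw z hz
      rw [mem_ball, dist_zero_right] at hz
      exact L4.core hf hlim v w hvw (χ k).contDiff_normed (χ k).hasCompactSupport_normed
        (δ := (χ k).rOut) (R := 11 / 8) hs (by linarith [hδ k]) hz.le
    apply exists_holo_of_levB _ (11 / 8) (by norm_num)
    · exact ((χ k).hasCompactSupport_normed.contDiff_convolution_left L4.LL
        (χ k).contDiff_normed hF'int.locallyIntegrable).contDiffOn
    · intro z hz'
      exact ⟨hz _ _ h11 z hz', hz _ _ h22 z hz', hz _ _ h12 z hz', hz _ _ h1i z hz'⟩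
  · rw [Metric.tendstoUniformlyOn_iff]
    intro ε hε
    have huc : UniformContinuousOn f' (closedBall 0 (3 / 2)) :=
      (isCompact_closedBall _ _).uniformContinuousOn_of_continuous hcontf'
    rw [Metric.uniformContinuousOn_iff] at huc
    obtain ⟨δ, hδ0, hδ1⟩ := huc (ε / 2) (by positivity)
    have hev : ∀ᶠ k in atTop, (χ k).rOut < δ := by
      have h1 : Tendsto (fun k : ℕ => 1 / (8 * ((k : ℝ) + 1))) atTop (𝓝 0) := by
        have h2 := (tendsto_one_div_add_atTop_nhds_zero_nat (𝕜 := ℝ)).const_mul (1 / 8)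
        rw [mul_zero] at h2
        refine h2.congr fun k => ?_
        field_simp
      filter_upwards [h1.eventually (gt_mem_nhds hδ0)] with k hk
      rw [hχ]
      exact hk
    filter_upwards [hev] with k hk z hz
    rw [mem_ball, dist_zero_right] at hz
    have hzm : z ∈ closedBall (0 : E) (3 / 2) := by
      rw [mem_closedBall, dist_zero_right]; linarith
    have h1 := (χ k).dist_normed_convolution_le (μ := volume) (x₀ := z) (ε := ε / 2)
      (g := (closedBall (0 : E) (3 / 2)).indicator f') hF'int.aestronglyMeasurable (by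
        intro x hx
        rw [mem_ball] at hx
        have hxm : x ∈ closedBall (0 : E) (3 / 2) := by
          rw [mem_closedBall, dist_zero_right]
          have h2 : ‖x‖ ≤ ‖z‖ + dist x z := by
            rw [dist_eq_norm]
            have : x = z + (x - z) := by abel
            calc ‖x‖ = ‖z + (x - z)‖ := by rw [← this]
              _ ≤ _ := norm_add_le _ _
          linarith [hδ k]
        rw [indicator_of_mem hxm, indicator_of_mem hzm]
        exact (hδ1 x hxm z hzm (by linarith)).le)
    rw [indicator_of_mem hzm] at h1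
    rw [dist_comm]
    exact lt_of_le_of_lt h1 (by linarith)

end Sing
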