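import Pool.Agent.Work.MP_3893a0_gt.Defs
import Pool.Agent.Work.MP_3893a0_gt.Lim3

/-! (LIM5) `L²` oscillation bound for real parts of holomorphic functions of two variables. -/

open scoped ContDiff Topology Real
open MeasureTheory Metric Set Filter

noncomputable section

namespace Sing

namespace Lim15

/-- multiplication by a unit complex number preserves Lebesgue measure on `ℂ` -/
theorem mp_rot1 (c : ℂ) (hc : ‖c‖ = 1) : MeasurePreserving (fun w : ℂ => c * w) := by
  have h := (rotation ⟨c, by simpa [Submonoid.unitSphere] using hc⟩).measurePreserving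
  have e : ⇑(rotation ⟨c, by simpa [Submonoid.unitSphere] using hc⟩) = fun w : ℂ => c * w := by
    funext w
    simp [rotation_apply]
  rw [e] at h
  exact h

/-- multiplication by a unit complex number preserves Lebesgue measure on `ℂ × ℂ` -/
theorem mp_rot (c : ℂ) (hc : ‖c‖ = 1) : MeasurePreserving (fun w : E => c • w) := by
  have h := (mp_rot1 c hc).prod (mp_rot1 c hc)
  rw [← Measure.volume_eq_prod] at h
  exact h

theorem emb_rot (c : ℂ) (hc : ‖c‖ = 1) : MeasurableEmbedding (fun w : E => c • w) := by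
  have h0 : c ≠ 0 := by
    intro h
    rw [h, norm_zero] at hc
    exact zero_ne_one hc
  exact (Homeomorph.smulOfNeZero c h0).measurableEmbedding

theorem int_rot (c : ℂ) (hc : ‖c‖ = 1) (ρ : ℝ) (g : E → ℝ) :
    ∫ w in closedBall (0 : E) ρ, g (c • w) = ∫ w in closedBall (0 : E) ρ, g w := by
  have h := (mp_rot c hc).setIntegral_preimage_emb (emb_rot c hc) g (closedBall (0 : E) ρ)
  have e : (fun w : E => c • w) ⁻¹' closedBall (0 : E) ρ = closedBall (0 : E) ρ := by
    ext w
    simp [norm_smul, hc]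
  rw [e] at h
  exact h

/-- mean value property on circles -/
theorem mean_circle (Φ : E → ℂ) (z0 : E) {ρ R : ℝ} (hρR : ρ < R)
    (hΦ : DifferentiableOn ℂ Φ (ball z0 R)) (w : E) (hw : ‖w‖ ≤ ρ) :
    ∫ θ in (0 : ℝ)..(2 * π), (Φ (z0 + circleMap 0 1 θ • w)).re = 2 * π * (Φ z0).re := by
  have hmem : ∀ t ∈ closedBall (0 : ℂ) 1, z0 + t • w ∈ ball z0 R := by
    intro t ht
    rw [mem_closedBall_zero_iff] at ht
    rw [mem_ball, dist_eq_norm, add_sub_cancel_left, norm_smul]
    calc ‖t‖ * ‖w‖ ≤ 1 * ρ := by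
          apply mul_le_mul ht hw (norm_nonneg _) zero_le_one
      _ < R := by linarith
  have hcont : ContinuousOn (fun t : ℂ => Φ (z0 + t • w)) (closedBall 0 1) :=
    hΦ.continuousOn.comp (by fun_prop) hmem
  have hd : DiffContOnCl ℂ (fun t : ℂ => Φ (z0 + t • w)) (ball 0 |1|) := by
    rw [abs_one]
    constructor
    · exact hΦ.comp (by fun_prop) (fun t ht => hmem t (ball_subset_closedBall ht))
    · rw [closure_ball _ one_ne_zero]
      exact hcont
  have h := hd.circleAverage
  rw [Real.circleAverage_def] at h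
  simp only [zero_smul, add_zero] at h
  have hint : IntervalIntegrable (fun θ : ℝ => Φ (z0 + circleMap 0 1 θ • w)) volume 0 (2 * π) := by
    apply Continuous.intervalIntegrable
    rw [← continuousOn_univ]
    exact hcont.comp (continuous_circleMap 0 1).continuousOn (fun θ _ => by
      rw [mem_closedBall_zero_iff]
      simp [circleMap])
  have h1 : ∫ θ in (0 : ℝ)..(2 * π), (Φ (z0 + circleMap 0 1 θ • w)).re =
      (∫ θ in (0 : ℝ)..(2 * π), Φ (z0 + circleMap 0 1 θ • w)).re := by
    have := Complex.reCLM.intervalIntegral_comp_comm hint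
    simpa using this
  rw [h1]
  have h2 : ∫ θ in (0 : ℝ)..(2 * π), Φ (z0 + circleMap 0 1 θ • w) = (2 * π : ℝ) • Φ z0 := by
    rw [← h, smul_smul, mul_inv_cancel₀ (by positivity), one_smul]
  rw [h2]
  simp

/-- mean value property on balls -/
theorem mean_ball (Φ : E → ℂ) (z0 : E) {ρ R : ℝ} (hρR : ρ < R)
    (hΦ : DifferentiableOn ℂ Φ (ball z0 R)) :
    ∫ w in closedBall (0 : E) ρ, (Φ (z0 + w)).re =
      (volume (closedBall (0 : E) ρ)).toReal * (Φ z0).re := by
  have hcontF : ContinuousOn (fun p : ℝ × E => (Φ (z0 + circleMap 0 1 p.1 • p.2)).re)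
      (Icc 0 (2 * π) ×ˢ closedBall (0 : E) ρ) := by
    refine Complex.continuous_re.comp_continuousOn (hΦ.continuousOn.comp ?_ ?_)
    · apply Continuous.continuousOn
      have := continuous_circleMap 0 1
      fun_prop
    · rintro ⟨θ, w⟩ ⟨_, hw⟩
      rw [mem_closedBall_zero_iff] at hw
      rw [mem_ball, dist_eq_norm, add_sub_cancel_left, norm_smul]
      have : ‖circleMap 0 1 θ‖ = 1 := by simp [circleMap]
      rw [this, one_mul]
      exact lt_of_le_of_lt hw hρR
  have hint : Integrable (fun p : ℝ × E => (Φ (z0 + circleMap 0 1 p.1 • p.2)).re)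
      ((volume.restrict (Ioc 0 (2 * π))).prod (volume.restrict (closedBall (0 : E) ρ))) := by
    rw [Measure.prod_restrict]
    have h1 : IntegrableOn (fun p : ℝ × E => (Φ (z0 + circleMap 0 1 p.1 • p.2)).re)
        (Icc 0 (2 * π) ×ˢ closedBall (0 : E) ρ) (volume.prod volume) :=
      hcontF.integrableOn_compact (isCompact_Icc.prod (isCompact_closedBall 0 ρ))
    exact h1.mono_set (prod_mono Ioc_subset_Icc_self le_rfl)
  have hswap := integral_integral_swap
    (f := fun (θ : ℝ) (w : E) => (Φ (z0 + circleMap 0 1 θ • w)).re) hint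
  have hL : ∫ θ in Ioc 0 (2 * π), ∫ w in closedBall (0 : E) ρ,
      (Φ (z0 + circleMap 0 1 θ • w)).re =
      2 * π * ∫ w in closedBall (0 : E) ρ, (Φ (z0 + w)).re := by
    have : ∀ θ : ℝ, ∫ w in closedBall (0 : E) ρ, (Φ (z0 + circleMap 0 1 θ • w)).re =
        ∫ w in closedBall (0 : E) ρ, (Φ (z0 + w)).re := by
      intro θ
      exact int_rot (circleMap 0 1 θ) (by simp [circleMap]) ρ (fun w => (Φ (z0 + w)).re)
    simp only [this]
    rw [setIntegral_const]
    simp [Real.pi_pos.le]
  have hR : ∫ w in closedBall (0 : E) ρ, ∫ θ in Ioc 0 (2 * π),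
      (Φ (z0 + circleMap 0 1 θ • w)).re =
      (volume (closedBall (0 : E) ρ)).toReal * (2 * π * (Φ z0).re) := by
    have : ∀ w ∈ closedBall (0 : E) ρ, ∫ θ in Ioc 0 (2 * π),
        (Φ (z0 + circleMap 0 1 θ • w)).re = 2 * π * (Φ z0).re := by
      intro w hw
      rw [← intervalIntegral.integral_of_le (by positivity)]
      exact mean_circle Φ z0 hρR hΦ w (by simpa using hw)
    rw [setIntegral_congr_fun measurableSet_closedBall this, setIntegral_const]
    simp [Measure.real]
  have h := hL.symm.trans (hswap.trans hR)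
  have hpi : (0 : ℝ) < 2 * π := by positivity
  have : 2 * π * ∫ w in closedBall (0 : E) ρ, (Φ (z0 + w)).re =
      2 * π * ((volume (closedBall (0 : E) ρ)).toReal * (Φ z0).re) := by
    rw [h]; ring
  exact mul_left_cancel₀ hpi.ne' this

/-- pointwise bound by the `L²` norm -/
theorem sq_le (Φ : E → ℂ) (c : ℝ) (z0 : E) {ρ R : ℝ} (hρR : ρ < R)
    (hΦ : DifferentiableOn ℂ Φ (ball z0 R)) :
    (volume (closedBall (0 : E) ρ)).toReal * ((Φ z0).re - c) ^ 2 ≤
      ∫ w in closedBall (0 : E) ρ, ((Φ (z0 + w)).re - c) ^ 2 := by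
  set V := (volume (closedBall (0 : E) ρ)).toReal with hV
  have hcont : ContinuousOn (fun w : E => (Φ (z0 + w)).re) (closedBall (0 : E) ρ) := by
    refine Complex.continuous_re.comp_continuousOn (hΦ.continuousOn.comp (by fun_prop) ?_)
    intro w hw
    rw [mem_closedBall_zero_iff] at hw
    rw [mem_ball, dist_eq_norm, add_sub_cancel_left]
    exact lt_of_le_of_lt hw hρR
  have hK := isCompact_closedBall (0 : E) ρ
  have h0 := mean_ball Φ z0 hρR hΦ
  set a := (Φ z0).re - c with ha
  have hu : ∫ w in closedBall (0 : E) ρ, ((Φ (z0 + w)).re - c) = V * a := by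
    rw [integral_sub (hcont.integrableOn_compact hK) (by
      apply ContinuousOn.integrableOn_compact hK; fun_prop), h0, setIntegral_const]
    simp only [Measure.real, smul_eq_mul]
    rw [ha]; ring
  have hi1 : IntegrableOn (fun w : E => (Φ (z0 + w)).re - c) (closedBall (0 : E) ρ) :=
    (hcont.sub continuousOn_const).integrableOn_compact hK
  have hi2 : IntegrableOn (fun w : E => ((Φ (z0 + w)).re - c) ^ 2) (closedBall (0 : E) ρ) :=
    ((hcont.sub continuousOn_const).pow 2).integrableOn_compact hK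
  have hnn : 0 ≤ ∫ w in closedBall (0 : E) ρ, (((Φ (z0 + w)).re - c) - a) ^ 2 :=
    integral_nonneg fun w => sq_nonneg _
  have hexp : ∫ w in closedBall (0 : E) ρ, (((Φ (z0 + w)).re - c) - a) ^ 2 =
      (∫ w in closedBall (0 : E) ρ, ((Φ (z0 + w)).re - c) ^ 2) - V * a ^ 2 := by
    have e : ∀ w : E, (((Φ (z0 + w)).re - c) - a) ^ 2 =
        (((Φ (z0 + w)).re - c) ^ 2 - 2 * a * ((Φ (z0 + w)).re - c)) + a ^ 2 := by
      intro w; ring
    simp only [e]
    have hi3 : IntegrableOn (fun w : E => 2 * a * ((Φ (z0 + w)).re - c)) (closedBall (0 : E) ρ) :=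
      hi1.const_mul _
    have hi4 : IntegrableOn (fun _ : E => a ^ 2) (closedBall (0 : E) ρ) := by
      apply ContinuousOn.integrableOn_compact hK; fun_prop
    have hi5 : IntegrableOn (fun w : E => ((Φ (z0 + w)).re - c) ^ 2 -
        2 * a * ((Φ (z0 + w)).re - c)) (closedBall (0 : E) ρ) := hi2.sub hi3
    rw [integral_add hi5 hi4, integral_sub hi2 hi3, integral_const_mul, hu,
      setIntegral_const]
    simp only [Measure.real, smul_eq_mul]
    ring
  rw [hexp] at hnn
  linarith

end Lim15

open Lim15 in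
/-- (LIM5) `L²` oscillation bound -/
theorem osc_bound : ∃ C : ℝ, 0 ≤ C ∧ ∀ Φ : E → ℂ, DifferentiableOn ℂ Φ (ball 0 (5 / 4)) →
    ∀ z : E, ‖z‖ ≤ 1 → ‖Φ z - Φ 0‖ ^ 2 ≤
      C * ∫ w in closedBall (0 : E) (6 / 5), ((Φ w).re - (Φ 0).re) ^ 2 := by
  set V := (volume (closedBall (0 : E) (1 / 20))).toReal with hV
  have hVpos : 0 < V := by
    apply ENNReal.toReal_pos
    · exact (measure_closedBall_pos volume (0 : E) (by norm_num)).ne'
    · exact measure_closedBall_lt_top.ne
  refine ⟨400 / V, by positivity, fun Φ hΦ z hz => ?_⟩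
  set I := ∫ w in closedBall (0 : E) (6 / 5), ((Φ w).re - (Φ 0).re) ^ 2 with hI
  have hI0 : 0 ≤ I := integral_nonneg fun w => sq_nonneg _
  have hcont : ContinuousOn (fun w : E => ((Φ w).re - (Φ 0).re) ^ 2)
      (closedBall (0 : E) (6 / 5)) := by
    have h1 : ContinuousOn Φ (closedBall (0 : E) (6 / 5)) :=
      hΦ.continuousOn.mono (closedBall_subset_ball (by norm_num))
    exact ((Complex.continuous_re.comp_continuousOn h1).sub continuousOn_const).pow 2
  have hint : IntegrableOn (fun w : E => ((Φ w).re - (Φ 0).re) ^ 2)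
      (closedBall (0 : E) (6 / 5)) :=
    hcont.integrableOn_compact (isCompact_closedBall _ _)
  have hpt : ∀ z0 ∈ ball (0 : E) (11 / 10), V * ((Φ z0).re - (Φ 0).re) ^ 2 ≤ I := by
    intro z0 hz0
    rw [mem_ball_zero_iff] at hz0
    have hsub : ball z0 (1 / 10) ⊆ ball (0 : E) (5 / 4) := by
      intro w hw
      rw [mem_ball, dist_eq_norm] at hw
      rw [mem_ball_zero_iff]
      have : ‖w‖ ≤ ‖w - z0‖ + ‖z0‖ := by
        have := norm_add_le (w - z0) z0
        simpa using this
      linarith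
    have h1 := sq_le Φ (Φ 0).re z0 (ρ := 1 / 20) (R := 1 / 10) (by norm_num) (hΦ.mono hsub)
    refine h1.trans ?_
    have h2 : ∫ w in closedBall (0 : E) (1 / 20), ((Φ (z0 + w)).re - (Φ 0).re) ^ 2 =
        ∫ w in closedBall z0 (1 / 20), ((Φ w).re - (Φ 0).re) ^ 2 := by
      have : (volume : Measure E).IsAddLeftInvariant := by
        rw [Measure.volume_eq_prod]
        infer_instance
      have h := (measurePreserving_add_left (volume : Measure E) z0).setIntegral_preimage_emb
        (measurableEmbedding_addLeft z0) (fun w => ((Φ w).re - (Φ 0).re) ^ 2)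
        (closedBall z0 (1 / 20))
      have e : (fun w : E => z0 + w) ⁻¹' closedBall z0 (1 / 20) = closedBall (0 : E) (1 / 20) := by
        ext w
        simp [dist_eq_norm]
      rw [e] at h
      exact h
    rw [h2]
    apply setIntegral_mono_set hint
    · exact Eventually.of_forall fun w => sq_nonneg _
    · apply LE.le.eventuallyLE
      intro w hw
      rw [mem_closedBall, dist_eq_norm] at hw
      rw [mem_closedBall_zero_iff]
      have : ‖w‖ ≤ ‖w - z0‖ + ‖z0‖ := by
        have := norm_add_le (w - z0) z0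
        simpa using this
      linarith
  set M := √(I / V) with hM
  have hM0 : 0 ≤ M := Real.sqrt_nonneg _
  have hM2 : M ^ 2 = I / V := Real.sq_sqrt (by positivity)
  have habs : ∀ z0 ∈ ball (0 : E) (11 / 10), |(Φ z0).re - (Φ 0).re| ≤ M := by
    intro z0 hz0
    have h := hpt z0 hz0
    apply Real.le_sqrt_of_sq_le
    rw [sq_abs, le_div_iff₀ hVpos]
    linarith
  have hbc : ∀ ε > 0, ‖Φ z - Φ 0‖ ≤ 20 * (M + ε) := by
    intro ε hε
    have h := Lim51.bc Φ (r := 1) (R := 11 / 10) (M := M + ε) (by norm_num) (by positivity)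
      (hΦ.mono (ball_subset_ball (by norm_num)))
      (fun z0 hz0 => (habs z0 hz0).trans (by linarith)) z hz
    refine h.trans (le_of_eq ?_)
    ring
  have hle : ‖Φ z - Φ 0‖ ≤ 20 * M := by
    apply le_of_forall_pos_le_add
    intro ε hε
    have := hbc (ε / 20) (by positivity)
    linarith
  calc ‖Φ z - Φ 0‖ ^ 2 ≤ (20 * M) ^ 2 := by
        apply pow_le_pow_left₀ (norm_nonneg _) hle
    _ = 400 / V * I := by
        rw [mul_pow, hM2]
        ring

end Sing
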