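import Pool.Agent.Work.MP_3893a0_gt.KitMax

/-! Module OP2: the kit. -/

open scoped ContDiff Topology BoundedContinuousFunction
open MeasureTheory Metric Set Filter

noncomputable section

set_option linter.unusedSectionVars false

namespace Sing

variable {G Y : Type*} [Group G] [TopologicalSpace Y] [MulAction G Y]

namespace Atl

variable {𝒜 : Atl G Y} [ContinuousConstSMul G Y] [T2Space Y]

/-- an equivariant function is mapped to an equivariant function -/
theorem op_equi_smul {V : Type*} [NormedAddCommGroup V] [NormedSpace ℝ V] [CompleteSpace V]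
    (κ : Fin 𝒜.n → E → E → ℝ) (hs : ∀ i ξ w, κ i ξ w ≠ 0 → ‖ξ‖ ≤ 3)
    (hi : ∀ i ξ, IntegrableOn (κ i ξ) (closedBall 0 2)) (ρ : G → (V ≃ₗᵢ[ℝ] V)) {v : Y → V}
    (hv : Continuous v) (hρ : ∀ g y, v (g • y) = ρ g (v y)) (g : G) (y : Y) :
    𝒜.Op κ v (g • y) = ρ g (𝒜.Op κ v y) := by
  rw [← 𝒜.op_translate]
  have h1 : (fun y => v (g • y)) = fun y =>
      ((ρ g).toContinuousLinearEquiv : V →L[ℝ] V) (v y) := by
    funext y; exact hρ g y
  rw [h1, ← 𝒜.op_clm κ hs hi _ hv]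
  rfl

/-- the lower bound of the kernels `t0` -/
theorem op_t0_lower {M : 𝒜.Met} {χ : Fin 𝒜.n → E → ℝ} (L : ∀ i, LocPar (M.A i) (χ i)) :
    ∃ c > 0, ∃ r > 0, r < 1 ∧ ∀ (a : 𝒜.Idx) (ξ : E), ‖ξ‖ ≤ 1 → ∀ f : Y → ℝ, Continuous f →
    (∀ y, 0 ≤ f y) → c * ∫ w in ball ξ r, f (𝒜.sym a w) ≤
      𝒜.Op (fun i => (L i).t0) f (𝒜.sym a ξ) := by
  choose c0 hc0 r0 hr0 h0 using fun i => (L i).t0_lower
  have hc : ∀ᶠ c in 𝓝[>] (0 : ℝ), ∀ i, c ≤ c0 i := eventually_all.2 fun i => by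
    filter_upwards [Ioo_mem_nhdsGT (hc0 i)] with c hc using hc.2.le
  have hr : ∀ᶠ r in 𝓝[>] (0 : ℝ), ∀ i, r ≤ r0 i := eventually_all.2 fun i => by
    filter_upwards [Ioo_mem_nhdsGT (hr0 i)] with c hc using hc.2.le
  obtain ⟨c, hcc, hcpos⟩ := (hc.and self_mem_nhdsWithin).exists
  obtain ⟨r, ⟨hrr, hrpos⟩, hr1⟩ := ((hr.and self_mem_nhdsWithin).and
    (Ioo_mem_nhdsGT (one_pos : (0 : ℝ) < 1))).exists
  refine ⟨c, hcpos, r, hrpos, hr1.2, fun a ξ hξ f hf hf0 => ?_⟩
  have hsub : ball ξ r ⊆ closedBall (0 : E) 2 := by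
    intro w hw
    rw [mem_ball, dist_eq_norm] at hw
    rw [mem_closedBall_zero_iff]
    have : w = (w - ξ) + ξ := by abel
    calc ‖w‖ = ‖(w - ξ) + ξ‖ := by rw [← this]
      _ ≤ ‖w - ξ‖ + ‖ξ‖ := norm_add_le _ _
      _ ≤ 1 + 1 := add_le_add (hw.le.trans hr1.2.le) hξ
      _ = 2 := by norm_num
  have hcf : ContinuousOn (fun w => f (𝒜.sym a w)) (closedBall (0 : E) 2) :=
    hf.comp_continuousOn (𝒜.osym_contOn a)
  have hi1 : IntegrableOn (fun w => f (𝒜.sym a w)) (closedBall (0 : E) 2) :=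
    hcf.integrableOn_compact (isCompact_closedBall 0 2)
  have hi2 : IntegrableOn (fun w => (L a.2).t0 ξ w • f (𝒜.sym a w)) (closedBall (0 : E) 2) :=
    𝒜.ointegrable_piece (fun i => (L i).t0) (fun i ξ => ((L i).t0_int ξ).integrableOn) hf a ξ
  refine le_trans ?_ (𝒜.op_ge (fun i => (L i).t0) (fun i ξ w h => ((L i).t0_supp ξ w h).1)
    (fun i ξ w => (L i).t0_nonneg ξ w) hf0 a (by linarith))
  calc c * ∫ w in ball ξ r, f (𝒜.sym a w) = ∫ w in ball ξ r, c * f (𝒜.sym a w) :=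
        (integral_const_mul _ _).symm
    _ ≤ ∫ w in ball ξ r, (L a.2).t0 ξ w • f (𝒜.sym a w) := by
        refine integral_mono_ae ((hi1.mono_set hsub).const_mul c) (hi2.mono_set hsub) ?_
        have hne : ∀ᵐ w ∂(volume.restrict (ball ξ r)), w ≠ ξ :=
          ae_restrict_of_ae (by
            have : volume ({ξ} : Set E) = 0 := by
              have h1 : ({ξ} : Set E) = {ξ.1} ×ˢ {ξ.2} := by
                rw [Set.singleton_prod_singleton]
              rw [h1, Measure.volume_eq_prod, Measure.prod_prod, measure_singleton, zero_mul]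
            exact compl_mem_ae_iff.2 this)
        filter_upwards [hne, ae_restrict_mem measurableSet_ball] with w hw hwb
        refine mul_le_mul_of_nonneg_right ?_ (hf0 _)
        exact (hcc a.2).trans (h0 a.2 ξ hξ w (ball_subset_ball (hrr a.2) hwb) hw)
    _ ≤ ∫ w in closedBall (0 : E) 2, (L a.2).t0 ξ w • f (𝒜.sym a w) := by
        refine setIntegral_mono_set hi2 ?_ hsub.eventuallyLE
        exact Eventually.of_forall fun w => smul_nonneg ((L a.2).t0_nonneg ξ w) (hf0 _)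

end Atl

/-! ### the kit -/

theorem exists_kit (𝒜 : Atl G Y) [ContinuousConstSMul G Y] [T2Space Y] [Nonempty Y]
    (P : 𝒜.Pou) (M : 𝒜.Met)
    (L : ∀ i, LocPar (M.A i) (P.χ i)) (H : Type*) [NormedAddCommGroup H]
    [InnerProductSpace ℝ H] [CompleteSpace H] (ρ : G →* (H ≃ₗᵢ[ℝ] H)) :
    Nonempty (Kit 𝒜 M H ρ) := by
  have hss : ∀ i ξ w, (L i).t0 ξ w ≠ 0 → ‖ξ‖ ≤ 3 := fun i ξ w h => ((L i).t0_supp ξ w h).1
  have hii : ∀ i ξ, IntegrableOn ((L i).t0 ξ) (closedBall 0 2) := fun i ξ =>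
    ((L i).t0_int ξ).integrableOn
  obtain ⟨T, hT⟩ := 𝒜.exists_opCLM (V := ℝ) (fun n i => (L i).t n) (fun i => (L i).t0)
    (fun n i => (L i).t_supp n) (fun i => (L i).t0_supp) (fun n i => (L i).t_cont n)
    (fun i => (L i).t0_int) (Atl.t_hlim L)
  obtain ⟨TH, hTH⟩ := 𝒜.exists_opCLM (V := H) (fun n i => (L i).t n) (fun i => (L i).t0)
    (fun n i => (L i).t_supp n) (fun i => (L i).t0_supp) (fun n i => (L i).t_cont n)
    (fun i => (L i).t0_int) (Atl.t_hlim L)
  obtain ⟨c, hc, r, hr, hr1, hlow⟩ := Atl.op_t0_lower L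
  refine ⟨{
    T := T
    TH := TH
    KH := fun n v => 𝒜.Op (fun i => (L i).k n) v
    T_pos := fun f hf y => ?_
    T_TH := fun v e f hf y => ?_
    T_inv := fun g f f' hf y => ?_
    TH_equi := fun v hv g y => ?_
    T_lower := ⟨c, hc, r, hr, hr1, fun a ξ hξ f hf => ?_⟩
    T_compact := fun f hf hf1 => ?_
    T_max := fun f hf ε hε h => ?_
    KH_smooth := fun n v => Atl.op_k_smooth L n v.continuous
    KH_equi := fun n v hv g y => ?_
    KH_lim := fun v => ⟨𝒜.Op (fun i => (L i).k0) v, ?_⟩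
    KH_P := fun v hv ε hε => ?_ }⟩
  · rw [hT]
    exact 𝒜.op_nonneg _ (fun i ξ w => (L i).t0_nonneg ξ w) hf y
  · rw [hT, hTH]
    have h1 := 𝒜.op_clm (fun i => (L i).t0) hss hii (innerSL ℝ e) v.continuous y
    have h2 : (f : Y → ℝ) = fun y => innerSL ℝ e (v y) := by
      funext y
      rw [hf y, innerSL_apply_apply, real_inner_comm]
    rw [h2, ← h1, innerSL_apply_apply, real_inner_comm]
  · rw [hT, hT]
    have h2 : (f' : Y → ℝ) = fun y => f (g • y) := by
      funext y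
      exact hf y
    rw [h2, 𝒜.op_translate]
  · rw [hTH, hTH]
    exact Atl.op_equi_smul (fun i => (L i).t0) hss hii ρ v.continuous hv g y
  · rw [hT]
    exact hlow a ξ hξ f f.continuous hf
  · obtain ⟨F, s, hs, hF⟩ := 𝒜.op_compact (fun n i => (L i).t n) (fun i => (L i).t0)
      (fun n i => (L i).t_supp n) (fun i => (L i).t0_supp) (fun n i => (L i).t_cont n)
      (fun i => (L i).t0_int) (Atl.t_hlim L) f hf hf1
    have hF' : TendstoUniformly (fun n => (T (f (s n)) : Y → ℝ)) F atTop := by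
      have : (fun n => (T (f (s n)) : Y → ℝ)) = fun n => 𝒜.Op (fun i => (L i).t0) (f (s n)) := by
        funext n y
        exact hT _ _
      rw [this]; exact hF
    have hFc : Continuous F := hF'.continuous (Frequently.of_forall fun n => (T (f (s n))).continuous)
    have hFb : ∃ R : ℝ, ∀ y, ‖F y‖ ≤ R := by
      rw [Metric.tendstoUniformly_iff] at hF'
      obtain ⟨n, hn⟩ := (hF' 1 one_pos).exists
      refine ⟨‖T (f (s n))‖ + 1, fun y => ?_⟩
      have h1 := hn y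
      rw [dist_eq_norm] at h1
      have h2 := (T (f (s n))).norm_coe_le_norm y
      calc ‖F y‖ = ‖T (f (s n)) y + (F y - T (f (s n)) y)‖ := by congr 1; ring
        _ ≤ ‖T (f (s n)) y‖ + ‖F y - T (f (s n)) y‖ := norm_add_le _ _
        _ ≤ _ := add_le_add h2 h1.le
    obtain ⟨R, hR⟩ := hFb
    refine ⟨BoundedContinuousFunction.ofNormedAddCommGroup F hFc R hR, s, hs, ?_⟩
    rw [BoundedContinuousFunction.tendsto_iff_tendstoUniformly]
    exact hF'
  · refine Atl.kit_max P L f.continuous ‖f‖ f.norm_coe_le_norm hf ε hε fun y => ?_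
    rw [← hT]
    exact h y
  · exact Atl.op_equi_smul (fun i => (L i).k n) (fun i ξ w h => ((L i).k_supp n ξ w h).1)
      (fun i ξ => (Atl.intg_k L n i ξ).integrableOn) ρ v.continuous hv g y
  · rw [Metric.tendstoUniformly_iff]
    intro ε hε
    filter_upwards [Atl.op_k_lim (V := H) L ‖v‖ (ε / 2) (half_pos hε)] with n hn y
    rw [dist_comm, dist_eq_norm]
    exact (hn v v.continuous v.norm_coe_le_norm y).trans_lt (half_lt_self hε)
  · filter_upwards [Atl.P_lim P L ρ v.continuous ‖v‖ v.norm_coe_le_norm hv ε hε] with n hn i z hz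
    have := hn (1, i) z hz
    rw [hTH]
    exact this

end Sing
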