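import Pool.Agent.Work.MP_3893a0_gt.Par5

/-! Module PAR6 : assembly of the local parametrix. -/

open scoped ContDiff Topology BoundedContinuousFunction
open MeasureTheory Metric Set Filter

noncomputable section

namespace Sing

theorem p6_levB_const_mul (a : ℝ) (f : E → ℝ) (z v w : E) :
    levB (fun x => a * f x) z v w = a * levB f z v w := by
  have h1 : (fderiv ℝ (fun x => a * f x)) = a • fderiv ℝ f :=
    fderiv_const_smul_field (f := f) a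
  have h2 : fderiv ℝ (a • fderiv ℝ f) = a • fderiv ℝ (fderiv ℝ f) :=
    fderiv_const_smul_field (f := fderiv ℝ f) a
  unfold levB
  rw [h1, h2]
  simp only [Pi.smul_apply, FunLike.coe_smul, smul_eq_mul, mul_add]

theorem p6_Pc_const_mul (A : LocCoef) (a : ℝ) (f : E → ℝ) (z : E) :
    Pc A (fun x => a * f x) z = a * Pc A f z := by
  unfold Pc
  rw [p6_levB_const_mul, p6_levB_const_mul, p6_levB_const_mul, p6_levB_const_mul]
  simp only [smul_eq_mul]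
  ring

section

variable (A : LocCoef) (χ : E → ℝ) (hχ : ContDiff ℝ ∞ χ) (hχ0 : ∀ z, 0 ≤ χ z)
  (hχs : ∀ z, χ z ≠ 0 → ‖z‖ ≤ 2) (c : Cst)
  (hsupp : ∀ w : E, ‖w‖ ≤ 2 → ∀ v : E, A.q w v < c.σ → ‖v‖ ≤ 1)

include hχs hsupp in
theorem p6_supp {δ : ℝ} (hδ : 0 ≤ δ) (ξ w : E) (f : ℝ → ℝ)
    (hf : ∀ s, c.σ ≤ s → f s = 0) (h1 : χ w ≠ 0) (h2 : f (A.q w (ξ - w) + δ) ≠ 0) :
    ‖ξ‖ ≤ 3 ∧ ‖w‖ ≤ 2 := by
  have hw := hχs w h1
  refine ⟨?_, hw⟩
  by_contra h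
  push Not at h
  by_cases hq : A.q w (ξ - w) < c.σ
  · have h3 := hsupp w hw _ hq
    have h4 : ‖ξ‖ ≤ ‖ξ - w‖ + ‖w‖ := by simpa using norm_add_le (ξ - w) w
    linarith
  · push Not at hq
    exact h2 (hf _ (by linarith))

include hχs hsupp in
theorem p6_k_supp {δ : ℝ} (hδ : 0 ≤ δ) (ξ w : E) (h : kK A χ c δ ξ w ≠ 0) :
    ‖ξ‖ ≤ 3 ∧ ‖w‖ ≤ 2 := by
  unfold kK at h
  refine p6_supp A χ hχs c hsupp hδ ξ w c.θ (fun s hs => (c.θ_zero hs).1) ?_ ?_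
  · intro h0; apply h; rw [h0]; simp
  · intro h0; apply h; rw [h0]; simp

include hχs hsupp in
theorem p6_m_supp {δ : ℝ} (hδ : 0 ≤ δ) (ξ w : E) (h : mK A χ c δ ξ w ≠ 0) :
    ‖ξ‖ ≤ 3 ∧ ‖w‖ ≤ 2 := by
  unfold mK at h
  refine p6_supp A χ hχs c hsupp hδ ξ w c.θ2 (fun s hs => (c.θ_zero hs).2.2) ?_ ?_
  · intro h0; apply h; rw [h0]; simp
  · intro h0; apply h; rw [h0]; simp

include hχs hsupp in
theorem p6_t_supp {δ : ℝ} (hδ : 0 ≤ δ) (ξ w : E) (h : tK A χ c δ ξ w ≠ 0) :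
    ‖ξ‖ ≤ 3 ∧ ‖w‖ ≤ 2 := by
  unfold tK at h
  by_cases h2 : c.θ2 (A.q w (ξ - w) + δ) = 0
  · refine p6_supp A χ hχs c hsupp hδ ξ w c.θ1 (fun s hs => (c.θ_zero hs).2.1) ?_ ?_
    · intro h0; apply h; rw [h0]; simp
    · intro h0; apply h; rw [h0, h2]; simp
  · refine p6_supp A χ hχs c hsupp hδ ξ w c.θ2 (fun s hs => (c.θ_zero hs).2.2) ?_ h2
    intro h0; apply h; rw [h0]; simp

include hχ0 hχs in
theorem p6_kap_nonneg (w : E) : 0 ≤ χ w / (kap0 * A.D w) := by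
  by_cases h : χ w = 0
  · rw [h]; simp
  · have hw := hχs w h
    have hD := A.p5_D_pos (w := w) (by linarith)
    have hk := kap0_pos
    exact div_nonneg (hχ0 w) (by positivity)

include hχ0 hχs in
theorem p6_m_nonneg {δ : ℝ} (hδ : 0 < δ) (ξ w : E) : 0 ≤ mK A χ c δ ξ w := by
  by_cases h : χ w = 0
  · unfold mK; rw [h]; simp
  · have hw := hχs w h
    obtain ⟨b, hb, B, hq⟩ := A.q_bounds
    have hq1 := (hq w (by linarith) (ξ - w)).1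
    have hq0 : 0 ≤ A.q w (ξ - w) := le_trans (by positivity) hq1
    unfold mK
    refine mul_nonneg (p6_kap_nonneg A χ hχ0 hχs w) (mul_nonneg (by positivity) ?_)
    exact c.θ2_nonneg (by positivity)

include hχs in
theorem p6_k_eq {δ : ℝ} (hδ : 0 < δ) (ξ w : E) :
    Pc A (fun x => kK A χ c δ x w) ξ = tK A χ c δ ξ w - mK A χ c δ ξ w := by
  unfold kK tK mK
  rw [p6_Pc_const_mul]
  by_cases h : χ w = 0
  · rw [h]; simp
  · have hw := hχs w h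
    obtain ⟨b, hb, B, hq⟩ := A.q_bounds
    rw [A.Pc_theta (w := w) (by linarith) c.θ c.θ1 c.θ2 hδ (fun s hs => c.θ_hasDerivAt hs)
      (fun s hs => c.θ1_hasDerivAt hs) ξ
      (fun v => le_trans (by positivity) (hq w (by linarith) v).1)]
    ring

/-- lower bound for `t0` -/
theorem p6_t0_ge {C : ℝ} (hC : 0 ≤ C) (hCc : C ≤ c.C)
    (hGB : ∀ ξ w : E, ‖ξ‖ ≤ 3 → ‖w‖ ≤ 2 →
    4 * A.q w (ξ - w) * (1 - C * √(A.q w (ξ - w))) ≤ A.Gam ξ w ∧
    A.Gam ξ w ≤ 4 * A.q w (ξ - w) * (1 + C * √(A.q w (ξ - w))) ∧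
    |A.Bq ξ w - 8| ≤ C * √(A.q w (ξ - w))) (ξ w : E) (hξ : ‖ξ‖ ≤ 3) (hw : ‖w‖ ≤ 2)
    (hq0 : 0 < A.q w (ξ - w)) :
    4 * (A.q w (ξ - w) * (1 - c.C * √(A.q w (ξ - w))) * c.θ2 (A.q w (ξ - w)) +
      (2 + c.C * √(A.q w (ξ - w))) * c.θ1 (A.q w (ξ - w))) ≤
    A.Gam ξ w * c.θ2 (A.q w (ξ - w)) + A.Bq ξ w * c.θ1 (A.q w (ξ - w)) := by
  obtain ⟨h1, _, h3⟩ := hGB ξ w hξ hw
  have h4 := (abs_le.mp h3).2
  have hθ2 := c.θ2_nonneg hq0
  have hθ1 := c.θ1_nonpos hq0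
  generalize A.q w (ξ - w) = s at *
  have hs := Real.sqrt_nonneg s
  have hCs : C * √s ≤ c.C * √s := by gcongr
  have h5 : 4 * s * (1 - c.C * √s) * c.θ2 s ≤ A.Gam ξ w * c.θ2 s := by
    refine mul_le_mul_of_nonneg_right (le_trans ?_ h1) hθ2
    have : 4 * s * (c.C * √s) ≥ 4 * s * (C * √s) := by gcongr
    nlinarith
  have h6 : (8 + 4 * (c.C * √s)) * c.θ1 s ≤ A.Bq ξ w * c.θ1 s := by
    refine mul_le_mul_of_nonpos_right ?_ hθ1
    have : 0 ≤ c.C * √s := le_trans (by positivity) hCs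
    linarith
  nlinarith

end

/-- (PAR6) assembly -/
theorem exists_locPar (A : LocCoef) (χ : E → ℝ) (hχ : ContDiff ℝ ∞ χ) (hχ0 : ∀ z, 0 ≤ χ z)
    (hχs : ∀ z, χ z ≠ 0 → ‖z‖ ≤ 2) (hlow : ∃ b > 0, ∀ z : E, ‖z‖ ≤ 3 / 2 → b ≤ χ z) :
    Nonempty (LocPar A χ) := by
  obtain ⟨C, hC, hGB⟩ := A.Gam_Bq_bounds
  obtain ⟨b, hb, B, hq⟩ := A.q_bounds
  obtain ⟨c, hcC, hcσ⟩ := exists_cst C b hb
  have hsupp : ∀ w : E, ‖w‖ ≤ 2 → ∀ v : E, A.q w v < c.σ → ‖v‖ ≤ 1 := by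
    intro w hw v hv
    have h1 := (hq w (by linarith) v).1
    have h2 : b * ‖v‖ ^ 2 ≤ b * 1 := by linarith
    have h3 := le_of_mul_le_mul_left h2 hb
    nlinarith [norm_nonneg v]
  have hk0 := kap0_pos
  have hδ : ∀ n : ℕ, 0 < 1 / ((n : ℝ) + 1) := fun n => by positivity
  have hδlim : Tendsto (fun n : ℕ => 1 / ((n : ℝ) + 1)) atTop (𝓝 0) :=
    tendsto_one_div_add_atTop_nhds_zero_nat
  have hev : ∀ δ0 > 0, ∀ᶠ n : ℕ in atTop, 1 / ((n : ℝ) + 1) < δ0 := fun δ0 h =>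
    hδlim.eventually (gt_mem_nhds h)
  refine ⟨{
    k := fun n => kK A χ c (1 / ((n : ℝ) + 1))
    t := fun n => tK A χ c (1 / ((n : ℝ) + 1))
    m := fun n => mK A χ c (1 / ((n : ℝ) + 1))
    k0 := kK A χ c 0
    t0 := tK A χ c 0
    k_smooth := fun n => kK_smooth A χ hχ hχ0 hχs c hsupp (hδ n)
    k_supp := fun n ξ w h => p6_k_supp A χ hχs c hsupp (hδ n).le ξ w h
    k0_supp := fun ξ w h => p6_k_supp A χ hχs c hsupp le_rfl ξ w h
    k_eq := fun n ξ w _ => p6_k_eq A χ hχs c (hδ n) ξ w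
    t_cont := fun n => tK_cont A χ hχ hχ0 hχs c hsupp (hδ n)
    m_cont := fun n => mK_cont A χ hχ hχ0 hχs c hsupp (hδ n)
    t_supp := fun n ξ w h => p6_t_supp A χ hχs c hsupp (hδ n).le ξ w h
    m_supp := fun n ξ w h => p6_m_supp A χ hχs c hsupp (hδ n).le ξ w h
    t0_supp := fun ξ w h => p6_t_supp A χ hχs c hsupp le_rfl ξ w h
    t0_nonneg := ?_
    m_nonneg := fun n ξ w => p6_m_nonneg A χ hχ0 hχs c (hδ n) ξ w
    k0_int := (kK_lim A χ hχ hχ0 hχs c hsupp).1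
    t0_int := (tK_lim A χ hχ hχ0 hχs c hsupp).1
    k_lim := ?_
    t_lim := ?_
    m_mass := ?_
    m_conc := ?_
    t0_lower := ?_ }⟩
  · intro ξ w
    by_cases h0 : tK A χ c 0 ξ w = 0
    · rw [h0]
    obtain ⟨hξ, hw⟩ := p6_t_supp A χ hχs c hsupp le_rfl ξ w h0
    have hq1 := (hq w (by linarith) (ξ - w)).1
    have hq0 : 0 ≤ A.q w (ξ - w) := le_trans (by positivity) hq1
    unfold tK
    rw [mul_zero, add_zero, add_zero]
    refine mul_nonneg (p6_kap_nonneg A χ hχ0 hχs w) ?_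
    rcases hq0.eq_or_lt with h | h
    · rw [← h, c.θ_at_zero.2.1, c.θ_at_zero.2.2]; simp
    · refine le_trans ?_ (p6_t0_ge A c hC hcC hGB ξ w hξ hw h)
      have := c.θ_key h
      linarith
  · intro ε hε
    obtain ⟨δ0, hδ0, h⟩ := (kK_lim A χ hχ hχ0 hχs c hsupp).2 ε hε
    filter_upwards [hev δ0 hδ0] with n hn ξ
    exact h _ (hδ n) hn ξ
  · intro ε hε
    obtain ⟨δ0, hδ0, h⟩ := (tK_lim A χ hχ hχ0 hχs c hsupp).2 ε hε
    filter_upwards [hev δ0 hδ0] with n hn ξ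
    exact h _ (hδ n) hn ξ
  · intro ε hε
    obtain ⟨δ0, hδ0, h⟩ := mK_mass A χ hχ hχ0 hχs c hsupp ε hε
    filter_upwards [hev δ0 hδ0] with n hn ξ
    exact h _ (hδ n) hn ξ
  · intro r hr ε hε
    obtain ⟨δ0, hδ0, h⟩ := mK_conc A χ hχ hχ0 hχs c hsupp r hr ε hε
    filter_upwards [hev δ0 hδ0] with n hn ξ
    exact h _ (hδ n) hn ξ
  · obtain ⟨bχ, hbχ, hlow⟩ := hlow
    obtain ⟨s1, hs1, b1, hb1, hkey⟩ := c.θ_key_pos
    -- upper bound for `D`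
    have hK : IsCompact (closedBall (0 : E) 2) := isCompact_closedBall _ _
    have hsub : closedBall (0 : E) 2 ⊆ ball 0 4 := closedBall_subset_ball (by norm_num)
    obtain ⟨w0, hw0, hmax⟩ := hK.exists_isMaxOn ⟨0, by simp⟩ (A.p5_D_cont.mono hsub)
    have hD0 : 0 < A.D w0 := A.det_pos w0 (hsub hw0)
    have hB : 0 < max B 1 := by positivity
    refine ⟨bχ / (kap0 * A.D w0) * (4 * b1), by positivity, min (1 / 2) (√(s1 / max B 1)),
      by positivity, fun ξ hξ w hw hne => ?_⟩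
    have hr : ‖ξ - w‖ < min (1 / 2) (√(s1 / max B 1)) := by
      rw [← dist_eq_norm, dist_comm]
      exact hw
    have hr1 : ‖ξ - w‖ < 1 / 2 := hr.trans_le (min_le_left _ _)
    have hr2 : ‖ξ - w‖ < √(s1 / max B 1) := hr.trans_le (min_le_right _ _)
    have hw32 : ‖w‖ ≤ 3 / 2 := by
      have : ‖w‖ ≤ ‖ξ‖ + ‖ξ - w‖ := by
        have := norm_sub_le ξ (ξ - w)
        simpa using this
      linarith
    have hw2 : ‖w‖ ≤ 2 := by linarith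
    have hv : 0 < ‖ξ - w‖ := by
      rw [norm_pos_iff, sub_ne_zero]
      exact hne.symm
    obtain ⟨hq1, hq2⟩ := hq w (by linarith) (ξ - w)
    have hq0 : 0 < A.q w (ξ - w) := lt_of_lt_of_le (by positivity) hq1
    have hqs : A.q w (ξ - w) ≤ s1 := by
      refine hq2.trans ?_
      have h1 : ‖ξ - w‖ ^ 2 ≤ s1 / max B 1 := by
        have := Real.sq_sqrt (by positivity : 0 ≤ s1 / max B 1)
        rw [← this]
        gcongr
      calc B * ‖ξ - w‖ ^ 2 ≤ max B 1 * ‖ξ - w‖ ^ 2 := by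
            gcongr
            exact le_max_left _ _
        _ ≤ max B 1 * (s1 / max B 1) := by gcongr
        _ = s1 := by field_simp
    unfold tK
    rw [mul_zero, add_zero, add_zero]
    have h1 := p6_t0_ge A c hC hcC hGB ξ w (by linarith) hw2 hq0
    have h2 := hkey _ hq0 hqs
    have h3 : A.D w ≤ A.D w0 := hmax (by simpa [mem_closedBall_zero_iff] using hw2)
    have h4 : 0 < A.D w := A.p5_D_pos (by linarith)
    have h5 := hlow w hw32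
    have h5' := hχ0 w
    have h6 : bχ / (kap0 * A.D w0) ≤ χ w / (kap0 * A.D w) := by
      refine div_le_div₀ h5' h5 (by positivity) ?_
      gcongr
    have h7 : 4 * b1 ≤ A.Gam ξ w * c.θ2 (A.q w (ξ - w)) + A.Bq ξ w * c.θ1 (A.q w (ξ - w)) := by
      linarith
    have h8 : 0 ≤ χ w / (kap0 * A.D w) := p6_kap_nonneg A χ hχ0 hχs w
    exact mul_le_mul h6 h7 (by positivity) h8

end Sing
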