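import Pool.Agent.Work.MP_3893a0_gt.Defs
import Pool.Agent.Work.MP_3893a0_gt.Geo2
import Pool.Agent.Work.MP_3893a0_gt.Geo3a2
import Pool.Agent.Work.MP_3893a0_gt.Geo3b

/-! Module SOFT: from the kit and the gap, `1 - TH` is invertible on equivariant functions. -/

open scoped ContDiff Topology BoundedContinuousFunction
open MeasureTheory Metric Set Filter

noncomputable section

namespace Sing

variable {G Y : Type*} [Group G] [TopologicalSpace Y] [MulAction G Y]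
variable {𝒜 : Atl G Y} [ContinuousConstSMul G Y] [T2Space Y] {M : 𝒜.Met}
variable {H : Type*} [NormedAddCommGroup H] [InnerProductSpace ℝ H] [CompleteSpace H]
variable {ρ : G →* (H ≃ₗᵢ[ℝ] H)}

namespace SoftAux

/-! ### powers of `T` -/

omit [ContinuousConstSMul G Y] [T2Space Y] [CompleteSpace H] in
lemma pow_succ_apply (K : Kit 𝒜 M H ρ) (n : ℕ) (f : Y →ᵇ ℝ) :
    (K.T ^ (n + 1)) f = K.T ((K.T ^ n) f) := by
  rw [pow_succ']; rfl

omit [ContinuousConstSMul G Y] [T2Space Y] [CompleteSpace H] in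
lemma pow_succ_apply' (K : Kit 𝒜 M H ρ) (n : ℕ) (f : Y →ᵇ ℝ) :
    (K.T ^ (n + 1)) f = (K.T ^ n) (K.T f) := by
  rw [pow_succ]; rfl

omit [ContinuousConstSMul G Y] [T2Space Y] [CompleteSpace H] in
lemma pow_succ_applyH (K : Kit 𝒜 M H ρ) (n : ℕ) (f : Y →ᵇ H) :
    (K.TH ^ (n + 1)) f = K.TH ((K.TH ^ n) f) := by
  rw [pow_succ']; rfl

omit [ContinuousConstSMul G Y] [T2Space Y] [CompleteSpace H] in
lemma pow_nonneg' (K : Kit 𝒜 M H ρ) (n : ℕ) {f : Y →ᵇ ℝ} (hf : ∀ y, 0 ≤ f y) :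
    ∀ y, 0 ≤ ((K.T ^ n) f) y := by
  induction n with
  | zero => exact hf
  | succ n ih =>
    rw [pow_succ_apply]
    exact K.T_pos _ ih

omit [ContinuousConstSMul G Y] [T2Space Y] [CompleteSpace H] in
lemma pow_mono (K : Kit 𝒜 M H ρ) (n : ℕ) {f g : Y →ᵇ ℝ} (h : ∀ y, f y ≤ g y) :
    ∀ y, ((K.T ^ n) f) y ≤ ((K.T ^ n) g) y := by
  intro y
  have h1 := pow_nonneg' K n (f := g - f) (fun y => by
    rw [BoundedContinuousFunction.sub_apply]; linarith [h y]) y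
  rw [map_sub, BoundedContinuousFunction.sub_apply] at h1
  linarith

omit [ContinuousConstSMul G Y] [T2Space Y] [CompleteSpace H] in
lemma pow_inv (K : Kit 𝒜 M H ρ) (n : ℕ) (g : G) (f f' : Y →ᵇ ℝ) (h : ∀ y, f' y = f (g • y)) :
    ∀ y, ((K.T ^ n) f') y = ((K.T ^ n) f) (g • y) := by
  induction n with
  | zero => exact h
  | succ n ih =>
    rw [pow_succ_apply, pow_succ_apply]
    exact K.T_inv g _ _ ih

omit [ContinuousConstSMul G Y] [T2Space Y] [CompleteSpace H] in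
lemma pow_TH (K : Kit 𝒜 M H ρ) (n : ℕ) (v : Y →ᵇ H) (e : H) (f : Y →ᵇ ℝ)
    (h : ∀ y, f y = inner ℝ (v y) e) : ∀ y, ((K.T ^ n) f) y = inner ℝ (((K.TH ^ n) v) y) e := by
  induction n with
  | zero => exact h
  | succ n ih =>
    rw [pow_succ_apply, pow_succ_applyH]
    exact K.T_TH _ e _ ih

omit [ContinuousConstSMul G Y] [T2Space Y] [CompleteSpace H] in
lemma pow_equi (K : Kit 𝒜 M H ρ) (n : ℕ) (v : Y →ᵇ H) (h : ∀ g y, v (g • y) = ρ g (v y)) :
    ∀ g y, ((K.TH ^ n) v) (g • y) = ρ g (((K.TH ^ n) v) y) := by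
  induction n with
  | zero => exact h
  | succ n ih =>
    rw [pow_succ_applyH]
    exact K.TH_equi _ ih

/-! ### integrability -/

omit [T2Space Y] in
lemma integrableOn_sym {V : Type*} [NormedAddCommGroup V] [NormedSpace ℝ V]
    (a : 𝒜.Idx) {f : Y → V} (hf : Continuous f) {ξ : E} (hξ : ‖ξ‖ ≤ 1) {r : ℝ} (hr : r ≤ 1) :
    IntegrableOn (fun w => f (𝒜.sym a w)) (ball ξ r) := by
  have hsub : closedBall ξ r ⊆ ball (0 : E) 4 := by
    intro w hw
    rw [mem_closedBall, dist_eq_norm] at hw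
    rw [mem_ball_zero_iff]
    have : ‖w‖ ≤ ‖w - ξ‖ + ‖ξ‖ := by simpa using norm_add_le (w - ξ) ξ
    linarith
  have h1 : ContinuousOn (fun w => f (𝒜.sym a w)) (closedBall ξ r) :=
    (hf.comp_continuousOn (𝒜.continuousOn_sym a)).mono hsub
  exact (h1.integrableOn_compact (isCompact_closedBall ξ r)).mono_set ball_subset_closedBall

/-! ### positivity spreads -/

omit [T2Space Y] [CompleteSpace H] in
lemma spread (K : Kit 𝒜 M H ρ) : ∃ r > 0, r < 1 ∧ ∀ (f : Y →ᵇ ℝ), (∀ y, 0 ≤ f y) →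
    ∀ (a : 𝒜.Idx) (ξ ζ : E), ‖ξ‖ ≤ 1 → ζ ∈ ball ξ r → 0 < f (𝒜.sym a ζ) →
      0 < K.T f (𝒜.sym a ξ) := by
  obtain ⟨c, hc, r, hr, hr1, hlow⟩ := K.T_lower
  refine ⟨r, hr, hr1, fun f hf a ξ ζ hξ hζ hpos => ?_⟩
  refine lt_of_lt_of_le (mul_pos hc ?_) (hlow a ξ hξ f hf)
  have hint := integrableOn_sym (𝒜 := 𝒜) a f.continuous hξ hr1.le
  rw [setIntegral_pos_iff_support_of_nonneg_ae (Eventually.of_forall fun w => hf _) hint]
  have hsub : ball ξ r ⊆ ball (0 : E) 4 := by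
    intro w hw
    rw [mem_ball, dist_eq_norm] at hw
    rw [mem_ball_zero_iff]
    have : ‖w‖ ≤ ‖w - ξ‖ + ‖ξ‖ := by simpa using norm_add_le (w - ξ) ξ
    linarith
  have hcont : ContinuousOn (fun w => f (𝒜.sym a w)) (ball ξ r) :=
    (f.continuous.comp_continuousOn (𝒜.continuousOn_sym a)).mono hsub
  have hopen : IsOpen (ball ξ r ∩ (fun w => f (𝒜.sym a w)) ⁻¹' (Ioi 0)) :=
    hcont.isOpen_inter_preimage isOpen_ball isOpen_Ioi
  have hnon : (ball ξ r ∩ (fun w => f (𝒜.sym a w)) ⁻¹' (Ioi 0)).Nonempty := ⟨ζ, hζ, hpos⟩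
  refine lt_of_lt_of_le (hopen.measure_pos volume hnon) (measure_mono ?_)
  rintro w ⟨hw1, hw2⟩
  exact ⟨ne_of_gt hw2, hw1⟩

end SoftAux

open SoftAux

omit [CompleteSpace H] [T2Space Y] in
/-- positivity spreads (SOFT1): the open sets `{T^n f > 0}` increase to `Y`. -/
theorem Kit.reach [ConnectedSpace Y] (K : Kit 𝒜 M H ρ) (f : Y →ᵇ ℝ) (hf : ∀ y, 0 ≤ f y)
    (hne : ∃ y, 0 < f y) :
    ∃ n0 : ℕ, ∀ n ≥ n0, ∃ ε > 0, ∀ y ∈ 𝒜.dom, ε ≤ ((K.T ^ n) f) y := by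
  obtain ⟨r, hr, hr1, hsp⟩ := spread K
  set U : ℕ → Set Y := fun n => {y | 0 < ((K.T ^ n) f) y} with hU
  have hUopen : ∀ n, IsOpen (U n) := fun n =>
    isOpen_lt continuous_const ((K.T ^ n) f).continuous
  have hstep : ∀ n (a : 𝒜.Idx) (ξ ζ : E), ‖ξ‖ ≤ 1 → ζ ∈ ball ξ r → 𝒜.sym a ζ ∈ U n →
      𝒜.sym a ξ ∈ U (n + 1) := by
    intro n a ξ ζ h1 h2 h3
    show 0 < ((K.T ^ (n + 1)) f) (𝒜.sym a ξ)
    rw [pow_succ_apply]
    exact hsp _ (pow_nonneg' K n hf) a ξ ζ h1 h2 h3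
  have hmono1 : ∀ n, U n ⊆ U (n + 1) := by
    intro n y hy
    obtain ⟨a, z, hz, rfl⟩ := 𝒜.exists_sym y
    exact hstep n a z z hz.le (mem_ball_self hr) hy
  have hmono : Monotone U := monotone_nat_of_le_succ hmono1
  -- the union is clopen
  have hUnion : (⋃ n, U n) = univ := by
    have hclopen : IsClopen (⋃ n, U n) := by
      refine ⟨?_, isOpen_iUnion hUopen⟩
      rw [← closure_subset_iff_isClosed]
      intro y hy
      obtain ⟨a, z, hz, rfl⟩ := 𝒜.exists_sym y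
      have hopen : IsOpen (𝒜.sym a '' (ball z r ∩ ball 0 1)) :=
        𝒜.isOpen_sym_image a (isOpen_ball.inter isOpen_ball)
          (inter_subset_right.trans (ball_subset_ball (by norm_num)))
      have hmem : 𝒜.sym a z ∈ 𝒜.sym a '' (ball z r ∩ ball 0 1) :=
        ⟨z, ⟨mem_ball_self hr, by simpa using hz⟩, rfl⟩
      obtain ⟨y', hy', hy''⟩ := mem_closure_iff.1 hy _ hopen hmem
      obtain ⟨ζ, ⟨hζ1, hζ2⟩, rfl⟩ := hy'
      obtain ⟨n, hn⟩ := mem_iUnion.1 hy''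
      exact mem_iUnion.2 ⟨n + 1, hstep n a z ζ hz.le hζ1 hn⟩
    have hnon : (⋃ n, U n).Nonempty := by
      obtain ⟨y, hy⟩ := hne
      exact ⟨y, mem_iUnion.2 ⟨0, hy⟩⟩
    exact hclopen.eq_univ hnon
  have hcomp := 𝒜.isCompact_dom
  obtain ⟨n0, hn0⟩ : ∃ n0, 𝒜.dom ⊆ U n0 :=
    hcomp.elim_directed_cover U hUopen (by rw [hUnion]; exact subset_univ _) hmono.directed_le
  refine ⟨n0, fun n hn => ?_⟩
  have hsub : 𝒜.dom ⊆ U n := hn0.trans (hmono hn)
  rcases (𝒜.dom).eq_empty_or_nonempty with he | hnon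
  · exact ⟨1, one_pos, by rw [he]; simp⟩
  · obtain ⟨y0, hy0, hmin⟩ := hcomp.exists_isMinOn hnon ((K.T ^ n) f).continuous.continuousOn
    exact ⟨((K.T ^ n) f) y0, hsub hy0, fun y hy => hmin hy⟩

omit [CompleteSpace H] in
/-- lower bound of the iterated kernel (SOFT1) -/
theorem Kit.lower [ConnectedSpace Y] (K : Kit 𝒜 M H ρ) (F : Finset G) :
    ∃ (i : Fin 𝒜.n) (r : ℝ) (n : ℕ) (κ : ℝ), 0 < r ∧ r < 1 ∧ 0 < n ∧ 0 < κ ∧
      ∀ γ ∈ F, ∀ f : Y →ᵇ ℝ, (∀ y, 0 ≤ f y) → ∀ x ∈ 𝒜.dom,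
        κ * ∫ w in ball (0 : E) r, f (γ • 𝒜.sym (1, i) w) ≤ ((K.T ^ n) f) x := by
  classical
  obtain ⟨y0⟩ := (inferInstance : Nonempty Y)
  obtain ⟨a0, _, _, _⟩ := 𝒜.exists_sym y0
  obtain ⟨c, hc, r, hr, hr1, hlow⟩ := K.T_lower
  set i := a0.2
  set r' := r / 2 with hr'
  have hr'0 : 0 < r' := by positivity
  have hr'1 : r' < 1 := by linarith
  -- the bump functions
  set bump : E → ℝ := fun z => max 0 (1 - ‖z‖ / r') with hbump
  have hbc : Continuous bump := by fun_prop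
  have hb0 : ∀ z, 0 ≤ bump z := fun z => le_max_left _ _
  have hb1 : ∀ z, bump z ≤ 1 := fun z => by
    refine max_le zero_le_one ?_
    have : 0 ≤ ‖z‖ / r' := by positivity
    linarith
  have hbz : ∀ z, r' ≤ ‖z‖ → bump z = 0 := fun z hz => by
    refine max_eq_left ?_
    have : 1 ≤ ‖z‖ / r' := by rw [le_div_iff₀ hr'0]; linarith
    linarith
  have hb3 : ∀ z, 3 < ‖z‖ → bump z = 0 := fun z hz => hbz z (by linarith)
  have hφc : ∀ a : 𝒜.Idx, Continuous (𝒜.ext a bump) := fun a =>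
    𝒜.continuous_ext hb3 hbc.continuousOn
  have hφ0 : ∀ (a : 𝒜.Idx) y, 0 ≤ 𝒜.ext a bump y := fun a y => by
    unfold Atl.ext; split_ifs
    · exact hb0 _
    · exact le_rfl
  have hφ1 : ∀ (a : 𝒜.Idx) y, 𝒜.ext a bump y ≤ 1 := fun a y => by
    unfold Atl.ext; split_ifs
    · exact hb1 _
    · exact zero_le_one
  set φ : 𝒜.Idx → (Y →ᵇ ℝ) := fun a =>
    BoundedContinuousFunction.ofNormedAddCommGroup (𝒜.ext a bump) (hφc a) 1 (fun y => by
      rw [Real.norm_of_nonneg (hφ0 a y)]; exact hφ1 a y) with hφ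
  have hφapp : ∀ a y, φ a y = 𝒜.ext a bump y := fun a y => rfl
  have hφpos : ∀ a : 𝒜.Idx, ∃ y, 0 < φ a y := fun a => by
    refine ⟨𝒜.sym a 0, ?_⟩
    rw [hφapp, 𝒜.ext_sym a bump (by simp)]
    simp [hbump]
  -- main estimate
  have hmain : ∀ (a : 𝒜.Idx) (f : Y →ᵇ ℝ), (∀ y, 0 ≤ f y) → ∀ y,
      (c * ∫ w in ball (0 : E) r', f (𝒜.sym a w)) * φ a y ≤ K.T f y := by
    intro a f hf y
    have hI : 0 ≤ ∫ w in ball (0 : E) r', f (𝒜.sym a w) :=
      integral_nonneg fun w => hf _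
    rw [hφapp]
    by_cases hy : y ∈ 𝒜.src a
    · have hext : 𝒜.ext a bump y = bump (𝒜.crd a y) := by
        unfold Atl.ext; rw [if_pos hy]
      rw [hext]
      by_cases hn : r' ≤ ‖𝒜.crd a y‖
      · rw [hbz _ hn, mul_zero]
        exact K.T_pos f hf y
      · rw [not_le] at hn
        have h1 := hlow a (𝒜.crd a y) (by linarith) f hf
        rw [𝒜.sym_crd a hy] at h1
        have h2 : ∫ w in ball (0 : E) r', f (𝒜.sym a w)
            ≤ ∫ w in ball (𝒜.crd a y) r, f (𝒜.sym a w) := by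
          refine setIntegral_mono_set
            (integrableOn_sym (𝒜 := 𝒜) a f.continuous (by linarith) hr1.le)
            (Eventually.of_forall fun w => hf _) (LE.le.eventuallyLE ?_)
          intro w hw
          rw [mem_ball_zero_iff] at hw
          rw [mem_ball, dist_eq_norm]
          calc ‖w - 𝒜.crd a y‖ ≤ ‖w‖ + ‖𝒜.crd a y‖ := norm_sub_le _ _
            _ < r := by linarith
        calc (c * ∫ w in ball (0 : E) r', f (𝒜.sym a w)) * bump (𝒜.crd a y)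
            ≤ (c * ∫ w in ball (0 : E) r', f (𝒜.sym a w)) * 1 :=
              mul_le_mul_of_nonneg_left (hb1 _) (mul_nonneg hc.le hI)
          _ ≤ c * ∫ w in ball (𝒜.crd a y) r, f (𝒜.sym a w) := by
              rw [mul_one]; exact mul_le_mul_of_nonneg_left h2 hc.le
          _ ≤ _ := h1
    · have hext : 𝒜.ext a bump y = 0 := by
        unfold Atl.ext; rw [if_neg hy]
      rw [hext, mul_zero]
      exact K.T_pos f hf y
  -- reach for the bumps
  choose n0 hn0 using fun a : 𝒜.Idx => K.reach (φ a) (fun y => hφ0 a y) (hφpos a)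
  set N : ℕ := ∑ γ ∈ F, n0 (γ, i) with hN
  have hNle : ∀ γ ∈ F, n0 (γ, i) ≤ N := fun γ hγ =>
    Finset.single_le_sum (f := fun γ => n0 (γ, i)) (fun _ _ => Nat.zero_le _) hγ
  have hex : ∀ γ : G, ∃ ε > 0, γ ∈ F → ∀ y ∈ 𝒜.dom, ε ≤ ((K.T ^ N) (φ (γ, i))) y := by
    intro γ
    by_cases hγ : γ ∈ F
    · obtain ⟨ε, hε, h⟩ := hn0 (γ, i) N (hNle γ hγ)
      exact ⟨ε, hε, fun _ => h⟩
    · exact ⟨1, one_pos, fun h => absurd h hγ⟩
  choose ε hε hεle using hex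
  -- minimum of the `ε`
  obtain ⟨κ0, hκ0, hκ0le⟩ : ∃ κ0 > 0, ∀ γ ∈ F, κ0 ≤ ε γ := by
    rcases F.eq_empty_or_nonempty with rfl | hF
    · exact ⟨1, one_pos, by simp⟩
    · obtain ⟨γ0, hγ0, hmin⟩ := F.exists_min_image ε hF
      exact ⟨ε γ0, hε γ0, hmin⟩
  refine ⟨i, r', N + 1, c * κ0, hr'0, hr'1, Nat.succ_pos _, mul_pos hc hκ0, ?_⟩
  intro γ hγ f hf x hx
  have hsm : ∀ w, γ • 𝒜.sym (1, i) w = 𝒜.sym (γ, i) w := fun w => by
    have := 𝒜.sym_smul γ (1, i) w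
    rw [← this, mul_one]
  simp only [hsm]
  set I := ∫ w in ball (0 : E) r', f (𝒜.sym (γ, i) w) with hI
  have hI0 : 0 ≤ I := integral_nonneg fun w => hf _
  rw [pow_succ_apply']
  have h1 := pow_mono K N (f := (c * I) • φ (γ, i)) (g := K.T f) (fun y => by
    rw [BoundedContinuousFunction.smul_apply, smul_eq_mul]
    exact hmain (γ, i) f hf y) x
  rw [map_smul, BoundedContinuousFunction.smul_apply, smul_eq_mul] at h1
  calc c * κ0 * I = (c * I) * κ0 := by ring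
    _ ≤ (c * I) * ((K.T ^ N) (φ (γ, i))) x :=
        mul_le_mul_of_nonneg_left ((hκ0le γ hγ).trans (hεle γ hγ x hx)) (mul_nonneg hc.le hI0)
    _ ≤ _ := h1

/-! ### the positive eigenfunction -/

namespace SoftAux

variable (G Y) in
/-- the space of invariant functions -/
def Inv : Submodule ℝ (Y →ᵇ ℝ) where
  carrier := {f | ∀ (g : G) (y : Y), f (g • y) = f y}
  add_mem' := by
    intro f f' hf hf' g y
    simp only [BoundedContinuousFunction.add_apply, hf g y, hf' g y]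
  zero_mem' := by intro g y; rfl
  smul_mem' := by
    intro c f hf g y
    simp only [BoundedContinuousFunction.smul_apply, hf g y]

omit [ContinuousConstSMul G Y] [T2Space Y] in
lemma isClosed_Inv : IsClosed (Inv G Y : Set (Y →ᵇ ℝ)) := by
  have : (Inv G Y : Set (Y →ᵇ ℝ)) = ⋂ (g : G) (y : Y), {f : Y →ᵇ ℝ | f (g • y) = f y} := by
    ext f
    simp only [mem_iInter]
    exact Iff.rfl
  rw [this]
  refine isClosed_iInter fun g => isClosed_iInter fun y => isClosed_eq ?_ ?_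
  · exact continuous_eval_const (g • y)
  · exact continuous_eval_const y

omit [ContinuousConstSMul G Y] [T2Space Y] [CompleteSpace H] in
lemma T_Inv (K : Kit 𝒜 M H ρ) {f : Y →ᵇ ℝ} (hf : ∀ (g : G) (y : Y), f (g • y) = f y)
    (g : G) (y : Y) : K.T f (g • y) = K.T f y :=
  (K.T_inv g f f (fun y => (hf g y).symm) y).symm

omit [ContinuousConstSMul G Y] [T2Space Y] [CompleteSpace H] in
lemma pow_Inv (K : Kit 𝒜 M H ρ) (n : ℕ) {f : Y →ᵇ ℝ} (hf : ∀ (g : G) (y : Y), f (g • y) = f y)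
    (g : G) (y : Y) : ((K.T ^ n) f) (g • y) = ((K.T ^ n) f) y :=
  (pow_inv K n g f f (fun y => (hf g y).symm) y).symm

/-- a metric space criterion for compactness of the closure -/
lemma isCompact_closure_of_seq {X : Type*} [MetricSpace X] {s : Set X}
    (h : ∀ u : ℕ → X, (∀ n, u n ∈ s) → ∃ (a : X) (φ : ℕ → ℕ), StrictMono φ ∧
      Tendsto (u ∘ φ) atTop (𝓝 a)) : IsCompact (closure s) := by
  rw [isCompact_iff_isSeqCompact]
  intro x hx
  have hy : ∀ n : ℕ, ∃ y ∈ s, dist (x n) y < 1 / (n + 1 : ℝ) := fun n =>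
    Metric.mem_closure_iff.1 (hx n) _ (by positivity)
  choose y hys hxy using hy
  obtain ⟨a, φ, hφ, hlim⟩ := h y hys
  refine ⟨a, ?_, φ, hφ, ?_⟩
  · exact mem_closure_of_tendsto hlim (Eventually.of_forall fun n => hys _)
  · have h0 : Tendsto (fun n => dist (x (φ n)) (y (φ n))) atTop (𝓝 0) := by
      refine squeeze_zero (fun _ => dist_nonneg) (fun n => (hxy (φ n)).le) ?_
      exact (tendsto_one_div_add_atTop_nhds_zero_nat (𝕜 := ℝ)).comp hφ.tendsto_atTop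
    rw [tendsto_iff_dist_tendsto_zero] at hlim ⊢
    refine squeeze_zero (fun _ => dist_nonneg) (fun n => dist_triangle _ (y (φ n)) _) ?_
    simpa using h0.add hlim

/-- Fredholm alternative on a closed invariant subspace, sequential compactness -/
lemma fredholm {X : Type*} [NormedAddCommGroup X] [NormedSpace ℝ X] [CompleteSpace X]
    (T : X →L[ℝ] X) (W : Submodule ℝ X) (hW : IsClosed (W : Set X)) (hT : ∀ f ∈ W, T f ∈ W)
    (hc : ∀ f : ℕ → X, (∀ n, f n ∈ W) → (∀ n, ‖f n‖ ≤ 1) → ∃ (F : X) (s : ℕ → ℕ),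
      StrictMono s ∧ Tendsto (fun n => T (f (s n))) atTop (𝓝 F)) :
    (∃ m ∈ W, m ≠ 0 ∧ T m = m) ∨ ∀ g ∈ W, ∃ f ∈ W, f - T f = g := by
  have : CompleteSpace W := hW.completeSpace_coe
  let T' : W →L[ℝ] W := (T.comp W.subtypeL).codRestrict W (fun f => hT _ f.2)
  have hT'app : ∀ f : W, ((T' f : W) : X) = T f := fun f => rfl
  have hcomp : IsCompactOperator T' := by
    refine (isCompactOperator_iff_isCompact_closure_image_closedBall (T' : W →ₗ[ℝ] W)
        one_pos).2 ?_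
    refine isCompact_closure_of_seq fun u hu => ?_
    choose f hf hfu using hu
    obtain ⟨F, s, hs, hF⟩ := hc (fun n => (f n : X)) (fun n => (f n).2) (fun n => by
        have := hf n
        rwa [mem_closedBall_zero_iff] at this)
    have hFW : F ∈ W := hW.mem_of_tendsto hF (Eventually.of_forall fun n => hT _ (f (s n)).2)
    refine ⟨⟨F, hFW⟩, s, hs, ?_⟩
    rw [tendsto_subtype_rng]
    refine hF.congr fun n => ?_
    show T _ = ((u (s n) : W) : X)
    rw [← hfu (s n)]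
    rfl
  rcases IsCompactOperator.hasEigenvalue_or_mem_resolventSet (T := T') (μ := (1 : ℝ)) hcomp
    one_ne_zero with h | h
  · left
    obtain ⟨m, hm⟩ := h.exists_hasEigenvector
    have h1 := hm.apply_eq_smul
    refine ⟨m, m.2, ?_, ?_⟩
    · intro h0
      exact hm.2 (Subtype.ext h0)
    · have h2 : T' m = m := by simpa using h1
      rw [← hT'app m, h2]
  · right
    rw [spectrum.mem_resolventSet_iff, ContinuousLinearMap.isUnit_iff_bijective] at h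
    intro g hg
    obtain ⟨f, hf⟩ := h.2 ⟨g, hg⟩
    refine ⟨f, f.2, ?_⟩
    have h4 := congrArg (fun w : W => (w : X)) hf
    rw [← hT'app f]
    simpa using h4

omit [ContinuousConstSMul G Y] [T2Space Y] [CompleteSpace H] in
/-- existence of a nonzero invariant fixed function -/
lemma exists_fixed (K : Kit 𝒜 M H ρ) :
    ∃ m : Y →ᵇ ℝ, m ≠ 0 ∧ (∀ (g : G) (y : Y), m (g • y) = m y) ∧ K.T m = m := by
  rcases fredholm K.T (Inv G Y) isClosed_Inv (fun f hf => T_Inv K hf) (fun f hf h1 =>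
    K.T_compact f hf h1) with ⟨m, hm, hm0, hTm⟩ | h
  · exact ⟨m, hm0, hm, hTm⟩
  · exfalso
    obtain ⟨f, hf, hfe⟩ := h (BoundedContinuousFunction.const Y (-1)) (fun _ _ => rfl)
    refine K.T_max f hf 1 one_pos fun y => ?_
    have h4 := congrArg (fun w : Y →ᵇ ℝ => w y) hfe
    simp only [BoundedContinuousFunction.sub_apply, BoundedContinuousFunction.const_apply] at h4
    linarith

end SoftAux

omit [CompleteSpace H] [T2Space Y] in
/-- the positive eigenfunction, by the Fredholm alternative (SOFT2) -/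
theorem Kit.exists_eigen [ConnectedSpace Y] (K : Kit 𝒜 M H ρ) :
    ∃ m : Y →ᵇ ℝ, (∀ (g : G) (y : Y), m (g • y) = m y) ∧ K.T m = m ∧ ∃ ε > 0, ∀ y, ε ≤ m y := by
  obtain ⟨m, hm0, hmi, hTm⟩ := exists_fixed K
  set n : Y →ᵇ ℝ := m.normComp with hn
  have hnapp : ∀ y, n y = |m y| := fun y => by
    rw [hn]; rfl
  have hn0 : ∀ y, 0 ≤ n y := fun y => by rw [hnapp]; exact abs_nonneg _
  have hni : ∀ (g : G) (y : Y), n (g • y) = n y := fun g y => by rw [hnapp, hnapp, hmi]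
  -- `T n ≥ n`
  have hTn : ∀ y, n y ≤ K.T n y := by
    intro y
    have h1 := pow_mono K 1 (f := m) (g := n) (fun y => by rw [hnapp]; exact le_abs_self _) y
    have h2 := pow_mono K 1 (f := -m) (g := n) (fun y => by
      rw [hnapp, BoundedContinuousFunction.neg_apply]; exact neg_le_abs _) y
    rw [pow_one] at h1 h2
    rw [map_neg, BoundedContinuousFunction.neg_apply] at h2
    rw [hTm] at h1 h2
    rw [hnapp]
    exact abs_le.2 ⟨by linarith, h1⟩ |>.trans le_rfl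
  have hnpos : ∃ y, 0 < n y := by
    by_contra hc
    push Not at hc
    apply hm0
    ext y
    have h1 := hc y
    rw [hnapp] at h1
    have := abs_nonpos_iff.1 h1
    rw [this]; rfl
  -- spreading on `Y`
  have hspread : ∀ f : Y →ᵇ ℝ, (∀ y, 0 ≤ f y) → (∀ (g : G) (y : Y), f (g • y) = f y) →
      (∃ y, 0 < f y) → ∃ n0 : ℕ, ∃ ε > 0, ∀ y, ε ≤ ((K.T ^ n0) f) y := by
    intro f hf hfi hfp
    obtain ⟨n0, hn0⟩ := K.reach f hf hfp
    obtain ⟨ε, hε, h⟩ := hn0 n0 le_rfl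
    refine ⟨n0, ε, hε, fun y => ?_⟩
    obtain ⟨g, hg⟩ := 𝒜.exists_mem_dom y
    rw [← pow_Inv K n0 hfi g y]
    exact h _ hg
  have hTneq : K.T n = n := by
    by_contra hne
    have hf0 : ∀ y, 0 ≤ (K.T n - n) y := fun y => by
      rw [BoundedContinuousFunction.sub_apply]; linarith [hTn y]
    have hfi : ∀ (g : G) (y : Y), (K.T n - n) (g • y) = (K.T n - n) y := fun g y => by
      rw [BoundedContinuousFunction.sub_apply, BoundedContinuousFunction.sub_apply,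
        T_Inv K hni, hni]
    have hfp : ∃ y, 0 < (K.T n - n) y := by
      by_contra hc
      push Not at hc
      apply hne
      ext y
      have h1 := hc y
      have h2 := hf0 y
      rw [BoundedContinuousFunction.sub_apply] at h1 h2
      linarith
    obtain ⟨n0, ε, hε, h⟩ := hspread _ hf0 hfi hfp
    refine K.T_max ((K.T ^ n0) n) (pow_Inv K n0 hni) ε hε fun y => ?_
    have h1 := h y
    rw [map_sub, ← pow_succ_apply', pow_succ_apply, BoundedContinuousFunction.sub_apply] at h1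
    exact h1
  refine ⟨n, hni, hTneq, ?_⟩
  obtain ⟨n0, ε, hε, h⟩ := hspread n hn0 hni hnpos
  refine ⟨ε, hε, fun y => ?_⟩
  have h1 := h y
  have h2 : ∀ k : ℕ, (K.T ^ k) n = n := by
    intro k
    induction k with
    | zero => rfl
    | succ k ih => rw [pow_succ_apply, ih, hTneq]
  rwa [h2] at h1

omit [CompleteSpace H] [T2Space Y] in
/-- strict contraction on equivariant functions, in the norm weighted by `m` (SOFT3) -/
theorem Kit.contraction' [ConnectedSpace Y] (K : Kit 𝒜 M H ρ) (S : Finset G)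
    (hlower : ∃ (i : Fin 𝒜.n) (r : ℝ) (n : ℕ) (κ : ℝ), 0 < r ∧ r < 1 ∧ 0 < n ∧ 0 < κ ∧
      ∀ γ : G, (γ = 1 ∨ γ ∈ S) → ∀ f : Y →ᵇ ℝ, (∀ y, 0 ≤ f y) → ∀ x ∈ 𝒜.dom,
        κ * ∫ w in ball (0 : E) r, f (γ • 𝒜.sym (1, i) w) ≤ ((K.T ^ n) f) x)
    (hgap : ∃ c > 0, ∀ v : H, c * ‖v‖ ^ 2 ≤ ∑ s ∈ S, ‖ρ s v - v‖ ^ 2)
    (m : Y →ᵇ ℝ) (hm : ∀ (g : G) (y : Y), m (g • y) = m y) (hTm : K.T m = m)
    (hm0 : ∃ ε > 0, ∀ y, ε ≤ m y) :
    ∃ (n : ℕ) (θ : ℝ), 0 < n ∧ 0 ≤ θ ∧ θ < 1 ∧ ∀ v : Y →ᵇ H, (∀ g y, v (g • y) = ρ g (v y)) →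
      ∀ B, (∀ y, ‖v y‖ ≤ B * m y) → ∀ y, ‖((K.TH ^ n) v) y‖ ≤ θ * B * m y := by
  obtain ⟨i, r, n, κ, hr, hr1, hn, hκ, hlow⟩ := hlower
  obtain ⟨cg, hcg, hgap⟩ := hgap
  obtain ⟨ε, hε, hmε⟩ := hm0
  have hmpos : ∀ y, 0 < m y := fun y => lt_of_lt_of_le hε (hmε y)
  have hmne : ∀ y, m y ≠ 0 := fun y => (hmpos y).ne'
  have hTnm : (K.T ^ n) m = m := by
    clear hlow hn
    induction n with
    | zero => rfl
    | succ k ih => rw [pow_succ_apply, ih, hTm]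
  set Mx := ‖m‖ with hMx
  have hmMx : ∀ y, m y ≤ Mx := fun y => (le_abs_self _).trans (m.norm_coe_le_norm y)
  obtain ⟨y0⟩ := (inferInstance : Nonempty Y)
  have hMx0 : 0 < Mx := (hmpos y0).trans_le (hmMx y0)
  set vol := (volume : Measure E).real (ball (0 : E) r) with hvol
  have hvol0 : 0 < vol := by
    rw [hvol, measureReal_def]
    exact ENNReal.toReal_pos (measure_ball_pos volume _ hr).ne' measure_ball_lt_top.ne
  set C0 : ℝ := (8 * S.card / (ε * cg) + 2 / ε) * (Mx / κ) with hC0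
  have hC00 : 0 ≤ C0 := by positivity
  set θ := √(C0 / (vol + C0)) with hθ
  have hq1 : C0 / (vol + C0) < 1 := by
    rw [div_lt_one (by linarith)]; linarith
  have hq0 : 0 ≤ C0 / (vol + C0) := by positivity
  refine ⟨n, θ, hn, Real.sqrt_nonneg _, ?_, ?_⟩
  · rw [hθ, Real.sqrt_lt' one_pos]; simpa using hq1
  intro v hv B hB
  have hB0 : 0 ≤ B := by
    have h1 := hB y0
    have h2 := norm_nonneg (v y0)
    by_contra hc
    rw [not_le] at hc
    have := mul_neg_of_neg_of_pos hc (hmpos y0)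
    linarith
  -- it is enough to treat points of the fundamental domain
  suffices hdom : ∀ x ∈ 𝒜.dom, ‖((K.TH ^ n) v) x‖ ≤ θ * B * m x by
    intro y
    obtain ⟨g, hg⟩ := 𝒜.exists_mem_dom y
    have h1 := hdom _ hg
    rwa [pow_equi K n v hv g y, LinearIsometryEquiv.norm_map, hm] at h1
  intro x hx
  set u := ((K.TH ^ n) v) x with hu
  set c : H := (m x)⁻¹ • u with hc
  have huc : u = m x • c := by rw [hc, smul_inv_smul₀ (hmne x)]
  clear_value c
  -- the test function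
  have hF1c : Continuous fun y => ‖v y‖ ^ 2 / m y :=
    (v.continuous.norm.pow 2).div m.continuous hmne
  have hF1b : ∀ y, ‖‖v y‖ ^ 2 / m y‖ ≤ B ^ 2 * Mx := by
    intro y
    rw [Real.norm_of_nonneg (by have := hmpos y; positivity), div_le_iff₀ (hmpos y)]
    have h1 := hB y
    have h2 : ‖v y‖ ^ 2 ≤ (B * m y) ^ 2 := pow_le_pow_left₀ (norm_nonneg _) h1 2
    calc ‖v y‖ ^ 2 ≤ (B * m y) ^ 2 := h2
      _ = B ^ 2 * m y * m y := by ring
      _ ≤ B ^ 2 * Mx * m y := by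
          refine mul_le_mul_of_nonneg_right ?_ (hmpos y).le
          exact mul_le_mul_of_nonneg_left (hmMx y) (by positivity)
  set F1 : Y →ᵇ ℝ := BoundedContinuousFunction.ofNormedAddCommGroup _ hF1c _ hF1b with hF1
  have hF2c : Continuous fun y => (inner ℝ (v y) c : ℝ) := v.continuous.inner continuous_const
  have hF2b : ∀ y, ‖(inner ℝ (v y) c : ℝ)‖ ≤ ‖v‖ * ‖c‖ := fun y =>
    (norm_inner_le_norm _ _).trans (mul_le_mul_of_nonneg_right (v.norm_coe_le_norm y)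
      (norm_nonneg _))
  set F2 : Y →ᵇ ℝ := BoundedContinuousFunction.ofNormedAddCommGroup _ hF2c _ hF2b with hF2
  set f : Y →ᵇ ℝ := F1 - (2 : ℝ) • F2 + (‖c‖ ^ 2) • m with hf
  have hfapp : ∀ y, f y = m y * ‖(m y)⁻¹ • v y - c‖ ^ 2 := by
    intro y
    have h1 : f y = ‖v y‖ ^ 2 / m y - 2 * inner ℝ (v y) c + ‖c‖ ^ 2 * m y := rfl
    rw [h1, @norm_sub_sq_real, norm_smul, inner_smul_left, norm_inv,
      Real.norm_of_nonneg (hmpos y).le]
    have := hmne y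
    simp only [conj_trivial]
    field_simp
  have hf0 : ∀ y, 0 ≤ f y := fun y => by
    rw [hfapp]; have := hmpos y; positivity
  -- upper bound at `x`
  have hup : ((K.T ^ n) f) x ≤ m x * (B ^ 2 - ‖c‖ ^ 2) := by
    have h1 : ((K.T ^ n) F2) x = inner ℝ u c := pow_TH K n v c F2 (fun y => rfl) x
    have h2 : ((K.T ^ n) F1) x ≤ ((K.T ^ n) ((B ^ 2) • m)) x := by
      refine pow_mono K n (fun y => ?_) x
      show ‖v y‖ ^ 2 / m y ≤ B ^ 2 * m y
      rw [div_le_iff₀ (hmpos y)]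
      calc ‖v y‖ ^ 2 ≤ (B * m y) ^ 2 := pow_le_pow_left₀ (norm_nonneg _) (hB y) 2
        _ = B ^ 2 * m y * m y := by ring
    rw [map_smul, hTnm, BoundedContinuousFunction.smul_apply, smul_eq_mul] at h2
    have h3 : ((K.T ^ n) f) x = ((K.T ^ n) F1) x - 2 * ((K.T ^ n) F2) x + ‖c‖ ^ 2 * m x := by
      rw [hf, map_add, map_sub, map_smul, map_smul, hTnm]
      rfl
    have h4 : (inner ℝ u c : ℝ) = m x * ‖c‖ ^ 2 := by
      rw [huc, inner_smul_left, real_inner_self_eq_norm_sq]; rfl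
    rw [h3, h1, h4]
    linarith
  have hDnn : 0 ≤ B ^ 2 - ‖c‖ ^ 2 := by
    have h1 := (pow_nonneg' K n hf0 x).trans hup
    exact nonneg_of_mul_nonneg_right h1 (hmpos x)
  set Dd := Mx / κ * (B ^ 2 - ‖c‖ ^ 2) with hDd
  set J : G → E → ℝ := fun γ w => f (γ • 𝒜.sym (1, i) w) with hJ
  have hJint : ∀ γ, IntegrableOn (J γ) (ball (0 : E) r) := fun γ =>
    integrableOn_sym (𝒜 := 𝒜) (1, i) (f := fun y => f (γ • y))
      (f.continuous.comp (continuous_const_smul γ)) (by simp) hr1.le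
  have hJle : ∀ γ : G, (γ = 1 ∨ γ ∈ S) → ∫ w in ball (0 : E) r, J γ w ≤ Dd := by
    intro γ hγ
    have h1 := (hlow γ hγ f hf0 x hx).trans hup
    have h2 : m x * (B ^ 2 - ‖c‖ ^ 2) ≤ Mx * (B ^ 2 - ‖c‖ ^ 2) :=
      mul_le_mul_of_nonneg_right (hmMx x) hDnn
    have h3 := h1.trans h2
    rw [hDd, div_mul_eq_mul_div, le_div_iff₀ hκ, mul_comm]
    exact h3
  -- pointwise inequality
  have hpt : ∀ w : E, ‖c‖ ^ 2 ≤ 4 / (ε * cg) * ∑ s ∈ S, (J s w + J 1 w) + 2 / ε * J 1 w := by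
    intro w
    set y := 𝒜.sym (1, i) w with hy
    set V := (m y)⁻¹ • v y with hV
    have hJ1 : J 1 w = m y * ‖V - c‖ ^ 2 := by
      show f ((1 : G) • y) = _
      rw [one_smul, hfapp]
    have hJs : ∀ s, J s w = m y * ‖ρ s V - c‖ ^ 2 := by
      intro s
      show f (s • y) = _
      rw [hfapp, hm, hv, hV, map_smul]
    have h1 : ε * ‖V - c‖ ^ 2 ≤ J 1 w := by
      rw [hJ1]; exact mul_le_mul_of_nonneg_right (hmε y) (by positivity)
    have h2 : ∀ s, ε * ‖ρ s V - c‖ ^ 2 ≤ J s w := by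
      intro s
      rw [hJs]; exact mul_le_mul_of_nonneg_right (hmε y) (by positivity)
    have h3 : ∀ s, ε * ‖ρ s V - V‖ ^ 2 ≤ 2 * (J s w + J 1 w) := by
      intro s
      have h4 : ‖ρ s V - V‖ ≤ ‖ρ s V - c‖ + ‖V - c‖ := by
        have := norm_sub_le (ρ s V - c) (V - c)
        simpa using this
      have h5 : ‖ρ s V - V‖ ^ 2 ≤ 2 * ‖ρ s V - c‖ ^ 2 + 2 * ‖V - c‖ ^ 2 := by
        have := pow_le_pow_left₀ (norm_nonneg _) h4 2
        nlinarith [sq_nonneg (‖ρ s V - c‖ - ‖V - c‖)]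
      have h6 := mul_le_mul_of_nonneg_left h5 hε.le
      have h7 := h2 s
      nlinarith
    have h8 : ε * (cg * ‖V‖ ^ 2) ≤ 2 * ∑ s ∈ S, (J s w + J 1 w) := by
      calc ε * (cg * ‖V‖ ^ 2) ≤ ε * ∑ s ∈ S, ‖ρ s V - V‖ ^ 2 :=
            mul_le_mul_of_nonneg_left (hgap V) hε.le
        _ = ∑ s ∈ S, ε * ‖ρ s V - V‖ ^ 2 := by rw [Finset.mul_sum]
        _ ≤ ∑ s ∈ S, 2 * (J s w + J 1 w) := Finset.sum_le_sum fun s _ => h3 s
        _ = _ := by rw [Finset.mul_sum]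
    have h9 : ‖V‖ ^ 2 ≤ 2 / (ε * cg) * ∑ s ∈ S, (J s w + J 1 w) := by
      rw [div_mul_eq_mul_div, le_div_iff₀ (by positivity)]
      calc ‖V‖ ^ 2 * (ε * cg) = ε * (cg * ‖V‖ ^ 2) := by ring
        _ ≤ _ := h8
    have h10 : ‖V - c‖ ^ 2 ≤ 1 / ε * J 1 w := by
      rw [div_mul_eq_mul_div, le_div_iff₀ hε]
      calc ‖V - c‖ ^ 2 * ε = ε * ‖V - c‖ ^ 2 := by ring
        _ ≤ J 1 w := h1
        _ = 1 * J 1 w := (one_mul _).symm
    have h11 : ‖c‖ ≤ ‖V‖ + ‖V - c‖ := by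
      have := norm_sub_le V (V - c)
      simpa using this
    have h12 : ‖c‖ ^ 2 ≤ 2 * ‖V‖ ^ 2 + 2 * ‖V - c‖ ^ 2 := by
      have := pow_le_pow_left₀ (norm_nonneg _) h11 2
      nlinarith [sq_nonneg (‖V‖ - ‖V - c‖)]
    have h13 : 4 / (ε * cg) * ∑ s ∈ S, (J s w + J 1 w)
        = 2 * (2 / (ε * cg) * ∑ s ∈ S, (J s w + J 1 w)) := by ring
    have h14 : 2 / ε * J 1 w = 2 * (1 / ε * J 1 w) := by ring
    rw [h13, h14]
    linarith
  -- integrate
  have hint : vol * ‖c‖ ^ 2 ≤ C0 * (B ^ 2 - ‖c‖ ^ 2) := by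
    have h1 : ∫ _w in ball (0 : E) r, ‖c‖ ^ 2 = vol * ‖c‖ ^ 2 := by
      rw [setIntegral_const, smul_eq_mul]
    have hsum : IntegrableOn (fun w => ∑ s ∈ S, (J s w + J 1 w)) (ball (0 : E) r) :=
      integrable_finsetSum _ fun s _ => (hJint s).add (hJint 1)
    have h2 : ∫ w in ball (0 : E) r,
        (4 / (ε * cg) * ∑ s ∈ S, (J s w + J 1 w) + 2 / ε * J 1 w)
        = 4 / (ε * cg) * ∑ s ∈ S, ((∫ w in ball (0 : E) r, J s w)
          + ∫ w in ball (0 : E) r, J 1 w) + 2 / ε * ∫ w in ball (0 : E) r, J 1 w := by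
      have hsumeq : ∫ w in ball (0 : E) r, ∑ s ∈ S, (J s w + J 1 w)
          = ∑ s ∈ S, ∫ w in ball (0 : E) r, (J s w + J 1 w) :=
        integral_finsetSum _ fun s _ => (hJint s).add (hJint 1)
      rw [integral_add (hsum.const_mul _) ((hJint 1).const_mul _), integral_const_mul,
        integral_const_mul, hsumeq]
      congr 2
      refine Finset.sum_congr rfl fun s _ => ?_
      rw [integral_add (hJint s) (hJint 1)]
    have h3 : ∫ _w in ball (0 : E) r, ‖c‖ ^ 2 ≤ ∫ w in ball (0 : E) r,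
        (4 / (ε * cg) * ∑ s ∈ S, (J s w + J 1 w) + 2 / ε * J 1 w) :=
      integral_mono (integrableOn_const measure_ball_lt_top.ne)
        ((hsum.const_mul _).add ((hJint 1).const_mul _)) hpt
    rw [h1, h2] at h3
    have h4 : ∑ s ∈ S, ((∫ w in ball (0 : E) r, J s w) + ∫ w in ball (0 : E) r, J 1 w)
        ≤ ∑ _s ∈ S, (2 * Dd) :=
      Finset.sum_le_sum fun s hs => by
        have h5 := hJle s (Or.inr hs)
        have h6 := hJle 1 (Or.inl rfl)
        linarith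
    rw [Finset.sum_const, nsmul_eq_mul] at h4
    have h5 := hJle 1 (Or.inl rfl)
    calc vol * ‖c‖ ^ 2 ≤ _ := h3
      _ ≤ 4 / (ε * cg) * (S.card * (2 * Dd)) + 2 / ε * Dd :=
          add_le_add (mul_le_mul_of_nonneg_left h4 (by positivity))
            (mul_le_mul_of_nonneg_left h5 (by positivity))
      _ = C0 * (B ^ 2 - ‖c‖ ^ 2) := by
          rw [hC0, hDd]; ring
  have hc2 : ‖c‖ ^ 2 ≤ C0 / (vol + C0) * B ^ 2 := by
    rw [div_mul_eq_mul_div, le_div_iff₀ (by linarith)]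
    linarith
  have hcle : ‖c‖ ≤ θ * B := by
    have h1 : ‖c‖ ^ 2 ≤ (θ * B) ^ 2 := by
      rw [mul_pow, hθ, Real.sq_sqrt hq0]
      exact hc2
    exact (pow_le_pow_iff_left₀ (norm_nonneg _) (mul_nonneg (Real.sqrt_nonneg _) hB0)
      two_ne_zero).1 h1
  rw [huc, norm_smul, Real.norm_of_nonneg (hmpos x).le]
  calc m x * ‖c‖ ≤ m x * (θ * B) := mul_le_mul_of_nonneg_left hcle (hmpos x).le
    _ = θ * B * m x := by ring

/-- strict contraction on equivariant functions, in the norm weighted by `m` (SOFT3) -/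
theorem Kit.contraction [ConnectedSpace Y] (K : Kit 𝒜 M H ρ) (S : Finset G)
    (hgap : ∃ c > 0, ∀ v : H, c * ‖v‖ ^ 2 ≤ ∑ s ∈ S, ‖ρ s v - v‖ ^ 2)
    (m : Y →ᵇ ℝ) (hm : ∀ (g : G) (y : Y), m (g • y) = m y) (hTm : K.T m = m)
    (hm0 : ∃ ε > 0, ∀ y, ε ≤ m y) :
    ∃ (n : ℕ) (θ : ℝ), 0 < n ∧ 0 ≤ θ ∧ θ < 1 ∧ ∀ v : Y →ᵇ H, (∀ g y, v (g • y) = ρ g (v y)) →
      ∀ B, (∀ y, ‖v y‖ ≤ B * m y) → ∀ y, ‖((K.TH ^ n) v) y‖ ≤ θ * B * m y := by
  classical
  obtain ⟨i, r, n, κ, hr, hr1, hn, hκ, hlow⟩ := K.lower (insert 1 S)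
  exact Kit.contraction' K S ⟨i, r, n, κ, hr, hr1, hn, hκ, fun γ hγ =>
    hlow γ (Finset.mem_insert.2 hγ)⟩ hgap m hm hTm hm0

/-- (SOFT4) -/
theorem Kit.solve [ConnectedSpace Y] (K : Kit 𝒜 M H ρ) (S : Finset G)
    (hgap : ∃ c > 0, ∀ v : H, c * ‖v‖ ^ 2 ≤ ∑ s ∈ S, ‖ρ s v - v‖ ^ 2)
    (f : Y →ᵇ H) (hf : ∀ g y, f (g • y) = ρ g (f y)) :
    ∃ v : Y →ᵇ H, (∀ g y, v (g • y) = ρ g (v y)) ∧ v - K.TH v = f := by
  obtain ⟨m, hm, hTm, ε, hε, hmε⟩ := K.exists_eigen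
  obtain ⟨n, θ, hn, hθ0, hθ1, hcon⟩ := K.contraction S hgap m hm hTm ⟨ε, hε, hmε⟩
  have hmpos : ∀ y, 0 < m y := fun y => lt_of_lt_of_le hε (hmε y)
  set Q : (Y →ᵇ H) →L[ℝ] (Y →ᵇ H) := K.TH ^ n with hQ
  have hQs : ∀ k, (Q ^ (k + 1)) f = Q ((Q ^ k) f) := fun k => by rw [pow_succ']; rfl
  set B := ‖f‖ / ε with hB
  have hB0 : 0 ≤ B := by positivity
  have hequi : ∀ k, ∀ g y, ((Q ^ k) f) (g • y) = ρ g (((Q ^ k) f) y) := by
    intro k
    induction k with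
    | zero => exact hf
    | succ k ih =>
      rw [hQs]
      exact pow_equi K n _ ih
  have hbound : ∀ k y, ‖((Q ^ k) f) y‖ ≤ θ ^ k * B * m y := by
    intro k
    induction k with
    | zero =>
      intro y
      show ‖f y‖ ≤ θ ^ 0 * B * m y
      rw [pow_zero, one_mul, hB, div_mul_eq_mul_div, le_div_iff₀ hε]
      exact mul_le_mul (f.norm_coe_le_norm y) (hmε y) hε.le (norm_nonneg _)
    | succ k ih =>
      intro y
      rw [hQs]
      have := hcon ((Q ^ k) f) (hequi k) (θ ^ k * B) ih y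
      calc _ ≤ _ := this
        _ = θ ^ (k + 1) * B * m y := by rw [pow_succ]; ring
  have hnorm : ∀ k, ‖(Q ^ k) f‖ ≤ θ ^ k * (B * ‖m‖) := by
    intro k
    rw [BoundedContinuousFunction.norm_le (by positivity)]
    intro y
    refine (hbound k y).trans ?_
    rw [← mul_assoc]
    exact mul_le_mul_of_nonneg_left ((le_abs_self _).trans (m.norm_coe_le_norm y))
      (by positivity)
  have hsum : Summable fun k => (Q ^ k) f :=
    Summable.of_norm_bounded ((summable_geometric_of_lt_one hθ0 hθ1).mul_right _) hnorm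
  set u := ∑' k, (Q ^ k) f with hu
  have hu1 : u - Q u = f := by
    have h1 : u = (Q ^ 0) f + ∑' k, (Q ^ (k + 1)) f := by
      rw [hu]; exact hsum.tsum_eq_zero_add
    have h2 : Q u = ∑' k, (Q ^ (k + 1)) f := by
      rw [hu, Q.map_tsum hsum]
      exact tsum_congr fun k => (hQs k).symm
    rw [h2]
    nth_rewrite 1 [h1]
    rw [add_sub_cancel_right]
    rfl
  have huequi : ∀ g y, u (g • y) = ρ g (u y) := by
    intro g y
    have hev : ∀ y, HasSum (fun k => ((Q ^ k) f) y) (u y) := fun y =>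
      hsum.hasSum.map (BoundedContinuousFunction.evalCLM ℝ y)
        (BoundedContinuousFunction.evalCLM ℝ y).continuous
    have h1 := hev (g • y)
    have h2 : HasSum (fun k => ρ g (((Q ^ k) f) y)) (ρ g (u y)) :=
      (hev y).map (ρ g) (ρ g).continuous
    exact h1.unique (by simpa only [hequi] using h2)
  -- `v = ∑_{j<n} TH^j u`
  set v := ∑ j ∈ Finset.range n, (K.TH ^ j) u with hv
  refine ⟨v, ?_, ?_⟩
  · intro g y
    rw [hv]
    simp only [BoundedContinuousFunction.coe_sum, Finset.sum_apply, map_sum]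
    exact Finset.sum_congr rfl fun j _ => pow_equi K j u huequi g y
  · have h1 : v = (∑ j ∈ Finset.range n, K.TH ^ j) u := by
      rw [hv, sum_apply]
    have h2 : (1 - K.TH) * ∑ j ∈ Finset.range n, K.TH ^ j = 1 - K.TH ^ n :=
      mul_neg_geom_sum K.TH n
    have h3 : v - K.TH v = ((1 - K.TH) * ∑ j ∈ Finset.range n, K.TH ^ j) u := by
      rw [h1]; rfl
    rw [h3, h2]
    exact hu1

end Sing
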