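import Pool.Agent.Work.MP_3893a0_gt.Geo1
import Pool.Agent.Work.MP_3893a0_gt.Geo2
import Pool.Agent.Work.MP_3893a0_gt.Geo3a
import Pool.Agent.Work.MP_3893a0_gt.Geo3a2
import Pool.Agent.Work.MP_3893a0_gt.Geo3b
import Pool.Agent.Work.MP_3893a0_gt.Op2
import Pool.Agent.Work.MP_3893a0_gt.KitMax
import Pool.Agent.Work.MP_3893a0_gt.Soft
import Pool.Agent.Work.MP_3893a0_gt.Boch1
import Pool.Agent.Work.MP_3893a0_gt.Boch2
import Pool.Agent.Work.MP_3893a0_gt.Boch3
import Pool.Agent.Work.MP_3893a0_gt.Boch4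
import Pool.Agent.Work.MP_3893a0_gt.Boch5
import Pool.Agent.Work.MP_3893a0_gt.Lim1
import Pool.Agent.Work.MP_3893a0_gt.Lim2
import Pool.Agent.Work.MP_3893a0_gt.Lim3
import Pool.Agent.Work.MP_3893a0_gt.Lim4
import Pool.Agent.Work.MP_3893a0_gt.Lim5
import Pool.Agent.Work.MP_3893a0_gt.Grp
import Pool.Agent.Work.MP_3893a0_gt.Par6
import Pool.Agent.Work.MP_3893a0_gt.Glue
import Pool.Agent.Work.MP_3893a0_gt.Atl12
import Pool.Agent.Work.MP_3893a0_gt.Atl3
import Pool.Agent.Work.MP_3893a0_gt.Atl4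
import Pool.Agent.Work.MP_3893a0_gt.Atl5
import Pool.Agent.Work.MP_3893a0_gt.Curv24
import Pool.Agent.Work.MP_3893a0_gt.Curv6

/-! Final assembly. -/

open scoped ContDiff Topology BoundedContinuousFunction Manifold
open MeasureTheory Metric Set Filter

noncomputable section

namespace Sing

section add
variable {V : Type*} [NormedAddCommGroup V] [NormedSpace ℝ V]

theorem continuousOn_levB {f : E → V} {s : Set E} (hs : IsOpen s) (hf : ContDiffOn ℝ ∞ f s)
    (v w : E) : ContinuousOn (fun z => levB f z v w) s := by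
  have h1 : ContDiffOn ℝ ∞ (fderiv ℝ f) s := hf.fderiv_of_isOpen hs (by simp)
  have h2 : ContinuousOn (fderiv ℝ (fderiv ℝ f)) s :=
    (h1.fderiv_of_isOpen (m := ∞) hs (by simp)).continuousOn
  unfold levB
  exact ((h2.clm_apply continuousOn_const).clm_apply continuousOn_const).add
    ((h2.clm_apply continuousOn_const).clm_apply continuousOn_const)

end add

variable {G Y : Type*} [Group G] [TopologicalSpace Y] [MulAction G Y]

/-- existence of almost harmonic equivariant maps -/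
theorem exists_approx (𝒜 : Atl G Y) [ContinuousConstSMul G Y] [T2Space Y] [ConnectedSpace Y]
    {H : Type*} [NormedAddCommGroup H] [InnerProductSpace ℝ H] [CompleteSpace H]
    (ρ : G →* (H ≃ₗᵢ[ℝ] H)) (b : G → H) (hb : ∀ g g', b (g * g') = ρ g (b g') + b g)
    (S : Finset G) (hgap : ∃ c > 0, ∀ v : H, c * ‖v‖ ^ 2 ≤ ∑ s ∈ S, ‖ρ s v - v‖ ^ 2) :
    ∃ (_ : 𝒜.Pou) (M : 𝒜.Met) (u : ℕ → Y → H) (u' : Y → H), (∀ n, 𝒜.Sm (u n)) ∧
      (∀ n g y, u n (g • y) = ρ g (u n y) + b g) ∧ TendstoUniformly u u' atTop ∧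
      ∀ ε > 0, ∀ᶠ n in atTop, ∀ i, ∀ z : E, ‖z‖ < 4 →
        ‖Pc (M.A i) (u n ∘ 𝒜.sym (1, i)) z‖ ≤ ε := by
  obtain ⟨P⟩ := exists_pou 𝒜
  obtain ⟨M⟩ := exists_met 𝒜
  have L : ∀ i, LocPar (M.A i) (P.χ i) := fun i =>
    (exists_locPar (M.A i) (P.χ i) (P.smooth i) (P.nonneg i) (P.supp i)
      (by obtain ⟨c, hc, h⟩ := P.lower; exact ⟨c, hc, h i⟩)).some
  obtain ⟨K⟩ := exists_kit 𝒜 P M L H ρ
  obtain ⟨u0, hu0, hu0b⟩ := Atl.exists_base 𝒜 P ρ b hb
  obtain ⟨f, hf, hfP⟩ := Atl.exists_Pu 𝒜 M ρ b hu0 hu0b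
  obtain ⟨v, hv, hvf⟩ := K.solve S hgap f hf
  obtain ⟨w, hw⟩ := K.KH_lim v
  refine ⟨P, M, fun n y => u0 y + K.KH n v y, fun y => u0 y + w y, fun n => ?_, ?_, ?_, ?_⟩
  · exact Atl.Sm.add 𝒜 hu0 (K.KH_smooth n v)
  · intro n g y
    simp only [hu0b, K.KH_equi n v hv g y, map_add]
    abel
  · rw [Metric.tendstoUniformly_iff] at hw ⊢
    intro ε hε
    filter_upwards [hw ε hε] with n hn y
    simpa using hn y
  · intro ε hε
    filter_upwards [K.KH_P v hv ε hε] with n hn i z hz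
    have h1 := hn i z hz
    have hcd : ∀ {g : Y → H}, 𝒜.Sm g → ContDiffAt ℝ 2 (g ∘ 𝒜.sym (1, i)) z := fun hg =>
      ((hg (1, i)).contDiffAt (isOpen_ball.mem_nhds (by simpa using hz))).of_le
        (WithTop.coe_le_coe.2 le_top)
    have h2 : Pc (M.A i) ((fun y => u0 y + K.KH n v y) ∘ 𝒜.sym (1, i)) z =
        Pc (M.A i) (u0 ∘ 𝒜.sym (1, i)) z + Pc (M.A i) (K.KH n v ∘ 𝒜.sym (1, i)) z :=
      Pc_add (M.A i) (hcd hu0) (hcd (K.KH_smooth n v))
    have h3 := hfP (1, i) z hz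
    have h4 : f (𝒜.sym (1, i) z) = v (𝒜.sym (1, i) z) - K.TH v (𝒜.sym (1, i) z) := by
      rw [← hvf]; rfl
    rw [h2, ← h3, h4]
    convert h1 using 2
    abel

/-! ### coordinates -/

section coord

variable {G : Type*}

/-- coordinate `x` on `ℓ²(G)` as a continuous linear map -/
def ev (x : G) : L2 G →L[ℝ] ℝ :=
  LinearMap.mkContinuous
    { toFun := fun v => (v : G → ℝ) x
      map_add' := fun v w => by simp
      map_smul' := fun c v => by simp } 1 (fun v => by
        simpa using lp.norm_apply_le_norm (by norm_num : (2 : ENNReal) ≠ 0) v x)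

@[simp] theorem ev_apply (x : G) (v : L2 G) : ev x v = (v : G → ℝ) x := rfl

theorem norm_ev_le (x : G) : ‖(ev x : L2 G →L[ℝ] ℝ)‖ ≤ 1 :=
  LinearMap.mkContinuous_norm_le _ zero_le_one _

theorem abs_ev_le (x : G) (v : L2 G) : |(v : G → ℝ) x| ≤ ‖v‖ := by
  simpa using lp.norm_apply_le_norm (by norm_num : (2 : ENNReal) ≠ 0) v x

theorem abs_ev_le' (x : G) (v : L2 G) : |ev x v| ≤ ‖v‖ := abs_ev_le x v

end coord

/-- Levi form of a coordinate -/
theorem levB_clm {V W : Type*} [NormedAddCommGroup V] [NormedSpace ℝ V] [NormedAddCommGroup W]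
    [NormedSpace ℝ W] (ℓ : V →L[ℝ] W) (c : W) {f : E → V} {z : E} (hf : ContDiffAt ℝ 2 f z)
    (v w : E) : levB (fun x => ℓ (f x) + c) z v w = ℓ (levB f z v w) := by
  have h1 : fderiv ℝ (fun x => ℓ (f x) + c) =ᶠ[𝓝 z] fun x => ℓ.comp (fderiv ℝ f x) := by
    filter_upwards [hf.eventually (by simp)] with x hx
    rw [fderiv_add_const]
    exact (ℓ.hasFDerivAt.comp x (hx.differentiableAt (by simp)).hasFDerivAt).fderiv
  have hf' : DifferentiableAt ℝ (fderiv ℝ f) z :=
    (hf.fderiv_right (m := 1) (by norm_num)).differentiableAt (by simp)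
  have h2 : fderiv ℝ (fun x => ℓ.comp (fderiv ℝ f x)) z =
      (ContinuousLinearMap.compL ℝ E V W ℓ).comp (fderiv ℝ (fderiv ℝ f) z) :=
    ((ContinuousLinearMap.compL ℝ E V W ℓ).hasFDerivAt.comp z hf'.hasFDerivAt).fderiv
  unfold levB
  rw [h1.fderiv_eq, h2]
  simp

/-- square summability of the `L²` oscillations of the coordinates -/
theorem energy_summable {G : Type*} [Countable G] (v : E → L2 G) {r : ℝ}
    (hv : ContinuousOn v (closedBall 0 r)) :
    Summable fun x : G => ∫ w in closedBall (0 : E) r, ((v w : G → ℝ) x - (v 0 : G → ℝ) x) ^ 2 := by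
  have hmeas : MeasurableSet (closedBall (0 : E) r) := measurableSet_closedBall
  have hfin : volume (closedBall (0 : E) r) < ⊤ := measure_closedBall_lt_top
  have hcont : ∀ x : G, ContinuousOn (fun w => ((v w : G → ℝ) x - (v 0 : G → ℝ) x) ^ 2)
      (closedBall 0 r) := fun x =>
    (((ev x).continuous.comp_continuousOn hv).sub continuousOn_const).pow 2
  have hint : ∀ x : G, IntegrableOn (fun w => ((v w : G → ℝ) x - (v 0 : G → ℝ) x) ^ 2)
      (closedBall 0 r) := fun x => (hcont x).integrableOn_compact (isCompact_closedBall 0 r)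
  have hsum : ∀ w, HasSum (fun x => ((v w : G → ℝ) x - (v 0 : G → ℝ) x) ^ 2) (‖v w - v 0‖ ^ 2) := by
    intro w
    have := lp.hasSum_norm (p := 2) (by norm_num) (v w - v 0)
    simpa using this
  have hg : IntegrableOn (fun w => ‖v w - v 0‖ ^ 2) (closedBall 0 r) :=
    (((hv.sub continuousOn_const).norm).pow 2).integrableOn_compact (isCompact_closedBall 0 r)
  refine summable_of_sum_le (c := ∫ w in closedBall (0 : E) r, ‖v w - v 0‖ ^ 2)
    (fun x => integral_nonneg fun w => by positivity) fun s => ?_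
  rw [← integral_finsetSum s fun x _ => hint x]
  refine integral_mono (integrable_finsetSum s fun x _ => hint x) hg fun w => ?_
  exact sum_le_hasSum s (fun x _ => by positivity) (hsum w)

section main

variable {G X Y : Type*} [Group G] [TopologicalSpace Y] [MulAction G Y]
  [TopologicalSpace X] [ChartedSpace (ℂ × ℂ) X]

/-- the pluriharmonic function attached to a harmonic Dirichlet function -/
theorem exists_plurih (𝒜 : Atl G Y) [ContinuousConstSMul G Y] [T2Space Y] [ConnectedSpace Y]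
    {S : Finset G} (hS : Subgroup.closure (S : Set G) = ⊤) (hgap : Gap S) {h : G → ℝ}
    (hh : DirFin S h) :
    ∃ u : Y → L2 G, Continuous u ∧
      (∀ (g : G) (y : Y) (x : G), (u (g • y) : G → ℝ) x + h x = (u y : G → ℝ) (x * g) + h (x * g)) ∧
      ∀ a : 𝒜.Idx, ∃ Φ : E → ℂ, DifferentiableOn ℂ Φ (ball 0 (5 / 4)) ∧
        ∀ z ∈ ball (0 : E) (5 / 4), (Φ z).re = (u (𝒜.sym a z) : G → ℝ) 1 + h 1 := by
  obtain ⟨ρ, hρ⟩ := exists_rho (G := G)
  obtain ⟨b, hb, hbc⟩ := exists_cocycle hS hh ρ hρ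
  obtain ⟨P, M, u, u', hu, hub, hlim, hP⟩ := exists_approx 𝒜 ρ b hbc S (gap_rho hgap ρ hρ)
  have hu'b : ∀ g y, u' (g • y) = ρ g (u' y) + b g := by
    intro g y
    have h1 : Tendsto (fun n => u n (g • y)) atTop (𝓝 (u' (g • y))) := hlim.tendsto_at (g • y)
    have h2 : Tendsto (fun n => ρ g (u n y) + b g) atTop (𝓝 (ρ g (u' y) + b g)) :=
      (((ρ g).continuous.tendsto _).comp (hlim.tendsto_at y)).add tendsto_const_nhds
    exact tendsto_nhds_unique (h1.congr fun n => hub n g y) h2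
  have hcont : Continuous u' :=
    hlim.continuous (Frequently.of_forall fun n => Atl.Sm.continuous 𝒜 (hu n))
  -- equivariance in coordinates
  have hcoord : ∀ (w : Y → L2 G), (∀ g y, w (g • y) = ρ g (w y) + b g) →
      ∀ (g : G) (y : Y) (x : G),
        (w (g • y) : G → ℝ) x + h x = (w y : G → ℝ) (x * g) + h (x * g) := by
    intro w hw g y x
    rw [hw g y]
    have : ((ρ g (w y) + b g : L2 G) : G → ℝ) x = (w y : G → ℝ) (x * g) + (h (x * g) - h x) := by
      rw [lp.coeFn_add, Pi.add_apply, hρ, hb]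
    rw [this]; ring
  refine ⟨u', hcont, hcoord u' hu'b, fun a => ?_⟩
  -- the approximating scalar functions in the chart `a = (γ, i)`
  obtain ⟨γ, i⟩ := a
  have hsym : ∀ z, 𝒜.sym (γ, i) z = γ • 𝒜.sym (1, i) z := fun z => by
    have := 𝒜.sym_smul γ (1, i) z
    simpa using this
  have hval : ∀ (w : Y → L2 G), (∀ g y, w (g • y) = ρ g (w y) + b g) → ∀ z,
      (w (𝒜.sym (γ, i) z) : G → ℝ) 1 + h 1 = ev γ (w (𝒜.sym (1, i) z)) + h γ := by
    intro w hw z
    rw [hsym z, hcoord w hw γ _ 1, one_mul, ev_apply]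
  have hf1 : ∀ n, ContDiffOn ℝ ∞ (fun z => ev γ (u n (𝒜.sym (1, i) z)) + h γ) (ball 0 4) :=
    fun n => ((ev γ).contDiff.comp_contDiffOn (hu n (1, i))).add contDiffOn_const
  have hf2 : TendstoUniformlyOn (fun n z => ev γ (u n (𝒜.sym (1, i) z)) + h γ)
      (fun z => ev γ (u' (𝒜.sym (1, i) z)) + h γ) atTop (closedBall 0 (3 / 2)) := by
    rw [Metric.tendstoUniformlyOn_iff]
    rw [Metric.tendstoUniformly_iff] at hlim
    intro ε hε
    filter_upwards [hlim ε hε] with n hn z _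
    have h1 := hn (𝒜.sym (1, i) z)
    rw [dist_eq_norm] at h1
    have h2 := abs_ev_le γ (u' (𝒜.sym (1, i) z) - u n (𝒜.sym (1, i) z))
    rw [Real.dist_eq]
    have h3 : ev γ (u' (𝒜.sym (1, i) z)) + h γ - (ev γ (u n (𝒜.sym (1, i) z)) + h γ) =
        ((u' (𝒜.sym (1, i) z) - u n (𝒜.sym (1, i) z) : L2 G) : G → ℝ) γ := by
      simp
    rw [h3]
    exact lt_of_le_of_lt h2 h1
  have hcd : ∀ n, ∀ z ∈ closedBall (0 : E) (3 / 2), ContDiffAt ℝ ∞ (u n ∘ 𝒜.sym (1, i)) z := by
    intro n z hz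
    have hz4 : z ∈ ball (0 : E) 4 := by
      rw [mem_closedBall] at hz; rw [mem_ball]; linarith
    exact (hu n (1, i)).contDiffAt (isOpen_ball.mem_nhds hz4)
  have hsub : closedBall (0 : E) (3 / 2) ⊆ ball 0 4 := closedBall_subset_ball (by norm_num)
  have hf3 : Tendsto (fun n => ∫ z in closedBall (0 : E) (3 / 2),
      (|levB (fun z => ev γ (u n (𝒜.sym (1, i) z)) + h γ) z e1 e1| ^ 2 +
       |levB (fun z => ev γ (u n (𝒜.sym (1, i) z)) + h γ) z e2 e2| ^ 2 +
       |levB (fun z => ev γ (u n (𝒜.sym (1, i) z)) + h γ) z e1 e2| ^ 2 +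
       |levB (fun z => ev γ (u n (𝒜.sym (1, i) z)) + h γ) z e1 (Complex.I • e2)| ^ 2))
       atTop (𝓝 0) := by
    have h0 := hess_tendsto 𝒜 P M ρ b hu hub hP i
    have hsmall : ∀ n, ∀ z ∈ closedBall (0 : E) (3 / 2), ∀ v w : E,
        |levB (fun z => ev γ (u n (𝒜.sym (1, i) z)) + h γ) z v w| ^ 2 ≤
          ‖levB (u n ∘ 𝒜.sym (1, i)) z v w‖ ^ 2 := by
      intro n z hz v w
      have h1 := levB_clm (ev γ) (h γ) ((hcd n z hz).of_le (WithTop.coe_le_coe.2 le_top)) v w
      have h2 : levB (fun z => ev γ (u n (𝒜.sym (1, i) z)) + h γ) z v w =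
          ev γ (levB (u n ∘ 𝒜.sym (1, i)) z v w) := h1
      rw [h2]
      exact pow_le_pow_left₀ (abs_nonneg _) (abs_ev_le' γ _) 2
    refine squeeze_zero (fun n => integral_nonneg fun z => by positivity) (fun n => ?_) h0
    have hc1 := fun v w : E => (continuousOn_levB isOpen_ball (hf1 n) v w).mono hsub
    have hc2 := fun v w : E => (continuousOn_levB isOpen_ball (hu n (1, i)) v w).mono hsub
    refine setIntegral_mono_on ?_ ?_ measurableSet_closedBall ?_
    · exact (((((hc1 e1 e1).abs.pow 2).add ((hc1 e2 e2).abs.pow 2)).add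
        ((hc1 e1 e2).abs.pow 2)).add ((hc1 e1 (Complex.I • e2)).abs.pow 2)).integrableOn_compact
        (isCompact_closedBall 0 _)
    · exact (((((hc2 e1 e1).norm.pow 2).add ((hc2 e2 e2).norm.pow 2)).add
        ((hc2 e1 e2).norm.pow 2)).add ((hc2 e1 (Complex.I • e2)).norm.pow 2)).integrableOn_compact
        (isCompact_closedBall 0 _)
    · intro z hz
      have := hsmall n z hz
      linarith [this e1 e1, this e2 e2, this e1 e2, this e1 (Complex.I • e2)]
  obtain ⟨Φ, hΦ, hΦre⟩ := limit_plurih _ _ hf1 hf2 hf3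
  exact ⟨Φ, hΦ, fun z hz => by rw [hΦre z hz, hval u' hu'b]⟩

omit [TopologicalSpace Y] [MulAction G Y] [TopologicalSpace X] [ChartedSpace (ℂ × ℂ) X] in
theorem countable_of_fg {S : Finset G} (hS : Subgroup.closure (S : Set G) = ⊤) : Countable G := by
  classical
  let f : List (S × Bool) → G := fun l =>
    (l.map fun q => if q.2 then (q.1 : G) else (q.1 : G)⁻¹).prod
  have hmem : ∀ g : G, g ∈ Set.range f := by
    intro g
    have hg : g ∈ Subgroup.closure (S : Set G) := by rw [hS]; trivial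
    induction hg using Subgroup.closure_induction with
    | mem x hx => exact ⟨[(⟨x, hx⟩, true)], by simp [f]⟩
    | one => exact ⟨[], by simp [f]⟩
    | mul x y _ _ hx hy =>
      obtain ⟨l, rfl⟩ := hx
      obtain ⟨l', rfl⟩ := hy
      exact ⟨l ++ l', by simp [f]⟩
    | inv x _ hx =>
      obtain ⟨l, rfl⟩ := hx
      refine ⟨(l.map fun q => (q.1, !q.2)).reverse, ?_⟩
      simp only [f, List.prod_inv_reverse, List.map_reverse, List.map_map]
      congr 2
      refine List.map_congr_left fun q _ => ?_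
      rcases q with ⟨q, b⟩
      cases b <;> simp
  exact (show Function.Surjective f from hmem).countable

theorem harm_const [T2Space X] [CompactSpace X] [IsManifold 𝓘(ℂ, ℂ × ℂ) ω X] {p : Y → X}
    (hp : IsQuotientCoveringMap p G) [SimplyConnectedSpace Y]
    (hX : ¬ Dense (⋃₀ {C : Set X | IsCurve C}))
    {S : Finset G} (hS : Subgroup.closure (S : Set G) = ⊤) (hgap : Gap S) {h : G → ℝ}
    (hh : DirFin S h) (hH : Harm S h) : ∀ x y, h x = h y := by
  haveI := hp.toContinuousConstSMul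
  haveI := t2_of_cover hp
  haveI := lpc_of_cover hp
  haveI := countable_of_fg hS
  obtain ⟨𝒜, h𝒜⟩ := exists_atlas hp
  obtain ⟨u, hu, huc, hΦ⟩ := exists_plurih 𝒜 hS hgap hh
  obtain ⟨Φ, hΦre, hΦh⟩ := exists_holo 𝒜 (fun y => (u y : G → ℝ) 1 + h 1) hΦ
  obtain ⟨C, hC0, hosc⟩ := osc_bound
  by_contra hcon
  have hne' : ∃ y y', Φ y ≠ Φ y' := by
    by_contra hall
    push Not at hall
    apply hcon
    obtain ⟨y0⟩ : Nonempty Y := inferInstance
    refine const_of_sub_summable hS hh hH ((Φ y0).re) ?_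
    have h1 : ∀ g : G, h g - (Φ y0).re = -(u y0 : G → ℝ) g := by
      intro g
      have h2 := huc g y0 1
      have h3 := hΦre (g • y0)
      rw [hall (g • y0) y0] at h3
      rw [h2, one_mul] at h3
      linarith
    have h4 : Summable fun x => ((u y0 : G → ℝ) x) ^ 2 := by
      have := (lp.hasSum_norm (p := 2) (by norm_num) (u y0)).summable
      simpa using this
    refine h4.congr fun g => ?_
    rw [h1 g]; ring
  set I : 𝒜.Idx → ℝ := fun a => ∫ w in closedBall (0 : E) (6 / 5),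
    ((Φ (𝒜.sym a w)).re - (Φ (𝒜.sym a 0)).re) ^ 2 with hI
  have hI0 : ∀ a, 0 ≤ I a := fun a => integral_nonneg fun w => by positivity
  have hIeq : ∀ (γ : G) (i : Fin 𝒜.n), I (γ, i) = ∫ w in closedBall (0 : E) (6 / 5),
      ((u (𝒜.sym (1, i) w) : G → ℝ) γ - (u (𝒜.sym (1, i) 0) : G → ℝ) γ) ^ 2 := by
    intro γ i
    simp only [hI]
    congr 1
    ext w
    have hsym : ∀ z, 𝒜.sym (γ, i) z = γ • 𝒜.sym (1, i) z := fun z => by
      have := 𝒜.sym_smul γ (1, i) z
      simpa using this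
    have hval : ∀ z, (Φ (𝒜.sym (γ, i) z)).re = (u (𝒜.sym (1, i) z) : G → ℝ) γ + h γ := by
      intro z
      rw [hΦre, hsym z, huc γ _ 1, one_mul]
    rw [hval w, hval 0]
    ring
  have hIsum : Summable I := by
    have h1 : Summable fun q : Fin 𝒜.n × G => I (q.2, q.1) := by
      rw [summable_prod_of_nonneg (fun q => hI0 _)]
      refine ⟨fun i => ?_, Summable.of_finite⟩
      simp only [hIeq]
      refine energy_summable (fun w => u (𝒜.sym (1, i) w)) ?_
      refine hu.comp_continuousOn ((𝒜.continuousOn_sym (1, i)).mono ?_)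
      exact closedBall_subset_ball (by norm_num)
    have h2 := (Equiv.prodComm G (Fin 𝒜.n)).summable_iff.mpr h1
    exact h2
  refine hX (dense_curves hp 𝒜 h𝒜 Φ hΦh hne' (fun a => √(C * I a)) ?_ ?_)
  · refine (hIsum.mul_left C).congr fun a => ?_
    rw [Real.sq_sqrt (mul_nonneg hC0 (hI0 a))]
  · intro a z hz
    refine Real.le_sqrt_of_sq_le ?_
    exact hosc (Φ ∘ 𝒜.sym a) (hΦh a) z hz

/-- all harmonic Dirichlet functions are constant -/
theorem harm_const_all [T2Space X] [CompactSpace X] [IsManifold 𝓘(ℂ, ℂ × ℂ) ω X] {p : Y → X}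
    (hp : IsQuotientCoveringMap p G) [SimplyConnectedSpace Y]
    (hX : ¬ Dense (⋃₀ {C : Set X | IsCurve C})) (S : Finset G)
    (hS : Subgroup.closure (S : Set G) = ⊤) (h : G → ℝ) (hh : DirFin S h) (hH : Harm S h) :
    ∀ x y, h x = h y := by
  rcases gap_or_const S hS with hgap | hconst
  · exact harm_const hp hX hS hgap hh hH
  · exact hconst h hh hH

/-- **Main theorem.** -/
theorem main [T2Space X] [CompactSpace X] [IsManifold 𝓘(ℂ, ℂ × ℂ) ω X] {p : Y → X}
    (hp : IsQuotientCoveringMap p G) [SimplyConnectedSpace Y]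
    (hX : ¬ Dense (⋃₀ {C : Set X | IsCurve C})) :
    (∃ S : Finset G, Subgroup.closure (S : Set G) = ⊤) ∧
      ∀ S : Finset G, Subgroup.closure (S : Set G) = ⊤ → RedVanish S ∧
        ∀ h : G → ℝ, DirFin S h → Harm S h → ∀ x y, h x = h y := by
  constructor
  · have := hp.toContinuousConstSMul
    obtain ⟨𝒜, _⟩ := exists_atlas hp
    exact exists_gen 𝒜
  · intro S hS
    exact ⟨redVanish_of_harm S hS fun h hh hH => harm_const_all hp hX S hS h hh hH,
      fun h hh hH => harm_const_all hp hX S hS h hh hH⟩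

end main

end Sing
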