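import Pool.Agent.Work.MP_3893a0_gt.GrpA

/-! Module GRP1: the Hilbert projection. (helper98) -/

open scoped Topology BoundedContinuousFunction
open MeasureTheory Metric Set Filter

noncomputable section

namespace Sing

variable {G : Type*} [Group G]

namespace GrpAux

/-- exact square summable forms -/
def Exact (S : Finset G) (u : lp (fun _ : G × S => ℝ) 2) : Prop :=
  ∃ g : G → ℝ, ∀ q : G × S, (u : G × S → ℝ) q = g (q.1 * q.2) - g q.1

theorem coord_tendsto {ι : Type*} {u : ℕ → lp (fun _ : ι => ℝ) 2} {v : lp (fun _ : ι => ℝ) 2}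
    (h : Tendsto u atTop (𝓝 v)) (i : ι) :
    Tendsto (fun n => (u n : ι → ℝ) i) atTop (𝓝 ((v : ι → ℝ) i)) := by
  rw [tendsto_iff_norm_sub_tendsto_zero] at h ⊢
  refine squeeze_zero (fun _ => norm_nonneg _) (fun n => ?_) h
  have := lp.norm_apply_le_norm (p := 2) (by norm_num) (u n - v) i
  simpa using this

theorem exact_of_tendsto {S : Finset G} (hS : Subgroup.closure (S : Set G) = ⊤)
    {u : ℕ → lp (fun _ : G × S => ℝ) 2} {v : lp (fun _ : G × S => ℝ) 2}
    (h : Tendsto u atTop (𝓝 v)) (hu : ∀ n, Exact S (u n)) : Exact S v := by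
  choose g hg using hu
  have key : ∀ x : G, ∃ l, Tendsto (fun n => g n x - g n 1) atTop (𝓝 l) := by
    apply closure_ind hS
    · exact ⟨0, by simp⟩
    · rintro x ⟨l, hl⟩ s hs
      refine ⟨l + (v : G × S → ℝ) (x, ⟨s, hs⟩), ?_⟩
      refine (hl.add (coord_tendsto h (x, ⟨s, hs⟩))).congr (fun n => ?_)
      rw [hg n]
      ring
    · rintro x ⟨l, hl⟩ s hs
      refine ⟨l - (v : G × S → ℝ) (x * s⁻¹, ⟨s, hs⟩), ?_⟩
      refine (hl.sub (coord_tendsto h (x * s⁻¹, ⟨s, hs⟩))).congr (fun n => ?_)
      rw [hg n]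
      have : x * s⁻¹ * s = x := by group
      simp only [this]
      ring
  choose l hl using key
  refine ⟨l, fun q => ?_⟩
  have h1 := coord_tendsto h q
  have h2 := (hl (q.1 * q.2)).sub (hl q.1)
  refine tendsto_nhds_unique h1 (h2.congr (fun n => ?_))
  rw [hg n]
  ring

/-- differentials of finitely supported functions -/
def fsSub (S : Finset G) : Submodule ℝ (lp (fun _ : G × S => ℝ) 2) where
  carrier := {u | ∃ φ : G →₀ ℝ, ∀ q : G × S, (u : G × S → ℝ) q = φ (q.1 * q.2) - φ q.1}
  add_mem' := by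
    rintro a b ⟨φ, hφ⟩ ⟨ψ, hψ⟩
    refine ⟨φ + ψ, fun q => ?_⟩
    rw [lp.coeFn_add, Pi.add_apply, hφ, hψ, Finsupp.add_apply, Finsupp.add_apply]
    ring
  zero_mem' := ⟨0, fun q => by simp⟩
  smul_mem' := by
    rintro c a ⟨φ, hφ⟩
    refine ⟨c • φ, fun q => ?_⟩
    rw [lp.coeFn_smul, Pi.smul_apply, hφ, Finsupp.smul_apply, Finsupp.smul_apply, smul_eq_mul,
      smul_eq_mul, smul_eq_mul]
    ring

theorem fs_memL2 {S : Finset G} (φ : G →₀ ℝ) :
    Summable fun q : G × S => (φ (q.1 * q.2) - φ q.1) ^ 2 := by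
  classical
  apply summable_of_hasFiniteSupport
  set A : Finset (G × S) := (φ.support ×ˢ (Finset.univ : Finset S)) ∪
    (φ.support ×ˢ (Finset.univ : Finset S)).image
      (fun q => ((q.1 * (q.2 : G)⁻¹, q.2) : G × S)) with hA
  refine (Finset.finite_toSet A).subset ?_
  rintro ⟨x, s⟩ hq
  rw [Function.mem_support] at hq
  by_cases h1 : φ x = 0
  · have h2 : φ (x * s) ≠ 0 := by
      intro h2
      apply hq
      simp only [h1, h2]
      norm_num
    apply Finset.mem_coe.mpr
    apply Finset.mem_union_right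
    refine Finset.mem_image.mpr ⟨(x * s, s), ?_, ?_⟩
    · exact Finset.mem_product.mpr ⟨Finsupp.mem_support_iff.mpr h2, Finset.mem_univ _⟩
    · simp
  · apply Finset.mem_coe.mpr
    apply Finset.mem_union_left
    exact Finset.mem_product.mpr ⟨Finsupp.mem_support_iff.mpr h1, Finset.mem_univ _⟩

end GrpAux

open GrpAux

/-- (GRP1) Hilbert projection -/
theorem redVanish_of_harm (S : Finset G) (hS : Subgroup.closure (S : Set G) = ⊤)
    (H : ∀ h : G → ℝ, DirFin S h → Harm S h → ∀ x y, h x = h y) : RedVanish S := by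
  classical
  intro f hf ε hε
  set V := (fsSub S).topologicalClosure with hV
  have : CompleteSpace V := (Submodule.isClosed_topologicalClosure _).completeSpace_coe
  let u : lp (fun _ : G × S => ℝ) 2 := ⟨fun q => f (q.1 * q.2) - f q.1, memL2_iff.mpr hf⟩
  have hu : ∀ q : G × S, (u : G × S → ℝ) q = f (q.1 * q.2) - f q.1 := fun q => rfl
  obtain ⟨p, hp, r, hr, hpr⟩ := V.exists_add_mem_mem_orthogonal u
  -- `p` is exact
  have hpE : Exact S p := by
    have h1 : p ∈ closure ((fsSub S : Submodule ℝ (lp (fun _ : G × S => ℝ) 2)) :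
      Set (lp (fun _ : G × S => ℝ) 2)) := hp
    obtain ⟨w, hw, hlim⟩ := mem_closure_iff_seq_limit.mp h1
    refine exact_of_tendsto hS hlim (fun n => ?_)
    obtain ⟨φ, hφ⟩ := hw n
    exact ⟨φ, hφ⟩
  obtain ⟨g, hg⟩ := hpE
  set h : G → ℝ := fun x => f x - g x with hh
  have hrq : ∀ q : G × S, (r : G × S → ℝ) q = h (q.1 * q.2) - h q.1 := by
    intro q
    have e : (u : G × S → ℝ) q = (p : G × S → ℝ) q + (r : G × S → ℝ) q := by
      rw [hpr, lp.coeFn_add, Pi.add_apply]
    rw [hu, hg] at e
    simp only [hh]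
    linarith
  have hDir : DirFin S h := by
    have := summable_L2 r
    refine this.congr (fun q => ?_)
    rw [hrq]
  have hHarm : Harm S h := by
    intro x
    let δ : lp (fun _ : G × S => ℝ) 2 :=
      ⟨fun q => Finsupp.single x (1 : ℝ) (q.1 * q.2) - Finsupp.single x (1 : ℝ) q.1,
        memL2_iff.mpr (fs_memL2 _)⟩
    have hδ : δ ∈ V := Submodule.le_topologicalClosure _ ⟨Finsupp.single x 1, fun q => rfl⟩
    have h0 : inner ℝ δ r = (0 : ℝ) := hr δ hδ
    rw [inner_L2] at h0
    have h1 : HasSum (fun q : G × S => if q.1 * q.2 = x then (r : G × S → ℝ) q else 0)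
        (∑ s : S, (r : G × S → ℝ) (x * (s : G)⁻¹, s)) := by
      have e := hasSum_sum (s := (Finset.univ : Finset S))
        (f := fun (s : S) (q : G × S) => if q = (x * (s : G)⁻¹, s) then
          (r : G × S → ℝ) (x * (s : G)⁻¹, s) else 0)
        (a := fun s => (r : G × S → ℝ) (x * (s : G)⁻¹, s)) (fun s _ => hasSum_ite_eq _ _)
      convert e using 1
      funext q
      obtain ⟨y, s⟩ := q
      rw [Finset.sum_eq_single s]
      · by_cases hy : y * s = x
        · have : y = x * (s : G)⁻¹ := by rw [← hy]; group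
          simp [this]
        · have : ¬ ((y, s) : G × S) = (x * (s : G)⁻¹, s) := by
            intro hys
            apply hy
            rw [(Prod.mk.inj hys).1]
            group
          simp [hy, this]
      · intro t _ hts
        have : ¬ ((y, s) : G × S) = (x * (t : G)⁻¹, t) := by
          intro hys
          exact hts (Prod.mk.inj hys).2.symm
        simp [this]
      · intro h
        exact absurd (Finset.mem_univ _) h
    have h2 : HasSum (fun q : G × S => if q.1 = x then (r : G × S → ℝ) q else 0)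
        (∑ s : S, (r : G × S → ℝ) (x, s)) := by
      have e := hasSum_sum (s := (Finset.univ : Finset S))
        (f := fun (s : S) (q : G × S) => if q = (x, s) then
          (r : G × S → ℝ) (x, s) else 0)
        (a := fun s => (r : G × S → ℝ) (x, s)) (fun s _ => hasSum_ite_eq _ _)
      convert e using 1
      funext q
      obtain ⟨y, s⟩ := q
      rw [Finset.sum_eq_single s]
      · by_cases hy : y = x
        · simp [hy]
        · have : ¬ ((y, s) : G × S) = (x, s) := by
            intro hys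
            exact hy (Prod.mk.inj hys).1
          simp [hy]
      · intro t _ hts
        have : ¬ ((y, s) : G × S) = (x, t) := by
          intro hys
          exact hts (Prod.mk.inj hys).2.symm
        simp [this]
      · intro h
        exact absurd (Finset.mem_univ _) h
    have h3 := (h1.sub h2).tsum_eq
    have h4 : ∑' q : G × S, ((if q.1 * q.2 = x then (r : G × S → ℝ) q else 0) -
        (if q.1 = x then (r : G × S → ℝ) q else 0)) = 0 := by
      rw [← h0]
      apply tsum_congr
      intro q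
      show _ = (r : G × S → ℝ) q *
        (Finsupp.single x (1 : ℝ) (q.1 * q.2) - Finsupp.single x (1 : ℝ) q.1)
      rw [Finsupp.single_apply, Finsupp.single_apply]
      simp only [eq_comm (a := x)]
      split_ifs <;> ring
    rw [h4, ← Finset.sum_sub_distrib] at h3
    rw [← Finset.sum_coe_sort]
    have h5 : ∑ s : S, (h (x * s) + h (x * (s : G)⁻¹) - 2 * h x) =
        -∑ s : S, ((r : G × S → ℝ) (x * (s : G)⁻¹, s) - (r : G × S → ℝ) (x, s)) := by
      rw [← Finset.sum_neg_distrib]
      apply Finset.sum_congr rfl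
      intro s _
      rw [hrq, hrq]
      have : x * (s : G)⁻¹ * s = x := by group
      simp only [this]
      ring
    rw [h5, ← h3, neg_zero]
  have hconst := H h hDir hHarm
  have hr0 : r = 0 := by
    ext q
    rw [hrq, hconst (q.1 * q.2) q.1, sub_self]
    rfl
  rw [hr0, add_zero] at hpr
  have hmem : u ∈ closure ((fsSub S : Submodule ℝ (lp (fun _ : G × S => ℝ) 2)) :
      Set (lp (fun _ : G × S => ℝ) 2)) := by
    rw [hpr]
    exact hp
  obtain ⟨w, ⟨φ, hφ⟩, hdist⟩ := Metric.mem_closure_iff.mp hmem (Real.sqrt ε) (Real.sqrt_pos.mpr hε)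
  refine ⟨φ, ?_⟩
  have h1 : ∑' q : G × S, ((f (q.1 * q.2) - φ (q.1 * q.2)) - (f q.1 - φ q.1)) ^ 2 =
      ‖u - w‖ ^ 2 := by
    rw [norm_sq_L2]
    apply tsum_congr
    intro q
    rw [lp.coeFn_sub, Pi.sub_apply, hu, hφ]
    ring
  rw [h1, ← Real.sq_sqrt hε.le, ← dist_eq_norm]
  exact pow_lt_pow_left₀ hdist dist_nonneg (by norm_num)

end Sing
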