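import Pool.Agent.Work.MP_3893a0_gt.Defs

/-! Module GRP, first part: maximum principle, elementary facts on Dirichlet functions,
the right regular representation. (helper98) -/

open scoped ContDiff Topology BoundedContinuousFunction
open MeasureTheory Metric Set Filter

noncomputable section

namespace Sing

variable {G : Type*} [Group G]

namespace GrpAux

/-- outer boundary -/
def bd (S F : Finset G) : Set G :=
  {x | x ∉ F ∧ ∃ y ∈ F, ∃ s ∈ S, x = y * s ∨ x = y * s⁻¹}

/-- induction from the generators -/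
theorem closure_ind {S : Finset G} (hS : Subgroup.closure (S : Set G) = ⊤) (p : G → Prop)
    (h1 : p 1) (hs : ∀ g, p g → ∀ s ∈ S, p (g * s)) (hsi : ∀ g, p g → ∀ s ∈ S, p (g * s⁻¹))
    (g : G) : p g := by
  have hg : g ∈ Subgroup.closure (S : Set G) := by rw [hS]; trivial
  induction hg using Subgroup.closure_induction_right with
  | one => exact h1
  | mul_right x hx y hy ih => exact hs x ih y (by simpa using hy)
  | mul_inv_cancel x hx y hy ih => exact hsi x ih y (by simpa using hy)

theorem harm_step {S : Finset G} {h : G → ℝ} (hH : Harm S h) {y : G} {M : ℝ} (hy : h y = M)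
    (hle : ∀ s ∈ S, h (y * s) ≤ M ∧ h (y * s⁻¹) ≤ M) :
    ∀ s ∈ S, h (y * s) = M ∧ h (y * s⁻¹) = M := by
  have h0 := hH y
  rw [Finset.sum_eq_zero_iff_of_nonpos] at h0
  · intro s hs
    have h1 := h0 s hs
    obtain ⟨h2, h3⟩ := hle s hs
    constructor <;> linarith
  · intro s hs
    obtain ⟨h2, h3⟩ := hle s hs
    linarith

/-- maximum principle -/
theorem harm_max {S : Finset G} (hS : Subgroup.closure (S : Set G) = ⊤) {h : G → ℝ}
    (hH : Harm S h) {x0 : G} (hmax : ∀ x, h x ≤ h x0) (x : G) : h x = h x0 := by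
  have key : ∀ g : G, h (x0 * g) = h x0 := by
    apply closure_ind hS
    · simp
    · intro g hg s hs
      have := (harm_step hH hg (fun s _ => ⟨hmax _, hmax _⟩) s hs).1
      rwa [mul_assoc] at this
    · intro g hg s hs
      have := (harm_step hH hg (fun s _ => ⟨hmax _, hmax _⟩) s hs).2
      rwa [mul_assoc] at this
  simpa using key (x0⁻¹ * x)

theorem harm_neg {S : Finset G} {h : G → ℝ} (hH : Harm S h) : Harm S (fun x => -h x) := by
  intro x
  have := hH x
  rw [← neg_eq_zero, ← Finset.sum_neg_distrib]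
  rw [← this]
  apply Finset.sum_congr rfl
  intro s _
  ring

theorem dirFin_neg {S : Finset G} {h : G → ℝ} (hh : DirFin S h) :
    DirFin S (fun x => -h x) := by
  have : (fun q : G × S => (-h (q.1 * q.2) - -h q.1) ^ 2) =
      fun q : G × S => (h (q.1 * q.2) - h q.1) ^ 2 := by
    funext q; ring
  unfold DirFin
  rw [this]
  exact hh

theorem summable_sq_add {ι : Type*} {a b : ι → ℝ} (ha : Summable fun i => a i ^ 2)
    (hb : Summable fun i => b i ^ 2) : Summable fun i => (a i + b i) ^ 2 := by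
  refine Summable.of_nonneg_of_le (fun i => sq_nonneg _) (fun i => ?_)
    ((ha.mul_left 2).add (hb.mul_left 2))
  nlinarith [sq_nonneg (a i - b i)]

theorem dirFin_gen {S : Finset G} {h : G → ℝ} (hh : DirFin S h) {s : G} (hs : s ∈ S) :
    Summable fun x => (h (x * s) - h x) ^ 2 := by
  have hinj : Function.Injective (fun x : G => ((x, ⟨s, hs⟩) : G × S)) := by
    intro x y hxy
    exact (Prod.mk.inj hxy).1
  have h0 : Summable (fun q : G × S => (h (q.1 * (q.2 : G)) - h q.1) ^ 2) := hh
  have h1 := h0.comp_injective hinj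
  simp only [Function.comp_def] at h1
  exact h1

end GrpAux

open GrpAux

/-- (GRP5) the differences `h(xg) - h(x)` are square summable for all `g` -/
theorem DirFin.translate {S : Finset G} (hS : Subgroup.closure (S : Set G) = ⊤) {h : G → ℝ}
    (hh : DirFin S h) (g : G) : Summable fun x => (h (x * g) - h x) ^ 2 := by
  revert g
  apply closure_ind hS
  · simp
  · intro g hg s hs
    have h1 : Summable fun x => (h (x * g * s) - h (x * g)) ^ 2 := by
      have := (Equiv.mulRight g).summable_iff.mpr (dirFin_gen hh hs)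
      simpa [Function.comp_def] using this
    have h2 := summable_sq_add h1 hg
    refine h2.congr (fun x => ?_)
    rw [← mul_assoc]
    ring
  · intro g hg s hs
    have h1 : Summable fun x => (h (x * (g * s⁻¹)) - h (x * g)) ^ 2 := by
      have := (Equiv.mulRight (g * s⁻¹)).summable_iff.mpr (dirFin_gen hh hs)
      refine this.congr (fun x => ?_)
      simp only [Function.comp_def, Equiv.coe_mulRight]
      have : x * (g * s⁻¹) * s = x * g := by group
      rw [this]
      ring
    have h2 := summable_sq_add h1 hg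
    refine h2.congr (fun x => ?_)
    ring

namespace GrpAux

omit [Group G] in
theorem exists_max_of_summable {h : G → ℝ} {c : ℝ} (hc : Summable fun x => (h x - c) ^ 2)
    {x1 : G} (hx1 : c < h x1) : ∃ x0, ∀ x, h x ≤ h x0 := by
  have hpos : 0 < (h x1 - c) ^ 2 := by
    have : 0 < h x1 - c := by linarith
    positivity
  have hfin : {x | h x1 ≤ h x}.Finite := by
    have h1 := hc.tendsto_cofinite_zero.eventually (gt_mem_nhds hpos)
    rw [Filter.eventually_cofinite] at h1
    refine h1.subset (fun x hx => ?_)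
    have hx' : h x1 ≤ h x := hx
    show ¬ ((h x - c) ^ 2 < (h x1 - c) ^ 2)
    rw [not_lt]
    apply pow_le_pow_left₀ <;> linarith
  obtain ⟨x0, hx0, hmax⟩ := hfin.exists_maximalFor h _ ⟨x1, by simp⟩
  refine ⟨x0, fun x => ?_⟩
  rcases le_total (h x1) (h x) with hle | hle
  · rcases le_total (h x) (h x0) with h' | h'
    · exact h'
    · exact hmax hle h'
  · exact hle.trans hx0

end GrpAux

/-- (GRP5) an `ℓ²` perturbation of a constant which is harmonic is constant -/
theorem const_of_sub_summable {S : Finset G} (hS : Subgroup.closure (S : Set G) = ⊤) {h : G → ℝ}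
    (hh : DirFin S h) (hH : Harm S h) (c : ℝ) (hc : Summable fun x => (h x - c) ^ 2) :
    ∀ x y, h x = h y := by
  by_cases hall : ∀ x, h x = c
  · intro x y
    rw [hall x, hall y]
  · push Not at hall
    obtain ⟨x1, hx1⟩ := hall
    rcases lt_or_gt_of_ne hx1 with hlt | hgt
    · have hc' : Summable fun x => (-h x - -c) ^ 2 := by
        refine hc.congr (fun x => ?_)
        ring
      obtain ⟨x0, hx0⟩ := exists_max_of_summable (h := fun x => -h x) hc'
        (x1 := x1) (by simpa using hlt)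
      intro x y
      have h1 := harm_max hS (harm_neg hH) hx0 x
      have h2 := harm_max hS (harm_neg hH) hx0 y
      linarith
    · obtain ⟨x0, hx0⟩ := exists_max_of_summable hc hgt
      intro x y
      rw [harm_max hS hH hx0 x, harm_max hS hH hx0 y]

/-! ### `ℓ²` -/

namespace GrpAux

theorem memL2_iff {ι : Type*} {f : ι → ℝ} :
    Memℓp (E := fun _ : ι => ℝ) f 2 ↔ Summable fun x => f x ^ 2 := by
  rw [memℓp_gen_iff (by norm_num)]
  have : (fun i => ‖f i‖ ^ (2 : ENNReal).toReal) = fun x => f x ^ 2 := by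
    funext i
    simp
  rw [this]

theorem summable_L2 {ι : Type*} (v : lp (fun _ : ι => ℝ) 2) : Summable fun x => (v : ι → ℝ) x ^ 2 :=
  memL2_iff.mp (lp.memℓp v)

theorem norm_sq_L2 {ι : Type*} (v : lp (fun _ : ι => ℝ) 2) :
    ‖v‖ ^ 2 = ∑' x, (v : ι → ℝ) x ^ 2 := by
  have := lp.norm_rpow_eq_tsum (p := 2) (by norm_num) v
  simpa using this

theorem inner_L2 {ι : Type*} (v w : lp (fun _ : ι => ℝ) 2) :
    inner ℝ v w = ∑' x, (w : ι → ℝ) x * (v : ι → ℝ) x := by
  rw [lp.inner_eq_tsum]
  rfl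

/-- right translation on `ℓ²(G)` -/
def tr (g : G) : L2 G →ₗᵢ[ℝ] L2 G where
  toFun v := ⟨fun x => (v : G → ℝ) (x * g), memL2_iff.mpr (by
    have := (Equiv.mulRight g).summable_iff.mpr (summable_L2 v)
    simpa [Function.comp_def] using this)⟩
  map_add' v w := by
    ext x
    simp
  map_smul' c v := by
    ext x
    simp
  norm_map' v := by
    rw [← sq_eq_sq₀ (norm_nonneg _) (norm_nonneg _), norm_sq_L2, norm_sq_L2]
    exact (Equiv.mulRight g).tsum_eq (fun x => (v : G → ℝ) x ^ 2)

theorem tr_apply (g : G) (v : L2 G) (x : G) : (tr g v : G → ℝ) x = (v : G → ℝ) (x * g) := rfl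

theorem tr_tr (g g' : G) (v : L2 G) : tr g (tr g' v) = tr (g * g') v := by
  ext x
  simp only [tr_apply, mul_assoc]

theorem tr_one (v : L2 G) : tr (1 : G) v = v := by
  ext x
  simp only [tr_apply, mul_one]

def trE (g : G) : L2 G ≃ₗᵢ[ℝ] L2 G :=
  LinearIsometryEquiv.ofSurjective (tr g) (fun v => ⟨tr g⁻¹ v, by rw [tr_tr, mul_inv_cancel, tr_one]⟩)

theorem trE_apply (g : G) (v : L2 G) : trE g v = tr g v := rfl

end GrpAux

/-- (GRP6) right regular representation -/
theorem exists_rho : ∃ ρ : G →* (L2 G ≃ₗᵢ[ℝ] L2 G), ∀ g v x, (ρ g v : G → ℝ) x = v (x * g) := by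
  refine ⟨MonoidHom.mk' trE (fun g g' => ?_), fun g v x => rfl⟩
  ext v : 1
  show tr (g * g') v = tr g (tr g' v)
  rw [tr_tr]

/-- (GRP6) the gap for `ρ` -/
theorem gap_rho {S : Finset G} (hgap : Gap S) (ρ : G →* (L2 G ≃ₗᵢ[ℝ] L2 G))
    (hρ : ∀ g v x, (ρ g v : G → ℝ) x = v (x * g)) :
    ∃ c > 0, ∀ v : L2 G, c * ‖v‖ ^ 2 ≤ ∑ s ∈ S, ‖ρ s v - v‖ ^ 2 := by
  obtain ⟨c, hc, h⟩ := hgap
  refine ⟨c, hc, fun v => ?_⟩
  have h1 := h v (summable_L2 v)
  rw [norm_sq_L2]
  refine h1.trans (le_of_eq ?_)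
  apply Finset.sum_congr rfl
  intro s _
  rw [norm_sq_L2]
  apply tsum_congr
  intro x
  rw [lp.coeFn_sub, Pi.sub_apply, hρ]

/-- (GRP6) the cocycle `b g = (x ↦ h (x g) - h x)` -/
theorem exists_cocycle {S : Finset G} (hS : Subgroup.closure (S : Set G) = ⊤) {h : G → ℝ}
    (hh : DirFin S h) (ρ : G →* (L2 G ≃ₗᵢ[ℝ] L2 G))
    (hρ : ∀ g v x, (ρ g v : G → ℝ) x = v (x * g)) :
    ∃ b : G → L2 G, (∀ g x, (b g : G → ℝ) x = h (x * g) - h x) ∧
      ∀ g g', b (g * g') = ρ g (b g') + b g := by
  refine ⟨fun g => ⟨fun x => h (x * g) - h x, memL2_iff.mpr (hh.translate hS g)⟩,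
    fun g x => rfl, fun g g' => ?_⟩
  ext x
  rw [lp.coeFn_add, Pi.add_apply, hρ]
  show h (x * (g * g')) - h x = (h (x * g * g') - h (x * g)) + (h (x * g) - h x)
  rw [← mul_assoc]
  ring

end Sing
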