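import Pool.Agent.Work.MP_3893a0_gt.Defs

/-! Module OP0: parametric integrals over the ball, and the approximate identity. -/

open scoped ContDiff Topology BoundedContinuousFunction
open MeasureTheory Metric Set Filter

noncomputable section

set_option linter.unusedSectionVars false

namespace Sing

namespace Op0

universe u v

variable {V : Type v} [NormedAddCommGroup V] [NormedSpace ℝ V]
variable {U : Type u} [NormedAddCommGroup U] [NormedSpace ℝ U]

/-- parametric integral with an operator valued kernel -/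
def IK (K : E × E → (V →L[ℝ] U)) (h : E → V) (ξ : E) : U :=
  ∫ w in closedBall (0 : E) 2, K (ξ, w) (h w)

/-- derivative of the kernel in the first variable -/
def DK (K : E × E → (V →L[ℝ] U)) (p : E × E) : V →L[ℝ] (E →L[ℝ] U) :=
  ((fderiv ℝ K p).comp (ContinuousLinearMap.inl ℝ E E)).flip

theorem DK_smooth {K : E × E → (V →L[ℝ] U)} (hK : ContDiff ℝ ∞ K) : ContDiff ℝ ∞ (DK K) := by
  have h1 : ContDiff ℝ ∞ (fderiv ℝ K) := (contDiff_infty_iff_fderiv.1 hK).2
  have h2 : ContDiff ℝ ∞ (fun p => (fderiv ℝ K p).comp (ContinuousLinearMap.inl ℝ E E)) :=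
    h1.clm_comp contDiff_const
  have h3 : ContDiff ℝ ∞ (fun T : E →L[ℝ] V →L[ℝ] U => T.flip) := by
    exact ContinuousLinearMap.contDiff (𝕜 := ℝ) (E := E →L[ℝ] V →L[ℝ] U)
      (F := V →L[ℝ] E →L[ℝ] U) (n := ∞)
      (ContinuousLinearMap.flipₗᵢ ℝ E V U).toContinuousLinearEquiv.toContinuousLinearMap
  exact h3.comp h2

theorem hasFDerivAt_pt {K : E × E → (V →L[ℝ] U)} (hK : ContDiff ℝ ∞ K) (v : V) (ξ w : E) :
    HasFDerivAt (fun ξ => K (ξ, w) v) (DK K (ξ, w) v) ξ := by
  have h1 : HasFDerivAt K (fderiv ℝ K (ξ, w)) (ξ, w) :=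
    (hK.differentiable (by simp)).differentiableAt.hasFDerivAt
  have h2 : HasFDerivAt (fun ξ : E => (ξ, w)) (ContinuousLinearMap.inl ℝ E E) ξ :=
    hasFDerivAt_prodMk_left ξ w
  have h3 : HasFDerivAt (fun ξ => K (ξ, w))
      ((fderiv ℝ K (ξ, w)).comp (ContinuousLinearMap.inl ℝ E E)) ξ := h1.comp ξ h2
  have h4 := (ContinuousLinearMap.apply ℝ U v).hasFDerivAt.comp ξ h3
  exact h4

theorem contOn_piece {K : E × E → (V →L[ℝ] U)} (hK : ContDiff ℝ ∞ K) {h : E → V}
    (hh : ContinuousOn h (closedBall 0 2)) (ξ : E) :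
    ContinuousOn (fun w => K (ξ, w) (h w)) (closedBall 0 2) := by
  have h1 : Continuous (fun w => K (ξ, w)) := hK.continuous.comp (Continuous.prodMk_right ξ)
  exact h1.continuousOn.clm_apply hh

theorem int_piece {K : E × E → (V →L[ℝ] U)} (hK : ContDiff ℝ ∞ K) {h : E → V}
    (hh : ContinuousOn h (closedBall 0 2)) (ξ : E) :
    IntegrableOn (fun w => K (ξ, w) (h w)) (closedBall 0 2) :=
  (contOn_piece hK hh ξ).integrableOn_compact (isCompact_closedBall 0 2)

theorem hasFDerivAt_IK {K : E × E → (V →L[ℝ] U)} (hK : ContDiff ℝ ∞ K) {h : E → V}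
    (hh : ContinuousOn h (closedBall 0 2)) (ξ0 : E) :
    HasFDerivAt (IK K h) (IK (DK K) h ξ0) ξ0 := by
  have hD := DK_smooth hK
  have hDc0 : Continuous (DK K) := hD.continuous
  have hDc : Continuous (fun p => ‖DK K p‖) := Continuous.norm (E := V →L[ℝ] E →L[ℝ] U) hDc0
  obtain ⟨C, hC⟩ := ((isCompact_closedBall ξ0 1).prod (isCompact_closedBall (0 : E) 2)).bddAbove_image
    hDc.continuousOn
  have hC' : ∀ ξ ∈ closedBall ξ0 1, ∀ w ∈ closedBall (0 : E) 2, ‖DK K (ξ, w)‖ ≤ C :=
    fun ξ hξ w hw => hC ⟨(ξ, w), ⟨hξ, hw⟩, rfl⟩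
  refine hasFDerivAt_integral_of_dominated_of_fderiv_le (F := fun ξ w => K (ξ, w) (h w))
    (F' := fun ξ w => DK K (ξ, w) (h w)) (bound := fun w => C * ‖h w‖)
    (closedBall_mem_nhds ξ0 one_pos) ?_ ?_ ?_ ?_ ?_ ?_
  · exact Eventually.of_forall fun ξ => (int_piece hK hh ξ).aestronglyMeasurable
  · exact int_piece hK hh ξ0
  · exact (int_piece hD hh ξ0).aestronglyMeasurable
  · refine (ae_restrict_iff' measurableSet_closedBall).2 (Eventually.of_forall ?_)
    intro w hw ξ hξ
    exact (ContinuousLinearMap.le_opNorm _ _).trans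
      (mul_le_mul_of_nonneg_right (hC' ξ hξ w hw) (norm_nonneg _))
  · have h1 : IntegrableOn (fun w => ‖h w‖) (closedBall (0 : E) 2) :=
      hh.norm.integrableOn_compact (isCompact_closedBall 0 2)
    exact h1.const_mul C
  · exact Eventually.of_forall fun w ξ _ => hasFDerivAt_pt hK (h w) ξ w

theorem contDiff_IK_nat (n : ℕ) : ∀ {U : Type u} [NormedAddCommGroup U] [NormedSpace ℝ U]
    {K : E × E → (V →L[ℝ] U)} (_ : ContDiff ℝ ∞ K) {h : E → V}
    (_ : ContinuousOn h (closedBall 0 2)), ContDiff ℝ n (IK K h) := by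
  induction n with
  | zero =>
    intro U _ _ K hK h hh
    have hd : Differentiable ℝ (IK K h) := fun ξ => (hasFDerivAt_IK hK hh ξ).differentiableAt
    exact contDiff_zero.2 hd.continuous
  | succ n ih =>
    intro U _ _ K hK h hh
    refine contDiff_succ_iff_hasFDerivAt.2 ⟨IK (DK K) h, ih (DK_smooth hK) hh, ?_⟩
    exact fun ξ => hasFDerivAt_IK hK hh ξ

theorem contDiff_IK {K : E × E → (V →L[ℝ] U)} (hK : ContDiff ℝ ∞ K) {h : E → V}
    (hh : ContinuousOn h (closedBall 0 2)) : ContDiff ℝ ∞ (IK K h) :=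
  contDiff_infty.2 fun n => contDiff_IK_nat n hK hh

theorem fderiv_IK {K : E × E → (V →L[ℝ] U)} (hK : ContDiff ℝ ∞ K) {h : E → V}
    (hh : ContinuousOn h (closedBall 0 2)) : fderiv ℝ (IK K h) = IK (DK K) h :=
  funext fun ξ => (hasFDerivAt_IK hK hh ξ).fderiv

/-- the kernel `k • id` -/
def KK (k : E → E → ℝ) (p : E × E) : V →L[ℝ] V := k p.1 p.2 • ContinuousLinearMap.id ℝ V

theorem KK_smooth {k : E → E → ℝ} (hk : ContDiff ℝ ∞ (fun p : E × E => k p.1 p.2)) :
    ContDiff ℝ ∞ (KK (V := V) k) := hk.smul contDiff_const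

theorem IK_KK (k : E → E → ℝ) (h : E → V) :
    IK (KK k) h = fun ξ => ∫ w in closedBall (0 : E) 2, k ξ w • h w := rfl

/-- second derivative of the kernel -/
theorem DDK_apply {k : E → E → ℝ} (hk : ContDiff ℝ ∞ (fun p : E × E => k p.1 p.2))
    (ξ w : E) (x : V) (a b : E) :
    DK (DK (KK (V := V) k)) (ξ, w) x a b =
      (fderiv ℝ (fderiv ℝ (fun ξ => k ξ w)) ξ a b) • x := by
  have hk1 : ContDiff ℝ ∞ (fun ξ => k ξ w) := hk.comp (contDiff_prodMk_left w)
  have hk2 : ContDiff ℝ ∞ (fderiv ℝ (fun ξ => k ξ w)) := (contDiff_infty_iff_fderiv.1 hk1).2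
  -- first derivative
  have h1 : ∀ ξ, DK (KK (V := V) k) (ξ, w) x = (fderiv ℝ (fun ξ => k ξ w) ξ).smulRight x := by
    intro ξ
    have e1 := hasFDerivAt_pt (KK_smooth (V := V) hk) x ξ w
    have e2 : HasFDerivAt (fun ξ => KK (V := V) k (ξ, w) x)
        ((fderiv ℝ (fun ξ => k ξ w) ξ).smulRight x) ξ := by
      have := ((hk1.differentiable (by simp)).differentiableAt (x := ξ)).hasFDerivAt.smul_const x
      exact this
    exact e1.unique e2
  -- second derivative
  have e1 := hasFDerivAt_pt (DK_smooth (KK_smooth (V := V) hk)) x ξ w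
  have e2 : HasFDerivAt (fun ξ => DK (KK (V := V) k) (ξ, w) x)
      ((ContinuousLinearMap.smulRightL ℝ E V |>.flip x).comp
        (fderiv ℝ (fderiv ℝ (fun ξ => k ξ w)) ξ)) ξ := by
    have e3 := ((hk2.differentiable (by simp)).differentiableAt (x := ξ)).hasFDerivAt
    have e4 := (ContinuousLinearMap.smulRightL ℝ E V |>.flip x).hasFDerivAt.comp ξ e3
    refine e4.congr_of_eventuallyEq (Eventually.of_forall fun ξ => ?_)
    exact h1 ξ
  rw [e1.unique e2]
  rfl

end Op0

open Op0

/-- smoothness of `ξ ↦ ∫_{‖w‖ ≤ 2} k ξ w • h w` -/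
theorem contDiff_int {V : Type*} [NormedAddCommGroup V] [NormedSpace ℝ V] [CompleteSpace V]
    {k : E → E → ℝ} (hk : ContDiff ℝ ∞ (fun p : E × E => k p.1 p.2)) {h : E → V}
    (hh : ContinuousOn h (closedBall 0 2)) :
    ContDiff ℝ ∞ (fun ξ => ∫ w in closedBall (0 : E) 2, k ξ w • h w) := by
  rw [← IK_KK]
  exact contDiff_IK (KK_smooth hk) hh

theorem cont_second {k : E → E → ℝ} (hk : ContDiff ℝ ∞ (fun p : E × E => k p.1 p.2))
    (ξ a b : E) : Continuous fun w => fderiv ℝ (fderiv ℝ (fun ξ => k ξ w)) ξ a b := by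
  have h1 : Continuous fun w => DK (DK (KK (V := ℝ) k)) (ξ, w) (1 : ℝ) a b := by
    have := (DK_smooth (DK_smooth (KK_smooth (V := ℝ) hk))).continuous.comp
      (Continuous.prodMk_right ξ)
    exact ((this.clm_apply continuous_const).clm_apply continuous_const).clm_apply continuous_const
  refine h1.congr fun w => ?_
  rw [DDK_apply hk]
  simp

theorem levB_int {V : Type*} [NormedAddCommGroup V] [NormedSpace ℝ V] [CompleteSpace V]
    {k : E → E → ℝ} (hk : ContDiff ℝ ∞ (fun p : E × E => k p.1 p.2)) {h : E → V}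
    (hh : ContinuousOn h (closedBall 0 2)) (ξ v w' : E) :
    levB (fun ξ => ∫ w in closedBall (0 : E) 2, k ξ w • h w) ξ v w' =
      ∫ w in closedBall (0 : E) 2, (levB (fun x => k x w) ξ v w') • h w := by
  have hK := KK_smooth (V := V) hk
  have hI : ∀ a b : E, fderiv ℝ (fderiv ℝ (IK (KK k) h)) ξ a b =
      ∫ w in closedBall (0 : E) 2, (fderiv ℝ (fderiv ℝ (fun x => k x w)) ξ a b) • h w := by
    intro a b
    rw [fderiv_IK hK hh, fderiv_IK (DK_smooth hK) hh]
    unfold IK
    have i1 := int_piece (DK_smooth (DK_smooth hK)) hh ξ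
    rw [ContinuousLinearMap.integral_apply i1]
    have i2 : IntegrableOn (fun w => DK (DK (KK k)) (ξ, w) (h w) a) (closedBall 0 2) :=
      Integrable.apply_continuousLinearMap i1 a
    rw [ContinuousLinearMap.integral_apply i2]
    refine integral_congr_ae (Eventually.of_forall fun w => ?_)
    simp only
    rw [DDK_apply hk]
  rw [← IK_KK]
  unfold levB
  rw [hI, hI, ← integral_add]
  · refine integral_congr_ae (Eventually.of_forall fun w => ?_)
    simp only [add_smul]
  · exact ((cont_second hk ξ v w').continuousOn.smul hh).integrableOn_compact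
      (isCompact_closedBall 0 2)
  · exact ((cont_second hk ξ _ _).continuousOn.smul hh).integrableOn_compact
      (isCompact_closedBall 0 2)

theorem cont_levB {k : E → E → ℝ} (hk : ContDiff ℝ ∞ (fun p : E × E => k p.1 p.2))
    (ξ a b : E) : Continuous fun w => levB (fun x => k x w) ξ a b :=
  (cont_second hk ξ a b).add (cont_second hk ξ _ _)

/-- `P` under the integral sign -/
theorem Pc_int {V : Type*} [NormedAddCommGroup V] [NormedSpace ℝ V] [CompleteSpace V]
    (A : LocCoef) {k : E → E → ℝ} (hk : ContDiff ℝ ∞ (fun p : E × E => k p.1 p.2)) {h : E → V}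
    (hh : ContinuousOn h (closedBall 0 2)) (ξ : E) :
    Pc A (fun ξ => ∫ w in closedBall (0 : E) 2, k ξ w • h w) ξ =
      ∫ w in closedBall (0 : E) 2, (Pc A (fun x => k x w) ξ) • h w := by
  have hint : ∀ (c : ℝ) (a b : E), IntegrableOn
      (fun w => (c • levB (fun x => k x w) ξ a b) • h w) (closedBall 0 2) := by
    intro c a b
    exact (((cont_levB hk ξ a b).const_smul c).continuousOn.smul hh).integrableOn_compact
      (isCompact_closedBall 0 2)
  have hmul : ∀ (c : ℝ) (a b : E),
      c • ∫ w in closedBall (0 : E) 2, (levB (fun x => k x w) ξ a b) • h w =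
        ∫ w in closedBall (0 : E) 2, (c • levB (fun x => k x w) ξ a b) • h w := by
    intro c a b
    rw [← integral_smul]
    refine integral_congr_ae (Eventually.of_forall fun w => ?_)
    simp only [smul_assoc]
  unfold Pc
  rw [levB_int hk hh, levB_int hk hh, levB_int hk hh, levB_int hk hh, hmul, hmul, hmul, hmul]
  simp only [add_smul]
  have i1 := hint (A.a11 ξ) e1 e1
  have i2 := hint (A.a22 ξ) e2 e2
  have i3 := hint (2 * (A.c ξ).re) e1 e2
  have i4 := hint (2 * (A.c ξ).im) e1 (Complex.I • e2)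
  have i12 : IntegrableOn (fun w => (A.a11 ξ • levB (fun x => k x w) ξ e1 e1) • h w +
      (A.a22 ξ • levB (fun x => k x w) ξ e2 e2) • h w) (closedBall 0 2) := i1.add i2
  have i123 : IntegrableOn (fun w => (A.a11 ξ • levB (fun x => k x w) ξ e1 e1) • h w +
      (A.a22 ξ • levB (fun x => k x w) ξ e2 e2) • h w +
      ((2 * (A.c ξ).re) • levB (fun x => k x w) ξ e1 e2) • h w) (closedBall 0 2) := i12.add i3
  rw [integral_add i123 i4, integral_add i12 i3, integral_add i1 i2]

/-- the approximate identity converges, uniformly in `ξ` -/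
theorem m_lim {V : Type*} [NormedAddCommGroup V] [NormedSpace ℝ V] [CompleteSpace V]
    {A : LocCoef} {χ : E → ℝ} (_hχ0 : ∀ z, 0 ≤ χ z) (hχc : Continuous χ)
    (hχ : ∀ z, χ z ≠ 0 → ‖z‖ ≤ 2) (L : LocPar A χ)
    {h : E → V} (hh : ContinuousOn h (closedBall 0 2)) :
    ∀ ε > 0, ∀ᶠ n in atTop, ∀ ξ,
      ‖(∫ w in closedBall (0 : E) 2, L.m n ξ w • h w) - χ ξ • h ξ‖ ≤ ε := by
  intro ε hε
  have hcomp := isCompact_closedBall (0 : E) 2
  -- bounds
  obtain ⟨M0, hM0⟩ := hcomp.bddAbove_image (f := fun w => ‖h w‖) hh.norm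
  obtain ⟨X0, hX0⟩ := hcomp.bddAbove_image (f := χ) hχc.continuousOn
  set M := max M0 1 with hMdef
  have hM : ∀ w ∈ closedBall (0 : E) 2, ‖h w‖ ≤ M := fun w hw =>
    (hM0 ⟨w, hw, rfl⟩).trans (le_max_left _ _)
  have hMpos : 0 < M := lt_of_lt_of_le one_pos (le_max_right _ _)
  set X := max X0 0 + 1 with hXdef
  have hXpos : 0 < X := by positivity
  have hX : ∀ z, χ z ≤ X := by
    intro z
    by_cases hz : χ z = 0
    · rw [hz]; exact hXpos.le
    · have : z ∈ closedBall (0 : E) 2 := mem_closedBall_zero_iff.2 (hχ z hz)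
      have h1 := hX0 ⟨z, this, rfl⟩
      have h2 : X0 ≤ max X0 0 := le_max_left _ _
      linarith
  -- uniform continuity
  have hunif : UniformContinuousOn h (closedBall 0 2) := hcomp.uniformContinuousOn_of_continuous hh
  rw [Metric.uniformContinuousOn_iff] at hunif
  obtain ⟨ρ, hρ, hρ2⟩ := hunif (ε / (4 * (X + 1))) (by positivity)
  filter_upwards [L.m_mass (min 1 (ε / (4 * M))) (by positivity),
    L.m_conc ρ hρ (ε / (8 * M)) (by positivity)] with n hn1 hn2 ξ
  have hmi : Integrable (L.m n ξ) := by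
    have h1 : Continuous (L.m n ξ) := (L.m_cont n).comp (Continuous.prodMk_right ξ)
    refine h1.integrable_of_hasCompactSupport ?_
    refine HasCompactSupport.intro hcomp fun w hw => ?_
    by_contra h
    exact hw (mem_closedBall_zero_iff.2 (L.m_supp n ξ w h).2)
  have hmc : ContinuousOn (L.m n ξ) (closedBall 0 2) :=
    ((L.m_cont n).comp (Continuous.prodMk_right ξ)).continuousOn
  have hmass : ∫ w in closedBall (0 : E) 2, L.m n ξ w = ∫ w, L.m n ξ w := by
    refine setIntegral_eq_integral_of_forall_compl_eq_zero fun w hw => ?_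
    by_contra h
    exact hw (mem_closedBall_zero_iff.2 (L.m_supp n ξ w h).2)
  have hn1' := abs_le.1 (hn1 ξ)
  have hmin1 : min 1 (ε / (4 * M)) ≤ 1 := min_le_left _ _
  have hmin2 : min 1 (ε / (4 * M)) ≤ ε / (4 * M) := min_le_right _ _
  have hmassle : ∫ w in closedBall (0 : E) 2, L.m n ξ w ≤ X + 1 := by
    rw [hmass]
    have := hX ξ
    linarith [hn1'.2]
  have hmint : IntegrableOn (fun w => L.m n ξ w • h w) (closedBall 0 2) :=
    (hmc.smul hh).integrableOn_compact hcomp
  by_cases hξ : ‖ξ‖ ≤ 2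
  · have hξ' : ξ ∈ closedBall (0 : E) 2 := mem_closedBall_zero_iff.2 hξ
    have hmint2 : IntegrableOn (fun w => L.m n ξ w • h ξ) (closedBall 0 2) :=
      (hmc.smul continuousOn_const).integrableOn_compact hcomp
    have e1 : (∫ w in closedBall (0 : E) 2, L.m n ξ w • h w) - χ ξ • h ξ =
        (∫ w in closedBall (0 : E) 2, L.m n ξ w • (h w - h ξ)) +
          ((∫ w, L.m n ξ w) - χ ξ) • h ξ := by
      have e2 : (∫ w in closedBall (0 : E) 2, L.m n ξ w • (h w - h ξ)) =
          (∫ w in closedBall (0 : E) 2, L.m n ξ w • h w) -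
            (∫ w in closedBall (0 : E) 2, L.m n ξ w) • h ξ := by
        rw [← integral_smul_const, ← integral_sub hmint hmint2]
        refine integral_congr_ae (Eventually.of_forall fun w => ?_)
        simp only [smul_sub]
      rw [e2, hmass, sub_smul]
      abel
    rw [e1]
    refine (norm_add_le _ _).trans ?_
    have b1 : ‖((∫ w, L.m n ξ w) - χ ξ) • h ξ‖ ≤ ε / 4 := by
      rw [norm_smul, Real.norm_eq_abs]
      calc |(∫ w, L.m n ξ w) - χ ξ| * ‖h ξ‖ ≤ (ε / (4 * M)) * M :=
            mul_le_mul ((hn1 ξ).trans hmin2) (hM ξ hξ') (norm_nonneg _) (by positivity)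
        _ = ε / 4 := by field_simp
    have b2 : ‖∫ w in closedBall (0 : E) 2, L.m n ξ w • (h w - h ξ)‖ ≤ ε / 2 := by
      -- pointwise domination
      have hfar : MeasurableSet {w : E | ρ ≤ dist ξ w} :=
        (isClosed_le continuous_const (continuous_const.dist continuous_id)).measurableSet
      set g : E → ℝ := fun w => L.m n ξ w * (ε / (4 * (X + 1))) +
        ({w : E | ρ ≤ dist ξ w}.indicator (fun w => L.m n ξ w * (2 * M))) w with hg
      have hgi : Integrable g :=
        (hmi.mul_const _).add ((hmi.mul_const (2 * M)).indicator hfar)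
      have hm0 : ∀ w, 0 ≤ L.m n ξ w := fun w => L.m_nonneg n ξ w
      have hpt : ∀ᵐ w ∂(volume.restrict (closedBall (0 : E) 2)),
          ‖L.m n ξ w • (h w - h ξ)‖ ≤ g w := by
        refine (ae_restrict_iff' measurableSet_closedBall).2 (Eventually.of_forall ?_)
        intro w hw
        rw [norm_smul, Real.norm_eq_abs, abs_of_nonneg (hm0 w), hg]
        by_cases hd : ρ ≤ dist ξ w
        · simp only
          rw [Set.indicator_of_mem (show w ∈ {w : E | ρ ≤ dist ξ w} from hd)]
          have h1 : ‖h w - h ξ‖ ≤ 2 * M := by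
            refine (norm_sub_le _ _).trans ?_
            linarith [hM w hw, hM ξ hξ']
          have h2 : 0 ≤ L.m n ξ w * (ε / (4 * (X + 1))) := mul_nonneg (hm0 w) (by positivity)
          linarith [mul_le_mul_of_nonneg_left h1 (hm0 w)]
        · simp only
          rw [Set.indicator_of_notMem (show w ∉ {w : E | ρ ≤ dist ξ w} from hd), add_zero]
          have h1 : ‖h w - h ξ‖ ≤ ε / (4 * (X + 1)) := by
            rw [← dist_eq_norm]
            refine (hρ2 w hw ξ hξ' ?_).le
            rw [dist_comm]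
            exact not_le.1 hd
          exact mul_le_mul_of_nonneg_left h1 (hm0 w)
      have hg0 : ∀ w, 0 ≤ g w := by
        intro w
        rw [hg]
        refine add_nonneg (mul_nonneg (hm0 w) (by positivity)) ?_
        refine Set.indicator_nonneg (fun w _ => mul_nonneg (hm0 w) (by positivity)) w
      calc ‖∫ w in closedBall (0 : E) 2, L.m n ξ w • (h w - h ξ)‖
          ≤ ∫ w in closedBall (0 : E) 2, g w :=
            norm_integral_le_of_norm_le hgi.integrableOn hpt
        _ ≤ ∫ w, g w := setIntegral_le_integral hgi (Eventually.of_forall hg0)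
        _ = (∫ w, L.m n ξ w) * (ε / (4 * (X + 1))) +
            (∫ w in {w : E | ρ ≤ dist ξ w}, L.m n ξ w) * (2 * M) := by
            rw [hg, integral_add (hmi.mul_const _) ((hmi.mul_const (2 * M)).indicator hfar),
              integral_mul_const, integral_indicator hfar, integral_mul_const]
        _ ≤ (X + 1) * (ε / (4 * (X + 1))) + (ε / (8 * M)) * (2 * M) := by
            refine add_le_add (mul_le_mul_of_nonneg_right ?_ (by positivity))
              (mul_le_mul_of_nonneg_right (hn2 ξ) (by positivity))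
            rw [← hmass]; exact hmassle
        _ = ε / 2 := by
            field_simp
            ring
    linarith
  · have hχ1 : χ ξ = 0 := by
      by_contra h
      exact hξ (hχ ξ h)
    rw [hχ1, zero_smul, sub_zero]
    have hm0 : ∀ w, 0 ≤ L.m n ξ w := fun w => L.m_nonneg n ξ w
    calc ‖∫ w in closedBall (0 : E) 2, L.m n ξ w • h w‖
        ≤ ∫ w in closedBall (0 : E) 2, L.m n ξ w * M := by
          refine norm_integral_le_of_norm_le (hmi.integrableOn.mul_const M) ?_
          refine (ae_restrict_iff' measurableSet_closedBall).2 (Eventually.of_forall ?_)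
          intro w hw
          rw [norm_smul, Real.norm_eq_abs, abs_of_nonneg (hm0 w)]
          exact mul_le_mul_of_nonneg_left (hM w hw) (hm0 w)
      _ = (∫ w, L.m n ξ w) * M := by rw [integral_mul_const, hmass]
      _ ≤ (ε / (4 * M)) * M := by
          refine mul_le_mul_of_nonneg_right ?_ hMpos.le
          rw [hχ1, sub_zero] at hn1'
          exact hn1'.2.trans hmin2
      _ ≤ ε := by
          have : (ε / (4 * M)) * M = ε / 4 := by field_simp
          rw [this]
          linarith

end Sing
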