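import Pool.Agent.Work.MP_3893a0_gt.Defs
import Pool.Agent.Work.MP_3893a0_gt.Geo2
import Pool.Agent.Work.MP_3893a0_gt.Geo3a2
import Pool.Agent.Work.MP_3893a0_gt.Geo3b

/-! Module OP1: general properties of the integral operators `Atl.Op`. -/

open scoped ContDiff Topology BoundedContinuousFunction
open MeasureTheory Metric Set Filter

noncomputable section

set_option linter.unusedSectionVars false

namespace Sing

variable {G Y : Type*} [Group G] [TopologicalSpace Y] [MulAction G Y]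

namespace Atl

variable (𝒜 : Atl G Y)
variable {V : Type*} [NormedAddCommGroup V] [NormedSpace ℝ V]

/-- the local piece of `Op` -/
def Fi (κ : Fin 𝒜.n → E → E → ℝ) (g : Y → V) (a : 𝒜.Idx) (ξ : E) : V :=
  ∫ w in closedBall (0 : E) 2, κ a.2 ξ w • g (𝒜.sym a w)

theorem Op_eq (κ : Fin 𝒜.n → E → E → ℝ) (g : Y → V) (y : Y) :
    𝒜.Op κ g y = ∑ᶠ a : 𝒜.Idx, 𝒜.ext a (𝒜.Fi κ g a) y := rfl

theorem Fi_supp {κ : Fin 𝒜.n → E → E → ℝ} (hs : ∀ i ξ w, κ i ξ w ≠ 0 → ‖ξ‖ ≤ 3) (g : Y → V)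
    (a : 𝒜.Idx) (ξ : E) (hξ : 3 < ‖ξ‖) : 𝒜.Fi κ g a ξ = 0 := by
  unfold Fi
  have : ∀ w, κ a.2 ξ w = 0 := fun w => by
    by_contra h
    exact absurd (hs _ _ _ h) (not_le.2 hξ)
  simp [this]

theorem oext_mem {a : 𝒜.Idx} {F : E → V} {y : Y} (hy : y ∈ 𝒜.src a) :
    𝒜.ext a F y = F (𝒜.crd a y) := by
  unfold ext
  rw [if_pos hy]

theorem oext_notMem {a : 𝒜.Idx} {F : E → V} {y : Y} (hy : y ∉ 𝒜.src a) :
    𝒜.ext a F y = 0 := by
  unfold ext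
  rw [if_neg hy]

theorem Op_zero_set {s : Finset 𝒜.Idx} {y : Y} (hs0 : ∀ a, y ∈ 𝒜.cell a → a ∈ s)
    {F : 𝒜.Idx → E → V} (hF : ∀ a z, 3 < ‖z‖ → F a z = 0) :
    ∑ᶠ a, 𝒜.ext a (F a) y = ∑ a ∈ s, 𝒜.ext a (F a) y := by
  refine finsum_eq_sum_of_support_subset _ ?_
  intro a ha
  by_contra h
  refine ha ?_
  show 𝒜.ext a (F a) y = 0
  by_cases hy : y ∈ 𝒜.src a
  · rw [oext_mem 𝒜 hy]
    refine hF _ _ ?_
    by_contra h3
    exact h (hs0 a ⟨hy, not_lt.1 h3⟩)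
  · exact oext_notMem 𝒜 hy

theorem oext_map {W : Type*} [NormedAddCommGroup W] [NormedSpace ℝ W] (a : 𝒜.Idx) (F : E → V)
    (F' : E → W) (φ : V → W) (h0 : φ 0 = 0) (y : Y) (h : ∀ z, φ (F z) = F' z) :
    φ (𝒜.ext a F y) = 𝒜.ext a F' y := by
  by_cases hy : y ∈ 𝒜.src a
  · rw [oext_mem 𝒜 hy, oext_mem 𝒜 hy, h]
  · rw [oext_notMem 𝒜 hy, oext_notMem 𝒜 hy, h0]

variable [ContinuousConstSMul G Y]

theorem osym_contOn (a : 𝒜.Idx) : ContinuousOn (𝒜.sym a) (closedBall 0 2) :=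
  (𝒜.continuousOn_sym a).mono (closedBall_subset_ball (by norm_num))

theorem ointegrable_piece (κ : Fin 𝒜.n → E → E → ℝ)
    (hi : ∀ i ξ, IntegrableOn (κ i ξ) (closedBall 0 2)) {g : Y → V} (hg : Continuous g)
    (a : 𝒜.Idx) (ξ : E) :
    IntegrableOn (fun w => κ a.2 ξ w • g (𝒜.sym a w)) (closedBall 0 2) :=
  (hi a.2 ξ).smul_continuousOn (hg.comp_continuousOn (𝒜.osym_contOn a)) (isCompact_closedBall 0 2)

variable [T2Space Y]

theorem op_bound (κ : Fin 𝒜.n → E → E → ℝ) (hs : ∀ i ξ w, κ i ξ w ≠ 0 → ‖ξ‖ ≤ 3)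
    (hi : ∀ i ξ, IntegrableOn (κ i ξ) (closedBall 0 2)) (C : ℝ)
    (hC : ∀ i ξ, ∫ w in closedBall (0 : E) 2, |κ i ξ w| ≤ C) (g : Y → V) (B : ℝ)
    (hB : ∀ y, ‖g y‖ ≤ B) (y : Y) : ‖𝒜.Op κ g y‖ ≤ 𝒜.N * (C * B) := by
  obtain ⟨s, hs1, hs2⟩ := 𝒜.cell_bound y
  obtain ⟨i0, -, -⟩ := 𝒜.cover y
  have hC0 : 0 ≤ C := le_trans (integral_nonneg fun w => abs_nonneg _) (hC i0 0)
  have hB0 : 0 ≤ B := le_trans (norm_nonneg _) (hB y)
  rw [Op_eq, 𝒜.Op_zero_set hs1 (fun a z hz => 𝒜.Fi_supp hs g a z hz)]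
  have h1 : ∀ a ∈ s, ‖𝒜.ext a (𝒜.Fi κ g a) y‖ ≤ C * B := by
    intro a _
    by_cases hy : y ∈ 𝒜.src a
    · rw [oext_mem 𝒜 hy]
      unfold Fi
      calc ‖∫ w in closedBall (0 : E) 2, κ a.2 (𝒜.crd a y) w • g (𝒜.sym a w)‖
          ≤ ∫ w in closedBall (0 : E) 2, |κ a.2 (𝒜.crd a y) w| * B := by
            refine norm_integral_le_of_norm_le ((hi _ _).abs.mul_const B) ?_
            refine Eventually.of_forall fun w => ?_
            rw [norm_smul, Real.norm_eq_abs]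
            exact mul_le_mul_of_nonneg_left (hB _) (abs_nonneg _)
        _ = (∫ w in closedBall (0 : E) 2, |κ a.2 (𝒜.crd a y) w|) * B := integral_mul_const _ _
        _ ≤ C * B := mul_le_mul_of_nonneg_right (hC _ _) hB0
    · rw [oext_notMem 𝒜 hy, norm_zero]
      exact mul_nonneg hC0 hB0
  calc ‖∑ a ∈ s, 𝒜.ext a (𝒜.Fi κ g a) y‖ ≤ ∑ a ∈ s, ‖𝒜.ext a (𝒜.Fi κ g a) y‖ :=
        norm_sum_le _ _
    _ ≤ ∑ a ∈ s, C * B := Finset.sum_le_sum h1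
    _ = s.card * (C * B) := by rw [Finset.sum_const, nsmul_eq_mul]
    _ ≤ 𝒜.N * (C * B) := by
        refine mul_le_mul_of_nonneg_right ?_ (mul_nonneg hC0 hB0)
        exact_mod_cast hs2

/-- linearity in the kernel -/
theorem op_sub_eq (κ κ' : Fin 𝒜.n → E → E → ℝ) (hs : ∀ i ξ w, κ i ξ w ≠ 0 → ‖ξ‖ ≤ 3)
    (hs' : ∀ i ξ w, κ' i ξ w ≠ 0 → ‖ξ‖ ≤ 3)
    (hi : ∀ i ξ, IntegrableOn (κ i ξ) (closedBall 0 2))
    (hi' : ∀ i ξ, IntegrableOn (κ' i ξ) (closedBall 0 2))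
    {g : Y → V} (hg : Continuous g) (y : Y) :
    𝒜.Op κ g y - 𝒜.Op κ' g y = 𝒜.Op (fun i ξ w => κ i ξ w - κ' i ξ w) g y := by
  obtain ⟨s, hs1, hs2⟩ := 𝒜.cell_bound y
  have hs3 : ∀ i ξ w, κ i ξ w - κ' i ξ w ≠ 0 → ‖ξ‖ ≤ 3 := by
    intro i ξ w h
    by_cases h1 : κ i ξ w = 0
    · refine hs' i ξ w fun h2 => h ?_
      rw [h1, h2, sub_zero]
    · exact hs i ξ w h1
  rw [Op_eq, Op_eq, Op_eq, 𝒜.Op_zero_set hs1 (fun a z hz => 𝒜.Fi_supp hs g a z hz),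
    𝒜.Op_zero_set hs1 (fun a z hz => 𝒜.Fi_supp hs' g a z hz),
    𝒜.Op_zero_set hs1 (fun a z hz => 𝒜.Fi_supp hs3 g a z hz), ← Finset.sum_sub_distrib]
  refine Finset.sum_congr rfl fun a _ => ?_
  by_cases hy : y ∈ 𝒜.src a
  · rw [oext_mem 𝒜 hy, oext_mem 𝒜 hy, oext_mem 𝒜 hy]
    unfold Fi
    rw [← integral_sub (𝒜.ointegrable_piece κ hi hg a _) (𝒜.ointegrable_piece κ' hi' hg a _)]
    refine integral_congr_ae (Eventually.of_forall fun w => ?_)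
    simp only [sub_smul]
  · rw [oext_notMem 𝒜 hy, oext_notMem 𝒜 hy, oext_notMem 𝒜 hy, sub_zero]

/-- difference of two kernels -/
theorem op_sub (κ κ' : Fin 𝒜.n → E → E → ℝ) (hs : ∀ i ξ w, κ i ξ w ≠ 0 → ‖ξ‖ ≤ 3)
    (hs' : ∀ i ξ w, κ' i ξ w ≠ 0 → ‖ξ‖ ≤ 3)
    (hi : ∀ i ξ, IntegrableOn (κ i ξ) (closedBall 0 2))
    (hi' : ∀ i ξ, IntegrableOn (κ' i ξ) (closedBall 0 2)) (C : ℝ)
    (hC : ∀ i ξ, ∫ w in closedBall (0 : E) 2, |κ i ξ w - κ' i ξ w| ≤ C)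
    {g : Y → V} (hg : Continuous g) (B : ℝ)
    (hB : ∀ y, ‖g y‖ ≤ B) (y : Y) : ‖𝒜.Op κ g y - 𝒜.Op κ' g y‖ ≤ 𝒜.N * (C * B) := by
  rw [𝒜.op_sub_eq κ κ' hs hs' hi hi' hg y]
  refine 𝒜.op_bound (fun i ξ w => κ i ξ w - κ' i ξ w) ?_ (fun i ξ => (hi i ξ).sub (hi' i ξ)) C hC
    g B hB y
  intro i ξ w h
  by_cases h1 : κ i ξ w = 0
  · refine hs' i ξ w fun h2 => h ?_
    show κ i ξ w - κ' i ξ w = 0
    rw [h1, h2, sub_zero]
  · exact hs i ξ w h1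

theorem op_add (κ : Fin 𝒜.n → E → E → ℝ) (hs : ∀ i ξ w, κ i ξ w ≠ 0 → ‖ξ‖ ≤ 3)
    (hi : ∀ i ξ, IntegrableOn (κ i ξ) (closedBall 0 2))
    {g g' : Y → V} (hg : Continuous g) (hg' : Continuous g') (y : Y) :
    𝒜.Op κ (g + g') y = 𝒜.Op κ g y + 𝒜.Op κ g' y := by
  obtain ⟨s, hs1, hs2⟩ := 𝒜.cell_bound y
  rw [Op_eq, Op_eq, Op_eq, 𝒜.Op_zero_set hs1 (fun a z hz => 𝒜.Fi_supp hs _ a z hz),
    𝒜.Op_zero_set hs1 (fun a z hz => 𝒜.Fi_supp hs _ a z hz),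
    𝒜.Op_zero_set hs1 (fun a z hz => 𝒜.Fi_supp hs _ a z hz), ← Finset.sum_add_distrib]
  refine Finset.sum_congr rfl fun a _ => ?_
  by_cases hy : y ∈ 𝒜.src a
  · rw [oext_mem 𝒜 hy, oext_mem 𝒜 hy, oext_mem 𝒜 hy]
    unfold Fi
    rw [← integral_add (𝒜.ointegrable_piece κ hi hg a _) (𝒜.ointegrable_piece κ hi hg' a _)]
    refine integral_congr_ae (Eventually.of_forall fun w => ?_)
    simp only [Pi.add_apply, smul_add]
  · rw [oext_notMem 𝒜 hy, oext_notMem 𝒜 hy, oext_notMem 𝒜 hy, add_zero]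

theorem op_smul (κ : Fin 𝒜.n → E → E → ℝ) (c : ℝ) (g : Y → V) (y : Y) :
    𝒜.Op κ (c • g) y = c • 𝒜.Op κ g y := by
  rw [Op_eq, Op_eq, smul_finsum]
  refine finsum_congr fun a => ?_
  refine (𝒜.oext_map a _ _ (fun v => c • v) (smul_zero c) y fun z => ?_).symm
  unfold Fi
  rw [← integral_smul]
  refine integral_congr_ae (Eventually.of_forall fun w => ?_)
  simp only [Pi.smul_apply]
  rw [smul_comm]

/-- a continuous linear map goes through -/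
theorem op_clm (κ : Fin 𝒜.n → E → E → ℝ) (hs : ∀ i ξ w, κ i ξ w ≠ 0 → ‖ξ‖ ≤ 3)
    (hi : ∀ i ξ, IntegrableOn (κ i ξ) (closedBall 0 2)) {W : Type*} [NormedAddCommGroup W]
    [NormedSpace ℝ W] [CompleteSpace V] [CompleteSpace W] (ℓ : V →L[ℝ] W) {g : Y → V}
    (hg : Continuous g) (y : Y) : ℓ (𝒜.Op κ g y) = 𝒜.Op κ (fun y => ℓ (g y)) y := by
  obtain ⟨s, hs1, hs2⟩ := 𝒜.cell_bound y
  rw [Op_eq, Op_eq, 𝒜.Op_zero_set hs1 (fun a z hz => 𝒜.Fi_supp hs _ a z hz),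
    𝒜.Op_zero_set hs1 (fun a z hz => 𝒜.Fi_supp hs _ a z hz), map_sum]
  refine Finset.sum_congr rfl fun a _ => ?_
  refine 𝒜.oext_map a _ _ (fun v => ℓ v) (map_zero ℓ) y fun z => ?_
  unfold Fi
  rw [← ContinuousLinearMap.integral_comp_comm ℓ (𝒜.ointegrable_piece κ hi hg a _)]
  refine integral_congr_ae (Eventually.of_forall fun w => ?_)
  simp only [map_smul]

theorem op_translate (κ : Fin 𝒜.n → E → E → ℝ) (g : Y → V) (γ : G) (y : Y) :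
    𝒜.Op κ (fun y => g (γ • y)) y = 𝒜.Op κ g (γ • y) := by
  rw [Op_eq, Op_eq]
  rw [← finsum_comp_equiv ((Equiv.mulLeft γ).prodCongr (Equiv.refl (Fin 𝒜.n)))
    (f := fun a => 𝒜.ext a (𝒜.Fi κ g a) (γ • y))]
  refine finsum_congr fun a => ?_
  have h1 : ((Equiv.mulLeft γ).prodCongr (Equiv.refl (Fin 𝒜.n))) a = (γ * a.1, a.2) := rfl
  rw [h1, 𝒜.ext_smul]
  congr 1
  funext ξ
  unfold Fi
  refine integral_congr_ae (Eventually.of_forall fun w => ?_)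
  simp only [𝒜.sym_smul]

theorem op_nonneg (κ : Fin 𝒜.n → E → E → ℝ) (hκ : ∀ i ξ w, 0 ≤ κ i ξ w) {g : Y → ℝ}
    (hg : ∀ y, 0 ≤ g y) (y : Y) : 0 ≤ 𝒜.Op κ g y := by
  rw [Op_eq]
  refine finsum_nonneg fun a => ?_
  by_cases hy : y ∈ 𝒜.src a
  · rw [oext_mem 𝒜 hy]
    exact integral_nonneg fun w => smul_nonneg (hκ _ _ _) (hg _)
  · rw [oext_notMem 𝒜 hy]

/-- radial retraction on the closed ball of radius two -/
def retr (w : E) : E := (2 / max 2 ‖w‖) • w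

theorem retr_cont : Continuous retr := by
  unfold retr
  have h1 : Continuous (fun w : E => max (2 : ℝ) ‖w‖) :=
    (continuous_const (y := (2 : ℝ))).max (continuous_norm (E := E))
  have h2 : Continuous (fun w : E => (2 : ℝ) / max (2 : ℝ) ‖w‖) := by
    refine Continuous.div (continuous_const (y := (2 : ℝ))) h1 fun w => ?_
    have : (0 : ℝ) < max 2 ‖w‖ := lt_of_lt_of_le two_pos (le_max_left _ _)
    exact this.ne'
  exact h2.smul continuous_id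

theorem retr_mem (w : E) : retr w ∈ closedBall (0 : E) 2 := by
  rw [mem_closedBall_zero_iff]
  unfold retr
  have h0 : (0 : ℝ) < max 2 ‖w‖ := lt_of_lt_of_le two_pos (le_max_left _ _)
  rw [norm_smul, Real.norm_eq_abs, abs_of_nonneg (by positivity), div_mul_eq_mul_div,
    div_le_iff₀ h0]
  exact mul_le_mul_of_nonneg_left (le_max_right _ _) two_pos.le

theorem retr_eq {w : E} (hw : w ∈ closedBall (0 : E) 2) : retr w = w := by
  rw [mem_closedBall_zero_iff] at hw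
  unfold retr
  rw [max_eq_left hw, div_self two_ne_zero, one_smul]

theorem Fi_continuous [CompleteSpace V] (κ : Fin 𝒜.n → E → E → ℝ)
    (hc : ∀ i, Continuous (fun p : E × E => κ i p.1 p.2)) {g : Y → V} (hg : Continuous g)
    (a : 𝒜.Idx) : Continuous (𝒜.Fi κ g a) := by
  have h1 : 𝒜.Fi κ g a = fun ξ => ∫ w in closedBall (0 : E) 2,
      κ a.2 ξ w • g (𝒜.sym a (retr w)) := by
    funext ξ
    unfold Fi
    refine setIntegral_congr_fun measurableSet_closedBall fun w hw => ?_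
    simp only [retr_eq hw]
  rw [h1]
  refine continuous_parametric_integral_of_continuous ?_ (isCompact_closedBall 0 2)
  have h2 : Continuous (fun w => g (𝒜.sym a (retr w))) :=
    hg.comp ((𝒜.osym_contOn a).comp_continuous retr_cont retr_mem)
  exact (hc a.2).smul (h2.comp continuous_snd)

theorem op_continuous [CompleteSpace V] (κ : Fin 𝒜.n → E → E → ℝ)
    (hs : ∀ i ξ w, κ i ξ w ≠ 0 → ‖ξ‖ ≤ 3)
    (hc : ∀ i, Continuous (fun p : E × E => κ i p.1 p.2)) {g : Y → V} (hg : Continuous g) :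
    Continuous (𝒜.Op κ g) := by
  have := 𝒜.continuous_sum (fun a z hz => 𝒜.Fi_supp hs g a z hz)
    (fun a => (𝒜.Fi_continuous κ hc hg a).continuousOn)
  exact this

theorem okern_integrable {k : E → E → ℝ} (hs : ∀ ξ w, k ξ w ≠ 0 → ‖ξ‖ ≤ 3 ∧ ‖w‖ ≤ 2)
    (hc : Continuous (fun p : E × E => k p.1 p.2)) (ξ : E) : Integrable (k ξ) := by
  have h1 : Continuous (k ξ) := hc.comp (Continuous.prodMk_right ξ)
  refine h1.integrable_of_hasCompactSupport ?_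
  refine HasCompactSupport.intro (isCompact_closedBall (0 : E) 2) fun w hw => ?_
  by_contra h
  exact hw (mem_closedBall_zero_iff.2 (hs ξ w h).2)

/-- uniform approximation of the operators -/
theorem op_approx (κ : ℕ → Fin 𝒜.n → E → E → ℝ)
    (κ' : Fin 𝒜.n → E → E → ℝ)
    (hs : ∀ n i ξ w, κ n i ξ w ≠ 0 → ‖ξ‖ ≤ 3 ∧ ‖w‖ ≤ 2)
    (hs' : ∀ i ξ w, κ' i ξ w ≠ 0 → ‖ξ‖ ≤ 3 ∧ ‖w‖ ≤ 2)
    (hc : ∀ n i, Continuous (fun p : E × E => κ n i p.1 p.2))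
    (hi' : ∀ i ξ, Integrable (κ' i ξ))
    (hlim : ∀ ε > 0, ∀ᶠ n in atTop, ∀ i ξ, ∫ w, |κ n i ξ w - κ' i ξ w| ≤ ε)
    (B : ℝ) : ∀ ε > 0, ∀ᶠ n in atTop, ∀ g : Y → V, Continuous g → (∀ y, ‖g y‖ ≤ B) → ∀ y,
      ‖𝒜.Op (κ n) g y - 𝒜.Op κ' g y‖ ≤ ε := by
  intro ε hε
  have h1 : (0 : ℝ) < 𝒜.N * (|B| + 1) + 1 := by positivity
  have h2 : 0 < ε / (𝒜.N * (|B| + 1) + 1) := by positivity
  filter_upwards [hlim _ h2] with n hn g hg hB y
  have hint : ∀ i ξ, Integrable (κ n i ξ) := fun i ξ => okern_integrable (hs n i) (hc n i) ξ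
  have h3 := 𝒜.op_sub (κ n) κ' (fun i ξ w h => (hs n i ξ w h).1)
    (fun i ξ w h => (hs' i ξ w h).1) (fun i ξ => (hint i ξ).integrableOn)
    (fun i ξ => (hi' i ξ).integrableOn) (ε / (𝒜.N * (|B| + 1) + 1)) (fun i ξ => by
      refine le_trans (setIntegral_le_integral ((hint i ξ).sub (hi' i ξ)).abs ?_) (hn i ξ)
      exact Eventually.of_forall fun w => abs_nonneg _) hg (|B| + 1)
      (fun y => (hB y).trans ((le_abs_self B).trans (by linarith))) y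
  refine h3.trans ?_
  rw [div_mul_eq_mul_div, mul_div_assoc', div_le_iff₀ h1]
  nlinarith

/-- limit of kernels -/
theorem op_continuous_lim [CompleteSpace V] (κ : ℕ → Fin 𝒜.n → E → E → ℝ)
    (κ' : Fin 𝒜.n → E → E → ℝ)
    (hs : ∀ n i ξ w, κ n i ξ w ≠ 0 → ‖ξ‖ ≤ 3 ∧ ‖w‖ ≤ 2)
    (hs' : ∀ i ξ w, κ' i ξ w ≠ 0 → ‖ξ‖ ≤ 3 ∧ ‖w‖ ≤ 2)
    (hc : ∀ n i, Continuous (fun p : E × E => κ n i p.1 p.2))
    (hi' : ∀ i ξ, Integrable (κ' i ξ))
    (hlim : ∀ ε > 0, ∀ᶠ n in atTop, ∀ i ξ, ∫ w, |κ n i ξ w - κ' i ξ w| ≤ ε)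
    {g : Y → V} (hg : Continuous g) (B : ℝ) (hB : ∀ y, ‖g y‖ ≤ B) :
    Continuous (𝒜.Op κ' g) := by
  have hu : TendstoUniformly (fun n => 𝒜.Op (κ n) g) (𝒜.Op κ' g) atTop := by
    rw [Metric.tendstoUniformly_iff]
    intro ε hε
    filter_upwards [𝒜.op_approx (V := V) κ κ' hs hs' hc hi' hlim B (ε / 2) (half_pos hε)]
      with n hn y
    rw [dist_comm, dist_eq_norm]
    exact (hn g hg hB y).trans_lt (half_lt_self hε)
  refine hu.continuous (Frequently.of_forall fun n => ?_)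
  exact 𝒜.op_continuous (κ n) (fun i ξ w h => (hs n i ξ w h).1) (hc n) hg

/-- equicontinuity of the images of bounded functions, continuous kernels -/
theorem op_equi (κ : Fin 𝒜.n → E → E → ℝ) (hs : ∀ i ξ w, κ i ξ w ≠ 0 → ‖ξ‖ ≤ 3)
    (hc : ∀ i, Continuous (fun p : E × E => κ i p.1 p.2)) (y0 : Y) (ε : ℝ) (hε : 0 < ε) :
    ∃ U ∈ 𝓝 y0, ∀ g : Y → V, Continuous g → (∀ y, ‖g y‖ ≤ 1) → ∀ y ∈ U,
      ‖𝒜.Op κ g y - 𝒜.Op κ g y0‖ ≤ ε := by
  obtain ⟨U0, hU0, hfin⟩ := 𝒜.locFin y0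
  set s := hfin.toFinset with hsdef
  -- local estimate
  have hloc : ∀ (a : 𝒜.Idx) (δ : ℝ), 0 < δ → ∃ U ∈ 𝓝 y0, ∀ g : Y → V, Continuous g →
      (∀ y, ‖g y‖ ≤ 1) → ∀ y ∈ U,
      ‖𝒜.ext a (𝒜.Fi κ g a) y - 𝒜.ext a (𝒜.Fi κ g a) y0‖ ≤ δ := by
    intro a δ hδ
    by_cases hy0 : y0 ∈ 𝒜.src a
    · -- the modulus
      have hm : Continuous (fun ξ => ∫ w in closedBall (0 : E) 2,
          |κ a.2 ξ w - κ a.2 (𝒜.crd a y0) w|) := by
        refine continuous_parametric_integral_of_continuous ?_ (isCompact_closedBall 0 2)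
        have h1 := hc a.2
        have h2 : Continuous (fun p : E × E => κ a.2 (𝒜.crd a y0) p.2) :=
          h1.comp (continuous_const.prodMk continuous_snd)
        exact (h1.sub h2).abs
      have hm0 : (∫ w in closedBall (0 : E) 2,
          |κ a.2 (𝒜.crd a y0) w - κ a.2 (𝒜.crd a y0) w|) = 0 := by simp
      have hev : ∀ᶠ ξ in 𝓝 (𝒜.crd a y0), (∫ w in closedBall (0 : E) 2,
          |κ a.2 ξ w - κ a.2 (𝒜.crd a y0) w|) < δ := by
        have := hm.tendsto (𝒜.crd a y0)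
        rw [hm0] at this
        exact this.eventually (gt_mem_nhds hδ)
      have hcr : ContinuousAt (𝒜.crd a) y0 :=
        (𝒜.continuousOn_crd a).continuousAt ((𝒜.isOpen_src a).mem_nhds hy0)
      refine ⟨{y | y ∈ 𝒜.src a ∧ (∫ w in closedBall (0 : E) 2,
          |κ a.2 (𝒜.crd a y) w - κ a.2 (𝒜.crd a y0) w|) < δ},
        ((𝒜.isOpen_src a).eventually_mem hy0).and (hcr.eventually hev), ?_⟩
      rintro g hg hg1 y ⟨hy, hyδ⟩
      rw [oext_mem 𝒜 hy, oext_mem 𝒜 hy0]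
      have hint : ∀ ξ, IntegrableOn (κ a.2 ξ) (closedBall 0 2) := fun ξ =>
        ((hc a.2).comp (Continuous.prodMk_right ξ)).continuousOn.integrableOn_compact
          (isCompact_closedBall 0 2)
      have hint2 : ∀ ξ, IntegrableOn (fun w => κ a.2 ξ w • g (𝒜.sym a w)) (closedBall 0 2) :=
        fun ξ => (hint ξ).smul_continuousOn (hg.comp_continuousOn (𝒜.osym_contOn a))
          (isCompact_closedBall 0 2)
      unfold Fi
      rw [← integral_sub (hint2 _) (hint2 _)]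
      refine (norm_integral_le_of_norm_le ((hint _).sub (hint _)).abs ?_).trans hyδ.le
      refine Eventually.of_forall fun w => ?_
      show ‖_ - _‖ ≤ |_ - _|
      rw [← sub_smul, norm_smul, Real.norm_eq_abs]
      exact mul_le_of_le_one_right (abs_nonneg _) (hg1 _)
    · have hc0 : y0 ∉ 𝒜.cell a := fun h => hy0 h.1
      refine ⟨(𝒜.cell a)ᶜ, (𝒜.isClosed_cell a).isOpen_compl.mem_nhds hc0, ?_⟩
      intro g hg hg1 y hy
      rw [𝒜.ext_eq_zero (fun z hz => 𝒜.Fi_supp hs g a z hz) hy,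
        𝒜.ext_eq_zero (fun z hz => 𝒜.Fi_supp hs g a z hz) hc0, sub_zero, norm_zero]
      exact hδ.le
  have hδ : 0 < ε / (s.card + 1) := by positivity
  choose U hU hU2 using fun a : 𝒜.Idx => hloc a _ hδ
  refine ⟨U0 ∩ ⋂ a ∈ s, U a, inter_mem hU0 ((biInter_finset_mem s).2 fun a _ => hU a), ?_⟩
  rintro g hg hg1 y ⟨hyU0, hyU⟩
  have hin : ∀ y ∈ U0, ∀ a, y ∈ 𝒜.cell a → a ∈ s := by
    intro y hy a ha
    rw [hsdef, Set.Finite.mem_toFinset]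
    exact ⟨y, hy, ha⟩
  rw [Op_eq, Op_eq, 𝒜.Op_zero_set (hin y hyU0) (fun a z hz => 𝒜.Fi_supp hs g a z hz),
    𝒜.Op_zero_set (hin y0 (mem_of_mem_nhds hU0)) (fun a z hz => 𝒜.Fi_supp hs g a z hz),
    ← Finset.sum_sub_distrib]
  refine (norm_sum_le _ _).trans ?_
  calc ∑ a ∈ s, ‖𝒜.ext a (𝒜.Fi κ g a) y - 𝒜.ext a (𝒜.Fi κ g a) y0‖
      ≤ ∑ a ∈ s, ε / (s.card + 1) := by
        refine Finset.sum_le_sum fun a ha => hU2 a g hg hg1 y ?_
        exact mem_iInter₂.1 hyU a ha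
    _ = s.card * (ε / (s.card + 1)) := by rw [Finset.sum_const, nsmul_eq_mul]
    _ ≤ ε := by
        rw [mul_div_assoc', div_le_iff₀ (by positivity)]
        nlinarith

/-- equicontinuity: compactness of the operator on invariant functions -/
theorem op_compact (κ : ℕ → Fin 𝒜.n → E → E → ℝ) (κ' : Fin 𝒜.n → E → E → ℝ)
    (hs : ∀ n i ξ w, κ n i ξ w ≠ 0 → ‖ξ‖ ≤ 3 ∧ ‖w‖ ≤ 2)
    (hs' : ∀ i ξ w, κ' i ξ w ≠ 0 → ‖ξ‖ ≤ 3 ∧ ‖w‖ ≤ 2)
    (hc : ∀ n i, Continuous (fun p : E × E => κ n i p.1 p.2))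
    (hi' : ∀ i ξ, Integrable (κ' i ξ))
    (hlim : ∀ ε > 0, ∀ᶠ n in atTop, ∀ i ξ, ∫ w, |κ n i ξ w - κ' i ξ w| ≤ ε)
    (f : ℕ → (Y →ᵇ ℝ)) (hf : ∀ n (g : G) (y : Y), f n (g • y) = f n y) (hf1 : ∀ n, ‖f n‖ ≤ 1) :
    ∃ (F : Y → ℝ) (s : ℕ → ℕ), StrictMono s ∧
      TendstoUniformly (fun n => 𝒜.Op κ' (f (s n))) F atTop := by
  have hf2 : ∀ n y, ‖f n y‖ ≤ 1 := fun n y => ((f n).norm_coe_le_norm y).trans (hf1 n)
  -- continuity and equicontinuity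
  have hcont : ∀ n, Continuous (𝒜.Op κ' (f n)) := fun n =>
    𝒜.op_continuous_lim κ κ' hs hs' hc hi' hlim (f n).continuous 1 (hf2 n)
  have hequi : ∀ (y0 : Y) (ε : ℝ), 0 < ε → ∃ U ∈ 𝓝 y0, ∀ n, ∀ y ∈ U,
      |𝒜.Op κ' (f n) y - 𝒜.Op κ' (f n) y0| ≤ ε := by
    intro y0 ε hε
    obtain ⟨m, hm⟩ := (𝒜.op_approx (V := ℝ) κ κ' hs hs' hc hi' hlim 1 (ε / 3)
      (by positivity)).exists
    obtain ⟨U, hU, hU2⟩ := 𝒜.op_equi (V := ℝ) (κ m) (fun i ξ w h => (hs m i ξ w h).1) (hc m)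
      y0 (ε / 3) (by positivity)
    refine ⟨U, hU, fun n y hy => ?_⟩
    have e1 := hm (f n) (f n).continuous (hf2 n) y
    have e2 := hm (f n) (f n).continuous (hf2 n) y0
    have e3 := hU2 (f n) (f n).continuous (hf2 n) y hy
    rw [Real.norm_eq_abs, abs_le] at e1 e2 e3
    rw [abs_le]
    constructor <;> linarith [e1.1, e1.2, e2.1, e2.2, e3.1, e3.2]
  -- a uniform bound
  obtain ⟨R, hR⟩ : ∃ R : ℝ, ∀ n, ∀ y, |𝒜.Op κ' (f n) y| ≤ R := by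
    obtain ⟨m, hm⟩ := (𝒜.op_approx (V := ℝ) κ κ' hs hs' hc hi' hlim 1 1
      (by positivity)).exists
    have hcC : ∀ i, ∃ C : ℝ, ∀ ξ, ∫ w in closedBall (0 : E) 2, |κ m i ξ w| ≤ C := by
      intro i
      have h1 : Continuous (fun ξ => ∫ w in closedBall (0 : E) 2, |κ m i ξ w|) :=
        continuous_parametric_integral_of_continuous (hc m i).abs (isCompact_closedBall 0 2)
      obtain ⟨C, hC⟩ := (isCompact_closedBall (0 : E) 3).bddAbove_image h1.continuousOn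
      refine ⟨max C 0, fun ξ => ?_⟩
      by_cases hξ : ‖ξ‖ ≤ 3
      · exact (hC ⟨ξ, mem_closedBall_zero_iff.2 hξ, rfl⟩).trans (le_max_left _ _)
      · have : ∀ w, κ m i ξ w = 0 := fun w => by
          by_contra h
          exact hξ (hs m i ξ w h).1
        simp [this]
    choose C hC using hcC
    refine ⟨𝒜.N * ((∑ i, |C i|) * 1) + 1, fun n y => ?_⟩
    have e1 := hm (f n) (f n).continuous (hf2 n) y
    have e2 := 𝒜.op_bound (κ m) (fun i ξ w h => (hs m i ξ w h).1)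
      (fun i ξ => (okern_integrable (hs m i) (hc m i) ξ).integrableOn) (∑ i, |C i|)
      (fun i ξ => (hC i ξ).trans ((le_abs_self _).trans
        (Finset.single_le_sum (f := fun i => |C i|) (fun i _ => abs_nonneg _)
          (Finset.mem_univ i)))) (f n) 1 (hf2 n) y
    rw [Real.norm_eq_abs, abs_le] at e1 e2
    rw [abs_le]
    constructor <;> linarith [e1.1, e1.2, e2.1, e2.2]
  -- restriction to the fundamental domain
  have : CompactSpace 𝒜.dom := isCompact_iff_compactSpace.1 𝒜.isCompact_dom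
  let h : ℕ → (𝒜.dom →ᵇ ℝ) := fun n =>
    BoundedContinuousFunction.mkOfCompact ⟨fun y => 𝒜.Op κ' (f n) y.1,
      (hcont n).comp continuous_subtype_val⟩
  have hh : ∀ n y, h n y = 𝒜.Op κ' (f n) y.1 := fun n y => rfl
  have hK : IsCompact (closure (Set.range h)) := by
    refine BoundedContinuousFunction.arzela_ascoli (closedBall (0 : ℝ) R)
      (isCompact_closedBall 0 R) (Set.range h) ?_ ?_
    · rintro _ x ⟨n, rfl⟩
      rw [mem_closedBall_zero_iff, Real.norm_eq_abs, hh]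
      exact hR n x
    · intro x0
      rw [Metric.equicontinuousAt_iff_right]
      intro ε hε
      obtain ⟨U, hU, hU2⟩ := hequi x0.1 (ε / 2) (half_pos hε)
      have hU' : (Subtype.val : 𝒜.dom → Y) ⁻¹' U ∈ 𝓝 x0 :=
        continuous_subtype_val.continuousAt.preimage_mem_nhds hU
      filter_upwards [hU'] with x hx
      rintro ⟨_, n, rfl⟩
      rw [Real.dist_eq, abs_sub_comm]
      exact (hU2 n x hx).trans_lt (half_lt_self hε)
  obtain ⟨F0, -, s, hs0, hlim0⟩ := hK.tendsto_subseq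
    (fun n => subset_closure (Set.mem_range_self n) : ∀ n, h n ∈ closure (Set.range h))
  choose γ hγ using 𝒜.exists_mem_dom
  refine ⟨fun y => F0 ⟨γ y • y, hγ y⟩, s, hs0, ?_⟩
  rw [Metric.tendstoUniformly_iff]
  intro ε hε
  have := (Metric.tendsto_nhds.1 hlim0) ε hε
  filter_upwards [this] with n hn y
  have h1 : 𝒜.Op κ' (f (s n)) y = h (s n) ⟨γ y • y, hγ y⟩ := by
    rw [hh]
    simp only
    rw [← 𝒜.op_translate]
    congr 1
    funext z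
    exact (hf _ _ _).symm
  rw [h1, dist_comm]
  exact (BoundedContinuousFunction.dist_coe_le_dist _).trans_lt hn

end Atl

end Sing
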