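import Pool.Agent.Work.MP_3893a0_gt.Op1

/-! Module OP2, part a: the operators as continuous linear maps of bounded functions. -/

open scoped ContDiff Topology BoundedContinuousFunction
open MeasureTheory Metric Set Filter

noncomputable section

set_option linter.unusedSectionVars false

namespace Sing

variable {G Y : Type*} [Group G] [TopologicalSpace Y] [MulAction G Y]

namespace Atl

variable (𝒜 : Atl G Y) [ContinuousConstSMul G Y] [T2Space Y]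
variable {V : Type*} [NormedAddCommGroup V] [NormedSpace ℝ V]

/-- uniform bound of the kernels -/
theorem kern_bound (κ : ℕ → Fin 𝒜.n → E → E → ℝ) (κ' : Fin 𝒜.n → E → E → ℝ)
    (hs : ∀ n i ξ w, κ n i ξ w ≠ 0 → ‖ξ‖ ≤ 3 ∧ ‖w‖ ≤ 2)
    (hs' : ∀ i ξ w, κ' i ξ w ≠ 0 → ‖ξ‖ ≤ 3 ∧ ‖w‖ ≤ 2)
    (hc : ∀ n i, Continuous (fun p : E × E => κ n i p.1 p.2))
    (hi' : ∀ i ξ, Integrable (κ' i ξ))
    (hlim : ∀ ε > 0, ∀ᶠ n in atTop, ∀ i ξ, ∫ w, |κ n i ξ w - κ' i ξ w| ≤ ε) :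
    ∃ C : ℝ, 0 ≤ C ∧ ∀ i ξ, ∫ w in closedBall (0 : E) 2, |κ' i ξ w| ≤ C := by
  obtain ⟨m, hm⟩ := (hlim 1 one_pos).exists
  have hcC : ∀ i, ∃ C : ℝ, ∀ ξ, ∫ w in closedBall (0 : E) 2, |κ m i ξ w| ≤ C := by
    intro i
    have h1 : Continuous (fun ξ => ∫ w in closedBall (0 : E) 2, |κ m i ξ w|) :=
      continuous_parametric_integral_of_continuous (hc m i).abs (isCompact_closedBall 0 2)
    obtain ⟨C, hC⟩ := (isCompact_closedBall (0 : E) 3).bddAbove_image h1.continuousOn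
    refine ⟨max C 0, fun ξ => ?_⟩
    by_cases hξ : ‖ξ‖ ≤ 3
    · exact (hC ⟨ξ, mem_closedBall_zero_iff.2 hξ, rfl⟩).trans (le_max_left _ _)
    · have : ∀ w, κ m i ξ w = 0 := fun w => by
        by_contra h
        exact hξ (hs m i ξ w h).1
      simp [this]
  choose C hC using hcC
  refine ⟨(∑ i, |C i|) + 1, by positivity, fun i ξ => ?_⟩
  have hint : ∀ i ξ, Integrable (κ m i ξ) := fun i ξ => okern_integrable (hs m i) (hc m i) ξ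
  have h1 : ∫ w in closedBall (0 : E) 2, |κ m i ξ w| ≤ ∑ i, |C i| :=
    (hC i ξ).trans ((le_abs_self _).trans (Finset.single_le_sum (f := fun i => |C i|)
      (fun i _ => abs_nonneg _) (Finset.mem_univ i)))
  have h2 : ∫ w in closedBall (0 : E) 2, |κ m i ξ w - κ' i ξ w| ≤ 1 := by
    refine le_trans (setIntegral_le_integral ((hint i ξ).sub (hi' i ξ)).abs ?_) (hm i ξ)
    exact Eventually.of_forall fun w => abs_nonneg _
  calc ∫ w in closedBall (0 : E) 2, |κ' i ξ w|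
      ≤ ∫ w in closedBall (0 : E) 2, (|κ m i ξ w| + |κ m i ξ w - κ' i ξ w|) := by
        refine integral_mono (hi' i ξ).integrableOn.abs
          ((hint i ξ).integrableOn.abs.add ((hint i ξ).sub (hi' i ξ)).integrableOn.abs) fun w => ?_
        have : κ' i ξ w = κ m i ξ w - (κ m i ξ w - κ' i ξ w) := by ring
        show |κ' i ξ w| ≤ |κ m i ξ w| + |κ m i ξ w - κ' i ξ w|
        calc |κ' i ξ w| = |κ m i ξ w - (κ m i ξ w - κ' i ξ w)| := by rw [← this]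
          _ ≤ _ := abs_sub _ _
    _ = (∫ w in closedBall (0 : E) 2, |κ m i ξ w|) +
        ∫ w in closedBall (0 : E) 2, |κ m i ξ w - κ' i ξ w| :=
        integral_add (hint i ξ).integrableOn.abs ((hint i ξ).sub (hi' i ξ)).integrableOn.abs
    _ ≤ _ := add_le_add h1 h2

/-- the operator as a continuous linear map -/
theorem exists_opCLM [CompleteSpace V] (κ : ℕ → Fin 𝒜.n → E → E → ℝ) (κ' : Fin 𝒜.n → E → E → ℝ)
    (hs : ∀ n i ξ w, κ n i ξ w ≠ 0 → ‖ξ‖ ≤ 3 ∧ ‖w‖ ≤ 2)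
    (hs' : ∀ i ξ w, κ' i ξ w ≠ 0 → ‖ξ‖ ≤ 3 ∧ ‖w‖ ≤ 2)
    (hc : ∀ n i, Continuous (fun p : E × E => κ n i p.1 p.2))
    (hi' : ∀ i ξ, Integrable (κ' i ξ))
    (hlim : ∀ ε > 0, ∀ᶠ n in atTop, ∀ i ξ, ∫ w, |κ n i ξ w - κ' i ξ w| ≤ ε) :
    ∃ T : (Y →ᵇ V) →L[ℝ] (Y →ᵇ V), ∀ (f : Y →ᵇ V) (y : Y), T f y = 𝒜.Op κ' f y := by
  obtain ⟨C, hC0, hC⟩ := 𝒜.kern_bound κ κ' hs hs' hc hi' hlim
  have hb : ∀ (f : Y →ᵇ V) (y : Y), ‖𝒜.Op κ' f y‖ ≤ 𝒜.N * (C * ‖f‖) := fun f y =>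
    𝒜.op_bound κ' (fun i ξ w h => (hs' i ξ w h).1) (fun i ξ => (hi' i ξ).integrableOn) C hC f
      ‖f‖ f.norm_coe_le_norm y
  have hcont : ∀ f : Y →ᵇ V, Continuous (𝒜.Op κ' f) := fun f =>
    𝒜.op_continuous_lim κ κ' hs hs' hc hi' hlim f.continuous ‖f‖ f.norm_coe_le_norm
  let T0 : (Y →ᵇ V) →ₗ[ℝ] (Y →ᵇ V) :=
    { toFun := fun f => BoundedContinuousFunction.ofNormedAddCommGroup (𝒜.Op κ' f) (hcont f)
        (𝒜.N * (C * ‖f‖)) (hb f)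
      map_add' := fun f g => by
        ext y
        exact 𝒜.op_add κ' (fun i ξ w h => (hs' i ξ w h).1) (fun i ξ => (hi' i ξ).integrableOn)
          f.continuous g.continuous y
      map_smul' := fun c f => by
        ext y
        exact 𝒜.op_smul κ' c f y }
  refine ⟨T0.mkContinuous (𝒜.N * C) (fun f => ?_), fun f y => rfl⟩
  rw [BoundedContinuousFunction.norm_le (by positivity)]
  intro y
  rw [mul_assoc]
  exact hb f y

/-- a lower bound at a point by one term -/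
theorem op_ge (κ : Fin 𝒜.n → E → E → ℝ) (hs : ∀ i ξ w, κ i ξ w ≠ 0 → ‖ξ‖ ≤ 3)
    (hκ : ∀ i ξ w, 0 ≤ κ i ξ w) {g : Y → ℝ}
    (hg : ∀ y, 0 ≤ g y) (a : 𝒜.Idx) {ξ : E} (hξ : ‖ξ‖ < 4) :
    ∫ w in closedBall (0 : E) 2, κ a.2 ξ w • g (𝒜.sym a w) ≤ 𝒜.Op κ g (𝒜.sym a ξ) := by
  obtain ⟨s, hs1, hs2⟩ := 𝒜.cell_bound (𝒜.sym a ξ)
  have hnn : ∀ b, 0 ≤ 𝒜.ext b (𝒜.Fi κ g b) (𝒜.sym a ξ) := by
    intro b
    by_cases hy : 𝒜.sym a ξ ∈ 𝒜.src b
    · rw [oext_mem 𝒜 hy]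
      exact integral_nonneg fun w => smul_nonneg (hκ _ _ _) (hg _)
    · rw [oext_notMem 𝒜 hy]
  have h1 : 𝒜.ext a (𝒜.Fi κ g a) (𝒜.sym a ξ) =
      ∫ w in closedBall (0 : E) 2, κ a.2 ξ w • g (𝒜.sym a w) := by
    rw [𝒜.ext_sym a _ hξ]; rfl
  rw [← h1]
  classical
  rw [Op_eq, 𝒜.Op_zero_set (s := insert a s) (fun b hb => Finset.mem_insert_of_mem (hs1 b hb))
    (fun a z hz => 𝒜.Fi_supp hs g a z hz)]
  exact Finset.single_le_sum (f := fun b => 𝒜.ext b (𝒜.Fi κ g b) (𝒜.sym a ξ))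
    (fun b _ => hnn b) (Finset.mem_insert_self a s)

end Atl

end Sing
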