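import Pool.Agent.Work.MP_3893a0_gt.Op2a
import Pool.Agent.Work.MP_3893a0_gt.Op0

/-! Module OP2, part b: `P` of the regularized operators, the limit `n → ∞`. -/

open scoped ContDiff Topology BoundedContinuousFunction
open MeasureTheory Metric Set Filter

noncomputable section

set_option linter.unusedSectionVars false

namespace Sing

variable {G Y : Type*} [Group G] [TopologicalSpace Y] [MulAction G Y]

namespace Atl

variable {𝒜 : Atl G Y} [ContinuousConstSMul G Y] [T2Space Y]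
variable {V : Type*} [NormedAddCommGroup V] [NormedSpace ℝ V] [CompleteSpace V]

theorem oext_congr {a : 𝒜.Idx} {F F' : E → V} (h : ∀ z : E, ‖z‖ < 4 → F z = F' z) (y : Y) :
    𝒜.ext a F y = 𝒜.ext a F' y := by
  by_cases hy : y ∈ 𝒜.src a
  · rw [oext_mem 𝒜 hy, oext_mem 𝒜 hy, h _ (𝒜.norm_crd_lt a hy)]
  · rw [oext_notMem 𝒜 hy, oext_notMem 𝒜 hy]

section L

variable {M : 𝒜.Met} {χ : Fin 𝒜.n → E → ℝ} (L : ∀ i, LocPar (M.A i) (χ i))

theorem intg_k (n : ℕ) (i : Fin 𝒜.n) (ξ : E) : Integrable ((L i).k n ξ) :=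
  okern_integrable ((L i).k_supp n) ((L i).k_smooth n).continuous ξ

theorem intg_t (n : ℕ) (i : Fin 𝒜.n) (ξ : E) : Integrable ((L i).t n ξ) :=
  okern_integrable ((L i).t_supp n) ((L i).t_cont n) ξ

theorem intg_m (n : ℕ) (i : Fin 𝒜.n) (ξ : E) : Integrable ((L i).m n ξ) :=
  okern_integrable ((L i).m_supp n) ((L i).m_cont n) ξ

theorem t_hlim : ∀ ε > 0, ∀ᶠ n in atTop, ∀ (i : Fin 𝒜.n) (ξ : E),
    ∫ w, |(L i).t n ξ w - (L i).t0 ξ w| ≤ ε := fun ε hε =>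
  eventually_all.2 fun i => (L i).t_lim ε hε

theorem k_hlim : ∀ ε > 0, ∀ᶠ n in atTop, ∀ (i : Fin 𝒜.n) (ξ : E),
    ∫ w, |(L i).k n ξ w - (L i).k0 ξ w| ≤ ε := fun ε hε =>
  eventually_all.2 fun i => (L i).k_lim ε hε

/-- the regularized operators have smooth values -/
theorem op_k_smooth (n : ℕ) {v : Y → V} (hv : Continuous v) :
    𝒜.Sm (𝒜.Op (fun i => (L i).k n) v) := by
  refine 𝒜.sm_sum (F := 𝒜.Fi (fun i => (L i).k n) v)
    (fun a z hz => 𝒜.Fi_supp (fun i ξ w h => ((L i).k_supp n ξ w h).1) v a z hz) fun a => ?_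
  exact (contDiff_int ((L a.2).k_smooth n)
    (hv.comp_continuousOn (𝒜.osym_contOn a))).contDiffOn

/-- `P` of the regularized operator -/
theorem Pc_op (n : ℕ) {v : Y → V} (hv : Continuous v) (b : 𝒜.Idx) {z : E} (hz : ‖z‖ < 4) :
    Pc (M.A b.2) (𝒜.Op (fun i => (L i).k n) v ∘ 𝒜.sym b) z =
      𝒜.Op (fun i => (L i).t n) v (𝒜.sym b z) - 𝒜.Op (fun i => (L i).m n) v (𝒜.sym b z) := by
  rw [𝒜.op_sub_eq _ _ (fun i ξ w h => ((L i).t_supp n ξ w h).1)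
    (fun i ξ w h => ((L i).m_supp n ξ w h).1) (fun i ξ => (intg_t L n i ξ).integrableOn)
    (fun i ξ => (intg_m L n i ξ).integrableOn) hv]
  have h1 := 𝒜.Pc_sum M (F := 𝒜.Fi (fun i => (L i).k n) v)
    (fun a z hz => 𝒜.Fi_supp (fun i ξ w h => ((L i).k_supp n ξ w h).1) v a z hz)
    (fun a => (contDiff_int ((L a.2).k_smooth n)
      (hv.comp_continuousOn (𝒜.osym_contOn a))).contDiffOn) b hz
  refine h1.trans ?_
  rw [Op_eq]
  refine finsum_congr fun a => oext_congr (fun ξ hξ => ?_) _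
  refine (Pc_int (M.A a.2) ((L a.2).k_smooth n)
    (hv.comp_continuousOn (𝒜.osym_contOn a)) ξ).trans ?_
  unfold Fi
  refine integral_congr_ae (Eventually.of_forall fun w => ?_)
  simp only [(L a.2).k_eq n ξ w hξ, Function.comp_apply]

/-- convergence of `Op t n` -/
theorem op_t_lim (B : ℝ) : ∀ ε > 0, ∀ᶠ n in atTop, ∀ v : Y → V, Continuous v →
    (∀ y, ‖v y‖ ≤ B) → ∀ y,
    ‖𝒜.Op (fun i => (L i).t n) v y - 𝒜.Op (fun i => (L i).t0) v y‖ ≤ ε :=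
  𝒜.op_approx (fun n i => (L i).t n) (fun i => (L i).t0) (fun n i => (L i).t_supp n)
    (fun i => (L i).t0_supp) (fun n i => (L i).t_cont n) (fun i => (L i).t0_int) (t_hlim L) B

/-- convergence of `Op k n` -/
theorem op_k_lim (B : ℝ) : ∀ ε > 0, ∀ᶠ n in atTop, ∀ v : Y → V, Continuous v →
    (∀ y, ‖v y‖ ≤ B) → ∀ y,
    ‖𝒜.Op (fun i => (L i).k n) v y - 𝒜.Op (fun i => (L i).k0) v y‖ ≤ ε :=
  𝒜.op_approx (fun n i => (L i).k n) (fun i => (L i).k0) (fun n i => (L i).k_supp n)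
    (fun i => (L i).k0_supp) (fun n i => ((L i).k_smooth n).continuous)
    (fun i => (L i).k0_int) (k_hlim L) B

end L

/-- convergence of `Op m n` to the identity, on equivariant functions -/
theorem op_m_lim (P : 𝒜.Pou) {M : 𝒜.Met} (L : ∀ i, LocPar (M.A i) (P.χ i))
    (ρ : G → (V ≃ₗᵢ[ℝ] V)) {v : Y → V} (hv : Continuous v)
    (hρ : ∀ g y, v (g • y) = ρ g (v y)) : ∀ ε > 0, ∀ᶠ n in atTop, ∀ y,
    ‖𝒜.Op (fun i => (L i).m n) v y - v y‖ ≤ ε := by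
  intro ε hε
  have hε' : 0 < ε / (𝒜.N + 1) := by positivity
  have h0 : ∀ᶠ n in atTop, ∀ i : Fin 𝒜.n, ∀ ξ,
      ‖(∫ w in closedBall (0 : E) 2, (L i).m n ξ w • v (𝒜.sym (1, i) w)) -
        P.χ i ξ • v (𝒜.sym (1, i) ξ)‖ ≤ ε / (𝒜.N + 1) :=
    eventually_all.2 fun i => m_lim (P.nonneg i) (P.smooth i).continuous (P.supp i) (L i)
      (h := fun w => v (𝒜.sym (1, i) w)) (hv.comp_continuousOn (𝒜.osym_contOn (1, i))) _ hε'
  filter_upwards [h0] with n hn y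
  obtain ⟨s, hs1, hs2⟩ := 𝒜.cell_bound y
  have hχs : ∀ (a : 𝒜.Idx) (z : E), 3 < ‖z‖ → P.χ a.2 z = 0 := fun a z hz => by
    by_contra h
    have := P.supp a.2 z h
    linarith
  have h1 : v y = ∑ a ∈ s, 𝒜.ext a (P.χ a.2) y • v y := by
    rw [← Finset.sum_smul, ← 𝒜.Op_zero_set (F := fun a => P.χ a.2) hs1 hχs, P.sum_eq, one_smul]
  rw [Op_eq, 𝒜.Op_zero_set hs1 (fun a z hz => 𝒜.Fi_supp
    (fun i ξ w h => ((L i).m_supp n ξ w h).1) v a z hz)]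
  conv_lhs => rw [h1]
  rw [← Finset.sum_sub_distrib]
  have h2 : ∀ a ∈ s, ‖𝒜.ext a (𝒜.Fi (fun i => (L i).m n) v a) y - 𝒜.ext a (P.χ a.2) y • v y‖ ≤
      ε / (𝒜.N + 1) := by
    intro a _
    by_cases hy : y ∈ 𝒜.src a
    · rw [oext_mem 𝒜 hy, oext_mem 𝒜 hy]
      obtain ⟨g, i⟩ := a
      have hsym : ∀ z, 𝒜.sym (g, i) z = g • 𝒜.sym (1, i) z := fun z => by
        have := 𝒜.sym_smul g (1, i) z
        simpa using this
      have h3 : v y = ρ g (v (𝒜.sym (1, i) (𝒜.crd (g, i) y))) := by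
        conv_lhs => rw [← 𝒜.sym_crd (g, i) hy, hsym, hρ]
      have h4 : 𝒜.Fi (fun i => (L i).m n) v (g, i) (𝒜.crd (g, i) y) =
          ρ g (∫ w in closedBall (0 : E) 2, (L i).m n (𝒜.crd (g, i) y) w •
            v (𝒜.sym (1, i) w)) := by
        have := (ρ g).toContinuousLinearEquiv.integral_comp_comm
          (μ := volume.restrict (closedBall (0 : E) 2))
          (fun w => (L i).m n (𝒜.crd (g, i) y) w • v (𝒜.sym (1, i) w))
        refine Eq.trans ?_ this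
        unfold Fi
        refine integral_congr_ae (Eventually.of_forall fun w => ?_)
        simp only [hsym, hρ]
        exact ((ρ g).map_smul _ _).symm
      rw [h4, h3, ← (ρ g).map_smul, ← (ρ g).map_sub, (ρ g).norm_map]
      exact hn i _
    · rw [oext_notMem 𝒜 hy, oext_notMem 𝒜 hy, zero_smul, sub_zero, norm_zero]
      exact hε'.le
  calc ‖∑ a ∈ s, (𝒜.ext a (𝒜.Fi (fun i => (L i).m n) v a) y - 𝒜.ext a (P.χ a.2) y • v y)‖
      ≤ ∑ a ∈ s, ε / (𝒜.N + 1) := (norm_sum_le _ _).trans (Finset.sum_le_sum h2)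
    _ = s.card * (ε / (𝒜.N + 1)) := by rw [Finset.sum_const, nsmul_eq_mul]
    _ ≤ (𝒜.N + 1) * (ε / (𝒜.N + 1)) := by
        refine mul_le_mul_of_nonneg_right ?_ hε'.le
        have : (s.card : ℝ) ≤ 𝒜.N := by exact_mod_cast hs2
        linarith
    _ = ε := by field_simp

/-- `P (Op k_n v) + v - Op t0 v → 0` uniformly -/
theorem P_lim (P : 𝒜.Pou) {M : 𝒜.Met} (L : ∀ i, LocPar (M.A i) (P.χ i))
    (ρ : G → (V ≃ₗᵢ[ℝ] V)) {v : Y → V} (hv : Continuous v) (B : ℝ) (hB : ∀ y, ‖v y‖ ≤ B)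
    (hρ : ∀ g y, v (g • y) = ρ g (v y)) : ∀ ε > 0, ∀ᶠ n in atTop, ∀ (b : 𝒜.Idx) (z : E),
    ‖z‖ < 4 → ‖Pc (M.A b.2) (𝒜.Op (fun i => (L i).k n) v ∘ 𝒜.sym b) z + v (𝒜.sym b z)
      - 𝒜.Op (fun i => (L i).t0) v (𝒜.sym b z)‖ ≤ ε := by
  intro ε hε
  filter_upwards [op_m_lim P L ρ hv hρ (ε / 2) (half_pos hε),
    op_t_lim (V := V) L B (ε / 2) (half_pos hε)] with n h1 h2 b z hz
  rw [Pc_op L n hv b hz]
  have h3 := h1 (𝒜.sym b z)
  have h4 := h2 v hv hB (𝒜.sym b z)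
  have h5 : 𝒜.Op (fun i => (L i).t n) v (𝒜.sym b z) - 𝒜.Op (fun i => (L i).m n) v (𝒜.sym b z) +
      v (𝒜.sym b z) - 𝒜.Op (fun i => (L i).t0) v (𝒜.sym b z) =
      (𝒜.Op (fun i => (L i).t n) v (𝒜.sym b z) - 𝒜.Op (fun i => (L i).t0) v (𝒜.sym b z)) -
      (𝒜.Op (fun i => (L i).m n) v (𝒜.sym b z) - v (𝒜.sym b z)) := by abel
  rw [h5]
  calc _ ≤ _ := norm_sub_le _ _
    _ ≤ ε / 2 + ε / 2 := add_le_add h4 h3
    _ = ε := add_halves ε

end Atl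

end Sing
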