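import Pool.Agent.Work.MP_3893a0_gt.ParDefs

/-! Module PAR1: the scalar function `Θ`. -/

open scoped ContDiff Topology BoundedContinuousFunction
open MeasureTheory Metric Set Filter

noncomputable section

namespace Sing

/-! ### the glue function `G` -/

theorem Gg_hasDerivAt (x : ℝ) : HasDerivAt Gg (Gg1 x) x := by
  have h := expNegInvGlue.hasDerivAt_polynomial_eval_inv_mul (1 : Polynomial ℝ) x
  have h0 : HasDerivAt expNegInvGlue ((x⁻¹) ^ 2 * expNegInvGlue x) x := by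
    simpa using h
  have h1 := (hasDerivAt_id x).mul h0
  have e : Gg1 x = 1 * expNegInvGlue x + id x * ((x⁻¹) ^ 2 * expNegInvGlue x) := by
    unfold Gg1
    rcases le_or_gt x 0 with hx | hx
    · simp [expNegInvGlue.zero_of_nonpos hx]
    · simp only [id]
      field_simp
  rw [e]
  exact h1

theorem Gg1_hasDerivAt (x : ℝ) : HasDerivAt Gg1 (Gg2 x) x := by
  have h := expNegInvGlue.hasDerivAt_polynomial_eval_inv_mul (1 + Polynomial.X : Polynomial ℝ) x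
  have e1 : (fun x : ℝ => (1 + Polynomial.X : Polynomial ℝ).eval x⁻¹ * expNegInvGlue x) = Gg1 := by
    funext y
    simp [Gg1]
  have e2 : (Polynomial.X ^ 2 * ((1 + Polynomial.X : Polynomial ℝ) -
      Polynomial.derivative (1 + Polynomial.X : Polynomial ℝ))).eval x⁻¹ * expNegInvGlue x
      = Gg2 x := by
    have hd : Polynomial.derivative (1 + Polynomial.X : Polynomial ℝ) = 1 := by simp
    rw [hd]
    unfold Gg2
    congr 1
    simp only [Polynomial.eval_mul, Polynomial.eval_pow, Polynomial.eval_X,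
      Polynomial.eval_sub, Polynomial.eval_add, Polynomial.eval_one]
    ring
  rw [e1, e2] at h
  exact h

theorem Gg_of_nonpos {x : ℝ} (hx : x ≤ 0) : Gg x = 0 ∧ Gg1 x = 0 ∧ Gg2 x = 0 := by
  simp [Gg, Gg1, Gg2, expNegInvGlue.zero_of_nonpos hx]

theorem glue_eq {x : ℝ} (hx : 0 < x) : expNegInvGlue x = Real.exp (-x⁻¹) := by
  simp [expNegInvGlue, not_le.2 hx]

theorem glue_le_one (x : ℝ) : expNegInvGlue x ≤ 1 := by
  rcases le_or_gt x 0 with hx | hx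
  · simp [expNegInvGlue.zero_of_nonpos hx]
  · rw [glue_eq hx]
    exact Real.exp_le_one_iff.2 (by have := inv_pos.2 hx; linarith)

theorem Gg_nonneg (x : ℝ) : 0 ≤ Gg x := by
  rcases le_or_gt x 0 with hx | hx
  · rw [(Gg_of_nonpos hx).1]
  · exact mul_nonneg hx.le (expNegInvGlue.nonneg x)

theorem Gg1_nonneg (x : ℝ) : 0 ≤ Gg1 x := by
  rcases le_or_gt x 0 with hx | hx
  · rw [(Gg_of_nonpos hx).2.1]
  · exact mul_nonneg (by positivity) (expNegInvGlue.nonneg x)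

theorem Gg2_nonneg (x : ℝ) : 0 ≤ Gg2 x := by
  rcases le_or_gt x 0 with hx | hx
  · rw [(Gg_of_nonpos hx).2.2]
  · exact mul_nonneg (by positivity) (expNegInvGlue.nonneg x)

theorem Gg_le {x : ℝ} (hx : 0 < x) : Gg x ≤ x := by
  unfold Gg
  nlinarith [glue_le_one x]

theorem Gg1_le_one (x : ℝ) : Gg1 x ≤ 1 := by
  rcases le_or_gt x 0 with hx | hx
  · rw [(Gg_of_nonpos hx).2.1]
    exact zero_le_one
  · unfold Gg1
    rw [glue_eq hx]
    have h1 : 1 + x⁻¹ ≤ Real.exp x⁻¹ := by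
      have := Real.add_one_le_exp x⁻¹
      linarith
    calc (1 + x⁻¹) * Real.exp (-x⁻¹) ≤ Real.exp x⁻¹ * Real.exp (-x⁻¹) :=
          mul_le_mul_of_nonneg_right h1 (Real.exp_pos _).le
      _ = 1 := by rw [← Real.exp_add]; simp

theorem Gg2_le {x : ℝ} (hx : 0 < x) : Gg2 x ≤ (x⁻¹) ^ 3 := by
  unfold Gg2
  have h := glue_le_one x
  have h2 : 0 ≤ (x⁻¹) ^ 3 := by positivity
  nlinarith

theorem Gg2_le_six (x : ℝ) : Gg2 x ≤ 6 := by
  rcases le_or_gt x 0 with hx | hx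
  · rw [(Gg_of_nonpos hx).2.2]
    norm_num
  · unfold Gg2
    rw [glue_eq hx]
    have hu : 0 < x⁻¹ := inv_pos.2 hx
    have h1 : (x⁻¹) ^ 3 / (Nat.factorial 3 : ℝ) ≤ Real.exp x⁻¹ :=
      Real.pow_div_factorial_le_exp x⁻¹ hu.le 3
    have h2 : (x⁻¹) ^ 3 ≤ 6 * Real.exp x⁻¹ := by
      have : (Nat.factorial 3 : ℝ) = 6 := by norm_num [Nat.factorial]
      rw [this] at h1
      linarith
    calc (x⁻¹) ^ 3 * Real.exp (-x⁻¹) ≤ 6 * Real.exp x⁻¹ * Real.exp (-x⁻¹) :=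
          mul_le_mul_of_nonneg_right h2 (Real.exp_pos _).le
      _ = 6 := by rw [mul_assoc, ← Real.exp_add]; simp

theorem Gg1_ge {x : ℝ} (hx : 1 ≤ x) : Real.exp (-1) ≤ Gg1 x := by
  have hx0 : 0 < x := by linarith
  unfold Gg1
  rw [glue_eq hx0]
  have h1 : x⁻¹ ≤ 1 := inv_le_one_of_one_le₀ hx
  have h2 : Real.exp (-1) ≤ Real.exp (-x⁻¹) := Real.exp_le_exp.2 (by linarith)
  have h3 : 0 < x⁻¹ := inv_pos.2 hx0
  nlinarith [Real.exp_pos (-x⁻¹)]

theorem Gg1_ge' {x : ℝ} (hx : 0 < x) : 1 - x⁻¹ ≤ Gg1 x := by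
  unfold Gg1
  rw [glue_eq hx]
  have h1 : 1 - x⁻¹ ≤ Real.exp (-x⁻¹) := by
    have := Real.add_one_le_exp (-x⁻¹)
    linarith
  have h3 : 0 < x⁻¹ := inv_pos.2 hx
  nlinarith [Real.exp_pos (-x⁻¹)]

/-! ### the function `ψ` -/

theorem psi_eq (L : ℝ) {s : ℝ} (hs : 0 < s) : psi L s = (1 - 2 * L * √s) / s := by
  have he : 0 < √s := Real.sqrt_pos.2 hs
  have hse : s = √s ^ 2 := (Real.sq_sqrt hs.le).symm
  unfold psi
  generalize √s = e at *
  subst hse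
  field_simp

theorem psi1_eq (L : ℝ) {s : ℝ} (hs : 0 < s) : psi1 L s = -((1 - L * √s) / s ^ 2) := by
  have he : 0 < √s := Real.sqrt_pos.2 hs
  have hse : s = √s ^ 2 := (Real.sq_sqrt hs.le).symm
  unfold psi1
  generalize √s = e at *
  subst hse
  field_simp
  ring

theorem psi2_eq (L : ℝ) {s : ℝ} (hs : 0 < s) : psi2 L s = (2 - 3 / 2 * L * √s) / s ^ 3 := by
  have he : 0 < √s := Real.sqrt_pos.2 hs
  have hse : s = √s ^ 2 := (Real.sq_sqrt hs.le).symm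
  unfold psi2
  generalize √s = e at *
  subst hse
  field_simp

theorem psi_hasDerivAt (L : ℝ) {s : ℝ} (hs : 0 < s) : HasDerivAt (psi L) (psi1 L s) s := by
  have he : 0 < √s := Real.sqrt_pos.2 hs
  have hse : √s ^ 2 = s := Real.sq_sqrt hs.le
  have h1 : HasDerivAt (fun x : ℝ => 1 / x) (-(s ^ 2)⁻¹) s := by
    have := hasDerivAt_inv hs.ne'
    simp only [one_div]
    exact this
  have h2 : HasDerivAt (fun x : ℝ => √x) (1 / (2 * √s)) s := Real.hasDerivAt_sqrt hs.ne'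
  have h3 := (hasDerivAt_const s (2 * L)).div h2 he.ne'
  have h4 := h1.sub h3
  refine HasDerivAt.congr_deriv (f := psi L) h4 ?_
  unfold psi1
  generalize √s = e at *
  subst hse
  field_simp
  ring

theorem psi1_hasDerivAt (L : ℝ) {s : ℝ} (hs : 0 < s) : HasDerivAt (psi1 L) (psi2 L s) s := by
  have he : 0 < √s := Real.sqrt_pos.2 hs
  have hse : √s ^ 2 = s := Real.sq_sqrt hs.le
  have h2 : HasDerivAt (fun x : ℝ => √x) (1 / (2 * √s)) s := Real.hasDerivAt_sqrt hs.ne'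
  have h1 := (hasDerivAt_const s (-1 : ℝ)).div ((hasDerivAt_id s).pow 2)
    (by simp only [id, Pi.pow_apply]; exact pow_ne_zero 2 hs.ne')
  have h3 := (hasDerivAt_const s L).div ((hasDerivAt_id s).mul h2) (by
    have := mul_pos hs he
    exact this.ne')
  have h4 := h1.add h3
  have e : psi1 L = fun x => (-1 : ℝ) / (id x) ^ 2 + L / (id x * √x) := by
    funext x; simp [psi1]
  rw [e]
  refine HasDerivAt.congr_deriv h4 ?_
  unfold psi2
  simp only [id, Pi.pow_apply, Pi.mul_apply]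
  generalize √s = e at *
  subst hse
  field_simp
  ring

theorem psi_smooth (L : ℝ) : ContDiffOn ℝ ∞ (psi L) (Ioi 0) := by
  intro s hs
  have hs' : (0 : ℝ) < s := hs
  apply ContDiffAt.contDiffWithinAt
  unfold psi
  apply ContDiffAt.sub
  · exact contDiffAt_const.div contDiffAt_id hs'.ne'
  · exact contDiffAt_const.div (Real.contDiffAt_sqrt hs'.ne') (Real.sqrt_pos.2 hs').ne'

namespace Cst

variable (c : Cst)

theorem sqrt_bound {s : ℝ} (_hs : 0 < s) (h : s < c.σ) : (8 * c.C) * √s ≤ 1 / 4 := by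
  have h1 : √s ≤ √c.σ := Real.sqrt_le_sqrt h.le
  have h2 := c.hσ1
  have hC := c.hC
  have h3 : √s ≤ 1 / (32 * c.C) := h1.trans h2
  calc (8 * c.C) * √s ≤ (8 * c.C) * (1 / (32 * c.C)) :=
        mul_le_mul_of_nonneg_left h3 (by positivity)
    _ = 1 / 4 := by field_simp; norm_num

theorem psi_le {s : ℝ} (hs : 0 < s) : psi (8 * c.C) s ≤ 1 / s := by
  unfold psi
  have hC := c.hC
  have : 0 ≤ 2 * (8 * c.C) / √s := by positivity
  linarith

theorem arg_nonpos {s : ℝ} (hs : c.σ ≤ s) : psi (8 * c.C) s - c.τ ≤ 0 := by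
  have hs0 : 0 < s := lt_of_lt_of_le c.hσ hs
  have h1 := c.psi_le hs0
  have h2 : 1 / s ≤ 1 / c.σ := one_div_le_one_div_of_le c.hσ hs
  have h3 := c.hτ
  linarith

theorem psi_ge {s : ℝ} (hs : 0 < s) (h : s < c.σ) : 1 / (2 * s) ≤ psi (8 * c.C) s := by
  rw [psi_eq _ hs]
  have h1 := c.sqrt_bound hs h
  have h2 : (1 : ℝ) / 2 ≤ 1 - 2 * (8 * c.C) * √s := by linarith
  calc 1 / (2 * s) = (1 / 2) / s := by field_simp
    _ ≤ (1 - 2 * (8 * c.C) * √s) / s := div_le_div_of_nonneg_right h2 hs.le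

theorem θ_smooth : ContDiffOn ℝ ∞ c.θ (Ioi 0) := by
  have hG : ContDiff ℝ ∞ Gg := contDiff_id.mul (expNegInvGlue.contDiff (n := ⊤))
  have h1 : ContDiffOn ℝ ∞ (fun s => psi (8 * c.C) s - c.τ) (Ioi 0) :=
    (psi_smooth _).sub contDiffOn_const
  exact hG.comp_contDiffOn h1

theorem θ_hasDerivAt {s : ℝ} (hs : 0 < s) : HasDerivAt c.θ (c.θ1 s) s := by
  have h1 := (psi_hasDerivAt (8 * c.C) hs).sub_const c.τ
  exact HasDerivAt.comp (h₂ := Gg) (h := fun s => psi (8 * c.C) s - c.τ) s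
    (Gg_hasDerivAt (psi (8 * c.C) s - c.τ)) h1

theorem θ1_hasDerivAt {s : ℝ} (hs : 0 < s) : HasDerivAt c.θ1 (c.θ2 s) s := by
  have h1 := (psi_hasDerivAt (8 * c.C) hs).sub_const c.τ
  have h2 : HasDerivAt (fun s => Gg1 (psi (8 * c.C) s - c.τ))
      (Gg2 (psi (8 * c.C) s - c.τ) * psi1 (8 * c.C) s) s :=
    HasDerivAt.comp (h₂ := Gg1) (h := fun s => psi (8 * c.C) s - c.τ) s
      (Gg1_hasDerivAt (psi (8 * c.C) s - c.τ)) h1
  have h3 := h2.mul (psi1_hasDerivAt (8 * c.C) hs)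
  refine HasDerivAt.congr_deriv (f := c.θ1) h3 ?_
  unfold θ2 Th2
  ring

theorem θ_zero {s : ℝ} (hs : c.σ ≤ s) : c.θ s = 0 ∧ c.θ1 s = 0 ∧ c.θ2 s = 0 := by
  obtain ⟨h0, h1, h2⟩ := Gg_of_nonpos (c.arg_nonpos hs)
  unfold θ θ1 θ2 Th Th1 Th2
  simp [h0, h1, h2]

theorem θ_at_zero : c.θ 0 = 0 ∧ c.θ1 0 = 0 ∧ c.θ2 0 = 0 := by
  have hx : psi (8 * c.C) 0 - c.τ ≤ 0 := by
    have h1 : 0 < 1 / c.σ := one_div_pos.2 c.hσ
    have h2 := c.hτ
    simp [psi]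
    linarith
  obtain ⟨h0, h1, h2⟩ := Gg_of_nonpos hx
  unfold θ θ1 θ2 Th Th1 Th2
  simp [h0, h1, h2]

set_option linter.unusedVariables false in
theorem θ_nonneg {s : ℝ} (hs : 0 < s) : 0 ≤ c.θ s := Gg_nonneg _

theorem psi1_nonpos {s : ℝ} (hs : 0 < s) (h : s < c.σ) : psi1 (8 * c.C) s ≤ 0 := by
  rw [psi1_eq _ hs]
  have h1 := c.sqrt_bound hs h
  have h2 : 0 ≤ (1 - 8 * c.C * √s) / s ^ 2 := div_nonneg (by linarith) (by positivity)
  linarith

theorem psi2_nonneg {s : ℝ} (hs : 0 < s) (h : s < c.σ) : 0 ≤ psi2 (8 * c.C) s := by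
  rw [psi2_eq _ hs]
  have h1 := c.sqrt_bound hs h
  exact div_nonneg (by linarith) (by positivity)

theorem θ1_nonpos {s : ℝ} (hs : 0 < s) : c.θ1 s ≤ 0 := by
  rcases le_or_gt c.σ s with h | h
  · rw [(c.θ_zero h).2.1]
  · exact mul_nonpos_of_nonneg_of_nonpos (Gg1_nonneg _) (c.psi1_nonpos hs h)

theorem θ2_nonneg {s : ℝ} (hs : 0 < s) : 0 ≤ c.θ2 s := by
  rcases le_or_gt c.σ s with h | h
  · rw [(c.θ_zero h).2.2]
  · exact add_nonneg (mul_nonneg (Gg2_nonneg _) (sq_nonneg _))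
      (mul_nonneg (Gg1_nonneg _) (c.psi2_nonneg hs h))

/-- the basic lower bound -/
theorem key_ge {s : ℝ} (hs : 0 < s) (h : s < c.σ) :
    c.C * √s / s ^ 2 * Gg1 (psi (8 * c.C) s - c.τ) ≤
      s * (1 - c.C * √s) * c.θ2 s + (2 + c.C * √s) * c.θ1 s := by
  have hC := c.hC
  have he : 0 < √s := Real.sqrt_pos.2 hs
  have hb := c.sqrt_bound hs h
  have h1 : 0 ≤ 1 - c.C * √s := by nlinarith [mul_pos hC he]
  have hG1 := Gg1_nonneg (psi (8 * c.C) s - c.τ)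
  have hG2 := Gg2_nonneg (psi (8 * c.C) s - c.τ)
  unfold θ2 θ1 Th2 Th1
  generalize Gg1 (psi (8 * c.C) s - c.τ) = g1 at *
  generalize Gg2 (psi (8 * c.C) s - c.τ) = g2 at *
  have e : s * (1 - c.C * √s) * psi2 (8 * c.C) s + (2 + c.C * √s) * psi1 (8 * c.C) s
      = (c.C * √s + 20 * (c.C * √s) ^ 2) / s ^ 2 := by
    rw [psi2_eq _ hs, psi1_eq _ hs]
    field_simp
    ring
  have h3 : 0 ≤ s * (1 - c.C * √s) * (g2 * psi1 (8 * c.C) s ^ 2) := by positivity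
  have h4 : c.C * √s / s ^ 2 * g1 ≤ (c.C * √s + 20 * (c.C * √s) ^ 2) / s ^ 2 * g1 := by
    apply mul_le_mul_of_nonneg_right _ hG1
    apply div_le_div_of_nonneg_right _ (by positivity)
    have : 0 ≤ 20 * (c.C * √s) ^ 2 := by positivity
    linarith
  calc c.C * √s / s ^ 2 * g1 ≤ (c.C * √s + 20 * (c.C * √s) ^ 2) / s ^ 2 * g1 := h4
    _ = (s * (1 - c.C * √s) * psi2 (8 * c.C) s + (2 + c.C * √s) * psi1 (8 * c.C) s) * g1 := by
        rw [e]
    _ ≤ s * (1 - c.C * √s) * (g2 * psi1 (8 * c.C) s ^ 2 + g1 * psi2 (8 * c.C) s) +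
        (2 + c.C * √s) * (g1 * psi1 (8 * c.C) s) := by nlinarith

/-- the key inequality -/
theorem θ_key {s : ℝ} (hs : 0 < s) :
    0 ≤ s * (1 - c.C * √s) * c.θ2 s + (2 + c.C * √s) * c.θ1 s := by
  rcases le_or_gt c.σ s with h | h
  · rw [(c.θ_zero h).2.2, (c.θ_zero h).2.1]
    simp
  · have hC := c.hC
    refine le_trans ?_ (c.key_ge hs h)
    exact mul_nonneg (by positivity) (Gg1_nonneg _)

theorem τ_pos : 0 < c.τ := lt_of_lt_of_le (one_div_pos.2 c.hσ) c.hτ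

/-- strict positivity near zero -/
theorem θ_key_pos : ∃ s1 > 0, ∃ b > 0, ∀ s, 0 < s → s ≤ s1 →
    b ≤ s * (1 - c.C * √s) * c.θ2 s + (2 + c.C * √s) * c.θ1 s := by
  have hC := c.hC
  have hσ := c.hσ
  have hτ := c.τ_pos
  refine ⟨min (c.σ / 2) (min 1 (1 / (2 * (c.τ + 1)))), by positivity,
    c.C * Real.exp (-1), by positivity, ?_⟩
  intro s hs hs1
  have hs2 : s < c.σ := lt_of_le_of_lt (hs1.trans (min_le_left _ _)) (by linarith)
  have hs3 : s ≤ 1 := hs1.trans ((min_le_right _ _).trans (min_le_left _ _))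
  have hs4 : s ≤ 1 / (2 * (c.τ + 1)) := hs1.trans ((min_le_right _ _).trans (min_le_right _ _))
  have hx : 1 ≤ psi (8 * c.C) s - c.τ := by
    have h1 := c.psi_ge hs hs2
    have h2 : c.τ + 1 ≤ 1 / (2 * s) := by
      rw [le_div_iff₀ (by positivity)]
      rw [le_div_iff₀ (by positivity)] at hs4
      linarith
    linarith
  have he : 0 < √s := Real.sqrt_pos.2 hs
  have he1 : √s ≤ 1 := Real.sqrt_le_one.2 hs3
  have hes : s ≤ √s := by
    have : √s ^ 2 = s := Real.sq_sqrt hs.le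
    nlinarith
  refine le_trans ?_ (c.key_ge hs hs2)
  have h5 : (1 : ℝ) ≤ √s / s ^ 2 := by
    rw [le_div_iff₀ (by positivity)]
    nlinarith
  have h6 := Gg1_ge hx
  calc c.C * Real.exp (-1) ≤ (c.C * (√s / s ^ 2)) * Gg1 (psi (8 * c.C) s - c.τ) := by
        apply mul_le_mul _ h6 (Real.exp_pos _).le (by positivity)
        nlinarith
    _ = c.C * √s / s ^ 2 * Gg1 (psi (8 * c.C) s - c.τ) := by ring

/-- for small `s` the argument of `G` is large -/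
theorem arg_ge {s : ℝ} (hs : 0 < s) (h : s < c.σ) (h' : s ≤ 1 / (4 * c.τ)) :
    1 / (4 * s) ≤ psi (8 * c.C) s - c.τ := by
  have hτ := c.τ_pos
  have h1 := c.psi_ge hs h
  have h2 : c.τ ≤ 1 / (4 * s) := by
    rw [le_div_iff₀ (by positivity)]
    rw [le_div_iff₀ (by positivity)] at h'
    linarith
  have h3 : 1 / (2 * s) = 1 / (4 * s) + 1 / (4 * s) := by field_simp; norm_num
  linarith

theorem Gg2_small {s : ℝ} (hs : 0 < s) (h : s < c.σ) (h' : s ≤ 1 / (4 * c.τ)) :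
    Gg2 (psi (8 * c.C) s - c.τ) ≤ 64 * s ^ 3 := by
  have h1 := c.arg_ge hs h h'
  have hx : 0 < psi (8 * c.C) s - c.τ := lt_of_lt_of_le (by positivity) h1
  have h2 := Gg2_le hx
  have h3 : (psi (8 * c.C) s - c.τ)⁻¹ ≤ 4 * s := by
    rw [inv_le_comm₀ hx (by positivity)]
    simpa using h1
  calc Gg2 (psi (8 * c.C) s - c.τ) ≤ ((psi (8 * c.C) s - c.τ)⁻¹) ^ 3 := h2
    _ ≤ (4 * s) ^ 3 := pow_le_pow_left₀ (by positivity) h3 3
    _ = 64 * s ^ 3 := by ring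

theorem psi1_abs {s : ℝ} (hs : 0 < s) (h : s < c.σ) : |psi1 (8 * c.C) s| ≤ 1 / s ^ 2 := by
  have hC := c.hC
  have hb := c.sqrt_bound hs h
  have he : 0 < √s := Real.sqrt_pos.2 hs
  rw [psi1_eq _ hs, abs_neg, abs_div, abs_of_pos (by positivity : (0 : ℝ) < s ^ 2)]
  apply div_le_div_of_nonneg_right _ (by positivity)
  rw [abs_le]
  constructor
  · linarith
  · nlinarith [mul_pos hC he]

theorem psi2_abs {s : ℝ} (hs : 0 < s) (h : s < c.σ) : |psi2 (8 * c.C) s| ≤ 2 / s ^ 3 := by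
  have hC := c.hC
  have hb := c.sqrt_bound hs h
  have he : 0 < √s := Real.sqrt_pos.2 hs
  rw [psi2_eq _ hs, abs_div, abs_of_pos (by positivity : (0 : ℝ) < s ^ 3)]
  apply div_le_div_of_nonneg_right _ (by positivity)
  rw [abs_le]
  constructor
  · linarith
  · nlinarith [mul_pos hC he]

/-- bound of the second order part: `G''ψ'² ≤ K/s³` and `≤ K/(s²√s)` -/
theorem Gg2_psi1 : ∃ K : ℝ, 0 < K ∧ ∀ s, 0 < s → s < c.σ →
    Gg2 (psi (8 * c.C) s - c.τ) * psi1 (8 * c.C) s ^ 2 ≤ K / s ^ 3 ∧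
    Gg2 (psi (8 * c.C) s - c.τ) * psi1 (8 * c.C) s ^ 2 ≤ K / s := by
  have hτ := c.τ_pos
  have hσ := c.hσ
  refine ⟨64 * (c.σ ^ 2 + 1) + 6 * (4 * c.τ) + 6 * (4 * c.τ) ^ 3, by positivity, ?_⟩
  intro s hs h
  have hp : psi1 (8 * c.C) s ^ 2 ≤ 1 / s ^ 4 := by
    have h1 := c.psi1_abs hs h
    have h2 : psi1 (8 * c.C) s ^ 2 = |psi1 (8 * c.C) s| ^ 2 := (sq_abs _).symm
    rw [h2]
    calc |psi1 (8 * c.C) s| ^ 2 ≤ (1 / s ^ 2) ^ 2 := pow_le_pow_left₀ (abs_nonneg _) h1 2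
      _ = 1 / s ^ 4 := by field_simp
  have hG := Gg2_nonneg (psi (8 * c.C) s - c.τ)
  have hσ2 : s ^ 2 ≤ c.σ ^ 2 := pow_le_pow_left₀ hs.le h.le 2
  rcases le_or_gt s (1 / (4 * c.τ)) with h' | h'
  · have h3 := c.Gg2_small hs h h'
    have h4 : Gg2 (psi (8 * c.C) s - c.τ) * psi1 (8 * c.C) s ^ 2 ≤ 64 / s := by
      calc Gg2 (psi (8 * c.C) s - c.τ) * psi1 (8 * c.C) s ^ 2 ≤ (64 * s ^ 3) * (1 / s ^ 4) :=
            mul_le_mul h3 hp (sq_nonneg _) (by positivity)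
        _ = 64 / s := by field_simp
    constructor
    · refine h4.trans ?_
      rw [div_le_div_iff₀ hs (by positivity)]
      have h5 : 64 * s ^ 3 = (64 * s ^ 2) * s := by ring
      rw [h5]
      apply mul_le_mul_of_nonneg_right _ hs.le
      have : 0 ≤ 6 * (4 * c.τ) + 6 * (4 * c.τ) ^ 3 := by positivity
      nlinarith
    · refine h4.trans ?_
      apply div_le_div_of_nonneg_right _ hs.le
      have : 0 ≤ 6 * (4 * c.τ) + 6 * (4 * c.τ) ^ 3 := by positivity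
      nlinarith [sq_nonneg c.σ]
  · have h3 := Gg2_le_six (psi (8 * c.C) s - c.τ)
    have h5 : 1 ≤ 4 * c.τ * s := by
      rw [div_lt_iff₀ (by positivity)] at h'
      linarith
    have h4 : Gg2 (psi (8 * c.C) s - c.τ) * psi1 (8 * c.C) s ^ 2 ≤ 6 / s ^ 4 := by
      calc Gg2 (psi (8 * c.C) s - c.τ) * psi1 (8 * c.C) s ^ 2 ≤ 6 * (1 / s ^ 4) :=
            mul_le_mul h3 hp (sq_nonneg _) (by positivity)
        _ = 6 / s ^ 4 := by ring
    constructor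
    · refine h4.trans ?_
      rw [div_le_div_iff₀ (by positivity) (by positivity)]
      have h6 : 6 * s ^ 3 ≤ (6 * (4 * c.τ)) * s ^ 4 := by
        have : (6 * (4 * c.τ)) * s ^ 4 = 6 * s ^ 3 * (4 * c.τ * s) := by ring
        rw [this]
        nlinarith [pow_pos hs 3]
      have h7 : (6 * (4 * c.τ)) * s ^ 4 ≤
          (64 * (c.σ ^ 2 + 1) + 6 * (4 * c.τ) + 6 * (4 * c.τ) ^ 3) * s ^ 4 := by
        apply mul_le_mul_of_nonneg_right _ (by positivity)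
        have : 0 ≤ 64 * (c.σ ^ 2 + 1) + 6 * (4 * c.τ) ^ 3 := by positivity
        linarith
      linarith
    · refine h4.trans ?_
      rw [div_le_div_iff₀ (by positivity) (by positivity)]
      have h8 : (1 : ℝ) ≤ (4 * c.τ * s) ^ 3 := one_le_pow₀ h5
      have h6 : 6 * s ≤ (6 * (4 * c.τ) ^ 3) * s ^ 4 := by
        have : (6 * (4 * c.τ) ^ 3) * s ^ 4 = 6 * s * (4 * c.τ * s) ^ 3 := by ring
        rw [this]
        nlinarith
      have h7 : (6 * (4 * c.τ) ^ 3) * s ^ 4 ≤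
          (64 * (c.σ ^ 2 + 1) + 6 * (4 * c.τ) + 6 * (4 * c.τ) ^ 3) * s ^ 4 := by
        apply mul_le_mul_of_nonneg_right _ (by positivity)
        have : 0 ≤ 64 * (c.σ ^ 2 + 1) + 6 * (4 * c.τ) := by positivity
        linarith
      linarith

theorem θ_bounds : ∃ K : ℝ, 0 < K ∧ ∀ s, 0 < s → |c.θ s| ≤ K / s ∧ |c.θ1 s| ≤ K / s ^ 2 ∧
    |c.θ2 s| ≤ K / s ^ 3 ∧ |s * c.θ2 s + 2 * c.θ1 s| ≤ K / (s * √s) := by
  obtain ⟨K, hK, hKs⟩ := c.Gg2_psi1
  have hτ := c.τ_pos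
  have hσ := c.hσ
  have hC := c.hC
  have hsσ : 0 < √c.σ := Real.sqrt_pos.2 hσ
  refine ⟨K + 2 + 4 * c.C + K * (c.σ * √c.σ), by positivity, ?_⟩
  intro s hs
  have he : 0 < √s := Real.sqrt_pos.2 hs
  have hK2 : 0 < K + 2 + 4 * c.C + K * (c.σ * √c.σ) := by positivity
  rcases le_or_gt c.σ s with h | h
  · obtain ⟨h0, h1, h2⟩ := c.θ_zero h
    rw [h0, h1, h2]
    simp only [abs_zero, mul_zero, add_zero]
    refine ⟨?_, ?_, ?_, ?_⟩ <;> positivity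
  obtain ⟨hK3, hK4⟩ := hKs s hs h
  have hG1 := Gg1_nonneg (psi (8 * c.C) s - c.τ)
  have hG1' := Gg1_le_one (psi (8 * c.C) s - c.τ)
  have hG2 := Gg2_nonneg (psi (8 * c.C) s - c.τ)
  have hp1 := c.psi1_abs hs h
  have hp2 := c.psi2_abs hs h
  have hKσ : 0 ≤ K * (c.σ * √c.σ) := by positivity
  refine ⟨?_, ?_, ?_, ?_⟩
  · have h1 : c.θ s ≤ 1 / s := by
      rcases le_or_gt (psi (8 * c.C) s - c.τ) 0 with hx | hx
      · have : c.θ s = 0 := (Gg_of_nonpos hx).1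
        rw [this]
        positivity
      · have h2 := Gg_le hx
        have h3 := c.psi_le hs
        have h4 : c.θ s = Gg (psi (8 * c.C) s - c.τ) := rfl
        rw [h4]
        linarith
    rw [abs_of_nonneg (c.θ_nonneg hs)]
    refine h1.trans ?_
    apply div_le_div_of_nonneg_right _ hs.le
    linarith
  · have h4 : c.θ1 s = Gg1 (psi (8 * c.C) s - c.τ) * psi1 (8 * c.C) s := rfl
    rw [h4, abs_mul, abs_of_nonneg hG1]
    calc Gg1 (psi (8 * c.C) s - c.τ) * |psi1 (8 * c.C) s| ≤ 1 * (1 / s ^ 2) :=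
          mul_le_mul hG1' hp1 (abs_nonneg _) zero_le_one
      _ ≤ (K + 2 + 4 * c.C + K * (c.σ * √c.σ)) / s ^ 2 := by
          rw [one_mul]
          apply div_le_div_of_nonneg_right _ (by positivity)
          linarith
  · have h4 : c.θ2 s = Gg2 (psi (8 * c.C) s - c.τ) * psi1 (8 * c.C) s ^ 2 +
        Gg1 (psi (8 * c.C) s - c.τ) * psi2 (8 * c.C) s := rfl
    rw [abs_of_nonneg (c.θ2_nonneg hs), h4]
    have h5 : Gg1 (psi (8 * c.C) s - c.τ) * psi2 (8 * c.C) s ≤ 2 / s ^ 3 := by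
      calc Gg1 (psi (8 * c.C) s - c.τ) * psi2 (8 * c.C) s ≤
            Gg1 (psi (8 * c.C) s - c.τ) * |psi2 (8 * c.C) s| :=
            mul_le_mul_of_nonneg_left (le_abs_self _) hG1
        _ ≤ 1 * (2 / s ^ 3) := mul_le_mul hG1' hp2 (abs_nonneg _) zero_le_one
        _ = 2 / s ^ 3 := one_mul _
    calc Gg2 (psi (8 * c.C) s - c.τ) * psi1 (8 * c.C) s ^ 2 +
        Gg1 (psi (8 * c.C) s - c.τ) * psi2 (8 * c.C) s ≤ K / s ^ 3 + 2 / s ^ 3 :=
          add_le_add hK3 h5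
      _ = (K + 2) / s ^ 3 := by ring
      _ ≤ (K + 2 + 4 * c.C + K * (c.σ * √c.σ)) / s ^ 3 := by
          apply div_le_div_of_nonneg_right _ (by positivity)
          linarith
  · have h4 : s * c.θ2 s + 2 * c.θ1 s = s * (Gg2 (psi (8 * c.C) s - c.τ) * psi1 (8 * c.C) s ^ 2) +
        Gg1 (psi (8 * c.C) s - c.τ) * (s * psi2 (8 * c.C) s + 2 * psi1 (8 * c.C) s) := by
      unfold θ2 θ1 Th2 Th1
      ring
    have h5 : s * psi2 (8 * c.C) s + 2 * psi1 (8 * c.C) s = 4 * c.C / (s * √s) := by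
      have hse : √s ^ 2 = s := Real.sq_sqrt hs.le
      rw [psi2_eq _ hs, psi1_eq _ hs]
      generalize √s = e at *
      subst hse
      field_simp
      ring
    rw [h4, h5]
    have h6 : 0 ≤ s * (Gg2 (psi (8 * c.C) s - c.τ) * psi1 (8 * c.C) s ^ 2) := by positivity
    have h7 : 0 ≤ Gg1 (psi (8 * c.C) s - c.τ) * (4 * c.C / (s * √s)) := by positivity
    rw [abs_of_nonneg (add_nonneg h6 h7)]
    have h8 : s * (Gg2 (psi (8 * c.C) s - c.τ) * psi1 (8 * c.C) s ^ 2) ≤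
        K * (c.σ * √c.σ) / (s * √s) := by
      have h9 : s * (Gg2 (psi (8 * c.C) s - c.τ) * psi1 (8 * c.C) s ^ 2) ≤ K := by
        calc s * (Gg2 (psi (8 * c.C) s - c.τ) * psi1 (8 * c.C) s ^ 2) ≤ s * (K / s) :=
              mul_le_mul_of_nonneg_left hK4 hs.le
          _ = K := by field_simp
      refine h9.trans ?_
      rw [le_div_iff₀ (by positivity)]
      apply mul_le_mul_of_nonneg_left _ hK.le
      exact mul_le_mul h.le (Real.sqrt_le_sqrt h.le) he.le hσ.le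
    have h10 : Gg1 (psi (8 * c.C) s - c.τ) * (4 * c.C / (s * √s)) ≤ 4 * c.C / (s * √s) := by
      have : 0 ≤ 4 * c.C / (s * √s) := by positivity
      nlinarith
    calc s * (Gg2 (psi (8 * c.C) s - c.τ) * psi1 (8 * c.C) s ^ 2) +
        Gg1 (psi (8 * c.C) s - c.τ) * (4 * c.C / (s * √s)) ≤
          K * (c.σ * √c.σ) / (s * √s) + 4 * c.C / (s * √s) := add_le_add h8 h10
      _ = (4 * c.C + K * (c.σ * √c.σ)) / (s * √s) := by ring
      _ ≤ (K + 2 + 4 * c.C + K * (c.σ * √c.σ)) / (s * √s) := by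
          apply div_le_div_of_nonneg_right _ (by positivity)
          linarith

theorem θ2_asymp : Tendsto (fun s => s ^ 3 * c.θ2 s) (𝓝[>] 0) (𝓝 2) := by
  have hτ := c.τ_pos
  have hσ := c.hσ
  have hC := c.hC
  -- lower and upper bounds
  have hsq : Tendsto (fun s : ℝ => √s) (𝓝[>] 0) (𝓝 0) := by
    have h := (Real.continuous_sqrt.tendsto 0).mono_left (nhdsWithin_le_nhds (s := Ioi 0))
    simpa using h
  have hid : Tendsto (fun s : ℝ => s) (𝓝[>] 0) (𝓝 0) :=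
    tendsto_id.mono_left nhdsWithin_le_nhds
  have hlow : Tendsto (fun s : ℝ => (1 - 4 * s) * (2 - 3 / 2 * (8 * c.C) * √s)) (𝓝[>] 0)
      (𝓝 ((1 - 4 * 0) * (2 - 3 / 2 * (8 * c.C) * 0))) :=
    (tendsto_const_nhds.sub (tendsto_const_nhds.mul hid)).mul
      (tendsto_const_nhds.sub (tendsto_const_nhds.mul hsq))
  have hup : Tendsto (fun s : ℝ => 64 * s ^ 2 + (2 - 3 / 2 * (8 * c.C) * √s)) (𝓝[>] 0)
      (𝓝 (64 * 0 ^ 2 + (2 - 3 / 2 * (8 * c.C) * 0))) :=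
    (tendsto_const_nhds.mul (hid.pow 2)).add
      (tendsto_const_nhds.sub (tendsto_const_nhds.mul hsq))
  have e1 : (1 - 4 * 0) * (2 - 3 / 2 * (8 * c.C) * 0) = 2 := by ring
  have e2 : 64 * 0 ^ 2 + (2 - 3 / 2 * (8 * c.C) * 0) = 2 := by ring
  rw [e1] at hlow
  rw [e2] at hup
  have hev : ∀ᶠ s in 𝓝[>] (0 : ℝ), 0 < s ∧ s < c.σ ∧ s ≤ 1 / (4 * c.τ) := by
    have h1 : Ioo (0 : ℝ) (min c.σ (1 / (4 * c.τ))) ∈ 𝓝[>] (0 : ℝ) :=
      Ioo_mem_nhdsGT (by positivity)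
    filter_upwards [h1] with s hs
    exact ⟨hs.1, lt_of_lt_of_le hs.2 (min_le_left _ _), (lt_of_lt_of_le hs.2 (min_le_right _ _)).le⟩
  refine tendsto_of_tendsto_of_tendsto_of_le_of_le' hlow hup ?_ ?_
  · filter_upwards [hev] with s hs
    obtain ⟨hs0, hs1, hs2⟩ := hs
    have hb := c.sqrt_bound hs0 hs1
    have hx1 := c.arg_ge hs0 hs1 hs2
    have hx : 0 < psi (8 * c.C) s - c.τ := lt_of_lt_of_le (by positivity) hx1
    have h1 := Gg1_ge' hx
    have h3 : (psi (8 * c.C) s - c.τ)⁻¹ ≤ 4 * s := by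
      rw [inv_le_comm₀ hx (by positivity)]
      simpa using hx1
    have hG2 := Gg2_nonneg (psi (8 * c.C) s - c.τ)
    have h4 : s ^ 3 * c.θ2 s = s ^ 3 * (Gg2 (psi (8 * c.C) s - c.τ) * psi1 (8 * c.C) s ^ 2) +
        Gg1 (psi (8 * c.C) s - c.τ) * (s ^ 3 * psi2 (8 * c.C) s) := by
      unfold θ2 Th2
      ring
    have h5 : s ^ 3 * psi2 (8 * c.C) s = 2 - 3 / 2 * (8 * c.C) * √s := by
      rw [psi2_eq _ hs0]
      field_simp
    rw [h4, h5]
    have h6 : 0 ≤ s ^ 3 * (Gg2 (psi (8 * c.C) s - c.τ) * psi1 (8 * c.C) s ^ 2) := by positivity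
    have h7 : 0 ≤ 2 - 3 / 2 * (8 * c.C) * √s := by linarith
    have h8 : (1 - 4 * s) * (2 - 3 / 2 * (8 * c.C) * √s) ≤
        Gg1 (psi (8 * c.C) s - c.τ) * (2 - 3 / 2 * (8 * c.C) * √s) :=
      mul_le_mul_of_nonneg_right (by linarith) h7
    linarith
  · filter_upwards [hev] with s hs
    obtain ⟨hs0, hs1, hs2⟩ := hs
    have hb := c.sqrt_bound hs0 hs1
    have hG1 := Gg1_nonneg (psi (8 * c.C) s - c.τ)
    have hG1' := Gg1_le_one (psi (8 * c.C) s - c.τ)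
    have h3 := c.Gg2_small hs0 hs1 hs2
    have hp : psi1 (8 * c.C) s ^ 2 ≤ 1 / s ^ 4 := by
      have h1 := c.psi1_abs hs0 hs1
      have h2 : psi1 (8 * c.C) s ^ 2 = |psi1 (8 * c.C) s| ^ 2 := (sq_abs _).symm
      rw [h2]
      calc |psi1 (8 * c.C) s| ^ 2 ≤ (1 / s ^ 2) ^ 2 := pow_le_pow_left₀ (abs_nonneg _) h1 2
        _ = 1 / s ^ 4 := by field_simp
    have h4 : s ^ 3 * c.θ2 s = s ^ 3 * (Gg2 (psi (8 * c.C) s - c.τ) * psi1 (8 * c.C) s ^ 2) +
        Gg1 (psi (8 * c.C) s - c.τ) * (s ^ 3 * psi2 (8 * c.C) s) := by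
      unfold θ2 Th2
      ring
    have h5 : s ^ 3 * psi2 (8 * c.C) s = 2 - 3 / 2 * (8 * c.C) * √s := by
      rw [psi2_eq _ hs0]
      field_simp
    rw [h4, h5]
    have h6 : s ^ 3 * (Gg2 (psi (8 * c.C) s - c.τ) * psi1 (8 * c.C) s ^ 2) ≤ 64 * s ^ 2 := by
      calc s ^ 3 * (Gg2 (psi (8 * c.C) s - c.τ) * psi1 (8 * c.C) s ^ 2) ≤
            s ^ 3 * ((64 * s ^ 3) * (1 / s ^ 4)) := by
            apply mul_le_mul_of_nonneg_left _ (by positivity)
            exact mul_le_mul h3 hp (sq_nonneg _) (by positivity)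
        _ = 64 * s ^ 2 := by field_simp
    have h7 : 0 ≤ 2 - 3 / 2 * (8 * c.C) * √s := by linarith
    have h8 : Gg1 (psi (8 * c.C) s - c.τ) * (2 - 3 / 2 * (8 * c.C) * √s) ≤
        2 - 3 / 2 * (8 * c.C) * √s := by nlinarith
    linarith

end Cst

/-- the constants can be chosen with `σ` small -/
theorem exists_cst (C σ0 : ℝ) (hσ0 : 0 < σ0) : ∃ c : Cst, C ≤ c.C ∧ c.σ ≤ σ0 := by
  have hC : 0 < max C 1 := lt_of_lt_of_le zero_lt_one (le_max_right _ _)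
  have hpos : 0 < min σ0 ((1 / (32 * max C 1)) ^ 2) := lt_min hσ0 (by positivity)
  refine ⟨⟨max C 1, hC, 1 / min σ0 ((1 / (32 * max C 1)) ^ 2), min σ0 ((1 / (32 * max C 1)) ^ 2),
    hpos, ?_, le_rfl⟩, le_max_left _ _, min_le_left _ _⟩
  have h1 : √(min σ0 ((1 / (32 * max C 1)) ^ 2)) ≤ √((1 / (32 * max C 1)) ^ 2) :=
    Real.sqrt_le_sqrt (min_le_right _ _)
  rwa [Real.sqrt_sq (by positivity)] at h1

end Sing
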