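import Pool.Agent.Work.MP_3893a0_gt.ParDefs

/-! Module PAR2: the quadratic form `q`. -/

open scoped ContDiff Topology BoundedContinuousFunction
open MeasureTheory Metric Set Filter

noncomputable section

namespace Sing

instance instHaarE : (volume : Measure E).IsAddHaarMeasure := by
  rw [Measure.volume_eq_prod]
  infer_instance

/-- upper triangular complex linear map `(v₁, v₂) ↦ (a v₁ + b v₂, d v₂)` -/
def triMap (a b d : ℂ) : E →ₗ[ℂ] E :=
  Matrix.toLin (Module.Basis.finTwoProd ℂ) (Module.Basis.finTwoProd ℂ) !![a, b; 0, d]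

lemma triMap_apply (a b d : ℂ) (v : E) : triMap a b d v = (a * v.1 + b * v.2, d * v.2) := by
  unfold triMap
  rw [Matrix.toLin_finTwoProd_apply]
  simp

lemma det_triMap (a b d : ℂ) :
    LinearMap.det ((triMap a b d).restrictScalars ℝ) = ‖a * d‖ ^ 2 := by
  rw [LinearMap.det_restrictScalars, Algebra.norm_complex_apply]
  unfold triMap
  rw [LinearMap.det_toLin, Matrix.det_fin_two_of, Complex.normSq_eq_norm_sq]
  simp

lemma integral_triMap (a b d : ℂ) (h : a * d ≠ 0) (f : E → ℝ) (hf : Continuous f) :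
    ∫ v : E, f (a * v.1 + b * v.2, d * v.2) = (‖a * d‖ ^ 2)⁻¹ * ∫ v : E, f v := by
  set T := (triMap a b d).restrictScalars ℝ with hT
  have hTc : Continuous T := T.continuous_of_finiteDimensional
  have h0 : LinearMap.det T ≠ 0 := by
    rw [hT, det_triMap]
    positivity
  have h1 := Measure.map_linearMap_addHaar_eq_smul_addHaar (volume : Measure E) h0
  have h2 : ∫ v : E, f (T v) = ∫ v, f v ∂(Measure.map T volume) :=
    (integral_map hTc.aemeasurable hf.aestronglyMeasurable).symm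
  have h3 : ∀ v : E, T v = (a * v.1 + b * v.2, d * v.2) := fun v => triMap_apply a b d v
  simp only [h3] at h2
  rw [h2, h1, integral_smul_measure, hT, det_triMap, ENNReal.toReal_ofReal (abs_nonneg _),
    abs_of_nonneg (by positivity), smul_eq_mul]

lemma integrable_kap : Integrable (fun v : E => 8 * (‖v.1‖ ^ 2 + ‖v.2‖ ^ 2 + 1)⁻¹ ^ 3) := by
  have h1 : Integrable (fun x : E => ((1 : ℝ) + ‖x‖ ^ 2) ^ (-(6 : ℝ) / 2)) volume := by
    apply integrable_rpow_neg_one_add_norm_sq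
    have : Module.finrank ℝ E = 4 := by
      simp [E, Module.finrank_prod, Complex.finrank_real_complex]
    rw [this]
    norm_num
  refine (h1.const_mul 8).mono' ?_ (Eventually.of_forall fun v => ?_)
  · apply Continuous.aestronglyMeasurable
    have : ∀ v : E, ‖v.1‖ ^ 2 + ‖v.2‖ ^ 2 + 1 ≠ 0 := fun v => by positivity
    fun_prop (disch := assumption)
  · have e1 : ((1 : ℝ) + ‖v‖ ^ 2) ^ (-(6 : ℝ) / 2) = (1 + ‖v‖ ^ 2)⁻¹ ^ 3 := by
      rw [show (-(6 : ℝ) / 2) = -(3 : ℕ) by norm_num, Real.rpow_neg (by positivity),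
        Real.rpow_natCast, inv_pow]
    rw [e1, Real.norm_of_nonneg (by positivity)]
    have : ‖v‖ ^ 2 ≤ ‖v.1‖ ^ 2 + ‖v.2‖ ^ 2 := by
      rw [Prod.norm_def]
      rcases max_choice ‖v.1‖ ‖v.2‖ with h | h <;> rw [h] <;>
        nlinarith [sq_nonneg ‖v.1‖, sq_nonneg ‖v.2‖]
    gcongr 8 * (?_)⁻¹ ^ 3
    linarith

theorem kap0_pos : 0 < kap0 := by
  unfold kap0
  rw [integral_pos_iff_support_of_nonneg (fun v => by positivity) integrable_kap]
  have : Function.support (fun v : E => 8 * (‖v.1‖ ^ 2 + ‖v.2‖ ^ 2 + 1)⁻¹ ^ 3) = univ := by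
    ext v
    simp only [Function.mem_support, mem_univ, iff_true]
    positivity
  rw [this]
  exact isOpen_univ.measure_pos _ ⟨0, trivial⟩

namespace LocCoef

variable (A : LocCoef)

lemma D_pos {w : E} (hw : ‖w‖ < 4) : 0 < A.D w := A.det_pos w (by simpa using hw)

lemma a11_pos {w : E} (hw : ‖w‖ < 4) : 0 < A.a11 w := A.pos w (by simpa using hw)

lemma a22_pos {w : E} (hw : ‖w‖ < 4) : 0 < A.a22 w := by
  have h1 := A.D_pos hw
  have h2 := A.a11_pos hw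
  unfold D at h1
  have : 0 < A.a11 w * A.a22 w := by nlinarith [sq_nonneg ‖A.c w‖]
  exact (pos_iff_pos_of_mul_pos this).1 h2

/-- numerator of `q` -/
def num (w v : E) : ℝ :=
  A.a22 w * ‖v.1‖ ^ 2 + A.a11 w * ‖v.2‖ ^ 2 -
    2 * (starRingEnd ℂ (A.c w) * (starRingEnd ℂ v.1 * v.2)).re

lemma re_bound (w v : E) :
    |(starRingEnd ℂ (A.c w) * (starRingEnd ℂ v.1 * v.2)).re| ≤ ‖A.c w‖ * ‖v.1‖ * ‖v.2‖ := by
  refine (Complex.abs_re_le_norm _).trans (le_of_eq ?_)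
  simp [mul_assoc]

lemma num_lower {w : E} (hw : ‖w‖ < 4) (v : E) :
    A.D w * (‖v.1‖ ^ 2 + ‖v.2‖ ^ 2) ≤ (A.a11 w + A.a22 w) * A.num w v := by
  have h1 := A.a11_pos hw
  have h2 := A.a22_pos hw
  have h3 := (abs_le.1 (A.re_bound w v)).2
  set x := ‖v.1‖
  set y := ‖v.2‖
  set k := ‖A.c w‖
  set R := (starRingEnd ℂ (A.c w) * (starRingEnd ℂ v.1 * v.2)).re
  have e : (A.a11 w + A.a22 w) * (A.a22 w * x ^ 2 + A.a11 w * y ^ 2 - 2 * (k * x * y)) -
      (A.a11 w * A.a22 w - k ^ 2) * (x ^ 2 + y ^ 2) =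
      (A.a22 w * x - k * y) ^ 2 + (A.a11 w * y - k * x) ^ 2 := by ring
  have h4 : (A.a11 w + A.a22 w) * (A.a22 w * x ^ 2 + A.a11 w * y ^ 2 - 2 * (k * x * y)) ≤
      (A.a11 w + A.a22 w) * (A.a22 w * x ^ 2 + A.a11 w * y ^ 2 - 2 * R) := by
    apply mul_le_mul_of_nonneg_left _ (by positivity)
    linarith
  have h5 := add_nonneg (sq_nonneg (A.a22 w * x - k * y)) (sq_nonneg (A.a11 w * y - k * x))
  show (A.a11 w * A.a22 w - k ^ 2) * (x ^ 2 + y ^ 2) ≤
      (A.a11 w + A.a22 w) * (A.a22 w * x ^ 2 + A.a11 w * y ^ 2 - 2 * R)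
  linarith

lemma num_upper {w : E} (hw : ‖w‖ < 4) (v : E) :
    A.num w v ≤ (A.a11 w + A.a22 w) * (‖v.1‖ ^ 2 + ‖v.2‖ ^ 2) := by
  have h1 := A.a11_pos hw
  have h2 := A.a22_pos hw
  have hD := A.D_pos hw
  have h3 := (abs_le.1 (A.re_bound w v)).1
  unfold D at hD
  unfold num
  set x := ‖v.1‖
  set y := ‖v.2‖
  set k := ‖A.c w‖
  set R := (starRingEnd ℂ (A.c w) * (starRingEnd ℂ v.1 * v.2)).re
  have h4 : 0 ≤ A.a11 w * (A.a11 w * x ^ 2 + A.a22 w * y ^ 2 - 2 * (k * x * y)) := by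
    have : A.a11 w * (A.a11 w * x ^ 2 + A.a22 w * y ^ 2 - 2 * (k * x * y)) =
        (A.a11 w * x - k * y) ^ 2 + (A.a11 w * A.a22 w - k ^ 2) * y ^ 2 := by ring
    rw [this]
    positivity
  have h5 := nonneg_of_mul_nonneg_right h4 h1
  nlinarith

lemma q_eq (w v : E) : A.q w v = A.num w v / A.D w := rfl

lemma q_nonneg {w : E} (hw : ‖w‖ < 4) (v : E) : 0 ≤ A.q w v := by
  rw [q_eq]
  have h1 := A.a11_pos hw
  have h2 := A.a22_pos hw
  have hD := A.D_pos hw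
  have := A.num_lower hw v
  have h0 : 0 ≤ A.D w * (‖v.1‖ ^ 2 + ‖v.2‖ ^ 2) := by positivity
  have h3 := nonneg_of_mul_nonneg_right (h0.trans this) (by positivity)
  positivity

lemma norm_sq_le (v : E) : ‖v‖ ^ 2 ≤ ‖v.1‖ ^ 2 + ‖v.2‖ ^ 2 := by
  rw [Prod.norm_def]
  rcases max_choice ‖v.1‖ ‖v.2‖ with h | h <;> rw [h] <;> nlinarith [sq_nonneg ‖v.1‖, sq_nonneg ‖v.2‖]

lemma le_two_norm_sq (v : E) : ‖v.1‖ ^ 2 + ‖v.2‖ ^ 2 ≤ 2 * ‖v‖ ^ 2 := by
  have h1 := norm_fst_le v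
  have h2 := norm_snd_le v
  nlinarith [norm_nonneg v.1, norm_nonneg v.2]

lemma cont11 : ContinuousOn A.a11 (closedBall 0 3) :=
  A.smooth11.continuousOn.mono (closedBall_subset_ball (by norm_num))

lemma cont22 : ContinuousOn A.a22 (closedBall 0 3) :=
  A.smooth22.continuousOn.mono (closedBall_subset_ball (by norm_num))

lemma contc : ContinuousOn A.c (closedBall 0 3) :=
  A.smoothc.continuousOn.mono (closedBall_subset_ball (by norm_num))

lemma contD : ContinuousOn A.D (closedBall 0 3) :=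
  (A.cont11.mul A.cont22).sub (A.contc.norm.pow 2)

/-- uniform bounds for the coefficients on the ball of radius `3` -/
lemma coef_bounds : ∃ M > 0, ∃ d > 0, ∀ w : E, ‖w‖ ≤ 3 →
    A.a11 w ≤ M ∧ A.a22 w ≤ M ∧ ‖A.c w‖ ≤ M ∧ d ≤ A.D w := by
  have hK : IsCompact (closedBall (0 : E) 3) := isCompact_closedBall _ _
  obtain ⟨M1, h1⟩ := hK.exists_bound_of_continuousOn A.cont11
  obtain ⟨M2, h2⟩ := hK.exists_bound_of_continuousOn A.cont22
  obtain ⟨M3, h3⟩ := hK.exists_bound_of_continuousOn A.contc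
  obtain ⟨x0, hx0, hmin⟩ := hK.exists_isMinOn ⟨0, by simp⟩ A.contD
  have hx0' : ‖x0‖ < 4 := by
    have : ‖x0‖ ≤ 3 := by simpa using hx0
    linarith
  refine ⟨max 1 (max M1 (max M2 M3)), lt_of_lt_of_le one_pos (le_max_left _ _), A.D x0,
    A.D_pos hx0', fun w hw => ?_⟩
  have hw' : w ∈ closedBall (0 : E) 3 := by simpa using hw
  refine ⟨?_, ?_, ?_, hmin hw'⟩
  · exact ((le_abs_self _).trans (h1 w hw')).trans ((le_max_left _ _).trans (le_max_right _ _))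
  · exact ((le_abs_self _).trans (h2 w hw')).trans
      (((le_max_left _ _).trans (le_max_right _ _)).trans (le_max_right _ _))
  · exact (h3 w hw').trans
      (((le_max_right _ _).trans (le_max_right _ _)).trans (le_max_right _ _))

theorem q_bounds : ∃ b > 0, ∃ B : ℝ, ∀ w : E, ‖w‖ ≤ 3 → ∀ v : E,
    b * ‖v‖ ^ 2 ≤ A.q w v ∧ A.q w v ≤ B * ‖v‖ ^ 2 := by
  obtain ⟨M, hM, d, hd, h⟩ := A.coef_bounds
  refine ⟨1 / (2 * M), by positivity, 4 * M / d, fun w hw v => ?_⟩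
  have hw4 : ‖w‖ < 4 := by linarith
  obtain ⟨h1, h2, h3, h4⟩ := h w hw
  have p1 := A.a11_pos hw4
  have p2 := A.a22_pos hw4
  have pD := A.D_pos hw4
  have l1 := A.num_lower hw4 v
  have l2 := A.num_upper hw4 v
  have n1 := norm_sq_le v
  have n2 := le_two_norm_sq v
  have hn : 0 ≤ A.num w v := by
    have h0 : 0 ≤ A.D w * (‖v.1‖ ^ 2 + ‖v.2‖ ^ 2) := by positivity
    exact nonneg_of_mul_nonneg_right (h0.trans l1) (by positivity)
  rw [q_eq]
  constructor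
  · rw [le_div_iff₀ pD]
    have e1 : A.D w * ‖v‖ ^ 2 ≤ 2 * M * A.num w v := by
      calc A.D w * ‖v‖ ^ 2 ≤ A.D w * (‖v.1‖ ^ 2 + ‖v.2‖ ^ 2) := by gcongr
        _ ≤ (A.a11 w + A.a22 w) * A.num w v := l1
        _ ≤ 2 * M * A.num w v := by
          apply mul_le_mul_of_nonneg_right _ hn
          linarith
    calc 1 / (2 * M) * ‖v‖ ^ 2 * A.D w = (A.D w * ‖v‖ ^ 2) / (2 * M) := by ring
      _ ≤ (2 * M * A.num w v) / (2 * M) := by gcongr
      _ = A.num w v := by field_simp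
  · rw [div_le_iff₀ pD]
    calc A.num w v ≤ (A.a11 w + A.a22 w) * (‖v.1‖ ^ 2 + ‖v.2‖ ^ 2) := l2
      _ ≤ (2 * M) * (2 * ‖v‖ ^ 2) := by
        apply mul_le_mul _ n2 (by positivity) (by positivity)
        linarith
      _ = 4 * M / d * ‖v‖ ^ 2 * d := by field_simp; ring
      _ ≤ 4 * M / d * ‖v‖ ^ 2 * A.D w := by gcongr

/-- joint smoothness of `(ξ, w) ↦ q(w, ξ - w)` -/
theorem q_smooth : ContDiffOn ℝ ∞ (fun p : E × E => A.q p.2 (p.1 - p.2))
    {p | ‖p.2‖ < 4} := by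
  have hm : MapsTo (fun p : E × E => p.2) {p | ‖p.2‖ < 4} (ball (0 : E) 4) := by
    intro p hp
    simpa using hp
  have h11 : ContDiffOn ℝ ∞ (fun p : E × E => A.a11 p.2) {p | ‖p.2‖ < 4} :=
    A.smooth11.comp contDiff_snd.contDiffOn hm
  have h22 : ContDiffOn ℝ ∞ (fun p : E × E => A.a22 p.2) {p | ‖p.2‖ < 4} :=
    A.smooth22.comp contDiff_snd.contDiffOn hm
  have hc : ContDiffOn ℝ ∞ (fun p : E × E => A.c p.2) {p | ‖p.2‖ < 4} :=
    A.smoothc.comp contDiff_snd.contDiffOn hm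
  have hv1 : ContDiff ℝ ∞ (fun p : E × E => (p.1 - p.2).1) :=
    contDiff_fst.comp (contDiff_fst.sub contDiff_snd)
  have hv2 : ContDiff ℝ ∞ (fun p : E × E => (p.1 - p.2).2) :=
    contDiff_snd.comp (contDiff_fst.sub contDiff_snd)
  have hn1 : ContDiff ℝ ∞ (fun p : E × E => ‖(p.1 - p.2).1‖ ^ 2) := hv1.norm_sq ℝ
  have hn2 : ContDiff ℝ ∞ (fun p : E × E => ‖(p.1 - p.2).2‖ ^ 2) := hv2.norm_sq ℝ
  have hconj : ContDiff ℝ ∞ (fun z : ℂ => starRingEnd ℂ z) := Complex.conjCLE.contDiff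
  have hre : ContDiff ℝ ∞ (fun z : ℂ => z.re) := Complex.reCLM.contDiff
  have hD : ContDiffOn ℝ ∞ (fun p : E × E => A.D p.2) {p | ‖p.2‖ < 4} :=
    (h11.mul h22).sub (hc.norm_sq ℝ)
  have hD0 : ∀ p ∈ {p : E × E | ‖p.2‖ < 4}, A.D p.2 ≠ 0 := fun p hp => (A.D_pos hp).ne'
  have hR : ContDiffOn ℝ ∞ (fun p : E × E => (starRingEnd ℂ (A.c p.2) *
      (starRingEnd ℂ (p.1 - p.2).1 * (p.1 - p.2).2)).re) {p | ‖p.2‖ < 4} :=
    hre.comp_contDiffOn ((hconj.comp_contDiffOn hc).mul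
      ((hconj.comp hv1).mul hv2).contDiffOn)
  exact (((h22.mul hn1.contDiffOn).add (h11.mul hn2.contDiffOn)).sub
    (contDiffOn_const.mul hR)).div hD hD0

lemma exists_lip {F : Type*} [NormedAddCommGroup F] [NormedSpace ℝ F] {f : E → F}
    (hf : ContDiffOn ℝ ∞ f (ball 0 4)) :
    ∃ K : ℝ, 0 ≤ K ∧ ∀ x y : E, ‖x‖ ≤ 3 → ‖y‖ ≤ 3 → ‖f x - f y‖ ≤ K * ‖x - y‖ := by
  have hloc : LocallyLipschitzOn (closedBall (0 : E) 3) f := by
    intro x hx
    have hx' : x ∈ ball (0 : E) 4 := closedBall_subset_ball (by norm_num) hx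
    have h1 : ContDiffAt ℝ 1 f x :=
      ((hf x hx').contDiffAt (isOpen_ball.mem_nhds hx')).of_le (by norm_num)
    obtain ⟨K, t, ht, hl⟩ := h1.exists_lipschitzOnWith
    exact ⟨K, t, mem_nhdsWithin_of_mem_nhds ht, hl⟩
  obtain ⟨K, hK⟩ := hloc.exists_lipschitzOnWith_of_compact (isCompact_closedBall _ _)
  refine ⟨K, K.2, fun x y hx hy => ?_⟩
  have := hK.dist_le_mul x (by simpa using hx) y (by simpa using hy)
  simpa [dist_eq_norm] using this

/-- the vectors `p`, `r` with `∇q = (2/D) (p, r)` -/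
def pv (w v : E) : ℂ := A.a22 w * v.1 - starRingEnd ℂ (A.c w) * v.2
def rv (w v : E) : ℂ := A.a11 w * v.2 - A.c w * v.1

lemma dq_e1 (w v : E) : A.dq w v e1 = 2 * (A.pv w v).re / A.D w := by
  simp [dq, pv, e1, Complex.mul_re]

lemma dq_ie1 (w v : E) : A.dq w v (Complex.I • e1) = 2 * (A.pv w v).im / A.D w := by
  simp [dq, pv, e1, Complex.mul_re, Complex.mul_im]
  ring

lemma dq_e2 (w v : E) : A.dq w v e2 = 2 * (A.rv w v).re / A.D w := by
  simp [dq, rv, e2, Complex.mul_re]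

lemma dq_ie2 (w v : E) : A.dq w v (Complex.I • e2) = 2 * (A.rv w v).im / A.D w := by
  simp [dq, rv, e2, Complex.mul_re, Complex.mul_im]

/-- Hermitian form with coefficients `(α, β, γ)` at the vectors `p, r` -/
def hf (α β : ℝ) (γ p r : ℂ) : ℝ :=
  α * ‖p‖ ^ 2 + β * ‖r‖ ^ 2 + 2 * (starRingEnd ℂ γ * (starRingEnd ℂ p * r)).re

lemma Gam_eq (ξ w : E) : A.Gam ξ w =
    4 / A.D w ^ 2 * hf (A.a11 ξ) (A.a22 ξ) (A.c ξ) (A.pv w (ξ - w)) (A.rv w (ξ - w)) := by
  unfold Gam hf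
  rw [dq_e1, dq_ie1, dq_e2, dq_ie2]
  generalize A.pv w (ξ - w) = p
  generalize A.rv w (ξ - w) = r
  rw [Complex.sq_norm, Complex.sq_norm, Complex.normSq_apply, Complex.normSq_apply]
  simp only [Complex.mul_re, Complex.conj_re, Complex.conj_im, Complex.mul_im]
  ring

lemma hf_diag (w v : E) (hD : A.D w ≠ 0) :
    hf (A.a11 w) (A.a22 w) (A.c w) (A.pv w v) (A.rv w v) = A.D w ^ 2 * A.q w v := by
  have h1 : A.D w ^ 2 * A.q w v = A.D w * A.num w v := by
    rw [q_eq]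
    field_simp
  rw [h1]
  unfold hf pv rv num D
  simp only [Complex.sq_norm, Complex.normSq_apply]
  simp only [Complex.mul_re, Complex.conj_re, Complex.conj_im, Complex.mul_im, Complex.sub_re,
    Complex.sub_im, Complex.ofReal_re, Complex.ofReal_im]
  ring

lemma hf_sub (α β α' β' : ℝ) (γ γ' p r : ℂ) :
    hf α β γ p r - hf α' β' γ' p r = hf (α - α') (β - β') (γ - γ') p r := by
  unfold hf
  simp only [Complex.mul_re, Complex.conj_re, Complex.conj_im, Complex.mul_im, Complex.sub_re,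
    Complex.sub_im]
  ring

lemma hf_abs (α β : ℝ) (γ p r : ℂ) {k P : ℝ} (h1 : |α| ≤ k) (h2 : |β| ≤ k) (h3 : ‖γ‖ ≤ k)
    (hp : ‖p‖ ≤ P) (hr : ‖r‖ ≤ P) : |hf α β γ p r| ≤ 4 * k * P ^ 2 := by
  have hk : 0 ≤ k := (abs_nonneg _).trans h1
  have hP : 0 ≤ P := (norm_nonneg _).trans hp
  have a1 : |α * ‖p‖ ^ 2| ≤ k * P ^ 2 := by
    rw [abs_mul, abs_of_nonneg (sq_nonneg ‖p‖)]
    gcongr
  have a2 : |β * ‖r‖ ^ 2| ≤ k * P ^ 2 := by
    rw [abs_mul, abs_of_nonneg (sq_nonneg ‖r‖)]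
    gcongr
  have a3 : |(starRingEnd ℂ γ * (starRingEnd ℂ p * r)).re| ≤ k * P ^ 2 := by
    refine (Complex.abs_re_le_norm _).trans ?_
    rw [norm_mul, norm_mul, RCLike.norm_conj, RCLike.norm_conj]
    calc ‖γ‖ * (‖p‖ * ‖r‖) ≤ k * (P * P) := by gcongr
      _ = k * P ^ 2 := by ring
  unfold hf
  rw [abs_le] at *
  constructor <;> linarith [a1.1, a1.2, a2.1, a2.2, a3.1, a3.2]

lemma pv_le {w : E} {M : ℝ} (h0 : 0 ≤ A.a22 w) (h2 : A.a22 w ≤ M) (h3 : ‖A.c w‖ ≤ M) (v : E) :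
    ‖A.pv w v‖ ≤ 2 * M * ‖v‖ := by
  unfold pv
  refine (norm_sub_le _ _).trans ?_
  rw [norm_mul, norm_mul, RCLike.norm_conj, Complex.norm_real, Real.norm_of_nonneg h0]
  have := mul_le_mul h2 (norm_fst_le v) (norm_nonneg _) (h0.trans h2)
  have := mul_le_mul h3 (norm_snd_le v) (norm_nonneg _) (h0.trans h2)
  linarith

lemma rv_le {w : E} {M : ℝ} (h0 : 0 ≤ A.a11 w) (h2 : A.a11 w ≤ M) (h3 : ‖A.c w‖ ≤ M) (v : E) :
    ‖A.rv w v‖ ≤ 2 * M * ‖v‖ := by
  unfold rv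
  refine (norm_sub_le _ _).trans ?_
  rw [norm_mul, norm_mul, Complex.norm_real, Real.norm_of_nonneg h0]
  have := mul_le_mul h2 (norm_snd_le v) (norm_nonneg _) (h0.trans h2)
  have := mul_le_mul h3 (norm_fst_le v) (norm_nonneg _) (h0.trans h2)
  linarith

/-- diagonal values: `Gam = 4 q`, `Bq = 8` when the coefficients at `ξ` and `w` agree; off the
diagonal the error is controlled by the Lipschitz constant of the coefficients -/
theorem Gam_Bq_bounds : ∃ C : ℝ, 0 ≤ C ∧ ∀ ξ w : E, ‖ξ‖ ≤ 3 → ‖w‖ ≤ 2 →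
    4 * A.q w (ξ - w) * (1 - C * √(A.q w (ξ - w))) ≤ A.Gam ξ w ∧
    A.Gam ξ w ≤ 4 * A.q w (ξ - w) * (1 + C * √(A.q w (ξ - w))) ∧
    |A.Bq ξ w - 8| ≤ C * √(A.q w (ξ - w)) := by
  obtain ⟨M, hM, d, hd, hb⟩ := A.coef_bounds
  obtain ⟨b, hb0, -, -, hq⟩ : ∃ b > 0, ∃ B : ℝ, True ∧ ∀ w : E, ‖w‖ ≤ 3 → ∀ v : E,
      b * ‖v‖ ^ 2 ≤ A.q w v := by
    obtain ⟨b, hb0, B, h⟩ := A.q_bounds
    exact ⟨b, hb0, B, trivial, fun w hw v => (h w hw v).1⟩
  obtain ⟨K1, hK1, l1⟩ := exists_lip A.smooth11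
  obtain ⟨K2, hK2, l2⟩ := exists_lip A.smooth22
  obtain ⟨K3, hK3, l3⟩ := exists_lip A.smoothc
  set K := K1 + K2 + K3 with hK
  have hK0 : 0 ≤ K := by positivity
  set C1 : ℝ := 16 * K * M ^ 2 / (d ^ 2 * b * √b) with hC1
  set C2 : ℝ := 16 * K * M / (d * √b) with hC2
  have hC1' : 0 ≤ C1 := by positivity
  have hC2' : 0 ≤ C2 := by positivity
  refine ⟨C1 + C2, by positivity, fun ξ w hξ hw => ?_⟩
  have hw3 : ‖w‖ ≤ 3 := by linarith
  have hw4 : ‖w‖ < 4 := by linarith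
  obtain ⟨h1, h2, h3, h4⟩ := hb w hw3
  have p1 := A.a11_pos hw4
  have p2 := A.a22_pos hw4
  have pD := A.D_pos hw4
  set v := ξ - w with hv
  set Q := A.q w v with hQ
  have hQb := hq w hw3 v
  have hQ0 : 0 ≤ Q := A.q_nonneg hw4 v
  have hsb : 0 < √b := Real.sqrt_pos.2 hb0
  have hvQ : ‖v‖ ≤ √Q / √b := by
    rw [← Real.sqrt_div' _ hb0.le]
    apply Real.le_sqrt_of_sq_le
    rw [le_div_iff₀ hb0]
    linarith
  have g1 : |A.a11 ξ - A.a11 w| ≤ K * ‖v‖ := by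
    have := l1 ξ w hξ hw3
    rw [Real.norm_eq_abs] at this
    refine this.trans ?_
    gcongr
    linarith
  have g2 : |A.a22 ξ - A.a22 w| ≤ K * ‖v‖ := by
    have := l2 ξ w hξ hw3
    rw [Real.norm_eq_abs] at this
    refine this.trans ?_
    gcongr
    linarith
  have g3 : ‖A.c ξ - A.c w‖ ≤ K * ‖v‖ := by
    refine (l3 ξ w hξ hw3).trans ?_
    gcongr
    linarith
  have hGam : |A.Gam ξ w - 4 * Q| ≤ 4 * C1 * (Q * √Q) := by
    have e1 : A.Gam ξ w - 4 * Q = 4 / A.D w ^ 2 *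
        hf (A.a11 ξ - A.a11 w) (A.a22 ξ - A.a22 w) (A.c ξ - A.c w) (A.pv w v) (A.rv w v) := by
      rw [← hf_sub, mul_sub, A.hf_diag w v pD.ne', A.Gam_eq]
      have : A.D w ≠ 0 := pD.ne'
      rw [← hv]
      field_simp
      rfl
    rw [e1, abs_mul, abs_of_pos (by positivity : 0 < 4 / A.D w ^ 2)]
    have e2 := hf_abs _ _ _ _ _ g1 g2 g3 (A.pv_le p2.le h2 h3 v) (A.rv_le p1.le h1 h3 v)
    calc 4 / A.D w ^ 2 * |hf (A.a11 ξ - A.a11 w) (A.a22 ξ - A.a22 w) (A.c ξ - A.c w)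
          (A.pv w v) (A.rv w v)|
        ≤ 4 / d ^ 2 * (4 * (K * ‖v‖) * (2 * M * ‖v‖) ^ 2) := by gcongr
      _ = 64 * K * M ^ 2 / d ^ 2 * (‖v‖ * ‖v‖ ^ 2) := by ring
      _ ≤ 64 * K * M ^ 2 / d ^ 2 * ((√Q / √b) * (Q / b)) := by
        gcongr
        rw [le_div_iff₀ hb0]
        linarith
      _ = 4 * C1 * (Q * √Q) := by
        rw [hC1]
        field_simp
        ring
  have hBq : |A.Bq ξ w - 8| ≤ C2 * √Q := by
    have e1 : A.Bq ξ w - 8 = (4 * (A.a11 ξ - A.a11 w) * A.a22 w +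
        4 * (A.a22 ξ - A.a22 w) * A.a11 w -
        8 * (starRingEnd ℂ (A.c w) * (A.c ξ - A.c w)).re) / A.D w := by
      unfold Bq
      rw [eq_div_iff pD.ne', sub_mul, div_mul_cancel₀ _ pD.ne']
      unfold D
      simp only [Complex.sq_norm, Complex.normSq_apply, Complex.mul_re, Complex.conj_re,
        Complex.conj_im, Complex.sub_re, Complex.sub_im]
      ring
    rw [e1, abs_div, abs_of_pos pD]
    have e2 : |(starRingEnd ℂ (A.c w) * (A.c ξ - A.c w)).re| ≤ M * (K * ‖v‖) := by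
      refine (Complex.abs_re_le_norm _).trans ?_
      rw [norm_mul, RCLike.norm_conj]
      gcongr
    have e3 : |(A.a11 ξ - A.a11 w) * A.a22 w| ≤ (K * ‖v‖) * M := by
      rw [abs_mul, abs_of_pos p2]
      gcongr
    have e4 : |(A.a22 ξ - A.a22 w) * A.a11 w| ≤ (K * ‖v‖) * M := by
      rw [abs_mul, abs_of_pos p1]
      gcongr
    have e5 : |4 * (A.a11 ξ - A.a11 w) * A.a22 w +
        4 * (A.a22 ξ - A.a22 w) * A.a11 w -
        8 * (starRingEnd ℂ (A.c w) * (A.c ξ - A.c w)).re| ≤ 16 * K * M * ‖v‖ := by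
      rw [abs_le] at *
      constructor <;> nlinarith [e2.1, e2.2, e3.1, e3.2, e4.1, e4.2]
    calc _ ≤ (16 * K * M * ‖v‖) / A.D w := by gcongr
      _ ≤ (16 * K * M * (√Q / √b)) / d := by gcongr
      _ = C2 * √Q := by
        rw [hC2]
        field_simp
  have s1 : 0 ≤ √Q := Real.sqrt_nonneg _
  have s2 : 0 ≤ C2 * (Q * √Q) := by positivity
  rw [abs_le] at hGam
  refine ⟨?_, ?_, hBq.trans ?_⟩
  · nlinarith [hGam.1]
  · nlinarith [hGam.2]
  · gcongr
    linarith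

/-- completing the square -/
lemma q_square {w : E} (hw : ‖w‖ < 4) (v : E) :
    A.q w v = ‖((√(A.a22 w / A.D w) : ℝ) : ℂ) * v.1 +
      (-(((√(A.a22 w / A.D w) / A.a22 w : ℝ)) : ℂ) * starRingEnd ℂ (A.c w)) * v.2‖ ^ 2 +
      ‖((√(1 / A.a22 w) : ℝ) : ℂ) * v.2‖ ^ 2 := by
  have p2 := A.a22_pos hw
  have pD := A.D_pos hw
  have hs : √(A.a22 w / A.D w) ^ 2 = A.a22 w / A.D w := Real.sq_sqrt (by positivity)
  have ht : √(1 / A.a22 w) ^ 2 = 1 / A.a22 w := Real.sq_sqrt (by positivity)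
  generalize √(A.a22 w / A.D w) = s at hs
  generalize √(1 / A.a22 w) = t at ht
  have e1 : ‖(s : ℂ) * v.1 + (-((s / A.a22 w : ℝ) : ℂ) * starRingEnd ℂ (A.c w)) * v.2‖ ^ 2 =
      s ^ 2 * ((v.1.re - (starRingEnd ℂ (A.c w) * v.2).re / A.a22 w) ^ 2 +
        (v.1.im - (starRingEnd ℂ (A.c w) * v.2).im / A.a22 w) ^ 2) := by
    rw [Complex.sq_norm, Complex.normSq_apply]
    simp only [Complex.add_re, Complex.add_im, Complex.mul_re, Complex.mul_im, Complex.neg_re,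
      Complex.neg_im, Complex.ofReal_re, Complex.ofReal_im, Complex.conj_re, Complex.conj_im]
    ring
  have e2 : ‖(t : ℂ) * v.2‖ ^ 2 = t ^ 2 * ‖v.2‖ ^ 2 := by
    rw [norm_mul, Complex.norm_real, mul_pow, Real.norm_eq_abs, sq_abs]
  rw [e1, e2, hs, ht, q_eq, div_eq_iff pD.ne']
  have e3 : A.num w v * A.a22 w = A.a22 w ^ 2 *
      ((v.1.re - (starRingEnd ℂ (A.c w) * v.2).re / A.a22 w) ^ 2 +
        (v.1.im - (starRingEnd ℂ (A.c w) * v.2).im / A.a22 w) ^ 2) + A.D w * ‖v.2‖ ^ 2 := by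
    have h0 := p2.ne'
    unfold num D
    simp only [Complex.sq_norm, Complex.normSq_apply, Complex.mul_re, Complex.conj_re,
      Complex.conj_im, Complex.mul_im]
    field_simp
    ring
  have e4 : (A.a22 w / A.D w * ((v.1.re - (starRingEnd ℂ (A.c w) * v.2).re / A.a22 w) ^ 2 +
        (v.1.im - (starRingEnd ℂ (A.c w) * v.2).im / A.a22 w) ^ 2) +
        1 / A.a22 w * ‖v.2‖ ^ 2) * A.D w * A.a22 w = A.a22 w ^ 2 *
      ((v.1.re - (starRingEnd ℂ (A.c w) * v.2).re / A.a22 w) ^ 2 +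
        (v.1.im - (starRingEnd ℂ (A.c w) * v.2).im / A.a22 w) ^ 2) + A.D w * ‖v.2‖ ^ 2 := by
    have h0 := p2.ne'
    have h1 := pD.ne'
    generalize (v.1.re - (starRingEnd ℂ (A.c w) * v.2).re / A.a22 w) ^ 2 +
        (v.1.im - (starRingEnd ℂ (A.c w) * v.2).im / A.a22 w) ^ 2 = X
    field_simp
  exact mul_right_cancel₀ p2.ne' (e3.trans e4.symm)

/-- the total mass (complete the square, translate and dilate) -/
theorem integral_q {w : E} (hw : ‖w‖ < 4) :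
    ∫ v : E, 8 * (A.q w v + 1)⁻¹ ^ 3 = kap0 * A.D w := by
  have p2 := A.a22_pos hw
  have pD := A.D_pos hw
  have hs : √(A.a22 w / A.D w) ^ 2 = A.a22 w / A.D w := Real.sq_sqrt (by positivity)
  have ht : √(1 / A.a22 w) ^ 2 = 1 / A.a22 w := Real.sq_sqrt (by positivity)
  have hs0 : √(A.a22 w / A.D w) ≠ 0 := (Real.sqrt_pos.2 (by positivity)).ne'
  have ht0 : √(1 / A.a22 w) ≠ 0 := (Real.sqrt_pos.2 (by positivity)).ne'
  have hcont : Continuous (fun v : E => 8 * (‖v.1‖ ^ 2 + ‖v.2‖ ^ 2 + 1)⁻¹ ^ 3) := by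
    have : ∀ v : E, ‖v.1‖ ^ 2 + ‖v.2‖ ^ 2 + 1 ≠ 0 := fun v => by positivity
    fun_prop (disch := assumption)
  have key := integral_triMap ((√(A.a22 w / A.D w) : ℝ) : ℂ)
    (-(((√(A.a22 w / A.D w) / A.a22 w : ℝ)) : ℂ) * starRingEnd ℂ (A.c w))
    ((√(1 / A.a22 w) : ℝ) : ℂ) (by
      rw [← Complex.ofReal_mul]
      exact_mod_cast mul_ne_zero hs0 ht0) _ hcont
  have e1 : ∀ v : E, 8 * (A.q w v + 1)⁻¹ ^ 3 = 8 * (‖((√(A.a22 w / A.D w) : ℝ) : ℂ) * v.1 +
      (-(((√(A.a22 w / A.D w) / A.a22 w : ℝ)) : ℂ) * starRingEnd ℂ (A.c w)) * v.2‖ ^ 2 +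
      ‖((√(1 / A.a22 w) : ℝ) : ℂ) * v.2‖ ^ 2 + 1)⁻¹ ^ 3 := fun v => by rw [A.q_square hw v]
  simp only [e1]
  rw [key]
  have e2 : (‖((√(A.a22 w / A.D w) : ℝ) : ℂ) * ((√(1 / A.a22 w) : ℝ) : ℂ)‖ ^ 2)⁻¹ = A.D w := by
    rw [norm_mul, Complex.norm_real, Complex.norm_real, Real.norm_eq_abs, Real.norm_eq_abs,
      mul_pow, sq_abs, sq_abs, hs, ht]
    field_simp
  rw [e2, mul_comm]
  rfl

/-- `dq` as a continuous bilinear form -/
def dqB (w : E) : E →L[ℝ] E →L[ℝ] ℝ :=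
  LinearMap.toContinuousLinearMap
    ((LinearMap.toContinuousLinearMap : (E →ₗ[ℝ] ℝ) ≃ₗ[ℝ] (E →L[ℝ] ℝ)).toLinearMap ∘ₗ
      LinearMap.mk₂ ℝ (A.dq w)
        (fun v v' h => by
          simp only [dq, Prod.fst_add, Prod.snd_add, map_add, Complex.mul_re, Complex.add_re,
            Complex.add_im, Complex.mul_im, Complex.conj_re, Complex.conj_im]
          ring)
        (fun r v h => by
          simp only [dq, Prod.smul_fst, Prod.smul_snd, Complex.mul_re, Complex.add_re,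
            Complex.add_im, Complex.mul_im, Complex.conj_re, Complex.conj_im, Complex.real_smul,
            map_mul, Complex.conj_ofReal, Complex.ofReal_re, Complex.ofReal_im, smul_eq_mul]
          ring)
        (fun v h h' => by
          simp only [dq, Prod.fst_add, Prod.snd_add, map_add, Complex.mul_re, Complex.add_re,
            Complex.add_im, Complex.mul_im, Complex.conj_re, Complex.conj_im]
          ring)
        (fun r v h => by
          simp only [dq, Prod.smul_fst, Prod.smul_snd, Complex.mul_re, Complex.add_re,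
            Complex.add_im, Complex.mul_im, Complex.conj_re, Complex.conj_im, Complex.real_smul,
            map_mul, Complex.conj_ofReal, Complex.ofReal_re, Complex.ofReal_im, smul_eq_mul]
          ring))

@[simp] lemma dqB_apply (w v h : E) : A.dqB w v h = A.dq w v h := rfl

lemma dq_symm (w v h : E) : A.dq w v h = A.dq w h v := by
  simp only [dq, Complex.mul_re, Complex.add_re,
            Complex.add_im, Complex.mul_im, Complex.conj_re, Complex.conj_im]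
  ring

lemma dq_self (w v : E) : A.dq w v v = 2 * A.q w v := by
  simp only [dq, q, Complex.mul_re, Complex.add_re, Complex.sq_norm, Complex.normSq_apply,
            Complex.add_im, Complex.mul_im, Complex.conj_re, Complex.conj_im]
  ring

lemma dq_I (w v h : E) : A.dq w (Complex.I • v) (Complex.I • h) = A.dq w v h := by
  simp only [dq, Complex.mul_re, Complex.add_re, Prod.smul_fst, Prod.smul_snd, smul_eq_mul,
            Complex.add_im, Complex.mul_im, Complex.conj_re, Complex.conj_im, Complex.I_re,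
            Complex.I_im]
  ring

lemma hasFDerivAt_dqB (w x : E) :
    HasFDerivAt (fun x => A.dqB w (x - w)) (A.dqB w) x := by
  have h2 : HasFDerivAt (fun x : E => x - w) (ContinuousLinearMap.id ℝ E) x :=
    (hasFDerivAt_id x).sub_const w
  have h3 : HasFDerivAt (fun x => A.dqB w (x - w))
      ((A.dqB w).comp (ContinuousLinearMap.id ℝ E)) x := (A.dqB w).hasFDerivAt.comp x h2
  rwa [ContinuousLinearMap.comp_id] at h3

lemma hasFDerivAt_q (w x : E) :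
    HasFDerivAt (fun x => A.q w (x - w)) (A.dqB w (x - w)) x := by
  have h2 : HasFDerivAt (fun x : E => x - w) (ContinuousLinearMap.id ℝ E) x :=
    (hasFDerivAt_id x).sub_const w
  have h3 := A.hasFDerivAt_dqB w x
  have h4 : HasFDerivAt (fun x => A.dqB w (x - w) (x - w))
      ((A.dqB w (x - w)).comp (ContinuousLinearMap.id ℝ E) + (A.dqB w).flip (x - w)) x :=
    h3.clm_apply h2
  have h5 : (A.dqB w (x - w)).comp (ContinuousLinearMap.id ℝ E) + (A.dqB w).flip (x - w) =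
      (2 : ℝ) • A.dqB w (x - w) := by
    ext h
    · simp only [ContinuousLinearMap.comp_id, _root_.add_apply, ContinuousLinearMap.comp_apply,
        ContinuousLinearMap.flip_apply, _root_.smul_apply, dqB_apply, smul_eq_mul,
        ContinuousLinearMap.inl_apply]
      rw [A.dq_symm w (h, 0) (x - w)]
      ring
    · simp only [ContinuousLinearMap.comp_id, _root_.add_apply, ContinuousLinearMap.comp_apply,
        ContinuousLinearMap.flip_apply, _root_.smul_apply, dqB_apply, smul_eq_mul,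
        ContinuousLinearMap.inr_apply]
      rw [A.dq_symm w (0, h) (x - w)]
      ring
  rw [h5] at h4
  have h6 := h4.const_mul (1 / 2 : ℝ)
  rw [smul_smul, show (1 / 2 * 2 : ℝ) = 1 by norm_num, one_smul] at h6
  have h1 : (fun x => A.q w (x - w)) = fun x => (1 / 2 : ℝ) * A.dqB w (x - w) (x - w) := by
    funext x
    rw [dqB_apply, dq_self]
    ring
  rw [h1]
  exact h6

/-- chain rule -/
theorem Pc_theta {w : E} (hw : ‖w‖ < 4) (f f1 f2 : ℝ → ℝ) {δ : ℝ} (hδ : 0 < δ)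
    (h1 : ∀ s > 0, HasDerivAt f (f1 s) s) (h2 : ∀ s > 0, HasDerivAt f1 (f2 s) s) (ξ : E)
    (hq : ∀ v, 0 ≤ A.q w v) :
    Pc A (fun x => f (A.q w (x - w) + δ)) ξ =
      A.Gam ξ w * f2 (A.q w (ξ - w) + δ) + A.Bq ξ w * f1 (A.q w (ξ - w) + δ) := by
  have hpos : ∀ x : E, 0 < A.q w (x - w) + δ := fun x => by
    have := hq (x - w)
    linarith
  have d1 : ∀ x : E, HasFDerivAt (fun x => f (A.q w (x - w) + δ))
      (f1 (A.q w (x - w) + δ) • A.dqB w (x - w)) x := fun x =>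
    (h1 _ (hpos x)).comp_hasFDerivAt x ((A.hasFDerivAt_q w x).add_const δ)
  have d2 : ∀ x : E, HasFDerivAt (fun x => f1 (A.q w (x - w) + δ))
      (f2 (A.q w (x - w) + δ) • A.dqB w (x - w)) x := fun x =>
    (h2 _ (hpos x)).comp_hasFDerivAt x ((A.hasFDerivAt_q w x).add_const δ)
  have hfd : fderiv ℝ (fun x => f (A.q w (x - w) + δ)) =
      fun x => f1 (A.q w (x - w) + δ) • A.dqB w (x - w) := by
    funext x
    exact (d1 x).fderiv
  have d3 := A.hasFDerivAt_dqB w ξ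
  have d4 := (d2 ξ).smul d3
  have hD2 : ∀ v h : E, fderiv ℝ (fderiv ℝ (fun x => f (A.q w (x - w) + δ))) ξ v h =
      f1 (A.q w (ξ - w) + δ) * A.dq w v h +
        f2 (A.q w (ξ - w) + δ) * (A.dq w (ξ - w) v * A.dq w (ξ - w) h) := by
    intro v h
    rw [hfd]
    have := d4.fderiv
    rw [show (fun x => f1 (A.q w (x - w) + δ) • A.dqB w (x - w)) =
      (fun x => f1 (A.q w (x - w) + δ)) • (fun x => A.dqB w (x - w)) from rfl, this]
    simp only [_root_.smul_apply, _root_.add_apply,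
      ContinuousLinearMap.smulRight_apply, dqB_apply, smul_eq_mul]
    ring
  generalize hX1 : f1 (A.q w (ξ - w) + δ) = X1 at hD2 ⊢
  generalize hX2 : f2 (A.q w (ξ - w) + δ) = X2 at hD2 ⊢
  have hI : Complex.I • Complex.I • e2 = -e2 := by
    rw [smul_smul, Complex.I_mul_I, neg_one_smul]
  have hneg : ∀ v : E, A.dq w v (-e2) = -A.dq w v e2 := fun v => by
    rw [← dqB_apply, ← dqB_apply, map_neg]
  unfold Pc levB
  simp only [hD2]
  rw [hI]
  simp only [A.dq_I, hneg, smul_eq_mul]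
  have v11 : A.dq w e1 e1 = 2 * A.a22 w / A.D w := by
    simp [dq, e1]
  have v22 : A.dq w e2 e2 = 2 * A.a11 w / A.D w := by
    simp [dq, Sing.e2]
  have v12 : A.dq w e1 e2 = -2 * (A.c w).re / A.D w := by
    simp [dq, e1, Sing.e2]
  have v12' : A.dq w e1 (Complex.I • e2) = -2 * (A.c w).im / A.D w := by
    simp [dq, e1, Sing.e2]
  have v12'' : A.dq w (Complex.I • e1) e2 = 2 * (A.c w).im / A.D w := by
    simp [dq, e1, Sing.e2]
  rw [v11, v22, v12, v12', v12'', Gam, Bq]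
  ring

end LocCoef

end Sing
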