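import Pool.Agent.Work.MP_3893a0_gt.Par1
import Pool.Agent.Work.MP_3893a0_gt.Par2

/-! Module PAR3 + PAR4: joint regularity of the kernels and the limit `δ → 0`. -/

open scoped ContDiff Topology BoundedContinuousFunction
open MeasureTheory Metric Set Filter

noncomputable section

set_option linter.unusedSectionVars false

namespace Sing

namespace Par34

/-! ### The scalar functions -/

theorem θ1_smooth (c : Cst) : ContDiffOn ℝ ∞ c.θ1 (Ioi 0) := by
  have h : ContDiffOn ℝ ∞ (deriv c.θ) (Ioi 0) :=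
    c.θ_smooth.deriv_of_isOpen isOpen_Ioi (by simp)
  exact h.congr fun s hs => (c.θ_hasDerivAt hs).deriv.symm

theorem θ2_smooth (c : Cst) : ContDiffOn ℝ ∞ c.θ2 (Ioi 0) := by
  have h : ContDiffOn ℝ ∞ (deriv c.θ1) (Ioi 0) :=
    (θ1_smooth c).deriv_of_isOpen isOpen_Ioi (by simp)
  exact h.congr fun s hs => (c.θ1_hasDerivAt hs).deriv.symm

/-! ### The coefficients -/

theorem D_pos (A : LocCoef) {w : E} (hw : ‖w‖ < 4) : 0 < A.D w :=
  A.det_pos w (by simpa using hw)

theorem D_smooth (A : LocCoef) : ContDiffOn ℝ ∞ A.D (ball 0 4) :=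
  (A.smooth11.mul A.smooth22).sub (A.smoothc.norm_sq ℝ)

theorem q_nonneg (A : LocCoef) {w : E} (hw : ‖w‖ ≤ 3) (v : E) : 0 ≤ A.q w v := by
  obtain ⟨b, hb, B, h⟩ := A.q_bounds
  exact le_trans (by positivity) (h w hw v).1

theorem q_smoothAt (A : LocCoef) {p : E × E} (hp : ‖p.2‖ < 4) :
    ContDiffAt ℝ ∞ (fun p : E × E => A.q p.2 (p.1 - p.2)) p := by
  have ho : IsOpen {p : E × E | ‖p.2‖ < 4} := isOpen_lt (by fun_prop) continuous_const
  exact A.q_smooth.contDiffAt (ho.mem_nhds hp)

theorem D_smoothAt (A : LocCoef) {p : E × E} (hp : ‖p.2‖ < 4) :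
    ContDiffAt ℝ ∞ (fun p : E × E => A.D p.2) p := by
  have h := (D_smooth A).contDiffAt (isOpen_ball.mem_nhds (x := p.2) (by simpa using hp))
  exact h.comp p contDiffAt_snd

theorem fstAt {V : Type*} [NormedAddCommGroup V] [NormedSpace ℝ V] {f : E → V}
    (hf : ContDiffOn ℝ ∞ f (ball 0 4)) {p : E × E} (hp : ‖p.1‖ < 4) :
    ContDiffAt ℝ ∞ (fun p : E × E => f p.1) p := by
  have h := hf.contDiffAt (isOpen_ball.mem_nhds (x := p.1) (by simpa using hp))
  exact h.comp p contDiffAt_fst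

theorem sndAt {V : Type*} [NormedAddCommGroup V] [NormedSpace ℝ V] {f : E → V}
    (hf : ContDiffOn ℝ ∞ f (ball 0 4)) {p : E × E} (hp : ‖p.2‖ < 4) :
    ContDiffAt ℝ ∞ (fun p : E × E => f p.2) p := by
  have h := hf.contDiffAt (isOpen_ball.mem_nhds (x := p.2) (by simpa using hp))
  exact h.comp p contDiffAt_snd

theorem contAt_re {f : E × E → ℂ} {p : E × E} (h : ContinuousAt f p) :
    ContinuousAt (fun x => (f x).re) p := Complex.continuous_re.continuousAt.comp h

theorem contAt_im {f : E × E → ℂ} {p : E × E} (h : ContinuousAt f p) :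
    ContinuousAt (fun x => (f x).im) p := Complex.continuous_im.continuousAt.comp h

theorem dq_contAt (A : LocCoef) (h : E) {p : E × E} (hp : ‖p.2‖ < 4) :
    ContinuousAt (fun p : E × E => A.dq p.2 (p.1 - p.2) h) p := by
  unfold LocCoef.dq
  have h11 := (sndAt A.smooth11 hp).continuousAt
  have h22 := (sndAt A.smooth22 hp).continuousAt
  have hc := (sndAt A.smoothc hp).continuousAt
  have hD := (D_smoothAt A hp).continuousAt
  have hD0 : A.D p.2 ≠ 0 := (D_pos A hp).ne'
  have hcc : ContinuousAt (fun p : E × E => (starRingEnd ℂ) (A.c p.2)) p :=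
    Complex.continuous_conj.continuousAt.comp hc
  have h1 : Continuous (fun p : E × E => (starRingEnd ℂ) (p.1 - p.2).1 * h.1) :=
    (Complex.continuous_conj.comp (by fun_prop)).mul continuous_const
  have h2 : Continuous (fun p : E × E => (starRingEnd ℂ) (p.1 - p.2).2 * h.2) :=
    (Complex.continuous_conj.comp (by fun_prop)).mul continuous_const
  have h3 : Continuous (fun p : E × E => (starRingEnd ℂ) h.1 * (p.1 - p.2).2 +
      (starRingEnd ℂ) (p.1 - p.2).1 * h.2) :=
    (continuous_const.mul (by fun_prop)).add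
      ((Complex.continuous_conj.comp (by fun_prop)).mul continuous_const)
  exact ContinuousAt.div (continuousAt_const.mul (((h22.mul (contAt_re h1.continuousAt)).add
    (h11.mul (contAt_re h2.continuousAt))).sub (contAt_re (hcc.mul h3.continuousAt)))) hD hD0

theorem Gam_contAt (A : LocCoef) {p : E × E} (hp1 : ‖p.1‖ < 4) (hp : ‖p.2‖ < 4) :
    ContinuousAt (fun p : E × E => A.Gam p.1 p.2) p := by
  unfold LocCoef.Gam
  have h11 := (fstAt A.smooth11 hp1).continuousAt
  have h22 := (fstAt A.smooth22 hp1).continuousAt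
  have hc := (fstAt A.smoothc hp1).continuousAt
  have hr := contAt_re hc
  have hi := contAt_im hc
  have q1 := dq_contAt A e1 hp
  have q2 := dq_contAt A e2 hp
  have q3 := dq_contAt A (Complex.I • e1) hp
  have q4 := dq_contAt A (Complex.I • e2) hp
  exact (((h11.mul ((q1.pow 2).add (q3.pow 2))).add (h22.mul ((q2.pow 2).add (q4.pow 2)))).add
    ((continuousAt_const.mul hr).mul ((q1.mul q2).add (q3.mul q4)))).add
    ((continuousAt_const.mul hi).mul ((q1.mul q4).sub (q3.mul q2)))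

theorem Bq_contAt (A : LocCoef) {p : E × E} (hp1 : ‖p.1‖ < 4) (hp : ‖p.2‖ < 4) :
    ContinuousAt (fun p : E × E => A.Bq p.1 p.2) p := by
  unfold LocCoef.Bq
  have h11 := (fstAt A.smooth11 hp1).continuousAt
  have h22 := (fstAt A.smooth22 hp1).continuousAt
  have hc := (fstAt A.smoothc hp1).continuousAt
  have k11 := (sndAt A.smooth11 hp).continuousAt
  have k22 := (sndAt A.smooth22 hp).continuousAt
  have kc := (sndAt A.smoothc hp).continuousAt
  have hD := (D_smoothAt A hp).continuousAt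
  have hD0 : A.D p.2 ≠ 0 := (D_pos A hp).ne'
  exact ((((continuousAt_const.mul h11).mul k22).add ((continuousAt_const.mul h22).mul k11)).sub
    (continuousAt_const.mul (((contAt_re hc).mul (contAt_re kc)).add
      ((contAt_im hc).mul (contAt_im kc))))).div hD hD0

/-! ### The general limit lemma -/

theorem finrank_E : Module.finrank ℝ E = 4 := by
  have : Module.finrank ℝ (ℂ × ℂ) = 4 := by
    rw [Module.finrank_prod, Complex.finrank_real_complex]
  exact this

instance haarE : (volume : Measure E).IsAddHaarMeasure := by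
  have h : (volume : Measure (ℂ × ℂ)).IsAddHaarMeasure := by
    rw [Measure.volume_eq_prod]
    infer_instance
  exact h

/-- the dominating function -/
def gd (v : E) : ℝ := (closedBall (0 : E) 1).indicator (fun v => ‖v‖⁻¹ ^ 3) v

theorem gd_nonneg (v : E) : 0 ≤ gd v := by
  unfold gd
  exact indicator_nonneg (fun v _ => by positivity) v

theorem gd_int : Integrable gd := by
  have h := (integrable_fun_norm_addHaar (volume : Measure E)
    (f := fun y : ℝ => (Iic (1 : ℝ)).indicator (fun y => y⁻¹ ^ 3) y))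
  have h2 : Integrable (fun v : E => (Iic (1 : ℝ)).indicator (fun y => y⁻¹ ^ 3) ‖v‖) := by
    rw [h, finrank_E]
    have h3 : IntegrableOn (fun _ : ℝ => (1 : ℝ)) (Ioc 0 1) := by
      simp
    have h4 : IntegrableOn (fun y : ℝ => (Iic (1 : ℝ)).indicator (fun _ => (1 : ℝ)) y)
        (Ioi 0) := by
      rw [integrableOn_indicator_iff measurableSet_Iic]
      rwa [Set.inter_comm, Ioi_inter_Iic]
    refine h4.congr_fun ?_ measurableSet_Ioi
    intro y hy
    have hy0 : (y : ℝ) ≠ 0 := ne_of_gt hy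
    by_cases h1 : y ∈ Iic (1 : ℝ)
    · simp only [indicator_of_mem h1, smul_eq_mul]
      field_simp
    · simp only [indicator_of_notMem h1, smul_zero]
  refine h2.congr (Eventually.of_forall fun v => ?_)
  unfold gd
  by_cases hv : ‖v‖ ≤ 1
  · have h1 : v ∈ closedBall (0 : E) 1 := by simpa using hv
    have h2 : ‖v‖ ∈ Iic (1 : ℝ) := hv
    simp only [indicator_of_mem h1, indicator_of_mem h2]
  · have h1 : v ∉ closedBall (0 : E) 1 := by simpa using hv
    have h2 : ‖v‖ ∉ Iic (1 : ℝ) := hv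
    simp only [indicator_of_notMem h1, indicator_of_notMem h2]

theorem gd_small : ∀ ε > 0, ∃ η > 0, ∫ v, (ball (0 : E) η).indicator gd v ≤ ε := by
  intro ε hε
  have h := tendsto_setIntegral_of_antitone (μ := (volume : Measure E)) (f := gd)
    (s := fun n : ℕ => ball (0 : E) (1 / ((n : ℝ) + 1))) (fun n => measurableSet_ball)
    (by
      intro m n hmn
      exact ball_subset_ball (one_div_le_one_div_of_le (by positivity) (by
        have : (m : ℝ) ≤ n := by exact_mod_cast hmn
        linarith))) ⟨0, gd_int.integrableOn⟩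
  have h0 : (⋂ n : ℕ, ball (0 : E) (1 / ((n : ℝ) + 1))) = {0} := by
    ext v
    simp only [mem_iInter, mem_ball_zero_iff, mem_singleton_iff]
    constructor
    · intro hv
      by_contra hne
      have hp : 0 < ‖v‖ := norm_pos_iff.mpr hne
      obtain ⟨n, hn⟩ := exists_nat_one_div_lt hp
      exact absurd (hv n) (not_lt.mpr hn.le)
    · rintro rfl n
      rw [norm_zero]
      positivity
  rw [h0] at h
  have h1 : ∫ v in ({0} : Set E), gd v = 0 := by
    rw [Measure.restrict_singleton]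
    simp
  rw [h1] at h
  obtain ⟨n, hn⟩ := (h.eventually (Iio_mem_nhds hε)).exists
  refine ⟨1 / ((n : ℝ) + 1), by positivity, ?_⟩
  rw [integral_indicator measurableSet_ball]
  exact le_of_lt hn

theorem gen_lim (F : ℝ → E → E → ℝ) (M : ℝ) (hM : 0 ≤ M)
    (hs : ∀ δ ξ w, 0 ≤ δ → δ < 1 → F δ ξ w ≠ 0 → ‖ξ - w‖ ≤ 1)
    (hb : ∀ δ ξ w, 0 ≤ δ → δ < 1 → w ≠ ξ → |F δ ξ w| ≤ M * ‖ξ - w‖⁻¹ ^ 3)
    (hc : ∀ η > 0, ∀ ε > 0, ∃ δ0 > 0, ∀ δ, 0 < δ → δ < δ0 → ∀ ξ w, η ≤ ‖ξ - w‖ →
      |F δ ξ w - F 0 ξ w| ≤ ε)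
    (hcont : ∀ δ > 0, ∀ ξ, Continuous (F δ ξ)) :
    (∀ ξ, Integrable (F 0 ξ)) ∧
    ∀ ε > 0, ∃ δ0 > 0, ∀ δ, 0 < δ → δ < δ0 → ∀ ξ, ∫ w, |F δ ξ w - F 0 ξ w| ≤ ε := by
  have hdom : ∀ δ ξ w, 0 ≤ δ → δ < 1 → w ≠ ξ → |F δ ξ w| ≤ M * gd (ξ - w) := by
    intro δ ξ w h0 h1 hne
    by_cases hz : F δ ξ w = 0
    · rw [hz, abs_zero]
      exact mul_nonneg hM (gd_nonneg _)
    · have h2 := hs δ ξ w h0 h1 hz
      have h3 : ξ - w ∈ closedBall (0 : E) 1 := by simpa using h2
      unfold gd
      rw [indicator_of_mem h3]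
      exact hb δ ξ w h0 h1 hne
  have hgξ : ∀ ξ, Integrable (fun w => gd (ξ - w)) := fun ξ => gd_int.comp_sub_left ξ
  have hane : ∀ ξ : E, ∀ᵐ w : E, w ≠ ξ := fun ξ => by
    simp [ae_iff]
  have hmeas : ∀ ξ, AEStronglyMeasurable (F 0 ξ) volume := by
    intro ξ
    refine aestronglyMeasurable_of_tendsto_ae atTop
      (f := fun n : ℕ => F (1 / ((n : ℝ) + 1)) ξ) (fun n => (hcont _ (by positivity) ξ).aestronglyMeasurable) ?_
    filter_upwards [hane ξ] with w hw
    rw [Metric.tendsto_atTop]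
    intro ε hε
    have hp : 0 < ‖ξ - w‖ := norm_pos_iff.mpr (sub_ne_zero.mpr hw.symm)
    obtain ⟨δ0, hδ0, h⟩ := hc _ hp (ε / 2) (half_pos hε)
    obtain ⟨n, hn⟩ := exists_nat_one_div_lt hδ0
    refine ⟨n, fun m hm => ?_⟩
    rw [Real.dist_eq]
    have h1 : (1 : ℝ) / ((m : ℝ) + 1) < δ0 := by
      refine lt_of_le_of_lt (one_div_le_one_div_of_le (by positivity) ?_) hn
      have : (n : ℝ) ≤ m := by exact_mod_cast hm
      linarith
    exact lt_of_le_of_lt (h _ (by positivity) h1 ξ w le_rfl) (half_lt_self hε)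
  refine ⟨fun ξ => ?_, ?_⟩
  · refine Integrable.mono' ((hgξ ξ).const_mul M) (hmeas ξ) ?_
    filter_upwards [hane ξ] with w hw
    exact hdom 0 ξ w le_rfl one_pos hw
  · intro ε hε
    obtain ⟨η, hη, hη1⟩ := gd_small (ε / (4 * (M + 1))) (by positivity)
    set V : ℝ := (volume (closedBall (0 : E) 1)).toReal with hV
    have hV0 : 0 ≤ V := ENNReal.toReal_nonneg
    obtain ⟨δ0, hδ0, h⟩ := hc η hη (ε / (2 * (V + 1))) (by positivity)
    refine ⟨min δ0 1, lt_min hδ0 one_pos, fun δ h0 h1 ξ => ?_⟩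
    have hδ1 : δ < 1 := lt_of_lt_of_le h1 (min_le_right _ _)
    have hδ2 : δ < δ0 := lt_of_lt_of_le h1 (min_le_left _ _)
    -- pointwise bound
    have hpt : ∀ᵐ w : E, |F δ ξ w - F 0 ξ w| ≤
        2 * M * (ball (0 : E) η).indicator gd (ξ - w) +
        ε / (2 * (V + 1)) * (closedBall (0 : E) 1).indicator (fun _ => (1 : ℝ)) (ξ - w) := by
      filter_upwards [hane ξ] with w hw
      have hi1 : 0 ≤ (ball (0 : E) η).indicator gd (ξ - w) :=
        indicator_nonneg (fun v _ => gd_nonneg v) _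
      have hi2 : 0 ≤ (closedBall (0 : E) 1).indicator (fun _ => (1 : ℝ)) (ξ - w) :=
        indicator_nonneg (fun v _ => zero_le_one) _
      by_cases hin : ‖ξ - w‖ < η
      · have h3 : ξ - w ∈ ball (0 : E) η := by simpa using hin
        have h4 := hdom δ ξ w h0.le hδ1 hw
        have h5 := hdom 0 ξ w le_rfl one_pos hw
        have h6 : |F δ ξ w - F 0 ξ w| ≤ |F δ ξ w| + |F 0 ξ w| := abs_sub _ _
        rw [indicator_of_mem h3]
        have h7 : 0 ≤ ε / (2 * (V + 1)) *
            (closedBall (0 : E) 1).indicator (fun _ => (1 : ℝ)) (ξ - w) :=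
          mul_nonneg (by positivity) hi2
        linarith
      · have h8 : 0 ≤ 2 * M * (ball (0 : E) η).indicator gd (ξ - w) :=
          mul_nonneg (by positivity) hi1
        by_cases h9 : ‖ξ - w‖ ≤ 1
        · have h3 : ξ - w ∈ closedBall (0 : E) 1 := by simpa using h9
          rw [indicator_of_mem (s := closedBall (0 : E) 1) h3, mul_one]
          have h4 := h δ h0 hδ2 ξ w (not_lt.mp hin)
          linarith
        · have h10 : F δ ξ w = 0 := by
            by_contra hne
            exact h9 (hs δ ξ w h0.le hδ1 hne)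
          have h11 : F 0 ξ w = 0 := by
            by_contra hne
            exact h9 (hs 0 ξ w le_rfl one_pos hne)
          rw [h10, h11, sub_zero, abs_zero]
          exact add_nonneg h8 (mul_nonneg (by positivity) hi2)
    have hI1 : Integrable ((ball (0 : E) η).indicator gd) := gd_int.indicator measurableSet_ball
    have hI2 : Integrable ((closedBall (0 : E) 1).indicator (fun _ => (1 : ℝ))) := by
      rw [integrable_indicator_iff measurableSet_closedBall]
      exact integrableOn_const (by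
        exact (isCompact_closedBall (0 : E) 1).measure_lt_top.ne)
    have hI3 := (hI1.comp_sub_left ξ).const_mul (2 * M)
    have hI4 := (hI2.comp_sub_left ξ).const_mul (ε / (2 * (V + 1)))
    have hle := integral_mono_of_nonneg (μ := (volume : Measure E))
      (Eventually.of_forall fun w => abs_nonneg (F δ ξ w - F 0 ξ w)) (hI3.add hI4) hpt
    refine hle.trans ?_
    rw [show (∫ a, ((fun t => 2 * M * (ball (0 : E) η).indicator gd (ξ - t)) +
      fun t => ε / (2 * (V + 1)) * (closedBall (0 : E) 1).indicator (fun _ => (1 : ℝ)) (ξ - t)) a)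
      = (∫ a, 2 * M * (ball (0 : E) η).indicator gd (ξ - a)) +
        ∫ a, ε / (2 * (V + 1)) * (closedBall (0 : E) 1).indicator (fun _ => (1 : ℝ)) (ξ - a) from
      integral_add hI3 hI4]
    rw [integral_const_mul, integral_const_mul,
      integral_sub_left_eq_self ((ball (0 : E) η).indicator gd) volume ξ,
      integral_sub_left_eq_self ((closedBall (0 : E) 1).indicator (fun _ => (1 : ℝ))) volume ξ]
    rw [integral_indicator_const _ measurableSet_closedBall, smul_eq_mul, mul_one]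
    have hVr : (volume : Measure E).real (closedBall (0 : E) 1) = V := rfl
    rw [hVr]
    have e1 : 2 * M * ∫ v, (ball (0 : E) η).indicator gd v ≤ ε / 2 := by
      calc 2 * M * ∫ v, (ball (0 : E) η).indicator gd v
          ≤ 2 * M * (ε / (4 * (M + 1))) := mul_le_mul_of_nonneg_left hη1 (by positivity)
        _ ≤ ε / 2 := by
          rw [show 2 * M * (ε / (4 * (M + 1))) = (ε / 2) * (M / (M + 1)) by
            field_simp; ring]
          have : M / (M + 1) ≤ 1 := by
            rw [div_le_one (by positivity)]; linarith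
          calc ε / 2 * (M / (M + 1)) ≤ ε / 2 * 1 := mul_le_mul_of_nonneg_left this (by positivity)
            _ = ε / 2 := mul_one _
    have e2 : ε / (2 * (V + 1)) * V ≤ ε / 2 := by
      rw [show ε / (2 * (V + 1)) * V = (ε / 2) * (V / (V + 1)) by field_simp]
      have : V / (V + 1) ≤ 1 := by
        rw [div_le_one (by positivity)]; linarith
      calc ε / 2 * (V / (V + 1)) ≤ ε / 2 * 1 := mul_le_mul_of_nonneg_left this (by positivity)
        _ = ε / 2 := mul_one _
    linarith

/-- uniform continuity away from zero -/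
theorem unif (f : ℝ → ℝ) (hf : ContinuousOn f (Ioi 0)) {a R : ℝ} (ha : 0 < a) :
    ∀ ε > 0, ∃ δ0 > 0, ∀ δ, 0 < δ → δ < δ0 → ∀ s, a ≤ s → s ≤ R → |f (s + δ) - f s| ≤ ε := by
  intro ε hε
  have hcomp : IsCompact (Icc a (R + 1)) := isCompact_Icc
  have huc := hcomp.uniformContinuousOn_of_continuous
    (hf.mono fun s hs => lt_of_lt_of_le ha hs.1)
  rw [Metric.uniformContinuousOn_iff] at huc
  obtain ⟨δ1, hδ1, h⟩ := huc ε hε
  refine ⟨min δ1 1, lt_min hδ1 one_pos, fun δ h0 h1 s hs1 hs2 => ?_⟩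
  have h2 : δ < 1 := lt_of_lt_of_le h1 (min_le_right _ _)
  have h3 : δ < δ1 := lt_of_lt_of_le h1 (min_le_left _ _)
  have h4 := h (s + δ) ⟨by linarith, by linarith⟩ s ⟨hs1, by linarith⟩ (by
    rw [Real.dist_eq]
    rw [show s + δ - s = δ by ring, abs_of_pos h0]
    exact h3)
  rw [Real.dist_eq] at h4
  exact h4.le

end Par34

open Par34

/-! ### PAR3 -/

section

variable (A : LocCoef) (χ : E → ℝ) (hχ : ContDiff ℝ ∞ χ) (hχ0 : ∀ z, 0 ≤ χ z)
  (hχs : ∀ z, χ z ≠ 0 → ‖z‖ ≤ 2) (c : Cst)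
  (hsupp : ∀ w : E, ‖w‖ ≤ 2 → ∀ v : E, A.q w v < c.σ → ‖v‖ ≤ 1)

include hχ hχ0 hχs hsupp

theorem kK_smooth {δ : ℝ} (hδ : 0 < δ) :
    ContDiff ℝ ∞ (fun p : E × E => kK A χ c δ p.1 p.2) := by
  rw [contDiff_iff_contDiffAt]
  intro p
  rcases lt_or_ge ‖p.2‖ 3 with hp | hp
  · have hp4 : ‖p.2‖ < 4 := by linarith
    have h1 : ContDiffAt ℝ ∞ (fun p : E × E => χ p.2) p := (hχ.comp contDiff_snd).contDiffAt
    have h2 := D_smoothAt A hp4
    have h3 : ContDiffAt ℝ ∞ (fun p : E × E => kap0 * A.D p.2) p := contDiffAt_const.mul h2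
    have h4 : kap0 * A.D p.2 ≠ 0 := (mul_pos kap0_pos (D_pos A hp4)).ne'
    have h5 : ContDiffAt ℝ ∞ (fun p : E × E => A.q p.2 (p.1 - p.2) + δ) p :=
      (q_smoothAt A hp4).add contDiffAt_const
    have h6 : 0 < A.q p.2 (p.1 - p.2) + δ := by
      have := q_nonneg A hp.le (p.1 - p.2)
      linarith
    have h7 : ContDiffAt ℝ ∞ c.θ (A.q p.2 (p.1 - p.2) + δ) :=
      c.θ_smooth.contDiffAt (Ioi_mem_nhds h6)
    have h8 : ContDiffAt ℝ ∞ (fun p : E × E => c.θ (A.q p.2 (p.1 - p.2) + δ)) p :=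
      ContDiffAt.comp p h7 h5
    exact (h1.div h3 h4).mul h8
  · have h0 : (fun p : E × E => kK A χ c δ p.1 p.2) =ᶠ[𝓝 p] fun _ => 0 := by
      have ho : IsOpen {p : E × E | 2 < ‖p.2‖} := isOpen_lt continuous_const (by fun_prop)
      filter_upwards [ho.mem_nhds (show p ∈ {p : E × E | 2 < ‖p.2‖} from by
        simp only [mem_ofPred_eq]; linarith)] with x hx
      have : χ x.2 = 0 := by
        by_contra hne
        exact absurd (hχs _ hne) (not_le.mpr hx)
      simp [kK, this]
    exact contDiffAt_const.congr_of_eventuallyEq h0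

theorem mK_cont {δ : ℝ} (hδ : 0 < δ) : Continuous (fun p : E × E => mK A χ c δ p.1 p.2) := by
  rw [continuous_iff_continuousAt]
  intro p
  rcases lt_or_ge ‖p.2‖ 3 with hp | hp
  · have hp4 : ‖p.2‖ < 4 := by linarith
    have h1 : ContinuousAt (fun p : E × E => χ p.2) p :=
      (hχ.continuous.comp continuous_snd).continuousAt
    have h3 : ContinuousAt (fun p : E × E => kap0 * A.D p.2) p :=
      continuousAt_const.mul (D_smoothAt A hp4).continuousAt
    have h4 : kap0 * A.D p.2 ≠ 0 := (mul_pos kap0_pos (D_pos A hp4)).ne'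
    have h5 : ContinuousAt (fun p : E × E => A.q p.2 (p.1 - p.2) + δ) p :=
      (q_smoothAt A hp4).continuousAt.add continuousAt_const
    have h6 : 0 < A.q p.2 (p.1 - p.2) + δ := by
      have := q_nonneg A hp.le (p.1 - p.2)
      linarith
    have h7 : ContinuousAt c.θ2 (A.q p.2 (p.1 - p.2) + δ) :=
      (θ2_smooth c).continuousOn.continuousAt (Ioi_mem_nhds h6)
    have h8 : ContinuousAt (fun p : E × E => c.θ2 (A.q p.2 (p.1 - p.2) + δ)) p :=
      ContinuousAt.comp (f := fun p : E × E => A.q p.2 (p.1 - p.2) + δ) h7 h5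
    exact (h1.div h3 h4).mul (continuousAt_const.mul h8)
  · have h0 : (fun p : E × E => mK A χ c δ p.1 p.2) =ᶠ[𝓝 p] fun _ => 0 := by
      have ho : IsOpen {p : E × E | 2 < ‖p.2‖} := isOpen_lt continuous_const (by fun_prop)
      filter_upwards [ho.mem_nhds (show p ∈ {p : E × E | 2 < ‖p.2‖} from by
        simp only [mem_ofPred_eq]; linarith)] with x hx
      have : χ x.2 = 0 := by
        by_contra hne
        exact absurd (hχs _ hne) (not_le.mpr hx)
      simp [mK, this]
    exact continuousAt_const.congr h0.symm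

/-- the kernels vanish for `‖ξ - w‖ > 1` -/
theorem Par34.tK_zero {δ : ℝ} (hδ : 0 ≤ δ) {ξ w : E} (h : 1 < ‖ξ - w‖) : tK A χ c δ ξ w = 0 := by
  by_cases hz : χ w = 0
  · simp [tK, hz]
  · have hw := hχs w hz
    have hq : c.σ ≤ A.q w (ξ - w) := by
      by_contra hlt
      exact absurd (hsupp w hw (ξ - w) (not_le.mp hlt)) (not_le.mpr h)
    obtain ⟨_, h1, h2⟩ := c.θ_zero (s := A.q w (ξ - w) + δ) (by linarith)
    simp [tK, h1, h2]

theorem Par34.kK_zero {δ : ℝ} (hδ : 0 ≤ δ) {ξ w : E} (h : 1 < ‖ξ - w‖) : kK A χ c δ ξ w = 0 := by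
  by_cases hz : χ w = 0
  · simp [kK, hz]
  · have hw := hχs w hz
    have hq : c.σ ≤ A.q w (ξ - w) := by
      by_contra hlt
      exact absurd (hsupp w hw (ξ - w) (not_le.mp hlt)) (not_le.mpr h)
    obtain ⟨h0, _, _⟩ := c.θ_zero (s := A.q w (ξ - w) + δ) (by linarith)
    simp [kK, h0]

theorem Par34.mK_zero {δ : ℝ} (hδ : 0 ≤ δ) {ξ w : E} (h : 1 < ‖ξ - w‖) : mK A χ c δ ξ w = 0 := by
  by_cases hz : χ w = 0
  · simp [mK, hz]
  · have hw := hχs w hz
    have hq : c.σ ≤ A.q w (ξ - w) := by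
      by_contra hlt
      exact absurd (hsupp w hw (ξ - w) (not_le.mp hlt)) (not_le.mpr h)
    obtain ⟨_, _, h2⟩ := c.θ_zero (s := A.q w (ξ - w) + δ) (by linarith)
    simp [mK, h2]

theorem tK_cont {δ : ℝ} (hδ : 0 < δ) : Continuous (fun p : E × E => tK A χ c δ p.1 p.2) := by
  rw [continuous_iff_continuousAt]
  intro p
  rcases lt_or_ge ‖p.2‖ 3 with hp | hp
  · rcases lt_or_ge ‖p.1‖ 4 with hp1 | hp1
    · have hp4 : ‖p.2‖ < 4 := by linarith
      have h1 : ContinuousAt (fun p : E × E => χ p.2) p :=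
        (hχ.continuous.comp continuous_snd).continuousAt
      have h3 : ContinuousAt (fun p : E × E => kap0 * A.D p.2) p :=
        continuousAt_const.mul (D_smoothAt A hp4).continuousAt
      have h4 : kap0 * A.D p.2 ≠ 0 := (mul_pos kap0_pos (D_pos A hp4)).ne'
      have h5 : ContinuousAt (fun p : E × E => A.q p.2 (p.1 - p.2) + δ) p :=
        (q_smoothAt A hp4).continuousAt.add continuousAt_const
      have h6 : 0 < A.q p.2 (p.1 - p.2) + δ := by
        have := q_nonneg A hp.le (p.1 - p.2)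
        linarith
      have h7 : ContinuousAt c.θ2 (A.q p.2 (p.1 - p.2) + δ) :=
        (θ2_smooth c).continuousOn.continuousAt (Ioi_mem_nhds h6)
      have h8 : ContinuousAt (fun p : E × E => c.θ2 (A.q p.2 (p.1 - p.2) + δ)) p :=
        ContinuousAt.comp (f := fun p : E × E => A.q p.2 (p.1 - p.2) + δ) h7 h5
      have h9 : ContinuousAt c.θ1 (A.q p.2 (p.1 - p.2) + δ) :=
        (θ1_smooth c).continuousOn.continuousAt (Ioi_mem_nhds h6)
      have h10 : ContinuousAt (fun p : E × E => c.θ1 (A.q p.2 (p.1 - p.2) + δ)) p :=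
        ContinuousAt.comp (f := fun p : E × E => A.q p.2 (p.1 - p.2) + δ) h9 h5
      have h11 := Gam_contAt A hp1 hp4
      have h12 := Bq_contAt A hp1 hp4
      exact (h1.div h3 h4).mul (((h11.add continuousAt_const).mul h8).add (h12.mul h10))
    · have h0 : (fun p : E × E => tK A χ c δ p.1 p.2) =ᶠ[𝓝 p] fun _ => 0 := by
        have ho : IsOpen {p : E × E | 3 < ‖p.1‖} := isOpen_lt continuous_const (by fun_prop)
        filter_upwards [ho.mem_nhds (show p ∈ {p : E × E | 3 < ‖p.1‖} from by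
          simp only [mem_ofPred_eq]; linarith)] with x hx
        by_cases hz : χ x.2 = 0
        · simp [tK, hz]
        · have hw := hχs _ hz
          refine tK_zero A χ hχ hχ0 hχs c hsupp hδ.le ?_
          have h1 : ‖x.1‖ ≤ ‖x.1 - x.2‖ + ‖x.2‖ := by
            calc ‖x.1‖ = ‖(x.1 - x.2) + x.2‖ := by rw [sub_add_cancel]
              _ ≤ _ := norm_add_le _ _
          have hx' : 3 < ‖x.1‖ := hx
          linarith
      exact continuousAt_const.congr h0.symm
  · have h0 : (fun p : E × E => tK A χ c δ p.1 p.2) =ᶠ[𝓝 p] fun _ => 0 := by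
      have ho : IsOpen {p : E × E | 2 < ‖p.2‖} := isOpen_lt continuous_const (by fun_prop)
      filter_upwards [ho.mem_nhds (show p ∈ {p : E × E | 2 < ‖p.2‖} from by
        simp only [mem_ofPred_eq]; linarith)] with x hx
      have : χ x.2 = 0 := by
        by_contra hne
        exact absurd (hχs _ hne) (not_le.mpr hx)
      simp [tK, this]
    exact continuousAt_const.congr h0.symm

/-! ### PAR4 -/

/-- the prefactor is bounded -/
theorem Par34.pre_bound : ∃ M0 : ℝ, 0 < M0 ∧ ∀ w, |χ w / (kap0 * A.D w)| ≤ M0 := by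
  have hcont : ContinuousOn (fun w : E => χ w / (kap0 * A.D w)) (closedBall 0 2) := by
    have hsub : closedBall (0 : E) 2 ⊆ ball 0 4 := closedBall_subset_ball (by norm_num)
    refine hχ.continuous.continuousOn.div
      (continuousOn_const.mul ((D_smooth A).continuousOn.mono hsub)) ?_
    intro w hw
    have hw2 : ‖w‖ ≤ 2 := by simpa using hw
    exact (mul_pos kap0_pos (D_pos A (by linarith))).ne'
  obtain ⟨M, hM⟩ := (isCompact_closedBall (0 : E) 2).exists_bound_of_continuousOn hcont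
  refine ⟨max M 1, lt_max_of_lt_right one_pos, fun w => ?_⟩
  by_cases hz : χ w = 0
  · rw [hz, zero_div, abs_zero]
    exact le_max_of_le_right zero_le_one
  · have hw := hχs w hz
    exact (hM w (by simpa using hw)).trans (le_max_left _ _)

theorem kK_lim : (∀ ξ, Integrable (kK A χ c 0 ξ)) ∧
    ∀ ε > 0, ∃ δ0 > 0, ∀ δ, 0 < δ → δ < δ0 → ∀ ξ, ∫ w, |kK A χ c δ ξ w - kK A χ c 0 ξ w| ≤ ε := by
  obtain ⟨M0, hM0, hpre⟩ := pre_bound A χ hχ hχ0 hχs c hsupp
  obtain ⟨b, hb, B, hq⟩ := A.q_bounds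
  obtain ⟨K, hK, hθ⟩ := c.θ_bounds
  refine gen_lim (kK A χ c) (M0 * K / b) (by positivity) ?_ ?_ ?_ ?_
  · intro δ ξ w h0 _ hne
    by_contra hlt
    exact hne (kK_zero A χ hχ hχ0 hχs c hsupp h0 (not_le.mp hlt))
  · intro δ ξ w h0 _ hne
    have hp : 0 < ‖ξ - w‖ := norm_pos_iff.mpr (sub_ne_zero.mpr hne.symm)
    rcases lt_or_ge 1 ‖ξ - w‖ with h1 | h1
    · rw [kK_zero A χ hχ hχ0 hχs c hsupp h0 h1, abs_zero]
      positivity
    · by_cases hz : χ w = 0
      · rw [show kK A χ c δ ξ w = 0 by simp [kK, hz], abs_zero]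
        positivity
      · have hw := hχs w hz
        have hqq := (hq w (by linarith) (ξ - w)).1
        have hbp : 0 < b * ‖ξ - w‖ ^ 2 := by positivity
        have hs : 0 < A.q w (ξ - w) + δ := by linarith
        unfold kK
        rw [abs_mul]
        have h2 := (hθ _ hs).1
        have h3 : K / (A.q w (ξ - w) + δ) ≤ K / (b * ‖ξ - w‖ ^ 2) :=
          div_le_div_of_nonneg_left hK.le hbp (by linarith)
        have h4 : K / (b * ‖ξ - w‖ ^ 2) ≤ K / b * ‖ξ - w‖⁻¹ ^ 3 := by
          rw [show K / (b * ‖ξ - w‖ ^ 2) = K / b * (‖ξ - w‖⁻¹ ^ 3 * ‖ξ - w‖) by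
            field_simp]
          refine mul_le_mul_of_nonneg_left ?_ (by positivity)
          calc ‖ξ - w‖⁻¹ ^ 3 * ‖ξ - w‖ ≤ ‖ξ - w‖⁻¹ ^ 3 * 1 :=
                mul_le_mul_of_nonneg_left h1 (by positivity)
            _ = _ := mul_one _
        calc |χ w / (kap0 * A.D w)| * |c.θ (A.q w (ξ - w) + δ)|
            ≤ M0 * (K / b * ‖ξ - w‖⁻¹ ^ 3) :=
              mul_le_mul (hpre w) (h2.trans (h3.trans h4)) (abs_nonneg _) hM0.le
          _ = M0 * K / b * ‖ξ - w‖⁻¹ ^ 3 := by ring
  · intro η hη ε hε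
    obtain ⟨δ0, hδ0, hu⟩ := unif c.θ c.θ_smooth.continuousOn (a := b * η ^ 2) (R := |B|)
      (by positivity) (ε / M0) (by positivity)
    refine ⟨δ0, hδ0, fun δ h0 h1 ξ w hξ => ?_⟩
    rcases lt_or_ge 1 ‖ξ - w‖ with h2 | h2
    · rw [kK_zero A χ hχ hχ0 hχs c hsupp h0.le h2, kK_zero A χ hχ hχ0 hχs c hsupp le_rfl h2,
        sub_zero, abs_zero]
      exact hε.le
    · by_cases hz : χ w = 0
      · rw [show kK A χ c δ ξ w = 0 by simp [kK, hz], show kK A χ c 0 ξ w = 0 by simp [kK, hz],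
          sub_zero, abs_zero]
        exact hε.le
      · have hw := hχs w hz
        obtain ⟨hq1, hq2⟩ := hq w (by linarith) (ξ - w)
        have h3 : b * η ^ 2 ≤ A.q w (ξ - w) :=
          (mul_le_mul_of_nonneg_left (pow_le_pow_left₀ hη.le hξ 2) hb.le).trans hq1
        have h4 : A.q w (ξ - w) ≤ |B| := by
          refine hq2.trans ?_
          calc B * ‖ξ - w‖ ^ 2 ≤ |B| * ‖ξ - w‖ ^ 2 :=
                mul_le_mul_of_nonneg_right (le_abs_self B) (by positivity)
            _ ≤ |B| * 1 := mul_le_mul_of_nonneg_left (pow_le_one₀ (norm_nonneg _) h2)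
                (abs_nonneg _)
            _ = |B| := mul_one _
        have h5 := hu δ h0 h1 _ h3 h4
        unfold kK
        rw [← mul_sub, abs_mul, add_zero]
        calc |χ w / (kap0 * A.D w)| * |c.θ (A.q w (ξ - w) + δ) - c.θ (A.q w (ξ - w))|
            ≤ M0 * (ε / M0) := mul_le_mul (hpre w) h5 (abs_nonneg _) hM0.le
          _ = ε := by field_simp
  · intro δ hδ ξ
    exact (kK_smooth A χ hχ hχ0 hχs c hsupp hδ).continuous.comp
      (continuous_const.prodMk continuous_id)

theorem tK_lim : (∀ ξ, Integrable (tK A χ c 0 ξ)) ∧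
    ∀ ε > 0, ∃ δ0 > 0, ∀ δ, 0 < δ → δ < δ0 → ∀ ξ, ∫ w, |tK A χ c δ ξ w - tK A χ c 0 ξ w| ≤ ε := by
  obtain ⟨M0, hM0, hpre⟩ := pre_bound A χ hχ hχ0 hχs c hsupp
  obtain ⟨b, hb, B, hq⟩ := A.q_bounds
  obtain ⟨K, hK, hθ⟩ := c.θ_bounds
  obtain ⟨C, hC, hGB⟩ := A.Gam_Bq_bounds
  -- bounds for `Gam` and `Bq`
  have hGam : ∀ ξ w : E, ‖ξ‖ ≤ 3 → ‖w‖ ≤ 2 →
      |A.Gam ξ w - 4 * A.q w (ξ - w)| ≤ 4 * C * (A.q w (ξ - w) * √(A.q w (ξ - w))) := by
    intro ξ w hξ hw
    obtain ⟨h1, h2, _⟩ := hGB ξ w hξ hw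
    rw [abs_le]
    constructor <;> nlinarith
  refine gen_lim (tK A χ c) (M0 * (K * (4 + 5 * C)) / (b * √b)) (by positivity) ?_ ?_ ?_ ?_
  · intro δ ξ w h0 _ hne
    by_contra hlt
    exact hne (tK_zero A χ hχ hχ0 hχs c hsupp h0 (not_le.mp hlt))
  · intro δ ξ w h0 _ hne
    have hp : 0 < ‖ξ - w‖ := norm_pos_iff.mpr (sub_ne_zero.mpr hne.symm)
    rcases lt_or_ge 1 ‖ξ - w‖ with h1 | h1
    · rw [tK_zero A χ hχ hχ0 hχs c hsupp h0 h1, abs_zero]
      positivity
    · by_cases hz : χ w = 0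
      · rw [show tK A χ c δ ξ w = 0 by simp [tK, hz], abs_zero]
        positivity
      · have hw := hχs w hz
        have hξ : ‖ξ‖ ≤ 3 := by
          have h1 : ‖ξ‖ ≤ ‖ξ - w‖ + ‖w‖ := by
            calc ‖ξ‖ = ‖(ξ - w) + w‖ := by rw [sub_add_cancel]
              _ ≤ _ := norm_add_le _ _
          linarith
        have hqq := (hq w (by linarith) (ξ - w)).1
        have hG := hGam ξ w hξ hw
        have hB := (hGB ξ w hξ hw).2.2
        unfold tK
        set q := A.q w (ξ - w) with hqdef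
        set s := q + δ with hsdef
        have hbp : 0 < b * ‖ξ - w‖ ^ 2 := by positivity
        have hq0 : 0 < q := lt_of_lt_of_le hbp hqq
        have hs : 0 < s := by linarith
        have hqs : q ≤ s := by linarith
        obtain ⟨_, t1, t2, t3⟩ := hθ s hs
        have hsq : 0 < √s := Real.sqrt_pos.mpr hs
        have hsqs : √s * √s = s := Real.mul_self_sqrt hs.le
        have hle : √q ≤ √s := Real.sqrt_le_sqrt hqs
        have hsplit : (A.Gam ξ w + 4 * δ) * c.θ2 s + A.Bq ξ w * c.θ1 s =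
            4 * (s * c.θ2 s + 2 * c.θ1 s) + (A.Gam ξ w - 4 * q) * c.θ2 s +
              (A.Bq ξ w - 8) * c.θ1 s := by
          rw [hsdef]; ring
        have e1 : |4 * (s * c.θ2 s + 2 * c.θ1 s)| ≤ 4 * (K / (s * √s)) := by
          rw [abs_mul, abs_of_pos (by norm_num : (0 : ℝ) < 4)]
          exact mul_le_mul_of_nonneg_left t3 (by norm_num)
        have e2 : |(A.Gam ξ w - 4 * q) * c.θ2 s| ≤ 4 * C * (K / (s * √s)) := by
          rw [abs_mul]
          calc |A.Gam ξ w - 4 * q| * |c.θ2 s|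
              ≤ 4 * C * (q * √q) * (K / s ^ 3) :=
                mul_le_mul hG t2 (abs_nonneg _) (by positivity)
            _ ≤ 4 * C * (s * √s) * (K / s ^ 3) := by
                refine mul_le_mul_of_nonneg_right ?_ (by positivity)
                refine mul_le_mul_of_nonneg_left ?_ (by positivity)
                exact mul_le_mul hqs hle (Real.sqrt_nonneg _) hs.le
            _ = 4 * C * (K / (s * √s)) := by
                have : K / s ^ 3 = K / (s * √s) / (s * √s) := by
                  rw [div_div, show s * √s * (s * √s) = s ^ 2 * (√s * √s) by ring, hsqs]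
                  congr 1
                rw [this]
                field_simp
        have e3 : |(A.Bq ξ w - 8) * c.θ1 s| ≤ C * (K / (s * √s)) := by
          rw [abs_mul]
          calc |A.Bq ξ w - 8| * |c.θ1 s|
              ≤ C * √q * (K / s ^ 2) := mul_le_mul hB t1 (abs_nonneg _) (by positivity)
            _ ≤ C * √s * (K / s ^ 2) := by
                refine mul_le_mul_of_nonneg_right ?_ (by positivity)
                exact mul_le_mul_of_nonneg_left hle hC
            _ = C * (K / (s * √s)) := by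
                have : K / s ^ 2 = K / (s * √s) / √s := by
                  rw [div_div, show s * √s * √s = s * (√s * √s) by ring, hsqs]
                  congr 1
                  ring
                rw [this]
                field_simp
        have hsum : |(A.Gam ξ w + 4 * δ) * c.θ2 s + A.Bq ξ w * c.θ1 s| ≤
            K * (4 + 5 * C) / (s * √s) := by
          rw [hsplit]
          calc _ ≤ |4 * (s * c.θ2 s + 2 * c.θ1 s)| + |(A.Gam ξ w - 4 * q) * c.θ2 s| +
                |(A.Bq ξ w - 8) * c.θ1 s| := abs_add_three _ _ _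
            _ ≤ 4 * (K / (s * √s)) + 4 * C * (K / (s * √s)) + C * (K / (s * √s)) := by
                linarith
            _ = K * (4 + 5 * C) / (s * √s) := by ring
        have hlow : b * √b * ‖ξ - w‖ ^ 3 ≤ s * √s := by
          have h1 : b * ‖ξ - w‖ ^ 2 ≤ s := hqq.trans hqs
          have h2 : √b * ‖ξ - w‖ ≤ √s := by
            rw [← Real.sqrt_sq hp.le, ← Real.sqrt_mul hb.le]
            exact Real.sqrt_le_sqrt h1
          calc b * √b * ‖ξ - w‖ ^ 3 = (b * ‖ξ - w‖ ^ 2) * (√b * ‖ξ - w‖) := by ring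
            _ ≤ s * √s := mul_le_mul h1 h2 (by positivity) hs.le
        have hbb : 0 < √b := Real.sqrt_pos.mpr hb
        have hfin : K * (4 + 5 * C) / (s * √s) ≤ K * (4 + 5 * C) / (b * √b) * ‖ξ - w‖⁻¹ ^ 3 := by
          calc K * (4 + 5 * C) / (s * √s) ≤ K * (4 + 5 * C) / (b * √b * ‖ξ - w‖ ^ 3) :=
                div_le_div_of_nonneg_left (by positivity) (by positivity) hlow
            _ = _ := by field_simp
        rw [abs_mul]
        calc |χ w / (kap0 * A.D w)| * |(A.Gam ξ w + 4 * δ) * c.θ2 s + A.Bq ξ w * c.θ1 s|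
            ≤ M0 * (K * (4 + 5 * C) / (b * √b) * ‖ξ - w‖⁻¹ ^ 3) :=
              mul_le_mul (hpre w) (hsum.trans hfin) (abs_nonneg _) hM0.le
          _ = M0 * (K * (4 + 5 * C)) / (b * √b) * ‖ξ - w‖⁻¹ ^ 3 := by ring
  · intro η hη ε hε
    -- uniform bounds
    set GM : ℝ := 4 * |B| + 4 * C * (|B| * √|B|) with hGM
    set BM : ℝ := 8 + C * √|B| with hBM
    have hGM0 : 0 ≤ GM := by positivity
    have hBM0 : 0 ≤ BM := by positivity
    have ha : 0 < b * η ^ 2 := by positivity
    obtain ⟨δ1, hδ1, hu1⟩ := unif c.θ1 (θ1_smooth c).continuousOn (a := b * η ^ 2) (R := |B|)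
      ha (ε / (3 * M0 * (BM + 1))) (by positivity)
    obtain ⟨δ2, hδ2, hu2⟩ := unif c.θ2 (θ2_smooth c).continuousOn (a := b * η ^ 2) (R := |B|)
      ha (ε / (3 * M0 * (GM + 1))) (by positivity)
    set T : ℝ := K / (b * η ^ 2) ^ 3 with hT
    have hT0 : 0 < T := by positivity
    set δ3 : ℝ := ε / (12 * M0 * T) with hδ3
    have hδ30 : 0 < δ3 := by positivity
    refine ⟨min δ1 (min δ2 δ3), lt_min hδ1 (lt_min hδ2 hδ30), fun δ h0 h1 ξ w hξη => ?_⟩
    have hd1 : δ < δ1 := lt_of_lt_of_le h1 (min_le_left _ _)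
    have hd2 : δ < δ2 := lt_of_lt_of_le h1 ((min_le_right _ _).trans (min_le_left _ _))
    have hd3 : δ < δ3 := lt_of_lt_of_le h1 ((min_le_right _ _).trans (min_le_right _ _))
    rcases lt_or_ge 1 ‖ξ - w‖ with h2 | h2
    · rw [tK_zero A χ hχ hχ0 hχs c hsupp h0.le h2, tK_zero A χ hχ hχ0 hχs c hsupp le_rfl h2,
        sub_zero, abs_zero]
      exact hε.le
    · by_cases hz : χ w = 0
      · rw [show tK A χ c δ ξ w = 0 by simp [tK, hz], show tK A χ c 0 ξ w = 0 by simp [tK, hz],
          sub_zero, abs_zero]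
        exact hε.le
      · have hw := hχs w hz
        have hξ : ‖ξ‖ ≤ 3 := by
          have h1 : ‖ξ‖ ≤ ‖ξ - w‖ + ‖w‖ := by
            calc ‖ξ‖ = ‖(ξ - w) + w‖ := by rw [sub_add_cancel]
              _ ≤ _ := norm_add_le _ _
          linarith
        obtain ⟨hq1, hq2⟩ := hq w (by linarith) (ξ - w)
        have h3 : b * η ^ 2 ≤ A.q w (ξ - w) :=
          (mul_le_mul_of_nonneg_left (pow_le_pow_left₀ hη.le hξη 2) hb.le).trans hq1
        have h4 : A.q w (ξ - w) ≤ |B| := by
          refine hq2.trans ?_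
          calc B * ‖ξ - w‖ ^ 2 ≤ |B| * ‖ξ - w‖ ^ 2 :=
                mul_le_mul_of_nonneg_right (le_abs_self B) (by positivity)
            _ ≤ |B| * 1 := mul_le_mul_of_nonneg_left (pow_le_one₀ (norm_nonneg _) h2)
                (abs_nonneg _)
            _ = |B| := mul_one _
        have h5 := hu1 δ h0 hd1 _ h3 h4
        have h6 := hu2 δ h0 hd2 _ h3 h4
        have hG := hGam ξ w hξ hw
        have hB := (hGB ξ w hξ hw).2.2
        unfold tK
        set q := A.q w (ξ - w) with hqdef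
        have hq0 : 0 < q := lt_of_lt_of_le ha h3
        have hsB : √q ≤ √|B| := Real.sqrt_le_sqrt h4
        have hGb : |A.Gam ξ w| ≤ GM := by
          calc |A.Gam ξ w| = |4 * q + (A.Gam ξ w - 4 * q)| := by congr 1; ring
            _ ≤ |4 * q| + |A.Gam ξ w - 4 * q| := abs_add_le _ _
            _ ≤ 4 * |B| + 4 * C * (|B| * √|B|) := by
                refine add_le_add ?_ (hG.trans ?_)
                · rw [abs_of_pos (by positivity)]
                  linarith
                · refine mul_le_mul_of_nonneg_left ?_ (by positivity)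
                  exact mul_le_mul h4 hsB (Real.sqrt_nonneg _) (abs_nonneg _)
        have hBb : |A.Bq ξ w| ≤ BM := by
          calc |A.Bq ξ w| = |8 + (A.Bq ξ w - 8)| := by congr 1; ring
            _ ≤ |(8 : ℝ)| + |A.Bq ξ w - 8| := abs_add_le _ _
            _ ≤ 8 + C * √|B| := by
                refine add_le_add ?_ (hB.trans ?_)
                · rw [abs_of_pos (by norm_num)]
                · exact mul_le_mul_of_nonneg_left hsB hC
        have hθT : |c.θ2 (q + δ)| ≤ T := by
          refine ((hθ (q + δ) (by linarith)).2.2.1).trans ?_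
          refine div_le_div_of_nonneg_left hK.le (by positivity) ?_
          exact pow_le_pow_left₀ ha.le (by linarith) 3
        rw [← mul_sub, abs_mul]
        have hdiff : (A.Gam ξ w + 4 * δ) * c.θ2 (q + δ) + A.Bq ξ w * c.θ1 (q + δ) -
            ((A.Gam ξ w + 4 * 0) * c.θ2 (q + 0) + A.Bq ξ w * c.θ1 (q + 0)) =
            A.Gam ξ w * (c.θ2 (q + δ) - c.θ2 q) + 4 * δ * c.θ2 (q + δ) +
              A.Bq ξ w * (c.θ1 (q + δ) - c.θ1 q) := by
          rw [add_zero]; ring
        rw [hdiff]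
        have a1 : |A.Gam ξ w * (c.θ2 (q + δ) - c.θ2 q)| ≤ ε / (3 * M0) := by
          rw [abs_mul]
          calc |A.Gam ξ w| * |c.θ2 (q + δ) - c.θ2 q| ≤ (GM + 1) * (ε / (3 * M0 * (GM + 1))) :=
                mul_le_mul (by linarith) h6 (abs_nonneg _) (by positivity)
            _ = ε / (3 * M0) := by field_simp
        have a2 : |A.Bq ξ w * (c.θ1 (q + δ) - c.θ1 q)| ≤ ε / (3 * M0) := by
          rw [abs_mul]
          calc |A.Bq ξ w| * |c.θ1 (q + δ) - c.θ1 q| ≤ (BM + 1) * (ε / (3 * M0 * (BM + 1))) :=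
                mul_le_mul (by linarith) h5 (abs_nonneg _) (by positivity)
            _ = ε / (3 * M0) := by field_simp
        have a3 : |4 * δ * c.θ2 (q + δ)| ≤ ε / (3 * M0) := by
          rw [abs_mul, abs_of_pos (by positivity)]
          calc 4 * δ * |c.θ2 (q + δ)| ≤ 4 * δ3 * T :=
                mul_le_mul (by linarith) hθT (abs_nonneg _) (by positivity)
            _ = ε / (3 * M0) := by
                rw [hδ3]
                field_simp
                ring
        calc |χ w / (kap0 * A.D w)| * |A.Gam ξ w * (c.θ2 (q + δ) - c.θ2 q) +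
              4 * δ * c.θ2 (q + δ) + A.Bq ξ w * (c.θ1 (q + δ) - c.θ1 q)|
            ≤ M0 * (ε / (3 * M0) + ε / (3 * M0) + ε / (3 * M0)) := by
              refine mul_le_mul (hpre w) ?_ (abs_nonneg _) hM0.le
              exact (abs_add_three _ _ _).trans (by linarith)
          _ = ε := by field_simp; ring
  · intro δ hδ ξ
    exact (tK_cont A χ hχ hχ0 hχs c hsupp hδ).comp (continuous_const.prodMk continuous_id)

end

end Sing
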