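import Pool.Agent.Work.MP_3893a0_gt.Par34

/-! Module PAR5 : mass and concentration of the approximate identity `mK`. -/

open scoped ContDiff Topology BoundedContinuousFunction
open MeasureTheory Metric Set Filter

noncomputable section

namespace Sing

namespace LocCoef

variable (A : LocCoef)

theorem p5_D_cont : ContinuousOn A.D (ball 0 4) := by
  have h1 := A.smooth11.continuousOn
  have h2 := A.smooth22.continuousOn
  have h3 := A.smoothc.continuousOn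
  exact (h1.mul h2).sub (h3.norm.pow 2)

theorem p5_D_pos {w : E} (hw : ‖w‖ < 4) : 0 < A.D w :=
  A.det_pos w (by simpa [mem_ball_zero_iff] using hw)

theorem p5_q_cont (v : E) : ContinuousOn (fun w => A.q w v) (ball 0 4) := by
  have h1 := A.smooth11.continuousOn
  have h2 := A.smooth22.continuousOn
  have h3 := A.smoothc.continuousOn
  have h4 := A.p5_D_cont
  unfold LocCoef.q
  refine ContinuousOn.div ?_ h4 (fun w hw => (A.p5_D_pos (by simpa [mem_ball_zero_iff] using hw)).ne')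
  refine ((h2.mul continuousOn_const).add (h1.mul continuousOn_const)).sub ?_
  refine continuousOn_const.mul ?_
  refine Complex.continuous_re.comp_continuousOn ?_
  exact (Complex.continuous_conj.comp_continuousOn h3).mul continuousOn_const

theorem p5_q_smul (w v : E) (r : ℝ) : A.q w (r • v) = r ^ 2 * A.q w v := by
  have h1 : (starRingEnd ℂ (A.c w) * (starRingEnd ℂ (r • v).1 * (r • v).2)).re =
      r ^ 2 * (starRingEnd ℂ (A.c w) * (starRingEnd ℂ v.1 * v.2)).re := by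
    have : starRingEnd ℂ (A.c w) * (starRingEnd ℂ (r • v).1 * (r • v).2) =
        ((r ^ 2 : ℝ) : ℂ) * (starRingEnd ℂ (A.c w) * (starRingEnd ℂ v.1 * v.2)) := by
      simp only [Prod.smul_fst, Prod.smul_snd, Complex.real_smul, map_mul, Complex.conj_ofReal]
      push_cast
      ring
    rw [this, Complex.re_ofReal_mul]
  have h2 : ‖(r • v).1‖ ^ 2 = r ^ 2 * ‖v.1‖ ^ 2 := by
    rw [Prod.smul_fst, norm_smul, mul_pow, Real.norm_eq_abs, sq_abs]
  have h3 : ‖(r • v).2‖ ^ 2 = r ^ 2 * ‖v.2‖ ^ 2 := by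
    rw [Prod.smul_snd, norm_smul, mul_pow, Real.norm_eq_abs, sq_abs]
  unfold LocCoef.q
  rw [h1, h2, h3]
  ring

theorem p5_D_lower : ∃ d > 0, ∀ w : E, ‖w‖ ≤ 2 → d ≤ A.D w := by
  have hK : IsCompact (closedBall (0 : E) 2) := isCompact_closedBall _ _
  have hsub : closedBall (0 : E) 2 ⊆ ball 0 4 := closedBall_subset_ball (by norm_num)
  obtain ⟨w0, hw0, hmin⟩ := hK.exists_isMinOn ⟨0, by simp⟩ (A.p5_D_cont.mono hsub)
  refine ⟨A.D w0, A.det_pos w0 (hsub hw0), fun w hw => hmin ?_⟩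
  simpa [mem_closedBall_zero_iff] using hw

end LocCoef

theorem p5_chi_bound (χ : E → ℝ) (hχ : ContDiff ℝ ∞ χ) (hχs : ∀ z, χ z ≠ 0 → ‖z‖ ≤ 2) :
    ∃ M > 0, ∀ z, χ z ≤ M := by
  have hK : IsCompact (closedBall (0 : E) 2) := isCompact_closedBall _ _
  obtain ⟨w0, hw0, hmax⟩ := hK.exists_isMaxOn ⟨0, by simp⟩ hχ.continuous.continuousOn
  refine ⟨max (χ w0) 1, by positivity, fun z => ?_⟩
  by_cases hz : χ z = 0
  · rw [hz]; positivity
  · refine le_trans ?_ (le_max_left _ _)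
    apply hmax
    simpa [mem_closedBall_zero_iff] using hχs z hz

section

variable (A : LocCoef) (χ : E → ℝ) (hχ : ContDiff ℝ ∞ χ) (hχ0 : ∀ z, 0 ≤ χ z)
  (hχs : ∀ z, χ z ≠ 0 → ‖z‖ ≤ 2) (c : Cst)
  (hsupp : ∀ w : E, ‖w‖ ≤ 2 → ∀ v : E, A.q w v < c.σ → ‖v‖ ≤ 1)

include hχ hχ0 hχs in
theorem p5_mK_bound : ∃ C b : ℝ, 0 ≤ C ∧ 0 < b ∧ ∀ δ : ℝ, 0 < δ → ∀ ξ w : E,
    |mK A χ c δ ξ w| ≤ C * δ * ((b * ‖ξ - w‖ ^ 2 + δ)⁻¹) ^ 3 := by
  obtain ⟨b, hb, B, hq⟩ := A.q_bounds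
  obtain ⟨d, hd, hD⟩ := A.p5_D_lower
  obtain ⟨M, hM, hχM⟩ := p5_chi_bound χ hχ hχs
  obtain ⟨K, hK, hθ⟩ := c.θ_bounds
  have hk0 := kap0_pos
  refine ⟨M / (kap0 * d) * (4 * K), b, by positivity, hb, fun δ hδ ξ w => ?_⟩
  by_cases hw : χ w = 0
  · unfold mK
    rw [hw]
    simp only [zero_div, zero_mul, abs_zero]
    positivity
  have hw2 : ‖w‖ ≤ 2 := hχs w hw
  have hDw := hD w hw2
  have hq1 := (hq w (by linarith) (ξ - w)).1
  have hs : b * ‖ξ - w‖ ^ 2 + δ ≤ A.q w (ξ - w) + δ := by linarith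
  have hs0 : 0 < b * ‖ξ - w‖ ^ 2 + δ := by positivity
  have hs1 : 0 < A.q w (ξ - w) + δ := by linarith
  have hθ2 := (hθ _ hs1).2.2.1
  unfold mK
  rw [abs_mul, abs_mul, abs_of_nonneg (by positivity : (0 : ℝ) ≤ 4 * δ)]
  have h1 : |χ w / (kap0 * A.D w)| ≤ M / (kap0 * d) := by
    rw [abs_of_nonneg (div_nonneg (hχ0 w) (by positivity [hd.trans_le hDw]))]
    have : 0 < kap0 * d := by positivity
    gcongr
    exact hχM w
  have h2 : |c.θ2 (A.q w (ξ - w) + δ)| ≤ K * ((b * ‖ξ - w‖ ^ 2 + δ)⁻¹) ^ 3 := by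
    refine hθ2.trans ?_
    rw [div_eq_mul_inv, ← inv_pow]
    gcongr
  calc |χ w / (kap0 * A.D w)| * (4 * δ * |c.θ2 (A.q w (ξ - w) + δ)|)
      ≤ M / (kap0 * d) * (4 * δ * (K * ((b * ‖ξ - w‖ ^ 2 + δ)⁻¹) ^ 3)) := by
        have : 0 < kap0 * d := by positivity
        gcongr
    _ = _ := by ring

include hχs in
theorem p5_mK_supp (δ : ℝ) (ξ w : E) (h : mK A χ c δ ξ w ≠ 0) : ‖w‖ ≤ 2 := by
  apply hχs
  intro h0
  apply h
  unfold mK
  rw [h0]
  simp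

include hχ hχ0 hχs hsupp in
theorem p5_mK_integrable {δ : ℝ} (hδ : 0 < δ) (ξ : E) : Integrable (mK A χ c δ ξ) := by
  have hc : Continuous (mK A χ c δ ξ) :=
    (mK_cont A χ hχ hχ0 hχs c hsupp hδ).comp (Continuous.prodMk_right ξ)
  refine hc.integrable_of_hasCompactSupport ?_
  refine HasCompactSupport.intro (isCompact_closedBall (0 : E) 2) (fun w hw => ?_)
  by_contra h
  exact hw (by simpa [mem_closedBall_zero_iff] using p5_mK_supp A χ hχs c δ ξ w h)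

include hχ hχ0 hχs hsupp in
/-- (PAR5) -/
theorem mK_conc : ∀ r > 0, ∀ ε > 0, ∃ δ0 > 0, ∀ δ, 0 < δ → δ < δ0 → ∀ ξ : E,
    ∫ w in {w | r ≤ dist ξ w}, mK A χ c δ ξ w ≤ ε := by
  intro r hr ε hε
  obtain ⟨C, b, hC, hb, hbd⟩ := p5_mK_bound A χ hχ hχ0 hχs c
  obtain ⟨V, hV⟩ : ∃ V : ℝ, V = (volume (closedBall (0 : E) 2)).toReal := ⟨_, rfl⟩
  have hV0 : 0 ≤ V := by rw [hV]; positivity
  obtain ⟨R, hR⟩ : ∃ R : ℝ, R = C * ((b * r ^ 2)⁻¹) ^ 3 * V := ⟨_, rfl⟩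
  have hR0 : 0 ≤ R := by rw [hR]; positivity
  refine ⟨ε / (R + 1), by positivity, fun δ hδ hδ0 ξ => ?_⟩
  have hint := p5_mK_integrable A χ hχ hχ0 hχs c hsupp hδ ξ
  have hmeas : MeasurableSet {w : E | r ≤ dist ξ w} :=
    (isClosed_le continuous_const (continuous_const.dist continuous_id)).measurableSet
  have hind : Integrable (indicator (closedBall (0 : E) 2)
      (fun _ => C * δ * ((b * r ^ 2)⁻¹) ^ 3)) := by
    rw [integrable_indicator_iff measurableSet_closedBall]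
    exact integrableOn_const (isCompact_closedBall (0 : E) 2).measure_ne_top
  have h1 : ∫ w in {w | r ≤ dist ξ w}, mK A χ c δ ξ w ≤
      ∫ w in {w | r ≤ dist ξ w}, indicator (closedBall (0 : E) 2)
      (fun _ => C * δ * ((b * r ^ 2)⁻¹) ^ 3) w := by
    refine setIntegral_mono_on hint.integrableOn hind.integrableOn hmeas (fun w hw => ?_)
    by_cases h0 : mK A χ c δ ξ w = 0
    · rw [h0]
      exact indicator_nonneg (fun _ _ => by positivity) _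
    · have hw2 := p5_mK_supp A χ hχs c δ ξ w h0
      rw [indicator_of_mem (by simpa [mem_closedBall_zero_iff] using hw2)]
      refine (le_abs_self _).trans ((hbd δ hδ ξ w).trans ?_)
      have hw' : r ≤ ‖ξ - w‖ := by
        have : r ≤ dist ξ w := hw
        rwa [dist_eq_norm] at this
      have : b * r ^ 2 ≤ b * ‖ξ - w‖ ^ 2 + δ := by
        have : b * r ^ 2 ≤ b * ‖ξ - w‖ ^ 2 := by gcongr
        linarith
      gcongr
  have h2 : ∫ w in {w | r ≤ dist ξ w}, indicator (closedBall (0 : E) 2)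
      (fun _ => C * δ * ((b * r ^ 2)⁻¹) ^ 3) w ≤ ∫ w, indicator (closedBall (0 : E) 2)
      (fun _ => C * δ * ((b * r ^ 2)⁻¹) ^ 3) w := by
    refine setIntegral_le_integral hind (Eventually.of_forall (fun w => ?_))
    exact indicator_nonneg (fun _ _ => by positivity) _
  have h3 : ∫ w, indicator (closedBall (0 : E) 2)
      (fun _ => C * δ * ((b * r ^ 2)⁻¹) ^ 3) w = δ * R := by
    rw [integral_indicator measurableSet_closedBall, setIntegral_const, hR, hV]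
    simp only [Measure.real, smul_eq_mul]
    ring
  have h4 : δ * R ≤ ε := by
    have h5 : δ * (R + 1) < ε := by
      rwa [lt_div_iff₀ (by positivity)] at hδ0
    nlinarith
  linarith

/-! ### the mass -/

theorem p5_haar : (volume : Measure E).IsAddHaarMeasure := by
  rw [Measure.volume_eq_prod]
  infer_instance

theorem p5_mass_eq {δ : ℝ} (hδ : 0 < δ) (ξ : E) :
    ∫ w, mK A χ c δ ξ w = ∫ u : E, δ ^ 2 * mK A χ c δ ξ (ξ - √δ • u) := by
  have hh := p5_haar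
  have h1 : ∫ w, mK A χ c δ ξ w = ∫ v, mK A χ c δ ξ (ξ - v) :=
    (integral_sub_left_eq_self (fun w => mK A χ c δ ξ w) volume ξ).symm
  have h2 := Measure.integral_comp_smul volume (fun v : E => mK A χ c δ ξ (ξ - v)) (√δ)
  have hfr : Module.finrank ℝ E = 4 := by
    rw [Module.finrank_prod, Complex.finrank_real_complex]
  rw [integral_const_mul, h2, hfr, h1, smul_eq_mul]
  have h3 : √δ ^ 4 = δ ^ 2 := by
    have : √δ ^ 4 = (√δ ^ 2) ^ 2 := by ring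
    rw [this, Real.sq_sqrt hδ.le]
  rw [h3, abs_of_nonneg (by positivity), ← mul_assoc, mul_inv_cancel₀ (by positivity), one_mul]

theorem p5_integrable_bound {b : ℝ} (hb : 0 < b) (C : ℝ) :
    Integrable (fun u : E => C * ((b * ‖u‖ ^ 2 + 1)⁻¹) ^ 3) := by
  have hh := p5_haar
  have hfr : Module.finrank ℝ E = 4 := by
    rw [Module.finrank_prod, Complex.finrank_real_complex]
  have h0 : Integrable (fun u : E => ((1 : ℝ) + ‖u‖ ^ 2) ^ (-(6 : ℝ) / 2)) :=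
    integrable_rpow_neg_one_add_norm_sq (by rw [hfr]; norm_num)
  have hm : 0 < min 1 b := lt_min one_pos hb
  refine ((h0.const_mul (((min 1 b)⁻¹) ^ 3)).mono' ?_ (Eventually.of_forall (fun u => ?_))).const_mul C
  · have hcont : Continuous (fun u : E => ((b * ‖u‖ ^ 2 + 1)⁻¹) ^ 3) := by
      refine (Continuous.inv₀ ?_ (fun u => ?_)).pow 3
      · fun_prop
      · positivity
    exact hcont.aestronglyMeasurable
  · have h1 : ((1 : ℝ) + ‖u‖ ^ 2) ^ (-(6 : ℝ) / 2) = (((1 : ℝ) + ‖u‖ ^ 2)⁻¹) ^ 3 := by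
      rw [show (-(6 : ℝ) / 2) = -((3 : ℕ) : ℝ) by norm_num, Real.rpow_neg (by positivity),
        Real.rpow_natCast, inv_pow]
    rw [h1, Real.norm_eq_abs, abs_of_nonneg (by positivity), ← mul_pow, ← mul_inv]
    have h2 : min 1 b * (1 + ‖u‖ ^ 2) ≤ b * ‖u‖ ^ 2 + 1 := by
      have h3 : min 1 b ≤ 1 := min_le_left _ _
      have h4 : min 1 b * ‖u‖ ^ 2 ≤ b * ‖u‖ ^ 2 := by
        have := min_le_right 1 b
        gcongr
      nlinarith
    have h5 : 0 < min 1 b * (1 + ‖u‖ ^ 2) := by positivity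
    gcongr

include hχ hχ0 hχs hsupp in
theorem p5_tendsto (ξ0 : E) (hξ0 : ‖ξ0‖ ≤ 3) :
    Tendsto (fun p : ℝ × E => ∫ u : E, p.1 ^ 2 * mK A χ c p.1 p.2 (p.2 - √p.1 • u))
      (𝓝[>] 0 ×ˢ 𝓝 ξ0) (𝓝 (χ ξ0)) := by
  obtain ⟨C, b, hC, hb, hbd⟩ := p5_mK_bound A χ hχ hχ0 hχs c
  have hξ4 : ‖ξ0‖ < 4 := by linarith
  have hD0 := A.p5_D_pos hξ4
  have hk0 := kap0_pos
  have hlim : χ ξ0 = ∫ u : E, χ ξ0 / (kap0 * A.D ξ0) * (8 * (A.q ξ0 u + 1)⁻¹ ^ 3) := by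
    rw [integral_const_mul, A.integral_q hξ4]
    field_simp
  rw [hlim]
  have hpos : ∀ᶠ p : ℝ × E in 𝓝[>] 0 ×ˢ 𝓝 ξ0, 0 < p.1 :=
    tendsto_fst.eventually (self_mem_nhdsWithin)
  refine tendsto_integral_filter_of_dominated_convergence
    (fun u : E => C * ((b * ‖u‖ ^ 2 + 1)⁻¹) ^ 3) ?_ ?_ (p5_integrable_bound hb C) ?_
  · filter_upwards [hpos] with p hp
    have hc : Continuous (fun u : E => p.1 ^ 2 * mK A χ c p.1 p.2 (p.2 - √p.1 • u)) := by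
      refine continuous_const.mul ?_
      have h1 : Continuous (fun u : E => (p.2, p.2 - √p.1 • u)) := by fun_prop
      exact (mK_cont A χ hχ hχ0 hχs c hsupp hp).comp h1
    exact hc.aestronglyMeasurable
  · filter_upwards [hpos] with p hp
    refine Eventually.of_forall (fun u => ?_)
    rw [Real.norm_eq_abs, abs_mul, abs_of_nonneg (by positivity : (0 : ℝ) ≤ p.1 ^ 2)]
    have h1 := hbd p.1 hp p.2 (p.2 - √p.1 • u)
    have h2 : p.2 - (p.2 - √p.1 • u) = √p.1 • u := by abel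
    rw [h2, norm_smul, Real.norm_eq_abs, abs_of_nonneg (Real.sqrt_nonneg _), mul_pow,
      Real.sq_sqrt hp.le] at h1
    have h3 : b * (p.1 * ‖u‖ ^ 2) + p.1 = p.1 * (b * ‖u‖ ^ 2 + 1) := by ring
    rw [h3] at h1
    calc p.1 ^ 2 * |mK A χ c p.1 p.2 (p.2 - √p.1 • u)|
        ≤ p.1 ^ 2 * (C * p.1 * ((p.1 * (b * ‖u‖ ^ 2 + 1))⁻¹) ^ 3) := by gcongr
      _ = C * ((b * ‖u‖ ^ 2 + 1)⁻¹) ^ 3 := by
          have : b * ‖u‖ ^ 2 + 1 ≠ 0 := by positivity
          field_simp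
  · refine Eventually.of_forall (fun u => ?_)
    -- pointwise limit
    have hw : Tendsto (fun p : ℝ × E => p.2 - √p.1 • u) (𝓝[>] 0 ×ˢ 𝓝 ξ0) (𝓝 ξ0) := by
      have hs : Tendsto (fun p : ℝ × E => √p.1) (𝓝[>] 0 ×ˢ 𝓝 ξ0) (𝓝 0) := by
        have h1 : Tendsto (fun x : ℝ => √x) (𝓝[>] 0) (𝓝 0) := by
          have := (Real.continuous_sqrt.tendsto 0).mono_left
            (nhdsWithin_le_nhds (s := Ioi (0 : ℝ)))
          simpa using this
        exact h1.comp tendsto_fst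
      have h2 := (tendsto_snd (f := 𝓝[>] (0 : ℝ)) (g := 𝓝 ξ0)).sub (hs.smul_const u)
      simpa using h2
    have hball : ball (0 : E) 4 ∈ 𝓝 ξ0 :=
      isOpen_ball.mem_nhds (by simpa [mem_ball_zero_iff] using hξ4)
    have hq : Tendsto (fun p : ℝ × E => A.q (p.2 - √p.1 • u) u) (𝓝[>] 0 ×ˢ 𝓝 ξ0)
        (𝓝 (A.q ξ0 u)) :=
      ((A.p5_q_cont u).continuousAt hball).tendsto.comp hw
    have hD : Tendsto (fun p : ℝ × E => A.D (p.2 - √p.1 • u)) (𝓝[>] 0 ×ˢ 𝓝 ξ0)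
        (𝓝 (A.D ξ0)) :=
      (A.p5_D_cont.continuousAt hball).tendsto.comp hw
    have hχt : Tendsto (fun p : ℝ × E => χ (p.2 - √p.1 • u)) (𝓝[>] 0 ×ˢ 𝓝 ξ0)
        (𝓝 (χ ξ0)) :=
      (hχ.continuous.tendsto ξ0).comp hw
    obtain ⟨b', hb', B', hqb⟩ := A.q_bounds
    have hq0 : 0 ≤ A.q ξ0 u := le_trans (by positivity) (hqb ξ0 hξ0 u).1
    have hq1 : ∀ᶠ p : ℝ × E in 𝓝[>] 0 ×ˢ 𝓝 ξ0, 0 < A.q (p.2 - √p.1 • u) u + 1 := by
      have h1 : Tendsto (fun p : ℝ × E => A.q (p.2 - √p.1 • u) u + 1) (𝓝[>] 0 ×ˢ 𝓝 ξ0)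
          (𝓝 (A.q ξ0 u + 1)) := hq.add_const 1
      exact h1.eventually (lt_mem_nhds (by linarith))
    have hs : Tendsto (fun p : ℝ × E => p.1 * (A.q (p.2 - √p.1 • u) u + 1))
        (𝓝[>] 0 ×ˢ 𝓝 ξ0) (𝓝[>] 0) := by
      refine tendsto_nhdsWithin_iff.mpr ⟨?_, ?_⟩
      · have h1 : Tendsto (fun p : ℝ × E => p.1) (𝓝[>] 0 ×ˢ 𝓝 ξ0) (𝓝 0) :=
          tendsto_fst.mono_right nhdsWithin_le_nhds
        have h2 := h1.mul (hq.add_const 1)
        simpa using h2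
      · filter_upwards [hpos, hq1] with p hp hp1
        exact mul_pos hp hp1
    have hθ := c.θ2_asymp.comp hs
    have hfin : Tendsto (fun p : ℝ × E => χ (p.2 - √p.1 • u) / (kap0 * A.D (p.2 - √p.1 • u)) *
        (4 * (((fun s => s ^ 3 * c.θ2 s) ∘ fun p : ℝ × E =>
          p.1 * (A.q (p.2 - √p.1 • u) u + 1)) p) *
        ((A.q (p.2 - √p.1 • u) u + 1)⁻¹) ^ 3)) (𝓝[>] 0 ×ˢ 𝓝 ξ0)
        (𝓝 (χ ξ0 / (kap0 * A.D ξ0) * (4 * 2 * ((A.q ξ0 u + 1)⁻¹) ^ 3))) := by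
      refine (hχt.div (hD.const_mul kap0) (by positivity)).mul ?_
      refine (hθ.const_mul 4).mul ?_
      exact ((hq.add_const 1).inv₀ (by positivity)).pow 3
    have h8 : (4 : ℝ) * 2 = 8 := by norm_num
    rw [h8] at hfin
    refine hfin.congr' ?_
    filter_upwards [hpos, hq1] with p hp hp1
    have h2 : p.2 - (p.2 - √p.1 • u) = √p.1 • u := by abel
    unfold mK
    rw [h2, A.p5_q_smul, Real.sq_sqrt hp.le]
    have h3 : p.1 * A.q (p.2 - √p.1 • u) u + p.1 = p.1 * (A.q (p.2 - √p.1 • u) u + 1) := by ring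
    rw [h3]
    simp only [Function.comp]
    have h4 : A.q (p.2 - √p.1 • u) u + 1 ≠ 0 := hp1.ne'
    generalize A.q (p.2 - √p.1 • u) u + 1 = Q at *
    generalize c.θ2 (p.1 * Q) = T at *
    generalize χ (p.2 - √p.1 • u) / (kap0 * A.D (p.2 - √p.1 • u)) = W at *
    field_simp

include hχs hsupp in
theorem p5_zero {δ : ℝ} (hδ : 0 < δ) (ξ : E) (hξ : 3 < ‖ξ‖) (w : E) : mK A χ c δ ξ w = 0 := by
  by_contra h
  have hw := p5_mK_supp A χ hχs c δ ξ w h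
  by_cases hq : A.q w (ξ - w) < c.σ
  · have h1 := hsupp w hw _ hq
    have h2 : ‖ξ‖ ≤ ‖ξ - w‖ + ‖w‖ := by
      simpa using norm_add_le (ξ - w) w
    linarith
  · push Not at hq
    apply h
    unfold mK
    rw [(c.θ_zero (s := A.q w (ξ - w) + δ) (by linarith)).2.2]
    simp

include hχ hχ0 hχs hsupp in
/-- (PAR5) -/
theorem mK_mass : ∀ ε > 0, ∃ δ0 > 0, ∀ δ, 0 < δ → δ < δ0 → ∀ ξ,
    |(∫ w, mK A χ c δ ξ w) - χ ξ| ≤ ε := by
  intro ε hε
  have hK : IsCompact (closedBall (0 : E) 3) := isCompact_closedBall _ _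
  have hP : ∀ ξ0 ∈ closedBall (0 : E) 3, ∀ᶠ z : ℝ × E in 𝓝 ((0 : ℝ), ξ0),
      0 < z.1 → |(∫ w, mK A χ c z.1 z.2 w) - χ z.2| ≤ ε := by
    intro ξ0 hξ0
    have h1 := p5_tendsto A χ hχ hχ0 hχs c hsupp ξ0 (by simpa using hξ0)
    have h2 : Tendsto (fun p : ℝ × E => χ p.2) (𝓝[>] 0 ×ˢ 𝓝 ξ0) (𝓝 (χ ξ0)) :=
      (hχ.continuous.tendsto ξ0).comp tendsto_snd
    have h3 := (h1.sub h2).abs
    rw [sub_self, abs_zero] at h3
    have h4 := h3.eventually (gt_mem_nhds hε)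
    have h5 : 𝓝[>] (0 : ℝ) ×ˢ 𝓝 ξ0 = 𝓝[Ioi (0 : ℝ) ×ˢ (univ : Set E)] ((0 : ℝ), ξ0) := by
      rw [nhdsWithin_prod_eq, nhdsWithin_univ]
    rw [h5, eventually_nhdsWithin_iff] at h4
    filter_upwards [h4] with z hz hz0
    have h6 := hz ⟨hz0, mem_univ _⟩
    rw [p5_mass_eq A χ c hz0]
    exact h6.le
  have h := hK.eventually_forall_of_forall_eventually
    (P := fun (δ : ℝ) (ξ : E) => 0 < δ → |(∫ w, mK A χ c δ ξ w) - χ ξ| ≤ ε) hP
  obtain ⟨δ0, hδ0, h'⟩ := Metric.eventually_nhds_iff.mp h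
  refine ⟨δ0, hδ0, fun δ hδ hδ1 ξ => ?_⟩
  by_cases hξ : ‖ξ‖ ≤ 3
  · refine h' (y := δ) ?_ ξ (by simpa using hξ) hδ
    rw [Real.dist_eq, sub_zero, abs_of_pos hδ]
    exact hδ1
  · push Not at hξ
    have h1 : (fun w => mK A χ c δ ξ w) = fun _ => 0 := by
      funext w
      exact p5_zero A χ hχs c hsupp hδ ξ hξ w
    have h2 : χ ξ = 0 := by
      by_contra h3
      have := hχs ξ h3
      linarith
    rw [h1, h2]
    simp [hε.le]

end

end Sing
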