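import Pool.Agent.Work.MP_3893a0_gt.Defs

/-! Module PAR: the right Levi parametrix with positive remainder (Euclidean, in one chart).

`ψ(s) = 1/s - 2L/√s`, `G(x) = x e^{-1/x}` (`x > 0`), `Θ(s) = G(ψ(s) - τ)`,
`q(w, v) = ⟨A(w)⁻¹ v, v⟩`, `k_δ(ξ,w) = χ(w) / (κ₀ D(w)) Θ(q(w, ξ-w) + δ)`,
`m_δ = χ/(κ₀ D) 4 δ Θ''(q+δ)`, `t_δ = P k_δ + m_δ`. -/

open scoped ContDiff Topology BoundedContinuousFunction
open MeasureTheory Metric Set Filter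

noncomputable section

namespace Sing

/-! ### PAR1 : the scalar function `Θ` -/

def psi (L s : ℝ) : ℝ := 1 / s - 2 * L / √s

/-- `x e^{-1/x}` for `x > 0`, `0` otherwise -/
def Gg (x : ℝ) : ℝ := x * expNegInvGlue x
/-- its derivative -/
def Gg1 (x : ℝ) : ℝ := (1 + x⁻¹) * expNegInvGlue x
/-- its second derivative -/
def Gg2 (x : ℝ) : ℝ := (x⁻¹) ^ 3 * expNegInvGlue x

def psi1 (L s : ℝ) : ℝ := -1 / s ^ 2 + L / (s * √s)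
def psi2 (L s : ℝ) : ℝ := 2 / s ^ 3 - 3 / 2 * L / (s ^ 2 * √s)

def Th (L τ s : ℝ) : ℝ := Gg (psi L s - τ)
def Th1 (L τ s : ℝ) : ℝ := Gg1 (psi L s - τ) * psi1 L s
def Th2 (L τ s : ℝ) : ℝ := Gg2 (psi L s - τ) * psi1 L s ^ 2 + Gg1 (psi L s - τ) * psi2 L s

/-- constants: `L = 8 C`, `τ ≥ 1/σ` with `√σ ≤ 1/(4 L)` -/
structure Cst where
  C : ℝ
  hC : 0 < C
  τ : ℝ
  σ : ℝ
  hσ : 0 < σ
  hσ1 : √σ ≤ 1 / (32 * C)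
  hτ : 1 / σ ≤ τ

namespace Cst

variable (c : Cst)

def θ (s : ℝ) : ℝ := Th (8 * c.C) c.τ s
def θ1 (s : ℝ) : ℝ := Th1 (8 * c.C) c.τ s
def θ2 (s : ℝ) : ℝ := Th2 (8 * c.C) c.τ s

end Cst

/-! ### PAR2 : the quadratic form -/

namespace LocCoef

variable (A : LocCoef)

def D (w : E) : ℝ := A.a11 w * A.a22 w - ‖A.c w‖ ^ 2

/-- `q(w, v)` -/
def q (w v : E) : ℝ :=
  (A.a22 w * ‖v.1‖ ^ 2 + A.a11 w * ‖v.2‖ ^ 2 -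
    2 * (starRingEnd ℂ (A.c w) * (starRingEnd ℂ v.1 * v.2)).re) / A.D w

/-- derivative of `v ↦ q(w, v)` in the direction `h` -/
def dq (w v h : E) : ℝ :=
  2 * (A.a22 w * (starRingEnd ℂ v.1 * h.1).re + A.a11 w * (starRingEnd ℂ v.2 * h.2).re -
    (starRingEnd ℂ (A.c w) * (starRingEnd ℂ h.1 * v.2 + starRingEnd ℂ v.1 * h.2)).re) / A.D w

/-- the gradient square of `q(w, · - w)` at `ξ` -/
def Gam (ξ w : E) : ℝ :=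
  A.a11 ξ * (A.dq w (ξ - w) e1 ^ 2 + A.dq w (ξ - w) (Complex.I • e1) ^ 2) +
  A.a22 ξ * (A.dq w (ξ - w) e2 ^ 2 + A.dq w (ξ - w) (Complex.I • e2) ^ 2) +
  2 * (A.c ξ).re * (A.dq w (ξ - w) e1 * A.dq w (ξ - w) e2 +
    A.dq w (ξ - w) (Complex.I • e1) * A.dq w (ξ - w) (Complex.I • e2)) +
  2 * (A.c ξ).im * (A.dq w (ξ - w) e1 * A.dq w (ξ - w) (Complex.I • e2) -
    A.dq w (ξ - w) (Complex.I • e1) * A.dq w (ξ - w) e2)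

/-- `P_ξ q(w, ξ - w)` -/
def Bq (ξ w : E) : ℝ :=
  (4 * A.a11 ξ * A.a22 w + 4 * A.a22 ξ * A.a11 w -
    8 * ((A.c ξ).re * (A.c w).re + (A.c ξ).im * (A.c w).im)) / A.D w

end LocCoef

/-- normalization `κ₀ = ∫ 8 (|v₁|² + |v₂|² + 1)^{-3}` -/
def kap0 : ℝ := ∫ v : E, 8 * (‖v.1‖ ^ 2 + ‖v.2‖ ^ 2 + 1)⁻¹ ^ 3

section kernels

variable (A : LocCoef) (χ : E → ℝ) (c : Cst)

def kK (δ : ℝ) (ξ w : E) : ℝ := χ w / (kap0 * A.D w) * c.θ (A.q w (ξ - w) + δ)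

def mK (δ : ℝ) (ξ w : E) : ℝ := χ w / (kap0 * A.D w) * (4 * δ * c.θ2 (A.q w (ξ - w) + δ))

def tK (δ : ℝ) (ξ w : E) : ℝ := χ w / (kap0 * A.D w) *
  ((A.Gam ξ w + 4 * δ) * c.θ2 (A.q w (ξ - w) + δ) + A.Bq ξ w * c.θ1 (A.q w (ξ - w) + δ))

end kernels

end Sing
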